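import Pool.Agent.Helper618_KS.Defs

/-!
Part `Bessel` of the proof for MP_237b21_an.
-/

open MeasureTheory Filter Topology Set Real
open scoped ENNReal NNReal

set_option autoImplicit false

namespace H618KS

section

theorem bj_zero (a : ℝ) : bj a 0 = 1 := by
  unfold bj
  rw [tsum_eq_single 0]
  · simp
  · intro k hk
    have : ((0 : ℝ) ^ 2 / 4) ^ k = 0 := by
      rw [zero_pow (by norm_num), zero_div, zero_pow hk]
    rw [this]; simp

end

section

theorem bj_neg (a t : ℝ) : bj a (-t) = bj a t := by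
  unfold bj
  simp only [neg_sq]

end

section

namespace bj_rec_aux
/-- the shifted factorial -/
noncomputable def PP (a : ℝ) (k : ℕ) : ℝ := ∏ i ∈ Finset.range k, (a + i)

/-- the terms of the series -/
noncomputable def TT (a x : ℝ) (k : ℕ) : ℝ := (-1 : ℝ) ^ k * x ^ k / ((k.factorial : ℝ) * PP a k)

theorem PP_pos {a : ℝ} (ha : 0 < a) (k : ℕ) : 0 < PP a k :=
  Finset.prod_pos fun i _ => by positivity

theorem PP_succ (a : ℝ) (k : ℕ) : PP a (k + 1) = PP a k * (a + k) := by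
  unfold PP; rw [Finset.prod_range_succ]

theorem PP_succ' (a : ℝ) (k : ℕ) : PP a (k + 1) = a * PP (a + 1) k := by
  unfold PP
  rw [Finset.prod_range_succ', Nat.cast_zero, add_zero, mul_comm]
  congr 1
  refine Finset.prod_congr rfl fun i _ => ?_
  push_cast; ring

theorem PP_ge {a : ℝ} (ha : 0 < a) (k : ℕ) : min 1 a ≤ PP a k := by
  cases k with
  | zero => simp [PP]
  | succ k =>
    rw [PP_succ']
    have h1 : 1 ≤ PP (a + 1) k := by
      unfold PP
      have : ∀ s : Finset ℕ, 1 ≤ ∏ i ∈ s, (a + 1 + (i : ℝ)) := by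
        intro s
        induction s using Finset.induction_on with
        | empty => simp
        | insert j s hj ih =>
          rw [Finset.prod_insert hj]
          have : (0 : ℝ) ≤ j := Nat.cast_nonneg j
          nlinarith
      exact this _
    have h2 : min 1 a ≤ a := min_le_right _ _
    nlinarith

theorem TT_summable {a : ℝ} (ha : 0 < a) {x : ℝ} (hx : 0 ≤ x) : Summable (TT a x) := by
  have hm : 0 < min 1 a := lt_min one_pos ha
  refine Summable.of_norm_bounded (g := fun k => (min 1 a)⁻¹ * (x ^ k / (k.factorial : ℝ)))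
    ((Real.summable_pow_div_factorial x).mul_left _) fun k => ?_
  have hf : (0 : ℝ) < k.factorial := by exact_mod_cast k.factorial_pos
  have hP := PP_pos ha k
  rw [TT, norm_div, norm_mul, norm_pow, norm_neg, norm_one, one_pow, one_mul,
    Real.norm_of_nonneg (by positivity), Real.norm_of_nonneg (by positivity)]
  rw [div_mul_eq_div_div, div_eq_mul_inv, mul_comm]
  exact mul_le_mul_of_nonneg_right (inv_anti₀ hm (PP_ge ha k)) (by positivity)

theorem TT_rec {a : ℝ} (ha : 0 < a) (x : ℝ) (k : ℕ) :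
    TT a x (k + 1) = TT (a + 1) x (k + 1) - x / (a * (a + 1)) * TT (a + 2) x k := by
  have hQ : PP (a + 1) k ≠ 0 := (PP_pos (by linarith) k).ne'
  have h1 : PP a (k + 1) = a * PP (a + 1) k := PP_succ' a k
  have h2 : PP (a + 1) (k + 1) = PP (a + 1) k * (a + 1 + k) := PP_succ _ _
  have h3 : PP (a + 1) (k + 1) = (a + 1) * PP (a + 2) k := by
    rw [PP_succ', show a + 1 + 1 = a + 2 by ring]
  have ha1 : a + 1 ≠ 0 := by positivity
  have hak : a + 1 + (k : ℝ) ≠ 0 := by positivity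
  have h4 : PP (a + 2) k = PP (a + 1) k * (a + 1 + k) / (a + 1) := by
    rw [eq_div_iff ha1, mul_comm, ← h3, h2]
  have hf : ((k.factorial : ℕ) : ℝ) ≠ 0 := by exact_mod_cast k.factorial_ne_zero
  have hk1 : ((k : ℝ) + 1) ≠ 0 := by positivity
  unfold TT
  rw [h1, h2, h4, Nat.factorial_succ]
  push_cast
  rw [pow_succ (-1 : ℝ) k, pow_succ x k]
  field_simp
  ring
end bj_rec_aux

theorem bj_rec {a : ℝ} (ha : 0 < a) (t : ℝ) :
    bj a t = bj (a + 1) t - t ^ 2 / (4 * a * (a + 1)) * bj (a + 2) t := by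
  have hx : 0 ≤ t ^ 2 / 4 := by positivity
  have h0 : ∀ a : ℝ, bj a t = ∑' k : ℕ, bj_rec_aux.TT a (t ^ 2 / 4) k := fun a => rfl
  have hT0 : ∀ a : ℝ, bj_rec_aux.TT a (t ^ 2 / 4) 0 = 1 := by
    intro a; simp [bj_rec_aux.TT, bj_rec_aux.PP]
  have s0 := bj_rec_aux.TT_summable ha hx
  have s1 := bj_rec_aux.TT_summable (a := a + 1) (by linarith) hx
  have s2 := bj_rec_aux.TT_summable (a := a + 2) (by linarith) hx
  rw [h0, h0, h0, s0.tsum_eq_zero_add, s1.tsum_eq_zero_add, hT0, hT0]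
  have h1 : ∑' k : ℕ, bj_rec_aux.TT a (t ^ 2 / 4) (k + 1) =
      ∑' k : ℕ, (bj_rec_aux.TT (a + 1) (t ^ 2 / 4) (k + 1) -
        (t ^ 2 / 4) / (a * (a + 1)) * bj_rec_aux.TT (a + 2) (t ^ 2 / 4) k) :=
    tsum_congr fun k => bj_rec_aux.TT_rec ha _ k
  rw [h1, Summable.tsum_sub ((summable_nat_add_iff 1).2 s1) (s2.mul_left _), tsum_mul_left]
  have h2 : (t ^ 2 / 4) / (a * (a + 1)) = t ^ 2 / (4 * a * (a + 1)) := by
    rw [div_div]; congr 1; ring
  rw [h2]
  ring

end

section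

namespace bj_hasDerivAt_aux

/-- the product is at least `a ^ k` -/
lemma prod_ge {a : ℝ} (ha : 0 < a) (k : ℕ) : a ^ k ≤ ∏ i ∈ Finset.range k, (a + i) := by
  induction k with
  | zero => simp
  | succ k ih =>
    rw [pow_succ, Finset.prod_range_succ]
    have h1 : a ≤ a + k := by
      have : (0 : ℝ) ≤ k := Nat.cast_nonneg k
      linarith
    exact mul_le_mul ih h1 ha.le (le_trans (pow_pos ha k).le ih)

lemma prod_pos {a : ℝ} (ha : 0 < a) (k : ℕ) : 0 < ∏ i ∈ Finset.range k, (a + i) :=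
  lt_of_lt_of_le (pow_pos ha k) (prod_ge ha k)

lemma prod_shift (a : ℝ) (k : ℕ) :
    ∏ i ∈ Finset.range (k + 1), (a + i) = a * ∏ i ∈ Finset.range k, (a + 1 + i) := by
  rw [Finset.prod_range_succ', mul_comm]
  congr 1
  · simp
  · apply Finset.prod_congr rfl
    intro i _
    push_cast
    ring

/-- the terms of the series -/
noncomputable def g (a : ℝ) (k : ℕ) (t : ℝ) : ℝ :=
  (-1 : ℝ) ^ k * (t ^ 2 / 4) ^ k / ((k.factorial : ℝ) * ∏ i ∈ Finset.range k, (a + i))

/-- the terms of the differentiated series -/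
noncomputable def g' (a : ℝ) (k : ℕ) (t : ℝ) : ℝ :=
  (-1 : ℝ) ^ k * (k * (t ^ 2 / 4) ^ (k - 1) * (t / 2)) /
    ((k.factorial : ℝ) * ∏ i ∈ Finset.range k, (a + i))

lemma hasDerivAt_g (a : ℝ) (k : ℕ) (t : ℝ) : HasDerivAt (g a k) (g' a k t) t := by
  unfold g g'
  have h0 : HasDerivAt (fun y : ℝ => y ^ 2 / 4) (t / 2) t := by
    have h := (hasDerivAt_pow 2 t).div_const 4
    refine h.congr_deriv ?_
    push_cast
    ring
  have h1 := h0.pow k
  exact ((h1.const_mul ((-1 : ℝ) ^ k)).div_const _)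

lemma g'_zero (a t : ℝ) : g' a 0 t = 0 := by
  unfold g'
  simp

lemma g'_succ {a : ℝ} (ha : 0 < a) (k : ℕ) (t : ℝ) :
    g' a (k + 1) t = -(t / (2 * a)) * g (a + 1) k t := by
  unfold g' g
  rw [prod_shift, Nat.factorial_succ, Nat.add_sub_cancel]
  have hk : (0 : ℝ) < k + 1 := by positivity
  have hf : (0 : ℝ) < (k.factorial : ℝ) := by positivity
  have hp : 0 < ∏ i ∈ Finset.range k, (a + 1 + i) := prod_pos (by linarith) k
  push_cast
  field_simp
  ring

lemma abs_g'_succ_le {a : ℝ} (ha : 0 < a) (k : ℕ) {t R : ℝ} (ht : |t| ≤ R) :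
    |g' a (k + 1) t| ≤ (R / (2 * a)) * ((R ^ 2 / (4 * a)) ^ k / (k.factorial : ℝ)) := by
  have hR : 0 ≤ R := le_trans (abs_nonneg t) ht
  rw [g'_succ ha, abs_mul, abs_neg, abs_div, abs_of_pos (by positivity : (0:ℝ) < 2 * a)]
  have hp : a ^ k ≤ ∏ i ∈ Finset.range k, (a + 1 + i) :=
    le_trans (pow_le_pow_left₀ ha.le (by linarith) k) (prod_ge (by linarith : (0:ℝ) < a + 1) k)
  have hp' : 0 < ∏ i ∈ Finset.range k, (a + 1 + i) := prod_pos (by linarith) k
  have hf : (0 : ℝ) < (k.factorial : ℝ) := by positivity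
  have ht2 : t ^ 2 ≤ R ^ 2 := by
    rw [← sq_abs t]
    exact pow_le_pow_left₀ (abs_nonneg t) ht 2
  apply mul_le_mul
  · gcongr
  · unfold g
    rw [abs_div, abs_mul, abs_pow, abs_neg, abs_one, one_pow, one_mul, abs_pow,
      abs_of_nonneg (by positivity : (0:ℝ) ≤ t ^ 2 / 4),
      abs_of_pos (by positivity : (0:ℝ) < (k.factorial : ℝ) * ∏ i ∈ Finset.range k, (a + 1 + i))]
    have e : (R ^ 2 / (4 * a)) ^ k / (k.factorial : ℝ)
        = (R ^ 2 / 4) ^ k / ((k.factorial : ℝ) * a ^ k) := by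
      rw [div_pow, div_pow, mul_pow]
      field_simp
    rw [e]
    apply div_le_div₀ (by positivity)
    · apply pow_le_pow_left₀ (by positivity)
      linarith
    · positivity
    · exact mul_le_mul_of_nonneg_left hp hf.le
  · exact abs_nonneg _
  · positivity

/-- the dominating sequence -/
noncomputable def u (a R : ℝ) : ℕ → ℝ
  | 0 => 0
  | k + 1 => (R / (2 * a)) * ((R ^ 2 / (4 * a)) ^ k / (k.factorial : ℝ))

lemma summable_u (a R : ℝ) : Summable (u a R) := by
  rw [← summable_nat_add_iff 1]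
  exact (Real.summable_pow_div_factorial (R ^ 2 / (4 * a))).mul_left (R / (2 * a))

lemma norm_g'_le {a : ℝ} (ha : 0 < a) (k : ℕ) {t R : ℝ} (ht : |t| ≤ R) :
    ‖g' a k t‖ ≤ u a R k := by
  cases k with
  | zero => rw [g'_zero]; simp [u]
  | succ k => exact abs_g'_succ_le ha k ht

end bj_hasDerivAt_aux

open bj_hasDerivAt_aux in

/-- TARGET -/
theorem bj_hasDerivAt {a : ℝ} (ha : 0 < a) (t : ℝ) :
    HasDerivAt (bj a) (-(t / (2 * a)) * bj (a + 1) t) t := by
  have hmem : ∀ y ∈ Set.Ioo (-(|t| + 1)) (|t| + 1), |y| ≤ |t| + 1 := by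
    intro y hy
    exact (abs_lt.2 hy).le
  have ht : t ∈ Set.Ioo (-(|t| + 1)) (|t| + 1) := by
    apply abs_lt.1
    linarith
  have h0 : (0 : ℝ) ∈ Set.Ioo (-(|t| + 1)) (|t| + 1) := by
    have := abs_nonneg t
    constructor <;> linarith
  have hg0 : Summable (fun k => g a k 0) := by
    rw [← summable_nat_add_iff 1]
    have : (fun k => g a (k + 1) 0) = fun _ => 0 := by
      funext k
      unfold g
      simp
    rw [this]
    exact summable_zero
  have key := hasDerivAt_tsum_of_isPreconnected (𝕜 := ℝ) (g := g a) (g' := g' a)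
    (summable_u a (|t| + 1)) isOpen_Ioo isPreconnected_Ioo
    (fun n y _ => hasDerivAt_g a n y) (fun n y hy => norm_g'_le ha n (hmem y hy)) h0 hg0 ht
  have hs : Summable (fun k => g' a k t) :=
    Summable.of_norm_bounded (summable_u a (|t| + 1)) (fun n => norm_g'_le ha n (hmem t ht))
  have e : ∑' k, g' a k t = -(t / (2 * a)) * bj (a + 1) t := by
    rw [hs.tsum_eq_zero_add, g'_zero, zero_add]
    simp_rw [g'_succ ha]
    rw [tsum_mul_left]
    rfl
  rw [← e]
  exact key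

end

section

namespace bj_tendsto_aux

theorem one_le_prod {c : ℝ} (hc : 1 ≤ c) (k : ℕ) :
    1 ≤ ∏ i ∈ Finset.range k, (c + (i : ℝ)) := by
  induction k with
  | zero => simp
  | succ k ih =>
    rw [Finset.prod_range_succ]
    have h1 : (1 : ℝ) ≤ c + k := by
      have : (0 : ℝ) ≤ k := Nat.cast_nonneg k
      linarith
    nlinarith [ih, h1]

theorem le_prod {c : ℝ} (hc : 1 ≤ c) {k : ℕ} (hk : k ≠ 0) :
    c ≤ ∏ i ∈ Finset.range k, (c + (i : ℝ)) := by
  obtain ⟨m, rfl⟩ := Nat.exists_eq_succ_of_ne_zero hk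
  rw [Finset.prod_range_succ]
  have h1 : c ≤ c + m := by
    have : (0 : ℝ) ≤ m := Nat.cast_nonneg m
    linarith
  have h2 := one_le_prod hc m
  nlinarith [h1, h2]

end bj_tendsto_aux

theorem bj_tendsto {a : ℝ} (ha : 0 < a) (t : ℝ) :
    Tendsto (fun n : ℕ => bj (a + n) t) atTop (𝓝 1) := by
  have hx : 0 ≤ t ^ 2 / 4 := by positivity
  have hsum : Summable (fun k : ℕ => (t ^ 2 / 4) ^ k / (k.factorial : ℝ)) :=
    Real.summable_pow_div_factorial (t ^ 2 / 4)
  have hlim : (1 : ℝ) = ∑' k : ℕ, (if k = 0 then (1 : ℝ) else 0) := by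
    rw [tsum_ite_eq]
  rw [hlim]
  unfold bj
  refine tendsto_tsum_of_dominated_convergence hsum ?_ ?_
  · intro k
    by_cases hk : k = 0
    · subst hk
      simp
    · rw [if_neg hk]
      have hb : ∀ᶠ n : ℕ in atTop,
          ‖(-1 : ℝ) ^ k * (t ^ 2 / 4) ^ k / ((k.factorial : ℝ) *
            ∏ i ∈ Finset.range k, (a + n + i))‖ ≤ (t ^ 2 / 4) ^ k * ((n : ℝ)⁻¹) := by
        filter_upwards [eventually_ge_atTop 1] with n hn
        have hn1 : (1 : ℝ) ≤ n := by exact_mod_cast hn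
        have hc : 1 ≤ a + (n : ℝ) := by linarith
        have hp := bj_tendsto_aux.le_prod hc hk
        have hf : (1 : ℝ) ≤ (k.factorial : ℝ) := by exact_mod_cast Nat.succ_le_of_lt (Nat.factorial_pos k)
        have hpn : (n : ℝ) ≤ ∏ i ∈ Finset.range k, (a + n + (i : ℝ)) := by linarith
        have hpos : (0 : ℝ) < ∏ i ∈ Finset.range k, (a + n + (i : ℝ)) := by linarith
        have hden : (n : ℝ) ≤ (k.factorial : ℝ) * ∏ i ∈ Finset.range k, (a + n + (i : ℝ)) := by
          nlinarith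
        rw [norm_div, norm_mul, norm_pow, norm_neg, norm_one, one_pow, one_mul, norm_pow,
          Real.norm_of_nonneg hx, Real.norm_of_nonneg (by positivity), div_eq_mul_inv]
        gcongr
      refine squeeze_zero_norm' hb ?_
      have := (tendsto_inv_atTop_nhds_zero_nat (𝕜 := ℝ)).const_mul ((t ^ 2 / 4) ^ k)
      simpa using this
  · filter_upwards [eventually_ge_atTop 1] with n hn k
    have hn1 : (1 : ℝ) ≤ n := by exact_mod_cast hn
    have hc : 1 ≤ a + (n : ℝ) := by linarith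
    have hp := bj_tendsto_aux.one_le_prod hc k
    have hf : (0 : ℝ) < (k.factorial : ℝ) := by exact_mod_cast Nat.factorial_pos k
    have hpos : (0 : ℝ) < ∏ i ∈ Finset.range k, (a + n + (i : ℝ)) := by linarith
    rw [norm_div, norm_mul, norm_pow, norm_neg, norm_one, one_pow, one_mul, norm_pow,
      Real.norm_of_nonneg hx, Real.norm_of_nonneg (by positivity)]
    gcongr
    nlinarith

end

section

namespace bj_taylor_aux

/-- the absolute value of the `k`-th term -/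
noncomputable def u (a x : ℝ) (k : ℕ) : ℝ :=
  x ^ k / ((k.factorial : ℝ) * ∏ i ∈ Finset.range k, (a + i))

theorem den_pos {a : ℝ} (ha : 0 < a) (k : ℕ) :
    0 < (k.factorial : ℝ) * ∏ i ∈ Finset.range k, (a + i) := by
  have h1 : (0 : ℝ) < k.factorial := by exact_mod_cast k.factorial_pos
  have h2 : 0 < ∏ i ∈ Finset.range k, (a + (i : ℝ)) := by
    refine Finset.prod_pos fun i _ => ?_
    positivity
  positivity

theorem u_nonneg {a x : ℝ} (ha : 0 < a) (hx : 0 ≤ x) (k : ℕ) : 0 ≤ u a x k :=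
  div_nonneg (pow_nonneg hx k) (den_pos ha k).le

theorem u_succ {a x : ℝ} (ha : 0 < a) (k : ℕ) :
    u a x (k + 1) = x / (((k : ℝ) + 1) * (a + k)) * u a x k := by
  unfold u
  have h1 := (den_pos ha k).ne'
  have h2 : ((k : ℝ) + 1) * (a + k) ≠ 0 := by positivity
  rw [Nat.factorial_succ, Finset.prod_range_succ, pow_succ, div_mul_div_comm]
  push_cast
  congr 1 <;> ring

theorem summable_u {a x : ℝ} (ha : 0 < a) (hx : 0 ≤ x) : Summable (u a x) := by
  refine summable_of_ratio_norm_eventually_le (r := 1 / 2) (by norm_num) ?_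
  obtain ⟨N, hN⟩ := exists_nat_ge (2 * x / a)
  filter_upwards [eventually_ge_atTop N] with k hk
  rw [Real.norm_of_nonneg (u_nonneg ha hx _), Real.norm_of_nonneg (u_nonneg ha hx _), u_succ ha]
  refine mul_le_mul_of_nonneg_right ?_ (u_nonneg ha hx _)
  have h1 : 0 < ((k : ℝ) + 1) * (a + k) := by positivity
  rw [div_le_iff₀ h1]
  have h2 : 2 * x / a ≤ k := hN.trans (by exact_mod_cast hk)
  rw [div_le_iff₀ ha] at h2
  have hk0 : (0 : ℝ) ≤ k := Nat.cast_nonneg k
  nlinarith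

theorem anti {a x : ℝ} (ha : 0 < a) (hx : 0 ≤ x) (n : ℕ) (hn : x ≤ ((n : ℝ) + 1) * (a + n)) :
    Antitone (fun j => u a x (n + j)) := by
  refine antitone_nat_of_succ_le fun j => ?_
  change u a x (n + (j + 1)) ≤ u a x (n + j)
  rw [← add_assoc, u_succ ha]
  refine mul_le_of_le_one_left (u_nonneg ha hx _) ?_
  have h1 : 0 < (((n + j : ℕ) : ℝ) + 1) * (a + (n + j : ℕ)) := by positivity
  rw [div_le_one h1]
  refine hn.trans ?_
  push_cast
  have hj : (0 : ℝ) ≤ j := Nat.cast_nonneg j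
  have hn0 : (0 : ℝ) ≤ n := Nat.cast_nonneg n
  nlinarith [mul_nonneg hj hn0, mul_nonneg hj hj, mul_nonneg hj ha.le]

end bj_taylor_aux

theorem bj_taylor {a : ℝ} (ha : 0 < a) (t : ℝ) (n : ℕ)
    (hn : t ^ 2 / 4 ≤ ((n : ℝ) + 1) * (a + n)) :
    |bj a t - ∑ k ∈ Finset.range n,
        (-1 : ℝ) ^ k * (t ^ 2 / 4) ^ k / ((k.factorial : ℝ) * ∏ i ∈ Finset.range k, (a + i))| ≤
      (t ^ 2 / 4) ^ n / ((n.factorial : ℝ) * ∏ i ∈ Finset.range n, (a + i)) := by
  have hx : 0 ≤ t ^ 2 / 4 := by positivity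
  have hterm : ∀ k : ℕ, (-1 : ℝ) ^ k * (t ^ 2 / 4) ^ k /
      ((k.factorial : ℝ) * ∏ i ∈ Finset.range k, (a + i)) =
      (-1) ^ k * bj_taylor_aux.u a (t ^ 2 / 4) k := by
    intro k
    unfold bj_taylor_aux.u
    rw [mul_div_assoc]
  have hsum : Summable fun k : ℕ => (-1 : ℝ) ^ k * bj_taylor_aux.u a (t ^ 2 / 4) k := by
    refine Summable.of_norm_bounded (bj_taylor_aux.summable_u ha hx) fun k => ?_
    rw [norm_mul, norm_pow, norm_neg, norm_one, one_pow, one_mul,
      Real.norm_of_nonneg (bj_taylor_aux.u_nonneg ha hx k)]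
  have hbj : bj a t = ∑' k : ℕ, (-1 : ℝ) ^ k * bj_taylor_aux.u a (t ^ 2 / 4) k := by
    unfold bj
    exact tsum_congr hterm
  set w : ℕ → ℝ := fun j => bj_taylor_aux.u a (t ^ 2 / 4) (n + j) with hw
  have hsumw : Summable fun j : ℕ => (-1 : ℝ) ^ j * w j := by
    have h1 : Summable w := by
      have := (summable_nat_add_iff n).2 (bj_taylor_aux.summable_u ha hx)
      refine this.congr fun j => ?_
      rw [hw, add_comm]
    refine Summable.of_norm_bounded h1 fun k => ?_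
    rw [norm_mul, norm_pow, norm_neg, norm_one, one_pow, one_mul,
      Real.norm_of_nonneg (bj_taylor_aux.u_nonneg ha hx _)]
  have hdiff : bj a t - ∑ k ∈ Finset.range n,
        (-1 : ℝ) ^ k * (t ^ 2 / 4) ^ k / ((k.factorial : ℝ) * ∏ i ∈ Finset.range k, (a + i)) =
      (-1) ^ n * ∑' j : ℕ, (-1 : ℝ) ^ j * w j := by
    rw [hbj, Finset.sum_congr rfl fun k _ => hterm k, ← hsum.sum_add_tsum_nat_add n,
      add_sub_cancel_left, ← tsum_mul_left]
    refine tsum_congr fun j => ?_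
    rw [hw]
    simp only
    rw [add_comm j n, pow_add]
    ring
  rw [hdiff, abs_mul, abs_pow, abs_neg, abs_one, one_pow, one_mul]
  have hl := hsumw.hasSum.tendsto_sum_nat
  have hanti := bj_taylor_aux.anti ha hx n hn
  have h0 := hanti.alternating_series_le_tendsto hl 0
  have h1 := hanti.tendsto_le_alternating_series hl 0
  simp only [mul_zero, Finset.range_zero, Finset.sum_empty] at h0
  simp only [mul_zero, zero_add, Finset.range_one, Finset.sum_singleton, pow_zero,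
    one_mul] at h1
  rw [abs_of_nonneg h0]
  exact h1

end

section

namespace bj_three_half_aux

theorem prod_eq (k : ℕ) : (4 : ℝ) ^ k * ((k.factorial : ℝ) *
    ∏ i ∈ Finset.range k, ((3 / 2 : ℝ) + i)) = ((2 * k + 1).factorial : ℝ) := by
  induction k with
  | zero => simp
  | succ k ih =>
    rw [Finset.prod_range_succ, Nat.factorial_succ, pow_succ]
    have e : (2 * (k + 1) + 1).factorial = (2 * k + 3) * (2 * k + 2) * (2 * k + 1).factorial := by
      rw [show 2 * (k + 1) + 1 = (2 * k + 2) + 1 by ring, Nat.factorial_succ,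
        show 2 * k + 2 = (2 * k + 1) + 1 by ring, Nat.factorial_succ]
      ring
    rw [e]
    push_cast
    rw [← ih]
    ring

end bj_three_half_aux

theorem bj_three_half (t : ℝ) : t * bj (3 / 2) t = Real.sin t := by
  unfold bj
  rw [← tsum_mul_left, ← (Real.hasSum_sin t).tsum_eq]
  apply tsum_congr
  intro k
  rw [← bj_three_half_aux.prod_eq k]
  have h1 : (k.factorial : ℝ) ≠ 0 := by exact_mod_cast Nat.factorial_ne_zero k
  have h2 : ∏ i ∈ Finset.range k, ((3 / 2 : ℝ) + i) ≠ 0 := by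
    apply Finset.prod_ne_zero_iff.mpr
    intro i _
    positivity
  rw [div_pow]
  have h4 : (4 : ℝ) ^ k ≠ 0 := by positivity
  field_simp
  ring

end

section

namespace bj_pos_aux

theorem step {c t : ℝ} (hc : 0 < c) (ht : t ^ 2 ≤ c * (c + 1))
    (h1 : 0 < bj (c + 1) t) (h2 : bj (c + 2) t ≤ 2 * bj (c + 1) t) :
    0 < bj c t ∧ bj (c + 1) t ≤ 2 * bj c t := by
  have hr := bj_rec hc t
  have hq0 : 0 ≤ t ^ 2 / (4 * c * (c + 1)) := by positivity
  have hq1 : t ^ 2 / (4 * c * (c + 1)) ≤ 1 / 4 := by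
    rw [div_le_div_iff₀ (by positivity) (by norm_num)]
    nlinarith
  have h3 : t ^ 2 / (4 * c * (c + 1)) * bj (c + 2) t ≤ bj (c + 1) t / 2 := by
    calc t ^ 2 / (4 * c * (c + 1)) * bj (c + 2) t
        ≤ t ^ 2 / (4 * c * (c + 1)) * (2 * bj (c + 1) t) :=
          mul_le_mul_of_nonneg_left h2 hq0
      _ ≤ 1 / 4 * (2 * bj (c + 1) t) :=
          mul_le_mul_of_nonneg_right hq1 (by linarith)
      _ = bj (c + 1) t / 2 := by ring
  constructor <;> linarith

theorem down {b t : ℝ} (hb : 0 < b) (ht : t ^ 2 ≤ b * (b + 1)) (n : ℕ)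
    (h : 0 < bj (b + n) t ∧ bj (b + n + 1) t ≤ 2 * bj (b + n) t) :
    0 < bj b t ∧ bj (b + 1) t ≤ 2 * bj b t := by
  induction n with
  | zero => simpa using h
  | succ n ih =>
    apply ih
    have hn : (0 : ℝ) ≤ n := Nat.cast_nonneg n
    have e1 : b + ((n + 1 : ℕ) : ℝ) = b + n + 1 := by push_cast; ring
    have e2 : b + n + 1 + 1 = b + n + 2 := by ring
    rw [e1, e2] at h
    exact step (by linarith) (by nlinarith) h.1 h.2

end bj_pos_aux

theorem bj_pos {b t : ℝ} (hb : 0 < b) (ht : t ^ 2 ≤ b * (b + 1)) :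
    0 < bj b t ∧ bj (b + 1) t ≤ 2 * bj b t := by
  have h := bj_tendsto hb t
  have h1 : ∀ᶠ n : ℕ in atTop, 3 / 4 < bj (b + n) t :=
    h.eventually (lt_mem_nhds (by norm_num))
  have h2 : ∀ᶠ n : ℕ in atTop, bj (b + n) t < 5 / 4 :=
    h.eventually (gt_mem_nhds (by norm_num))
  have h3 : ∀ᶠ n : ℕ in atTop, bj (b + ((n + 1 : ℕ) : ℝ)) t < 5 / 4 :=
    (tendsto_add_atTop_nat 1).eventually h2
  obtain ⟨n, hn1, hn2⟩ := (h1.and h3).exists
  refine bj_pos_aux.down hb ht n ⟨by linarith, ?_⟩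
  have e1 : b + ((n + 1 : ℕ) : ℝ) = b + n + 1 := by push_cast; ring
  rw [e1] at hn2
  linarith

end

section

namespace bj_pos_prime_aux
-- auxiliary lemmas here
end bj_pos_prime_aux

theorem bj_pos' {b t : ℝ} (hb : 0 < b) (ht : t ^ 2 ≤ (b + 2) * (b + 3))
    (ht' : t ^ 2 * (3 * b + 2) < 4 * b * (b + 1) * (b + 2)) : 0 < bj b t := by
  have h1 := bj_pos (b := b + 2) (t := t) (by linarith) (by
    have : (b + 2) * (b + 3) = (b + 2) * (b + 2 + 1) := by ring
    rwa [← this])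
  obtain ⟨h2, h3⟩ := h1
  have e1 : b + 1 + 1 = b + 2 := by ring
  have e2 : b + 1 + 2 = b + 2 + 1 := by ring
  have h4 := bj_rec (a := b + 1) (by linarith) t
  rw [e1, e2] at h4
  have h5 := bj_rec hb t
  have hc : 0 ≤ t ^ 2 / (4 * (b + 1) * (b + 2)) := by positivity
  have h6 : bj (b + 2) t * (1 - 2 * (t ^ 2 / (4 * (b + 1) * (b + 2)))) ≤ bj (b + 1) t := by
    rw [h4]
    nlinarith [mul_le_mul_of_nonneg_left h3 hc]
  have h7 : bj (b + 2) t * (1 - 2 * (t ^ 2 / (4 * (b + 1) * (b + 2))) -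
      t ^ 2 / (4 * b * (b + 1))) ≤ bj b t := by
    rw [h5]
    linarith
  refine lt_of_lt_of_le (mul_pos h2 ?_) h7
  have h8 : 1 - 2 * (t ^ 2 / (4 * (b + 1) * (b + 2))) - t ^ 2 / (4 * b * (b + 1)) =
      (4 * b * (b + 1) * (b + 2) - t ^ 2 * (3 * b + 2)) / (4 * b * (b + 1) * (b + 2)) := by
    field_simp
    ring
  rw [h8]
  exact div_pos (by linarith) (by positivity)

end

section

namespace bj_anti_f4_aux
-- auxiliary lemmas here
end bj_anti_f4_aux

theorem bj_anti_f4 {a T : ℝ} (ha : 0 < a) (hT : T ^ 2 ≤ (a + 2) * (a + 3)) :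
    AntitoneOn (fun t => bj a t * exp (t ^ 2 / (4 * a) + t ^ 4 / (32 * a ^ 2 * (a + 1))))
      (Icc 0 T) := by
  have hd : ∀ t : ℝ, HasDerivAt
      (fun t => bj a t * exp (t ^ 2 / (4 * a) + t ^ 4 / (32 * a ^ 2 * (a + 1))))
      (-(t / (2 * a)) * bj (a + 1) t * exp (t ^ 2 / (4 * a) + t ^ 4 / (32 * a ^ 2 * (a + 1))) +
        bj a t * (exp (t ^ 2 / (4 * a) + t ^ 4 / (32 * a ^ 2 * (a + 1))) *
          (2 * t / (4 * a) + 4 * t ^ 3 / (32 * a ^ 2 * (a + 1))))) t := by
    intro t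
    have h1 : HasDerivAt (fun t : ℝ => t ^ 2 / (4 * a) + t ^ 4 / (32 * a ^ 2 * (a + 1)))
        (2 * t / (4 * a) + 4 * t ^ 3 / (32 * a ^ 2 * (a + 1))) t := by
      have h2 : HasDerivAt (fun t : ℝ => t ^ 2) (2 * t) t := by
        simpa using hasDerivAt_pow 2 t
      have h4 : HasDerivAt (fun t : ℝ => t ^ 4) (4 * t ^ 3) t := by
        simpa using hasDerivAt_pow 4 t
      exact (h2.div_const _).add (h4.div_const _)
    exact (bj_hasDerivAt ha t).mul h1.exp
  apply antitoneOn_of_deriv_nonpos (convex_Icc 0 T)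
  · exact fun t _ => (hd t).continuousAt.continuousWithinAt
  · exact fun t _ => (hd t).differentiableAt.differentiableWithinAt
  · intro t ht
    rw [interior_Icc] at ht
    rw [(hd t).deriv]
    have ht0 : 0 < t := ht.1
    have htT : t ^ 2 ≤ (a + 2) * (a + 3) := by
      have h1 : t ^ 2 ≤ T ^ 2 := pow_le_pow_left₀ ht0.le ht.2.le 2
      exact h1.trans hT
    have hp2 : 0 < bj (a + 2) t := (bj_pos (b := a + 2) (by linarith) (by
      refine htT.trans (le_of_eq ?_)
      ring)).1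
    have hp3 : 0 < bj (a + 3) t := (bj_pos (b := a + 3) (by linarith) (by
      nlinarith)).1
    have hr1 := bj_rec ha t
    have hr2 := bj_rec (a := a + 1) (by linarith) t
    have e1 : a + 1 + 1 = a + 2 := by ring
    have e2 : a + 1 + 2 = a + 3 := by ring
    rw [e1, e2] at hr2
    have hz : 0 ≤ t ^ 2 / (4 * a * (a + 1)) := by positivity
    have hz' : 0 ≤ t ^ 2 / (4 * (a + 1) * (a + 2)) := by positivity
    have hle : bj a t ≤ bj (a + 2) t := by
      have h1 := mul_nonneg hz hp2.le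
      have h2 := mul_nonneg hz' hp3.le
      linarith
    have hexp : 0 < exp (t ^ 2 / (4 * a) + t ^ 4 / (32 * a ^ 2 * (a + 1))) := exp_pos _
    have hfac : -(t / (2 * a)) * bj (a + 1) t *
        exp (t ^ 2 / (4 * a) + t ^ 4 / (32 * a ^ 2 * (a + 1))) +
        bj a t * (exp (t ^ 2 / (4 * a) + t ^ 4 / (32 * a ^ 2 * (a + 1))) *
          (2 * t / (4 * a) + 4 * t ^ 3 / (32 * a ^ 2 * (a + 1)))) =
        exp (t ^ 2 / (4 * a) + t ^ 4 / (32 * a ^ 2 * (a + 1))) * (t / (2 * a)) *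
          (-(t ^ 2 / (4 * a * (a + 1))) * (bj (a + 2) t - bj a t)) := by
      have h3 : bj (a + 1) t = bj a t + t ^ 2 / (4 * a * (a + 1)) * bj (a + 2) t := by linarith
      rw [h3]
      have ha0 : a ≠ 0 := ha.ne'
      have ha1 : a + 1 ≠ 0 := by linarith
      field_simp
      ring
    rw [hfac]
    have h5 : 0 ≤ exp (t ^ 2 / (4 * a) + t ^ 4 / (32 * a ^ 2 * (a + 1))) * (t / (2 * a)) := by
      positivity
    have h6 : -(t ^ 2 / (4 * a * (a + 1))) * (bj (a + 2) t - bj a t) ≤ 0 := by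
      have := mul_nonneg hz (sub_nonneg.mpr hle)
      linarith
    exact mul_nonpos_of_nonneg_of_nonpos h5 h6

end

section

namespace bj_le_f4_aux
-- auxiliary lemmas here
end bj_le_f4_aux

theorem bj_le_f4 (m : ℕ) (hm : 2 ≤ m) {t : ℝ} (ht : 0 ≤ t)
    (hT : t ^ 2 ≤ ((m : ℝ) / 2 + 2) * ((m : ℝ) / 2 + 3)) :
    bj ((m : ℝ) / 2) t ≤ exp (-(E4 m t)) := by
  have hm' : (0 : ℝ) < m := by exact_mod_cast (by omega : 0 < m)
  have ha : (0 : ℝ) < (m : ℝ) / 2 := by positivity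
  have h1 := bj_anti_f4 ha hT (left_mem_Icc.2 ht) (right_mem_Icc.2 ht) ht
  simp only [bj_zero] at h1
  have h0 : (0 : ℝ) ^ 2 / (4 * ((m : ℝ) / 2)) + 0 ^ 4 / (32 * ((m : ℝ) / 2) ^ 2 * ((m : ℝ) / 2 + 1)) = 0 := by
    simp
  rw [h0, exp_zero, mul_one] at h1
  have h2 : t ^ 2 / (4 * ((m : ℝ) / 2)) + t ^ 4 / (32 * ((m : ℝ) / 2) ^ 2 * ((m : ℝ) / 2 + 1)) =
      E4 m t := by
    unfold E4
    have e1 : 4 * ((m : ℝ) / 2) = 2 * m := by ring
    have e2 : 32 * ((m : ℝ) / 2) ^ 2 * ((m : ℝ) / 2 + 1) = 4 * (m : ℝ) ^ 2 * (m + 2) := by ring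
    rw [e1, e2]
  rw [h2] at h1
  rw [exp_neg]
  rw [← one_div, le_div_iff₀ (exp_pos _)]
  exact h1

end

end H618KS
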