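import Pool.Agent.Helper618_KS.Defs

/-!
Part `Unif` of the proof for MP_237b21_an.
-/

open MeasureTheory Filter Topology Set Real
open scoped ENNReal NNReal

set_option autoImplicit false

namespace H618KS

section

namespace unif_prob_aux

lemma mass_ne_zero {m : ℕ} (hm : 1 ≤ m) : (volume : Measure (EE m)).toSphere Set.univ ≠ 0 := by
  have : Nontrivial (EE m) := by
    apply Module.nontrivial_of_finrank_pos (R := ℝ)
    simp; omega
  rw [Measure.toSphere_apply_univ]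
  refine mul_ne_zero ?_ ?_
  · simp; omega
  · exact (Metric.measure_ball_pos _ _ one_pos).ne'

lemma mass_ne_top (m : ℕ) : (volume : Measure (EE m)).toSphere Set.univ ≠ ⊤ :=
  measure_ne_top _ _

end unif_prob_aux

theorem unif_prob {m : ℕ} (hm : 1 ≤ m) : IsProbabilityMeasure (unif m) := by
  constructor
  unfold unif
  rw [Measure.map_apply measurable_subtype_coe MeasurableSet.univ, Set.preimage_univ, Measure.smul_apply,
    smul_eq_mul]
  exact ENNReal.inv_mul_cancel (unif_prob_aux.mass_ne_zero hm) (unif_prob_aux.mass_ne_top m)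

end

section

namespace unif_norm_aux
-- auxiliary lemmas here
end unif_norm_aux

theorem unif_norm {m : ℕ} (hm : 1 ≤ m) : ∀ᵐ x ∂(unif m), ‖x‖ = 1 := by
  unfold unif
  rw [ae_map_iff measurable_subtype_coe.aemeasurable
    (measurableSet_eq_fun measurable_norm measurable_const)]
  refine Filter.Eventually.of_forall fun x => ?_
  exact mem_sphere_zero_iff_norm.1 x.2

end

section

namespace unif_isometry_aux

open scoped Pointwise

theorem cone_preimage {m : ℕ} (L : EE m ≃ₗᵢ[ℝ] EE m) (B : Set (EE m)) :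
    Ioo (0 : ℝ) 1 • (Subtype.val '' ((Subtype.val : Metric.sphere (0 : EE m) 1 → EE m) ⁻¹'
      (L ⁻¹' B))) =
    L ⁻¹' (Ioo (0 : ℝ) 1 • (Subtype.val ''
      ((Subtype.val : Metric.sphere (0 : EE m) 1 → EE m) ⁻¹' B))) := by
  ext x
  simp only [mem_preimage, Set.mem_smul, mem_image, Subtype.exists, exists_and_right, exists_eq_right]
  constructor
  · rintro ⟨a, ha, y, ⟨hy1, hy2⟩, rfl⟩
    refine ⟨a, ha, L y, ⟨?_, hy2⟩, ?_⟩
    · simpa using hy1
    · rw [map_smul]
  · rintro ⟨a, ha, y, ⟨hy1, hy2⟩, h⟩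
    refine ⟨a, ha, L.symm y, ⟨?_, ?_⟩, ?_⟩
    · simpa using hy1
    · simpa using hy2
    · rw [← map_smul, h, L.symm_apply_apply]

theorem toSphere_preimage {m : ℕ} (L : EE m ≃ₗᵢ[ℝ] EE m) {B : Set (EE m)}
    (hB : MeasurableSet B) :
    (volume : Measure (EE m)).toSphere (Subtype.val ⁻¹' (L ⁻¹' B)) =
      (volume : Measure (EE m)).toSphere (Subtype.val ⁻¹' B) := by
  have hL : Measurable L := L.continuous.measurable
  rw [Measure.toSphere_apply' _ (measurable_subtype_coe (hL hB)),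
    Measure.toSphere_apply' _ (measurable_subtype_coe hB), cone_preimage]
  congr 1
  have h := L.measurePreserving
  exact h.measure_preimage_emb L.toHomeomorph.measurableEmbedding _

end unif_isometry_aux

theorem unif_isometry {m : ℕ} (L : EE m ≃ₗᵢ[ℝ] EE m) : (unif m).map L = unif m := by
  have hL : Measurable L := L.continuous.measurable
  ext B hB
  rw [Measure.map_apply hL hB, unif, Measure.map_apply measurable_subtype_coe (hL hB),
    Measure.map_apply measurable_subtype_coe hB, Measure.smul_apply, Measure.smul_apply,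
    unif_isometry_aux.toSphere_preimage L hB]

end

section

namespace unif_law_aux

section polar
variable {E : Type*} [NormedAddCommGroup E] [NormedSpace ℝ E] [MeasurableSpace E] [BorelSpace E]
  [FiniteDimensional ℝ E] [Nontrivial E] (μ : Measure E) [μ.IsAddHaarMeasure]

theorem polar {G : E → ℝ≥0∞} (hG : Measurable G) :
    ∫⁻ x, G x ∂μ = ∫⁻ y : Metric.sphere (0 : E) 1, (∫⁻ r in Ioi (0 : ℝ),
      ENNReal.ofReal (r ^ (Module.finrank ℝ E - 1)) * G (r • (y : E))) ∂μ.toSphere := by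
  have hm : Measurable fun p : Metric.sphere (0 : E) 1 × Ioi (0 : ℝ) => G (p.2.1 • p.1.1) := by
    apply hG.comp
    fun_prop
  calc ∫⁻ x, G x ∂μ = ∫⁻ x : ({(0)}ᶜ : Set E), G x ∂(μ.comap (↑)) := by
        rw [lintegral_subtype_comap (measurableSet_singleton _).compl, restrict_compl_singleton]
    _ = ∫⁻ p, G (p.2.1 • p.1.1) ∂μ.toSphere.prod (.volumeIoiPow (Module.finrank ℝ E - 1)) := by
        have h := μ.measurePreserving_homeomorphUnitSphereProd.lintegral_comp_emb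
          (Homeomorph.measurableEmbedding _) (fun p => G (p.2.1 • p.1.1))
        rw [← h]
        apply lintegral_congr
        intro x
        have hx : ‖(x : E)‖ ≠ 0 := by
          rw [norm_ne_zero_iff]
          exact x.2
        simp only [homeomorphUnitSphereProd_apply_snd_coe, homeomorphUnitSphereProd_apply_fst_coe]
        rw [smul_smul, mul_inv_cancel₀ hx, one_smul]
    _ = _ := by
        rw [lintegral_prod _ hm.aemeasurable]
        apply lintegral_congr
        intro y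
        have hmy : Measurable fun r : Ioi (0 : ℝ) => G (r.1 • (y : E)) := by
          apply hG.comp
          fun_prop
        rw [Measure.volumeIoiPow, lintegral_withDensity_eq_lintegral_mul _ (by fun_prop) hmy]
        simp only [Pi.mul_apply]
        rw [lintegral_subtype_comap measurableSet_Ioi
          (fun r : ℝ => ENNReal.ofReal (r ^ (Module.finrank ℝ E - 1)) * G (r • (y : E)))]

theorem radial {g : ℝ → ℝ≥0∞} (hg : Measurable g) :
    ∫⁻ x, g ‖x‖ ∂μ = μ.toSphere univ * ∫⁻ r in Ioi (0 : ℝ),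
      ENNReal.ofReal (r ^ (Module.finrank ℝ E - 1)) * g r := by
  rw [polar μ (G := fun x => g ‖x‖) (hg.comp measurable_norm)]
  have h1 : ∀ y : Metric.sphere (0 : E) 1, (∫⁻ r in Ioi (0 : ℝ),
      ENNReal.ofReal (r ^ (Module.finrank ℝ E - 1)) * g ‖r • (y : E)‖) =
      ∫⁻ r in Ioi (0 : ℝ), ENNReal.ofReal (r ^ (Module.finrank ℝ E - 1)) * g r := by
    intro y
    apply setLIntegral_congr_fun measurableSet_Ioi
    intro r hr
    simp only
    rw [norm_smul, Real.norm_of_nonneg (le_of_lt hr), mem_sphere_zero_iff_norm.1 y.2, mul_one]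
  simp only [h1]
  rw [lintegral_const, mul_comm]

end polar

theorem cone {m : ℕ} (hm : 2 ≤ m) (e : EE m) {w F : ℝ → ℝ≥0∞} (hw : Measurable w)
    (hF : Measurable F) :
    ∫⁻ x : EE m, w ‖x‖ * F (inner ℝ e x / ‖x‖) =
      (∫⁻ r in Ioi (0 : ℝ), ENNReal.ofReal (r ^ (m - 1)) * w r) *
        ∫⁻ y : Metric.sphere (0 : EE m) 1, F (inner ℝ e (y : EE m)) ∂(volume : Measure (EE m)).toSphere := by
  have : Nonempty (Fin m) := ⟨⟨0, by omega⟩⟩
  have : Nontrivial (EE m) := by
    have : Nonempty (Fin m) := ⟨⟨0, by omega⟩⟩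
    infer_instance
  rw [polar (volume : Measure (EE m)) (G := fun x => w ‖x‖ * F (inner ℝ e x / ‖x‖)) (by fun_prop)]
  have h1 : ∀ y : Metric.sphere (0 : EE m) 1, (∫⁻ r in Ioi (0 : ℝ),
      ENNReal.ofReal (r ^ (Module.finrank ℝ (EE m) - 1)) *
        (w ‖r • (y : EE m)‖ * F (inner ℝ e (r • (y : EE m)) / ‖r • (y : EE m)‖))) =
      (∫⁻ r in Ioi (0 : ℝ), ENNReal.ofReal (r ^ (m - 1)) * w r) * F (inner ℝ e (y : EE m)) := by
    intro y
    rw [← lintegral_mul_const _ (by fun_prop)]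
    apply setLIntegral_congr_fun measurableSet_Ioi
    intro r hr
    have hr' : (0 : ℝ) < r := hr
    simp only
    rw [norm_smul, Real.norm_of_nonneg hr'.le, mem_sphere_zero_iff_norm.1 y.2, mul_one,
      inner_smul_right, mul_div_cancel_left₀ _ hr'.ne', mul_assoc, finrank_euclideanSpace_fin]
  simp only [h1]
  rw [lintegral_const_mul _ (by fun_prop)]

theorem split (n : ℕ) {G : ℝ → ℝ → ℝ≥0∞} (hG : Measurable (fun p : ℝ × ℝ => G p.1 p.2)) :
    ∫⁻ x : EE (n + 2), G (x 0) ‖x‖ =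
      ∫⁻ a : ℝ, ∫⁻ z : EE (n + 1), G a (Real.sqrt (a ^ 2 + ‖z‖ ^ 2)) := by
  have h1 := (PiLp.volume_preserving_toLp (Fin (n + 2))).lintegral_comp
    (f := fun x : EE (n + 2) => G (x 0) ‖x‖) (by
      have : Measurable fun x : EE (n + 2) => (x 0, ‖x‖) := by fun_prop
      exact hG.comp this)
  rw [← h1]
  have hm2 : Measurable fun v : Fin (n + 2) → ℝ => G ((WithLp.toLp 2 v : EE (n + 2)) 0)
      ‖(WithLp.toLp 2 v : EE (n + 2))‖ := by
    have : Measurable fun v : Fin (n + 2) → ℝ => (((WithLp.toLp 2 v : EE (n + 2)) 0),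
      ‖(WithLp.toLp 2 v : EE (n + 2))‖) := by fun_prop
    exact hG.comp this
  have h2 := (volume_preserving_piFinSuccAbove (fun _ : Fin (n + 2) => ℝ) 0).symm.lintegral_comp
    hm2
  rw [← h2]
  have hval : ∀ p : ℝ × (Fin (n + 1) → ℝ),
      G ((WithLp.toLp 2 ((MeasurableEquiv.piFinSuccAbove (fun _ : Fin (n + 2) => ℝ) 0).symm p) : EE (n + 2)) 0)
        ‖(WithLp.toLp 2 ((MeasurableEquiv.piFinSuccAbove (fun _ : Fin (n + 2) => ℝ) 0).symm p) : EE (n + 2))‖ =
      G p.1 (Real.sqrt (p.1 ^ 2 + ‖(WithLp.toLp 2 p.2 : EE (n + 1))‖ ^ 2)) := by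
    intro p
    have h3 : ‖(WithLp.toLp 2 ((MeasurableEquiv.piFinSuccAbove (fun _ : Fin (n + 2) => ℝ) 0).symm p) : EE (n + 2))‖ =
        Real.sqrt (p.1 ^ 2 + ‖(WithLp.toLp 2 p.2 : EE (n + 1))‖ ^ 2) := by
      rw [EuclideanSpace.norm_eq, EuclideanSpace.norm_eq, Fin.sum_univ_succ,
        Real.sq_sqrt (Finset.sum_nonneg fun _ _ => sq_nonneg _)]
      simp [MeasurableEquiv.piFinSuccAbove_symm_apply]
    rw [h3]
    congr 1
  simp only [hval]
  have hm3 : Measurable fun p : ℝ × (Fin (n + 1) → ℝ) =>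
      G p.1 (Real.sqrt (p.1 ^ 2 + ‖(WithLp.toLp 2 p.2 : EE (n + 1))‖ ^ 2)) := by
    have : Measurable fun p : ℝ × (Fin (n + 1) → ℝ) => (p.1,
      Real.sqrt (p.1 ^ 2 + ‖(WithLp.toLp 2 p.2 : EE (n + 1))‖ ^ 2)) := by fun_prop
    exact hG.comp this
  refine (lintegral_prod _ hm3.aemeasurable).trans ?_
  apply lintegral_congr
  intro a
  have h4 := (PiLp.volume_preserving_toLp (Fin (n + 1))).lintegral_comp
    (f := fun z : EE (n + 1) => G a (Real.sqrt (a ^ 2 + ‖z‖ ^ 2))) (by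
      have : Measurable fun z : EE (n + 1) => (a, Real.sqrt (a ^ 2 + ‖z‖ ^ 2)) := by fun_prop
      exact hG.comp this)
  exact h4

theorem cart (n : ℕ) {w F : ℝ → ℝ≥0∞} (hw : Measurable w) (hF : Measurable F) :
    ∫⁻ x : EE (n + 2), w ‖x‖ * F (x 0 / ‖x‖) =
      (volume : Measure (EE (n + 1))).toSphere univ *
      ((∫⁻ r in Ioi (0 : ℝ), ENNReal.ofReal (r ^ (n + 1)) * w r) *
        ∫⁻ θ in Ioo 0 π, F (Real.cos θ) * ENNReal.ofReal (Real.sin θ ^ n)) := by
  have : Nonempty (Fin (n + 1)) := ⟨0⟩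
  have : Nontrivial (EE (n + 1)) := inferInstance
  rw [split n (G := fun a s => w s * F (a / s)) (by fun_prop)]
  have h1 : ∀ a : ℝ, ∫⁻ z : EE (n + 1), w (Real.sqrt (a ^ 2 + ‖z‖ ^ 2)) *
      F (a / Real.sqrt (a ^ 2 + ‖z‖ ^ 2)) = (volume : Measure (EE (n + 1))).toSphere univ *
      ∫⁻ ρ in Ioi (0 : ℝ), ENNReal.ofReal (ρ ^ n) * (w (Real.sqrt (a ^ 2 + ρ ^ 2)) *
        F (a / Real.sqrt (a ^ 2 + ρ ^ 2))) := by
    intro a
    rw [radial (volume : Measure (EE (n + 1))) (g := fun ρ => w (Real.sqrt (a ^ 2 + ρ ^ 2)) *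
        F (a / Real.sqrt (a ^ 2 + ρ ^ 2))) (by fun_prop), finrank_euclideanSpace_fin]
    simp
  simp only [h1]
  rw [lintegral_const_mul' _ _ (measure_ne_top _ _)]
  congr 1
  -- the plane integral
  set Φ : ℝ × ℝ → ℝ≥0∞ := fun p => (Ioi (0 : ℝ)).indicator (fun ρ => ENNReal.ofReal (ρ ^ n) *
    (w (Real.sqrt (p.1 ^ 2 + ρ ^ 2)) * F (p.1 / Real.sqrt (p.1 ^ 2 + ρ ^ 2)))) p.2 with hΦ
  have hΦm : Measurable Φ := by
    have h2 : Measurable fun p : ℝ × ℝ => ENNReal.ofReal (p.2 ^ n) *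
      (w (Real.sqrt (p.1 ^ 2 + p.2 ^ 2)) * F (p.1 / Real.sqrt (p.1 ^ 2 + p.2 ^ 2))) := by fun_prop
    have h3 : Φ = (Prod.snd ⁻¹' (Ioi (0 : ℝ))).indicator (fun p : ℝ × ℝ => ENNReal.ofReal (p.2 ^ n) *
      (w (Real.sqrt (p.1 ^ 2 + p.2 ^ 2)) * F (p.1 / Real.sqrt (p.1 ^ 2 + p.2 ^ 2)))) := by
      ext p
      simp only [hΦ, indicator, mem_preimage]
    rw [h3]
    exact h2.indicator (measurable_snd measurableSet_Ioi)
  have h4 : ∫⁻ a : ℝ, ∫⁻ ρ in Ioi (0 : ℝ), ENNReal.ofReal (ρ ^ n) *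
      (w (Real.sqrt (a ^ 2 + ρ ^ 2)) * F (a / Real.sqrt (a ^ 2 + ρ ^ 2))) = ∫⁻ p, Φ p := by
    refine Eq.trans ?_ (lintegral_prod _ hΦm.aemeasurable).symm
    apply lintegral_congr
    intro a
    rw [← lintegral_indicator measurableSet_Ioi]
  rw [h4, ← lintegral_comp_polarCoord_symm, polarCoord_target]
  have h5 : ∀ p ∈ Ioi (0 : ℝ) ×ˢ Ioo (-π) π, ENNReal.ofReal p.1 • Φ (polarCoord.symm p) =
      (ENNReal.ofReal (p.1 ^ (n + 1)) * w p.1) * (Ioo 0 π).indicator (fun θ =>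
        F (Real.cos θ) * ENNReal.ofReal (Real.sin θ ^ n)) p.2 := by
    rintro ⟨r, θ⟩ ⟨hr, hθ⟩
    have hr' : (0 : ℝ) < r := hr
    simp only [polarCoord_symm_apply, hΦ, smul_eq_mul]
    have hsq : Real.sqrt ((r * Real.cos θ) ^ 2 + (r * Real.sin θ) ^ 2) = r := by
      have : (r * Real.cos θ) ^ 2 + (r * Real.sin θ) ^ 2 = r ^ 2 := by
        have := Real.cos_sq_add_sin_sq θ
        nlinarith
      rw [this, Real.sqrt_sq hr'.le]
    by_cases h0 : 0 < θ
    · have hs : 0 < Real.sin θ := Real.sin_pos_of_pos_of_lt_pi h0 hθ.2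
      rw [indicator_of_mem (show r * Real.sin θ ∈ Ioi (0 : ℝ) from mul_pos hr' hs),
        indicator_of_mem (show θ ∈ Ioo 0 π from ⟨h0, hθ.2⟩), hsq,
        mul_div_cancel_left₀ _ hr'.ne', mul_pow, ENNReal.ofReal_mul (by positivity), pow_succ',
        ENNReal.ofReal_mul hr'.le]
      ring
    · have hs : Real.sin θ ≤ 0 := by
        push Not at h0
        exact Real.sin_nonpos_of_nonpos_of_neg_pi_le h0 hθ.1.le
      rw [indicator_of_notMem (show r * Real.sin θ ∉ Ioi (0 : ℝ) from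
        not_lt.2 (mul_nonpos_of_nonneg_of_nonpos hr'.le hs)),
        indicator_of_notMem (show θ ∉ Ioo 0 π from fun h => h0 h.1), mul_zero, mul_zero]
  rw [setLIntegral_congr_fun (measurableSet_Ioi.prod measurableSet_Ioo) h5,
    Measure.volume_eq_prod, ← Measure.prod_restrict]
  refine (lintegral_prod_mul (f := fun r : ℝ => ENNReal.ofReal (r ^ (n + 1)) * w r)
    (g := (Ioo 0 π).indicator (fun θ => F (Real.cos θ) * ENNReal.ofReal (Real.sin θ ^ n)))
    (by fun_prop) (by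
      apply Measurable.aemeasurable
      exact Measurable.indicator (by fun_prop) measurableSet_Ioo)).trans ?_
  congr 1
  rw [lintegral_indicator measurableSet_Ioo, Measure.restrict_restrict measurableSet_Ioo,
    inter_eq_left.2 (Ioo_subset_Ioo_left (by linarith [Real.pi_pos]))]

/-- the basic identity for the first basis vector -/
theorem base (n : ℕ) {F : ℝ → ℝ≥0∞} (hF : Measurable F) :
    ∫⁻ y : Metric.sphere (0 : EE (n + 2)) 1,
      F (inner ℝ (EuclideanSpace.single 0 1 : EE (n + 2)) (y : EE (n + 2)))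
        ∂(volume : Measure (EE (n + 2))).toSphere =
      (volume : Measure (EE (n + 1))).toSphere univ *
        ∫⁻ θ in Ioo 0 π, F (Real.cos θ) * ENNReal.ofReal (Real.sin θ ^ n) := by
  set w : ℝ → ℝ≥0∞ := (Iio (1 : ℝ)).indicator 1 with hw
  have hwm : Measurable w := measurable_one.indicator measurableSet_Iio
  have h1 := cone (m := n + 2) (by omega) (EuclideanSpace.single 0 1 : EE (n + 2)) hwm hF
  have h2 := cart n hwm hF
  have h3 : ∀ x : EE (n + 2), inner ℝ (EuclideanSpace.single 0 1 : EE (n + 2)) x = x 0 := by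
    intro x
    simp [EuclideanSpace.inner_single_left]
  have h4 : (∫⁻ r in Ioi (0 : ℝ), ENNReal.ofReal (r ^ (n + 1)) * w r) =
      ∫⁻ r in Ioo (0 : ℝ) 1, ENNReal.ofReal (r ^ (n + 1)) := by
    have h5 : ∀ r : ℝ, ENNReal.ofReal (r ^ (n + 1)) * w r =
        (Iio (1 : ℝ)).indicator (fun r => ENNReal.ofReal (r ^ (n + 1))) r := by
      intro r
      by_cases h : r < 1 <;> simp [hw, indicator, h]
    simp only [h5]
    rw [lintegral_indicator measurableSet_Iio, Measure.restrict_restrict measurableSet_Iio,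
      inter_comm, Ioi_inter_Iio]
  have h6 : (∫⁻ r in Ioo (0 : ℝ) 1, ENNReal.ofReal (r ^ (n + 1))) ≠ 0 := by
    rw [← zero_lt_iff, setLIntegral_pos_iff (by fun_prop)]
    have h7 : Ioo (0 : ℝ) 1 ⊆ Function.support (fun r : ℝ => ENNReal.ofReal (r ^ (n + 1))) ∩
        Ioo 0 1 := by
      intro r hr
      refine ⟨?_, hr⟩
      rw [Function.mem_support]
      simp only [ne_eq, ENNReal.ofReal_eq_zero, not_le]
      exact pow_pos hr.1 _
    refine lt_of_lt_of_le ?_ (measure_mono h7)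
    simp
  have h7 : (∫⁻ r in Ioo (0 : ℝ) 1, ENNReal.ofReal (r ^ (n + 1))) ≠ ⊤ := by
    apply ne_top_of_le_ne_top (b := ∫⁻ r in Ioo (0 : ℝ) 1, 1)
    · simp
    · apply setLIntegral_mono' measurableSet_Ioo
      intro r hr
      rw [ENNReal.ofReal_le_one]
      exact pow_le_one₀ hr.1.le hr.2.le
  have h8 : n + 2 - 1 = n + 1 := by omega
  rw [h8, h4] at h1
  rw [h4] at h2
  have h9 : ∫⁻ x : EE (n + 2), w ‖x‖ * F (inner ℝ (EuclideanSpace.single 0 1 : EE (n + 2)) x / ‖x‖) =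
      ∫⁻ x : EE (n + 2), w ‖x‖ * F (x 0 / ‖x‖) := by
    apply lintegral_congr
    intro x
    rw [h3]
  rw [h9, h2, ← mul_assoc, mul_comm ((volume : Measure (EE (n + 1))).toSphere univ), mul_assoc] at h1
  exact ((ENNReal.mul_right_inj h6 h7).1 h1).symm

end unif_law_aux

theorem unif_law {m : ℕ} (hm : 2 ≤ m) (e : EE m) (he : ‖e‖ = 1) (F : ℝ → ℝ≥0∞)
    (hF : Measurable F) :
    ∫⁻ y, F (inner ℝ e y) ∂(unif m) =
      ENNReal.ofReal (Wal m)⁻¹ *
        ∫⁻ θ in Ioo 0 π, F (Real.cos θ) * ENNReal.ofReal (Real.sin θ ^ (m - 2)) := by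
  obtain ⟨n, rfl⟩ : ∃ n, m = n + 2 := ⟨m - 2, by omega⟩
  set e₀ : EE (n + 2) := EuclideanSpace.single 0 1 with he₀
  have hn : ‖e₀‖ = ‖e‖ := by rw [he, he₀]; simp
  -- rotation
  set L : EE (n + 2) ≃ₗᵢ[ℝ] EE (n + 2) := (ℝ ∙ (e₀ - e))ᗮ.reflection with hL
  have hLe : L e₀ = e := Submodule.reflection_sub hn
  have hinv : ∫⁻ y, F (inner ℝ e y) ∂(unif (n + 2)) = ∫⁻ y, F (inner ℝ e₀ y) ∂(unif (n + 2)) := by
    have h1 : ∫⁻ y, F (inner ℝ e y) ∂((unif (n + 2)).map L) =
        ∫⁻ y, F (inner ℝ e (L y)) ∂(unif (n + 2)) :=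
      lintegral_map (by fun_prop) L.continuous.measurable
    rw [unif_isometry] at h1
    rw [h1]
    apply lintegral_congr
    intro y
    rw [← hLe, LinearIsometryEquiv.inner_map_map]
  have hbase : ∀ F : ℝ → ℝ≥0∞, Measurable F → ∫⁻ y, F (inner ℝ e₀ y) ∂(unif (n + 2)) =
      ((volume : Measure (EE (n + 2))).toSphere univ)⁻¹ *
      ((volume : Measure (EE (n + 1))).toSphere univ *
        ∫⁻ θ in Ioo 0 π, F (Real.cos θ) * ENNReal.ofReal (Real.sin θ ^ n)) := by
    intro F hF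
    unfold unif
    rw [lintegral_map (by fun_prop) measurable_subtype_coe, lintegral_smul_measure,
      smul_eq_mul, unif_law_aux.base n hF]
  have hwal : 0 < Wal (n + 2) := by
    unfold Wal
    apply intervalIntegral.intervalIntegral_pos_of_pos_on
    · apply Continuous.intervalIntegrable
      fun_prop
    · intro θ hθ
      exact pow_pos (Real.sin_pos_of_pos_of_lt_pi hθ.1 hθ.2) _
    · exact Real.pi_pos
  have hJ : ∫⁻ θ in Ioo 0 π, ENNReal.ofReal (Real.sin θ ^ n) = ENNReal.ofReal (Wal (n + 2)) := by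
    unfold Wal
    rw [intervalIntegral.integral_of_le Real.pi_pos.le, integral_Ioc_eq_integral_Ioo,
      ofReal_integral_eq_lintegral_ofReal]
    · rfl
    · have : Continuous fun θ : ℝ => Real.sin θ ^ (n + 2 - 2) := by fun_prop
      exact (this.integrableOn_Icc (a := 0) (b := π)).mono_set Ioo_subset_Icc_self
    · filter_upwards [ae_restrict_mem measurableSet_Ioo] with θ hθ
      exact pow_nonneg (Real.sin_nonneg_of_nonneg_of_le_pi hθ.1.le hθ.2.le) _
  have hone := hbase (fun _ => 1) measurable_const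
  have := unif_prob (m := n + 2) (by omega)
  simp only [lintegral_const, measure_univ, mul_one, one_mul] at hone
  rw [hJ] at hone
  rw [hinv, hbase F hF, ← mul_assoc]
  have hfin : ((volume : Measure (EE (n + 2))).toSphere univ)⁻¹ *
      (volume : Measure (EE (n + 1))).toSphere univ = ENNReal.ofReal (Wal (n + 2))⁻¹ := by
    rw [ENNReal.ofReal_inv_of_pos hwal]
    rw [← mul_assoc] at hone
    exact ENNReal.eq_inv_of_mul_eq_one_left hone.symm
  rw [hfin]
  rfl

end

section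

theorem Wal_pos (m : ℕ) : 0 < Wal m := by
  unfold Wal
  exact integral_sin_pow_pos _

end

section

namespace unif_inner_aux
theorem cont (m : ℕ) (y : EE m) (n : ℕ) : Continuous (fun x : EE m => (inner ℝ x y : ℝ) ^ n) :=
  (continuous_id.inner continuous_const).pow n

theorem integrable {m : ℕ} (hm : 1 ≤ m) (y : EE m) (n : ℕ) :
    Integrable (fun x : EE m => (inner ℝ x y : ℝ) ^ n) (unif m) := by
  haveI := unif_prob hm
  refine Integrable.of_bound (cont m y n).aestronglyMeasurable (‖y‖ ^ n) ?_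
  filter_upwards [unif_norm hm] with x hx
  rw [norm_pow]
  apply pow_le_pow_left₀ (norm_nonneg _)
  have := norm_inner_le_norm (𝕜 := ℝ) x y
  rwa [hx, one_mul] at this

theorem odd {m : ℕ} (y : EE m) (n : ℕ) (hn : Odd n) :
    ∫ x, (inner ℝ x y : ℝ) ^ n ∂(unif m) = 0 := by
  have h1 : ∫ x, (inner ℝ x y : ℝ) ^ n ∂(unif m) = ∫ x, (inner ℝ (-x) y : ℝ) ^ n ∂(unif m) := by
    conv_lhs => rw [← unif_isometry (LinearIsometryEquiv.neg ℝ (E := EE m))]
    rw [integral_map]
    · rfl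
    · exact (LinearIsometryEquiv.neg ℝ (E := EE m)).continuous.measurable.aemeasurable
    · exact (cont m y n).aestronglyMeasurable
  have h2 : ∀ x : EE m, (inner ℝ (-x) y : ℝ) ^ n = -((inner ℝ x y : ℝ) ^ n) := by
    intro x
    rw [inner_neg_left, hn.neg_pow]
  simp only [h2] at h1
  rw [integral_neg] at h1
  linarith

theorem second_eq {m : ℕ} (hm : 2 ≤ m) (e e' : EE m) (he : ‖e‖ = 1) (he' : ‖e'‖ = 1) :
    ∫ x, (inner ℝ x e : ℝ) ^ 2 ∂(unif m) = ∫ x, (inner ℝ x e' : ℝ) ^ 2 ∂(unif m) := by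
  have key : ∀ e : EE m, ‖e‖ = 1 → ∫ x, (inner ℝ x e : ℝ) ^ 2 ∂(unif m) =
      (ENNReal.ofReal (Wal m)⁻¹ *
        ∫⁻ θ in Ioo 0 π, (fun s : ℝ => ENNReal.ofReal (s ^ 2)) (Real.cos θ) *
          ENNReal.ofReal (Real.sin θ ^ (m - 2))).toReal := by
    intro e he
    rw [integral_eq_lintegral_of_nonneg_ae (Eventually.of_forall fun x => sq_nonneg _)
      (cont m e 2).aestronglyMeasurable]
    congr 1
    rw [← unif_law hm e he (fun s : ℝ => ENNReal.ofReal (s ^ 2)) (by fun_prop)]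
    apply lintegral_congr
    intro x
    rw [real_inner_comm]
  rw [key e he, key e' he']

theorem second_unit {m : ℕ} (hm : 2 ≤ m) (e : EE m) (he : ‖e‖ = 1) :
    ∫ x, (inner ℝ x e : ℝ) ^ 2 ∂(unif m) = 1 / m := by
  haveI := unif_prob (m := m) (by omega)
  have hsum : ∑ i : Fin m, ∫ x, (inner ℝ x (EuclideanSpace.single i (1 : ℝ)) : ℝ) ^ 2 ∂(unif m) = 1 := by
    rw [← integral_finset_sum _ (fun i _ => integrable (by omega) _ 2)]
    have h1 : ∀ᵐ x ∂(unif m), ∑ i : Fin m, (inner ℝ x (EuclideanSpace.single i (1 : ℝ)) : ℝ) ^ 2 = 1 := by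
      filter_upwards [unif_norm (m := m) (by omega)] with x hx
      have h2 : ∀ i : Fin m, (inner ℝ x (EuclideanSpace.single i (1 : ℝ)) : ℝ) = x i := by
        intro i
        simp [EuclideanSpace.inner_single_right]
      simp only [h2]
      have h3 := EuclideanSpace.norm_sq_eq x
      rw [hx] at h3
      simp only [Real.norm_eq_abs, sq_abs] at h3
      rw [← h3]
      norm_num
    rw [integral_congr_ae h1]
    simp
  have hall : ∀ i : Fin m, ∫ x, (inner ℝ x (EuclideanSpace.single i (1 : ℝ)) : ℝ) ^ 2 ∂(unif m) =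
      ∫ x, (inner ℝ x e : ℝ) ^ 2 ∂(unif m) := by
    intro i
    apply second_eq hm _ _ _ he
    simp
  rw [Finset.sum_congr rfl (fun i _ => hall i), Finset.sum_const, Finset.card_univ,
    Fintype.card_fin, nsmul_eq_mul] at hsum
  have hm0 : (m : ℝ) ≠ 0 := by
    have : m ≠ 0 := by omega
    exact_mod_cast this
  rw [eq_div_iff hm0, mul_comm]
  exact hsum
end unif_inner_aux

theorem unif_inner {m : ℕ} (hm : 2 ≤ m) (y : EE m) :
    (∫ x, inner ℝ x y ∂(unif m) = 0) ∧ (∫ x, inner ℝ x y ^ 2 ∂(unif m) = ‖y‖ ^ 2 / m) ∧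
      (∫ x, inner ℝ x y ^ 3 ∂(unif m) = 0) := by
  refine ⟨?_, ?_, unif_inner_aux.odd y 3 (by decide)⟩
  · have := unif_inner_aux.odd y 1 (by decide)
    simpa using this
  · by_cases hy : y = 0
    · subst hy
      simp
    · have hn : ‖y‖ ≠ 0 := norm_ne_zero_iff.mpr hy
      have he : ‖(‖y‖⁻¹ • y : EE m)‖ = 1 := by
        rw [norm_smul, norm_inv, norm_norm, inv_mul_cancel₀ hn]
      have h1 := unif_inner_aux.second_unit hm (‖y‖⁻¹ • y) he
      have h2 : ∀ x : EE m, (inner ℝ x y : ℝ) ^ 2 =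
          ‖y‖ ^ 2 * (inner ℝ x (‖y‖⁻¹ • y : EE m) : ℝ) ^ 2 := by
        intro x
        rw [real_inner_smul_right, mul_pow]
        field_simp
      simp only [h2]
      rw [integral_const_mul, h1]
      ring

end

end H618KS
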