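import Pool.Agent.Helper618_KS.Defs
import Pool.Agent.Helper618_KS.Unif

/-!
Part `Char` of the proof for MP_237b21_an.
-/

open MeasureTheory Filter Topology Set Real
open scoped ENNReal NNReal

set_option autoImplicit false

namespace H618KS

section

namespace poisson_formula_aux

/-- the moments -/
noncomputable def cc (n k : ℕ) : ℝ := ∫ θ in (0 : ℝ)..π, Real.cos θ ^ (2 * k) * Real.sin θ ^ n

theorem cc_zero (n : ℕ) : cc n 0 = Wal (n + 2) := by
  unfold cc Wal
  simp

theorem cc_succ (n k : ℕ) : (2 * k + n + 2 : ℝ) * cc n (k + 1) = (2 * k + 1) * cc n k := by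
  have h1 : ∀ θ : ℝ, HasDerivAt (fun θ => Real.cos θ ^ (2 * k + 1) * Real.sin θ ^ (n + 1))
      ((2 * k + n + 2 : ℝ) * (Real.cos θ ^ (2 * (k + 1)) * Real.sin θ ^ n) -
        (2 * k + 1) * (Real.cos θ ^ (2 * k) * Real.sin θ ^ n)) θ := by
    intro θ
    have h := ((Real.hasDerivAt_cos θ).pow (2 * k + 1)).mul ((Real.hasDerivAt_sin θ).pow (n + 1))
    refine h.congr_deriv ?_
    have hs : Real.sin θ ^ 2 = 1 - Real.cos θ ^ 2 := by
      have := Real.sin_sq_add_cos_sq θ
      linarith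
    simp only [Nat.add_sub_cancel, Nat.cast_add, Nat.cast_mul, Nat.cast_ofNat, Nat.cast_one, Pi.pow_apply]
    have e1 : Real.sin θ ^ (n + 1) = Real.sin θ ^ n * Real.sin θ := pow_succ _ _
    have e2 : Real.cos θ ^ (2 * k + 1) = Real.cos θ ^ (2 * k) * Real.cos θ := pow_succ _ _
    have e3 : Real.cos θ ^ (2 * (k + 1)) = Real.cos θ ^ (2 * k) * Real.cos θ ^ 2 := by
      rw [← pow_add]; congr 1
    rw [e1, e2, e3]
    linear_combination (-(2 * (k:ℝ) + 1) * Real.cos θ ^ (2 * k) * Real.sin θ ^ n) * hs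
  have h2 := intervalIntegral.integral_eq_sub_of_hasDerivAt (a := 0) (b := π) (fun θ _ => h1 θ)
    (Continuous.intervalIntegrable (by fun_prop) _ _)
  rw [intervalIntegral.integral_sub (Continuous.intervalIntegrable (by fun_prop) _ _)
    (Continuous.intervalIntegrable (by fun_prop) _ _), intervalIntegral.integral_const_mul,
    intervalIntegral.integral_const_mul] at h2
  simp only [Real.sin_pi, Real.sin_zero] at h2
  have h3 : (0:ℝ) ^ (n + 1) = 0 := by simp
  rw [h3] at h2
  unfold cc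
  linarith

theorem cc_eq (n k : ℕ) : cc n k = Wal (n + 2) * ∏ i ∈ Finset.range k,
    ((2 * i + 1 : ℝ) / (2 * i + n + 2)) := by
  induction k with
  | zero => simp [cc_zero]
  | succ k ih =>
    have h := cc_succ n k
    have hpos : (2 * k + n + 2 : ℝ) ≠ 0 := by positivity
    rw [Finset.prod_range_succ, ← mul_assoc, ← ih]
    field_simp
    linarith

theorem fact_eq (k : ℕ) : ((2 * k).factorial : ℝ) =
    2 ^ k * k.factorial * ∏ i ∈ Finset.range k, (2 * i + 1 : ℝ) := by
  induction k with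
  | zero => simp
  | succ k ih =>
    have h : 2 * (k + 1) = (2 * k + 1) + 1 := by ring
    rw [h, Nat.factorial_succ, Nat.factorial_succ, Finset.prod_range_succ, Nat.factorial_succ]
    push_cast
    rw [ih]
    ring

theorem prod_ne (n k : ℕ) : ∏ i ∈ Finset.range k, (((n:ℝ) + 2) / 2 + i) ≠ 0 := by
  refine Finset.prod_ne_zero_iff.2 fun i _ => ?_
  positivity

theorem prod_ne' (k : ℕ) : ∏ i ∈ Finset.range k, (2 * i + 1 : ℝ) ≠ 0 := by
  refine Finset.prod_ne_zero_iff.2 fun i _ => ?_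
  positivity

theorem prod_eq (n k : ℕ) : ∏ i ∈ Finset.range k, (2 * i + n + 2 : ℝ) =
    2 ^ k * ∏ i ∈ Finset.range k, (((n:ℝ) + 2) / 2 + i) := by
  induction k with
  | zero => simp
  | succ k ih =>
    rw [Finset.prod_range_succ, Finset.prod_range_succ, ih]
    ring

theorem coef_eq (n k : ℕ) (t : ℝ) :
    (-1) ^ k * t ^ (2 * k) / ((2 * k).factorial : ℝ) * cc n k = Wal (n + 2) *
      ((-1 : ℝ) ^ k * (t ^ 2 / 4) ^ k /
        ((k.factorial : ℝ) * ∏ i ∈ Finset.range k, (((n:ℝ) + 2) / 2 + i))) := by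
  rw [cc_eq, fact_eq, Finset.prod_div_distrib, prod_eq]
  have h1 := prod_ne n k
  have h2 := prod_ne' k
  have h3 : (k.factorial : ℝ) ≠ 0 := by positivity
  rw [div_pow, ← pow_mul t 2 k]
  have h4 : (4:ℝ) ^ k = 2 ^ k * 2 ^ k := by rw [← mul_pow]; norm_num
  rw [h4]
  have h5 : (2:ℝ) ^ k ≠ 0 := by positivity
  field_simp

end poisson_formula_aux

theorem poisson_formula {m : ℕ} (hm : 2 ≤ m) (t : ℝ) :
    (Wal m)⁻¹ * ∫ θ in (0 : ℝ)..π, Real.cos (t * Real.cos θ) * Real.sin θ ^ (m - 2) =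
      bj ((m : ℝ) / 2) t := by
  obtain ⟨n, rfl⟩ : ∃ n, m = n + 2 := ⟨m - 2, by omega⟩
  have hn : n + 2 - 2 = n := by omega
  rw [hn]
  let f : ℕ → C(ℝ, ℝ) := fun k =>
    ⟨fun θ => (-1) ^ k * t ^ (2 * k) / ((2 * k).factorial : ℝ) *
      (Real.cos θ ^ (2 * k) * Real.sin θ ^ n), by fun_prop⟩
  have hsum : Summable fun k : ℕ =>
      ‖(f k).restrict (⟨uIcc 0 π, isCompact_uIcc⟩ : TopologicalSpace.Compacts ℝ)‖ := by
    have hs : Summable fun k : ℕ => |t| ^ (2 * k) / ((2 * k).factorial : ℝ) :=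
      (Real.summable_pow_div_factorial |t|).comp_injective (fun a b h => by simpa using h)
    refine Summable.of_nonneg_of_le (fun _ => norm_nonneg _) (fun k => ?_) hs
    rw [ContinuousMap.norm_le _ (by positivity)]
    rintro ⟨θ, hθ⟩
    simp only [f, ContinuousMap.restrict_apply, ContinuousMap.coe_mk, norm_mul, norm_div, norm_pow,
      norm_neg, norm_one, one_pow, one_mul, Real.norm_eq_abs, Nat.abs_cast]
    have h1 : |Real.cos θ| ^ (2 * k) ≤ 1 := pow_le_one₀ (abs_nonneg _) (Real.abs_cos_le_one θ)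
    have h2 : |Real.sin θ| ^ n ≤ 1 := pow_le_one₀ (abs_nonneg _) (Real.abs_sin_le_one θ)
    have h3 : |Real.cos θ| ^ (2 * k) * |Real.sin θ| ^ n ≤ 1 :=
      mul_le_one₀ h1 (by positivity) h2
    exact mul_le_of_le_one_right (by positivity) h3
  have h1 := intervalIntegral.hasSum_intervalIntegral_of_summable_norm (a := 0) (b := π) hsum
  have h2 : (∫ θ in (0:ℝ)..π, ∑' k : ℕ, f k θ) =
      ∫ θ in (0:ℝ)..π, Real.cos (t * Real.cos θ) * Real.sin θ ^ n := by
    refine intervalIntegral.integral_congr fun θ _ => ?_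
    have h := (Real.hasSum_cos (t * Real.cos θ)).mul_right (Real.sin θ ^ n)
    rw [← h.tsum_eq]
    refine tsum_congr fun k => ?_
    simp only [f, ContinuousMap.coe_mk, mul_pow]
    ring
  have h3 : ∀ k, (∫ θ in (0:ℝ)..π, f k θ) = Wal (n + 2) *
      ((-1 : ℝ) ^ k * (t ^ 2 / 4) ^ k /
        ((k.factorial : ℝ) * ∏ i ∈ Finset.range k, (((n:ℝ) + 2) / 2 + i))) := by
    intro k
    rw [← poisson_formula_aux.coef_eq]
    simp only [f, ContinuousMap.coe_mk]
    rw [intervalIntegral.integral_const_mul]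
    rfl
  rw [h2] at h1
  simp_rw [h3] at h1
  rw [← h1.tsum_eq, tsum_mul_left, ← mul_assoc, inv_mul_cancel₀ (Wal_pos (n + 2)).ne', one_mul]
  unfold bj
  push_cast
  rfl

end

section

namespace bj_abs_le_one_aux
-- auxiliary lemmas here
end bj_abs_le_one_aux

theorem bj_abs_le_one (m : ℕ) (hm : 2 ≤ m) (t : ℝ) : |bj ((m : ℝ) / 2) t| ≤ 1 := by
  rw [← poisson_formula hm t, abs_mul, abs_of_pos (inv_pos.2 (Wal_pos m))]
  have h1 : |∫ θ in (0 : ℝ)..π, Real.cos (t * Real.cos θ) * Real.sin θ ^ (m - 2)| ≤ Wal m := by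
    refine (intervalIntegral.abs_integral_le_integral_abs Real.pi_pos.le).trans ?_
    unfold Wal
    refine intervalIntegral.integral_mono_on Real.pi_pos.le ?_ ?_ ?_
    · exact (by fun_prop : Continuous fun θ : ℝ =>
        |Real.cos (t * Real.cos θ) * Real.sin θ ^ (m - 2)|).intervalIntegrable _ _
    · exact (by fun_prop : Continuous fun θ : ℝ => Real.sin θ ^ (m - 2)).intervalIntegrable _ _
    · intro θ hθ
      have h2 : 0 ≤ Real.sin θ ^ (m - 2) := pow_nonneg (Real.sin_nonneg_of_mem_Icc hθ) _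
      rw [abs_mul, abs_of_nonneg h2]
      exact mul_le_of_le_one_left h2 (Real.abs_cos_le_one _)
  calc (Wal m)⁻¹ * |∫ θ in (0 : ℝ)..π, Real.cos (t * Real.cos θ) * Real.sin θ ^ (m - 2)|
      ≤ (Wal m)⁻¹ * Wal m := mul_le_mul_of_nonneg_left h1 (inv_pos.2 (Wal_pos m)).le
    _ = 1 := inv_mul_cancel₀ (Wal_pos m).ne'

end

section

namespace unif_char_aux

theorem bj_zero (a : ℝ) : bj a 0 = 1 := by
  unfold bj
  rw [tsum_eq_single 0]
  · simp
  · intro k hk
    simp [hk]

theorem unit_case {m : ℕ} (hm : 2 ≤ m) (e : EE m) (he : ‖e‖ = 1) (r : ℝ) :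
    ∫ y, Real.cos (r * inner ℝ e y) ∂(unif m) = bj ((m : ℝ) / 2) r := by
  haveI := unif_prob (m := m) (by omega)
  have hW := Wal_pos m
  have hcont : Continuous fun y : EE m => Real.cos (r * inner ℝ e y) := by fun_prop
  have hint : Integrable (fun y : EE m => Real.cos (r * inner ℝ e y)) (unif m) := by
    refine Integrable.of_bound hcont.aestronglyMeasurable 1 (Eventually.of_forall fun y => ?_)
    rw [Real.norm_eq_abs]
    exact Real.abs_cos_le_one _
  have hint1 : Integrable (fun y : EE m => 1 + Real.cos (r * inner ℝ e y)) (unif m) :=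
    (integrable_const 1).add hint
  have hlaw := unif_law hm e he (fun s => ENNReal.ofReal (1 + Real.cos (r * s))) (by fun_prop)
  have hL : ∫⁻ y, ENNReal.ofReal (1 + Real.cos (r * inner ℝ e y)) ∂(unif m)
      = ENNReal.ofReal (∫ y, (1 + Real.cos (r * inner ℝ e y)) ∂(unif m)) := by
    rw [ofReal_integral_eq_lintegral_ofReal hint1]
    refine Eventually.of_forall fun y => ?_
    have := Real.neg_one_le_cos (r * inner ℝ e y)
    show (0 : ℝ) ≤ 1 + Real.cos (r * inner ℝ e y)
    linarith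
  have hc2 : Continuous fun θ : ℝ => (1 + Real.cos (r * Real.cos θ)) * Real.sin θ ^ (m - 2) := by
    fun_prop
  have hint2 : IntegrableOn
      (fun θ : ℝ => (1 + Real.cos (r * Real.cos θ)) * Real.sin θ ^ (m - 2)) (Ioo 0 π) :=
    (hc2.integrableOn_Icc (a := 0) (b := π)).mono_set Ioo_subset_Icc_self
  have hnn : ∀ θ ∈ Ioo (0 : ℝ) π,
      0 ≤ (1 + Real.cos (r * Real.cos θ)) * Real.sin θ ^ (m - 2) := by
    intro θ hθ
    have h1 := Real.neg_one_le_cos (r * Real.cos θ)
    have h2 := (Real.sin_pos_of_mem_Ioo hθ).le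
    exact mul_nonneg (by linarith) (pow_nonneg h2 _)
  have hR : ∫⁻ θ in Ioo 0 π, ENNReal.ofReal (1 + Real.cos (r * Real.cos θ)) *
      ENNReal.ofReal (Real.sin θ ^ (m - 2))
      = ENNReal.ofReal (∫ θ in Ioo 0 π, (1 + Real.cos (r * Real.cos θ)) * Real.sin θ ^ (m - 2)) := by
    rw [ofReal_integral_eq_lintegral_ofReal hint2]
    · refine setLIntegral_congr_fun measurableSet_Ioo fun θ hθ => ?_
      have h1 := Real.neg_one_le_cos (r * Real.cos θ)
      rw [← ENNReal.ofReal_mul (by linarith)]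
    · exact (ae_restrict_iff' measurableSet_Ioo).2 (Eventually.of_forall hnn)
  have hconv : ∫ θ in Ioo 0 π, (1 + Real.cos (r * Real.cos θ)) * Real.sin θ ^ (m - 2)
      = ∫ θ in (0 : ℝ)..π, (1 + Real.cos (r * Real.cos θ)) * Real.sin θ ^ (m - 2) := by
    rw [intervalIntegral.integral_of_le Real.pi_pos.le, integral_Ioc_eq_integral_Ioo]
  have hsplit : ∫ θ in (0 : ℝ)..π, (1 + Real.cos (r * Real.cos θ)) * Real.sin θ ^ (m - 2)
      = Wal m + ∫ θ in (0 : ℝ)..π, Real.cos (r * Real.cos θ) * Real.sin θ ^ (m - 2) := by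
    unfold Wal
    rw [← intervalIntegral.integral_add]
    · refine intervalIntegral.integral_congr fun θ _ => ?_
      show (1 + Real.cos (r * Real.cos θ)) * Real.sin θ ^ (m - 2)
        = Real.sin θ ^ (m - 2) + Real.cos (r * Real.cos θ) * Real.sin θ ^ (m - 2)
      ring
    · exact (by fun_prop : Continuous fun θ : ℝ => Real.sin θ ^ (m - 2)).intervalIntegrable _ _
    · exact (by fun_prop : Continuous fun θ : ℝ =>
        Real.cos (r * Real.cos θ) * Real.sin θ ^ (m - 2)).intervalIntegrable _ _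
  rw [hL, hR, ← ENNReal.ofReal_mul (inv_nonneg.2 hW.le)] at hlaw
  have hnnL : 0 ≤ ∫ y, (1 + Real.cos (r * inner ℝ e y)) ∂(unif m) :=
    integral_nonneg fun y => by
      have := Real.neg_one_le_cos (r * inner ℝ e y)
      show (0 : ℝ) ≤ 1 + Real.cos (r * inner ℝ e y)
      linarith
  have hnnR : 0 ≤ (Wal m)⁻¹ *
      ∫ θ in Ioo 0 π, (1 + Real.cos (r * Real.cos θ)) * Real.sin θ ^ (m - 2) :=
    mul_nonneg (inv_nonneg.2 hW.le) (setIntegral_nonneg measurableSet_Ioo hnn)
  rw [ENNReal.ofReal_eq_ofReal_iff hnnL hnnR, hconv, hsplit, mul_add, inv_mul_cancel₀ hW.ne',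
    poisson_formula hm r, integral_add (integrable_const 1) hint] at hlaw
  simp at hlaw
  exact hlaw

end unif_char_aux

theorem unif_char {m : ℕ} (hm : 2 ≤ m) (x : EE m) :
    ∫ y, Real.cos (inner ℝ x y) ∂(unif m) = bj ((m : ℝ) / 2) ‖x‖ := by
  by_cases hx : x = 0
  · subst hx
    haveI := unif_prob (m := m) (by omega)
    simp [unif_char_aux.bj_zero]
  · have hn : ‖x‖ ≠ 0 := norm_ne_zero_iff.2 hx
    have he : ‖(‖x‖⁻¹ • x : EE m)‖ = 1 := by
      rw [norm_smul, norm_inv, norm_norm, inv_mul_cancel₀ hn]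
    rw [← unif_char_aux.unit_case hm _ he ‖x‖]
    refine integral_congr_ae (Eventually.of_forall fun y => ?_)
    show Real.cos (inner ℝ x y) = Real.cos (‖x‖ * inner ℝ (‖x‖⁻¹ • x) y)
    rw [real_inner_smul_left, ← mul_assoc, mul_inv_cancel₀ hn, one_mul]

end

section

namespace char_sum_aux

theorem bj_abs (a t : ℝ) : bj a |t| = bj a t := by
  unfold bj
  simp only [sq_abs]

theorem phi_eq {m : ℕ} (hm : 2 ≤ m) (a : ℝ) (y : EE m) :
    ∫ x, Complex.exp (((a * inner ℝ x y : ℝ) : ℂ) * Complex.I) ∂(unif m)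
      = ((bj ((m : ℝ) / 2) (a * ‖y‖) : ℝ) : ℂ) := by
  haveI := unif_prob (m := m) (by omega)
  have hcos : Integrable (fun x : EE m => Real.cos (a * inner ℝ x y)) (unif m) := by
    refine Integrable.of_bound (by fun_prop) 1 (Eventually.of_forall fun y => ?_)
    rw [Real.norm_eq_abs]
    exact Real.abs_cos_le_one _
  have hsin : Integrable (fun x : EE m => Real.sin (a * inner ℝ x y)) (unif m) := by
    refine Integrable.of_bound (by fun_prop) 1 (Eventually.of_forall fun y => ?_)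
    rw [Real.norm_eq_abs]
    exact Real.abs_sin_le_one _
  have h0 : ∫ x, Real.sin (a * inner ℝ x y) ∂(unif m) = 0 := by
    have h1 : ∫ x, Real.sin (a * inner ℝ x y) ∂(unif m)
        = ∫ x, Real.sin (a * inner ℝ (-x) y) ∂(unif m) := by
      conv_lhs => rw [← unif_isometry (LinearIsometryEquiv.neg ℝ : EE m ≃ₗᵢ[ℝ] EE m)]
      rw [integral_map]
      · simp
      · exact (LinearIsometryEquiv.neg ℝ : EE m ≃ₗᵢ[ℝ] EE m).continuous.aemeasurable
      · exact (by fun_prop : Continuous fun x : EE m =>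
          Real.sin (a * inner ℝ x y)).aestronglyMeasurable
    have h2 : ∫ x, Real.sin (a * inner ℝ (-x) y) ∂(unif m)
        = - ∫ x, Real.sin (a * inner ℝ x y) ∂(unif m) := by
      rw [← integral_neg]
      refine integral_congr_ae (Eventually.of_forall fun x => ?_)
      simp
    linarith [h1.trans h2]
  have h3 : ∫ x, Real.cos (a * inner ℝ x y) ∂(unif m) = bj ((m : ℝ) / 2) (a * ‖y‖) := by
    rw [← bj_abs, abs_mul, abs_norm]
    have := unif_char hm (a • y)
    rw [norm_smul, Real.norm_eq_abs] at this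
    rw [← this]
    refine integral_congr_ae (Eventually.of_forall fun x => ?_)
    show Real.cos (a * inner ℝ x y) = Real.cos (inner ℝ (a • y) x)
    rw [real_inner_smul_left, real_inner_comm]
  calc ∫ x, Complex.exp (((a * inner ℝ x y : ℝ) : ℂ) * Complex.I) ∂(unif m)
      = ∫ x, (((Real.cos (a * inner ℝ x y) : ℝ) : ℂ)
          + ((Real.sin (a * inner ℝ x y) : ℝ) : ℂ) * Complex.I) ∂(unif m) := by
        refine integral_congr_ae (Eventually.of_forall fun x => ?_)
        show Complex.exp (((a * inner ℝ x y : ℝ) : ℂ) * Complex.I)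
          = ((Real.cos (a * inner ℝ x y) : ℝ) : ℂ)
          + ((Real.sin (a * inner ℝ x y) : ℝ) : ℂ) * Complex.I
        rw [Complex.exp_mul_I, Complex.ofReal_cos, Complex.ofReal_sin]
    _ = ((∫ x, Real.cos (a * inner ℝ x y) ∂(unif m) : ℝ) : ℂ)
          + ((∫ x, Real.sin (a * inner ℝ x y) ∂(unif m) : ℝ) : ℂ) * Complex.I := by
        rw [integral_add hcos.ofReal (hsin.ofReal.mul_const _), integral_mul_const,
          integral_complex_ofReal, integral_complex_ofReal]
    _ = _ := by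
        rw [h0, h3]; simp

end char_sum_aux

theorem char_sum {m n : ℕ} (hm : 2 ≤ m) (a : Fin n → ℝ) (y : EE m) :
    ∫ x : Fin n → EE m, Real.cos (inner ℝ (∑ j, a j • x j) y)
        ∂(Measure.pi fun _ => unif m) = ∏ j, bj ((m : ℝ) / 2) (a j * ‖y‖) := by
  haveI := unif_prob (m := m) (by omega)
  have h1 : ∫ x : Fin n → EE m,
        ∏ j, Complex.exp (((a j * inner ℝ (x j) y : ℝ) : ℂ) * Complex.I)
        ∂(Measure.pi fun _ => unif m)
      = ((∏ j, bj ((m : ℝ) / 2) (a j * ‖y‖) : ℝ) : ℂ) := by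
    have := MeasureTheory.integral_fintype_prod_eq_prod (𝕜 := ℂ) (ι := Fin n)
      (E := fun _ => EE m) (μ := fun _ => unif m)
      (f := fun j (x : EE m) => Complex.exp (((a j * inner ℝ x y : ℝ) : ℂ) * Complex.I))
    rw [this, Complex.ofReal_prod]
    exact Finset.prod_congr rfl fun j _ => char_sum_aux.phi_eq hm (a j) y
  have h2 : ∀ x : Fin n → EE m,
      ∏ j, Complex.exp (((a j * inner ℝ (x j) y : ℝ) : ℂ) * Complex.I)
        = Complex.exp (((inner ℝ (∑ j, a j • x j) y : ℝ) : ℂ) * Complex.I) := by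
    intro x
    rw [← Complex.exp_sum, ← Finset.sum_mul, ← Complex.ofReal_sum, sum_inner]
    simp only [real_inner_smul_left]
  simp only [h2] at h1
  have hint : Integrable (fun x : Fin n → EE m =>
      Complex.exp (((inner ℝ (∑ j, a j • x j) y : ℝ) : ℂ) * Complex.I))
      (Measure.pi fun _ => unif m) := by
    refine Integrable.of_bound (Continuous.aestronglyMeasurable (by fun_prop)) 1
      (Eventually.of_forall fun x => ?_)
    rw [Complex.norm_exp_ofReal_mul_I]
  have h3 := congrArg Complex.re h1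
  rw [Complex.ofReal_re] at h3
  rw [← h3]
  have h4 : (∫ x : Fin n → EE m,
      Complex.exp (((inner ℝ (∑ j, a j • x j) y : ℝ) : ℂ) * Complex.I)
        ∂(Measure.pi fun _ => unif m)).re
      = ∫ x : Fin n → EE m,
        (Complex.exp (((inner ℝ (∑ j, a j • x j) y : ℝ) : ℂ) * Complex.I)).re
        ∂(Measure.pi fun _ => unif m) := (integral_re hint).symm
  rw [h4]
  refine integral_congr_ae (Eventually.of_forall fun x => ?_)
  show Real.cos _ = (Complex.exp _).re
  rw [Complex.exp_ofReal_mul_I_re]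

end

end H618KS
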