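import Pool.Agent.Helper618_KS.Defs
import Pool.Agent.Helper618_KS.Bessel

/-!
Part `Sonin` of the proof for MP_237b21_an.
-/

open MeasureTheory Filter Topology Set Real
open scoped ENNReal NNReal

set_option autoImplicit false

namespace H618KS

section

namespace SSn_hasDerivAt_aux
theorem hu (m : ℕ) (hm : 2 ≤ m) (t : ℝ) :
    HasDerivAt (bj ((m : ℝ) / 2)) (-(t / m) * bj ((m : ℝ) / 2 + 1) t) t := by
  have hm0 : (0:ℝ) < (m:ℝ) := by
    have : (2:ℝ) ≤ (m:ℝ) := by exact_mod_cast hm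
    linarith
  have h := bj_hasDerivAt (a := (m:ℝ)/2) (by positivity) t
  refine h.congr_deriv ?_
  congr 2
  field_simp

theorem hv (m : ℕ) (hm : 2 ≤ m) {t : ℝ} (ht : 0 < t) :
    HasDerivAt (bj ((m : ℝ) / 2 + 1))
      (-(m / t) * (bj ((m : ℝ) / 2 + 1) t - bj ((m : ℝ) / 2) t)) t := by
  have hm0 : (0:ℝ) < (m:ℝ) := by
    have : (2:ℝ) ≤ (m:ℝ) := by exact_mod_cast hm
    linarith
  have h := bj_hasDerivAt (a := (m:ℝ)/2 + 1) (by positivity) t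
  have hr := bj_rec (a := (m:ℝ)/2) (by positivity) t
  have e : (m:ℝ)/2 + 1 + 1 = (m:ℝ)/2 + 2 := by ring
  rw [e] at h
  refine h.congr_deriv ?_
  rw [hr]
  generalize bj ((m : ℝ) / 2 + 1) t = v
  generalize bj ((m : ℝ) / 2 + 2) t = w
  field_simp
  ring

theorem hpow (m : ℕ) (hm : 2 ≤ m) {t : ℝ} (ht : 0 < t) :
    HasDerivAt (fun x : ℝ => x ^ (m - 1)) (((m : ℝ) - 1) * t ^ (m - 1) / t) t := by
  obtain ⟨n, rfl⟩ : ∃ n, m = n + 2 := ⟨m - 2, by omega⟩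
  have h := hasDerivAt_pow (n + 1) t
  have e : n + 2 - 1 = n + 1 := by omega
  rw [e]
  refine h.congr_deriv ?_
  have ht0 : t ≠ 0 := ht.ne'
  simp only [Nat.add_sub_cancel]
  push_cast
  rw [pow_succ]
  field_simp
  ring

end SSn_hasDerivAt_aux

theorem SSn_hasDerivAt (m : ℕ) (hm : 2 ≤ m) {t : ℝ} (ht : 0 < t) :
    HasDerivAt (SSn m) (((m : ℝ) - 1) * ((m : ℝ) - 3) / (2 * t ^ 3) * t ^ (m - 1) *
      bj ((m : ℝ) / 2) t ^ 2) t := by
  have hm0 : (0:ℝ) < (m:ℝ) := by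
    have : (2:ℝ) ≤ (m:ℝ) := by exact_mod_cast hm
    linarith
  have ht0 : t ≠ 0 := ht.ne'
  have hm0' : (m:ℝ) ≠ 0 := hm0.ne'
  have hu := SSn_hasDerivAt_aux.hu m hm t
  have hv := SSn_hasDerivAt_aux.hv m hm ht
  have hp := SSn_hasDerivAt_aux.hpow m hm ht
  have h2 : HasDerivAt (fun x : ℝ => x ^ 2) (2 * t) t := by
    simpa using hasDerivAt_pow 2 t
  have hid : HasDerivAt (fun x : ℝ => x) 1 t := hasDerivAt_id t
  have hE : HasDerivAt (EEn m) _ t :=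
    hp.mul ((hu.pow 2).add ((h2.div_const ((m:ℝ)^2)).mul (hv.pow 2)))
  have hq : HasDerivAt (fun x : ℝ => ((m : ℝ) - 1) / (2 * x ^ 2)) _ t :=
    (hasDerivAt_const t ((m : ℝ) - 1)).div (h2.const_mul 2) (by positivity)
  have hS : HasDerivAt (SSn m) _ t :=
    hE.add (hp.mul ((hq.mul (hu.pow 2)).sub ((hu.mul hv).const_mul (((m : ℝ) - 1) / m))))
  refine hS.congr_deriv ?_
  simp only [Pi.pow_apply]
  generalize bj ((m : ℝ) / 2) t = u
  generalize bj ((m : ℝ) / 2 + 1) t = v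
  generalize t ^ (m - 1) = D
  field_simp
  ring

end

section

namespace SSn_ge_aux
-- auxiliary lemmas here
end SSn_ge_aux

theorem SSn_ge (m : ℕ) (hm : 2 ≤ m) {t : ℝ} (ht : 0 < t) :
    t ^ (m - 1) * bj ((m : ℝ) / 2) t ^ 2 * (1 - ((m : ℝ) - 1) * ((m : ℝ) - 3) / (4 * t ^ 2)) ≤
      SSn m t := by
  have hm0 : (m : ℝ) ≠ 0 := by
    have : 0 < m := by omega
    positivity
  have ht0 : t ≠ 0 := ht.ne'
  set u := bj ((m : ℝ) / 2) t with hu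
  set v := bj ((m : ℝ) / 2 + 1) t with hv
  have key : SSn m t - t ^ (m - 1) * u ^ 2 * (1 - ((m : ℝ) - 1) * ((m : ℝ) - 3) / (4 * t ^ 2)) =
      t ^ (m - 1) * (((m : ℝ) - 1) * u / (2 * t) - t * v / m) ^ 2 := by
    unfold SSn EEn
    rw [← hu, ← hv]
    field_simp
    ring
  have h2 : 0 ≤ t ^ (m - 1) * (((m : ℝ) - 1) * u / (2 * t) - t * v / m) ^ 2 := by positivity
  linarith

end

section

namespace SSn_two_four_aux
-- auxiliary lemmas here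
theorem u_bd : -0.39716 ≤ bj 1 4 ∧ bj 1 4 ≤ -0.39714 := by
  have h := bj_taylor (a := 1) one_pos 4 11 (by norm_num)
  norm_num [Finset.sum_range_succ, Finset.prod_range_succ, Nat.factorial] at h
  rw [abs_le] at h
  constructor <;> linarith [h.1, h.2]

theorem v_bd : -0.03303 ≤ bj 2 4 ∧ bj 2 4 ≤ -0.03301 := by
  have h := bj_taylor (a := 2) two_pos 4 11 (by norm_num)
  norm_num [Finset.sum_range_succ, Finset.prod_range_succ, Nat.factorial] at h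
  rw [abs_le] at h
  constructor <;> linarith [h.1, h.2]
end SSn_two_four_aux

theorem SSn_two_four : SSn 2 4 ≤ 0.642 := by
  obtain ⟨hu1, hu2⟩ := SSn_two_four_aux.u_bd
  obtain ⟨hv1, hv2⟩ := SSn_two_four_aux.v_bd
  have h1 : SSn 2 4 = 4 * (33 / 32 * bj 1 4 ^ 2 - bj 1 4 * bj 2 4 / 2 + 4 * bj 2 4 ^ 2) := by
    unfold SSn EEn
    norm_num
    ring
  rw [h1]
  set u := bj 1 4 with hu
  set v := bj 2 4 with hv
  have e1 : u ^ 2 ≤ 0.39716 ^ 2 := by nlinarith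
  have e2 : v ^ 2 ≤ 0.03303 ^ 2 := by nlinarith
  have e3 : 0.39714 * 0.03301 ≤ u * v := by nlinarith
  nlinarith

end

section

namespace EEn_lim_step_aux

theorem low (m : ℕ) (hm : 2 ≤ m) {t : ℝ} (ht : 0 < t) :
    t ^ (m - 1) * bj ((m : ℝ) / 2) t ^ 2 ≤ EEn m t ∧
    t ^ (m - 1) * (t ^ 2 * bj ((m : ℝ) / 2 + 1) t ^ 2) ≤ (m : ℝ) ^ 2 * EEn m t ∧ 0 ≤ EEn m t := by
  have hm0 : (0 : ℝ) < m := by exact_mod_cast (by omega : 0 < m)
  unfold EEn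
  refine ⟨?_, ?_, by positivity⟩
  · rw [mul_add]
    have : 0 ≤ t ^ (m - 1) * (t ^ 2 / (m : ℝ) ^ 2 * bj ((m : ℝ) / 2 + 1) t ^ 2) := by positivity
    linarith
  · have h1 : (m : ℝ) ^ 2 * (t ^ (m - 1) * (bj ((m : ℝ) / 2) t ^ 2 +
        t ^ 2 / (m : ℝ) ^ 2 * bj ((m : ℝ) / 2 + 1) t ^ 2)) =
        (m : ℝ) ^ 2 * (t ^ (m - 1) * bj ((m : ℝ) / 2) t ^ 2) +
        t ^ (m - 1) * (t ^ 2 * bj ((m : ℝ) / 2 + 1) t ^ 2) := by
      field_simp
    rw [h1]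
    have : 0 ≤ (m : ℝ) ^ 2 * (t ^ (m - 1) * bj ((m : ℝ) / 2) t ^ 2) := by positivity
    linarith

theorem E_inv (m : ℕ) {l : ℝ} (hl : Tendsto (EEn m) atTop (𝓝 l)) :
    Tendsto (fun t => EEn m t * t⁻¹) atTop (𝓝 0) := by
  have := hl.mul tendsto_inv_atTop_zero
  rwa [mul_zero] at this

/-- `D v² → 0` -/
theorem lim_vv (m : ℕ) (hm : 2 ≤ m) {l : ℝ} (hl : Tendsto (EEn m) atTop (𝓝 l)) :
    Tendsto (fun t : ℝ => t ^ (m - 1) * bj ((m : ℝ) / 2 + 1) t ^ 2) atTop (𝓝 0) := by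
  have h1 : Tendsto (fun t => (m : ℝ) ^ 2 * (EEn m t * t⁻¹)) atTop (𝓝 0) := by
    have := (E_inv m hl).const_mul ((m : ℝ) ^ 2)
    rwa [mul_zero] at this
  refine tendsto_of_tendsto_of_tendsto_of_le_of_le' tendsto_const_nhds h1 ?_ ?_
  · filter_upwards [eventually_gt_atTop 0] with t ht
    positivity
  · filter_upwards [eventually_ge_atTop 1] with t ht
    have ht0 : 0 < t := by linarith
    obtain ⟨-, h2, h3⟩ := low m hm ht0
    have h4 : t ^ (m - 1) * bj ((m : ℝ) / 2 + 1) t ^ 2 =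
        (t ^ (m - 1) * (t ^ 2 * bj ((m : ℝ) / 2 + 1) t ^ 2)) * (t⁻¹) ^ 2 := by
      field_simp
    have h5 : t⁻¹ ≤ 1 := inv_le_one_of_one_le₀ ht
    have h6 : 0 < t⁻¹ := inv_pos.2 ht0
    rw [h4]
    calc (t ^ (m - 1) * (t ^ 2 * bj ((m : ℝ) / 2 + 1) t ^ 2)) * (t⁻¹) ^ 2
        ≤ ((m : ℝ) ^ 2 * EEn m t) * (t⁻¹) ^ 2 := by gcongr
      _ ≤ ((m : ℝ) ^ 2 * EEn m t) * t⁻¹ := by
          have : (t⁻¹) ^ 2 ≤ t⁻¹ := by nlinarith
          gcongr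
      _ = (m : ℝ) ^ 2 * (EEn m t * t⁻¹) := by ring

/-- `D u v → 0` -/
theorem lim_uv (m : ℕ) (hm : 2 ≤ m) {l : ℝ} (hl : Tendsto (EEn m) atTop (𝓝 l)) :
    Tendsto (fun t : ℝ => t ^ (m - 1) * (bj ((m : ℝ) / 2) t * bj ((m : ℝ) / 2 + 1) t)) atTop
      (𝓝 0) := by
  have h1 : Tendsto (fun t => ((m : ℝ) ^ 2 + 1) * (EEn m t * t⁻¹)) atTop (𝓝 0) := by
    have := (E_inv m hl).const_mul ((m : ℝ) ^ 2 + 1)
    rwa [mul_zero] at this
  refine squeeze_zero_norm' ?_ h1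
  filter_upwards [eventually_ge_atTop 1] with t ht
  have ht0 : 0 < t := by linarith
  obtain ⟨h2, h3, h4⟩ := low m hm ht0
  have h6 : 0 < t⁻¹ := inv_pos.2 ht0
  obtain ⟨u, hu⟩ : ∃ u, u = bj ((m : ℝ) / 2) t := ⟨_, rfl⟩
  obtain ⟨v, hv⟩ : ∃ v, v = bj ((m : ℝ) / 2 + 1) t := ⟨_, rfl⟩
  obtain ⟨D, hD⟩ : ∃ D, D = t ^ (m - 1) := ⟨_, rfl⟩
  have hD0 : 0 ≤ D := by rw [hD]; positivity
  rw [← hu, ← hD] at h2
  rw [← hv, ← hD] at h3
  rw [← hu, ← hv, ← hD, Real.norm_eq_abs, abs_mul, abs_of_nonneg hD0]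
  have h7 : |u * v| ≤ (u ^ 2 + t ^ 2 * v ^ 2) * t⁻¹ := by
    have h8 : |u * v| = |u * (t * v)| * t⁻¹ := by
      rw [show u * (t * v) = (u * v) * t by ring, abs_mul _ t, abs_of_pos ht0, mul_assoc,
        mul_inv_cancel₀ ht0.ne', mul_one]
    rw [h8]
    have h9 : |u * (t * v)| ≤ u ^ 2 + t ^ 2 * v ^ 2 := by
      rw [abs_le]
      constructor <;> nlinarith [sq_nonneg (u - t * v), sq_nonneg (u + t * v), sq_nonneg u,
        sq_nonneg (t * v)]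
    gcongr
  calc D * |u * v| ≤ D * ((u ^ 2 + t ^ 2 * v ^ 2) * t⁻¹) := by gcongr
    _ = (D * u ^ 2 + D * (t ^ 2 * v ^ 2)) * t⁻¹ := by ring
    _ ≤ (EEn m t + (m : ℝ) ^ 2 * EEn m t) * t⁻¹ := by gcongr
    _ = ((m : ℝ) ^ 2 + 1) * (EEn m t * t⁻¹) := by ring

/-- `D u² / t² → 0` -/
theorem lim_uu (m : ℕ) (hm : 2 ≤ m) {l : ℝ} (hl : Tendsto (EEn m) atTop (𝓝 l)) :
    Tendsto (fun t : ℝ => t ^ (m - 1) * (bj ((m : ℝ) / 2) t ^ 2 / t ^ 2)) atTop (𝓝 0) := by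
  refine tendsto_of_tendsto_of_tendsto_of_le_of_le' tendsto_const_nhds (E_inv m hl) ?_ ?_
  · filter_upwards [eventually_gt_atTop 0] with t ht
    positivity
  · filter_upwards [eventually_ge_atTop 1] with t ht
    have ht0 : 0 < t := by linarith
    obtain ⟨h2, -, h3⟩ := low m hm ht0
    have h6 : 0 < t⁻¹ := inv_pos.2 ht0
    have h5 : t⁻¹ ≤ 1 := inv_le_one_of_one_le₀ ht
    calc t ^ (m - 1) * (bj ((m : ℝ) / 2) t ^ 2 / t ^ 2) =
        (t ^ (m - 1) * bj ((m : ℝ) / 2) t ^ 2) * (t⁻¹) ^ 2 := by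
          rw [inv_pow, div_eq_mul_inv]; ring
      _ ≤ EEn m t * (t⁻¹) ^ 2 := by gcongr
      _ ≤ EEn m t * t⁻¹ := by
          have : (t⁻¹) ^ 2 ≤ t⁻¹ := by nlinarith
          gcongr

end EEn_lim_step_aux

theorem EEn_lim_step (m : ℕ) (hm : 2 ≤ m) {l : ℝ} (hl : Tendsto (EEn m) atTop (𝓝 l)) :
    Tendsto (EEn (m + 2)) atTop (𝓝 ((m : ℝ) ^ 2 * l)) ∧ Tendsto (SSn m) atTop (𝓝 l) := by
  have hm0 : (0 : ℝ) < m := by exact_mod_cast (by omega : 0 < m)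
  have hvv := EEn_lim_step_aux.lim_vv m hm hl
  have huv := EEn_lim_step_aux.lim_uv m hm hl
  have huu := EEn_lim_step_aux.lim_uu m hm hl
  constructor
  · have h1 : Tendsto (fun t : ℝ => (m : ℝ) ^ 2 * EEn m t +
        (m : ℝ) ^ 2 * (t ^ (m - 1) * bj ((m : ℝ) / 2 + 1) t ^ 2 -
          2 * (t ^ (m - 1) * (bj ((m : ℝ) / 2) t * bj ((m : ℝ) / 2 + 1) t)))) atTop
        (𝓝 ((m : ℝ) ^ 2 * l + (m : ℝ) ^ 2 * (0 - 2 * 0))) :=
      (hl.const_mul _).add ((hvv.sub (huv.const_mul 2)).const_mul _)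
    rw [show (m : ℝ) ^ 2 * l + (m : ℝ) ^ 2 * (0 - 2 * 0) = (m : ℝ) ^ 2 * l by ring] at h1
    refine h1.congr' ?_
    filter_upwards [eventually_gt_atTop 0] with t ht
    have hr := bj_rec (a := (m : ℝ) / 2) (by positivity) t
    have e1 : (((m + 2 : ℕ) : ℝ)) / 2 = (m : ℝ) / 2 + 1 := by push_cast; ring
    have e2 : (((m + 2 : ℕ) : ℝ)) / 2 + 1 = (m : ℝ) / 2 + 2 := by push_cast; ring
    have e3 : t ^ (m + 2 - 1) = t ^ (m - 1) * t ^ 2 := by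
      rw [← pow_add]; congr 1; omega
    unfold EEn
    rw [e2, e1, e3]
    push_cast
    obtain ⟨u, hu⟩ : ∃ u, u = bj ((m : ℝ) / 2) t := ⟨_, rfl⟩
    obtain ⟨v, hv⟩ : ∃ v, v = bj ((m : ℝ) / 2 + 1) t := ⟨_, rfl⟩
    obtain ⟨w, hw⟩ : ∃ w, w = bj ((m : ℝ) / 2 + 2) t := ⟨_, rfl⟩
    rw [← hu, ← hv, ← hw] at hr
    rw [← hu, ← hv, ← hw]
    have h2 : t ^ 2 * w = (m : ℝ) * (m + 2) * (v - u) := by
      rw [hr]
      field_simp
      ring
    have h3 : t ^ 2 * (t ^ 2 / ((m : ℝ) + 2) ^ 2 * w ^ 2) = (m : ℝ) ^ 2 * (v - u) ^ 2 := by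
      have : t ^ 2 * (t ^ 2 / ((m : ℝ) + 2) ^ 2 * w ^ 2) = (t ^ 2 * w) ^ 2 / ((m : ℝ) + 2) ^ 2 := by
        ring
      rw [this, h2]
      field_simp
    have h4 : t ^ (m - 1) * t ^ 2 * (v ^ 2 + t ^ 2 / ((m : ℝ) + 2) ^ 2 * w ^ 2) =
        t ^ (m - 1) * (t ^ 2 * v ^ 2 + t ^ 2 * (t ^ 2 / ((m : ℝ) + 2) ^ 2 * w ^ 2)) := by ring
    rw [h4, h3]
    field_simp
    ring
  · have h1 : Tendsto (fun t : ℝ => EEn m t + (((m : ℝ) - 1) / 2 *
        (t ^ (m - 1) * (bj ((m : ℝ) / 2) t ^ 2 / t ^ 2)) - ((m : ℝ) - 1) / m *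
          (t ^ (m - 1) * (bj ((m : ℝ) / 2) t * bj ((m : ℝ) / 2 + 1) t)))) atTop
        (𝓝 (l + (((m : ℝ) - 1) / 2 * 0 - ((m : ℝ) - 1) / m * 0))) :=
      hl.add ((huu.const_mul _).sub (huv.const_mul _))
    rw [show l + (((m : ℝ) - 1) / 2 * 0 - ((m : ℝ) - 1) / m * 0) = l by ring] at h1
    refine h1.congr fun t => ?_
    unfold SSn
    have h5 : ((m : ℝ) - 1) / 2 * (t ^ (m - 1) * (bj ((m : ℝ) / 2) t ^ 2 / t ^ 2)) -
        ((m : ℝ) - 1) / m * (t ^ (m - 1) * (bj ((m : ℝ) / 2) t * bj ((m : ℝ) / 2 + 1) t)) =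
        t ^ (m - 1) * (((m : ℝ) - 1) / (2 * t ^ 2) * bj ((m : ℝ) / 2) t ^ 2 -
        ((m : ℝ) - 1) / m * (bj ((m : ℝ) / 2) t * bj ((m : ℝ) / 2 + 1) t)) := by
      rw [div_mul_eq_div_div]
      ring
    rw [h5]

end

section

namespace EEn_lim_three_aux

theorem five_half (t : ℝ) :
    t ^ 2 / 3 * bj (3 / 2 + 1) t = bj (3 / 2) t - Real.cos t := by
  have h1 : HasDerivAt (fun t : ℝ => t * bj (3 / 2) t)
      (1 * bj (3 / 2) t + t * (-(t / (2 * (3 / 2))) * bj (3 / 2 + 1) t)) t :=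
    (hasDerivAt_id t).mul (bj_hasDerivAt (by norm_num) t)
  have h2 : (fun t : ℝ => t * bj (3 / 2) t) = Real.sin := funext bj_three_half
  rw [h2] at h1
  have h3 := h1.unique (Real.hasDerivAt_sin t)
  linarith

theorem formula {t : ℝ} (ht : 0 < t) : EEn 3 t =
    1 + (Real.sin t ^ 2 * (t⁻¹ * t⁻¹) - 2 * Real.sin t * Real.cos t * t⁻¹) := by
  have h1 := bj_three_half t
  have h2 := five_half t
  have h3 := Real.sin_sq_add_cos_sq t
  have e : EEn 3 t = (t * bj (3 / 2) t) ^ 2 + (t⁻¹ * (t * (t ^ 2 / 3 * bj (3 / 2 + 1) t))) ^ 2 := by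
    unfold EEn
    have : t⁻¹ * t = 1 := inv_mul_cancel₀ ht.ne'
    have e2 : t⁻¹ * (t * (t ^ 2 / 3 * bj (3 / 2 + 1) t)) = t ^ 2 / 3 * bj (3 / 2 + 1) t := by
      rw [← mul_assoc, this, one_mul]
    rw [e2]
    norm_num
    ring
  have e3 : t * (t ^ 2 / 3 * bj (3 / 2 + 1) t) = Real.sin t - t * Real.cos t := by
    rw [h2, mul_sub, h1]
  rw [e, e3, h1]
  have : t⁻¹ * t = 1 := inv_mul_cancel₀ ht.ne'
  have e4 : t⁻¹ * (Real.sin t - t * Real.cos t) = t⁻¹ * Real.sin t - Real.cos t := by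
    rw [mul_sub, ← mul_assoc, this, one_mul]
  rw [e4]
  nlinarith [h3]

end EEn_lim_three_aux

theorem EEn_lim_three : ∃ l : ℝ, Tendsto (EEn 3) atTop (𝓝 l) ∧ l ≤ Asq 3 := by
  refine ⟨1, ?_, by simp [Asq]⟩
  have h0 : Tendsto (fun t : ℝ => t⁻¹) atTop (𝓝 0) := tendsto_inv_atTop_zero
  have h1 : Tendsto (fun t : ℝ => 2 * Real.sin t * Real.cos t * t⁻¹) atTop (𝓝 0) := by
    refine squeeze_zero_norm' (a := fun t : ℝ => 2 * t⁻¹) ?_ (by simpa using h0.const_mul 2)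
    filter_upwards [eventually_gt_atTop (0 : ℝ)] with t ht
    have hs : |Real.sin t| ≤ 1 := Real.abs_sin_le_one t
    have hc : |Real.cos t| ≤ 1 := Real.abs_cos_le_one t
    rw [Real.norm_eq_abs, abs_mul, abs_mul, abs_mul, abs_of_pos (inv_pos.2 ht), abs_two]
    have h3 : 0 < t⁻¹ := inv_pos.2 ht
    have h4 : |Real.sin t| * |Real.cos t| ≤ 1 := mul_le_one₀ hs (abs_nonneg _) hc
    nlinarith
  have h2 : Tendsto (fun t : ℝ => Real.sin t ^ 2 * (t⁻¹ * t⁻¹)) atTop (𝓝 0) := by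
    refine squeeze_zero_norm' (a := fun t : ℝ => t⁻¹ * t⁻¹) ?_ (by simpa using h0.mul h0)
    filter_upwards [eventually_gt_atTop (0 : ℝ)] with t ht
    rw [Real.norm_eq_abs, abs_mul, abs_of_nonneg (sq_nonneg _),
      abs_of_pos (mul_pos (inv_pos.2 ht) (inv_pos.2 ht))]
    have h3 : 0 < t⁻¹ * t⁻¹ := mul_pos (inv_pos.2 ht) (inv_pos.2 ht)
    nlinarith [Real.sin_sq_le_one t]
  have h3 : Tendsto (fun t : ℝ => 1 + (Real.sin t ^ 2 * (t⁻¹ * t⁻¹) -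
      2 * Real.sin t * Real.cos t * t⁻¹)) atTop (𝓝 1) := by
    simpa using tendsto_const_nhds.add (h2.sub h1)
  refine h3.congr' ?_
  filter_upwards [eventually_gt_atTop (0 : ℝ)] with t ht
  exact (EEn_lim_three_aux.formula ht).symm

end

section

namespace EEn_lim_two_aux
-- auxiliary lemmas here
theorem ssn_sub (t : ℝ) : SSn 2 t - EEn 2 t =
    t * (1 / (2 * t ^ 2) * bj 1 t ^ 2 - 1 / 2 * (bj 1 t * bj 2 t)) := by
  unfold SSn
  have h1 : ((2 : ℕ) : ℝ) / 2 = 1 := by norm_num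
  rw [h1]
  have h2 : (1 : ℝ) + 1 = 2 := by norm_num
  rw [h2]
  push_cast
  norm_num

theorem ssn_eq {t : ℝ} (ht : 0 < t) : SSn 2 t =
    t * (bj 1 t ^ 2 * (1 + 1 / (4 * t ^ 2)) + (bj 1 t / (2 * t) - t * bj 2 t / 2) ^ 2) := by
  have h := ssn_sub t
  have h0 : EEn 2 t = t * (bj 1 t ^ 2 + t ^ 2 / 4 * bj 2 t ^ 2) := by
    unfold EEn
    have h1 : ((2 : ℕ) : ℝ) / 2 = 1 := by norm_num
    rw [h1]
    have h2 : (1 : ℝ) + 1 = 2 := by norm_num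
    rw [h2]
    push_cast
    norm_num
  have h3 : SSn 2 t = EEn 2 t +
    t * (1 / (2 * t ^ 2) * bj 1 t ^ 2 - 1 / 2 * (bj 1 t * bj 2 t)) := by linarith
  rw [h3, h0]
  field_simp
  ring

theorem ssn_nonneg {t : ℝ} (ht : 0 < t) : 0 ≤ SSn 2 t := by
  rw [ssn_eq ht]; positivity

theorem ssn_anti : AntitoneOn (SSn 2) (Ioi 0) := by
  have hd : ∀ t ∈ Ioi (0 : ℝ), HasDerivAt (SSn 2) ((((2 : ℕ) : ℝ) - 1) * (((2 : ℕ) : ℝ) - 3) / (2 * t ^ 3) * t ^ (2 - 1) *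
      bj (((2 : ℕ) : ℝ) / 2) t ^ 2) t := fun t ht => SSn_hasDerivAt 2 le_rfl ht
  refine antitoneOn_of_deriv_nonpos (convex_Ioi 0) (fun t ht => (hd t ht).continuousAt.continuousWithinAt)
    (fun t ht => ?_) (fun t ht => ?_)
  · rw [interior_Ioi] at ht
    exact (hd t ht).differentiableAt.differentiableWithinAt
  · rw [interior_Ioi] at ht
    rw [(hd t ht).deriv]
    have ht' : (0 : ℝ) < t := ht
    have h1 : (((2 : ℕ) : ℝ) - 1) * (((2 : ℕ) : ℝ) - 3) = -1 := by norm_num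
    rw [h1]
    have h2 : 0 ≤ 1 / (2 * t ^ 3) * t ^ (2 - 1) * bj (((2 : ℕ) : ℝ) / 2) t ^ 2 := by positivity
    have h3 : -1 / (2 * t ^ 3) * t ^ (2 - 1) * bj (((2 : ℕ) : ℝ) / 2) t ^ 2 =
      -(1 / (2 * t ^ 3) * t ^ (2 - 1) * bj (((2 : ℕ) : ℝ) / 2) t ^ 2) := by ring
    rw [h3]
    linarith

theorem ssn_le {t : ℝ} (ht : 4 ≤ t) : SSn 2 t ≤ 1 := by
  have h := ssn_anti (by norm_num : (4 : ℝ) ∈ Ioi (0 : ℝ)) (by show (0 : ℝ) < t; linarith) ht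
  have := SSn_two_four
  linarith

theorem diff_bd {t : ℝ} (ht : 4 ≤ t) : |SSn 2 t - EEn 2 t| ≤ 3 / t := by
  have ht0 : (0 : ℝ) < t := by linarith
  have h1 := ssn_le ht
  rw [ssn_eq ht0] at h1
  set u := bj 1 t with hu
  set a := t * bj 2 t / 2 with ha
  have hd : SSn 2 t - EEn 2 t = u ^ 2 / (2 * t) - u * a := by
    rw [ssn_sub t, ← hu, ha]
    field_simp
  rw [hd]
  have hA : t * u ^ 2 ≤ 1 := by
    have h2 : 0 ≤ t * (u ^ 2 * (1 / (4 * t ^ 2))) := by positivity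
    have h3 : 0 ≤ t * (u / (2 * t) - a) ^ 2 := by positivity
    nlinarith
  have hB : t * (u / (2 * t) - a) ^ 2 ≤ 1 := by
    have h2 : 0 ≤ t * (u ^ 2 * (1 + 1 / (4 * t ^ 2))) := by positivity
    nlinarith
  have hC : t * (u / (2 * t)) ^ 2 ≤ 1 / 2 := by
    have h4 : t * (u / (2 * t)) ^ 2 = (t * u ^ 2) / (4 * t ^ 2) := by
      field_simp; ring
    rw [h4, div_le_iff₀ (by positivity)]
    nlinarith
  have hD : t * a ^ 2 ≤ 3 := by
    have h5 : a ^ 2 ≤ 2 * (u / (2 * t)) ^ 2 + 2 * (u / (2 * t) - a) ^ 2 := by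
      nlinarith [sq_nonneg (2 * (u / (2 * t)) - a)]
    have h6 := mul_le_mul_of_nonneg_left h5 ht0.le
    nlinarith
  have hE : |u * a| ≤ 2 / t := by
    rw [le_div_iff₀ ht0]
    have h7 : |u * a| ≤ (u ^ 2 + a ^ 2) / 2 := by
      rw [abs_le]
      constructor <;> nlinarith [sq_nonneg (u + a), sq_nonneg (u - a)]
    nlinarith
  have hF : |u ^ 2 / (2 * t)| ≤ 1 / t := by
    rw [abs_of_nonneg (by positivity), div_le_div_iff₀ (by positivity) ht0]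
    nlinarith
  calc |u ^ 2 / (2 * t) - u * a| ≤ |u ^ 2 / (2 * t)| + |u * a| := abs_sub _ _
    _ ≤ 1 / t + 2 / t := add_le_add hF hE
    _ = 3 / t := by ring
end EEn_lim_two_aux

theorem EEn_lim_two : ∃ l : ℝ, Tendsto (EEn 2) atTop (𝓝 l) ∧ l ≤ Asq 2 := by
  let g : ℝ → ℝ := fun t => SSn 2 (max t 4)
  have hg : Antitone g := by
    intro x y hxy
    refine EEn_lim_two_aux.ssn_anti ?_ ?_ (max_le_max_right 4 hxy)
    · show (0 : ℝ) < max x 4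
      exact lt_of_lt_of_le (by norm_num) (le_max_right _ _)
    · show (0 : ℝ) < max y 4
      exact lt_of_lt_of_le (by norm_num) (le_max_right _ _)
  have hbdd : BddBelow (Set.range g) := by
    refine ⟨0, ?_⟩
    rintro _ ⟨x, rfl⟩
    exact EEn_lim_two_aux.ssn_nonneg (lt_of_lt_of_le (by norm_num) (le_max_right _ _))
  have hlim := tendsto_atTop_ciInf hg hbdd
  refine ⟨iInf g, ?_, ?_⟩
  · have h1 : Tendsto (fun t => SSn 2 t) atTop (𝓝 (iInf g)) := by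
      refine hlim.congr' ?_
      filter_upwards [eventually_ge_atTop (4 : ℝ)] with t ht
      show SSn 2 (max t 4) = SSn 2 t
      rw [max_eq_left ht]
    have h2 : Tendsto (fun t : ℝ => SSn 2 t - EEn 2 t) atTop (𝓝 0) := by
      have h3 : Tendsto (fun t : ℝ => 3 / t) atTop (𝓝 0) := tendsto_const_nhds.div_atTop tendsto_id
      refine squeeze_zero_norm' ?_ h3
      filter_upwards [eventually_ge_atTop (4 : ℝ)] with t ht
      rw [Real.norm_eq_abs]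
      exact EEn_lim_two_aux.diff_bd ht
    have h4 := h1.sub h2
    simpa using h4
  · have h5 : iInf g ≤ g 4 := ciInf_le hbdd 4
    have h6 : g 4 = SSn 2 4 := by
      show SSn 2 (max 4 4) = SSn 2 4
      rw [max_self]
    have h7 := SSn_two_four
    show iInf g ≤ 0.642
    linarith

end

section

namespace sonin_aux

theorem lim (m : ℕ) : 2 ≤ m → ∃ l : ℝ, Tendsto (EEn m) atTop (𝓝 l) ∧ l ≤ Asq m := by
  induction m using Nat.strong_induction_on with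
  | _ m ih =>
    intro hm
    match m, hm with
    | 2, _ => exact EEn_lim_two
    | 3, _ => exact EEn_lim_three
    | (m + 4), _ =>
      obtain ⟨l, hl, hl'⟩ := ih (m + 2) (by omega) (by omega)
      refine ⟨_, (EEn_lim_step (m + 2) (by omega) hl).1, ?_⟩
      have e : Asq (m + 4) = ((m : ℝ) + 2) ^ 2 * Asq (m + 2) := rfl
      rw [e]
      push_cast
      exact mul_le_mul_of_nonneg_left hl' (by positivity)

theorem mono (m : ℕ) (hm : 3 ≤ m) : MonotoneOn (SSn m) (Ioi 0) := by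
  have hm' : (3 : ℝ) ≤ m := by exact_mod_cast hm
  have hd : ∀ t : ℝ, 0 < t → HasDerivAt (SSn m) (((m : ℝ) - 1) * ((m : ℝ) - 3) / (2 * t ^ 3) *
      t ^ (m - 1) * bj ((m : ℝ) / 2) t ^ 2) t := fun t ht => SSn_hasDerivAt m (by omega) ht
  refine monotoneOn_of_deriv_nonneg (convex_Ioi 0) ?_ ?_ ?_
  · intro t ht
    exact (hd t ht).continuousAt.continuousWithinAt
  · intro t ht
    rw [interior_Ioi] at ht
    exact (hd t ht).differentiableAt.differentiableWithinAt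
  · intro t ht
    rw [interior_Ioi] at ht
    have ht' : 0 < t := ht
    rw [(hd t ht).deriv]
    have h1 : 0 ≤ ((m : ℝ) - 1) * ((m : ℝ) - 3) / (2 * t ^ 3) :=
      div_nonneg (mul_nonneg (by linarith) (by linarith)) (by positivity)
    positivity

end sonin_aux

theorem sonin (m : ℕ) (hm : 3 ≤ m) {t : ℝ} (ht : 0 < t) :
    t ^ (m - 1) * bj ((m : ℝ) / 2) t ^ 2 * (1 - ((m : ℝ) - 1) * ((m : ℝ) - 3) / (4 * t ^ 2)) ≤
      Asq m := by
  obtain ⟨l, hl, hl'⟩ := sonin_aux.lim m (by omega)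
  have h1 := (EEn_lim_step m (by omega) hl).2
  have h2 : SSn m t ≤ l := by
    refine ge_of_tendsto h1 ?_
    filter_upwards [eventually_ge_atTop t] with s hs
    exact sonin_aux.mono m hm ht (lt_of_lt_of_le ht hs) hs
  exact ((SSn_ge m (by omega) ht).trans h2).trans hl'

end

section

namespace bj_decay_aux

theorem two (t : ℝ) (ht : 1 ≤ t) :
    t ^ (2 - 1) * bj (((2 : ℕ) : ℝ) / 2) t ^ 2 ≤ SSn 2 1 := by
  have h0 : ∀ s : ℝ, 0 < s → HasDerivAt (SSn 2) ((((2 : ℕ) : ℝ) - 1) * (((2 : ℕ) : ℝ) - 3) /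
      (2 * s ^ 3) * s ^ (2 - 1) * bj (((2 : ℕ) : ℝ) / 2) s ^ 2) s :=
    fun s hs => SSn_hasDerivAt 2 le_rfl hs
  have hanti : AntitoneOn (SSn 2) (Set.Ici 1) := by
    refine antitoneOn_of_deriv_nonpos (convex_Ici 1) ?_ ?_ ?_
    · exact fun s hs => (h0 s (lt_of_lt_of_le one_pos hs)).continuousAt.continuousWithinAt
    · intro s hs
      rw [interior_Ici] at hs
      exact (h0 s (lt_trans one_pos hs)).differentiableAt.differentiableWithinAt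
    · intro s hs
      rw [interior_Ici] at hs
      have hs0 : 0 < s := lt_trans one_pos hs
      rw [(h0 s hs0).deriv]
      have h1 : (((2 : ℕ) : ℝ) - 1) * (((2 : ℕ) : ℝ) - 3) = -1 := by norm_num
      rw [h1]
      have h2 : 0 ≤ 1 / (2 * s ^ 3) * s ^ (2 - 1) * bj (((2 : ℕ) : ℝ) / 2) s ^ 2 := by positivity
      have h3 : -1 / (2 * s ^ 3) * s ^ (2 - 1) * bj (((2 : ℕ) : ℝ) / 2) s ^ 2 =
          -(1 / (2 * s ^ 3) * s ^ (2 - 1) * bj (((2 : ℕ) : ℝ) / 2) s ^ 2) := by ring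
      rw [h3]
      linarith
  have ht0 : 0 < t := lt_of_lt_of_le one_pos ht
  have h1 := hanti (Set.mem_Ici.2 le_rfl) (Set.mem_Ici.2 ht) ht
  have h2 := SSn_ge 2 le_rfl ht0
  have h3 : 1 ≤ 1 - (((2 : ℕ) : ℝ) - 1) * (((2 : ℕ) : ℝ) - 3) / (4 * t ^ 2) := by
    have h4 : (((2 : ℕ) : ℝ) - 1) * (((2 : ℕ) : ℝ) - 3) = -1 := by norm_num
    rw [h4]
    have h5 : 0 ≤ 1 / (4 * t ^ 2) := by positivity
    have h6 : -1 / (4 * t ^ 2) = -(1 / (4 * t ^ 2)) := by ring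
    rw [h6]; linarith
  have h7 : 0 ≤ t ^ (2 - 1) * bj (((2 : ℕ) : ℝ) / 2) t ^ 2 := by positivity
  nlinarith

theorem big (m : ℕ) (hm : 3 ≤ m) (t : ℝ) (ht : (m : ℝ) ≤ t) :
    t ^ (m - 1) * bj ((m : ℝ) / 2) t ^ 2 ≤ 4 / 3 * Asq m := by
  have hm' : (3 : ℝ) ≤ m := by exact_mod_cast hm
  have ht0 : 0 < t := by linarith
  have h1 := sonin m hm ht0
  have h2 : 3 / 4 ≤ 1 - ((m : ℝ) - 1) * ((m : ℝ) - 3) / (4 * t ^ 2) := by
    have h3 : ((m : ℝ) - 1) * ((m : ℝ) - 3) / (4 * t ^ 2) ≤ 1 / 4 := by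
      rw [div_le_iff₀ (by positivity)]
      nlinarith
    linarith
  have h7 : 0 ≤ t ^ (m - 1) * bj ((m : ℝ) / 2) t ^ 2 := by positivity
  nlinarith

end bj_decay_aux

theorem bj_decay (m : ℕ) (hm : 2 ≤ m) :
    ∃ C : ℝ, ∀ t : ℝ, 1 ≤ t → t ^ (m - 1) * bj ((m : ℝ) / 2) t ^ 2 ≤ C := by
  rcases eq_or_lt_of_le hm with h | h
  · subst h
    exact ⟨SSn 2 1, fun t ht => bj_decay_aux.two t ht⟩
  · have hm3 : 3 ≤ m := h
    have hc : Continuous (bj ((m : ℝ) / 2)) := by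
      rw [continuous_iff_continuousAt]
      intro t
      refine (bj_hasDerivAt ?_ t).continuousAt
      have : (3 : ℝ) ≤ m := by exact_mod_cast hm3
      positivity
    have hc2 : ContinuousOn (fun t : ℝ => t ^ (m - 1) * bj ((m : ℝ) / 2) t ^ 2) (Set.Icc 1 (m : ℝ)) :=
      ((continuous_pow _).mul (hc.pow 2)).continuousOn
    obtain ⟨C, hC⟩ := isCompact_Icc.exists_bound_of_continuousOn hc2
    refine ⟨max C (4 / 3 * Asq m), fun t ht => ?_⟩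
    rcases le_total t (m : ℝ) with h1 | h1
    · refine le_trans ?_ (le_max_left _ _)
      exact (le_abs_self _).trans (hC t ⟨ht, h1⟩)
    · exact (bj_decay_aux.big m hm3 t h1).trans (le_max_right _ _)

end

end H618KS
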