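import Pool.Agent.Helper618_KS.Defs
import Pool.Agent.Helper618_KS.Bessel
import Pool.Agent.Helper618_KS.Sonin

/-!
Part `Crit` of the proof for MP_237b21_an.
-/

open MeasureTheory Filter Topology Set Real
open scoped ENNReal NNReal

set_option autoImplicit false

namespace H618KS

section

namespace np_pointwise_aux

/-- `x ^ s - x ^ 2 = x ^ 2 * (x ^ (s-2) - 1)` -/
theorem rpow_split {x s : ℝ} (hx : 0 < x) : x ^ s = x ^ 2 * x ^ (s - 2) := by
  rw [← Real.rpow_natCast x 2, ← Real.rpow_add hx]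
  congr 1
  push_cast
  ring

/-- `1 + a log x ≤ x ^ a` -/
theorem one_add_le {x a : ℝ} (hx : 0 < x) : 1 + a * Real.log x ≤ x ^ a := by
  have h := Real.add_one_le_exp (a * Real.log x)
  rw [Real.rpow_def_of_pos hx, mul_comm (Real.log x) a]
  linarith

theorem h_nonneg {x a : ℝ} (hx : 0 < x) : 0 ≤ x ^ a - 1 - a * Real.log x := by
  have := one_add_le (a := a) hx
  linarith

theorem h_mono {x y a : ℝ} (hx : 1 ≤ x) (hxy : x ≤ y) (ha : 0 ≤ a) :
    x ^ a - 1 - a * Real.log x ≤ y ^ a - 1 - a * Real.log y := by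
  have hx0 : 0 < x := by linarith
  have hy0 : 0 < y := by linarith
  have hq : 0 < y / x := div_pos hy0 hx0
  have hq1 : 1 ≤ y / x := by
    rw [le_div_iff₀ hx0]; linarith
  have h1 := one_add_le (a := a) hq
  have h2 : y ^ a = x ^ a * (y / x) ^ a := by
    rw [← Real.mul_rpow hx0.le hq.le]
    congr 1
    field_simp
  have h3 : Real.log (y / x) = Real.log y - Real.log x := Real.log_div hy0.ne' hx0.ne'
  have h4 : 1 ≤ x ^ a := Real.one_le_rpow hx ha
  have h5 : 0 ≤ Real.log (y / x) := Real.log_nonneg hq1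
  have h6 : 0 ≤ a * Real.log (y / x) := mul_nonneg ha h5
  rw [h2]
  have h7 : x ^ a * (1 + a * Real.log (y / x)) ≤ x ^ a * (y / x) ^ a :=
    mul_le_mul_of_nonneg_left h1 (by linarith)
  have h8 : a * Real.log (y / x) = a * Real.log y - a * Real.log x := by rw [h3]; ring
  nlinarith

end np_pointwise_aux

theorem np_pointwise {F G s : ℝ} (hF : 0 ≤ F) (hG : 0 < G) (hFG : F ≤ max G 1) (hs : 2 ≤ s) :
    (s - 2) * (G ^ 2 * Real.log G - F ^ 2 * max 0 (Real.log F)) ≤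
      (G ^ s - G ^ 2) - (F ^ s - F ^ 2) := by
  have hGs := np_pointwise_aux.rpow_split (s := s) hG
  have hGn := np_pointwise_aux.h_nonneg (a := s - 2) hG
  have hG2 : 0 ≤ G ^ 2 := sq_nonneg G
  rcases le_or_gt F 1 with h1 | h1
  · have hlog : Real.log F ≤ 0 := Real.log_nonpos hF h1
    have hmax : max 0 (Real.log F) = 0 := max_eq_left hlog
    rw [hmax]
    have hFs : F ^ s - F ^ 2 ≤ 0 := by
      rcases hF.eq_or_lt with h0 | h0
      · rw [← h0, Real.zero_rpow (by linarith)]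
        norm_num
      · have := Real.rpow_le_rpow_of_exponent_ge h0 h1 hs
        rw [Real.rpow_two] at this
        linarith
    have h3 := mul_nonneg hG2 hGn
    rw [hGs]
    nlinarith
  · have hF0 : 0 < F := by linarith
    have hFG' : F ≤ G := by
      rcases le_max_iff.1 hFG with h | h
      · exact h
      · linarith
    have hmax : max 0 (Real.log F) = Real.log F := max_eq_right (Real.log_nonneg h1.le)
    rw [hmax]
    have hFs := np_pointwise_aux.rpow_split (s := s) hF0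
    have hm := np_pointwise_aux.h_mono (a := s - 2) h1.le hFG' (by linarith)
    have hFn := np_pointwise_aux.h_nonneg (a := s - 2) hF0
    have hsq : F ^ 2 ≤ G ^ 2 := by nlinarith
    have h5 := mul_le_mul hsq hm hFn hG2
    rw [hGs, hFs]
    nlinarith

end

section

namespace gauss_pow_int_aux

theorem eqfun {m : ℕ} (hm : 1 ≤ m) {q s : ℝ} (t : ℝ) :
    exp (-(t ^ 2 / (2 * m))) ^ s * t ^ (q - 1) = t ^ (q - 1) * exp (-(s / (2 * m)) * t ^ 2) := by
  rw [← Real.exp_mul, mul_comm]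
  congr 2
  have : (m : ℝ) ≠ 0 := by positivity
  field_simp

end gauss_pow_int_aux

theorem gauss_pow_int {m : ℕ} (hm : 1 ≤ m) {q s : ℝ} (hq : 0 < q) (hs : 0 < s) :
    IntegrableOn (fun t : ℝ => exp (-(t ^ 2 / (2 * m))) ^ s * t ^ (q - 1)) (Ioi 0) ∧
    ∫ t in Ioi (0 : ℝ), exp (-(t ^ 2 / (2 * m))) ^ s * t ^ (q - 1) =
      s ^ (-(q / 2)) * ((1 / 2) * (2 * (m : ℝ)) ^ (q / 2) * Real.Gamma (q / 2)) := by
  have hm0 : (0 : ℝ) < m := by exact_mod_cast hm
  have hb : 0 < s / (2 * (m : ℝ)) := by positivity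
  simp_rw [gauss_pow_int_aux.eqfun hm]
  refine ⟨integrableOn_rpow_mul_exp_neg_mul_sq hb (by linarith), ?_⟩
  have h1 := integral_rpow_mul_exp_neg_mul_rpow (p := 2) (q := q - 1) (b := s / (2 * (m : ℝ)))
    (by norm_num) (by linarith) hb
  have h2 : ∀ t : ℝ, t ^ (2 : ℝ) = t ^ 2 := fun t => by norm_cast
  simp_rw [h2] at h1
  rw [h1, sub_add_cancel, Real.div_rpow hs.le (by positivity)]
  rw [show -q / 2 = -(q / 2) by ring, Real.rpow_neg (by positivity : (0 : ℝ) ≤ 2 * m)]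
  field_simp

end

section

namespace gauss_log_int_aux

theorem pointwise {m : ℕ} (hm : 2 ≤ m) (L : ℝ) {t : ℝ} (ht : 0 < t) :
    exp (-(t ^ 2 / (2 * m))) ^ 2 * (L - t ^ 2 / (2 * m)) * t ^ (m - 2) =
      L * (t ^ ((m : ℝ) - 2) * exp (-(1 / (m : ℝ)) * t ^ (2 : ℝ))) -
        (1 / (2 * (m : ℝ))) * (t ^ (m : ℝ) * exp (-(1 / (m : ℝ)) * t ^ (2 : ℝ))) := by
  have hm0 : (m : ℝ) ≠ 0 := by
    have : m ≠ 0 := by omega
    exact_mod_cast this
  have h1 : exp (-(t ^ 2 / (2 * (m : ℝ)))) ^ 2 = exp (-(1 / (m : ℝ)) * t ^ (2 : ℝ)) := by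
    rw [← Real.exp_nat_mul, Real.rpow_two]
    congr 1
    push_cast
    field_simp
  have h2 : t ^ ((m : ℝ) - 2) = t ^ (m - 2) := by
    rw [← Real.rpow_natCast, Nat.cast_sub hm]
    norm_num
  have h3 : t ^ (m : ℝ) = t ^ (m - 2) * t ^ 2 := by
    rw [Real.rpow_natCast, ← pow_add]
    congr 1
    omega
  rw [h1, h2, h3]
  field_simp

end gauss_log_int_aux

theorem gauss_log_int {m : ℕ} (hm : 2 ≤ m) (L : ℝ) :
    IntegrableOn (fun t : ℝ => exp (-(t ^ 2 / (2 * m))) ^ 2 * (L - t ^ 2 / (2 * m)) * t ^ (m - 2))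
      (Ioi 0) ∧
    ∫ t in Ioi (0 : ℝ), exp (-(t ^ 2 / (2 * m))) ^ 2 * (L - t ^ 2 / (2 * m)) * t ^ (m - 2) =
      (L - ((m : ℝ) - 1) / 4) * (1 / 2) * (m : ℝ) ^ (((m : ℝ) - 1) / 2) *
        Real.Gamma (((m : ℝ) - 1) / 2) := by
  have hm2 : (2 : ℝ) ≤ (m : ℝ) := by exact_mod_cast hm
  have hm0 : (0 : ℝ) < (m : ℝ) := by linarith
  have hb : (0 : ℝ) < 1 / (m : ℝ) := by positivity
  have i1 : IntegrableOn (fun t : ℝ => t ^ ((m : ℝ) - 2) * exp (-(1 / (m : ℝ)) * t ^ (2 : ℝ)))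
      (Ioi 0) := integrableOn_rpow_mul_exp_neg_mul_rpow (by linarith) (by norm_num) hb
  have i2 : IntegrableOn (fun t : ℝ => t ^ (m : ℝ) * exp (-(1 / (m : ℝ)) * t ^ (2 : ℝ)))
      (Ioi 0) := integrableOn_rpow_mul_exp_neg_mul_rpow (by linarith) (by norm_num) hb
  have v1 := integral_rpow_mul_exp_neg_mul_rpow (p := 2) (q := (m : ℝ) - 2) (b := 1 / (m : ℝ))
    (by norm_num) (by linarith) hb
  have v2 := integral_rpow_mul_exp_neg_mul_rpow (p := 2) (q := (m : ℝ)) (b := 1 / (m : ℝ))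
    (by norm_num) (by linarith) hb
  constructor
  · refine IntegrableOn.congr_fun ((i1.const_mul L).sub (i2.const_mul (1 / (2 * (m : ℝ))))) ?_
      measurableSet_Ioi
    intro t ht
    exact (gauss_log_int_aux.pointwise hm L ht).symm
  · rw [setIntegral_congr_fun measurableSet_Ioi (fun t ht => gauss_log_int_aux.pointwise hm L ht),
      integral_sub (i1.const_mul L) (i2.const_mul (1 / (2 * (m : ℝ)))), integral_const_mul,
      integral_const_mul, v1, v2]
    have e1 : (1 / (m : ℝ)) ^ (-((m : ℝ) - 2 + 1) / 2) = (m : ℝ) ^ (((m : ℝ) - 1) / 2) := by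
      rw [one_div, Real.inv_rpow hm0.le, ← Real.rpow_neg hm0.le]
      congr 1
      ring
    have e2 : (1 / (m : ℝ)) ^ (-((m : ℝ) + 1) / 2) = (m : ℝ) ^ (((m : ℝ) - 1) / 2) * m := by
      rw [one_div, Real.inv_rpow hm0.le, ← Real.rpow_neg hm0.le]
      have e0 : -(-((m : ℝ) + 1) / 2) = ((m : ℝ) - 1) / 2 + 1 := by ring
      rw [e0, Real.rpow_add hm0, Real.rpow_one]
    have e3 : ((m : ℝ) - 2 + 1) / 2 = ((m : ℝ) - 1) / 2 := by ring
    have e4 : ((m : ℝ) + 1) / 2 = ((m : ℝ) - 1) / 2 + 1 := by ring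
    have e5 : Real.Gamma (((m : ℝ) - 1) / 2 + 1) =
        ((m : ℝ) - 1) / 2 * Real.Gamma (((m : ℝ) - 1) / 2) :=
      Real.Gamma_add_one (by
        have : (0 : ℝ) < ((m : ℝ) - 1) / 2 := by linarith
        exact this.ne')
    rw [e1, e2, e3, e4, e5]
    field_simp
    ring

end

section

namespace bj_sq_integrable_aux

theorem cont (m : ℕ) (hm : 2 ≤ m) : Continuous (bj ((m : ℝ) / 2)) := by
  have hpos : (0 : ℝ) < (m : ℝ) / 2 := by
    have : (2 : ℝ) ≤ m := by exact_mod_cast hm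
    linarith
  exact continuous_iff_continuousAt.2 fun t => (bj_hasDerivAt hpos t).continuousAt

theorem small (m : ℕ) (hm : 2 ≤ m) {q : ℝ} (hq : 0 < q) :
    IntegrableOn (fun t : ℝ => bj ((m : ℝ) / 2) t ^ 2 * t ^ (q - 1)) (Icc 0 1) := by
  have h1 : IntegrableOn (fun t : ℝ => t ^ (q - 1)) (Icc 0 1) := by
    have := (intervalIntegral.intervalIntegrable_rpow' (a := 0) (b := 1) (r := q - 1)
      (by linarith))
    rw [intervalIntegrable_iff_integrableOn_Icc_of_le zero_le_one] at this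
    exact this
  exact IntegrableOn.continuousOn_mul ((cont m hm).pow 2).continuousOn h1 isCompact_Icc

theorem large (m : ℕ) (hm : 2 ≤ m) {q : ℝ} (hq' : q < m - 1) :
    IntegrableOn (fun t : ℝ => bj ((m : ℝ) / 2) t ^ 2 * t ^ (q - 1)) (Ioi 1) := by
  obtain ⟨C, hC⟩ := bj_decay m hm
  have h1 : IntegrableOn (fun t : ℝ => C * t ^ (q - m)) (Ioi 1) :=
    (integrableOn_Ioi_rpow_of_lt (by linarith) zero_lt_one).const_mul C
  refine Integrable.mono' h1 ?_ ?_
  · have hc : ContinuousOn (fun t : ℝ => bj ((m : ℝ) / 2) t ^ 2 * t ^ (q - 1)) (Ioi 1) := by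
      refine ((cont m hm).pow 2).continuousOn.mul ?_
      intro t ht
      exact (Real.continuousAt_rpow_const t (q - 1)
        (Or.inl (ne_of_gt (lt_trans zero_lt_one ht)))).continuousWithinAt
    exact hc.aestronglyMeasurable measurableSet_Ioi
  · refine (ae_restrict_iff' measurableSet_Ioi).2 (Filter.Eventually.of_forall fun t ht => ?_)
    have ht1 : (1 : ℝ) < t := ht
    have ht0 : (0 : ℝ) < t := lt_trans zero_lt_one ht1
    have hnn : 0 ≤ bj ((m : ℝ) / 2) t ^ 2 * t ^ (q - 1) :=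
      mul_nonneg (sq_nonneg _) (Real.rpow_nonneg ht0.le _)
    rw [Real.norm_of_nonneg hnn]
    have e : t ^ (q - 1) = t ^ (m - 1) * t ^ (q - m) := by
      have e1 : (t : ℝ) ^ (m - 1) = t ^ ((m : ℝ) - 1) := by
        rw [← Real.rpow_natCast]
        congr 1
        push_cast [Nat.cast_sub (by omega : 1 ≤ m)]
        ring
      rw [e1, ← Real.rpow_add ht0]
      congr 1
      ring
    calc bj ((m : ℝ) / 2) t ^ 2 * t ^ (q - 1)
        = (t ^ (m - 1) * bj ((m : ℝ) / 2) t ^ 2) * t ^ (q - m) := by rw [e]; ring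
      _ ≤ C * t ^ (q - m) :=
        mul_le_mul_of_nonneg_right (hC t ht1.le) (Real.rpow_nonneg ht0.le _)

end bj_sq_integrable_aux

theorem bj_sq_integrable (m : ℕ) (hm : 2 ≤ m) {q : ℝ} (hq : 0 < q) (hq' : q < m - 1) :
    IntegrableOn (fun t : ℝ => bj ((m : ℝ) / 2) t ^ 2 * t ^ (q - 1)) (Ioi 0) := by
  have hs := bj_sq_integrable_aux.small m hm hq
  have hl := bj_sq_integrable_aux.large m hm hq'
  exact (hs.union hl).mono_set (fun t ht => by
    rcases le_or_gt t 1 with h | h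
    · exact Or.inl ⟨le_of_lt ht, h⟩
    · exact Or.inr h)

end

end H618KS
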