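import Pool.Agent.Helper618_KS.Defs
import Pool.Agent.Helper618_KS.Bessel
import Pool.Agent.Helper618_KS.Sonin

/-!
Part `BoundSix` of the proof for MP_237b21_an.
-/

open MeasureTheory Filter Topology Set Real
open scoped ENNReal NNReal

set_option autoImplicit false

namespace H618KS

section

namespace Asq_le_aux

lemma exp_two_le (m : ℕ) (hm : 1 ≤ m) : (m : ℝ) ^ (m + 1) * exp 2 ≤ ((m : ℝ) + 2) ^ (m + 1) := by
  have hm0 : (0 : ℝ) < m := by exact_mod_cast hm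
  have h1 : 2 * (2 / (m : ℝ)) / (2 / (m : ℝ) + 2) ≤ Real.log (1 + 2 / (m : ℝ)) :=
    Real.le_log_one_add_of_nonneg (by positivity)
  have h2 : 2 * (2 / (m : ℝ)) / (2 / (m : ℝ) + 2) = 2 / ((m : ℝ) + 1) := by
    field_simp
    ring
  rw [h2] at h1
  have h3 : (2 : ℝ) ≤ ((m + 1 : ℕ) : ℝ) * Real.log (1 + 2 / (m : ℝ)) := by
    have h4 := (div_le_iff₀ (by positivity : (0 : ℝ) < (m : ℝ) + 1)).1 h1
    push_cast
    linarith
  have h5 : exp 2 ≤ (1 + 2 / (m : ℝ)) ^ (m + 1) := by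
    rw [← Real.exp_log (by positivity : (0 : ℝ) < (1 + 2 / (m : ℝ)) ^ (m + 1)), Real.log_pow]
    exact Real.exp_le_exp.2 h3
  calc (m : ℝ) ^ (m + 1) * exp 2 ≤ (m : ℝ) ^ (m + 1) * (1 + 2 / (m : ℝ)) ^ (m + 1) :=
        mul_le_mul_of_nonneg_left h5 (by positivity)
    _ = ((m : ℝ) + 2) ^ (m + 1) := by
        rw [← mul_pow]
        congr 1
        field_simp

lemma step (m : ℕ) (hm : 6 ≤ m) (h : Asq m ≤ 2.14 * (m : ℝ) ^ (m - 1) * exp (-(m : ℝ))) :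
    Asq (m + 2) ≤ 2.14 * ((m + 2 : ℕ) : ℝ) ^ (m + 2 - 1) * exp (-((m + 2 : ℕ) : ℝ)) := by
  obtain ⟨n, rfl⟩ : ∃ n, m = n + 2 := ⟨m - 2, by omega⟩
  have e1 : Asq (n + 2 + 2) = ((n : ℝ) + 2) ^ 2 * Asq (n + 2) := by
    show Asq (n + 4) = _
    rw [Asq]
  rw [e1]
  have h2 := exp_two_le (n + 2) (by omega)
  have e2 : exp (-((n + 2 + 2 : ℕ) : ℝ)) * exp 2 = exp (-((n + 2 : ℕ) : ℝ)) := by
    rw [← Real.exp_add]
    congr 1
    push_cast
    ring
  rw [← e2] at h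
  have e3 : n + 2 - 1 = n + 1 := by omega
  have e4 : n + 2 + 2 - 1 = n + 3 := by omega
  rw [e3] at h
  rw [e4]
  have hE : 0 < exp (-((n + 2 + 2 : ℕ) : ℝ)) := Real.exp_pos _
  set E := exp (-((n + 2 + 2 : ℕ) : ℝ)) with hEdef
  push_cast at h h2 ⊢
  calc ((n : ℝ) + 2) ^ 2 * Asq (n + 2)
      ≤ ((n : ℝ) + 2) ^ 2 * (2.14 * ((n : ℝ) + 2) ^ (n + 1) * (E * exp 2)) :=
        mul_le_mul_of_nonneg_left h (by positivity)
    _ = 2.14 * E * (((n : ℝ) + 2) ^ (n + 2 + 1) * exp 2) := by ring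
    _ ≤ 2.14 * E * (((n : ℝ) + 2 + 2) ^ (n + 2 + 1)) :=
        mul_le_mul_of_nonneg_left h2 (by positivity)
    _ = 2.14 * ((n : ℝ) + 2 + 2) ^ (n + 3) * E := by ring

lemma base (k : ℕ) (A B : ℝ) (h : A * (2.7182818286 : ℝ) ^ k ≤ B) (hA : 0 ≤ A) :
    A ≤ B * exp (-(k : ℝ)) := by
  have h1 : exp (k : ℝ) = exp 1 ^ k := by
    rw [← Real.exp_nat_mul, mul_one]
  have h2 : exp (k : ℝ) ≤ (2.7182818286 : ℝ) ^ k := by
    rw [h1]
    exact pow_le_pow_left₀ (Real.exp_pos 1).le Real.exp_one_lt_d9.le k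
  rw [Real.exp_neg, ← div_eq_mul_inv, le_div_iff₀ (Real.exp_pos _)]
  exact le_trans (mul_le_mul_of_nonneg_left h2 hA) h

end Asq_le_aux

theorem Asq_le (m : ℕ) (hm : 6 ≤ m) : Asq m ≤ 2.14 * (m : ℝ) ^ (m - 1) * exp (-(m : ℝ)) := by
  induction m using Nat.strong_induction_on with
  | _ m ih =>
    rcases Nat.lt_or_ge m 8 with h8 | h8
    · have e4 : Asq 4 = 4 * 0.642 := by
        rw [show (4 : ℕ) = 0 + 4 from rfl, Asq, show 0 + 2 = 2 from rfl, Asq]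
        norm_num
      have e5 : Asq 5 = 9 := by
        rw [show (5 : ℕ) = 1 + 4 from rfl, Asq, show 1 + 2 = 3 from rfl, Asq]
        norm_num
      have e6 : Asq 6 = 41.088 := by
        rw [show (6 : ℕ) = 2 + 4 from rfl, Asq, show 2 + 2 = 4 from rfl, e4]
        norm_num
      have e7 : Asq 7 = 225 := by
        rw [show (7 : ℕ) = 3 + 4 from rfl, Asq, show 3 + 2 = 5 from rfl, e5]
        norm_num
      interval_cases m
      · rw [e6]
        apply Asq_le_aux.base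
        · norm_num
        · norm_num
      · rw [e7]
        apply Asq_le_aux.base
        · norm_num
        · norm_num
    · obtain ⟨n, rfl⟩ : ∃ n, m = n + 2 := ⟨m - 2, by omega⟩
      exact Asq_le_aux.step n (by omega) (ih n (by omega) (by omega))

end

section

namespace six_ineq1_aux

/-- the left side with `m = k + 1` -/
noncomputable def LL (k : ℕ) : ℝ :=
  2.14 * (2 * ((k : ℝ) + 1) / (k + 4)) ^ k * (((k : ℝ) + 4) ^ 2 / (10 * k + 16))

theorem e34 : (2.1 : ℝ) ≤ exp (3 / 4) := by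
  have h1 : exp (3 / 4) ^ 4 = exp 1 ^ 3 := by
    rw [← Real.exp_nat_mul, ← Real.exp_nat_mul]
    norm_num
  have h2 := Real.exp_one_gt_d9
  have h3 : (2.1 : ℝ) ^ 4 ≤ exp (3 / 4) ^ 4 := by
    rw [h1]
    calc (2.1 : ℝ) ^ 4 ≤ 2.7182818283 ^ 3 := by norm_num
      _ ≤ exp 1 ^ 3 := by gcongr
  exact le_of_pow_le_pow_left₀ (by norm_num) (Real.exp_pos _).le h3

theorem ratio (k : ℕ) (hk : 5 ≤ k) : LL (k + 1) ≤ 2.1 * LL k := by
  have hk' : (5 : ℝ) ≤ k := by exact_mod_cast hk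
  unfold LL
  set x : ℝ := (k : ℝ) with hx
  have e1 : ((k + 1 : ℕ) : ℝ) = x + 1 := by push_cast; rfl
  rw [e1]
  have hr : 2 * (x + 1 + 1) / (x + 1 + 4) =
      2 * (x + 1) / (x + 4) * (1 + 3 / ((x + 1) * (x + 5))) := by
    have h1 : x + 4 ≠ 0 := by positivity
    have h2 : x + 5 ≠ 0 := by positivity
    have h3 : x + 1 ≠ 0 := by positivity
    have h4 : x + 1 + 4 ≠ 0 := by positivity
    field_simp
    ring
  have hp : (1 + 3 / ((x + 1) * (x + 5))) ^ k ≤ (x + 1) * (x + 5) / (x ^ 2 + 3 * x + 5) := by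
    have h1 : (1 + 3 / ((x + 1) * (x + 5))) ^ k ≤ exp (3 / ((x + 1) * (x + 5))) ^ k := by
      have := Real.add_one_le_exp (3 / ((x + 1) * (x + 5)))
      exact pow_le_pow_left₀ (by positivity) (by linarith) k
    rw [← Real.exp_nat_mul] at h1
    refine h1.trans ?_
    have h2 := Real.add_one_le_exp (-((k : ℝ) * (3 / ((x + 1) * (x + 5)))))
    rw [Real.exp_neg] at h2
    have h3 : -((k : ℝ) * (3 / ((x + 1) * (x + 5)))) + 1 =
        (x ^ 2 + 3 * x + 5) / ((x + 1) * (x + 5)) := by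
      rw [← hx]
      field_simp
      ring
    rw [h3] at h2
    have h4 : 0 < (x ^ 2 + 3 * x + 5) / ((x + 1) * (x + 5)) := by positivity
    have h5 := inv_anti₀ h4 h2
    rw [inv_inv, inv_div] at h5
    exact h5
  have ha : 0 < (2 * (x + 1) / (x + 4)) ^ k := by positivity
  have hpow : (2 * (x + 1 + 1) / (x + 1 + 4)) ^ (k + 1) ≤
      (2 * (x + 2) / (x + 5)) * ((2 * (x + 1) / (x + 4)) ^ k *
        ((x + 1) * (x + 5) / (x ^ 2 + 3 * x + 5))) := by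
    rw [pow_succ, mul_comm]
    have e2 : 2 * (x + 1 + 1) / (x + 1 + 4) = 2 * (x + 2) / (x + 5) := by ring_nf
    have e3 : (2 * (x + 1 + 1) / (x + 1 + 4)) ^ k = (2 * (x + 1) / (x + 4)) ^ k *
        (1 + 3 / ((x + 1) * (x + 5))) ^ k := by rw [hr, mul_pow]
    rw [e3, e2]
    refine mul_le_mul_of_nonneg_left ?_ (by positivity)
    exact mul_le_mul_of_nonneg_left hp ha.le
  have key : (2 * (x + 2) / (x + 5)) * ((x + 1) * (x + 5) / (x ^ 2 + 3 * x + 5)) *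
      ((x + 5) ^ 2 / (10 * x + 26)) ≤ 2.1 * ((x + 4) ^ 2 / (10 * x + 16)) := by
    have e4 : (2 * (x + 2) / (x + 5)) * ((x + 1) * (x + 5) / (x ^ 2 + 3 * x + 5)) *
      ((x + 5) ^ 2 / (10 * x + 26)) =
      (2 * (x + 2) * (x + 1) * (x + 5) ^ 2) / ((x ^ 2 + 3 * x + 5) * (10 * x + 26)) := by
      field_simp
    rw [e4, ← mul_div_assoc, div_le_div_iff₀ (by positivity) (by positivity)]
    obtain ⟨y, hy⟩ : ∃ y, x = 5 + y := ⟨x - 5, by ring⟩
    have hy0 : 0 ≤ y := by linarith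
    rw [hy, ← sub_nonneg]
    ring_nf
    positivity
  calc 2.14 * (2 * (x + 1 + 1) / (x + 1 + 4)) ^ (k + 1) *
        ((x + 1 + 4) ^ 2 / (10 * (x + 1) + 16))
      ≤ 2.14 * ((2 * (x + 2) / (x + 5)) * ((2 * (x + 1) / (x + 4)) ^ k *
        ((x + 1) * (x + 5) / (x ^ 2 + 3 * x + 5)))) *
        ((x + 1 + 4) ^ 2 / (10 * (x + 1) + 16)) := by
        refine mul_le_mul_of_nonneg_right ?_ (by positivity)
        exact mul_le_mul_of_nonneg_left hpow (by norm_num)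
    _ = 2.14 * (2 * (x + 1) / (x + 4)) ^ k * ((2 * (x + 2) / (x + 5)) *
        ((x + 1) * (x + 5) / (x ^ 2 + 3 * x + 5)) * ((x + 5) ^ 2 / (10 * x + 26))) := by
        have e5 : x + 1 + 4 = x + 5 := by ring
        have e6 : 10 * (x + 1) + 16 = 10 * x + 26 := by ring
        rw [e5, e6]
        ring
    _ ≤ 2.14 * (2 * (x + 1) / (x + 4)) ^ k * (2.1 * ((x + 4) ^ 2 / (10 * x + 16))) :=
        mul_le_mul_of_nonneg_left key (by positivity)
    _ = _ := by ring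

theorem main (k : ℕ) (hk : 5 ≤ k) :
    LL k ≤ exp (3 * ((k : ℝ) + 1) / 4 - 3 / 2 - 9 / (4 * (k + 1))) := by
  induction k, hk using Nat.le_induction with
  | base =>
    have h1 : exp (3 * (((5 : ℕ) : ℝ) + 1) / 4 - 3 / 2 - 9 / (4 * (((5 : ℕ) : ℝ) + 1))) =
        exp 1 ^ 2 * exp (5 / 8) := by
      rw [← Real.exp_nat_mul, ← Real.exp_add]
      norm_num
    rw [h1]
    have h2 := Real.exp_one_gt_d9
    have h3 := Real.add_one_le_exp (5 / 8 : ℝ)
    have h4 : (2.7182818283 : ℝ) ^ 2 * (5 / 8 + 1) ≤ exp 1 ^ 2 * exp (5 / 8) := by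
      gcongr
    refine le_trans ?_ h4
    unfold LL
    norm_num
  | succ k hk ih =>
    have hk0 : (0 : ℝ) ≤ k := Nat.cast_nonneg k
    have h1 := ratio k hk
    have h2 : exp (3 / 4) * exp (3 * ((k : ℝ) + 1) / 4 - 3 / 2 - 9 / (4 * (k + 1))) ≤
        exp (3 * (((k + 1 : ℕ) : ℝ) + 1) / 4 - 3 / 2 - 9 / (4 * (((k + 1 : ℕ) : ℝ) + 1))) := by
      rw [← Real.exp_add]
      apply Real.exp_le_exp.2
      push_cast
      have h3 : 9 / (4 * ((k : ℝ) + 1 + 1)) ≤ 9 / (4 * (k + 1)) := by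
        apply div_le_div_of_nonneg_left (by norm_num) (by positivity)
        linarith
      linarith
    refine h1.trans (le_trans ?_ h2)
    have h4 : 0 ≤ LL k := by unfold LL; positivity
    calc 2.1 * LL k ≤ exp (3 / 4) * LL k := mul_le_mul_of_nonneg_right e34 h4
      _ ≤ _ := mul_le_mul_of_nonneg_left ih (Real.exp_pos _).le

end six_ineq1_aux

theorem six_ineq1 (m : ℕ) (hm : 6 ≤ m) :
    2.14 * (2 * (m : ℝ) / (m + 3)) ^ (m - 1) * (((m : ℝ) + 3) ^ 2 / (10 * m + 6)) ≤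
      exp (3 * (m : ℝ) / 4 - 3 / 2 - 9 / (4 * m)) := by
  obtain ⟨k, rfl⟩ : ∃ k, m = k + 1 := ⟨m - 1, by omega⟩
  have h := six_ineq1_aux.main k (by omega)
  unfold six_ineq1_aux.LL at h
  rw [Nat.add_sub_cancel]
  push_cast
  have e1 : (k : ℝ) + 1 + 3 = k + 4 := by ring
  have e2 : 10 * ((k : ℝ) + 1) + 6 = 10 * k + 16 := by ring
  rw [e1, e2]
  exact h

end

section

namespace six_ineq2_aux

theorem rp52 : (3 / 2 : ℝ) ^ (5 / 2 : ℝ) ≤ 2.756 := by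
  have h1 : ((3 / 2 : ℝ) ^ (5 / 2 : ℝ)) * ((3 / 2 : ℝ) ^ (5 / 2 : ℝ)) = (3 / 2 : ℝ) ^ 5 := by
    rw [← rpow_add (by norm_num), ← rpow_natCast]
    norm_num
  have h2 : 0 ≤ (3 / 2 : ℝ) ^ (5 / 2 : ℝ) := by positivity
  nlinarith

theorem rp12 : (3 / 2 : ℝ) ^ (1 / 2 : ℝ) ≤ 1.2248 := by
  have h1 : ((3 / 2 : ℝ) ^ (1 / 2 : ℝ)) * ((3 / 2 : ℝ) ^ (1 / 2 : ℝ)) = (3 / 2 : ℝ) := by
    rw [← rpow_add (by norm_num)]
    norm_num
  have h2 : 0 ≤ (3 / 2 : ℝ) ^ (1 / 2 : ℝ) := by positivity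
  nlinarith

theorem exp_two : (7.38 : ℝ) ≤ exp 2 := by
  have h1 := exp_one_gt_d9
  have h2 : exp 2 = exp 1 * exp 1 := by rw [← exp_add]; norm_num
  rw [h2]
  nlinarith

theorem exp_third : (1.39 : ℝ) ≤ exp (1 / 3) := by
  have h1 := exp_one_gt_d9
  have h2 : exp (1 / 3) ^ 3 = exp 1 := by rw [← exp_nat_mul]; norm_num
  have h3 : 0 < exp (1 / 3 : ℝ) := exp_pos _
  by_contra h
  push Not at h
  have h4 : exp (1 / 3 : ℝ) ^ 3 < 1.39 ^ 3 := pow_lt_pow_left₀ h h3.le (by norm_num)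
  rw [h2] at h4
  norm_num at h4
  linarith

theorem fstep (m : ℝ) (hm : 6 ≤ m) :
    8 * (m + 1) ^ 2 / (5 * (m + 1) ^ 2 + 12 * (m + 1) - 9) ≤
      1.1 * (8 * m ^ 2 / (5 * m ^ 2 + 12 * m - 9)) := by
  have h1 : 0 < 5 * (m + 1) ^ 2 + 12 * (m + 1) - 9 := by nlinarith
  have h2 : 0 < 5 * m ^ 2 + 12 * m - 9 := by nlinarith
  rw [← mul_div_assoc, div_le_div_iff₀ h1 h2]
  have h3 : 0 ≤ m ^ 2 * (m - 6) := by
    apply mul_nonneg (by positivity) (by linarith)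
  have h4 : 0 ≤ m ^ 3 * (m - 6) := by
    apply mul_nonneg (by positivity) (by linarith)
  have h5 : 0 ≤ m * (m - 6) := by
    apply mul_nonneg (by linarith) (by linarith)
  nlinarith

end six_ineq2_aux

theorem six_ineq2 (m : ℕ) (hm : 6 ≤ m) :
    2.14 * (3 / 2 : ℝ) ^ (((m : ℝ) - 1) / 2) *
      (8 * (m : ℝ) ^ 2 / (5 * (m : ℝ) ^ 2 + 12 * m - 9)) ≤ exp ((m : ℝ) / 3) := by
  induction m, hm using Nat.le_induction with
  | base =>
    have h1 := six_ineq2_aux.rp52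
    have h2 := six_ineq2_aux.exp_two
    have e1 : (((6 : ℕ) : ℝ) - 1) / 2 = 5 / 2 := by norm_num
    have e2 : ((6 : ℕ) : ℝ) / 3 = 2 := by norm_num
    have e3 : (8 * ((6 : ℕ) : ℝ) ^ 2 / (5 * ((6 : ℕ) : ℝ) ^ 2 + 12 * ((6 : ℕ) : ℝ) - 9)) =
        288 / 243 := by norm_num
    rw [e1, e2, e3]
    linarith
  | succ m hm ih =>
    have hm' : (6 : ℝ) ≤ m := by exact_mod_cast hm
    have h1 := six_ineq2_aux.rp12
    have h2 := six_ineq2_aux.exp_third
    have h3 := six_ineq2_aux.fstep (m : ℝ) hm'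
    have e1 : (((m + 1 : ℕ) : ℝ) - 1) / 2 = ((m : ℝ) - 1) / 2 + 1 / 2 := by push_cast; ring
    have e2 : ((m + 1 : ℕ) : ℝ) / 3 = (m : ℝ) / 3 + 1 / 3 := by push_cast; ring
    rw [e1, e2, exp_add, rpow_add (by norm_num)]
    push_cast
    have hx : 0 ≤ (3 / 2 : ℝ) ^ (((m : ℝ) - 1) / 2) := by positivity
    have hc : 0 ≤ (3 / 2 : ℝ) ^ (1 / 2 : ℝ) := by positivity
    have hd : 0 < 5 * (m : ℝ) ^ 2 + 12 * m - 9 := by nlinarith
    have hf : 0 ≤ 8 * (m : ℝ) ^ 2 / (5 * (m : ℝ) ^ 2 + 12 * m - 9) := by positivity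
    have hE : 0 ≤ exp ((m : ℝ) / 3) := (exp_pos _).le
    calc 2.14 * ((3 / 2 : ℝ) ^ (((m : ℝ) - 1) / 2) * (3 / 2 : ℝ) ^ (1 / 2 : ℝ)) *
          (8 * ((m : ℝ) + 1) ^ 2 / (5 * ((m : ℝ) + 1) ^ 2 + 12 * ((m : ℝ) + 1) - 9))
        ≤ 2.14 * ((3 / 2 : ℝ) ^ (((m : ℝ) - 1) / 2) * (3 / 2 : ℝ) ^ (1 / 2 : ℝ)) *
          (1.1 * (8 * (m : ℝ) ^ 2 / (5 * (m : ℝ) ^ 2 + 12 * m - 9))) := by
          apply mul_le_mul_of_nonneg_left h3 (by positivity)
      _ = (2.14 * (3 / 2 : ℝ) ^ (((m : ℝ) - 1) / 2) *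
          (8 * (m : ℝ) ^ 2 / (5 * (m : ℝ) ^ 2 + 12 * m - 9))) *
            (1.1 * (3 / 2 : ℝ) ^ (1 / 2 : ℝ)) := by ring
      _ ≤ exp ((m : ℝ) / 3) * (1.1 * (3 / 2 : ℝ) ^ (1 / 2 : ℝ)) := by
          apply mul_le_mul_of_nonneg_right ih (by positivity)
      _ ≤ exp ((m : ℝ) / 3) * exp (1 / 3) := by
          apply mul_le_mul_of_nonneg_left _ hE
          linarith

end

section

namespace bound_ge_six_a_aux
-- auxiliary lemmas here
end bound_ge_six_a_aux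

theorem bound_ge_six_a (m : ℕ) (hm : 6 ≤ m) (t : ℝ) (ht : 0 ≤ t) (ht' : t ≤ ((m : ℝ) + 3) / 2) :
    |bj ((m : ℝ) / 2) t| ≤ exp (-(E4 m t)) := by
  have hm' : (6 : ℝ) ≤ (m : ℝ) := by exact_mod_cast hm
  obtain ⟨x, hx⟩ : ∃ x : ℝ, x = (m : ℝ) := ⟨_, rfl⟩
  rw [← hx] at hm' ht'
  have ht2 : t ^ 2 ≤ ((x + 3) / 2) ^ 2 := pow_le_pow_left₀ ht ht' 2
  have h1 : t ^ 2 ≤ (x / 2 + 2) * (x / 2 + 3) := by nlinarith
  have h2 : t ^ 2 * (3 * (x / 2) + 2) < 4 * (x / 2) * (x / 2 + 1) * (x / 2 + 2) := by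
    have h3 : t ^ 2 * (3 * (x / 2) + 2) ≤ ((x + 3) / 2) ^ 2 * (3 * (x / 2) + 2) :=
      mul_le_mul_of_nonneg_right ht2 (by linarith)
    refine h3.trans_lt ?_
    have h4 : 0 < x ^ 3 + 2 * x ^ 2 - 19 * x - 36 := by
      nlinarith [mul_nonneg (sub_nonneg.2 hm') (sub_nonneg.2 hm'),
        mul_nonneg (mul_nonneg (sub_nonneg.2 hm') (sub_nonneg.2 hm')) (sub_nonneg.2 hm')]
    nlinarith
  have hpos : 0 < bj ((m : ℝ) / 2) t := by
    rw [← hx]
    exact bj_pos' (by linarith) h1 h2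
  rw [abs_of_pos hpos]
  refine bj_le_f4 m (by omega) ht ?_
  rw [← hx]
  exact h1

end

section

namespace bound_ge_six_b_aux
-- auxiliary lemmas here
end bound_ge_six_b_aux

theorem bound_ge_six_b (m : ℕ) (hm : 6 ≤ m) (t : ℝ) (ht : ((m : ℝ) + 3) / 2 ≤ t)
    (ht' : t ^ 2 ≤ 2 * (m : ℝ) ^ 2 / 3) :
    |bj ((m : ℝ) / 2) t| ≤ exp (-(t ^ 2 / (2 * m))) := by
  have hM : (6 : ℝ) ≤ (m : ℝ) := by exact_mod_cast hm
  set M : ℝ := (m : ℝ) with hMdef
  have ht0 : 0 < t := by linarith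
  have hc1 : ((m - 1 : ℕ) : ℝ) = M - 1 := by
    rw [Nat.cast_sub (by omega)]
    simp [hMdef]
  have h214 : (0 : ℝ) < 2.14 := by norm_num
  have hlog4 : log (4 : ℝ) = 2 * log 2 := by
    rw [show (4 : ℝ) = 2 ^ 2 by norm_num, Real.log_pow]
    norm_num
  have hlog12 : log (12 : ℝ) = 2 * log 2 + log 3 := by
    rw [show (12 : ℝ) = 4 * 3 by norm_num, Real.log_mul (by norm_num) (by norm_num), hlog4]
  have hlog8 : log (8 : ℝ) = 3 * log 2 := by
    rw [show (8 : ℝ) = 2 ^ 3 by norm_num, Real.log_pow]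
    norm_num
  have hq : 0 < 5 * M ^ 2 + 12 * M - 9 := by nlinarith
  have hM3 : 0 < M - 3 := by linarith
  -- endpoints
  have i1 : log 2.14 + (M - 1) * (log 2 + log M - log (M + 3)) +
      (2 * log (M + 3) - log (10 * M + 6)) ≤ 3 * M / 4 - 3 / 2 - 9 / (4 * M) := by
    have h := Real.log_le_log (by positivity) (six_ineq1 m hm)
    rw [Real.log_exp, Real.log_mul (by positivity) (by positivity),
      Real.log_mul (by positivity) (by positivity), Real.log_pow, hc1,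
      Real.log_div (by positivity) (by positivity), Real.log_div (by positivity) (by positivity),
      Real.log_mul (by positivity) (by positivity), Real.log_pow] at h
    push_cast at h
    exact h
  have i2 : log 2.14 + ((M - 1) / 2) * (log 3 - log 2) +
      (3 * log 2 + 2 * log M - log (5 * M ^ 2 + 12 * M - 9)) ≤ M / 3 := by
    have h := Real.log_le_log (by positivity) (six_ineq2 m hm)
    rw [Real.log_exp, Real.log_mul (by positivity) (by positivity),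
      Real.log_mul (by positivity) (by positivity), Real.log_rpow (by positivity),
      Real.log_div (by positivity) (by positivity), Real.log_div (by positivity) (by positivity),
      Real.log_mul (by positivity) (by positivity), Real.log_pow, hlog8] at h
    push_cast at h
    exact h
  set K : ℝ := log 2.14 + (M - 1) * log M - M with hK
  set c : ℝ := (M - 1) * (M - 3) / 4 with hcdef
  have hcpos : 0 < c := by
    rw [hcdef]
    have : 0 < (M - 1) * (M - 3) := mul_pos (by linarith) hM3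
    linarith
  have hx1c : (M + 3) ^ 2 / 4 - c = (10 * M + 6) / 4 := by
    rw [hcdef]
    ring
  have hx2c : 2 * M ^ 2 / 3 - c = (5 * M ^ 2 + 12 * M - 9) / 12 := by
    rw [hcdef]
    ring
  have e1 : K ≤ ((M - 3) / 2) * log ((M + 3) ^ 2 / 4) + log ((M + 3) ^ 2 / 4 - c) -
      ((M + 3) ^ 2 / 4) / M := by
    rw [hx1c, Real.log_div (by positivity) (by positivity),
      Real.log_div (by positivity) (by positivity), Real.log_pow, hlog4]
    have h1 : ((M + 3) ^ 2 / 4) / M = M / 4 + 3 / 2 + 9 / (4 * M) := by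
      field_simp
      ring
    rw [h1, hK]
    push_cast
    linarith
  have e2 : K ≤ ((M - 3) / 2) * log (2 * M ^ 2 / 3) + log (2 * M ^ 2 / 3 - c) -
      (2 * M ^ 2 / 3) / M := by
    rw [hx2c, Real.log_div (by positivity) (by positivity),
      Real.log_div (by positivity) (by positivity), Real.log_mul (by positivity) (by positivity),
      Real.log_pow, hlog12]
    have h1 : (2 * M ^ 2 / 3) / M = 2 * M / 3 := by
      field_simp
    rw [h1, hK]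
    push_cast
    linarith
  -- concavity
  have hx : t ^ 2 ∈ Set.Icc ((M + 3) ^ 2 / 4) (2 * M ^ 2 / 3) := by
    refine ⟨?_, ht'⟩
    have : ((M + 3) / 2) ^ 2 ≤ t ^ 2 := pow_le_pow_left₀ (by positivity) ht 2
    calc (M + 3) ^ 2 / 4 = ((M + 3) / 2) ^ 2 := by ring
      _ ≤ _ := this
  have hxle : (M + 3) ^ 2 / 4 ≤ 2 * M ^ 2 / 3 := hx.1.trans hx.2
  have hkey : K ≤ ((M - 3) / 2) * log (t ^ 2) + log (t ^ 2 - c) - (t ^ 2) / M := by
    rw [← segment_eq_Icc hxle] at hx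
    obtain ⟨a, b, ha, hb, hab, hx⟩ := hx
    have hpos1 : 0 < (M + 3) ^ 2 / 4 := by positivity
    have hpos2 : 0 < 2 * M ^ 2 / 3 := by positivity
    have hpos3 : 0 < (M + 3) ^ 2 / 4 - c := by
      rw [hx1c]
      positivity
    have hpos4 : 0 < 2 * M ^ 2 / 3 - c := by
      rw [hx2c]
      positivity
    have k1 := (strictConcaveOn_log_Ioi.concaveOn).2 (Set.mem_Ioi.mpr hpos1)
      (Set.mem_Ioi.mpr hpos2) ha hb hab
    have k2 := (strictConcaveOn_log_Ioi.concaveOn).2 (Set.mem_Ioi.mpr hpos3)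
      (Set.mem_Ioi.mpr hpos4) ha hb hab
    simp only [smul_eq_mul] at k1 k2 hx
    have hx' : a * ((M + 3) ^ 2 / 4 - c) + b * (2 * M ^ 2 / 3 - c) = t ^ 2 - c := by
      rw [← hx]
      have : a * c + b * c = c := by rw [← add_mul, hab, one_mul]
      linarith
    rw [hx] at k1
    rw [hx'] at k2
    have k3 : a * (((M + 3) ^ 2 / 4) / M) + b * ((2 * M ^ 2 / 3) / M) = t ^ 2 / M := by
      rw [← hx]
      ring
    have k4 : a * K + b * K = K := by rw [← add_mul, hab, one_mul]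
    have k5 := mul_le_mul_of_nonneg_left e1 ha
    have k6 := mul_le_mul_of_nonneg_left e2 hb
    have k7 := mul_le_mul_of_nonneg_left k1 (show 0 ≤ (M - 3) / 2 by linarith)
    linarith
  -- conclusion
  have hxc : 0 < t ^ 2 - c := by
    have h1 : 0 < (M + 3) ^ 2 / 4 - c := by
      rw [hx1c]
      positivity
    linarith [hx.1]
  have hfac : 1 - (M - 1) * (M - 3) / (4 * t ^ 2) = (t ^ 2 - c) / t ^ 2 := by
    rw [hcdef]
    field_simp
  have hS := sonin m (by omega) ht0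
  rw [← hMdef, hfac] at hS
  have hA := Asq_le m hm
  rw [← hMdef] at hA
  have hpw : 0 < t ^ (m - 1) * ((t ^ 2 - c) / t ^ 2) := by positivity
  have hfin : 2.14 * M ^ (m - 1) * exp (-M) ≤
      exp (-(t ^ 2 / M)) * (t ^ (m - 1) * ((t ^ 2 - c) / t ^ 2)) := by
    rw [← Real.log_le_log_iff (by positivity) (by positivity),
      Real.log_mul (by positivity) (by positivity), Real.log_mul (by positivity) (by positivity),
      Real.log_mul (by positivity) (by positivity), Real.log_mul (by positivity) (by positivity),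
      Real.log_div (by positivity) (by positivity), Real.log_exp, Real.log_exp, Real.log_pow,
      Real.log_pow, hc1]
    have hl2 : log (t ^ 2) = 2 * log t := by
      rw [Real.log_pow]
      norm_num
    rw [hl2] at hkey ⊢
    rw [hK] at hkey
    linarith
  have hsq : bj (M / 2) t ^ 2 ≤ exp (-(t ^ 2 / M)) := by
    have h1 : bj (M / 2) t ^ 2 * (t ^ (m - 1) * ((t ^ 2 - c) / t ^ 2)) ≤
        exp (-(t ^ 2 / M)) * (t ^ (m - 1) * ((t ^ 2 - c) / t ^ 2)) := by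
      calc bj (M / 2) t ^ 2 * (t ^ (m - 1) * ((t ^ 2 - c) / t ^ 2))
          = t ^ (m - 1) * bj (M / 2) t ^ 2 * ((t ^ 2 - c) / t ^ 2) := by ring
        _ ≤ Asq m := hS
        _ ≤ _ := hA
        _ ≤ _ := hfin
    exact le_of_mul_le_mul_right h1 hpw
  refine abs_le_of_sq_le_sq ?_ (exp_pos _).le
  rw [← Real.exp_nat_mul]
  have : ((2 : ℕ) : ℝ) * -(t ^ 2 / (2 * M)) = -(t ^ 2 / M) := by
    push_cast
    field_simp
  rw [this]
  exact hsq

end

section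

namespace bound_ge_six_c_aux
-- auxiliary lemmas here
end bound_ge_six_c_aux

theorem bound_ge_six_c (m : ℕ) (hm : 6 ≤ m) (t : ℝ) (ht : 0 ≤ t)
    (ht' : 2 * (m : ℝ) ^ 2 / 3 ≤ t ^ 2) :
    |bj ((m : ℝ) / 2) t| ≤ exp (-((m : ℝ) / 3)) := by
  have hm0 : (6 : ℝ) ≤ m := by exact_mod_cast hm
  have hmpos : (0 : ℝ) < m := by linarith
  have htpos : 0 < t := by
    rcases ht.eq_or_lt with h | h
    · rw [← h] at ht'
      nlinarith
    · exact h
  have h1 := sonin m (by omega) htpos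
  generalize bj ((m : ℝ) / 2) t = b at h1 ⊢
  have hA := Asq_le m hm
  have h6 := six_ineq2 m hm
  obtain ⟨s, hs⟩ : ∃ s : ℝ, s = (2 / 3 : ℝ) ^ (((m : ℝ) - 1) / 2) := ⟨_, rfl⟩
  have hspos : 0 < s := by rw [hs]; positivity
  have hs' : (3 / 2 : ℝ) ^ (((m : ℝ) - 1) / 2) = s⁻¹ := by
    rw [hs, ← Real.inv_rpow (by norm_num)]
    norm_num
  have ht1 : √(2 / 3) * m ≤ t := by
    apply abs_le_of_sq_le_sq' _ htpos.le |>.2
    rw [mul_pow, Real.sq_sqrt (by norm_num)]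
    linarith
  have hpow : s * (m : ℝ) ^ (m - 1) ≤ t ^ (m - 1) := by
    have h2 : s = √(2 / 3) ^ (m - 1) := by
      rw [hs, Real.sqrt_eq_rpow, ← Real.rpow_natCast, ← Real.rpow_mul (by norm_num),
        Nat.cast_sub (by omega)]
      congr 1
      push_cast
      ring
    rw [h2, ← mul_pow]
    exact pow_le_pow_left₀ (by positivity) ht1 _
  have hq : (5 * (m : ℝ) ^ 2 + 12 * m - 9) / (8 * (m : ℝ) ^ 2) ≤
      1 - ((m : ℝ) - 1) * ((m : ℝ) - 3) / (4 * t ^ 2) := by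
    have h2 : ((m : ℝ) - 1) * ((m : ℝ) - 3) / (4 * t ^ 2) ≤
        ((m : ℝ) - 1) * ((m : ℝ) - 3) / (4 * (2 * (m : ℝ) ^ 2 / 3)) := by
      apply div_le_div_of_nonneg_left
      · nlinarith
      · positivity
      · linarith
    have h3 : (5 * (m : ℝ) ^ 2 + 12 * m - 9) / (8 * (m : ℝ) ^ 2) =
        1 - ((m : ℝ) - 1) * ((m : ℝ) - 3) / (4 * (2 * (m : ℝ) ^ 2 / 3)) := by
      field_simp
      ring
    linarith
  have hqpos : 0 < (5 * (m : ℝ) ^ 2 + 12 * m - 9) / (8 * (m : ℝ) ^ 2) := by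
    apply div_pos
    · nlinarith
    · positivity
  obtain ⟨q, hqd⟩ : ∃ q : ℝ, q = (5 * (m : ℝ) ^ 2 + 12 * m - 9) / (8 * (m : ℝ) ^ 2) := ⟨_, rfl⟩
  rw [← hqd] at hq hqpos
  have hqi : 8 * (m : ℝ) ^ 2 / (5 * (m : ℝ) ^ 2 + 12 * m - 9) = q⁻¹ := by
    rw [hqd, inv_div]
  rw [hqi, hs'] at h6
  have hb : 0 ≤ b ^ 2 := sq_nonneg b
  have h3 : s * (m : ℝ) ^ (m - 1) * b ^ 2 * q ≤ 2.14 * (m : ℝ) ^ (m - 1) * exp (-(m : ℝ)) := by
    refine le_trans ?_ (h1.trans hA)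
    have h4 : s * (m : ℝ) ^ (m - 1) * b ^ 2 ≤ t ^ (m - 1) * b ^ 2 :=
      mul_le_mul_of_nonneg_right hpow hb
    exact mul_le_mul h4 hq hqpos.le (by positivity)
  have hM : 0 < (m : ℝ) ^ (m - 1) := by positivity
  have h4 : b ^ 2 ≤ exp (-(m : ℝ)) * (2.14 * s⁻¹ * q⁻¹) := by
    have h5 : (m : ℝ) ^ (m - 1) * (b ^ 2 * (s * q)) ≤
        (m : ℝ) ^ (m - 1) * (2.14 * exp (-(m : ℝ))) := by linarith
    have h7 : b ^ 2 * (s * q) ≤ 2.14 * exp (-(m : ℝ)) := le_of_mul_le_mul_left h5 hM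
    have h8 : b ^ 2 ≤ 2.14 * exp (-(m : ℝ)) / (s * q) := (le_div_iff₀ (by positivity)).2 h7
    refine h8.trans (le_of_eq ?_)
    field_simp
  have h5 : b ^ 2 ≤ exp (-((m : ℝ) / 3)) ^ 2 := by
    refine h4.trans ?_
    have h7 : exp (-(m : ℝ)) * (2.14 * s⁻¹ * q⁻¹) ≤ exp (-(m : ℝ)) * exp ((m : ℝ) / 3) :=
      mul_le_mul_of_nonneg_left h6 (exp_pos _).le
    refine h7.trans (le_of_eq ?_)
    rw [← Real.exp_add, ← Real.exp_nat_mul]
    congr 1
    push_cast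
    ring
  exact abs_le_of_sq_le_sq h5 (exp_pos _).le

end

end H618KS
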