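import Pool.Agent.Helper618_KS.Defs
import Pool.Agent.Helper618_KS.Bessel
import Pool.Agent.Helper618_KS.Sonin

/-!
Part `BoundSmall` of the proof for MP_237b21_an.
-/

open MeasureTheory Filter Topology Set Real
open scoped ENNReal NNReal

set_option autoImplicit false

namespace H618KS

section

namespace bound_two_aux

theorem du (t : ℝ) : HasDerivAt (bj 1) (-(t / 2) * bj 2 t) t := by
  have h := bj_hasDerivAt (a := 1) one_pos t
  rw [mul_one, one_add_one_eq_two] at h
  exact h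

theorem dv (t : ℝ) : HasDerivAt (bj 2) (-(t / 4) * bj 3 t) t := by
  have h := bj_hasDerivAt (a := 2) two_pos t
  have h2 : (2 : ℝ) * 2 = 4 := by norm_num
  have h3 : (2 : ℝ) + 1 = 3 := by norm_num
  rw [h2, h3] at h
  exact h

theorem rec1 (t : ℝ) : bj 1 t = bj 2 t - t ^ 2 / 8 * bj 3 t := by
  have h := bj_rec (a := 1) one_pos t
  have h2 : (4 : ℝ) * 1 * (1 + 1) = 8 := by norm_num
  have h3 : (1 : ℝ) + 2 = 3 := by norm_num
  rw [h2, h3, one_add_one_eq_two] at h
  exact h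

theorem exp9 : (0.0001234 : ℝ) ≤ exp (-9) := by
  have h1 : exp 1 < 2.7182818286 := Real.exp_one_lt_d9
  have h2 : exp (-9 : ℝ) = (exp 1 ^ 9)⁻¹ := by
    rw [← Real.exp_nat_mul, ← Real.exp_neg]
    norm_num
  rw [h2]
  have h3 : exp 1 ^ 9 ≤ 2.7182818286 ^ 9 := pow_le_pow_left₀ (exp_pos 1).le h1.le 9
  have h4 : (2.7182818286 ^ 9 : ℝ)⁻¹ ≤ (exp 1 ^ 9)⁻¹ := inv_anti₀ (by positivity) h3
  refine le_trans ?_ h4
  norm_num

theorem exp_a : (0.371 : ℝ) ≤ exp (-(9 / 10)) := by
  by_contra h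
  push Not at h
  have h1 : exp (-(9 / 10) : ℝ) ^ 10 = exp (-9) := by
    rw [← Real.exp_nat_mul]
    norm_num
  have h2 : exp (-(9 / 10) : ℝ) ^ 10 ≤ 0.371 ^ 10 := pow_le_pow_left₀ (exp_pos _).le h.le 10
  have h3 := exp9
  rw [h1] at h2
  norm_num at h2 h3
  linarith

theorem exp_b : (0.165 : ℝ) ≤ exp (-(9 / 10)) ^ 2 := by
  by_contra h
  push Not at h
  have h1 : (exp (-(9 / 10) : ℝ) ^ 2) ^ 5 = exp (-9) := by
    rw [← pow_mul, ← Real.exp_nat_mul]
    norm_num
  have h2 : (exp (-(9 / 10) : ℝ) ^ 2) ^ 5 ≤ 0.165 ^ 5 :=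
    pow_le_pow_left₀ (by positivity) h.le 5
  have h3 := exp9
  rw [h1] at h2
  norm_num at h2 h3
  linarith

/-- numerical values at `t ^ 2 = 59 / 5` -/
theorem uT {t : ℝ} (ht : t ^ 2 = 59 / 5) : -(3705 / 10000) ≤ bj 1 t ∧ bj 1 t ≤ 0 := by
  have h := bj_taylor (a := 1) one_pos t 8 (by rw [ht]; norm_num)
  rw [ht] at h
  simp only [Finset.sum_range_succ, Finset.sum_range_zero, Finset.prod_range_succ,
    Finset.prod_range_zero, Nat.factorial] at h
  norm_num at h
  rw [abs_le] at h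
  constructor
  · linarith [h.1]
  · linarith [h.2]

theorem vT {t : ℝ} (ht : t ^ 2 = 59 / 5) : 0 ≤ bj 2 t ∧ bj 2 t ≤ 959 / 10000 := by
  have h := bj_taylor (a := 2) two_pos t 8 (by rw [ht]; norm_num)
  rw [ht] at h
  simp only [Finset.sum_range_succ, Finset.sum_range_zero, Finset.prod_range_succ,
    Finset.prod_range_zero, Nat.factorial] at h
  norm_num at h
  rw [abs_le] at h
  constructor
  · linarith [h.1]
  · linarith [h.2]

theorem sqrtT : (√(59 / 5 : ℝ)) ^ 2 = 59 / 5 := Real.sq_sqrt (by norm_num)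

theorem lower {t : ℝ} (ht : 0 ≤ t) (h : t ≤ √(59 / 5)) : -0.371 ≤ bj 1 t := by
  have h1 : AntitoneOn (bj 1) (Set.Icc 0 (√(59 / 5))) := by
    refine antitoneOn_of_deriv_nonpos (convex_Icc _ _)
      (fun x _ => (du x).continuousAt.continuousWithinAt)
      (fun x _ => (du x).differentiableAt.differentiableWithinAt) fun x hx => ?_
    rw [interior_Icc, Set.mem_Ioo] at hx
    rw [(du x).deriv]
    have h2 : x ^ 2 ≤ 59 / 5 := by
      rw [← sqrtT]
      exact pow_le_pow_left₀ hx.1.le hx.2.le 2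
    have h3 : 0 < bj 2 x := bj_pos' two_pos (by linarith) (by linarith)
    have h4 := mul_nonneg hx.1.le h3.le
    linarith
  have h2 := h1 ⟨ht, h⟩ ⟨Real.sqrt_nonneg _, le_rfl⟩ h
  have h3 := (uT sqrtT).1
  have h4 : (-0.371 : ℝ) ≤ -(3705 / 10000) := by norm_num
  linarith

theorem upper {t : ℝ} (h : √(59 / 5) ≤ t) : bj 1 t ^ 2 ≤ 0.165 := by
  have hd : ∀ x : ℝ, HasDerivAt (fun s => bj 1 s ^ 2 + s ^ 2 / 4 * bj 2 s ^ 2)
      (-(x / 2) * bj 2 x ^ 2) x := by
    intro x
    have h1 := ((du x).pow 2).add ((((hasDerivAt_id x).pow 2).div_const 4).mul ((dv x).pow 2))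
    refine h1.congr_deriv ?_
    have h2 := rec1 x
    simp only [id, Nat.cast_ofNat]
    norm_num
    rw [h2]
    ring
  have h1 : AntitoneOn (fun s => bj 1 s ^ 2 + s ^ 2 / 4 * bj 2 s ^ 2) (Set.Ici 0) := by
    refine antitoneOn_of_deriv_nonpos (convex_Ici _)
      (fun x _ => (hd x).continuousAt.continuousWithinAt)
      (fun x _ => (hd x).differentiableAt.differentiableWithinAt) fun x hx => ?_
    rw [interior_Ici, Set.mem_Ioi] at hx
    rw [(hd x).deriv]
    have h4 := mul_nonneg hx.le (sq_nonneg (bj 2 x))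
    linarith
  have h2 := h1 (Real.sqrt_nonneg (59 / 5)) ((Real.sqrt_nonneg (59 / 5)).trans h) h
  simp only [sqrtT] at h2
  have h3 := uT sqrtT
  have h4 := vT sqrtT
  have h5 : bj 1 (√(59 / 5)) ^ 2 ≤ (3705 / 10000) ^ 2 :=
    sq_le_sq' h3.1 (h3.2.trans (by norm_num))
  have h6 : bj 2 (√(59 / 5)) ^ 2 ≤ (959 / 10000) ^ 2 :=
    sq_le_sq' (le_trans (by norm_num) h4.1) h4.2
  have h7 : 0 ≤ t ^ 2 / 4 * bj 2 t ^ 2 := by positivity
  have h8 : (3705 / 10000) ^ 2 + 59 / 5 / 4 * (959 / 10000) ^ 2 ≤ (0.165 : ℝ) := by norm_num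
  linarith
end bound_two_aux

open bound_two_aux in
theorem bound_two (t : ℝ) (ht : 0 ≤ t) :
    |bj 1 t| ≤ max (exp (-(E4 2 t))) (exp (-(9 / 10))) := by
  have h1 := exp_a
  rcases le_total t (√(59 / 5)) with h | h
  · have h2 : t ^ 2 ≤ 59 / 5 := by
      rw [← sqrtT]
      exact pow_le_pow_left₀ ht h 2
    have h3 := bj_le_f4 2 le_rfl ht (by norm_num; linarith)
    have h4 : ((2 : ℕ) : ℝ) / 2 = 1 := by norm_num
    rw [h4] at h3
    have h5 := lower ht h
    rw [abs_le]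
    constructor
    · have := le_max_right (exp (-(E4 2 t))) (exp (-(9 / 10)))
      norm_num at h1 h5 this ⊢
      have h6 : (371 / 1000 : ℝ) ≤ max (exp (-(E4 2 t))) (exp (-(9 / 10))) := by
        exact h1.trans (le_max_right _ _)
      linarith
    · exact h3.trans (le_max_left _ _)
  · have h2 := upper h
    have h3 := exp_b
    have h4 : |bj 1 t| ≤ exp (-(9 / 10)) := abs_le_of_sq_le_sq (h2.trans h3) (exp_pos _).le
    exact h4.trans (le_max_right _ _)

end

section

namespace bound_three_aux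
theorem exp_ge : (2 : ℝ) / 7 ≤ exp (-(5 / 4)) := by
  have h1 : exp (5 / 4) ^ 4 < (7 / 2 : ℝ) ^ 4 := by
    have h2 : exp (5 / 4) ^ 4 = exp 1 ^ 5 := by
      rw [← Real.exp_nat_mul, ← Real.exp_nat_mul]; norm_num
    rw [h2]
    calc exp 1 ^ 5 < (2.7182818286 : ℝ) ^ 5 :=
          pow_lt_pow_left₀ Real.exp_one_lt_d9 (exp_pos 1).le (by norm_num)
      _ < (7 / 2) ^ 4 := by norm_num
  have h3 : exp (5 / 4) < (7 / 2 : ℝ) := lt_of_pow_lt_pow_left₀ 4 (by norm_num) h1
  rw [Real.exp_neg, ← inv_div]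
  exact inv_anti₀ (exp_pos _) h3.le

theorem bj_eq {t : ℝ} (ht : 0 < t) : bj (3 / 2) t = Real.sin t / t := by
  rw [eq_div_iff ht.ne', mul_comm]
  exact bj_three_half t
end bound_three_aux

theorem bound_three (t : ℝ) (ht : 0 ≤ t) :
    |bj (3 / 2) t| ≤ max (exp (-(E4 3 t))) (exp (-(5 / 4))) := by
  have hE := bound_three_aux.exp_ge
  by_cases hc : t ≤ 7 / 2
  · have h1 : bj (3 / 2) t ≤ exp (-(E4 3 t)) := by
      have := bj_le_f4 3 (by norm_num) ht (by push_cast; nlinarith)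
      simpa using this
    have h2 : -(bj (3 / 2) t) ≤ exp (-(5 / 4)) := by
      rcases eq_or_lt_of_le ht with h0 | h0
      · rw [← h0, bj_zero]
        linarith
      · rw [bound_three_aux.bj_eq h0]
        by_cases hpi : t ≤ Real.pi
        · have h3 : 0 ≤ Real.sin t := Real.sin_nonneg_of_nonneg_of_le_pi ht hpi
          have h4 : 0 ≤ Real.sin t / t := div_nonneg h3 ht
          linarith
        · have hpi' : Real.pi < t := not_le.1 hpi
          have h3 : Real.sin t = - Real.sin (t - Real.pi) := by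
            rw [Real.sin_sub_pi, neg_neg]
          have h4 : Real.sin (t - Real.pi) ≤ t - Real.pi := Real.sin_le (by linarith)
          have h5 : (3.14 : ℝ) < Real.pi := Real.pi_gt_d2
          have h6 : -(Real.sin t / t) ≤ 2 / 7 := by
            rw [h3, neg_div, neg_neg, div_le_iff₀ h0]
            linarith
          linarith
    rw [abs_le]
    constructor
    · have := le_max_right (exp (-(E4 3 t))) (exp (-(5 / 4)))
      linarith
    · exact h1.trans (le_max_left _ _)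
  · have hc' : 7 / 2 < t := not_le.1 hc
    have h0 : 0 < t := by linarith
    rw [bound_three_aux.bj_eq h0, abs_div, abs_of_pos h0]
    refine le_trans ?_ (le_max_right _ _)
    refine le_trans ?_ hE
    rw [div_le_iff₀ h0]
    have := Real.abs_sin_le_one t
    linarith

end

section

namespace bound_four_aux

theorem exp3_lt : exp (3 : ℝ) < 20.09 := by
  have h1 : exp (1 : ℝ) < 2.7182818286 := Real.exp_one_lt_d9
  have h0 : 0 < exp (1 : ℝ) := exp_pos 1
  have h3 : exp (3 : ℝ) = exp 1 ^ 3 := by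
    rw [← Real.exp_nat_mul]; norm_num
  rw [h3]
  calc exp (1 : ℝ) ^ 3 ≤ 2.7182818286 ^ 3 := by
        exact pow_le_pow_left₀ h0.le h1.le 3
    _ < 20.09 := by norm_num

theorem exp_neg3_ge : (0.0497 : ℝ) < exp (-3) := by
  rw [Real.exp_neg, lt_inv_comm₀ (by norm_num) (exp_pos 3)]
  refine exp3_lt.trans ?_
  norm_num

theorem sq_half : exp (-(3 / 2) : ℝ) ^ 2 = exp (-3) := by
  rw [← Real.exp_nat_mul]; norm_num

theorem exp_half_gt : (0.2 : ℝ) < exp (-(3 / 2)) := by
  have h := sq_half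
  have h2 := exp_neg3_ge
  have h0 := exp_pos (-(3 / 2) : ℝ)
  nlinarith

theorem anti : AntitoneOn (bj 2) (Set.Icc 0 3.8) := by
  apply antitoneOn_of_deriv_nonpos (convex_Icc 0 3.8)
  · intro t _
    exact (bj_hasDerivAt (by norm_num) t).continuousAt.continuousWithinAt
  · intro t _
    exact (bj_hasDerivAt (by norm_num) t).differentiableAt.differentiableWithinAt
  · intro t ht
    rw [interior_Icc] at ht
    rw [(bj_hasDerivAt (by norm_num) t).deriv]
    have hpos : 0 < bj (2 + 1) t := by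
      apply bj_pos' (by norm_num)
      · nlinarith [ht.1, ht.2]
      · nlinarith [ht.1, ht.2]
    have h4 : 0 ≤ t / (2 * 2) * bj (2 + 1) t := by
      have := ht.1
      positivity
    linarith

theorem at38 : (-0.2 : ℝ) < bj 2 3.8 := by
  have h := bj_taylor (a := 2) (by norm_num) 3.8 4 (by norm_num)
  simp only [Finset.sum_range_succ, Finset.prod_range_succ, Finset.sum_range_zero, Finset.prod_range_zero,
    Nat.factorial] at h
  norm_num at h
  rw [abs_le] at h
  have h1 := h.1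
  norm_num at h1 ⊢
  linarith

end bound_four_aux

theorem bound_four (t : ℝ) (ht : 0 ≤ t) :
    |bj 2 t| ≤ max (exp (-(E4 4 t))) (exp (-(3 / 2))) := by
  have hm : (((4 : ℕ) : ℝ) / 2) = 2 := by norm_num
  rcases le_total t 3.8 with h | h
  · have hup : bj 2 t ≤ exp (-(E4 4 t)) := by
      have := bj_le_f4 4 (by norm_num) ht (by
        rw [hm]
        nlinarith)
      rwa [hm] at this
    have hlo : -(exp (-(3 / 2))) ≤ bj 2 t := by
      have h1 := bound_four_aux.anti (⟨ht, h⟩ : t ∈ Set.Icc (0 : ℝ) 3.8)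
        (⟨by norm_num, le_rfl⟩ : (3.8 : ℝ) ∈ Set.Icc (0 : ℝ) 3.8) h
      have h2 := bound_four_aux.at38
      have h3 := bound_four_aux.exp_half_gt
      linarith
    rw [abs_le]
    constructor
    · have := le_max_right (exp (-(E4 4 t))) (exp (-(3 / 2)))
      linarith
    · exact hup.trans (le_max_left _ _)
  · refine le_trans ?_ (le_max_right _ _)
    have htp : 0 < t := by linarith
    have hs := sonin 4 (by norm_num) htp
    rw [hm] at hs
    have hA : Asq 4 = 2.568 := by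
      change (((0 : ℕ) : ℝ) + 2) ^ 2 * Asq 2 = 2.568
      change (((0 : ℕ) : ℝ) + 2) ^ 2 * 0.642 = 2.568
      norm_num
    rw [hA] at hs
    have e1 : t ^ (4 - 1) * bj 2 t ^ 2 * (1 - (((4 : ℕ) : ℝ) - 1) * (((4 : ℕ) : ℝ) - 3) / (4 * t ^ 2)) =
        bj 2 t ^ 2 * (t ^ 3 - 3 * t / 4) := by
      push_cast
      field_simp
      ring
    rw [e1] at hs
    have h5 : (52.022 : ℝ) ≤ t ^ 3 - 3 * t / 4 := by
      nlinarith [mul_nonneg (sub_nonneg.2 h) (sub_nonneg.2 h), mul_nonneg htp.le (sub_nonneg.2 h)]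
    have h6 : bj 2 t ^ 2 * 52.022 ≤ 2.568 := by
      have : bj 2 t ^ 2 * 52.022 ≤ bj 2 t ^ 2 * (t ^ 3 - 3 * t / 4) :=
        mul_le_mul_of_nonneg_left h5 (sq_nonneg _)
      linarith
    have h7 : bj 2 t ^ 2 ≤ exp (-(3 / 2)) ^ 2 := by
      rw [bound_four_aux.sq_half]
      have := bound_four_aux.exp_neg3_ge
      linarith
    exact abs_le_of_sq_le_sq h7 (exp_pos _).le

end

section

namespace bound_five_aux
-- auxiliary lemmas here
end bound_five_aux

theorem bound_five (t : ℝ) (ht : 0 ≤ t) :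
    |bj (5 / 2) t| ≤ max (exp (-(E4 5 t))) (exp (-(8 / 5))) := by
  rcases le_total t 4 with h4 | h4
  · refine le_max_of_le_left ?_
    have ht2 : t ^ 2 ≤ 16 := by nlinarith
    have hpos : 0 < bj (5 / 2) t := by
      apply bj_pos' (by norm_num)
      · norm_num; linarith
      · norm_num; linarith
    rw [abs_of_pos hpos]
    have h := bj_le_f4 5 (by norm_num) ht (by norm_num; linarith)
    norm_num at h ⊢
    exact h
  · refine le_max_of_le_right ?_
    have htp : 0 < t := by linarith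
    have hs := sonin 5 (by norm_num) htp
    have hA : Asq 5 = 9 := by
      show (((1 : ℕ) : ℝ) + 2) ^ 2 * Asq (1 + 2) = 9
      show (((1 : ℕ) : ℝ) + 2) ^ 2 * 1 = 9
      norm_num
    rw [hA] at hs
    have e1 : t ^ (5 - 1) * bj (((5 : ℕ) : ℝ) / 2) t ^ 2 *
        (1 - (((5 : ℕ) : ℝ) - 1) * (((5 : ℕ) : ℝ) - 3) / (4 * t ^ 2)) =
        (t ^ 4 - 2 * t ^ 2) * bj (5 / 2) t ^ 2 := by
      norm_num
      field_simp
      ring
    rw [e1] at hs
    have ht2 : 16 ≤ t ^ 2 := by nlinarith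
    have ht4 : 224 ≤ t ^ 4 - 2 * t ^ 2 := by nlinarith
    have hb : bj (5 / 2) t ^ 2 ≤ 9 / 224 := by
      have h0 : 0 ≤ bj (5 / 2) t ^ 2 := sq_nonneg _
      have : 224 * bj (5 / 2) t ^ 2 ≤ 9 := le_trans (mul_le_mul_of_nonneg_right ht4 h0) hs
      linarith
    have he : exp (16 / 5) ≤ 224 / 9 := by
      have h1 : exp (16 / 5) ^ 5 = exp 1 ^ 16 := by
        rw [← Real.exp_nat_mul, ← Real.exp_nat_mul]; norm_num
      have h2 : exp 1 < 2.7182818286 := Real.exp_one_lt_d9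
      have h3 : exp 1 ^ 16 ≤ (2.7182818286 : ℝ) ^ 16 :=
        pow_le_pow_left₀ (exp_pos 1).le h2.le 16
      have h4 : (2.7182818286 : ℝ) ^ 16 ≤ (224 / 9 : ℝ) ^ 5 := by norm_num
      have h5 : exp (16 / 5) ^ 5 ≤ (224 / 9 : ℝ) ^ 5 := by rw [h1]; exact h3.trans h4
      exact le_of_pow_le_pow_left₀ (by norm_num) (by norm_num) h5
    have he2 : (9 : ℝ) / 224 ≤ exp (-(8 / 5)) ^ 2 := by
      rw [← Real.exp_nat_mul]
      have : ((2 : ℕ) : ℝ) * (-(8 / 5)) = -(16 / 5) := by norm_num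
      rw [this, Real.exp_neg]
      rw [show (9 : ℝ) / 224 = (224 / 9)⁻¹ by norm_num]
      exact inv_anti₀ (exp_pos _) he
    exact abs_le_of_sq_le_sq (hb.trans he2) (exp_pos _).le

end

end H618KS
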