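import Pool.Agent.Helper618_KS.Defs

/-!
Part `DSix` of the proof for MP_237b21_an.
-/

open MeasureTheory Filter Topology Set Real
open scoped ENNReal NNReal

set_option autoImplicit false

namespace H618KS

section

namespace D6_part1_aux
/-- two numerical inequalities -/
theorem num1 : (0.3177 : ℝ) * (1.52753 ^ 2 - 1) ≤ Real.log 1.52753 := by
  rw [Real.le_log_iff_exp_le (by norm_num)]
  refine (Real.exp_bound' (by norm_num) (by norm_num) (n := 7) (by norm_num)).trans ?_
  simp only [Finset.sum_range_succ, Finset.sum_range_zero, Nat.factorial]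
  norm_num

theorem num2 : (0.1755 : ℝ) * (1.52753 ^ 2 - 1) ≤ Real.log ((1 + 1.52753) / 2) := by
  rw [Real.le_log_iff_exp_le (by norm_num)]
  refine (Real.exp_bound' (by norm_num) (by norm_num) (n := 7) (by norm_num)).trans ?_
  simp only [Finset.sum_range_succ, Finset.sum_range_zero, Nat.factorial]
  norm_num

/-- concavity -/
theorem chord {b κ s : ℝ} (hκ : 0 ≤ κ) (hs1 : 1 ≤ s) (hs2 : s ≤ 1.52753) (p : ℝ) (hp : 0 ≤ p)
    (hb : κ * (1.52753 ^ 2 - 1) ≤ Real.log (1 + p * 0.52753))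
    (hbs : b = 1 + p * (s - 1)) : κ * (s ^ 2 - 1) ≤ Real.log b := by
  set l : ℝ := (s - 1) / 0.52753 with hl
  have hl0 : 0 ≤ l := div_nonneg (by linarith) (by norm_num)
  have hl1 : l ≤ 1 := by
    rw [hl, div_le_one (by norm_num)]
    linarith
  have hsl : s = 1 + l * 0.52753 := by rw [hl]; field_simp; ring
  have hconc := strictConcaveOn_log_Ioi.concaveOn.2 (Set.mem_Ioi.2 one_pos : (1 : ℝ) ∈ Set.Ioi (0 : ℝ))
    (Set.mem_Ioi.2 (by
      have : 0 ≤ p * 0.52753 := by positivity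
      linarith) : (1 + p * 0.52753 : ℝ) ∈ Set.Ioi (0 : ℝ)) (sub_nonneg.2 hl1) hl0 (by ring)
  simp only [smul_eq_mul, Real.log_one, mul_zero, zero_add, mul_one] at hconc
  have hb2 : b = 1 - l + l * (1 + p * 0.52753) := by rw [hbs, hsl]; ring
  rw [hb2]
  refine le_trans ?_ hconc
  have h1 : s ^ 2 - 1 ≤ l * (1.52753 ^ 2 - 1) := by
    have h2 : s ^ 2 - 1 = l * 0.52753 * (s + 1) := by rw [hsl]; ring
    rw [h2]
    have h3 : l * 0.52753 * (s + 1) ≤ l * 0.52753 * (1.52753 + 1) :=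
      mul_le_mul_of_nonneg_left (by linarith) (by positivity)
    linarith
  calc κ * (s ^ 2 - 1) ≤ κ * (l * (1.52753 ^ 2 - 1)) := mul_le_mul_of_nonneg_left h1 hκ
    _ = l * (κ * (1.52753 ^ 2 - 1)) := by ring
    _ ≤ l * Real.log (1 + p * 0.52753) := mul_le_mul_of_nonneg_left hb hl0

theorem log_s {s : ℝ} (hs1 : 1 ≤ s) (hs2 : s ≤ 1.52753) :
    0.3177 * (s ^ 2 - 1) ≤ Real.log s := by
  refine chord (by norm_num) hs1 hs2 1 zero_le_one ?_ (by ring)
  have h := num1
  norm_num at h ⊢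
  exact h

theorem log_s2 {s : ℝ} (hs1 : 1 ≤ s) (hs2 : s ≤ 1.52753) :
    0.1755 * (s ^ 2 - 1) ≤ Real.log ((1 + s) / 2) := by
  refine chord (by norm_num) hs1 hs2 (1 / 2) (by norm_num) ?_ (by ring)
  have h := num2
  norm_num at h ⊢
  exact h

/-- the pointwise inequality, in terms of `Z` -/
theorem pw {Z N a1 θ : ℝ} (hZ : 0 < Z) (hN : 0 < N) (ha : 0 ≤ a1)
    (hθ : θ = 2 / N * (0.1755 * a1 + 0.3177))
    (hs : 1 + Z / N ≤ 1.52753) :
    Z ^ a1 ≤ (Z + Z ^ 2 / (2 * N)) ^ a1 * exp (-(θ * (Z + Z ^ 2 / (2 * N)))) * (1 + Z / N) := by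
  set s : ℝ := 1 + Z / N with hsdef
  have hs1 : 1 ≤ s := by
    have : 0 < Z / N := by positivity
    linarith
  have hV : Z + Z ^ 2 / (2 * N) = Z * ((1 + s) / 2) := by rw [hsdef]; field_simp; ring
  have hθV : θ * (Z + Z ^ 2 / (2 * N)) = (0.1755 * a1 + 0.3177) * (s ^ 2 - 1) := by
    rw [hθ, hsdef]; field_simp; ring
  have h1s : 0 < (1 + s) / 2 := by linarith
  rw [hθV, hV, Real.mul_rpow hZ.le h1s.le]
  have h1 := log_s hs1 hs
  have h2 := log_s2 hs1 hs
  have h3 : (1 : ℝ) ≤ ((1 + s) / 2) ^ a1 * exp (-((0.1755 * a1 + 0.3177) * (s ^ 2 - 1))) * s := by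
    have e1 : ((1 + s) / 2) ^ a1 = exp (Real.log ((1 + s) / 2) * a1) := Real.rpow_def_of_pos h1s a1
    have e2 : s = exp (Real.log s) := (Real.exp_log (by linarith)).symm
    have h4 : (0 : ℝ) ≤ Real.log ((1 + s) / 2) * a1 + -((0.1755 * a1 + 0.3177) * (s ^ 2 - 1)) +
        Real.log s := by nlinarith
    have h5 := Real.exp_le_exp.2 h4
    rw [Real.exp_zero, Real.exp_add, Real.exp_add, ← e1, ← e2] at h5
    exact h5
  have hZa : 0 ≤ Z ^ a1 := Real.rpow_nonneg hZ.le _
  calc Z ^ a1 = Z ^ a1 * 1 := (mul_one _).symm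
    _ ≤ Z ^ a1 * (((1 + s) / 2) ^ a1 * exp (-((0.1755 * a1 + 0.3177) * (s ^ 2 - 1))) * s) :=
        mul_le_mul_of_nonneg_left h3 hZa
    _ = _ := by ring

/-- the powers of `t` -/
theorem pow_t (k : ℕ) {t : ℝ} (ht : 0 < t) :
    t ^ (k + 4) = ((k : ℝ) + 6) ^ (((k : ℝ) + 5) / 2) / 2 *
      ((t ^ 2 / ((k : ℝ) + 6)) ^ (((k : ℝ) + 3) / 2) * (2 * t / ((k : ℝ) + 6))) := by
  have hM : (0 : ℝ) < (k : ℝ) + 6 := by positivity
  have e1 : (t ^ 2 / ((k : ℝ) + 6)) ^ (((k : ℝ) + 3) / 2) =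
      t ^ (k + 3) / ((k : ℝ) + 6) ^ (((k : ℝ) + 3) / 2) := by
    rw [Real.div_rpow (by positivity) hM.le]
    congr 1
    rw [← Real.rpow_natCast t 2, ← Real.rpow_mul ht.le, ← Real.rpow_natCast t (k + 3)]
    congr 1
    push_cast
    ring
  have e2 : ((k : ℝ) + 6) ^ (((k : ℝ) + 5) / 2) =
      ((k : ℝ) + 6) ^ (((k : ℝ) + 3) / 2) * ((k : ℝ) + 6) := by
    rw [← Real.rpow_add_one hM.ne']
    congr 1
    ring
  have h3 : (0 : ℝ) < ((k : ℝ) + 6) ^ (((k : ℝ) + 3) / 2) := Real.rpow_pos_of_pos hM _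
  rw [e1, e2]
  field_simp
  ring

/-- the Gamma integral with the positive part -/
theorem gam {a c b : ℝ} (ha : 1 < a) (hc : 0 < c) :
    IntegrableOn (fun V : ℝ => exp (-(c * V)) * V ^ (a - 1) * max 0 (b - V)) (Ioi 0) ∧
    ∫ V in Ioi (0 : ℝ), exp (-(c * V)) * V ^ (a - 1) * max 0 (b - V) ≤
      Real.Gamma a * (c ^ (-a) * (((b - a / c) + Real.sqrt ((b - a / c) ^ 2 + a / c ^ 2)) / 2)) := by
  have ha0 : 0 < a := by linarith
  set lam : ℝ := Real.sqrt ((b - a / c) ^ 2 + a / c ^ 2) with hlam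
  have hrad : 0 < (b - a / c) ^ 2 + a / c ^ 2 := by positivity
  have hlam0 : 0 < lam := Real.sqrt_pos.2 hrad
  have hlam2 : lam ^ 2 = (b - a / c) ^ 2 + a / c ^ 2 := Real.sq_sqrt hrad.le
  have hint : ∀ j : ℝ, 0 ≤ j →
      IntegrableOn (fun V : ℝ => V ^ (a + j - 1) * exp (-(c * V))) (Ioi 0) := by
    intro j hj
    have h := integrableOn_rpow_mul_exp_neg_mul_rpow (p := 1) (s := a + j - 1) (b := c)
      (by linarith) one_pos hc
    refine h.congr_fun ?_ measurableSet_Ioi
    intro V _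
    show V ^ (a + j - 1) * exp (-c * V ^ (1 : ℝ)) = V ^ (a + j - 1) * exp (-(c * V))
    rw [Real.rpow_one, neg_mul]
  have h0 := hint 0 le_rfl
  have h1 := hint 1 zero_le_one
  have h2 := hint 2 zero_le_two
  have v0 := Real.integral_rpow_mul_exp_neg_mul_Ioi (a := a + 0) (r := c) (by linarith) hc
  have v1 := Real.integral_rpow_mul_exp_neg_mul_Ioi (a := a + 1) (r := c) (by linarith) hc
  have v2 := Real.integral_rpow_mul_exp_neg_mul_Ioi (a := a + 2) (r := c) (by linarith) hc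
  set A : ℝ := (b + (b ^ 2 / lam + lam) / 2) / 2 with hA
  set B : ℝ := (-1 - b / lam) / 2 with hB
  set C : ℝ := 1 / (4 * lam) with hC
  have hdom : ∀ V ∈ Ioi (0 : ℝ), exp (-(c * V)) * V ^ (a - 1) * max 0 (b - V) ≤
      A * (V ^ (a + 0 - 1) * exp (-(c * V))) + B * (V ^ (a + 1 - 1) * exp (-(c * V))) +
        C * (V ^ (a + 2 - 1) * exp (-(c * V))) := by
    intro V hV
    have hV' : (0 : ℝ) < V := hV
    have e1 : V ^ (a + 1 - 1) = V ^ (a - 1) * V := by
      rw [← Real.rpow_add_one hV'.ne']; congr 1; ring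
    have e2 : V ^ (a + 2 - 1) = V ^ (a - 1) * V ^ 2 := by
      rw [← Real.rpow_natCast V 2, ← Real.rpow_add hV']; congr 1; push_cast; ring
    rw [add_zero, e1, e2]
    have hw : 0 ≤ exp (-(c * V)) * V ^ (a - 1) :=
      mul_nonneg (Real.exp_pos _).le (Real.rpow_nonneg hV'.le _)
    have hmax : max 0 (b - V) ≤ A + B * V + C * V ^ 2 := by
      have e3 : A + B * V + C * V ^ 2 = ((b - V) + ((b - V) ^ 2 / lam + lam) / 2) / 2 := by
        rw [hA, hB, hC]; field_simp; ring
      rw [e3]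
      have h5 : ∀ x : ℝ, 2 * |x| ≤ x ^ 2 / lam + lam := by
        intro x
        have h6 : x ^ 2 / lam + lam - 2 * |x| = (|x| - lam) ^ 2 / lam := by
          rw [sub_sq, sq_abs]; field_simp; ring
        have h7 : 0 ≤ (|x| - lam) ^ 2 / lam := by positivity
        linarith
      have h8 := h5 (b - V)
      rcases le_total 0 (b - V) with h9 | h9
      · rw [max_eq_right h9]
        rw [abs_of_nonneg h9] at h8
        linarith
      · rw [max_eq_left h9]
        rw [abs_of_nonpos h9] at h8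
        linarith
    calc exp (-(c * V)) * V ^ (a - 1) * max 0 (b - V)
        ≤ exp (-(c * V)) * V ^ (a - 1) * (A + B * V + C * V ^ 2) :=
          mul_le_mul_of_nonneg_left hmax hw
      _ = _ := by ring
  have hnn : ∀ V ∈ Ioi (0 : ℝ), 0 ≤ exp (-(c * V)) * V ^ (a - 1) * max 0 (b - V) := by
    intro V hV
    have hV' : (0 : ℝ) < V := hV
    exact mul_nonneg (mul_nonneg (Real.exp_pos _).le (Real.rpow_nonneg hV'.le _)) (le_max_left _ _)
  have hdomint : IntegrableOn (fun V : ℝ => A * (V ^ (a + 0 - 1) * exp (-(c * V))) +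
      B * (V ^ (a + 1 - 1) * exp (-(c * V))) + C * (V ^ (a + 2 - 1) * exp (-(c * V)))) (Ioi 0) :=
    ((h0.const_mul A).add (h1.const_mul B)).add (h2.const_mul C)
  have hmeas : Continuous (fun V : ℝ => exp (-(c * V)) * V ^ (a - 1) * max 0 (b - V)) := by
    have := Real.continuous_rpow_const (q := a - 1) (by linarith)
    fun_prop
  have hI : IntegrableOn (fun V : ℝ => exp (-(c * V)) * V ^ (a - 1) * max 0 (b - V)) (Ioi 0) := by
    refine Integrable.mono' hdomint hmeas.aestronglyMeasurable ?_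
    rw [ae_restrict_iff' measurableSet_Ioi]
    refine Eventually.of_forall fun V hV => ?_
    rw [Real.norm_eq_abs, abs_of_nonneg (hnn V hV)]
    exact hdom V hV
  refine ⟨hI, ?_⟩
  refine (setIntegral_mono_on hI hdomint measurableSet_Ioi hdom).trans (le_of_eq ?_)
  have s1 := integral_add (μ := volume.restrict (Ioi (0 : ℝ))) (h0.const_mul A) (h1.const_mul B)
  have s2 := integral_add (μ := volume.restrict (Ioi (0 : ℝ)))
    (f := fun V : ℝ => A * (V ^ (a + 0 - 1) * exp (-(c * V))) +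
      B * (V ^ (a + 1 - 1) * exp (-(c * V)))) (g := fun V : ℝ => C * (V ^ (a + 2 - 1) *
      exp (-(c * V)))) ((h0.const_mul A).add (h1.const_mul B)) (h2.const_mul C)
  rw [s2, s1, integral_const_mul, integral_const_mul, integral_const_mul, v0, v1, v2]
  have hg1 : Real.Gamma (a + 1) = a * Real.Gamma a := Real.Gamma_add_one ha0.ne'
  have hg2 : Real.Gamma (a + 2) = (a + 1) * (a * Real.Gamma a) := by
    have : a + 2 = (a + 1) + 1 := by ring
    rw [this, Real.Gamma_add_one (by linarith), hg1]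
  have hc1 : (1 / c) ^ (a + 0) = c ^ (-a) := by
    rw [add_zero, one_div, Real.inv_rpow hc.le, Real.rpow_neg hc.le]
  have hc2 : (1 / c) ^ (a + 1) = c ^ (-a) / c := by
    rw [Real.rpow_add_one (by positivity), one_div, Real.inv_rpow hc.le, Real.rpow_neg hc.le,
      div_eq_mul_inv]
  have hc3 : (1 / c) ^ (a + 2) = c ^ (-a) / c ^ 2 := by
    have : a + 2 = (a + 1) + 1 := by ring
    rw [this, Real.rpow_add_one (by positivity), hc2]
    field_simp
  rw [hc1, hc2, hc3, hg1, hg2, add_zero]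
  have key : A + B * (a / c) + C * (a * (a + 1) / c ^ 2) = ((b - a / c) + lam) / 2 := by
    have h5 : A + B * (a / c) + C * (a * (a + 1) / c ^ 2) =
        (b - a / c) / 2 + lam / 4 + ((b - a / c) ^ 2 + a / c ^ 2) / (4 * lam) := by
      rw [hA, hB, hC]; field_simp; ring
    rw [h5, ← hlam2]
    field_simp
    ring
  rw [← key]
  field_simp
end D6_part1_aux

open D6_part1_aux in
theorem D6_part1 (m : ℕ) (hm : 6 ≤ m) :
    (∫ t in (0 : ℝ)..(((m : ℝ) + 3) / 2),
        exp (-(2 * E4 m t)) * max 0 ((m : ℝ) / 3 - E4 m t) * t ^ (m - 2)) ≤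
      1 / 4 * (m : ℝ) ^ (((m : ℝ) - 1) / 2) * Real.Gamma (((m : ℝ) - 1) / 2) * PP6 m := by
  obtain ⟨k, rfl⟩ : ∃ k, m = k + 6 := ⟨m - 6, by omega⟩
  have hk : (((k + 6 : ℕ) : ℝ)) = (k : ℝ) + 6 := by push_cast; ring
  have hk0 : (0 : ℝ) ≤ (k : ℝ) := Nat.cast_nonneg k
  have hk2 : k + 6 - 2 = k + 4 := by omega
  rw [hk2]
  set M : ℝ := (k : ℝ) + 6 with hM
  have hM0 : 0 < M := by positivity
  set th : ℝ := th6 (k + 6) with hth
  have hthv : th = 2 / (M + 2) * (0.1755 * (((k : ℝ) + 3) / 2) + 0.3177) := by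
    rw [hth, th6, hk, hM]; ring
  have hth0 : 0 < th := by rw [hthv]; positivity
  set c : ℝ := 1 + th with hc
  have hc0 : 0 < c := by linarith
  set a : ℝ := ((k : ℝ) + 5) / 2 with ha
  have ha' : (M - 1) / 2 = a := by rw [hM, ha]; ring
  have ha1 : a - 1 = ((k : ℝ) + 3) / 2 := by rw [ha]; ring
  have hPP : PP6 (k + 6) = c ^ (-a) * (((2 * M / 3 - a / c) +
      Real.sqrt ((2 * M / 3 - a / c) ^ 2 + a / c ^ 2)) / 2) := by
    rw [PP6, hk, ← hth, ← hc, ha']
  rw [hk, ha', hPP]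
  set g : ℝ → ℝ := fun V => exp (-(c * V)) * V ^ (a - 1) * max 0 (2 * M / 3 - V) with hg
  obtain ⟨hgint, hgle⟩ := gam (a := a) (c := c) (b := 2 * M / 3) (by rw [ha]; linarith) hc0
  have hgc : Continuous g := by
    have := Real.continuous_rpow_const (q := a - 1) (by rw [ha1]; positivity)
    rw [hg]
    fun_prop
  set V : ℝ → ℝ := fun t => 2 * E4 (k + 6) t with hV
  have hVv : ∀ t, V t = t ^ 2 / M + (t ^ 2 / M) ^ 2 / (2 * (M + 2)) := by
    intro t
    rw [hV]
    simp only [E4]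
    rw [hk]
    have : (M : ℝ) + 2 ≠ 0 := by positivity
    field_simp
    ring
  set V' : ℝ → ℝ := fun t => 2 * t / M * (1 + t ^ 2 / M / (M + 2)) with hV'
  have hderiv : ∀ t, HasDerivAt V (V' t) t := by
    intro t
    have h1 : HasDerivAt (fun t : ℝ => t ^ 2 / M + (t ^ 2 / M) ^ 2 / (2 * (M + 2)))
        (2 * t / M + 2 * (t ^ 2 / M) * (2 * t / M) / (2 * (M + 2))) t := by
      have h2 : HasDerivAt (fun t : ℝ => t ^ 2 / M) (2 * t / M) t := by
        simpa using (hasDerivAt_pow 2 t).div_const M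
      have h3 := (h2.pow 2).div_const (2 * (M + 2))
      have h4 : HasDerivAt (fun t : ℝ => t ^ 2 / M + (t ^ 2 / M) ^ 2 / (2 * (M + 2))) _ t :=
        h2.add h3
      refine h4.congr_deriv ?_
      simp
    have h5 : V = fun t : ℝ => t ^ 2 / M + (t ^ 2 / M) ^ 2 / (2 * (M + 2)) := funext hVv
    rw [h5]
    refine h1.congr_deriv ?_
    rw [hV']
    have : (M : ℝ) + 2 ≠ 0 := by positivity
    field_simp
  have hV'c : Continuous V' := by
    rw [hV']
    fun_prop
  have hVc : Continuous V := by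
    have h5 : V = fun t : ℝ => t ^ 2 / M + (t ^ 2 / M) ^ 2 / (2 * (M + 2)) := funext hVv
    rw [h5]
    fun_prop
  have htc : (0 : ℝ) ≤ (M + 3) / 2 := by positivity
  have hK0 : 0 ≤ M ^ a / 4 := by positivity
  -- pointwise comparison
  have hpt : ∀ t ∈ Set.Icc (0 : ℝ) ((M + 3) / 2),
      exp (-(2 * E4 (k + 6) t)) * max 0 (M / 3 - E4 (k + 6) t) * t ^ (k + 4) ≤
        M ^ a / 4 * ((g ∘ V) t * V' t) := by
    intro t ht
    have hE : E4 (k + 6) t = V t / 2 := by rw [hV]; ring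
    have hVt : 2 * E4 (k + 6) t = V t := rfl
    rw [hVt, hE]
    have hV0 : 0 ≤ V t := by
      rw [hVv]
      positivity
    rcases ht.1.eq_or_lt with h0 | h0
    · rw [← h0]
      have : (0 : ℝ) ^ (k + 4) = 0 := by simp
      rw [this, mul_zero]
      have h1 : V' 0 = 0 := by rw [hV']; simp
      rw [h1, mul_zero, mul_zero]
    · rcases le_total (2 * M / 3) (V t) with h1 | h1
      · have h2 : max 0 (M / 3 - V t / 2) = 0 := max_eq_left (by linarith)
        have h3 : g (V t) = 0 := by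
          rw [hg]
          simp only
          rw [max_eq_left (by linarith), mul_zero]
        rw [h2, mul_zero, zero_mul]
        simp only [Function.comp]
        rw [h3, zero_mul, mul_zero]
      · have h2 : max 0 (M / 3 - V t / 2) = (2 * M / 3 - V t) / 2 := by
          rw [max_eq_right (by linarith)]; ring
        have h3 : g (V t) = exp (-(c * V t)) * V t ^ (a - 1) * (2 * M / 3 - V t) := by
          rw [hg]
          simp only
          rw [max_eq_right (by linarith)]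
        rw [h2]
        simp only [Function.comp]
        rw [h3, pow_t k h0, ← hM, ← ha, ← ha1]
        have hZ : 0 < t ^ 2 / M := by positivity
        have hs : 1 + t ^ 2 / M / (M + 2) ≤ 1.52753 := by
          by_contra hlt
          push Not at hlt
          have h4 : V t = (M + 2) / 2 * ((1 + t ^ 2 / M / (M + 2)) ^ 2 - 1) := by
            rw [hVv]
            have : (M : ℝ) + 2 ≠ 0 := by positivity
            field_simp
            ring
          have h5 : (1.52753 : ℝ) ^ 2 ≤ (1 + t ^ 2 / M / (M + 2)) ^ 2 :=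
            pow_le_pow_left₀ (by norm_num) hlt.le 2
          have h6 : (M + 2) / 2 * ((1.52753 : ℝ) ^ 2 - 1) ≤ V t := by
            rw [h4]
            apply mul_le_mul_of_nonneg_left _ (by positivity)
            linarith
          have h7 : (M + 2) / 2 * ((1.52753 : ℝ) ^ 2 - 1) ≤ 2 * M / 3 := h6.trans h1
          norm_num at h7
          linarith
        have h4 := pw (Z := t ^ 2 / M) (N := M + 2) (a1 := a - 1) (θ := th) hZ (by positivity)
          (by rw [ha1]; positivity) (by rw [ha1]; exact hthv) hs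
        rw [← hVv t] at h4
        have hexp : exp (-(c * V t)) = exp (-V t) * exp (-(th * V t)) := by
          rw [← Real.exp_add]; congr 1; rw [hc]; ring
        rw [hexp]
        have h5 : 0 ≤ exp (-V t) * ((2 * M / 3 - V t) / 2) * (M ^ a / 2) * (2 * t / M) := by
          have : 0 ≤ (2 * M / 3 - V t) / 2 := by linarith
          positivity
        calc exp (-V t) * ((2 * M / 3 - V t) / 2) *
              (M ^ a / 2 * ((t ^ 2 / M) ^ (a - 1) * (2 * t / M)))
            = exp (-V t) * ((2 * M / 3 - V t) / 2) * (M ^ a / 2) * (2 * t / M) *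
                (t ^ 2 / M) ^ (a - 1) := by ring
          _ ≤ exp (-V t) * ((2 * M / 3 - V t) / 2) * (M ^ a / 2) * (2 * t / M) *
                (V t ^ (a - 1) * exp (-(th * V t)) * (1 + t ^ 2 / M / (M + 2))) :=
              mul_le_mul_of_nonneg_left h4 h5
          _ = M ^ a / 4 * (exp (-V t) * exp (-(th * V t)) * V t ^ (a - 1) *
                (2 * M / 3 - V t) * V' t) := by rw [hV']; ring
  have hE4c : Continuous (fun t => E4 (k + 6) t) := by
    unfold E4
    fun_prop
  have hi1 : IntervalIntegrable (fun t : ℝ => exp (-(2 * E4 (k + 6) t)) *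
      max 0 (M / 3 - E4 (k + 6) t) * t ^ (k + 4)) volume 0 ((M + 3) / 2) := by
    apply Continuous.intervalIntegrable
    fun_prop
  have hi2 : IntervalIntegrable (fun t : ℝ => M ^ a / 4 * ((g ∘ V) t * V' t)) volume 0
      ((M + 3) / 2) := by
    apply Continuous.intervalIntegrable
    exact continuous_const.mul ((hgc.comp hVc).mul hV'c)
  have hstep := intervalIntegral.integral_mono_on htc hi1 hi2 hpt
  refine hstep.trans ?_
  rw [intervalIntegral.integral_const_mul,
    intervalIntegral.integral_comp_mul_deriv (fun x _ => hderiv x) hV'c.continuousOn hgc]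
  have hV0 : V 0 = 0 := by rw [hVv]; simp
  have hVt : 0 ≤ V ((M + 3) / 2) := by rw [hVv]; positivity
  rw [hV0, intervalIntegral.integral_of_le hVt]
  have hmono : ∫ x in Ioc 0 (V ((M + 3) / 2)), g x ≤ ∫ x in Ioi (0 : ℝ), g x := by
    refine setIntegral_mono_set hgint ?_ (LE.le.eventuallyLE Ioc_subset_Ioi_self)
    rw [EventuallyLE, ae_restrict_iff' measurableSet_Ioi]
    refine Eventually.of_forall fun x hx => ?_
    have hx' : (0 : ℝ) < x := hx
    exact mul_nonneg (mul_nonneg (Real.exp_pos _).le (Real.rpow_nonneg hx'.le _)) (le_max_left _ _)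
  calc M ^ a / 4 * ∫ x in Ioc 0 (V ((M + 3) / 2)), g x
      ≤ M ^ a / 4 * (Real.Gamma a * (c ^ (-a) * (((2 * M / 3 - a / c) +
          Real.sqrt ((2 * M / 3 - a / c) ^ 2 + a / c ^ 2)) / 2))) :=
        mul_le_mul_of_nonneg_left (hmono.trans hgle) hK0
    _ = _ := by ring

end

section

namespace D6_part2_aux
-- auxiliary lemmas here
end D6_part2_aux

theorem D6_part2 (m : ℕ) (hm : 6 ≤ m) :
    (∫ t in (((m : ℝ) + 3) / 2)..Real.sqrt (2 * (m : ℝ) ^ 2 / 3),
        Asq m / (t * (1 - ((m : ℝ) - 1) * ((m : ℝ) - 3) / (4 * t ^ 2))) *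
          ((m : ℝ) / 3 - t ^ 2 / (2 * m))) =
      Asq m / 4 * (pp6 m * Real.log (pp6 m / qq6 m) - (pp6 m - qq6 m)) := by
  have hm' : (6 : ℝ) ≤ m := by exact_mod_cast hm
  have hm0 : (m : ℝ) ≠ 0 := by linarith
  have hmp : (0 : ℝ) < m := by linarith
  set M : ℝ := (m : ℝ) with hM
  set c : ℝ := (M - 1) * (M - 3) / 4 with hc
  set a : ℝ := (M + 3) / 2 with ha
  set b : ℝ := Real.sqrt (2 * M ^ 2 / 3) with hb
  have hb2 : b ^ 2 = 2 * M ^ 2 / 3 := Real.sq_sqrt (by positivity)
  have ha0 : 0 < a := by rw [ha]; linarith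
  have hab : a ≤ b := by
    rw [hb]
    refine Real.le_sqrt_of_sq_le ?_
    rw [ha]
    nlinarith
  have hac : c < a ^ 2 := by
    rw [hc, ha]
    nlinarith
  have hpm : pp6 m * M = b ^ 2 - c := by
    unfold pp6
    rw [← hM, hb2, hc]
    field_simp
  have hqm : qq6 m * M = a ^ 2 - c := by
    unfold qq6
    rw [← hM, ha, hc]
    field_simp
    ring
  have hqp : 0 < qq6 m := by
    have h1 : 0 < qq6 m * M := by rw [hqm]; linarith
    exact pos_of_mul_pos_left h1 hmp.le
  have hb0 : 0 < b := ha0.trans_le hab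
  have hpp : 0 < pp6 m := by
    have h1 : 0 < pp6 m * M := by
      rw [hpm]
      nlinarith
    exact pos_of_mul_pos_left h1 hmp.le
  have hpos : ∀ t ∈ uIcc a b, 0 < t ∧ 0 < t ^ 2 - c := by
    intro t ht
    rw [uIcc_of_le hab] at ht
    have h1 : 0 < t := ha0.trans_le ht.1
    refine ⟨h1, ?_⟩
    nlinarith [ht.1]
  have hder : ∀ t ∈ uIcc a b, HasDerivAt
      (fun t => Asq m / 4 * (pp6 m * Real.log (t ^ 2 - c) - t ^ 2 / M))
      (Asq m / (t * (1 - (M - 1) * (M - 3) / (4 * t ^ 2))) * (M / 3 - t ^ 2 / (2 * M))) t := by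
    intro t ht
    obtain ⟨h1, h2⟩ := hpos t ht
    have d1 : HasDerivAt (fun t : ℝ => t ^ 2 - c) (2 * t) t := by
      have := (hasDerivAt_pow 2 t).sub_const c
      simpa using this
    have d2 : HasDerivAt (fun t : ℝ => t ^ 2 / M) (2 * t / M) t := by
      have := (hasDerivAt_pow 2 t).div_const M
      simpa using this
    have d3 := (((d1.log h2.ne').const_mul (pp6 m)).sub d2).const_mul (Asq m / 4)
    convert! d3 using 1
    have e1 : t * (1 - (M - 1) * (M - 3) / (4 * t ^ 2)) = (t ^ 2 - c) / t := by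
      rw [hc]
      field_simp
    have e2 : pp6 m = (b ^ 2 - c) / M := by
      rw [← hpm]
      field_simp
    rw [e1, e2, hb2]
    have h3 : t ^ 2 - c ≠ 0 := h2.ne'
    field_simp
    ring
  have hint : IntervalIntegrable (fun t => Asq m / (t * (1 - (M - 1) * (M - 3) / (4 * t ^ 2))) *
      (M / 3 - t ^ 2 / (2 * M))) volume a b := by
    refine ContinuousOn.intervalIntegrable ?_
    intro t ht
    obtain ⟨h1, h2⟩ := hpos t ht
    refine ContinuousAt.continuousWithinAt ?_
    have e1 : t * (1 - (M - 1) * (M - 3) / (4 * t ^ 2)) = (t ^ 2 - c) / t := by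
      rw [hc]
      field_simp
    have h3 : t * (1 - (M - 1) * (M - 3) / (4 * t ^ 2)) ≠ 0 := by
      rw [e1]
      exact (div_pos h2 h1).ne'
    have h4 : (4 * t ^ 2) ≠ 0 := by positivity
    have c1 : ContinuousAt (fun t : ℝ => t * (1 - (M - 1) * (M - 3) / (4 * t ^ 2))) t :=
      continuousAt_id.mul (continuousAt_const.sub (continuousAt_const.div
        (by fun_prop) h4))
    exact (continuousAt_const.div c1 h3).mul (by fun_prop)
  rw [intervalIntegral.integral_eq_sub_of_hasDerivAt hder hint, ← hpm, ← hqm,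
    Real.log_mul hpp.ne' hm0, Real.log_mul hqp.ne' hm0, Real.log_div hpp.ne' hqp.ne']
  have e1 : b ^ 2 / M = pp6 m + c / M := by
    rw [eq_comm, eq_div_iff hm0, add_mul, hpm]
    field_simp
    ring
  have e2 : a ^ 2 / M = qq6 m + c / M := by
    rw [eq_comm, eq_div_iff hm0, add_mul, hqm]
    field_simp
    ring
  rw [e1, e2]
  ring

end

end H618KS
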