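import Pool.Agent.Helper618_KS.Defs
import Pool.Agent.Helper618_KS.DSix

/-!
Part `DSixNum` of the proof for MP_237b21_an.
-/

open MeasureTheory Filter Topology Set Real
open scoped ENNReal NNReal

set_option autoImplicit false

namespace H618KS

section

namespace D6_num_aux

/-- The factor in front of the second part. -/
noncomputable def RR (m : ℕ) : ℝ :=
  Asq m / ((m : ℝ) ^ (((m : ℝ) - 1) / 2) * Real.Gamma (((m : ℝ) - 1) / 2))

theorem Asq_nonneg (m : ℕ) : 0 ≤ Asq m := by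
  induction m using Nat.strong_induction_on with
  | _ m ih =>
    match m with
    | 0 => simp [Asq]
    | 1 => simp [Asq]
    | 2 => simp [Asq]; norm_num
    | 3 => simp [Asq]
    | (k + 4) =>
      rw [Asq]
      exact mul_nonneg (by positivity) (ih _ (by omega))

theorem RR_nonneg (m : ℕ) (hm : 2 ≤ m) : 0 ≤ RR m := by
  have h : (2 : ℝ) ≤ m := by exact_mod_cast hm
  refine div_nonneg (Asq_nonneg m) (mul_nonneg (by positivity) ?_)
  exact (Real.Gamma_pos_of_pos (by linarith)).le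

theorem RR_rec (m : ℕ) (hm : 2 ≤ m) :
    RR (m + 2) = RR m * (2 * (m : ℝ) ^ 2 / (((m : ℝ) - 1) * ((m : ℝ) + 2))) *
      ((m : ℝ) / ((m : ℝ) + 2)) ^ (((m : ℝ) - 1) / 2) := by
  obtain ⟨k, rfl⟩ : ∃ k, m = k + 2 := ⟨m - 2, by omega⟩
  have h1 : Asq (k + 2 + 2) = ((k : ℝ) + 2) ^ 2 * Asq (k + 2) := rfl
  have hk : (0 : ℝ) ≤ k := Nat.cast_nonneg k
  have hG : Real.Gamma (((k : ℝ) + 2 + 2 - 1) / 2) =
      (((k : ℝ) + 2 - 1) / 2) * Real.Gamma (((k : ℝ) + 2 - 1) / 2) := by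
    rw [show ((k : ℝ) + 2 + 2 - 1) / 2 = ((k : ℝ) + 2 - 1) / 2 + 1 by ring,
      Real.Gamma_add_one (by linarith)]
  have hGpos : 0 < Real.Gamma (((k : ℝ) + 2 - 1) / 2) :=
    Real.Gamma_pos_of_pos (by linarith)
  have hpow : ((k : ℝ) + 2 + 2) ^ (((k : ℝ) + 2 + 2 - 1) / 2) =
      ((k : ℝ) + 2 + 2) ^ (((k : ℝ) + 2 - 1) / 2) * ((k : ℝ) + 2 + 2) := by
    rw [show ((k : ℝ) + 2 + 2 - 1) / 2 = ((k : ℝ) + 2 - 1) / 2 + 1 by ring,
      Real.rpow_add_one (by linarith)]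
  have hdiv : (((k : ℝ) + 2) / ((k : ℝ) + 2 + 2)) ^ (((k : ℝ) + 2 - 1) / 2) =
      ((k : ℝ) + 2) ^ (((k : ℝ) + 2 - 1) / 2) / ((k : ℝ) + 2 + 2) ^ (((k : ℝ) + 2 - 1) / 2) :=
    Real.div_rpow (by linarith) (by linarith) _
  have hp1 : 0 < ((k : ℝ) + 2) ^ (((k : ℝ) + 2 - 1) / 2) := Real.rpow_pos_of_pos (by linarith) _
  have hp2 : 0 < ((k : ℝ) + 2 + 2) ^ (((k : ℝ) + 2 - 1) / 2) :=
    Real.rpow_pos_of_pos (by linarith) _
  rw [RR, RR, h1]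
  push_cast
  rw [hG, hpow, hdiv]
  have h3 : (k : ℝ) + 2 - 1 ≠ 0 := by linarith
  have h4 : (k : ℝ) + 2 + 2 ≠ 0 := by linarith
  field_simp

theorem pow_le (m : ℕ) (hm : 2 ≤ m) :
    ((m : ℝ) / ((m : ℝ) + 2)) ^ (((m : ℝ) - 1) / 2) ≤
      Real.exp (-(((m : ℝ) - 1) / ((m : ℝ) + 1))) := by
  have h : (2 : ℝ) ≤ m := by exact_mod_cast hm
  have hpos : 0 < (m : ℝ) / ((m : ℝ) + 2) := by positivity
  rw [Real.rpow_def_of_pos hpos]
  apply Real.exp_le_exp.mpr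
  have h1 : Real.log ((m : ℝ) / ((m : ℝ) + 2)) = - Real.log (1 + 2 / m) := by
    rw [← Real.log_inv]
    congr 1
    field_simp
  have h2 : 2 * (2 / (m : ℝ)) / (2 / m + 2) ≤ Real.log (1 + 2 / m) :=
    Real.le_log_one_add_of_nonneg (by positivity)
  have h3 : 2 * (2 / (m : ℝ)) / (2 / m + 2) = 2 / ((m : ℝ) + 1) := by
    field_simp
    ring
  rw [h3] at h2
  rw [h1]
  have h4 : 2 / ((m : ℝ) + 1) * (((m : ℝ) - 1) / 2) ≤ Real.log (1 + 2 / m) * (((m : ℝ) - 1) / 2) :=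
    mul_le_mul_of_nonneg_right h2 (by linarith)
  have h5 : 2 / ((m : ℝ) + 1) * (((m : ℝ) - 1) / 2) = ((m : ℝ) - 1) / ((m : ℝ) + 1) := by
    field_simp
  linarith

theorem RR_step (m : ℕ) (hm : 9 ≤ m) (h : RR m ≤ 3.4 / ((m : ℝ) + 3)) :
    RR (m + 2) ≤ 3.4 / (((m + 2 : ℕ) : ℝ) + 3) := by
  have h9 : (9 : ℝ) ≤ m := by exact_mod_cast hm
  obtain ⟨t, ht⟩ : ∃ t : ℝ, (m : ℝ) = t + 9 := ⟨(m : ℝ) - 9, by ring⟩
  have ht0 : 0 ≤ t := by linarith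
  rw [RR_rec m (by omega)]
  have hR := RR_nonneg m (by omega)
  have h1 := pow_le m (by omega)
  have hexp : Real.exp (-(((m : ℝ) - 1) / ((m : ℝ) + 1))) ≤
      ((m : ℝ) + 1) / (2.7182 * ((m : ℝ) - 1)) := by
    rw [Real.exp_neg, ← one_div, div_le_div_iff₀ (Real.exp_pos _) (by nlinarith), one_mul]
    have h2 : ((m : ℝ) - 1) / ((m : ℝ) + 1) = 1 + -(2 / ((m : ℝ) + 1)) := by
      field_simp
      ring
    rw [h2, Real.exp_add]
    have h3 : -(2 / ((m : ℝ) + 1)) + 1 ≤ Real.exp (-(2 / ((m : ℝ) + 1))) := Real.add_one_le_exp _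
    have h4 : (2.7182 : ℝ) ≤ Real.exp 1 := by
      have := Real.exp_one_gt_d9
      linarith
    have h5 : -(2 / ((m : ℝ) + 1)) + 1 = ((m : ℝ) - 1) / ((m : ℝ) + 1) := by
      field_simp
      ring
    have h6 : 0 ≤ ((m : ℝ) - 1) / ((m : ℝ) + 1) := div_nonneg (by linarith) (by linarith)
    calc 2.7182 * ((m : ℝ) - 1) = ((m : ℝ) + 1) * (2.7182 * (((m : ℝ) - 1) / ((m : ℝ) + 1))) := by
          field_simp
      _ ≤ ((m : ℝ) + 1) * (Real.exp 1 * Real.exp (-(2 / ((m : ℝ) + 1)))) := by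
          apply mul_le_mul_of_nonneg_left _ (by linarith)
          apply mul_le_mul h4 (by rw [← h5]; exact h3) h6 (Real.exp_pos _).le
  have hf : 0 ≤ 2 * (m : ℝ) ^ 2 / (((m : ℝ) - 1) * ((m : ℝ) + 2)) := by
    apply div_nonneg (by positivity)
    apply mul_nonneg <;> linarith
  calc RR m * (2 * (m : ℝ) ^ 2 / (((m : ℝ) - 1) * ((m : ℝ) + 2))) *
        ((m : ℝ) / ((m : ℝ) + 2)) ^ (((m : ℝ) - 1) / 2)
      ≤ (3.4 / ((m : ℝ) + 3)) * (2 * (m : ℝ) ^ 2 / (((m : ℝ) - 1) * ((m : ℝ) + 2))) *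
        (((m : ℝ) + 1) / (2.7182 * ((m : ℝ) - 1))) := by
        apply mul_le_mul (mul_le_mul_of_nonneg_right h hf) (h1.trans hexp) (by positivity)
        apply mul_nonneg (by positivity) hf
    _ ≤ 3.4 / (((m + 2 : ℕ) : ℝ) + 3) := by
        push_cast
        rw [ht]
        rw [div_mul_div_comm, div_mul_div_comm, div_le_div_iff₀ (by
          have : 0 < t + 9 - 1 := by linarith
          positivity) (by positivity)]
        nlinarith [mul_nonneg ht0 ht0, mul_nonneg (mul_nonneg ht0 ht0) ht0,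
          mul_nonneg (mul_nonneg ht0 ht0) (mul_nonneg ht0 ht0)]

theorem Asq_val6 : Asq 6 = 41.088 := by
  have h4 : Asq 4 = ((0 : ℕ) + 2 : ℝ) ^ 2 * Asq 2 := rfl
  have h6 : Asq 6 = ((2 : ℕ) + 2 : ℝ) ^ 2 * Asq 4 := rfl
  have h2 : Asq 2 = 0.642 := rfl
  rw [h6, h4, h2]; norm_num

theorem Asq_val8 : Asq 8 = 1479.168 := by
  have h8 : Asq 8 = ((4 : ℕ) + 2 : ℝ) ^ 2 * Asq 6 := rfl
  rw [h8, Asq_val6]; norm_num

theorem Asq_val10 : Asq 10 = 94666.752 := by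
  have h8 : Asq 10 = ((6 : ℕ) + 2 : ℝ) ^ 2 * Asq 8 := rfl
  rw [h8, Asq_val8]; norm_num

theorem Asq_val7 : Asq 7 = 225 := by
  have h5 : Asq 5 = ((1 : ℕ) + 2 : ℝ) ^ 2 * Asq 3 := rfl
  have h7 : Asq 7 = ((3 : ℕ) + 2 : ℝ) ^ 2 * Asq 5 := rfl
  have h3 : Asq 3 = 1 := rfl
  rw [h7, h5, h3]; norm_num

theorem Asq_val9 : Asq 9 = 11025 := by
  have h8 : Asq 9 = ((5 : ℕ) + 2 : ℝ) ^ 2 * Asq 7 := rfl
  rw [h8, Asq_val7]; norm_num

theorem RR7 : RR 7 = 225 / 686 := by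
  rw [RR, Asq_val7]
  have h1 : (((7 : ℕ) : ℝ) - 1) / 2 = ((3 : ℕ) : ℝ) := by norm_num
  rw [h1, Real.rpow_natCast]
  have h2 : Real.Gamma ((3 : ℕ) : ℝ) = 2 := by
    rw [show ((3 : ℕ) : ℝ) = ((2 : ℕ) : ℝ) + 1 by norm_num, Real.Gamma_nat_eq_factorial]
    norm_num [Nat.factorial]
  rw [h2]; norm_num

theorem RR9 : RR 9 ≤ 3.4 / (((9 : ℕ) : ℝ) + 3) := by
  rw [RR, Asq_val9]
  have h1 : (((9 : ℕ) : ℝ) - 1) / 2 = ((4 : ℕ) : ℝ) := by norm_num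
  rw [h1, Real.rpow_natCast]
  have h2 : Real.Gamma ((4 : ℕ) : ℝ) = 6 := by
    rw [show ((4 : ℕ) : ℝ) = ((3 : ℕ) : ℝ) + 1 by norm_num, Real.Gamma_nat_eq_factorial]
    norm_num [Nat.factorial]
  rw [h2]; norm_num

theorem sqrt_pi_ge : (1.772453 : ℝ) ≤ √Real.pi := by
  apply Real.le_sqrt_of_sq_le
  have := Real.pi_gt_d6
  nlinarith

theorem gamma52 : Real.Gamma (5 / 2) = 3 / 4 * √Real.pi := by
  rw [show (5 / 2 : ℝ) = (1 / 2 + 1) + 1 by norm_num, Real.Gamma_add_one (by norm_num),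
    Real.Gamma_add_one (by norm_num), Real.Gamma_one_half_eq]
  ring

theorem gamma72 : Real.Gamma (7 / 2) = 15 / 8 * √Real.pi := by
  rw [show (7 / 2 : ℝ) = 5 / 2 + 1 by norm_num, Real.Gamma_add_one (by norm_num), gamma52]
  ring

theorem gamma92 : Real.Gamma (9 / 2) = 105 / 16 * √Real.pi := by
  rw [show (9 / 2 : ℝ) = 7 / 2 + 1 by norm_num, Real.Gamma_add_one (by norm_num), gamma72]
  ring

theorem rpow_half (x : ℝ) (hx : 0 < x) (k : ℕ) : x ^ ((k : ℝ) + 1 / 2) = x ^ k * √x := by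
  rw [Real.rpow_add hx, Real.rpow_natCast, Real.sqrt_eq_rpow]

theorem RR6 : RR 6 ≤ 0.3506 := by
  rw [RR, Asq_val6]
  have h1 : (((6 : ℕ) : ℝ) - 1) / 2 = 5 / 2 := by norm_num
  rw [h1, gamma52, show (5 / 2 : ℝ) = ((2 : ℕ) : ℝ) + 1 / 2 by norm_num, rpow_half _ (by norm_num)]
  have h2 : (2.449489 : ℝ) ≤ √((6 : ℕ) : ℝ) := by
    apply Real.le_sqrt_of_sq_le; norm_num
  have h3 := sqrt_pi_ge
  rw [div_le_iff₀ (by positivity)]
  have h4 : (2.449489 : ℝ) * 1.772453 ≤ √((6 : ℕ) : ℝ) * √Real.pi :=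
    mul_le_mul h2 h3 (by norm_num) (by positivity)
  push_cast at h4 ⊢
  nlinarith

theorem RR8 : RR 8 ≤ 0.3075 := by
  rw [RR, Asq_val8]
  have h1 : (((8 : ℕ) : ℝ) - 1) / 2 = 7 / 2 := by norm_num
  rw [h1, gamma72, show (7 / 2 : ℝ) = ((3 : ℕ) : ℝ) + 1 / 2 by norm_num, rpow_half _ (by norm_num)]
  have h2 : (2.828427 : ℝ) ≤ √((8 : ℕ) : ℝ) := by
    apply Real.le_sqrt_of_sq_le; norm_num
  have h3 := sqrt_pi_ge
  rw [div_le_iff₀ (by positivity)]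
  have h4 : (2.828427 : ℝ) * 1.772453 ≤ √((8 : ℕ) : ℝ) * √Real.pi :=
    mul_le_mul h2 h3 (by norm_num) (by positivity)
  push_cast at h4 ⊢
  nlinarith

theorem RR10 : RR 10 ≤ 3.4 / (((10 : ℕ) : ℝ) + 3) := by
  rw [RR, Asq_val10]
  have h1 : (((10 : ℕ) : ℝ) - 1) / 2 = 9 / 2 := by norm_num
  rw [h1, gamma92, show (9 / 2 : ℝ) = ((4 : ℕ) : ℝ) + 1 / 2 by norm_num, rpow_half _ (by norm_num)]
  have h2 : (3.162277 : ℝ) ≤ √((10 : ℕ) : ℝ) := by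
    apply Real.le_sqrt_of_sq_le; norm_num
  have h3 := sqrt_pi_ge
  rw [div_le_div_iff₀ (by positivity) (by positivity)]
  have h4 : (3.162277 : ℝ) * 1.772453 ≤ √((10 : ℕ) : ℝ) * √Real.pi :=
    mul_le_mul h2 h3 (by norm_num) (by positivity)
  push_cast at h4 ⊢
  nlinarith

theorem RR_bound (m : ℕ) (hm : 9 ≤ m) : RR m ≤ 3.4 / ((m : ℝ) + 3) := by
  induction m using Nat.strong_induction_on with
  | _ m ih =>
    by_cases h9 : m = 9
    · subst h9; exact RR9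
    by_cases h10 : m = 10
    · subst h10; exact RR10
    obtain ⟨k, rfl⟩ : ∃ k, m = k + 2 := ⟨m - 2, by omega⟩
    exact RR_step k (by omega) (ih k (by omega) (by omega))

/-- The elementary bound for the second part. -/
theorem log_part {p q : ℝ} (hq : 0 < q) (hpq : q ≤ p) :
    p * Real.log (p / q) - (p - q) ≤ (p - q) ^ 2 / (2 * q) := by
  have hp : 0 < p := by linarith
  have hx : 1 ≤ p / q := (one_le_div hq).mpr hpq
  have h1 : Real.log (p / q) ≤ (p / q - (p / q)⁻¹) / 2 := by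
    rw [← Real.sinh_log (by positivity)]
    exact Real.self_le_sinh_iff.mpr (Real.log_nonneg hx)
  have h2 : p * Real.log (p / q) ≤ p * ((p / q - (p / q)⁻¹) / 2) :=
    mul_le_mul_of_nonneg_left h1 hp.le
  have h3 : p * ((p / q - (p / q)⁻¹) / 2) = (p - q) ^ 2 / (2 * q) + (p - q) := by
    field_simp
    ring
  linarith

theorem pq_sub (m : ℕ) (hm : 6 ≤ m) :
    pp6 m - qq6 m = (5 * (m : ℝ) ^ 2 - 18 * m - 27) / (12 * m) := by
  have h : (6 : ℝ) ≤ m := by exact_mod_cast hm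
  rw [pp6, qq6]
  field_simp
  ring

theorem qq_eq (m : ℕ) (hm : 6 ≤ m) : qq6 m = (10 * (m : ℝ) + 6) / (4 * m) := by
  have h : (6 : ℝ) ≤ m := by exact_mod_cast hm
  rw [qq6]
  field_simp
  ring

theorem second_part (m : ℕ) (hm : 6 ≤ m) :
    pp6 m * Real.log (pp6 m / qq6 m) - (pp6 m - qq6 m) ≤
      (5 * (m : ℝ) ^ 2 - 18 * m - 27) ^ 2 / (72 * m * (10 * m + 6)) := by
  have h : (6 : ℝ) ≤ m := by exact_mod_cast hm
  have hq : 0 < qq6 m := by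
    rw [qq_eq m hm]; positivity
  have hd : 0 ≤ pp6 m - qq6 m := by
    rw [pq_sub m hm]
    apply div_nonneg _ (by positivity)
    nlinarith
  refine (log_part hq (by linarith)).trans (le_of_eq ?_)
  rw [pq_sub m hm, qq_eq m hm]
  field_simp
  ring

/-- Monotone bound of the first part. -/
theorem PP_le {θ a M θ0 μ0 v0 s0 : ℝ} (hθ0 : 0 ≤ θ0) (ha : 0 ≤ a) (h1 : θ0 ≤ θ)
    (hμ : M - a / (1 + θ) ≤ μ0) (hμ' : 0 ≤ M - a / (1 + θ)) (hv : a / (1 + θ) ^ 2 ≤ v0)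
    (hs : μ0 ^ 2 + v0 ≤ s0 ^ 2) (hs0 : 0 ≤ s0) :
    (1 + θ) ^ (-a) * (((M - a / (1 + θ)) +
      Real.sqrt ((M - a / (1 + θ)) ^ 2 + a / (1 + θ) ^ 2)) / 2) ≤
      (1 + θ0) ^ (-a) * ((μ0 + s0) / 2) := by
  have hb : (1 + θ) ^ (-a) ≤ (1 + θ0) ^ (-a) := by
    apply Real.rpow_le_rpow_of_nonpos (by linarith) (by linarith) (by linarith)
  have hsq : Real.sqrt ((M - a / (1 + θ)) ^ 2 + a / (1 + θ) ^ 2) ≤ s0 := by
    apply Real.sqrt_le_iff.mpr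
    refine ⟨hs0, le_trans ?_ hs⟩
    have : (M - a / (1 + θ)) ^ 2 ≤ μ0 ^ 2 := pow_le_pow_left₀ hμ' hμ 2
    linarith
  apply mul_le_mul hb (by linarith) _ (by positivity)
  have := Real.sqrt_nonneg ((M - a / (1 + θ)) ^ 2 + a / (1 + θ) ^ 2)
  linarith

theorem th6_eq (m : ℕ) : th6 m = (0.1755 * (m : ℝ) + 0.1089) / ((m : ℝ) + 2) := by
  have h : (0 : ℝ) ≤ m := Nat.cast_nonneg m
  rw [th6]
  field_simp
  ring

theorem P1_large (m : ℕ) (hm : 9 ≤ m) : PP6 m ≤ 1.77 := by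
  have h9 : (9 : ℝ) ≤ m := by exact_mod_cast hm
  obtain ⟨a, ha⟩ : ∃ a : ℝ, a = ((m : ℝ) - 1) / 2 := ⟨_, rfl⟩
  have hma : (m : ℝ) = 2 * a + 1 := by linarith
  have ha4 : 4 ≤ a := by linarith
  have hθ1 : 0.1534 ≤ th6 m := by
    rw [th6_eq, le_div_iff₀ (by linarith)]
    nlinarith
  have hθ2 : th6 m ≤ 0.1755 := by
    rw [th6_eq, div_le_iff₀ (by linarith)]
    nlinarith
  have hinv1 : a / (1 + th6 m) ≤ a := div_le_self (by linarith) (by linarith)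
  have hinv2 : a / 1.1755 ≤ a / (1 + th6 m) :=
    div_le_div_of_nonneg_left (by linarith) (by linarith) (by linarith)
  have hinv3 : a / (1 + th6 m) ^ 2 ≤ a / 1.1534 ^ 2 :=
    div_le_div_of_nonneg_left (by linarith) (by norm_num)
      (pow_le_pow_left₀ (by norm_num) (by linarith) 2)
  have key := PP_le (θ := th6 m) (a := a) (M := 2 * (m : ℝ) / 3) (θ0 := 0.1534)
    (μ0 := 0.4827 * a + 0.6667) (v0 := 0.7518 * a) (s0 := 0.4827 * a + 0.6667 + 0.7788)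
    (by norm_num) (by linarith) hθ1
    (by
      have h2 : 0.8507 * a ≤ a / 1.1755 := by
        rw [le_div_iff₀ (by norm_num)]
        nlinarith
      rw [hma]
      nlinarith)
    (by rw [hma]; linarith)
    (by
      have h2 : a / 1.1534 ^ 2 ≤ 0.7518 * a := by
        rw [div_le_iff₀ (by norm_num)]
        nlinarith
      linarith)
    (by nlinarith) (by linarith)
  have hPP : PP6 m = (1 + th6 m) ^ (-a) * (((2 * (m : ℝ) / 3 - a / (1 + th6 m)) +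
      Real.sqrt ((2 * (m : ℝ) / 3 - a / (1 + th6 m)) ^ 2 + a / (1 + th6 m) ^ 2)) / 2) := by
    rw [PP6, ha]
  rw [hPP]
  refine key.trans ?_
  have hL : (0.1424 : ℝ) ≤ Real.log 1.1534 := by
    have h := Real.le_log_one_add_of_nonneg (x := 0.1534) (by norm_num)
    have h2 : (1 + 0.1534 : ℝ) = 1.1534 := by norm_num
    rw [h2] at h
    refine le_trans ?_ h
    norm_num
  have hlog2 : Real.log 2 < 0.6931471808 := Real.log_two_lt_d9
  have hE : 2 * (1 + (a * Real.log 1.1534 - Real.log 2)) ≤ Real.exp (a * Real.log 1.1534) := by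
    have h := Real.add_one_le_exp (a * Real.log 1.1534 - Real.log 2)
    have h2 : Real.exp (a * Real.log 1.1534) =
        2 * Real.exp (a * Real.log 1.1534 - Real.log 2) := by
      rw [Real.exp_sub, Real.exp_log (by norm_num)]
      ring
    rw [h2]
    linarith
  have hpow : (1 + 0.1534 : ℝ) ^ (-a) = (Real.exp (a * Real.log 1.1534))⁻¹ := by
    rw [← Real.exp_neg, show (1 + 0.1534 : ℝ) = 1.1534 by norm_num,
      Real.rpow_def_of_pos (by norm_num)]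
    congr 1
    ring
  rw [hpow, inv_mul_le_iff₀ (Real.exp_pos _)]
  have h3 : 0.1424 * a ≤ a * Real.log 1.1534 := by nlinarith
  nlinarith

theorem large (m : ℕ) (hm : 9 ≤ m) :
    RR m * (pp6 m * Real.log (pp6 m / qq6 m) - (pp6 m - qq6 m)) + PP6 m ≤
      (m : ℝ) / 6 + 1 / 2 := by
  have h9 : (9 : ℝ) ≤ m := by exact_mod_cast hm
  have h1 := second_part m (by omega)
  have h2 := RR_bound m hm
  have h3 := P1_large m hm
  have h4 := RR_nonneg m (by omega)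
  have h5 : RR m * (pp6 m * Real.log (pp6 m / qq6 m) - (pp6 m - qq6 m)) ≤
      3.4 / ((m : ℝ) + 3) *
        ((5 * (m : ℝ) ^ 2 - 18 * m - 27) ^ 2 / (72 * m * (10 * m + 6))) := by
    refine (mul_le_mul_of_nonneg_left h1 h4).trans ?_
    exact mul_le_mul_of_nonneg_right h2 (by positivity)
  have h6 : 3.4 / ((m : ℝ) + 3) *
        ((5 * (m : ℝ) ^ 2 - 18 * m - 27) ^ 2 / (72 * m * (10 * m + 6))) ≤ (m : ℝ) / 6 - 1.27 := by
    obtain ⟨t, ht⟩ : ∃ t : ℝ, (m : ℝ) = t + 9 := ⟨(m : ℝ) - 9, by ring⟩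
    have ht0 : 0 ≤ t := by linarith
    rw [ht, div_mul_div_comm, div_le_iff₀ (by positivity)]
    nlinarith [mul_nonneg ht0 ht0, mul_nonneg (mul_nonneg ht0 ht0) ht0,
          mul_nonneg (mul_nonneg ht0 ht0) (mul_nonneg ht0 ht0)]
  linarith

theorem P1_6 : PP6 6 ≤ 1.4675 := by
  have hθ : th6 6 = 0.1452375 := by
    rw [th6]; norm_num
  have key := PP_le (θ := 0.1452375) (a := 5 / 2) (M := 4) (θ0 := 0.1452375)
    (μ0 := 1.81706) (v0 := 1.90613) (s0 := 2.2821)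
    (by norm_num) (by norm_num) le_rfl (by norm_num) (by norm_num) (by norm_num) (by norm_num)
    (by norm_num)
  have hPP : PP6 6 = (1 + 0.1452375 : ℝ) ^ (-(5 / 2) : ℝ) * (((4 - 5 / 2 / (1 + 0.1452375)) +
      Real.sqrt ((4 - 5 / 2 / (1 + 0.1452375)) ^ 2 + 5 / 2 / (1 + 0.1452375) ^ 2)) / 2) := by
    rw [PP6, hθ]
    norm_num
  rw [hPP]
  refine key.trans ?_
  have h1 : (1 + 0.1452375 : ℝ) ^ (-(5 / 2) : ℝ) ≤ 0.716 := by
    rw [Real.rpow_neg (by norm_num), show (5 / 2 : ℝ) = ((2 : ℕ) : ℝ) + 1 / 2 by norm_num,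
      rpow_half _ (by norm_num)]
    have h2 : (1.07 : ℝ) ≤ √(1 + 0.1452375) := by
      apply Real.le_sqrt_of_sq_le; norm_num
    rw [inv_le_comm₀ (by positivity) (by norm_num)]
    nlinarith
  calc (1 + 0.1452375 : ℝ) ^ (-(5 / 2) : ℝ) * ((1.81706 + 2.2821) / 2)
      ≤ 0.716 * ((1.81706 + 2.2821) / 2) := by
        apply mul_le_mul_of_nonneg_right h1 (by norm_num)
    _ ≤ 1.4675 := by norm_num

theorem P1_7 : PP6 7 ≤ 1.53 := by
  have hθ : th6 7 = 0.1486 := by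
    rw [th6]; norm_num
  have key := PP_le (θ := 0.1486) (a := 3) (M := 14 / 3) (θ0 := 0.1486)
    (μ0 := 2.055) (v0 := 2.275) (s0 := 2.55)
    (by norm_num) (by norm_num) le_rfl (by norm_num) (by norm_num) (by norm_num) (by norm_num)
    (by norm_num)
  have hPP : PP6 7 = (1 + 0.1486 : ℝ) ^ (-3 : ℝ) * (((14 / 3 - 3 / (1 + 0.1486)) +
      Real.sqrt ((14 / 3 - 3 / (1 + 0.1486)) ^ 2 + 3 / (1 + 0.1486) ^ 2)) / 2) := by
    rw [PP6, hθ]
    norm_num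
  rw [hPP]
  refine key.trans ?_
  have h1 : (1 + 0.1486 : ℝ) ^ (-3 : ℝ) ≤ 0.661 := by
    rw [Real.rpow_neg (by norm_num), show (3 : ℝ) = ((3 : ℕ) : ℝ) by norm_num, Real.rpow_natCast]
    norm_num
  calc (1 + 0.1486 : ℝ) ^ (-3 : ℝ) * ((2.055 + 2.55) / 2)
      ≤ 0.661 * ((2.055 + 2.55) / 2) := by
        apply mul_le_mul_of_nonneg_right h1 (by norm_num)
    _ ≤ 1.53 := by norm_num

theorem P1_8 : PP6 8 ≤ 1.57 := by
  have hθ : th6 8 = 0.15129 := by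
    rw [th6]; norm_num
  have key := PP_le (θ := 0.15129) (a := 7 / 2) (M := 16 / 3) (θ0 := 0.15129)
    (μ0 := 2.2935) (v0 := 2.641) (s0 := 2.812)
    (by norm_num) (by norm_num) le_rfl (by norm_num) (by norm_num) (by norm_num) (by norm_num)
    (by norm_num)
  have hPP : PP6 8 = (1 + 0.15129 : ℝ) ^ (-(7 / 2) : ℝ) * (((16 / 3 - 7 / 2 / (1 + 0.15129)) +
      Real.sqrt ((16 / 3 - 7 / 2 / (1 + 0.15129)) ^ 2 + 7 / 2 / (1 + 0.15129) ^ 2)) / 2) := by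
    rw [PP6, hθ]
    norm_num
  rw [hPP]
  refine key.trans ?_
  have h1 : (1 + 0.15129 : ℝ) ^ (-(7 / 2) : ℝ) ≤ 0.612 := by
    rw [Real.rpow_neg (by norm_num), show (7 / 2 : ℝ) = ((3 : ℕ) : ℝ) + 1 / 2 by norm_num,
      rpow_half _ (by norm_num)]
    have h2 : (1.0729 : ℝ) ≤ √(1 + 0.15129) := by
      apply Real.le_sqrt_of_sq_le; norm_num
    rw [inv_le_comm₀ (by positivity) (by norm_num)]
    nlinarith
  calc (1 + 0.15129 : ℝ) ^ (-(7 / 2) : ℝ) * ((2.2935 + 2.812) / 2)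
      ≤ 0.612 * ((2.2935 + 2.812) / 2) := by
        apply mul_le_mul_of_nonneg_right h1 (by norm_num)
    _ ≤ 1.57 := by norm_num

theorem small {m : ℕ} (hm : 6 ≤ m) {r D P : ℝ} (hr : RR m ≤ r)
    (hD : (5 * (m : ℝ) ^ 2 - 18 * m - 27) ^ 2 / (72 * m * (10 * m + 6)) ≤ D)
    (hP : PP6 m ≤ P) (h : r * D + P ≤ (m : ℝ) / 6 + 1 / 2) :
    RR m * (pp6 m * Real.log (pp6 m / qq6 m) - (pp6 m - qq6 m)) + PP6 m ≤
      (m : ℝ) / 6 + 1 / 2 := by
  have h1 := second_part m hm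
  have h4 := RR_nonneg m (by omega)
  have h5 : 0 ≤ (5 * (m : ℝ) ^ 2 - 18 * m - 27) ^ 2 / (72 * m * (10 * m + 6)) := by positivity
  have h6 : RR m * (pp6 m * Real.log (pp6 m / qq6 m) - (pp6 m - qq6 m)) ≤ r * D :=
    (mul_le_mul_of_nonneg_left (h1.trans hD) h4).trans
      (mul_le_mul_of_nonneg_right hr (h5.trans hD))
  linarith

end D6_num_aux

theorem D6_num (m : ℕ) (hm : 6 ≤ m) :
    Asq m / ((m : ℝ) ^ (((m : ℝ) - 1) / 2) * Real.Gamma (((m : ℝ) - 1) / 2)) *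
        (pp6 m * Real.log (pp6 m / qq6 m) - (pp6 m - qq6 m)) + PP6 m ≤ (m : ℝ) / 6 + 1 / 2 := by
  change D6_num_aux.RR m * (pp6 m * Real.log (pp6 m / qq6 m) - (pp6 m - qq6 m)) + PP6 m ≤
    (m : ℝ) / 6 + 1 / 2
  by_cases h9 : 9 ≤ m
  · exact D6_num_aux.large m h9
  have h : m = 6 ∨ m = 7 ∨ m = 8 := by omega
  rcases h with rfl | rfl | rfl
  · exact D6_num_aux.small (by norm_num) D6_num_aux.RR6 (D := 0.0711) (by norm_num)
      D6_num_aux.P1_6 (by norm_num)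
  · exact D6_num_aux.small (by norm_num) D6_num_aux.RR7.le (D := 0.221) (by norm_num)
      D6_num_aux.P1_7 (by norm_num)
  · exact D6_num_aux.small (by norm_num) D6_num_aux.RR8 (D := 0.4482) (by norm_num)
      D6_num_aux.P1_8 (by norm_num)

end

section

namespace D_ge_six_aux
-- auxiliary lemmas here
end D_ge_six_aux

theorem D_ge_six (m : ℕ) (hm : 6 ≤ m) :
    (∫ t in (0 : ℝ)..(((m : ℝ) + 3) / 2),
        exp (-(2 * E4 m t)) * max 0 ((m : ℝ) / 3 - E4 m t) * t ^ (m - 2)) +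
      (∫ t in (((m : ℝ) + 3) / 2)..Real.sqrt (2 * (m : ℝ) ^ 2 / 3),
        Asq m / (t * (1 - ((m : ℝ) - 1) * ((m : ℝ) - 3) / (4 * t ^ 2))) *
          ((m : ℝ) / 3 - t ^ 2 / (2 * m))) ≤
    ((m : ℝ) / 3 - ((m : ℝ) - 1) / 4) * (1 / 2) * (m : ℝ) ^ (((m : ℝ) - 1) / 2) *
      Real.Gamma (((m : ℝ) - 1) / 2) := by
  have h1 := D6_part1 m hm
  have h2 := D6_part2 m hm
  have h3 := D6_num m hm
  have hm' : (6 : ℝ) ≤ m := by exact_mod_cast hm
  have ha : 0 < ((m : ℝ) - 1) / 2 := by linarith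
  have hK : 0 < (m : ℝ) ^ (((m : ℝ) - 1) / 2) * Real.Gamma (((m : ℝ) - 1) / 2) :=
    mul_pos (Real.rpow_pos_of_pos (by linarith) _) (Real.Gamma_pos_of_pos ha)
  rw [h2]
  set K := (m : ℝ) ^ (((m : ℝ) - 1) / 2) * Real.Gamma (((m : ℝ) - 1) / 2) with hKdef
  set Z := pp6 m * Real.log (pp6 m / qq6 m) - (pp6 m - qq6 m) with hZ
  have e1 : 1 / 4 * (m : ℝ) ^ (((m : ℝ) - 1) / 2) * Real.Gamma (((m : ℝ) - 1) / 2) * PP6 m =
      1 / 4 * K * PP6 m := by rw [hKdef]; ring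
  rw [e1] at h1
  have h4 := mul_le_mul_of_nonneg_left h3 hK.le
  have e2 : K * (Asq m / K * Z + PP6 m) = Asq m * Z + K * PP6 m := by
    field_simp
  rw [e2] at h4
  have e3 : ((m : ℝ) / 3 - ((m : ℝ) - 1) / 4) * (1 / 2) * (m : ℝ) ^ (((m : ℝ) - 1) / 2) *
      Real.Gamma (((m : ℝ) - 1) / 2) = 1 / 4 * (K * ((m : ℝ) / 6 + 1 / 2)) := by
    rw [hKdef]; ring
  rw [e3]
  linarith

end

end H618KS
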