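import Pool.Agent.Helper618_KS.Defs

/-!
Part `DSmall` of the proof for MP_237b21_an.
-/

open MeasureTheory Filter Topology Set Real
open scoped ENNReal NNReal

set_option autoImplicit false

namespace H618KS

section

namespace D_two_aux

lemma step (G G' : ℝ → ℝ) (h0 : 0 ≤ G 0) (hd : ∀ x, HasDerivAt G (G' x) x)
    (hn : ∀ x, 0 ≤ x → 0 ≤ G' x) : ∀ x, 0 ≤ x → 0 ≤ G x := by
  intro x hx
  have hm : MonotoneOn G (Set.Ici 0) := by
    apply monotoneOn_of_deriv_nonneg (convex_Ici 0)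
    · exact fun y _ => (hd y).continuousAt.continuousWithinAt
    · exact fun y _ => (hd y).differentiableAt.differentiableWithinAt
    · intro y hy
      rw [(hd y).deriv]
      rw [interior_Ici] at hy
      exact hn y (le_of_lt hy)
  exact h0.trans (hm Set.self_mem_Ici hx hx)

lemma expd (x : ℝ) : HasDerivAt (fun y : ℝ => exp (-y)) (-exp (-x)) x := by
  have := (hasDerivAt_neg x).exp
  simpa using this

lemma e0 : ∀ x : ℝ, 0 ≤ x → 0 ≤ 1 - exp (-x) := by
  intro x hx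
  have : exp (-x) ≤ 1 := exp_le_one_iff.mpr (by linarith)
  linarith

lemma e1 : ∀ x : ℝ, 0 ≤ x → 0 ≤ exp (-x) - (1 - x) := by
  apply step _ (fun x => 1 - exp (-x)) (by simp) _ e0
  intro x
  have := (expd x).sub ((hasDerivAt_const x (1 : ℝ)).sub (hasDerivAt_id x))
  exact this.congr_deriv (by ring)

lemma e2 : ∀ x : ℝ, 0 ≤ x → 0 ≤ 1 - x + x ^ 2 / 2 - exp (-x) := by
  apply step _ (fun x => exp (-x) - (1 - x)) (by simp) _ e1
  intro x
  have := ((((hasDerivAt_const x (1 : ℝ)).sub (hasDerivAt_id x)).add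
    ((hasDerivAt_pow 2 x).div_const 2))).sub (expd x)
  exact this.congr_deriv (by norm_num; try ring)

lemma e3 : ∀ x : ℝ, 0 ≤ x → 0 ≤ exp (-x) - (1 - x + x ^ 2 / 2 - x ^ 3 / 6) := by
  apply step _ (fun x => 1 - x + x ^ 2 / 2 - exp (-x)) (by simp) _ e2
  intro x
  have := (expd x).sub ((((hasDerivAt_const x (1 : ℝ)).sub (hasDerivAt_id x)).add
    ((hasDerivAt_pow 2 x).div_const 2)).sub ((hasDerivAt_pow 3 x).div_const 6))
  exact this.congr_deriv (by norm_num; try ring)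

lemma e4 : ∀ x : ℝ, 0 ≤ x → 0 ≤ 1 - x + x ^ 2 / 2 - x ^ 3 / 6 + x ^ 4 / 24 - exp (-x) := by
  apply step _ (fun x => exp (-x) - (1 - x + x ^ 2 / 2 - x ^ 3 / 6)) (by simp) _ e3
  intro x
  have := (((((hasDerivAt_const x (1 : ℝ)).sub (hasDerivAt_id x)).add
    ((hasDerivAt_pow 2 x).div_const 2)).sub ((hasDerivAt_pow 3 x).div_const 6)).add
    ((hasDerivAt_pow 4 x).div_const 24)).sub (expd x)
  exact this.congr_deriv (by norm_num; try ring)

lemma e5 : ∀ x : ℝ, 0 ≤ x →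
    0 ≤ exp (-x) - (1 - x + x ^ 2 / 2 - x ^ 3 / 6 + x ^ 4 / 24 - x ^ 5 / 120) := by
  apply step _ (fun x => 1 - x + x ^ 2 / 2 - x ^ 3 / 6 + x ^ 4 / 24 - exp (-x)) (by simp) _ e4
  intro x
  have := (expd x).sub ((((((hasDerivAt_const x (1 : ℝ)).sub (hasDerivAt_id x)).add
    ((hasDerivAt_pow 2 x).div_const 2)).sub ((hasDerivAt_pow 3 x).div_const 6)).add
    ((hasDerivAt_pow 4 x).div_const 24)).sub ((hasDerivAt_pow 5 x).div_const 120))
  exact this.congr_deriv (by norm_num; try ring)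

lemma e6 : ∀ x : ℝ, 0 ≤ x →
    0 ≤ 1 - x + x ^ 2 / 2 - x ^ 3 / 6 + x ^ 4 / 24 - x ^ 5 / 120 + x ^ 6 / 720 - exp (-x) := by
  apply step _ (fun x => exp (-x) - (1 - x + x ^ 2 / 2 - x ^ 3 / 6 + x ^ 4 / 24 - x ^ 5 / 120))
    (by simp) _ e5
  intro x
  have := (((((((hasDerivAt_const x (1 : ℝ)).sub (hasDerivAt_id x)).add
    ((hasDerivAt_pow 2 x).div_const 2)).sub ((hasDerivAt_pow 3 x).div_const 6)).add
    ((hasDerivAt_pow 4 x).div_const 24)).sub ((hasDerivAt_pow 5 x).div_const 120)).add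
    ((hasDerivAt_pow 6 x).div_const 720)).sub (expd x)
  exact this.congr_deriv (by norm_num; try ring)

/-- the comparison polynomial -/
noncomputable def Pol (y : ℝ) : ℝ :=
  1 - y + y ^ 2 / 2 - y ^ 3 / 6 + y ^ 4 / 24 - y ^ 5 / 120 + y ^ 6 / 720

/-- its antiderivative after multiplication -/
noncomputable def Anti (x : ℝ) : ℝ :=
  (9 / 10 : ℝ) * x ^ 1 + (-7 / 30 : ℝ) * x ^ 3 + (31 / 800 : ℝ) * x ^ 5 + (-13 / 4480 : ℝ) * x ^ 7 + (-11 / 110592 : ℝ) * x ^ 9 + (1 / 26400 : ℝ) * x ^ 11 + (-67 / 31948800 : ℝ) * x ^ 13 + (-53 / 884736000 : ℝ) * x ^ 15 + (407 / 12834570240 : ℝ) * x ^ 17 + (-5 / 956301312 : ℝ) * x ^ 19 + (-1681 / 1268357529600 : ℝ) * x ^ 21 + (-583 / 5556613939200 : ℝ) * x ^ 23 + (-89 / 21474836480000 : ℝ) * x ^ 25 + (-7 / 83494164234240 : ℝ) * x ^ 27 + (-1 / 1434862674247680 : ℝ) * x ^ 29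

lemma anti_deriv (x : ℝ) : HasDerivAt Anti
    (Pol (2 * (x ^ 2 / 4 + x ^ 4 / 64)) * (9 / 10 - (x ^ 2 / 4 + x ^ 4 / 64))) x := by
  unfold Anti
  have h := fun (n : ℕ) (c : ℝ) => (hasDerivAt_pow n x).const_mul c
  have := (((((((((((((((h 1 (9 / 10)).add (h 3 (-7 / 30))).add (h 5 (31 / 800))).add (h 7 (-13 / 4480))).add (h 9 (-11 / 110592))).add (h 11 (1 / 26400))).add (h 13 (-67 / 31948800))).add (h 15 (-53 / 884736000))).add (h 17 (407 / 12834570240))).add (h 19 (-5 / 956301312))).add (h 21 (-1681 / 1268357529600))).add (h 23 (-583 / 5556613939200))).add (h 25 (-89 / 21474836480000))).add (h 27 (-7 / 83494164234240))).add (h 29 (-1 / 1434862674247680)))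
  refine this.congr_deriv ?_
  unfold Pol
  norm_num
  ring

lemma E4_eq (t : ℝ) : E4 2 t = t ^ 2 / 4 + t ^ 4 / 64 := by
  unfold E4
  norm_num
  try ring

end D_two_aux

theorem D_two : ∫ t in Ioi (0 : ℝ), exp (-(2 * E4 2 t)) * max 0 (9 / 10 - E4 2 t) ≤
    (9 / 10 - 1 / 4) * (1 / 2) * (2 : ℝ) ^ ((1 : ℝ) / 2) * Real.Gamma (1 / 2) := by
  simp only [D_two_aux.E4_eq]
  set f : ℝ → ℝ := fun t => exp (-(2 * (t ^ 2 / 4 + t ^ 4 / 64))) *
    max 0 (9 / 10 - (t ^ 2 / 4 + t ^ 4 / 64)) with hf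
  have hfc : Continuous f := by
    rw [hf]
    fun_prop
  have hE : ∀ s t : ℝ, 0 ≤ s → s ≤ t → s ^ 2 / 4 + s ^ 4 / 64 ≤ t ^ 2 / 4 + t ^ 4 / 64 := by
    intro s t hs hst
    have h2 : s ^ 2 ≤ t ^ 2 := pow_le_pow_left₀ hs hst 2
    have h4 : s ^ 4 ≤ t ^ 4 := pow_le_pow_left₀ hs hst 4
    linarith
  have hz : ∀ t : ℝ, (87 / 50 : ℝ) ≤ t → f t = 0 := by
    intro t ht
    have := hE (87 / 50) t (by norm_num) ht
    have h0 : 9 / 10 - (t ^ 2 / 4 + t ^ 4 / 64) ≤ 0 := by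
      norm_num at this
      linarith
    simp only [hf]
    rw [max_eq_left h0, mul_zero]
  have h1 : ∫ t in Ioi (0 : ℝ), f t = ∫ t in Ioc (0 : ℝ) (87 / 50), f t := by
    apply setIntegral_eq_of_subset_of_forall_sdiff_eq_zero measurableSet_Ioi
    · exact fun x hx => hx.1
    · intro x hx
      apply hz
      by_contra hc
      push Not at hc
      exact hx.2 ⟨hx.1, le_of_lt hc⟩
  rw [h1, ← intervalIntegral.integral_of_le (by norm_num)]
  have hii : ∀ a b : ℝ, IntervalIntegrable f volume a b := fun a b => hfc.intervalIntegrable a b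
  rw [← intervalIntegral.integral_add_adjacent_intervals (hii 0 (1739 / 1000))
    (hii (1739 / 1000) (87 / 50))]
  have hA : ∫ t in (0 : ℝ)..(1739 / 1000), f t ≤ D_two_aux.Anti (1739 / 1000) - D_two_aux.Anti 0 := by
    have hpc : Continuous (fun x : ℝ => D_two_aux.Pol (2 * (x ^ 2 / 4 + x ^ 4 / 64)) *
        (9 / 10 - (x ^ 2 / 4 + x ^ 4 / 64))) := by
      unfold D_two_aux.Pol
      fun_prop
    rw [← intervalIntegral.integral_eq_sub_of_hasDerivAt
      (fun x _ => D_two_aux.anti_deriv x) (hpc.intervalIntegrable _ _)]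
    apply intervalIntegral.integral_mono_on (by norm_num) (hii _ _) (hpc.intervalIntegrable _ _)
    intro x hx
    have hx0 : 0 ≤ x := hx.1
    have hb := hE x (1739 / 1000) hx0 hx.2
    have hb2 : 0 ≤ 9 / 10 - (x ^ 2 / 4 + x ^ 4 / 64) := by
      norm_num at hb
      linarith
    simp only [hf]
    rw [max_eq_right hb2]
    apply mul_le_mul_of_nonneg_right _ hb2
    have hn : 0 ≤ x ^ 2 / 4 + x ^ 4 / 64 := by positivity
    have := D_two_aux.e6 (2 * (x ^ 2 / 4 + x ^ 4 / 64)) (by linarith)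
    unfold D_two_aux.Pol
    linarith
  have hB : ∫ t in (1739 / 1000 : ℝ)..(87 / 50), f t ≤ 1 / 100000 := by
    have hle : ∫ t in (1739 / 1000 : ℝ)..(87 / 50), f t ≤ ∫ t in (1739 / 1000 : ℝ)..(87 / 50), (1 / 100 : ℝ) := by
      apply intervalIntegral.integral_mono_on (by norm_num) (hii _ _)
        (continuous_const.intervalIntegrable _ _)
      intro x hx
      have hb := hE (1739 / 1000) x (by norm_num) hx.1
      have hx0 : (0 : ℝ) ≤ x := le_trans (by norm_num) hx.1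
      have hm : max 0 (9 / 10 - (x ^ 2 / 4 + x ^ 4 / 64)) ≤ 1 / 100 := by
        apply max_le (by norm_num)
        norm_num at hb
        linarith
      have he : exp (-(2 * (x ^ 2 / 4 + x ^ 4 / 64))) ≤ 1 := by
        apply exp_le_one_iff.mpr
        have hn : 0 ≤ x ^ 2 / 4 + x ^ 4 / 64 := by positivity
        linarith
      simp only [hf]
      calc _ ≤ 1 * (1 / 100 : ℝ) := mul_le_mul he hm (le_max_left _ _) (by norm_num)
        _ = 1 / 100 := by norm_num
    refine hle.trans ?_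
    rw [intervalIntegral.integral_const]
    norm_num
  have hC : D_two_aux.Anti (1739 / 1000) - D_two_aux.Anti 0 ≤ 8139 / 10000 := by
    unfold D_two_aux.Anti
    norm_num
  have hD : (8146 / 10000 : ℝ) ≤ (9 / 10 - 1 / 4) * (1 / 2) * (2 : ℝ) ^ ((1 : ℝ) / 2) * Real.Gamma (1 / 2) := by
    rw [Real.Gamma_one_half_eq, ← Real.sqrt_eq_rpow]
    have hs2 : (14142 / 10000 : ℝ) ≤ √2 := Real.le_sqrt_of_sq_le (by norm_num)
    have hsp : (17724 / 10000 : ℝ) ≤ √π := by
      apply Real.le_sqrt_of_sq_le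
      have := Real.pi_gt_d6
      norm_num at this ⊢
      linarith
    have := mul_le_mul hs2 hsp (by norm_num) (Real.sqrt_nonneg 2)
    norm_num at this ⊢
    nlinarith
  linarith

end

section

namespace D_three_aux

/-- alternating Taylor remainder of `exp (-y)` -/
theorem taylor (n : ℕ) : ∀ y : ℝ, 0 ≤ y →
    0 ≤ (-1 : ℝ) ^ n * (exp (-y) - ∑ k ∈ Finset.range n, (-y) ^ k / (k.factorial : ℝ)) := by
  induction n with
  | zero => intro y _; simpa using (exp_pos (-y)).le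
  | succ n ih =>
    intro y hy
    have hd : ∀ x : ℝ, HasDerivAt (fun y : ℝ => (-1 : ℝ) ^ (n + 1) *
        (exp (-y) - ∑ k ∈ Finset.range (n + 1), (-y) ^ k / (k.factorial : ℝ)))
        ((-1 : ℝ) ^ n * (exp (-x) - ∑ k ∈ Finset.range n, (-x) ^ k / (k.factorial : ℝ))) x := by
      intro x
      have h1 : HasDerivAt (fun y : ℝ => exp (-y)) (-exp (-x)) x := by
        have := (hasDerivAt_neg x).exp
        simpa using this
      have h2 : HasDerivAt (fun y : ℝ => ∑ k ∈ Finset.range (n + 1), (-y) ^ k / (k.factorial : ℝ))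
          (∑ k ∈ Finset.range (n + 1), ((k : ℝ) * (-x) ^ (k - 1) * (-1)) / (k.factorial : ℝ)) x := by
        refine HasDerivAt.fun_sum fun k _ => ?_
        exact ((hasDerivAt_neg x).pow k).div_const _
      have h3 : (∑ k ∈ Finset.range (n + 1), ((k : ℝ) * (-x) ^ (k - 1) * (-1)) /
          (k.factorial : ℝ)) = -∑ k ∈ Finset.range n, (-x) ^ k / (k.factorial : ℝ) := by
        rw [Finset.sum_range_succ', ← Finset.sum_neg_distrib]
        simp only [Nat.cast_zero, zero_mul, zero_div, add_zero]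
        refine Finset.sum_congr rfl fun k _ => ?_
        rw [Nat.factorial_succ]
        have hk : ((k : ℝ) + 1) ≠ 0 := by positivity
        have hf : (k.factorial : ℝ) ≠ 0 := by positivity
        have hk1 : k + 1 - 1 = k := by omega
        rw [hk1]
        push_cast
        field_simp
      have h4 := (h1.fun_sub h2).const_mul ((-1 : ℝ) ^ (n + 1))
      rw [h3] at h4
      have h5 : (-1 : ℝ) ^ (n + 1) * (-exp (-x) -
          -∑ k ∈ Finset.range n, (-x) ^ k / (k.factorial : ℝ)) =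
          (-1 : ℝ) ^ n * (exp (-x) - ∑ k ∈ Finset.range n, (-x) ^ k / (k.factorial : ℝ)) := by
        rw [pow_succ]; ring
      rw [h5] at h4
      exact h4
    have hmono : MonotoneOn (fun y : ℝ => (-1 : ℝ) ^ (n + 1) *
        (exp (-y) - ∑ k ∈ Finset.range (n + 1), (-y) ^ k / (k.factorial : ℝ))) (Ici 0) := by
      refine monotoneOn_of_deriv_nonneg (convex_Ici 0)
        (fun x _ => (hd x).continuousAt.continuousWithinAt)
        (fun x _ => (hd x).differentiableAt.differentiableWithinAt) ?_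
      intro x hx
      rw [(hd x).deriv]
      rw [interior_Ici] at hx
      exact ih x (le_of_lt hx)
    have h0 := hmono (show (0 : ℝ) ∈ Ici (0 : ℝ) from Set.mem_Ici.2 le_rfl) (show y ∈ Ici (0 : ℝ) from hy) hy
    have hz : (fun y : ℝ => (-1 : ℝ) ^ (n + 1) *
        (exp (-y) - ∑ k ∈ Finset.range (n + 1), (-y) ^ k / (k.factorial : ℝ))) 0 = 0 := by
      simp only [neg_zero, exp_zero]
      rw [Finset.sum_range_succ']
      simp
    rw [hz] at h0
    exact h0

theorem exp_le (y : ℝ) (hy : 0 ≤ y) :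
    exp (-y) ≤ 1 - y + y ^ 2 / 2 - y ^ 3 / 6 + y ^ 4 / 24 - y ^ 5 / 120 + y ^ 6 / 720 := by
  have h := taylor 7 y hy
  simp only [Finset.sum_range_succ, Finset.sum_range_zero, Nat.factorial] at h
  push_cast at h
  have e : (-1 : ℝ) ^ 7 = -1 := by norm_num
  rw [e] at h
  nlinarith [h]

/-- coefficients of the comparison polynomial -/
noncomputable def c : ℕ → ℝ
  | 0 => 5 / 4
  | 1 => -7 / 12
  | 2 => 19 / 180
  | 3 => -7 / 810
  | 4 => 11 / 97200
  | 5 => 11 / 291600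
  | 6 => -37 / 13122000
  | 7 => 19 / 157464000
  | 8 => 289 / 18895680000
  | 9 => -1 / 453496320
  | 10 => -227 / 850305600000
  | 11 => -299 / 25509168000000
  | 12 => -403 / 1530550080000000
  | 13 => -7 / 2295825120000000
  | 14 => -1 / 68874753600000000
  | _ => 0

/-- the comparison polynomial -/
noncomputable def g (t : ℝ) : ℝ := (∑ k ∈ Finset.range 15, c k * t ^ (2 * k + 1)) + 1 / 100

theorem g_eq (t : ℝ) : g t = (1 - (2 * E4 3 t) + (2 * E4 3 t) ^ 2 / 2 - (2 * E4 3 t) ^ 3 / 6 +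
    (2 * E4 3 t) ^ 4 / 24 - (2 * E4 3 t) ^ 5 / 120 + (2 * E4 3 t) ^ 6 / 720) *
    (5 / 4 - E4 3 t) * t + 1 / 100 := by
  have hE : E4 3 t = t ^ 2 / 6 + t ^ 4 / 180 := by
    unfold E4; push_cast; ring
  rw [hE]
  simp only [g, Finset.sum_range_succ, Finset.sum_range_zero, c]
  ring

theorem g_int : ∫ t in (0 : ℝ)..(5 / 2), g t ≤ 9 / 8 := by
  unfold g
  rw [intervalIntegral.integral_add, intervalIntegral.integral_finsetSum]
  · simp only [intervalIntegral.integral_const_mul, integral_pow]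
    simp only [Finset.sum_range_succ, Finset.sum_range_zero, c]
    norm_num
  · intro i _
    exact (Continuous.intervalIntegrable (by fun_prop) _ _)
  · exact (Continuous.intervalIntegrable (by fun_prop) _ _)
  · exact (Continuous.intervalIntegrable (by fun_prop) _ _)

theorem E4_nonneg (t : ℝ) : 0 ≤ E4 3 t := by unfold E4; positivity

theorem le_g (t : ℝ) (h0 : 0 ≤ t) (h1 : t ≤ 5 / 2) :
    exp (-(2 * E4 3 t)) * max 0 (5 / 4 - E4 3 t) * t ≤ g t := by
  have hE0 := E4_nonneg t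
  have hy : 0 ≤ 2 * E4 3 t := by linarith
  have hexp := exp_le (2 * E4 3 t) hy
  rw [g_eq]
  rcases le_total (E4 3 t) (5 / 4) with h | h
  · rw [max_eq_right (by linarith)]
    have := mul_le_mul_of_nonneg_right (mul_le_mul_of_nonneg_right hexp
      (by linarith : 0 ≤ 5 / 4 - E4 3 t)) h0
    linarith
  · rw [max_eq_left (by linarith)]
    have hE1 : E4 3 t ≤ 1.2588 := by
      have hE : E4 3 t = t ^ 2 / 6 + t ^ 4 / 180 := by
        unfold E4; push_cast; ring
      rw [hE]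
      have h2 : t ^ 2 ≤ (5 / 2) ^ 2 := pow_le_pow_left₀ h0 h1 2
      have h4 : t ^ 4 ≤ (5 / 2) ^ 4 := pow_le_pow_left₀ h0 h1 4
      norm_num at h2 h4 ⊢
      linarith
    set z := 2 * E4 3 t with hz
    have hz0 : (2.5 : ℝ) ≤ z := by norm_num; linarith
    have hz1 : z ≤ 2.5176 := by norm_num at hE1 ⊢; linarith
    have hS : 1 - z + z ^ 2 / 2 - z ^ 3 / 6 + z ^ 4 / 24 - z ^ 5 / 120 + z ^ 6 / 720 ≤ 0.3 := by
      have a2 : z ^ 2 ≤ 2.5176 ^ 2 := pow_le_pow_left₀ (by linarith) hz1 2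
      have a3 : 2.5 ^ 3 ≤ z ^ 3 := pow_le_pow_left₀ (by norm_num) hz0 3
      have a4 : z ^ 4 ≤ 2.5176 ^ 4 := pow_le_pow_left₀ (by linarith) hz1 4
      have a5 : 2.5 ^ 5 ≤ z ^ 5 := pow_le_pow_left₀ (by norm_num) hz0 5
      have a6 : z ^ 6 ≤ 2.5176 ^ 6 := pow_le_pow_left₀ (by linarith) hz1 6
      norm_num at a2 a3 a4 a5 a6 hz0 hz1 ⊢
      linarith
    have hS0 : 0 ≤ 1 - z + z ^ 2 / 2 - z ^ 3 / 6 + z ^ 4 / 24 - z ^ 5 / 120 + z ^ 6 / 720 :=
      (exp_pos _).le.trans hexp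
    set S := 1 - z + z ^ 2 / 2 - z ^ 3 / 6 + z ^ 4 / 24 - z ^ 5 / 120 + z ^ 6 / 720 with hSdef
    have h5 : (E4 3 t - 5 / 4) * t ≤ 0.0088 * (5 / 2) :=
      mul_le_mul (by norm_num at hE1 ⊢; linarith) h1 h0 (by norm_num)
    have h6 : S * ((E4 3 t - 5 / 4) * t) ≤ 0.3 * (0.0088 * (5 / 2)) :=
      mul_le_mul hS h5 (mul_nonneg (by linarith) h0) (by norm_num)
    norm_num at h6 ⊢
    nlinarith [h6]

theorem zero_beyond (t : ℝ) (h1 : 5 / 2 < t) :
    exp (-(2 * E4 3 t)) * max 0 (5 / 4 - E4 3 t) * t = 0 := by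
  have hE : E4 3 t = t ^ 2 / 6 + t ^ 4 / 180 := by
    unfold E4; push_cast; ring
  have h2 : (5 / 2) ^ 2 ≤ t ^ 2 := pow_le_pow_left₀ (by norm_num) h1.le 2
  have h4 : (5 / 2) ^ 4 ≤ t ^ 4 := pow_le_pow_left₀ (by norm_num) h1.le 4
  have : 5 / 4 - E4 3 t ≤ 0 := by
    rw [hE]; norm_num at h2 h4 ⊢; linarith
  rw [max_eq_left this]
  ring

end D_three_aux

theorem D_three : ∫ t in Ioi (0 : ℝ), exp (-(2 * E4 3 t)) * max 0 (5 / 4 - E4 3 t) * t ≤
    (5 / 4 - 2 / 4) * (1 / 2) * 3 * Real.Gamma 1 := by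
  have hcE : Continuous (E4 3) := by unfold E4; fun_prop
  have hcf : Continuous fun t : ℝ => exp (-(2 * E4 3 t)) * max 0 (5 / 4 - E4 3 t) * t := by
    fun_prop
  have hcg : Continuous D_three_aux.g := by unfold D_three_aux.g; fun_prop
  have e1 : ∫ t in Ioi (0 : ℝ), exp (-(2 * E4 3 t)) * max 0 (5 / 4 - E4 3 t) * t =
      ∫ t in Ioc (0 : ℝ) (5 / 2), exp (-(2 * E4 3 t)) * max 0 (5 / 4 - E4 3 t) * t := by
    refine setIntegral_eq_of_subset_of_forall_sdiff_eq_zero measurableSet_Ioi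
      Ioc_subset_Ioi_self ?_
    intro t ht
    refine D_three_aux.zero_beyond t ?_
    by_contra hh
    exact ht.2 ⟨ht.1, not_lt.1 hh⟩
  rw [e1, ← intervalIntegral.integral_of_le (by norm_num)]
  have h1 : ∫ t in (0 : ℝ)..(5 / 2), exp (-(2 * E4 3 t)) * max 0 (5 / 4 - E4 3 t) * t ≤
      ∫ t in (0 : ℝ)..(5 / 2), D_three_aux.g t :=
    intervalIntegral.integral_mono_on (by norm_num) (hcf.intervalIntegrable _ _)
      (hcg.intervalIntegrable _ _) (fun t ht => D_three_aux.le_g t ht.1 ht.2)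
  have h2 := D_three_aux.g_int
  rw [Real.Gamma_one]
  norm_num at h1 h2 ⊢
  linarith

end

section

namespace D_four_aux

/-- truncated exponential series at `-y` -/
noncomputable def T (n : ℕ) (y : ℝ) : ℝ := ∑ k ∈ Finset.range (n + 1), (-y) ^ k / (k.factorial : ℝ)

theorem hasDerivAt_T (n : ℕ) (y : ℝ) : HasDerivAt (T (n + 1)) (-(T n y)) y := by
  unfold T
  have h : ∀ k ∈ Finset.range (n + 2), HasDerivAt (fun y : ℝ => (-y) ^ k / (k.factorial : ℝ))
      ((k : ℝ) * (-y) ^ (k - 1) * (-1) / (k.factorial : ℝ)) y := by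
    intro k _
    exact (((hasDerivAt_id y).neg).pow k).div_const _
  have h2 := HasDerivAt.fun_sum h
  refine h2.congr_deriv ?_
  rw [Finset.sum_range_succ']
  simp only [Nat.cast_zero, zero_mul, zero_div, add_zero]
  rw [← Finset.sum_neg_distrib]
  refine Finset.sum_congr rfl ?_
  intro k _
  rw [Nat.factorial_succ]
  have : (k.factorial : ℝ) ≠ 0 := by positivity
  have : ((k : ℝ) + 1) ≠ 0 := by positivity
  push_cast
  field_simp
  try simp
  try ring

theorem alt (n : ℕ) : ∀ y : ℝ, 0 ≤ y → 0 ≤ (-1) ^ n * (T n y - exp (-y)) := by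
  induction n with
  | zero =>
    intro y hy
    have : exp (-y) ≤ 1 := by
      rw [exp_le_one_iff]; linarith
    simp [T]
    linarith
  | succ n ih =>
    intro y hy
    have hd : ∀ x : ℝ, HasDerivAt (fun x => (-1) ^ (n + 1) * (T (n + 1) x - exp (-x)))
        ((-1) ^ n * (T n x - exp (-x))) x := by
      intro x
      have h1 := (hasDerivAt_T n x)
      have h2 : HasDerivAt (fun x : ℝ => exp (-x)) (exp (-x) * (-1)) x :=
        ((hasDerivAt_id x).neg).exp
      have h3 := (h1.sub h2).const_mul ((-1 : ℝ) ^ (n + 1))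
      refine h3.congr_deriv ?_
      ring
    have hm : MonotoneOn (fun x => (-1) ^ (n + 1) * (T (n + 1) x - exp (-x))) (Ici (0 : ℝ)) := by
      apply monotoneOn_of_deriv_nonneg (convex_Ici 0)
      · exact fun x _ => (hd x).continuousAt.continuousWithinAt
      · exact fun x _ => (hd x).differentiableAt.differentiableWithinAt
      · intro x hx
        rw [(hd x).deriv]
        apply ih
        rw [interior_Ici] at hx
        exact le_of_lt hx
    have h0 := hm (mem_Ici.2 le_rfl) (mem_Ici.2 hy) hy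
    have h00 : (-1 : ℝ) ^ (n + 1) * (T (n + 1) 0 - exp (-0)) = 0 := by
      have : T (n + 1) 0 = 1 := by
        unfold T
        rw [Finset.sum_range_succ']
        simp
      rw [this]
      simp
    simp only at h0
    rw [h00] at h0
    exact h0

theorem exp_le_T6 (y : ℝ) (hy : 0 ≤ y) : exp (-y) ≤ T 6 y := by
  have := alt 6 y hy
  norm_num at this
  exact this

/-- coefficients -/
noncomputable def c : Fin 15 → ℝ := ![(377/250), (-251/500), (163/2400), (-877/192000), (709/6144000), (439/92160000), (-12023/26542080000), (5897/212336640000), (7573/8153726976000), (-2293/16307453952000), (-47/5096079360000), (-847/3478923509760000), (-30373/9017369737297920000), (-7/288555831593533440), (-1/13850679916489605120)]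

theorem int_poly (T0 : ℝ) : ∫ t in (0 : ℝ)..T0, ∑ j : Fin 15, c j * t ^ (2 * (j : ℕ) + 2) =
    ∑ j : Fin 15, c j * (T0 ^ (2 * (j : ℕ) + 3) / (2 * (j : ℕ) + 3)) := by
  rw [intervalIntegral.integral_finsetSum]
  · refine Finset.sum_congr rfl ?_
    intro j _
    rw [intervalIntegral.integral_const_mul, integral_pow]
    push_cast
    simp
    left
    ring
  · intro j _
    apply Continuous.intervalIntegrable
    fun_prop

theorem g_eq (t : ℝ) : T 6 (2 * E4 4 t) * (3 / 2 + 8 / 1000 - E4 4 t) * t ^ 2 =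
    ∑ j : Fin 15, c j * t ^ (2 * (j : ℕ) + 2) := by
  simp only [T, E4, c, Finset.sum_range_succ, Finset.sum_range_zero, Fin.sum_univ_succ, Nat.factorial]
  simp
  ring

theorem E4_eq (t : ℝ) : E4 4 t = t ^ 2 / 8 + t ^ 4 / 384 := by
  simp only [E4]
  norm_num

theorem E4_nonneg (t : ℝ) : 0 ≤ E4 4 t := by
  rw [E4_eq]; positivity

theorem E4_mono {s t : ℝ} (hs : 0 ≤ s) (hst : s ≤ t) : E4 4 s ≤ E4 4 t := by
  rw [E4_eq, E4_eq]
  have h1 : s ^ 2 ≤ t ^ 2 := pow_le_pow_left₀ hs hst 2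
  have h2 : s ^ 4 ≤ t ^ 4 := pow_le_pow_left₀ hs hst 4
  linarith

theorem E4_316 : E4 4 (316 / 100) ≤ 3 / 2 + 8 / 1000 ∧ 3 / 2 ≤ E4 4 (316 / 100) := by
  rw [E4_eq]; norm_num

theorem pointwise (t : ℝ) (ht : 0 < t) :
    exp (-(2 * E4 4 t)) * max 0 (3 / 2 - E4 4 t) * t ^ 2 ≤
      (Ioc (0 : ℝ) (316 / 100)).indicator
        (fun t => ∑ j : Fin 15, c j * t ^ (2 * (j : ℕ) + 2)) t := by
  by_cases h : t ≤ 316 / 100
  · rw [indicator_of_mem (show t ∈ Ioc (0 : ℝ) (316 / 100) from ⟨ht, h⟩)]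
    rw [← g_eq]
    have h1 : exp (-(2 * E4 4 t)) ≤ T 6 (2 * E4 4 t) :=
      exp_le_T6 _ (by have := E4_nonneg t; linarith)
    have h2 : max 0 (3 / 2 - E4 4 t) ≤ 3 / 2 + 8 / 1000 - E4 4 t := by
      apply max_le
      · have := E4_mono ht.le h
        have := E4_316.1
        linarith
      · linarith
    have h3 : 0 ≤ max 0 (3 / 2 - E4 4 t) := le_max_left _ _
    have h4 := exp_pos (-(2 * E4 4 t))
    apply mul_le_mul_of_nonneg_right _ (by positivity)
    exact mul_le_mul h1 h2 h3 (h4.le.trans h1)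
  · rw [indicator_of_notMem (fun hh => h hh.2)]
    have h5 : max 0 (3 / 2 - E4 4 t) = 0 := by
      apply max_eq_left
      have := E4_mono (by norm_num : (0 : ℝ) ≤ 316 / 100) (not_le.1 h).le
      have := E4_316.2
      linarith
    rw [h5]
    simp

theorem rhs_ge : (26586 / 10000 : ℝ) ≤
    (3 / 2 - 3 / 4) * (1 / 2) * (4 : ℝ) ^ ((3 : ℝ) / 2) * Real.Gamma (3 / 2) := by
  have h1 : (4 : ℝ) ^ ((3 : ℝ) / 2) = 8 := by
    have : (4 : ℝ) = 2 ^ (2 : ℝ) := by norm_num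
    rw [this, ← rpow_mul (by norm_num)]
    norm_num
  have h2 : Real.Gamma (3 / 2) = 1 / 2 * sqrt π := by
    have := Real.Gamma_add_one (s := 1 / 2) (by norm_num)
    rw [Real.Gamma_one_half_eq] at this
    rw [← this]
    norm_num
  have h3 : (17724 / 10000 : ℝ) ≤ sqrt π := by
    apply Real.le_sqrt_of_sq_le
    have := Real.pi_gt_d4
    norm_num at this ⊢
    linarith
  rw [h1, h2]
  linarith

theorem val_le : ∑ j : Fin 15, c j * ((316 / 100 : ℝ) ^ (2 * (j : ℕ) + 3) / (2 * (j : ℕ) + 3)) ≤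
    26586 / 10000 := by
  simp only [c, Fin.sum_univ_succ]
  simp
  norm_num

theorem cont_poly : Continuous (fun t : ℝ => ∑ j : Fin 15, c j * t ^ (2 * (j : ℕ) + 2)) := by
  fun_prop

theorem main : ∫ t in Ioi (0 : ℝ), exp (-(2 * E4 4 t)) * max 0 (3 / 2 - E4 4 t) * t ^ 2 ≤
    (3 / 2 - 3 / 4) * (1 / 2) * (4 : ℝ) ^ ((3 : ℝ) / 2) * Real.Gamma (3 / 2) := by
  have hint : Integrable ((Ioc (0 : ℝ) (316 / 100)).indicator
      (fun t : ℝ => ∑ j : Fin 15, c j * t ^ (2 * (j : ℕ) + 2))) := by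
    rw [integrable_indicator_iff measurableSet_Ioc]
    exact (cont_poly.integrableOn_Icc (a := 0) (b := 316 / 100)).mono_set Ioc_subset_Icc_self
  calc ∫ t in Ioi (0 : ℝ), exp (-(2 * E4 4 t)) * max 0 (3 / 2 - E4 4 t) * t ^ 2
      ≤ ∫ t in Ioi (0 : ℝ), (Ioc (0 : ℝ) (316 / 100)).indicator
        (fun t => ∑ j : Fin 15, c j * t ^ (2 * (j : ℕ) + 2)) t := by
        apply integral_mono_of_nonneg
        · filter_upwards with t
          have h3 : 0 ≤ max 0 (3 / 2 - E4 4 t) := le_max_left _ _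
          have h4 := exp_pos (-(2 * E4 4 t))
          simp only [Pi.zero_apply]
          positivity
        · exact hint.integrableOn
        · refine (ae_restrict_iff' measurableSet_Ioi).2 ?_
          filter_upwards with t ht
          exact pointwise t ht
    _ = ∫ t in Ioc (0 : ℝ) (316 / 100), ∑ j : Fin 15, c j * t ^ (2 * (j : ℕ) + 2) := by
        rw [setIntegral_indicator measurableSet_Ioc]
        congr 2
        ext t
        simp only [mem_inter_iff, mem_Ioi, mem_Ioc]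
        tauto
    _ = ∫ t in (0 : ℝ)..(316 / 100), ∑ j : Fin 15, c j * t ^ (2 * (j : ℕ) + 2) := by
        rw [intervalIntegral.integral_of_le (by norm_num)]
    _ = ∑ j : Fin 15, c j * ((316 / 100 : ℝ) ^ (2 * (j : ℕ) + 3) / (2 * (j : ℕ) + 3)) :=
        int_poly _
    _ ≤ 26586 / 10000 := val_le
    _ ≤ _ := rhs_ge

end D_four_aux

theorem D_four : ∫ t in Ioi (0 : ℝ), exp (-(2 * E4 4 t)) * max 0 (3 / 2 - E4 4 t) * t ^ 2 ≤
    (3 / 2 - 3 / 4) * (1 / 2) * (4 : ℝ) ^ ((3 : ℝ) / 2) * Real.Gamma (3 / 2) :=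
  D_four_aux.main

end

section

namespace D_five_aux

/-- the polynomial -/
noncomputable def Q (s : ℝ) : ℝ :=
  15 / 2 + 3 / 2 * s - 8 / 35 * s ^ 2 + 3 / 700 * s ^ 3 + 13 / 196000 * s ^ 4 +
    37 / 4900000 * s ^ 5

/-- its derivative -/
noncomputable def Q' (s : ℝ) : ℝ :=
  3 / 2 - 16 / 35 * s + 9 / 700 * s ^ 2 + 13 / 49000 * s ^ 3 + 37 / 980000 * s ^ 4

/-- the combination which appears in the derivative of the comparison function -/
noncomputable def A (s : ℝ) : ℝ := (1 / 5 + s / 175) * Q s - Q' s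

theorem E_eq (t : ℝ) : E4 5 t = t ^ 2 / 10 + t ^ 4 / 700 := by
  unfold E4; norm_num

theorem hasDeriv (t : ℝ) : HasDerivAt (fun t => -(exp (-(2 * E4 5 t)) * Q (t ^ 2)))
    (exp (-(2 * E4 5 t)) * (2 * t * A (t ^ 2))) t := by
  have h1 : HasDerivAt (fun t : ℝ => -(2 * E4 5 t)) (-(2 * (t / 5 + t ^ 3 / 175))) t := by
    have h2 : HasDerivAt (fun t : ℝ => -(2 * (t ^ 2 / 10 + t ^ 4 / 700)))
        (-(2 * (((2 : ℕ) : ℝ) * t ^ 1 / 10 + ((4 : ℕ) : ℝ) * t ^ 3 / 700))) t :=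
      ((((hasDerivAt_pow 2 t).div_const 10).add ((hasDerivAt_pow 4 t).div_const 700)).const_mul
        2).neg
    have h3 : (fun t : ℝ => -(2 * E4 5 t)) = fun t : ℝ => -(2 * (t ^ 2 / 10 + t ^ 4 / 700)) := by
      funext t; rw [E_eq]
    rw [h3]
    convert! h2 using 1
    push_cast
    ring
  have h4 : HasDerivAt (fun t : ℝ => Q (t ^ 2)) (2 * t * Q' (t ^ 2)) t := by
    have h5 : HasDerivAt Q (Q' (t ^ 2)) (t ^ 2) := by
      have h6 := ((((((hasDerivAt_const (t ^ 2) (15 / 2 : ℝ)).add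
        ((hasDerivAt_id (t ^ 2)).const_mul (3 / 2 : ℝ))).sub
        ((hasDerivAt_pow 2 (t ^ 2)).const_mul (8 / 35 : ℝ))).add
        ((hasDerivAt_pow 3 (t ^ 2)).const_mul (3 / 700 : ℝ))).add
        ((hasDerivAt_pow 4 (t ^ 2)).const_mul (13 / 196000 : ℝ))).add
        ((hasDerivAt_pow 5 (t ^ 2)).const_mul (37 / 4900000 : ℝ)))
      convert! h6 using 1
      unfold Q'
      push_cast
      ring
    have h7 : HasDerivAt (fun t : ℝ => Q (t ^ 2)) (Q' (t ^ 2) * (((2 : ℕ) : ℝ) * t ^ (2 - 1))) t :=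
      HasDerivAt.comp (h₂ := Q) (h := fun t : ℝ => t ^ 2) t h5 (hasDerivAt_pow 2 t)
    convert! h7 using 1
    push_cast
    ring
  have h8 := ((h1.exp).mul h4).neg
  convert! h8 using 1
  unfold A
  ring

theorem A_eq (s : ℝ) : A s = s / 2 * (8 / 5 - (s / 10 + s ^ 2 / 700)) +
    ((37 / 24500000 + 13 / 34300000) * s ^ 5 + 37 / 857500000 * s ^ 6) := by
  unfold A Q Q'
  ring

theorem A_ge {s : ℝ} (hs : 0 ≤ s) : s / 2 * (8 / 5 - (s / 10 + s ^ 2 / 700)) ≤ A s := by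
  rw [A_eq]
  have : 0 ≤ (37 / 24500000 + 13 / 34300000) * s ^ 5 + 37 / 857500000 * s ^ 6 := by positivity
  linarith

theorem A_nonneg {s : ℝ} (hs : 0 ≤ s) (hs2 : s ≤ 1369 / 100) : 0 ≤ A s := by
  by_cases h : s / 10 + s ^ 2 / 700 ≤ 8 / 5
  · refine le_trans ?_ (A_ge hs)
    exact mul_nonneg (by linarith) (by linarith)
  · push Not at h
    have h1 : (13 : ℝ) ≤ s := by
      by_contra hcon
      push Not at hcon
      nlinarith
    rw [A_eq]
    have h2 : (13 : ℝ) ^ 5 ≤ s ^ 5 := pow_le_pow_left₀ (by norm_num) h1 5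
    have h3 : (0 : ℝ) ≤ 37 / 857500000 * s ^ 6 := by positivity
    have h4 : -(3 / 10 : ℝ) ≤ s / 2 * (8 / 5 - (s / 10 + s ^ 2 / 700)) := by
      have h5 : s / 10 + s ^ 2 / 700 ≤ 1369 / 1000 + (1369 / 100) ^ 2 / 700 := by
        have := pow_le_pow_left₀ hs hs2 2
        linarith
      have h6 : -(37 / 1000 : ℝ) ≤ 8 / 5 - (s / 10 + s ^ 2 / 700) := by
        have : (1369 / 1000 + (1369 / 100) ^ 2 / 700 : ℝ) ≤ 8 / 5 + 37 / 1000 := by norm_num
        linarith
      nlinarith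
    have h7 : (6 / 10 : ℝ) ≤ (37 / 24500000 + 13 / 34300000) * s ^ 5 := by
      calc (6 / 10 : ℝ) ≤ (37 / 24500000 + 13 / 34300000) * 13 ^ 5 := by norm_num
        _ ≤ (37 / 24500000 + 13 / 34300000) * s ^ 5 := by
          exact mul_le_mul_of_nonneg_left h2 (by norm_num)
    linarith

/-- the integrand -/
noncomputable def F (t : ℝ) : ℝ := exp (-(2 * E4 5 t)) * max 0 (8 / 5 - E4 5 t) * t ^ 3

theorem E_cont : Continuous (fun t => E4 5 t) := by
  have : (fun t => E4 5 t) = fun t : ℝ => t ^ 2 / 10 + t ^ 4 / 700 := funext E_eq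
  rw [this]
  fun_prop

theorem F_cont : Continuous F := by
  unfold F
  have := E_cont
  fun_prop

theorem A_cont : Continuous A := by
  unfold A Q Q'
  fun_prop

theorem F_zero {t : ℝ} (ht : 37 / 10 ≤ t) : F t = 0 := by
  unfold F
  have h1 : (8 / 5 : ℝ) ≤ E4 5 t := by
    rw [E_eq]
    have h2 := pow_le_pow_left₀ (by norm_num : (0 : ℝ) ≤ 37 / 10) ht 2
    have h3 := pow_le_pow_left₀ (by norm_num : (0 : ℝ) ≤ 37 / 10) ht 4
    calc (8 / 5 : ℝ) ≤ (37 / 10) ^ 2 / 10 + (37 / 10) ^ 4 / 700 := by norm_num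
      _ ≤ _ := by linarith
  rw [max_eq_left (by linarith)]
  ring

theorem F_le {t : ℝ} (ht : t ∈ Icc (0 : ℝ) (37 / 10)) :
    F t ≤ exp (-(2 * E4 5 t)) * (2 * t * A (t ^ 2)) := by
  unfold F
  rw [mul_assoc]
  refine mul_le_mul_of_nonneg_left ?_ (exp_pos _).le
  have hs : 0 ≤ t ^ 2 := by positivity
  have hs2 : t ^ 2 ≤ 1369 / 100 := by
    have := pow_le_pow_left₀ ht.1 ht.2 2
    norm_num at this ⊢
    linarith
  have h1 := A_ge hs
  have h2 := A_nonneg hs hs2
  rcases le_total 0 (8 / 5 - E4 5 t) with h | h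
  · rw [max_eq_right h, E_eq]
    have h3 : (t ^ 2) ^ 2 = t ^ 4 := by ring
    rw [h3] at h1
    have h4 := mul_le_mul_of_nonneg_left h1 (mul_nonneg zero_le_two ht.1)
    calc (8 / 5 - (t ^ 2 / 10 + t ^ 4 / 700)) * t ^ 3 =
        2 * t * (t ^ 2 / 2 * (8 / 5 - (t ^ 2 / 10 + t ^ 4 / 700))) := by ring
      _ ≤ _ := h4
  · rw [max_eq_left h, zero_mul]
    exact mul_nonneg (mul_nonneg zero_le_two ht.1) h2

end D_five_aux

open D_five_aux in
theorem D_five : ∫ t in Ioi (0 : ℝ), exp (-(2 * E4 5 t)) * max 0 (8 / 5 - E4 5 t) * t ^ 3 ≤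
    (8 / 5 - 4 / 4) * (1 / 2) * 5 ^ 2 * Real.Gamma 2 := by
  have h1 : ∫ t in Ioi (0 : ℝ), exp (-(2 * E4 5 t)) * max 0 (8 / 5 - E4 5 t) * t ^ 3 =
      ∫ t in Ioc (0 : ℝ) (37 / 10), F t := by
    refine setIntegral_eq_of_subset_of_forall_sdiff_eq_zero measurableSet_Ioi
      (fun t ht => ht.1) (fun t ht => ?_)
    have h2 : 37 / 10 < t := by
      by_contra hcon
      exact ht.2 ⟨ht.1, not_lt.1 hcon⟩
    exact F_zero h2.le
  rw [h1, ← intervalIntegral.integral_of_le (by norm_num)]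
  have hg : Continuous (fun t => exp (-(2 * E4 5 t)) * (2 * t * A (t ^ 2))) := by
    have := E_cont
    have := A_cont
    fun_prop
  have h3 : ∫ t in (0 : ℝ)..(37 / 10), F t ≤
      ∫ t in (0 : ℝ)..(37 / 10), exp (-(2 * E4 5 t)) * (2 * t * A (t ^ 2)) :=
    intervalIntegral.integral_mono_on (by norm_num) (F_cont.intervalIntegrable _ _)
      (hg.intervalIntegrable _ _) fun t ht => F_le ht
  refine h3.trans ?_
  rw [intervalIntegral.integral_eq_sub_of_hasDerivAt (fun t _ => hasDeriv t)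
    (hg.intervalIntegrable _ _)]
  have h4 : 0 ≤ exp (-(2 * E4 5 (37 / 10))) * Q ((37 / 10) ^ 2) := by
    refine mul_nonneg (exp_pos _).le ?_
    unfold Q
    norm_num
  have h5 : exp (-(2 * E4 5 0)) * Q (0 ^ 2) = 15 / 2 := by
    rw [E_eq]
    unfold Q
    norm_num
  rw [Real.Gamma_two]
  norm_num at h5 ⊢
  linarith

end

end H618KS
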