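import Pool.Agent.Helper618_KS.Defs
import Pool.Agent.Helper618_KS.Bessel
import Pool.Agent.Helper618_KS.Sonin
import Pool.Agent.Helper618_KS.BoundSmall
import Pool.Agent.Helper618_KS.BoundSix
import Pool.Agent.Helper618_KS.DSmall
import Pool.Agent.Helper618_KS.DSixNum
import Pool.Agent.Helper618_KS.Crit
import Pool.Agent.Helper618_KS.Char

/-!
Part `Crit2` of the proof for MP_237b21_an.
-/

open MeasureTheory Filter Topology Set Real
open scoped ENNReal NNReal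

set_option autoImplicit false

namespace H618KS

section

namespace ball_criterion_aux

theorem cont (m : ℕ) (hm : 2 ≤ m) : Continuous (fun t => bj ((m : ℝ) / 2) t) := by
  have h0 : (0 : ℝ) < (m : ℝ) / 2 := by
    have : (2 : ℝ) ≤ m := by exact_mod_cast hm
    linarith
  exact continuous_iff_continuousAt.2 fun t => (bj_hasDerivAt h0 t).continuousAt

/-- the second summand of the test function -/
noncomputable def s2 (m : ℕ) (L t : ℝ) : ℝ :=
  bj ((m : ℝ) / 2) t ^ 2 * max 0 (Real.log |bj ((m : ℝ) / 2) t| + L)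

theorem phi_mono (L : ℝ) {x y : ℝ} (hx : 0 ≤ x) (hxy : x ≤ y) :
    x ^ 2 * max 0 (Real.log x + L) ≤ y ^ 2 * max 0 (Real.log y + L) := by
  rcases hx.eq_or_lt with h | h
  · rw [← h]
    have h1 : (0 : ℝ) ≤ y ^ 2 * max 0 (Real.log y + L) :=
      mul_nonneg (sq_nonneg _) (le_max_left _ _)
    simpa using h1
  · have h1 : Real.log x ≤ Real.log y := Real.log_le_log h hxy
    exact mul_le_mul (pow_le_pow_left₀ hx hxy 2) (max_le_max le_rfl (by linarith))
      (le_max_left _ _) (sq_nonneg _)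

theorem s2_eq (m : ℕ) (L t : ℝ) : s2 m L t = |bj ((m : ℝ) / 2) t| ^ 2 *
    max 0 (Real.log |bj ((m : ℝ) / 2) t| + L) := by
  unfold s2
  rw [sq_abs]

theorem s2_nonneg (m : ℕ) (L t : ℝ) : 0 ≤ s2 m L t :=
  mul_nonneg (sq_nonneg _) (le_max_left _ _)

theorem s2_le (m : ℕ) (hm : 2 ≤ m) {L : ℝ} (hL : 0 < L) (t : ℝ) : s2 m L t ≤ L := by
  rw [s2_eq]
  have h1 := bj_abs_le_one m hm t
  have h2 := phi_mono L (abs_nonneg (bj ((m : ℝ) / 2) t)) h1
  refine h2.trans ?_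
  rw [Real.log_one, zero_add, max_eq_right hL.le]
  simp

theorem s2_meas (m : ℕ) (hm : 2 ≤ m) (L : ℝ) : Measurable (s2 m L) := by
  unfold s2
  have h1 := (cont m hm).measurable
  exact (h1.pow_const 2).mul (measurable_const.max
    ((Real.measurable_log.comp (continuous_abs.measurable.comp h1)).add_const L))

/-- the zero of the first summand -/
noncomputable def t1 (m : ℕ) (L : ℝ) : ℝ := Real.sqrt (2 * m * L)

theorem t1_pos (m : ℕ) (hm : 2 ≤ m) {L : ℝ} (hL : 0 < L) : 0 < t1 m L := by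
  have : (2 : ℝ) ≤ m := by exact_mod_cast hm
  exact Real.sqrt_pos.2 (by positivity)

theorem t1_sq (m : ℕ) (hm : 2 ≤ m) {L : ℝ} (hL : 0 < L) : t1 m L ^ 2 / (2 * m) = L := by
  have h : (2 : ℝ) ≤ m := by exact_mod_cast hm
  unfold t1
  rw [Real.sq_sqrt (by positivity)]
  field_simp

theorem lt_t1 (m : ℕ) (hm : 2 ≤ m) {L : ℝ} (hL : 0 < L) {t : ℝ} (ht : 0 ≤ t) (h : t ≤ t1 m L) :
    t ^ 2 / (2 * m) ≤ L := by
  have h2 : (2 : ℝ) ≤ m := by exact_mod_cast hm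
  rw [← t1_sq m hm hL]
  have h3 : t ^ 2 ≤ t1 m L ^ 2 := pow_le_pow_left₀ ht h 2
  exact div_le_div_of_nonneg_right h3 (by positivity)

theorem t1_lt (m : ℕ) (hm : 2 ≤ m) {L : ℝ} (hL : 0 < L) {t : ℝ} (h : t1 m L ≤ t) :
    L ≤ t ^ 2 / (2 * m) := by
  have h2 : (2 : ℝ) ≤ m := by exact_mod_cast hm
  have h3 : t1 m L ^ 2 ≤ t ^ 2 := pow_le_pow_left₀ (t1_pos m hm hL).le h 2
  calc L = t1 m L ^ 2 / (2 * m) := (t1_sq m hm hL).symm
    _ ≤ _ := div_le_div_of_nonneg_right h3 (by positivity)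

theorem s2_zero (m : ℕ) (hm : 2 ≤ m) {L : ℝ} (hL : 0 < L)
    (hpt : ∀ t : ℝ, 0 ≤ t →
      |bj ((m : ℝ) / 2) t| ≤ max (exp (-(t ^ 2 / (2 * m)))) (exp (-L)))
    {t : ℝ} (h : t1 m L ≤ t) : s2 m L t = 0 := by
  have ht0 : 0 ≤ t := (t1_pos m hm hL).le.trans h
  have h1 := hpt t ht0
  have h2 := t1_lt m hm hL h
  have h3 : exp (-(t ^ 2 / (2 * m))) ≤ exp (-L) := Real.exp_le_exp.2 (by linarith)
  rw [max_eq_right h3] at h1
  rw [s2_eq]
  rcases (abs_nonneg (bj ((m : ℝ) / 2) t)).eq_or_lt with h4 | h4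
  · rw [← h4]; simp
  · have h5 : Real.log |bj ((m : ℝ) / 2) t| ≤ -L := by
      rw [← Real.log_exp (-L)]
      exact Real.log_le_log h4 h1
    rw [max_eq_left (by linarith), mul_zero]

theorem s2_int (m : ℕ) (hm : 2 ≤ m) {L : ℝ} (hL : 0 < L)
    (hpt : ∀ t : ℝ, 0 ≤ t →
      |bj ((m : ℝ) / 2) t| ≤ max (exp (-(t ^ 2 / (2 * m)))) (exp (-L)))
    (w : ℝ → ℝ) (hw : IntegrableOn w (Ioc 0 (t1 m L))) :
    IntegrableOn (fun t => s2 m L t * w t) (Ioi 0) := by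
  rw [← Ioc_union_Ioi_eq_Ioi (t1_pos m hm hL).le, integrableOn_union]
  constructor
  · refine Integrable.mono' (g := fun t => L * |w t|) (hw.abs.const_mul L) ?_ ?_
    · exact (s2_meas m hm L).aestronglyMeasurable.mul hw.aestronglyMeasurable
    · refine Eventually.of_forall fun t => ?_
      rw [norm_mul, Real.norm_eq_abs, Real.norm_eq_abs, abs_of_nonneg (s2_nonneg m L t)]
      exact mul_le_mul_of_nonneg_right (s2_le m hm hL t) (abs_nonneg _)
  · have h0 : IntegrableOn (fun _ : ℝ => (0 : ℝ)) (Ioi (t1 m L)) := integrableOn_zero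
    refine h0.congr_fun ?_ measurableSet_Ioi
    intro t ht
    change (0 : ℝ) = s2 m L t * w t
    rw [s2_zero m hm hL hpt (le_of_lt ht), zero_mul]

/-- the test function -/
noncomputable def hh (m : ℕ) (L t : ℝ) : ℝ :=
  exp (-(t ^ 2 / (2 * m))) ^ 2 * (L - t ^ 2 / (2 * m)) - s2 m L t

theorem hh_nonneg (m : ℕ) (hm : 2 ≤ m) {L : ℝ} (hL : 0 < L)
    (hpt : ∀ t : ℝ, 0 ≤ t →
      |bj ((m : ℝ) / 2) t| ≤ max (exp (-(t ^ 2 / (2 * m)))) (exp (-L)))
    {t : ℝ} (ht : 0 ≤ t) (h : t ≤ t1 m L) : 0 ≤ hh m L t := by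
  have h1 := hpt t ht
  have h2 := lt_t1 m hm hL ht h
  have h3 : exp (-L) ≤ exp (-(t ^ 2 / (2 * m))) := Real.exp_le_exp.2 (by linarith)
  rw [max_eq_left h3] at h1
  have h4 := phi_mono L (abs_nonneg (bj ((m : ℝ) / 2) t)) h1
  rw [← s2_eq, Real.log_exp, max_eq_right (by linarith)] at h4
  unfold hh
  have h5 : exp (-(t ^ 2 / (2 * m))) ^ 2 * (L - t ^ 2 / (2 * m)) =
      exp (-(t ^ 2 / (2 * m))) ^ 2 * (-(t ^ 2 / (2 * m)) + L) := by ring
  rw [h5]
  linarith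

theorem hh_nonpos (m : ℕ) (hm : 2 ≤ m) {L : ℝ} (hL : 0 < L)
    (hpt : ∀ t : ℝ, 0 ≤ t →
      |bj ((m : ℝ) / 2) t| ≤ max (exp (-(t ^ 2 / (2 * m)))) (exp (-L)))
    {t : ℝ} (h : t1 m L ≤ t) : hh m L t ≤ 0 := by
  unfold hh
  rw [s2_zero m hm hL hpt h, sub_zero]
  have h2 := t1_lt m hm hL h
  exact mul_nonpos_of_nonneg_of_nonpos (sq_nonneg _) (by linarith)

theorem hh_weight (m : ℕ) (hm : 2 ≤ m) {L : ℝ} (hL : 0 < L)
    (hpt : ∀ t : ℝ, 0 ≤ t →
      |bj ((m : ℝ) / 2) t| ≤ max (exp (-(t ^ 2 / (2 * m)))) (exp (-L)))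
    {q : ℝ} (hq' : q < m - 1) {t : ℝ} (ht : 0 < t) :
    t1 m L ^ (q - m + 1) * (hh m L t * t ^ (m - 2)) ≤ hh m L t * t ^ (q - 1) := by
  have h1 : t ^ (q - 1) = t ^ (m - 2) * t ^ (q - m + 1) := by
    rw [← Real.rpow_natCast, ← Real.rpow_add ht]
    congr 1
    rw [Nat.cast_sub hm]
    push_cast
    ring
  rw [h1]
  have h2 : (0 : ℝ) ≤ t ^ (m - 2) := by positivity
  have h0 := t1_pos m hm hL
  rcases le_total t (t1 m L) with h | h
  · have h3 := hh_nonneg m hm hL hpt ht.le h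
    have h4 : t1 m L ^ (q - m + 1) ≤ t ^ (q - m + 1) :=
      Real.rpow_le_rpow_of_nonpos ht h (by linarith)
    calc t1 m L ^ (q - m + 1) * (hh m L t * t ^ (m - 2))
        ≤ t ^ (q - m + 1) * (hh m L t * t ^ (m - 2)) :=
          mul_le_mul_of_nonneg_right h4 (mul_nonneg h3 h2)
      _ = hh m L t * (t ^ (m - 2) * t ^ (q - m + 1)) := by ring
  · have h3 := hh_nonpos m hm hL hpt h
    have h4 : t ^ (q - m + 1) ≤ t1 m L ^ (q - m + 1) :=
      Real.rpow_le_rpow_of_nonpos h0 h (by linarith)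
    calc t1 m L ^ (q - m + 1) * (hh m L t * t ^ (m - 2))
        ≤ t ^ (q - m + 1) * (hh m L t * t ^ (m - 2)) :=
          mul_le_mul_of_nonpos_right h4 (mul_nonpos_of_nonpos_of_nonneg h3 h2)
      _ = hh m L t * (t ^ (m - 2) * t ^ (q - m + 1)) := by ring

/-- integrability of the first summand -/
theorem first_int (m : ℕ) (hm : 2 ≤ m) (L : ℝ) {q : ℝ} (hq : 0 < q) :
    IntegrableOn (fun t : ℝ => exp (-(t ^ 2 / (2 * m))) ^ 2 * (L - t ^ 2 / (2 * m)) *
      t ^ (q - 1)) (Ioi 0) := by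
  have h1 := (gauss_pow_int (m := m) (by omega) hq (s := 2) (by norm_num)).1
  have h2 := (gauss_pow_int (m := m) (by omega) (q := q + 2) (by linarith) (s := 2)
    (by norm_num)).1
  have h3 := (h1.const_mul L).sub (h2.const_mul (1 / (2 * (m : ℝ))))
  refine IntegrableOn.congr_fun h3 ?_ measurableSet_Ioi
  intro t ht
  have ht0 : (0 : ℝ) < t := ht
  have e1 : t ^ (q + 2 - 1) = t ^ 2 * t ^ (q - 1) := by
    rw [← Real.rpow_natCast, ← Real.rpow_add ht0]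
    congr 1
    push_cast
    ring
  simp only [Pi.sub_apply]
  rw [e1, Real.rpow_two]
  ring

theorem hh_int_q (m : ℕ) (hm : 2 ≤ m) {L : ℝ} (hL : 0 < L)
    (hpt : ∀ t : ℝ, 0 ≤ t →
      |bj ((m : ℝ) / 2) t| ≤ max (exp (-(t ^ 2 / (2 * m)))) (exp (-L)))
    {q : ℝ} (hq : 0 < q) :
    IntegrableOn (fun t : ℝ => hh m L t * t ^ (q - 1)) (Ioi 0) := by
  have h1 : IntegrableOn (fun t : ℝ => t ^ (q - 1)) (Ioc 0 (t1 m L)) :=
    (intervalIntegrable_iff_integrableOn_Ioc_of_le (t1_pos m hm hL).le).1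
      (intervalIntegral.intervalIntegrable_rpow' (by linarith))
  have h2 := (first_int m hm L hq).sub (s2_int m hm hL hpt _ h1)
  refine IntegrableOn.congr_fun h2 ?_ measurableSet_Ioi
  intro t _
  simp only [Pi.sub_apply]
  unfold hh
  ring

theorem hh_int_m (m : ℕ) (hm : 2 ≤ m) {L : ℝ} (hL : 0 < L)
    (hpt : ∀ t : ℝ, 0 ≤ t →
      |bj ((m : ℝ) / 2) t| ≤ max (exp (-(t ^ 2 / (2 * m)))) (exp (-L)))
    (hint : ∫ t in Ioi (0 : ℝ), bj ((m : ℝ) / 2) t ^ 2 *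
        max 0 (Real.log |bj ((m : ℝ) / 2) t| + L) * t ^ (m - 2) ≤
      (L - ((m : ℝ) - 1) / 4) * (1 / 2) * (m : ℝ) ^ (((m : ℝ) - 1) / 2) *
        Real.Gamma (((m : ℝ) - 1) / 2)) :
    IntegrableOn (fun t : ℝ => hh m L t * t ^ (m - 2)) (Ioi 0) ∧
      0 ≤ ∫ t in Ioi (0 : ℝ), hh m L t * t ^ (m - 2) := by
  have h1 : IntegrableOn (fun t : ℝ => t ^ (m - 2)) (Ioc 0 (t1 m L)) :=
    ((continuous_pow (m - 2)).integrableOn_Icc).mono_set Ioc_subset_Icc_self
  have h2 := s2_int m hm hL hpt _ h1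
  obtain ⟨h3, h4⟩ := gauss_log_int hm L
  have h5 : EqOn (fun t : ℝ => exp (-(t ^ 2 / (2 * m))) ^ 2 * (L - t ^ 2 / (2 * m)) *
      t ^ (m - 2) - s2 m L t * t ^ (m - 2)) (fun t : ℝ => hh m L t * t ^ (m - 2)) (Ioi 0) := by
    intro t _
    simp only
    unfold hh
    ring
  refine ⟨IntegrableOn.congr_fun (h3.sub h2) h5 measurableSet_Ioi, ?_⟩
  rw [← setIntegral_congr_fun measurableSet_Ioi h5, integral_sub h3 h2, h4, sub_nonneg]
  exact hint

theorem hh_q_nonneg (m : ℕ) (hm : 2 ≤ m) {L : ℝ} (hL : 0 < L)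
    (hpt : ∀ t : ℝ, 0 ≤ t →
      |bj ((m : ℝ) / 2) t| ≤ max (exp (-(t ^ 2 / (2 * m)))) (exp (-L)))
    (hint : ∫ t in Ioi (0 : ℝ), bj ((m : ℝ) / 2) t ^ 2 *
        max 0 (Real.log |bj ((m : ℝ) / 2) t| + L) * t ^ (m - 2) ≤
      (L - ((m : ℝ) - 1) / 4) * (1 / 2) * (m : ℝ) ^ (((m : ℝ) - 1) / 2) *
        Real.Gamma (((m : ℝ) - 1) / 2)) {q : ℝ} (hq : 0 < q) (hq' : q < m - 1) :
    0 ≤ ∫ t in Ioi (0 : ℝ), hh m L t * t ^ (q - 1) := by
  obtain ⟨h1, h2⟩ := hh_int_m m hm hL hpt hint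
  have h3 := hh_int_q m hm hL hpt hq
  have h4 : ∫ t in Ioi (0 : ℝ), t1 m L ^ (q - m + 1) * (hh m L t * t ^ (m - 2)) ≤
      ∫ t in Ioi (0 : ℝ), hh m L t * t ^ (q - 1) :=
    setIntegral_mono_on (h1.const_mul _) h3 measurableSet_Ioi
      fun t ht => hh_weight m hm hL hpt hq' ht
  refine le_trans ?_ h4
  rw [integral_const_mul]
  exact mul_nonneg (Real.rpow_nonneg (t1_pos m hm hL).le _) h2

/-- the pointwise inequality, scaled -/
theorem point (m : ℕ) {L : ℝ}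
    (hpt : ∀ t : ℝ, 0 ≤ t →
      |bj ((m : ℝ) / 2) t| ≤ max (exp (-(t ^ 2 / (2 * m)))) (exp (-L)))
    {s : ℝ} (hs : 2 ≤ s) {t : ℝ} (ht : 0 ≤ t) :
    (s - 2) * exp (-L) ^ (s - 2) * hh m L t ≤
      (exp (-(t ^ 2 / (2 * m))) ^ s - exp (-L) ^ (s - 2) * exp (-(t ^ 2 / (2 * m))) ^ (2 : ℝ)) -
      (|bj ((m : ℝ) / 2) t| ^ s - exp (-L) ^ (s - 2) * bj ((m : ℝ) / 2) t ^ 2) := by
  have h1 := hpt t ht
  set y := exp (-L) with hy
  set g := exp (-(t ^ 2 / (2 * m))) with hg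
  set f := |bj ((m : ℝ) / 2) t| with hf
  have hy0 : 0 < y := Real.exp_pos _
  have hg0 : 0 < g := Real.exp_pos _
  have hf0 : 0 ≤ f := abs_nonneg _
  have hsq : bj ((m : ℝ) / 2) t ^ 2 = f ^ 2 := by rw [hf, sq_abs]
  have h2 : f / y ≤ max (g / y) 1 := by
    rw [div_le_iff₀ hy0]
    rcases le_max_iff.1 h1 with h | h
    · refine h.trans ?_
      rw [← div_le_iff₀ hy0]
      exact le_max_left _ _
    · refine h.trans ?_
      calc y = 1 * y := (one_mul y).symm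
        _ ≤ _ := mul_le_mul_of_nonneg_right (le_max_right _ _) hy0.le
  have np := np_pointwise (F := f / y) (G := g / y) (s := s) (by positivity) (by positivity) h2 hs
  have hys : 0 < y ^ s := Real.rpow_pos_of_pos hy0 s
  have key := mul_le_mul_of_nonneg_left np hys.le
  have e0 : y ^ s = y ^ (s - 2) * y ^ 2 := by
    rw [← Real.rpow_natCast y 2, ← Real.rpow_add hy0]
    congr 1
    push_cast
    ring
  have e1 : y ^ s * (g / y) ^ s = g ^ s := by
    rw [← Real.mul_rpow hy0.le (by positivity)]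
    congr 1
    field_simp
  have e2 : y ^ s * (f / y) ^ s = f ^ s := by
    rw [← Real.mul_rpow hy0.le (by positivity)]
    congr 1
    field_simp
  have e3 : y ^ s * (g / y) ^ 2 = y ^ (s - 2) * g ^ 2 := by
    rw [e0]; field_simp
  have e4 : y ^ s * (f / y) ^ 2 = y ^ (s - 2) * f ^ 2 := by
    rw [e0]; field_simp
  have e5 : Real.log (g / y) = L - t ^ 2 / (2 * m) := by
    rw [Real.log_div hg0.ne' hy0.ne', hg, hy, Real.log_exp, Real.log_exp]
    ring
  have e6 : f ^ 2 * max 0 (Real.log (f / y)) = f ^ 2 * max 0 (Real.log f + L) := by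
    rcases hf0.eq_or_lt with h | h
    · rw [← h]; simp
    · rw [Real.log_div h.ne' hy0.ne', hy, Real.log_exp, sub_neg_eq_add]
  have e7 : hh m L t = g ^ 2 * (L - t ^ 2 / (2 * m)) - f ^ 2 * max 0 (Real.log f + L) := by
    unfold hh
    rw [s2_eq]
  have l1 : y ^ s * ((s - 2) * ((g / y) ^ 2 * Real.log (g / y) -
      (f / y) ^ 2 * max 0 (Real.log (f / y)))) = (s - 2) * y ^ (s - 2) * hh m L t := by
    calc y ^ s * ((s - 2) * ((g / y) ^ 2 * Real.log (g / y) -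
        (f / y) ^ 2 * max 0 (Real.log (f / y))))
        = (s - 2) * ((y ^ s * (g / y) ^ 2) * Real.log (g / y) -
          (y ^ s * (f / y) ^ 2) * max 0 (Real.log (f / y))) := by ring
      _ = (s - 2) * (y ^ (s - 2) * g ^ 2 * Real.log (g / y) -
          y ^ (s - 2) * (f ^ 2 * max 0 (Real.log (f / y)))) := by rw [e3, e4]; ring
      _ = (s - 2) * y ^ (s - 2) * hh m L t := by rw [e5, e6, e7]; ring
  have l2 : y ^ s * ((g / y) ^ s - (g / y) ^ 2 - ((f / y) ^ s - (f / y) ^ 2)) =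
      (g ^ s - y ^ (s - 2) * g ^ 2) - (f ^ s - y ^ (s - 2) * f ^ 2) := by
    rw [← e1, ← e2, ← e3, ← e4]; ring
  rw [l1, l2] at key
  rw [hsq, Real.rpow_two]
  exact key

theorem lam_le {q L s : ℝ} (hq : 0 < q) (hqL : q / 4 ≤ L) (hs : 2 ≤ s) :
    (s / 2) ^ (q / 2) * exp (-L) ^ (s - 2) ≤ 1 := by
  have h1 : s / 2 ≤ exp (s / 2 - 1) := by
    have := Real.add_one_le_exp (s / 2 - 1)
    linarith
  have h2 : (s / 2) ^ (q / 2) ≤ exp ((s / 2 - 1) * (q / 2)) := by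
    rw [Real.exp_mul]
    exact Real.rpow_le_rpow (by linarith) h1 (by linarith)
  have h3 : exp (-L) ^ (s - 2) = exp (-L * (s - 2)) := (Real.exp_mul _ _).symm
  rw [h3]
  calc (s / 2) ^ (q / 2) * exp (-L * (s - 2))
      ≤ exp ((s / 2 - 1) * (q / 2)) * exp (-L * (s - 2)) :=
        mul_le_mul_of_nonneg_right h2 (Real.exp_pos _).le
    _ = exp ((s - 2) * (q / 4 - L)) := by rw [← Real.exp_add]; congr 1; ring
    _ ≤ 1 := by
        rw [Real.exp_le_one_iff]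
        exact mul_nonpos_of_nonneg_of_nonpos (by linarith) (by linarith)
end ball_criterion_aux

theorem ball_criterion (m : ℕ) (hm : 2 ≤ m) (L : ℝ) (hL : ((m : ℝ) - 1) / 4 ≤ L)
    (hpt : ∀ t : ℝ, 0 ≤ t →
      |bj ((m : ℝ) / 2) t| ≤ max (exp (-(t ^ 2 / (2 * m)))) (exp (-L)))
    (hint : ∫ t in Ioi (0 : ℝ), bj ((m : ℝ) / 2) t ^ 2 *
        max 0 (Real.log |bj ((m : ℝ) / 2) t| + L) * t ^ (m - 2) ≤
      (L - ((m : ℝ) - 1) / 4) * (1 / 2) * (m : ℝ) ^ (((m : ℝ) - 1) / 2) *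
        Real.Gamma (((m : ℝ) - 1) / 2))
    {q : ℝ} (hq : 0 < q) (hq' : q < m - 1) {s : ℝ} (hs : 2 ≤ s) :
    s ^ (q / 2) * ∫ t in Ioi (0 : ℝ), |bj ((m : ℝ) / 2) t| ^ s * t ^ (q - 1) ≤
      max (2 ^ (q / 2) * ∫ t in Ioi (0 : ℝ), bj ((m : ℝ) / 2) t ^ 2 * t ^ (q - 1))
        (∫ t in Ioi (0 : ℝ), exp (-(t ^ 2 / (2 * m))) * t ^ (q - 1)) := by
  have hm2 : (2 : ℝ) ≤ m := by exact_mod_cast hm
  have hL0 : 0 < L := by linarith
  have hs0 : 0 < s := by linarith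
  -- the integrals
  obtain ⟨i1, j1⟩ := gauss_pow_int (m := m) (by omega) hq hs0
  obtain ⟨i2, j2⟩ := gauss_pow_int (m := m) (by omega) hq (s := 2) (by norm_num)
  obtain ⟨-, j3⟩ := gauss_pow_int (m := m) (by omega) hq (s := 1) (by norm_num)
  have i4 := bj_sq_integrable m hm hq hq'
  set J : ℝ := (1 / 2) * (2 * (m : ℝ)) ^ (q / 2) * Real.Gamma (q / 2) with hJ
  have j3' : ∫ t in Ioi (0 : ℝ), exp (-(t ^ 2 / (2 * m))) * t ^ (q - 1) = J := by
    have e1 : ∫ t in Ioi (0 : ℝ), exp (-(t ^ 2 / (2 * m))) * t ^ (q - 1) =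
        ∫ t in Ioi (0 : ℝ), exp (-(t ^ 2 / (2 * m))) ^ (1 : ℝ) * t ^ (q - 1) := by
      simp only [Real.rpow_one]
    rw [e1, j3, Real.one_rpow, one_mul]
  rw [j3']
  have i5 : IntegrableOn (fun t : ℝ => |bj ((m : ℝ) / 2) t| ^ s * t ^ (q - 1)) (Ioi 0) := by
    refine Integrable.mono' i4 ?_ ?_
    · have c1 := ball_criterion_aux.cont m hm
      have c2 : Measurable (fun t : ℝ => |bj ((m : ℝ) / 2) t| ^ s * t ^ (q - 1)) :=
        ((continuous_abs.measurable.comp c1.measurable).pow_const s).mul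
          (measurable_id.pow_const (q - 1))
      exact c2.aestronglyMeasurable
    · refine (ae_restrict_iff' measurableSet_Ioi).2 (Eventually.of_forall fun t ht => ?_)
      have ht0 : (0 : ℝ) < t := ht
      have h1 := bj_abs_le_one m hm t
      have h2 : (0 : ℝ) ≤ t ^ (q - 1) := Real.rpow_nonneg ht0.le _
      rw [Real.norm_eq_abs, abs_of_nonneg (mul_nonneg (Real.rpow_nonneg (abs_nonneg _) _) h2)]
      refine mul_le_mul_of_nonneg_right ?_ h2
      rw [← sq_abs, ← Real.rpow_two]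
      rcases (abs_nonneg (bj ((m : ℝ) / 2) t)).eq_or_lt with h | h
      · rw [← h, Real.zero_rpow hs0.ne', Real.zero_rpow (by norm_num)]
      · exact Real.rpow_le_rpow_of_exponent_ge h h1 hs
  -- the main inequality
  have hmain : ∫ t in Ioi (0 : ℝ), |bj ((m : ℝ) / 2) t| ^ s * t ^ (q - 1) ≤
      (∫ t in Ioi (0 : ℝ), exp (-(t ^ 2 / (2 * m))) ^ s * t ^ (q - 1)) +
      exp (-L) ^ (s - 2) * ((∫ t in Ioi (0 : ℝ), bj ((m : ℝ) / 2) t ^ 2 * t ^ (q - 1)) -
        ∫ t in Ioi (0 : ℝ), exp (-(t ^ 2 / (2 * m))) ^ (2 : ℝ) * t ^ (q - 1)) := by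
    have k1 := ball_criterion_aux.hh_q_nonneg m hm hL0 hpt hint hq hq'
    have k2 := ball_criterion_aux.hh_int_q m hm hL0 hpt hq
    have k3 : ∫ t in Ioi (0 : ℝ), (s - 2) * exp (-L) ^ (s - 2) *
          (ball_criterion_aux.hh m L t * t ^ (q - 1)) ≤
        ∫ t in Ioi (0 : ℝ), ((exp (-(t ^ 2 / (2 * m))) ^ s * t ^ (q - 1) -
          exp (-L) ^ (s - 2) * (exp (-(t ^ 2 / (2 * m))) ^ (2 : ℝ) * t ^ (q - 1))) -
          (|bj ((m : ℝ) / 2) t| ^ s * t ^ (q - 1) -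
            exp (-L) ^ (s - 2) * (bj ((m : ℝ) / 2) t ^ 2 * t ^ (q - 1)))) := by
      refine setIntegral_mono_on (k2.const_mul _)
        ((i1.sub (i2.const_mul _)).sub (i5.sub (i4.const_mul _))) measurableSet_Ioi
        fun t ht => ?_
      have ht0 : (0 : ℝ) < t := ht
      have h1 := mul_le_mul_of_nonneg_right
        (ball_criterion_aux.point m hpt hs ht0.le) (Real.rpow_nonneg ht0.le (q - 1))
      calc (s - 2) * exp (-L) ^ (s - 2) * (ball_criterion_aux.hh m L t * t ^ (q - 1))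
          = (s - 2) * exp (-L) ^ (s - 2) * ball_criterion_aux.hh m L t * t ^ (q - 1) := by ring
        _ ≤ _ := h1
        _ = _ := by ring
    have i2' : IntegrableOn (fun t : ℝ => exp (-L) ^ (s - 2) *
        (exp (-(t ^ 2 / (2 * m))) ^ (2 : ℝ) * t ^ (q - 1))) (Ioi 0) := i2.const_mul _
    have i4' : IntegrableOn (fun t : ℝ => exp (-L) ^ (s - 2) *
        (bj ((m : ℝ) / 2) t ^ 2 * t ^ (q - 1))) (Ioi 0) := i4.const_mul _
    have i6 : IntegrableOn (fun t : ℝ => exp (-(t ^ 2 / (2 * m))) ^ s * t ^ (q - 1) -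
          exp (-L) ^ (s - 2) * (exp (-(t ^ 2 / (2 * m))) ^ (2 : ℝ) * t ^ (q - 1))) (Ioi 0) :=
      i1.sub i2'
    have i7 : IntegrableOn (fun t : ℝ => |bj ((m : ℝ) / 2) t| ^ s * t ^ (q - 1) -
            exp (-L) ^ (s - 2) * (bj ((m : ℝ) / 2) t ^ 2 * t ^ (q - 1))) (Ioi 0) :=
      i5.sub i4'
    rw [integral_sub i6 i7, integral_sub i1 i2', integral_sub i5 i4',
      integral_const_mul, integral_const_mul, integral_const_mul] at k3
    have k4 : 0 ≤ (s - 2) * exp (-L) ^ (s - 2) *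
        ∫ t in Ioi (0 : ℝ), ball_criterion_aux.hh m L t * t ^ (q - 1) :=
      mul_nonneg (mul_nonneg (by linarith) (Real.rpow_nonneg (Real.exp_pos _).le _)) k1
    have k5 := k4.trans k3
    linarith
  rw [j1, j2] at hmain
  set I2 := ∫ t in Ioi (0 : ℝ), bj ((m : ℝ) / 2) t ^ 2 * t ^ (q - 1) with hI2
  set Is := ∫ t in Ioi (0 : ℝ), |bj ((m : ℝ) / 2) t| ^ s * t ^ (q - 1) with hIs
  have hsq : 0 < s ^ (q / 2) := Real.rpow_pos_of_pos hs0 _
  set lam := (s / 2) ^ (q / 2) * exp (-L) ^ (s - 2) with hlam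
  have hlam1 : lam ≤ 1 := ball_criterion_aux.lam_le hq (by linarith) hs
  have hlam0 : 0 ≤ lam := mul_nonneg (Real.rpow_nonneg (by linarith) _)
    (Real.rpow_nonneg (Real.exp_pos _).le _)
  have e1 : s ^ (q / 2) * s ^ (-(q / 2)) = 1 := by
    rw [← Real.rpow_add hs0, add_neg_cancel, Real.rpow_zero]
  have e2 : (2 : ℝ) ^ (q / 2) * 2 ^ (-(q / 2)) = 1 := by
    rw [← Real.rpow_add (by norm_num), add_neg_cancel, Real.rpow_zero]
  have e3 : s ^ (q / 2) = (s / 2) ^ (q / 2) * 2 ^ (q / 2) := by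
    rw [← Real.mul_rpow (by linarith) (by norm_num)]
    congr 1
    ring
  have h1 := mul_le_mul_of_nonneg_left hmain hsq.le
  have h2 : s ^ (q / 2) * (s ^ (-(q / 2)) * J + exp (-L) ^ (s - 2) *
      (I2 - 2 ^ (-(q / 2)) * J)) = (1 - lam) * J + lam * (2 ^ (q / 2) * I2) := by
    calc s ^ (q / 2) * (s ^ (-(q / 2)) * J + exp (-L) ^ (s - 2) * (I2 - 2 ^ (-(q / 2)) * J))
        = (s ^ (q / 2) * s ^ (-(q / 2))) * J +
          s ^ (q / 2) * exp (-L) ^ (s - 2) * (I2 - 2 ^ (-(q / 2)) * J) := by ring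
      _ = J + (s / 2) ^ (q / 2) * 2 ^ (q / 2) * exp (-L) ^ (s - 2) *
          (I2 - 2 ^ (-(q / 2)) * J) := by rw [e1, ← e3, one_mul]
      _ = J + lam * (2 ^ (q / 2) * I2 - (2 ^ (q / 2) * 2 ^ (-(q / 2))) * J) := by
          rw [hlam]; ring
      _ = (1 - lam) * J + lam * (2 ^ (q / 2) * I2) := by rw [e2]; ring
  rw [h2] at h1
  refine h1.trans ?_
  calc (1 - lam) * J + lam * (2 ^ (q / 2) * I2)
      ≤ (1 - lam) * max (2 ^ (q / 2) * I2) J + lam * max (2 ^ (q / 2) * I2) J :=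
        add_le_add (mul_le_mul_of_nonneg_left (le_max_right _ _) (by linarith))
          (mul_le_mul_of_nonneg_left (le_max_left _ _) hlam0)
    _ = max (2 ^ (q / 2) * I2) J := by ring

end

section

namespace hint_small_aux

theorem pt (x E L : ℝ) (hx : 0 ≤ x) (hL : 0 < L) (h : x ≤ max (exp (-E)) (exp (-L))) :
    x ^ 2 * max 0 (Real.log x + L) ≤ exp (-(2 * E)) * max 0 (L - E) := by
  have h0 : 0 ≤ exp (-(2 * E)) * max 0 (L - E) :=
    mul_nonneg (exp_pos _).le (le_max_left _ _)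
  rcases eq_or_lt_of_le hx with rfl | hx
  · simpa using h0
  rcases le_or_gt (Real.log x + L) 0 with h1 | h1
  · rw [max_eq_left h1, mul_zero]
    exact h0
  · have h2 : exp (-L) < x := by
      rw [← Real.lt_log_iff_exp_lt hx]
      linarith
    have h3 : x ≤ exp (-E) := by
      rcases le_max_iff.1 h with h | h
      · exact h
      · exact absurd h2 (not_lt.2 h)
    have h4 : Real.log x ≤ -E := (Real.log_le_iff_le_exp hx).2 h3
    have h5 : x ^ 2 ≤ exp (-(2 * E)) := by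
      have : exp (-(2 * E)) = exp (-E) ^ 2 := by
        rw [← Real.exp_nat_mul]
        congr 1
        push_cast
        ring
      rw [this]
      exact pow_le_pow_left₀ hx.le h3 2
    refine mul_le_mul h5 ?_ (le_max_left _ _) (exp_pos _).le
    exact max_le_max le_rfl (by linarith)

theorem E4_ge (m : ℕ) (hm : 2 ≤ m) (t : ℝ) : t ^ 2 / (2 * m) ≤ E4 m t := by
  unfold E4
  have h1 : 0 ≤ t ^ 4 / (4 * (m : ℝ) ^ 2 * (m + 2)) := by positivity
  linarith

theorem integrable_rhs (m : ℕ) (hm : 2 ≤ m) (L : ℝ) (hL : 0 < L) :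
    Integrable (fun t : ℝ => exp (-(2 * E4 m t)) * max 0 (L - E4 m t) * t ^ (m - 2)) := by
  have hm0 : (0 : ℝ) < m := by
    have : 0 < m := by omega
    exact_mod_cast this
  refine Continuous.integrable_of_hasCompactSupport ?_ ?_
  · have hE : Continuous (E4 m) := by
      unfold E4
      fun_prop
    fun_prop
  · refine HasCompactSupport.intro (K := Icc (-√(2 * m * L)) (√(2 * m * L))) isCompact_Icc
      fun t ht => ?_
    have h1 : 2 * m * L ≤ t ^ 2 := by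
      by_contra h
      push Not at h
      apply ht
      rw [mem_Icc, ← abs_le]
      exact Real.abs_le_sqrt h.le
    have h2 : L ≤ t ^ 2 / (2 * m) := by
      rw [le_div_iff₀ (by positivity)]
      linarith
    have h3 := E4_ge m hm t
    rw [max_eq_left (by linarith), mul_zero, zero_mul]
end hint_small_aux

theorem hint_small (m : ℕ) (hm : 2 ≤ m) (L : ℝ) (hL : 0 < L)
    (hpt : ∀ t : ℝ, 0 ≤ t → |bj ((m : ℝ) / 2) t| ≤ max (exp (-(E4 m t))) (exp (-L))) :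
    ∫ t in Ioi (0 : ℝ), bj ((m : ℝ) / 2) t ^ 2 *
        max 0 (Real.log |bj ((m : ℝ) / 2) t| + L) * t ^ (m - 2) ≤
      ∫ t in Ioi (0 : ℝ), exp (-(2 * E4 m t)) * max 0 (L - E4 m t) * t ^ (m - 2) := by
  refine integral_mono_of_nonneg ?_ (hint_small_aux.integrable_rhs m hm L hL).integrableOn ?_
  · filter_upwards [ae_restrict_mem measurableSet_Ioi] with t ht
    have ht' : (0 : ℝ) < t := ht
    exact mul_nonneg (mul_nonneg (sq_nonneg _) (le_max_left _ _)) (pow_nonneg ht'.le _)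
  · filter_upwards [ae_restrict_mem measurableSet_Ioi] with t ht
    have ht' : (0 : ℝ) < t := ht
    refine mul_le_mul_of_nonneg_right ?_ (pow_nonneg ht'.le _)
    have h := hint_small_aux.pt _ _ L (abs_nonneg _) hL (hpt t ht'.le)
    rw [sq_abs] at h
    exact h

end

section

namespace hint_six_aux

/-- monotonicity of `x² max 0 (log x + L)` -/
theorem kmono {x y L : ℝ} (hx : 0 ≤ x) (hxy : x ≤ y) :
    x ^ 2 * max 0 (Real.log x + L) ≤ y ^ 2 * max 0 (Real.log y + L) := by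
  rcases hx.eq_or_lt with rfl | hx'
  · rw [zero_pow two_ne_zero, zero_mul]
    positivity
  · have h1 := Real.log_le_log hx' hxy
    have h2 : max 0 (Real.log x + L) ≤ max 0 (Real.log y + L) :=
      max_le_max le_rfl (by linarith)
    have h3 : x ^ 2 ≤ y ^ 2 := pow_le_pow_left₀ hx hxy 2
    exact mul_le_mul h3 h2 (le_max_left _ _) (by positivity)

/-- the integrand -/
noncomputable def FF (m : ℕ) (t : ℝ) : ℝ :=
  bj ((m : ℝ) / 2) t ^ 2 * max 0 (Real.log |bj ((m : ℝ) / 2) t| + (m : ℝ) / 3) * t ^ (m - 2)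

/-- the first majorant -/
noncomputable def g1 (m : ℕ) (t : ℝ) : ℝ :=
  exp (-(2 * E4 m t)) * max 0 ((m : ℝ) / 3 - E4 m t) * t ^ (m - 2)

/-- the second majorant -/
noncomputable def g2 (m : ℕ) (t : ℝ) : ℝ :=
  Asq m / (t * (1 - ((m : ℝ) - 1) * ((m : ℝ) - 3) / (4 * t ^ 2))) *
          ((m : ℝ) / 3 - t ^ 2 / (2 * m))

section
variable (m : ℕ) (hm : 6 ≤ m)
include hm

theorem mpos : (6 : ℝ) ≤ m := by exact_mod_cast hm

theorem FF_nonneg {t : ℝ} (ht : 0 ≤ t) : 0 ≤ FF m t := by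
  unfold FF
  positivity

theorem FF_le_g1 {t : ℝ} (ht : 0 ≤ t) (ht' : t ≤ ((m : ℝ) + 3) / 2) : FF m t ≤ g1 m t := by
  unfold FF g1
  refine mul_le_mul_of_nonneg_right ?_ (by positivity)
  have h1 := kmono (L := (m : ℝ) / 3) (abs_nonneg _) (bound_ge_six_a m hm t ht ht')
  rw [sq_abs, Real.log_exp, ← Real.exp_nat_mul] at h1
  refine h1.trans (le_of_eq ?_)
  congr 2
  · congr 1
    push_cast
    ring
  · ring

theorem den_pos {t : ℝ} (ht : ((m : ℝ) + 3) / 2 ≤ t) :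
    0 < t * (1 - ((m : ℝ) - 1) * ((m : ℝ) - 3) / (4 * t ^ 2)) := by
  have h6 := mpos m hm
  have ht0 : 0 < t := by linarith
  refine mul_pos ht0 ?_
  rw [sub_pos, div_lt_one (by positivity)]
  nlinarith

theorem Asq_nonneg : 0 ≤ Asq m := by
  have h6 := mpos m hm
  have h1 := sonin m (by omega) (t := ((m : ℝ) + 3) / 2) (by linarith)
  refine le_trans ?_ h1
  have h2 := den_pos m hm (t := ((m : ℝ) + 3) / 2) le_rfl
  have h3 : 0 < 1 - ((m : ℝ) - 1) * ((m : ℝ) - 3) / (4 * (((m : ℝ) + 3) / 2) ^ 2) :=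
    (pos_iff_pos_of_mul_pos h2).1 (by linarith)
  positivity

theorem last_nonneg {t : ℝ} (ht' : t ^ 2 ≤ 2 * (m : ℝ) ^ 2 / 3) :
    0 ≤ (m : ℝ) / 3 - t ^ 2 / (2 * m) := by
  have h6 := mpos m hm
  rw [sub_nonneg, div_le_iff₀ (by linarith)]
  calc t ^ 2 ≤ 2 * (m : ℝ) ^ 2 / 3 := ht'
    _ = _ := by ring

theorem FF_le_g2 {t : ℝ} (ht : ((m : ℝ) + 3) / 2 ≤ t) (ht' : t ^ 2 ≤ 2 * (m : ℝ) ^ 2 / 3) :
    FF m t ≤ g2 m t := by
  have h6 := mpos m hm
  have ht0 : 0 < t := by linarith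
  have hd := den_pos m hm ht
  have hA := Asq_nonneg m hm
  have hl := last_nonneg m hm ht'
  have hs := sonin m (by omega) ht0
  have hu : bj ((m : ℝ) / 2) t ^ 2 * t ^ (m - 2) ≤
      Asq m / (t * (1 - ((m : ℝ) - 1) * ((m : ℝ) - 3) / (4 * t ^ 2))) := by
    rw [le_div_iff₀ hd]
    refine le_trans (le_of_eq ?_) hs
    have e : t ^ (m - 1) = t ^ (m - 2) * t := by
      rw [← pow_succ]
      congr 1
      omega
    rw [e]
    ring
  have hmax : bj ((m : ℝ) / 2) t ≠ 0 →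
      max 0 (Real.log |bj ((m : ℝ) / 2) t| + (m : ℝ) / 3) ≤ (m : ℝ) / 3 - t ^ 2 / (2 * m) := by
    intro hne
    refine max_le hl ?_
    have h1 := Real.log_le_log (abs_pos.2 hne) (bound_ge_six_b m hm t ht ht')
    rw [Real.log_exp] at h1
    linarith
  by_cases hz : bj ((m : ℝ) / 2) t = 0
  · have h0 : FF m t = 0 := by
      unfold FF
      rw [hz, zero_pow two_ne_zero, zero_mul, zero_mul]
    rw [h0]
    unfold g2
    exact mul_nonneg (div_nonneg hA hd.le) hl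
  · calc FF m t = (bj ((m : ℝ) / 2) t ^ 2 * t ^ (m - 2)) *
        max 0 (Real.log |bj ((m : ℝ) / 2) t| + (m : ℝ) / 3) := by unfold FF; ring
      _ ≤ _ := mul_le_mul hu (hmax hz) (le_max_left _ _) (div_nonneg hA hd.le)

theorem FF_zero {t : ℝ} (ht : 0 ≤ t) (ht' : 2 * (m : ℝ) ^ 2 / 3 ≤ t ^ 2) : FF m t = 0 := by
  unfold FF
  by_cases hz : bj ((m : ℝ) / 2) t = 0
  · rw [hz, zero_pow two_ne_zero, zero_mul, zero_mul]
  · have h1 := Real.log_le_log (abs_pos.2 hz) (bound_ge_six_c m hm t ht ht')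
    rw [Real.log_exp] at h1
    rw [max_eq_left (by linarith), mul_zero, zero_mul]

theorem bj_cont : Continuous (bj ((m : ℝ) / 2)) := by
  have h6 := mpos m hm
  refine continuous_iff_continuousAt.2 fun t => ?_
  exact (bj_hasDerivAt (by linarith) t).continuousAt

theorem FF_meas : Measurable (FF m) := by
  have h1 := (bj_cont m hm).measurable
  unfold FF
  exact ((h1.pow_const 2).mul (measurable_const.max
    ((Real.measurable_log.comp h1.abs).add_const _))).mul (measurable_id.pow_const _)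

omit hm in
theorem g1_cont : Continuous (g1 m) := by
  unfold g1 E4
  fun_prop

theorem g2_cont (b : ℝ) : ContinuousOn (g2 m) (Icc (((m : ℝ) + 3) / 2) b) := by
  have h6 := mpos m hm
  unfold g2
  refine ContinuousOn.mul (ContinuousOn.div continuousOn_const ?_ ?_) (by fun_prop)
  · refine continuousOn_id.mul (continuousOn_const.sub (continuousOn_const.div (by fun_prop) ?_))
    intro t ht
    have : 0 < t := by linarith [ht.1]
    positivity
  · intro t ht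
    exact (den_pos m hm ht.1).ne'

theorem tc_le : ((m : ℝ) + 3) / 2 ≤ Real.sqrt (2 * (m : ℝ) ^ 2 / 3) := by
  have h6 := mpos m hm
  apply Real.le_sqrt_of_sq_le
  nlinarith

end

end hint_six_aux

theorem hint_six (m : ℕ) (hm : 6 ≤ m) :
    ∫ t in Ioi (0 : ℝ), bj ((m : ℝ) / 2) t ^ 2 *
        max 0 (Real.log |bj ((m : ℝ) / 2) t| + (m : ℝ) / 3) * t ^ (m - 2) ≤
      (∫ t in (0 : ℝ)..(((m : ℝ) + 3) / 2),
        exp (-(2 * E4 m t)) * max 0 ((m : ℝ) / 3 - E4 m t) * t ^ (m - 2)) +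
      (∫ t in (((m : ℝ) + 3) / 2)..Real.sqrt (2 * (m : ℝ) ^ 2 / 3),
        Asq m / (t * (1 - ((m : ℝ) - 1) * ((m : ℝ) - 3) / (4 * t ^ 2))) *
          ((m : ℝ) / 3 - t ^ 2 / (2 * m))) := by
  have h6 := hint_six_aux.mpos m hm
  set tc : ℝ := ((m : ℝ) + 3) / 2 with htc
  set t1 : ℝ := Real.sqrt (2 * (m : ℝ) ^ 2 / 3) with ht1
  have htc0 : 0 ≤ tc := by rw [htc]; linarith
  have htc1 : tc ≤ t1 := hint_six_aux.tc_le m hm
  have ht10 : 0 ≤ t1 := htc0.trans htc1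
  have ht1sq : t1 ^ 2 = 2 * (m : ℝ) ^ 2 / 3 := Real.sq_sqrt (by positivity)
  have hmeas := hint_six_aux.FF_meas m hm
  -- integrability
  have hg1 : IntervalIntegrable (hint_six_aux.g1 m) volume 0 tc :=
    (hint_six_aux.g1_cont m).intervalIntegrable _ _
  have hg2 : IntervalIntegrable (hint_six_aux.g2 m) volume tc t1 :=
    ContinuousOn.intervalIntegrable_of_Icc htc1 (hint_six_aux.g2_cont m hm t1)
  have hF1 : IntervalIntegrable (hint_six_aux.FF m) volume 0 tc := by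
    refine hg1.mono_fun' hmeas.aestronglyMeasurable ?_
    rw [Set.uIoc_of_le htc0]
    filter_upwards [ae_restrict_mem measurableSet_Ioc] with t ht
    rw [Real.norm_eq_abs, abs_of_nonneg (hint_six_aux.FF_nonneg m hm ht.1.le)]
    exact hint_six_aux.FF_le_g1 m hm ht.1.le ht.2
  have hsq : ∀ t, tc ≤ t → t ≤ t1 → t ^ 2 ≤ 2 * (m : ℝ) ^ 2 / 3 := by
    intro t h1 h2
    rw [← ht1sq]
    exact pow_le_pow_left₀ (htc0.trans h1) h2 2
  have hF2 : IntervalIntegrable (hint_six_aux.FF m) volume tc t1 := by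
    refine hg2.mono_fun' hmeas.aestronglyMeasurable ?_
    rw [Set.uIoc_of_le htc1]
    filter_upwards [ae_restrict_mem measurableSet_Ioc] with t ht
    rw [Real.norm_eq_abs, abs_of_nonneg (hint_six_aux.FF_nonneg m hm (htc0.trans ht.1.le))]
    exact hint_six_aux.FF_le_g2 m hm ht.1.le (hsq t ht.1.le ht.2)
  have hsplit : ∫ t in Ioi (0 : ℝ), hint_six_aux.FF m t =
      (∫ t in (0 : ℝ)..tc, hint_six_aux.FF m t) + ∫ t in tc..t1, hint_six_aux.FF m t := by
    rw [intervalIntegral.integral_add_adjacent_intervals hF1 hF2,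
      intervalIntegral.integral_of_le ht10]
    refine setIntegral_eq_of_subset_of_forall_sdiff_eq_zero measurableSet_Ioi
      Ioc_subset_Ioi_self ?_
    intro t ht
    have h1 : 0 < t := ht.1
    have h2 : t1 < t := by
      by_contra h
      exact ht.2 ⟨h1, not_lt.1 h⟩
    refine hint_six_aux.FF_zero m hm h1.le ?_
    rw [← ht1sq]
    exact pow_le_pow_left₀ ht10 h2.le 2
  change ∫ t in Ioi (0 : ℝ), hint_six_aux.FF m t ≤
    (∫ t in (0 : ℝ)..tc, hint_six_aux.g1 m t) + ∫ t in tc..t1, hint_six_aux.g2 m t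
  rw [hsplit]
  refine add_le_add ?_ ?_
  · exact intervalIntegral.integral_mono_on htc0 hF1 hg1 fun t ht =>
      hint_six_aux.FF_le_g1 m hm ht.1 ht.2
  · exact intervalIntegral.integral_mono_on htc1 hF2 hg2 fun t ht =>
      hint_six_aux.FF_le_g2 m hm ht.1 (hsq t ht.1 ht.2)

end

section

namespace ball_ineq_aux

theorem E4_ge (m : ℕ) (t : ℝ) : t ^ 2 / (2 * m) ≤ E4 m t := by
  unfold E4
  have : 0 ≤ t ^ 4 / (4 * (m : ℝ) ^ 2 * (m + 2)) := by positivity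
  linarith

theorem exp_E4_le (m : ℕ) (t : ℝ) : exp (-(E4 m t)) ≤ exp (-(t ^ 2 / (2 * m))) :=
  exp_le_exp.2 (neg_le_neg (E4_ge m t))

theorem small (m : ℕ) (hm : 2 ≤ m) (L : ℝ) (hL0 : 0 < L) (hL : ((m : ℝ) - 1) / 4 ≤ L)
    (hb : ∀ t : ℝ, 0 ≤ t → |bj ((m : ℝ) / 2) t| ≤ max (exp (-(E4 m t))) (exp (-L)))
    (hD : ∫ t in Ioi (0 : ℝ), exp (-(2 * E4 m t)) * max 0 (L - E4 m t) * t ^ (m - 2) ≤
      (L - ((m : ℝ) - 1) / 4) * (1 / 2) * (m : ℝ) ^ (((m : ℝ) - 1) / 2) *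
        Real.Gamma (((m : ℝ) - 1) / 2))
    {q : ℝ} (hq : 0 < q) (hq' : q < m - 1) {s : ℝ} (hs : 2 ≤ s) :
    s ^ (q / 2) * ∫ t in Ioi (0 : ℝ), |bj ((m : ℝ) / 2) t| ^ s * t ^ (q - 1) ≤
      max (2 ^ (q / 2) * ∫ t in Ioi (0 : ℝ), bj ((m : ℝ) / 2) t ^ 2 * t ^ (q - 1))
        (∫ t in Ioi (0 : ℝ), exp (-(t ^ 2 / (2 * m))) * t ^ (q - 1)) :=
  ball_criterion m hm L hL (fun t ht => (hb t ht).trans (max_le_max (exp_E4_le m t) le_rfl))
    ((hint_small m hm L hL0 hb).trans hD) hq hq' hs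

end ball_ineq_aux

theorem ball_ineq (m : ℕ) (hm : 2 ≤ m) {q : ℝ} (hq : 0 < q) (hq' : q < m - 1) {s : ℝ}
    (hs : 2 ≤ s) :
    s ^ (q / 2) * ∫ t in Ioi (0 : ℝ), |bj ((m : ℝ) / 2) t| ^ s * t ^ (q - 1) ≤
      max (2 ^ (q / 2) * ∫ t in Ioi (0 : ℝ), bj ((m : ℝ) / 2) t ^ 2 * t ^ (q - 1))
        (∫ t in Ioi (0 : ℝ), exp (-(t ^ 2 / (2 * m))) * t ^ (q - 1)) := by
  rcases Nat.lt_or_ge m 6 with h6 | h6
  · have hcases : m = 2 ∨ m = 3 ∨ m = 4 ∨ m = 5 := by omega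
    rcases hcases with h | h | h | h
    · subst h
      refine ball_ineq_aux.small 2 hm (9 / 10) (by norm_num) (by norm_num) (fun t ht => ?_) ?_ hq hq' hs
      · have e : ((2 : ℕ) : ℝ) / 2 = 1 := by norm_num
        rw [e]
        exact bound_two t ht
      · have e1 : (((2 : ℕ) : ℝ) - 1) / 2 = 1 / 2 := by norm_num
        have e2 : (((2 : ℕ) : ℝ) - 1) / 4 = 1 / 4 := by norm_num
        have e3 : ((2 : ℕ) : ℝ) = 2 := by norm_num
        rw [e1, e2, e3]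
        simpa using D_two
    · subst h
      refine ball_ineq_aux.small 3 hm (5 / 4) (by norm_num) (by norm_num) (fun t ht => ?_) ?_ hq hq' hs
      · have e : ((3 : ℕ) : ℝ) / 2 = 3 / 2 := by norm_num
        rw [e]
        exact bound_three t ht
      · have e1 : (((3 : ℕ) : ℝ) - 1) / 2 = 1 := by norm_num
        have e2 : (((3 : ℕ) : ℝ) - 1) / 4 = 2 / 4 := by norm_num
        have e3 : ((3 : ℕ) : ℝ) = 3 := by norm_num
        rw [e1, e2, e3, rpow_one]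
        have e4 : ∀ t : ℝ, t ^ (3 - 2) = t := fun t => by norm_num
        simp only [e4]
        exact D_three
    · subst h
      refine ball_ineq_aux.small 4 hm (3 / 2) (by norm_num) (by norm_num) (fun t ht => ?_) ?_ hq hq' hs
      · have e : ((4 : ℕ) : ℝ) / 2 = 2 := by norm_num
        rw [e]
        exact bound_four t ht
      · have e1 : (((4 : ℕ) : ℝ) - 1) / 2 = 3 / 2 := by norm_num
        have e2 : (((4 : ℕ) : ℝ) - 1) / 4 = 3 / 4 := by norm_num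
        have e3 : ((4 : ℕ) : ℝ) = 4 := by norm_num
        rw [e1, e2, e3]
        exact D_four
    · subst h
      refine ball_ineq_aux.small 5 hm (8 / 5) (by norm_num) (by norm_num) (fun t ht => ?_) ?_ hq hq' hs
      · have e : ((5 : ℕ) : ℝ) / 2 = 5 / 2 := by norm_num
        rw [e]
        exact bound_five t ht
      · have e1 : (((5 : ℕ) : ℝ) - 1) / 2 = 2 := by norm_num
        have e2 : (((5 : ℕ) : ℝ) - 1) / 4 = 4 / 4 := by norm_num
        have e3 : ((5 : ℕ) : ℝ) = 5 := by norm_num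
        rw [e1, e2, e3, rpow_two]
        exact D_five
  · have hm6 : (6 : ℝ) ≤ m := by exact_mod_cast h6
    refine ball_criterion m hm ((m : ℝ) / 3) (by linarith) (fun t ht => ?_)
      ((hint_six m h6).trans (D_ge_six m h6)) hq hq' hs
    rcases le_total t (((m : ℝ) + 3) / 2) with h1 | h1
    · exact (bound_ge_six_a m h6 t ht h1).trans
        ((ball_ineq_aux.exp_E4_le m t).trans (le_max_left _ _))
    · rcases le_total (t ^ 2) (2 * (m : ℝ) ^ 2 / 3) with h2 | h2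
      · exact (bound_ge_six_b m h6 t h1 h2).trans (le_max_left _ _)
      · exact (bound_ge_six_c m h6 t ht h2).trans (le_max_right _ _)

end

end H618KS
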