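import Pool.Agent.Helper618_KS.Defs
import Pool.Agent.Helper618_KS.Bessel
import Pool.Agent.Helper618_KS.Unif
import Pool.Agent.Helper618_KS.Char

/-!
Part `Fourier` of the proof for MP_237b21_an.
-/

open MeasureTheory Filter Topology Set Real
open scoped ENNReal NNReal

set_option autoImplicit false

namespace H618KS

section

namespace gauss_cos_aux

theorem re_integrand {m : ℕ} (x y : EE m) :
    (Complex.exp (-(1 / 2 : ℂ) * ‖y‖ ^ 2 + Complex.I * (inner ℝ x y : ℝ))).re =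
      Real.cos (inner ℝ x y) * exp (-(‖y‖ ^ 2 / 2)) := by
  have e : (-(1 / 2 : ℂ) * ‖y‖ ^ 2 + Complex.I * (inner ℝ x y : ℝ)) =
      ((-(‖y‖ ^ 2 / 2) : ℝ) : ℂ) + ((inner ℝ x y : ℝ) : ℂ) * Complex.I := by
    push_cast
    ring
  rw [e, Complex.exp_re, Complex.add_re, Complex.add_im, Complex.ofReal_re, Complex.ofReal_im,
    Complex.re_ofReal_mul, Complex.im_ofReal_mul, Complex.I_re, Complex.I_im, mul_zero, mul_one,
    add_zero, zero_add, mul_comm]

end gauss_cos_aux

theorem gauss_cos {m : ℕ} (x : EE m) :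
    exp (-(‖x‖ ^ 2 / 2)) = (2 * π) ^ (-((m : ℝ) / 2)) *
      ∫ y : EE m, Real.cos (inner ℝ x y) * exp (-(‖y‖ ^ 2 / 2)) := by
  have hb : 0 < (1 / 2 : ℂ).re := by norm_num
  have hint := GaussianFourier.integrable_cexp_neg_mul_sq_norm_add hb Complex.I x
  have hval := GaussianFourier.integral_cexp_neg_mul_sq_norm_add hb Complex.I x
  have h1 : ∫ y : EE m, Real.cos (inner ℝ x y) * exp (-(‖y‖ ^ 2 / 2)) =
      (∫ y : EE m, Complex.exp (-(1 / 2 : ℂ) * ‖y‖ ^ 2 + Complex.I * (inner ℝ x y : ℝ))).re := by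
    have := integral_re hint
    rw [RCLike.re_eq_complex_re] at this
    rw [← this]
    exact integral_congr_ae (Eventually.of_forall fun y => (gauss_cos_aux.re_integrand x y).symm)
  have hpi : 0 < 2 * π := by positivity
  have h2 : (π / (1 / 2) : ℂ) ^ (Module.finrank ℝ (EE m) / 2 : ℂ) *
      Complex.exp (Complex.I ^ 2 * ‖x‖ ^ 2 / (4 * (1 / 2))) =
      (((2 * π) ^ ((m : ℝ) / 2) * exp (-(‖x‖ ^ 2 / 2)) : ℝ) : ℂ) := by
    rw [finrank_euclideanSpace_fin, Complex.ofReal_mul, Complex.ofReal_cpow hpi.le]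
    push_cast
    congr 2
    · ring
    · rw [Complex.I_sq]; ring
  rw [h1, hval, h2, Complex.ofReal_re, ← mul_assoc, ← Real.rpow_add hpi, neg_add_cancel,
    Real.rpow_zero, one_mul]

end

section

namespace radial_int_aux

theorem ball_real {m : ℕ} (hm : 1 ≤ m) : (volume : Measure (EE m)).real (Metric.ball 0 1) =
    π ^ ((m : ℝ) / 2) / Real.Gamma ((m : ℝ) / 2 + 1) := by
  have : Nonempty (Fin m) := ⟨⟨0, by omega⟩⟩
  have h := EuclideanSpace.volume_ball (ι := Fin m) (0 : EE m) 1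
  rw [Measure.real, h, Fintype.card_fin]
  rw [ENNReal.ofReal_one, one_pow, one_mul, ENNReal.toReal_ofReal (by positivity)]
  congr 1
  rw [Real.sqrt_eq_rpow, ← Real.rpow_natCast, ← Real.rpow_mul Real.pi_pos.le]
  congr 1
  ring

end radial_int_aux

theorem radial_int {m : ℕ} (hm : 1 ≤ m) (F : ℝ → ℝ) :
    ∫ y : EE m, F ‖y‖ = 2 * π ^ ((m : ℝ) / 2) / Real.Gamma ((m : ℝ) / 2) *
      ∫ t in Ioi (0 : ℝ), F t * t ^ (m - 1) := by
  have : Nonempty (Fin m) := ⟨⟨0, by omega⟩⟩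
  have : Nontrivial (EE m) := by
    apply Module.nontrivial_of_finrank_pos (R := ℝ)
    rw [finrank_euclideanSpace, Fintype.card_fin]; omega
  rw [MeasureTheory.integral_fun_norm_addHaar (μ := (volume : Measure (EE m))) (f := F)]
  rw [finrank_euclideanSpace, Fintype.card_fin, radial_int_aux.ball_real hm]
  have hm' : (0 : ℝ) < (m : ℝ) / 2 := by
    have : (0 : ℝ) < m := by exact_mod_cast hm
    linarith
  rw [Real.Gamma_add_one hm'.ne']
  have hG : Real.Gamma ((m : ℝ) / 2) ≠ 0 := (Real.Gamma_pos_of_pos hm').ne'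
  simp only [nsmul_eq_mul, smul_eq_mul]
  have hI : (∫ y in Ioi (0 : ℝ), y ^ (m - 1) * F y) = ∫ t in Ioi (0 : ℝ), F t * t ^ (m - 1) := by
    congr 1; ext y; ring
  rw [hI]
  field_simp

end

section

namespace EN_laplace_aux

theorem integrable_gauss (m : ℕ) : Integrable (fun y : EE m => exp (-(‖y‖ ^ 2 / 2))) := by
  have h := (GaussianFourier.integrable_cexp_neg_mul_sq_norm_add (V := EE m)
    (b := (1 / 2 : ℂ)) (by norm_num) 0 0).norm
  refine h.congr (Filter.Eventually.of_forall fun y => ?_)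
  simp only [inner_zero_left, Complex.ofReal_zero, mul_zero, add_zero, Complex.norm_exp]
  congr 1
  rw [← Complex.ofReal_pow]
  have : (-(1 / 2 : ℂ) * ((‖y‖ ^ 2 : ℝ) : ℂ)) = ((-(‖y‖ ^ 2 / 2) : ℝ) : ℂ) := by
    push_cast
    ring
  rw [this, Complex.ofReal_re]

theorem const_eq (m : ℕ) :
    (2 * π) ^ (-((m : ℝ) / 2)) * (2 * π ^ ((m : ℝ) / 2) / Real.Gamma ((m : ℝ) / 2)) =
      2 ^ (1 - (m : ℝ) / 2) / Real.Gamma ((m : ℝ) / 2) := by
  rw [Real.mul_rpow (by norm_num) Real.pi_pos.le, Real.rpow_neg Real.pi_pos.le,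
    sub_eq_add_neg, Real.rpow_add (by norm_num : (0 : ℝ) < 2), Real.rpow_one]
  have : π ^ ((m : ℝ) / 2) ≠ 0 := (Real.rpow_pos_of_pos Real.pi_pos _).ne'
  field_simp

end EN_laplace_aux

theorem EN_laplace {m n : ℕ} (hm : 2 ≤ m) (a : Fin n → ℝ) {l : ℝ} (hl : 0 < l) :
    ∫ x : Fin n → EE m, exp (-(l * ‖∑ j, a j • x j‖ ^ 2 / 2)) ∂(Measure.pi fun _ => unif m) =
      2 ^ (1 - (m : ℝ) / 2) / Real.Gamma ((m : ℝ) / 2) *
        ∫ t in Ioi (0 : ℝ), (∏ j, bj ((m : ℝ) / 2) (a j * (Real.sqrt l * t))) *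
          (t ^ (m - 1) * exp (-(t ^ 2 / 2))) := by
  have hprob : IsProbabilityMeasure (unif m) := unif_prob (by omega)
  set P : Measure (Fin n → EE m) := Measure.pi fun _ => unif m with hP
  set S : (Fin n → EE m) → EE m := fun x => ∑ j, a j • x j with hS
  have hSc : Continuous S := by
    rw [hS]
    exact continuous_finsetSum _ fun j _ => (continuous_apply j).const_smul (a j)
  have hsq : 0 ≤ Real.sqrt l := Real.sqrt_nonneg l
  have e1 : ∀ x : Fin n → EE m, exp (-(l * ‖S x‖ ^ 2 / 2)) = (2 * π) ^ (-((m : ℝ) / 2)) *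
      ∫ y : EE m, Real.cos (inner ℝ (Real.sqrt l • S x) y) * exp (-(‖y‖ ^ 2 / 2)) := by
    intro x
    rw [← gauss_cos, norm_smul, Real.norm_of_nonneg hsq, mul_pow, Real.sq_sqrt hl.le]
  have e2 : ∫ x, exp (-(l * ‖S x‖ ^ 2 / 2)) ∂P = (2 * π) ^ (-((m : ℝ) / 2)) *
      ∫ x, (∫ y : EE m, Real.cos (inner ℝ (Real.sqrt l • S x) y) * exp (-(‖y‖ ^ 2 / 2))) ∂P := by
    rw [← integral_const_mul]
    exact integral_congr_ae (Filter.Eventually.of_forall fun x => e1 x)
  have hint : Integrable (Function.uncurry fun (x : Fin n → EE m) (y : EE m) =>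
      Real.cos (inner ℝ (Real.sqrt l • S x) y) * exp (-(‖y‖ ^ 2 / 2)))
      (P.prod (volume : Measure (EE m))) := by
    have h1 : Integrable (fun z : (Fin n → EE m) × EE m => exp (-(‖z.2‖ ^ 2 / 2)))
        (P.prod (volume : Measure (EE m))) := (EN_laplace_aux.integrable_gauss m).comp_snd P
    refine h1.mono' ?_ (Filter.Eventually.of_forall fun z => ?_)
    · refine Continuous.aestronglyMeasurable ?_
      refine Continuous.mul ?_ ?_
      · exact Real.continuous_cos.comp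
          (((hSc.comp continuous_fst).const_smul (Real.sqrt l)).inner continuous_snd)
      · exact Real.continuous_exp.comp (((continuous_snd.norm.pow 2).div_const 2).neg)
    · simp only [Function.uncurry]
      rw [norm_mul, Real.norm_of_nonneg (exp_pos _).le]
      refine mul_le_of_le_one_left (exp_pos _).le ?_
      exact Real.abs_cos_le_one _
  have e3 : ∫ x, (∫ y : EE m, Real.cos (inner ℝ (Real.sqrt l • S x) y) *
      exp (-(‖y‖ ^ 2 / 2))) ∂P = ∫ y : EE m, (∫ x, Real.cos (inner ℝ (Real.sqrt l • S x) y) *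
      exp (-(‖y‖ ^ 2 / 2)) ∂P) := integral_integral_swap hint
  have e4 : ∀ y : EE m, (∫ x, Real.cos (inner ℝ (Real.sqrt l • S x) y) *
      exp (-(‖y‖ ^ 2 / 2)) ∂P) = (∏ j, bj ((m : ℝ) / 2) (a j * (Real.sqrt l * ‖y‖))) *
      exp (-(‖y‖ ^ 2 / 2)) := by
    intro y
    rw [integral_mul_const]
    congr 1
    have h1 := char_sum hm a (Real.sqrt l • y)
    rw [norm_smul, Real.norm_of_nonneg hsq] at h1
    rw [← h1]
    refine integral_congr_ae (Filter.Eventually.of_forall fun x => ?_)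
    simp only [hS]
    rw [real_inner_smul_left, real_inner_smul_right]
  have e5 : ∫ y : EE m, (∏ j, bj ((m : ℝ) / 2) (a j * (Real.sqrt l * ‖y‖))) *
      exp (-(‖y‖ ^ 2 / 2)) = 2 * π ^ ((m : ℝ) / 2) / Real.Gamma ((m : ℝ) / 2) *
      ∫ t in Ioi (0 : ℝ), (∏ j, bj ((m : ℝ) / 2) (a j * (Real.sqrt l * t))) *
        exp (-(t ^ 2 / 2)) * t ^ (m - 1) := radial_int (m := m) (by omega)
    (fun t => (∏ j, bj ((m : ℝ) / 2) (a j * (Real.sqrt l * t))) * exp (-(t ^ 2 / 2)))
  rw [e2, e3]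
  simp only [e4]
  rw [e5, ← mul_assoc, EN_laplace_aux.const_eq]
  congr 1
  refine integral_congr_ae (Filter.Eventually.of_forall fun t => ?_)
  simp only
  ring

end

section

namespace EN_gamma_aux
-- auxiliary lemmas here
theorem key {q : ℝ} (hq : 0 < q) {s : ℝ} (hs : 0 ≤ s) :
    ∫⁻ l in Ioi (0 : ℝ), ENNReal.ofReal (l ^ (q / 2 - 1) * exp (-(l * s ^ 2 / 2))) =
      ENNReal.ofReal (2 ^ (q / 2) * Real.Gamma (q / 2)) * (ENNReal.ofReal s) ^ (-q) := by
  have hC : 0 < (2 : ℝ) ^ (q / 2) * Real.Gamma (q / 2) :=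
    mul_pos (by positivity) (Real.Gamma_pos_of_pos (by positivity))
  rcases hs.eq_or_lt with rfl | hs
  · rw [ENNReal.ofReal_zero, ENNReal.zero_rpow_of_neg (by linarith), ENNReal.mul_top (by simpa using hC)]
    by_contra hne
    apply not_integrableOn_Ioi_rpow (q / 2 - 1)
    refine ⟨(measurable_id.pow_const _).aestronglyMeasurable, ?_⟩
    rw [hasFiniteIntegral_iff_norm]
    refine lt_of_eq_of_lt ?_ (lt_top_iff_ne_top.2 hne)
    refine setLIntegral_congr_fun measurableSet_Ioi ?_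
    intro l hl
    have hl' : (0 : ℝ) < l := hl
    simp only [Real.norm_eq_abs]
    rw [abs_of_nonneg (by positivity)]
    simp
  · have h1 := Real.integral_rpow_mul_exp_neg_mul_Ioi (a := q / 2) (r := s ^ 2 / 2) (by positivity) (by positivity)
    have hG : 0 < (1 / (s ^ 2 / 2)) ^ (q / 2) * Real.Gamma (q / 2) :=
      mul_pos (by positivity) (Real.Gamma_pos_of_pos (by positivity))
    have hi : IntegrableOn (fun t : ℝ => t ^ (q / 2 - 1) * exp (-(s ^ 2 / 2 * t))) (Ioi 0) := by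
      by_contra hcon
      rw [integral_undef hcon] at h1
      exact hG.ne h1
    have h2 : ∀ l : ℝ, l ^ (q / 2 - 1) * exp (-(l * s ^ 2 / 2)) = l ^ (q / 2 - 1) * exp (-(s ^ 2 / 2 * l)) := by
      intro l
      congr 3
      ring
    simp only [h2]
    rw [← ofReal_integral_eq_lintegral_ofReal hi, h1]
    · rw [ENNReal.ofReal_rpow_of_pos hs, ← ENNReal.ofReal_mul hC.le]
      congr 1
      rw [one_div_div, Real.div_rpow (by norm_num) (by positivity), ← Real.rpow_natCast s 2, ← Real.rpow_mul hs.le,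
        Real.rpow_neg hs.le]
      have : ((2 : ℕ) : ℝ) * (q / 2) = q := by push_cast; ring
      rw [this]
      field_simp
    · filter_upwards [ae_restrict_mem measurableSet_Ioi] with l hl
      have hl' : (0 : ℝ) < l := hl
      positivity
end EN_gamma_aux

theorem EN_gamma {m n : ℕ} {q : ℝ} (hq : 0 < q) (a : Fin n → ℝ) (hm : 1 ≤ m) :
    EN m q a = ENNReal.ofReal (1 / (2 ^ (q / 2) * Real.Gamma (q / 2))) *
      ∫⁻ l in Ioi (0 : ℝ), ENNReal.ofReal (l ^ (q / 2 - 1) *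
        ∫ x : Fin n → EE m, exp (-(l * ‖∑ j, a j • x j‖ ^ 2 / 2))
          ∂(Measure.pi fun _ => unif m)) := by
  have := unif_prob hm
  have hC : 0 < (2 : ℝ) ^ (q / 2) * Real.Gamma (q / 2) :=
    mul_pos (by positivity) (Real.Gamma_pos_of_pos (by positivity))
  have hpt : ∀ x : Fin n → EE m, ‖∑ j, a j • x j‖ₑ ^ (-q) =
      ENNReal.ofReal (1 / (2 ^ (q / 2) * Real.Gamma (q / 2))) *
      ∫⁻ l in Ioi (0 : ℝ), ENNReal.ofReal (l ^ (q / 2 - 1) * exp (-(l * ‖∑ j, a j • x j‖ ^ 2 / 2))) := by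
    intro x
    rw [EN_gamma_aux.key hq (norm_nonneg _), ← mul_assoc, ← ENNReal.ofReal_mul (by positivity),
      one_div, inv_mul_cancel₀ hC.ne', ENNReal.ofReal_one, one_mul, ofReal_norm]
  have hmeas : Measurable (fun p : (Fin n → EE m) × ℝ =>
      ENNReal.ofReal (p.2 ^ (q / 2 - 1) * exp (-(p.2 * ‖∑ j, a j • p.1 j‖ ^ 2 / 2)))) := by
    apply ENNReal.measurable_ofReal.comp
    apply Measurable.mul
    · exact measurable_snd.pow_const _
    · apply Real.measurable_exp.comp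
      apply Measurable.neg
      apply Measurable.div_const
      apply Measurable.mul measurable_snd
      apply Measurable.pow_const
      apply Measurable.norm
      have : Continuous (fun p : (Fin n → EE m) × ℝ => ∑ j, a j • p.1 j) := by fun_prop
      exact this.measurable
  unfold EN
  rw [lintegral_congr hpt, lintegral_const_mul _ hmeas.lintegral_prod_right', lintegral_lintegral_swap hmeas.aemeasurable]
  congr 1
  refine setLIntegral_congr_fun measurableSet_Ioi ?_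
  intro l hl
  have hl' : (0 : ℝ) < l := hl
  have hcont : Continuous (fun x : Fin n → EE m => exp (-(l * ‖∑ j, a j • x j‖ ^ 2 / 2))) := by fun_prop
  have hint : Integrable (fun x : Fin n → EE m => exp (-(l * ‖∑ j, a j • x j‖ ^ 2 / 2)))
      (Measure.pi fun _ => unif m) := by
    refine Integrable.of_bound hcont.aestronglyMeasurable 1 (Eventually.of_forall fun x => ?_)
    rw [Real.norm_eq_abs, abs_of_pos (exp_pos _)]
    apply Real.exp_le_one_iff.2
    have : 0 ≤ l * ‖∑ j, a j • x j‖ ^ 2 / 2 := by positivity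
    linarith
  simp only
  rw [← integral_const_mul, ofReal_integral_eq_lintegral_ofReal (hint.const_mul _)]
  exact Eventually.of_forall fun x => by positivity

end

section

namespace EN_le_aux

theorem bj_cont {b : ℝ} (hb : 0 < b) : Continuous (bj b) :=
  continuous_iff_continuousAt.2 fun t => (bj_hasDerivAt hb t).continuousAt

theorem prod_cont {m n : ℕ} (hm : 2 ≤ m) (a : Fin n → ℝ) :
    Continuous fun t : ℝ => ∏ j, bj ((m : ℝ) / 2) (a j * t) := by
  have hm0 : (0 : ℝ) < (m : ℝ) / 2 := by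
    have : (2 : ℝ) ≤ m := by exact_mod_cast hm
    linarith
  refine continuous_finsetProd _ fun j _ => ?_
  exact (bj_cont hm0).comp (continuous_const.mul continuous_id)

theorem ofReal_int_le {s : Set ℝ} (g : ℝ → ℝ) :
    ENNReal.ofReal (∫ r in s, g r) ≤ ∫⁻ r in s, ENNReal.ofReal |g r| := by
  calc ENNReal.ofReal (∫ r in s, g r) ≤ ENNReal.ofReal |∫ r in s, g r| :=
        ENNReal.ofReal_le_ofReal (le_abs_self _)
    _ = ‖∫ r in s, g r‖ₑ := (Real.enorm_eq_ofReal_abs _).symm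
    _ ≤ ∫⁻ r in s, ‖g r‖ₑ := enorm_integral_le_lintegral_enorm _
    _ = _ := by simp only [Real.enorm_eq_ofReal_abs]

/-- the substitution `l = t² / r²` -/
theorem subst {q : ℝ} (P : ℝ → ℝ) {r : ℝ} (hr : 0 < r) :
    ∫⁻ l in Ioi (0 : ℝ), ENNReal.ofReal (l ^ (q / 2 - 1) * |P (Real.sqrt l * r)|) =
      ENNReal.ofReal (2 * r ^ (-q)) * ∫⁻ t in Ioi (0 : ℝ), ENNReal.ofReal (|P t| * t ^ (q - 1)) := by
  have himg : (fun t : ℝ => t ^ 2 / r ^ 2) '' Ioi 0 = Ioi 0 := by
    ext l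
    constructor
    · rintro ⟨t, ht, rfl⟩
      have : 0 < t := ht
      change 0 < t ^ 2 / r ^ 2
      positivity
    · intro hl
      have hl' : 0 < l := hl
      refine ⟨Real.sqrt l * r, mul_pos (Real.sqrt_pos.2 hl') hr, ?_⟩
      simp only
      rw [mul_pow, Real.sq_sqrt hl'.le]
      field_simp
  have hinj : InjOn (fun t : ℝ => t ^ 2 / r ^ 2) (Ioi 0) := by
    intro s hs t ht hst
    have hs' : 0 < s := hs
    have ht' : 0 < t := ht
    simp only at hst
    have h1 : s ^ 2 = t ^ 2 := by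
      have hr2 : r ^ 2 ≠ 0 := by positivity
      field_simp at hst
      exact hst
    exact (pow_left_inj₀ hs'.le ht'.le two_ne_zero).1 h1
  have hder : ∀ t ∈ Ioi (0 : ℝ), HasDerivWithinAt (fun t : ℝ => t ^ 2 / r ^ 2) (2 * t / r ^ 2)
      (Ioi 0) t := by
    intro t _
    have h1 := ((hasDerivAt_pow 2 t).div_const (r ^ 2)).hasDerivWithinAt (s := Ioi 0)
    simpa using h1
  have h1 := lintegral_image_eq_lintegral_abs_deriv_mul measurableSet_Ioi hder hinj
    (fun l => ENNReal.ofReal (l ^ (q / 2 - 1) * |P (Real.sqrt l * r)|))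
  rw [himg] at h1
  rw [h1, ← lintegral_const_mul' _ _ ENNReal.ofReal_ne_top]
  refine setLIntegral_congr_fun measurableSet_Ioi fun t ht => ?_
  have ht' : 0 < t := ht
  rw [← ENNReal.ofReal_mul (abs_nonneg _), ← ENNReal.ofReal_mul (by positivity)]
  congr 1
  have e1 : Real.sqrt (t ^ 2 / r ^ 2) * r = t := by
    rw [Real.sqrt_div' _ (by positivity), Real.sqrt_sq ht'.le, Real.sqrt_sq hr.le]
    field_simp
  have e2 : |2 * t / r ^ 2| = 2 * t / r ^ 2 := abs_of_pos (by positivity)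
  rw [e1, e2]
  have e3 : (t ^ 2 / r ^ 2) ^ (q / 2 - 1) = t ^ (q - 2) * r ^ (2 - q) := by
    rw [Real.div_rpow (by positivity) (by positivity), ← Real.rpow_natCast t 2,
      ← Real.rpow_natCast r 2, ← Real.rpow_mul ht'.le, ← Real.rpow_mul hr.le]
    have e4 : ((2 : ℕ) : ℝ) * (q / 2 - 1) = q - 2 := by push_cast; ring
    rw [e4, div_eq_mul_inv, ← Real.rpow_neg hr.le]
    congr 2
    ring
  rw [e3]
  have e5 : t ^ (q - 1) = t * t ^ (q - 2) := by
    have : q - 1 = 1 + (q - 2) := by ring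
    rw [this, Real.rpow_add ht', Real.rpow_one]
  have e6 : r ^ (2 - q) = r ^ 2 * r ^ (-q) := by
    have : 2 - q = ((2 : ℕ) : ℝ) + (-q) := by push_cast; ring
    rw [this, Real.rpow_add hr, Real.rpow_natCast]
  rw [e5, e6]
  field_simp

/-- the Gaussian moment -/
theorem moment {m : ℕ} (hm : 2 ≤ m) {q : ℝ} (hqm : q < m) {c : ℝ} (hc : 0 ≤ c) :
    ∫⁻ r in Ioi (0 : ℝ), ENNReal.ofReal (c * (r ^ (m - 1) * exp (-(r ^ 2 / 2))) * (2 * r ^ (-q))) =
      ENNReal.ofReal (c * (2 ^ (((m : ℝ) - q) / 2) * Real.Gamma (((m : ℝ) - q) / 2))) := by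
  have h1 := integral_rpow_mul_exp_neg_mul_rpow (p := 2) (q := (m : ℝ) - 1 - q) (b := 1 / 2)
    (by norm_num) (by linarith) (by norm_num)
  have h2 := integrableOn_rpow_mul_exp_neg_mul_rpow (p := 2) (s := (m : ℝ) - 1 - q) (b := 1 / 2)
    (by linarith) (by norm_num) (by norm_num)
  have h3 : ∀ r ∈ Ioi (0 : ℝ), c * (r ^ (m - 1) * exp (-(r ^ 2 / 2))) * (2 * r ^ (-q)) =
      (2 * c) * (r ^ ((m : ℝ) - 1 - q) * exp (-(1 / 2) * r ^ (2 : ℝ))) := by
    intro r hr
    have hr' : 0 < r := hr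
    have e1 : r ^ ((m : ℝ) - 1 - q) = r ^ (m - 1) * r ^ (-q) := by
      have : (m : ℝ) - 1 - q = ((m - 1 : ℕ) : ℝ) + (-q) := by
        rw [Nat.cast_sub (by omega)]; push_cast; ring
      rw [this, Real.rpow_add hr', Real.rpow_natCast]
    have e2 : -(1 / 2) * r ^ (2 : ℝ) = -(r ^ 2 / 2) := by
      rw [show (2 : ℝ) = ((2 : ℕ) : ℝ) by norm_num, Real.rpow_natCast]; push_cast; ring
    rw [e1, e2]
    ring
  rw [setLIntegral_congr_fun measurableSet_Ioi fun r hr => by rw [h3 r hr],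
    ← ofReal_integral_eq_lintegral_ofReal (h2.const_mul (2 * c)) (by
      rw [Filter.EventuallyLE, ae_restrict_iff' measurableSet_Ioi]
      refine Eventually.of_forall fun r hr => ?_
      have hr' : 0 < r := hr
      simp only [Pi.zero_apply]
      positivity), integral_const_mul, h1]
  congr 1
  have e3 : ((m : ℝ) - 1 - q + 1) = (m : ℝ) - q := by ring
  rw [e3]
  have e4 : (1 / 2 : ℝ) ^ (-((m : ℝ) - q) / 2) = 2 ^ (((m : ℝ) - q) / 2) := by
    rw [one_div, Real.inv_rpow (by norm_num), ← Real.rpow_neg (by norm_num)]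
    congr 1
    ring
  rw [e4]
  ring

end EN_le_aux

open EN_le_aux in
theorem EN_le {m n : ℕ} (hm : 2 ≤ m) {q : ℝ} (hq : 0 < q) (hqm : q < m) (a : Fin n → ℝ) :
    EN m q a ≤ ENNReal.ofReal (kap m q) *
      ∫⁻ t in Ioi (0 : ℝ), ENNReal.ofReal ((∏ j, |bj ((m : ℝ) / 2) (a j * t)|) * t ^ (q - 1)) := by
  have hm2 : (2 : ℝ) ≤ m := by exact_mod_cast hm
  have hG1 : 0 < Real.Gamma (q / 2) := Real.Gamma_pos_of_pos (by linarith)
  have hG2 : 0 < Real.Gamma ((m : ℝ) / 2) := Real.Gamma_pos_of_pos (by linarith)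
  have hG3 : 0 < Real.Gamma (((m : ℝ) - q) / 2) := Real.Gamma_pos_of_pos (by linarith)
  set P : ℝ → ℝ := fun t => ∏ j, bj ((m : ℝ) / 2) (a j * t) with hP
  have hPc : Continuous P := prod_cont hm a
  have hPabs : ∀ t, ∏ j, |bj ((m : ℝ) / 2) (a j * t)| = |P t| := fun t => (Finset.abs_prod _ _).symm
  simp only [hPabs]
  set I := ∫⁻ t in Ioi (0 : ℝ), ENNReal.ofReal (|P t| * t ^ (q - 1)) with hI
  set c1 : ℝ := 1 / (2 ^ (q / 2) * Real.Gamma (q / 2)) with hc1
  set c2 : ℝ := 2 ^ (1 - (m : ℝ) / 2) / Real.Gamma ((m : ℝ) / 2) with hc2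
  have hc10 : 0 ≤ c1 := by positivity
  have hc20 : 0 ≤ c2 := by positivity
  set w : ℝ → ℝ := fun r => r ^ (m - 1) * exp (-(r ^ 2 / 2)) with hw
  have hwc : Continuous w := by fun_prop
  rw [EN_gamma hq a (by omega)]
  -- first bound
  have step1 : ∫⁻ l in Ioi (0 : ℝ), ENNReal.ofReal (l ^ (q / 2 - 1) *
        ∫ x : Fin n → EE m, exp (-(l * ‖∑ j, a j • x j‖ ^ 2 / 2))
          ∂(Measure.pi fun _ => unif m)) ≤
      ∫⁻ l in Ioi (0 : ℝ), ∫⁻ r in Ioi (0 : ℝ),
        ENNReal.ofReal (c2 * w r) * ENNReal.ofReal (l ^ (q / 2 - 1) * |P (Real.sqrt l * r)|) := by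
    refine setLIntegral_mono' measurableSet_Ioi fun l hl => ?_
    have hl' : 0 < l := hl
    rw [EN_laplace hm a hl']
    have h1 : l ^ (q / 2 - 1) * (c2 * ∫ t in Ioi (0 : ℝ),
        (∏ j, bj ((m : ℝ) / 2) (a j * (Real.sqrt l * t))) * (t ^ (m - 1) * exp (-(t ^ 2 / 2)))) =
        ∫ t in Ioi (0 : ℝ), (l ^ (q / 2 - 1) * c2) * (P (Real.sqrt l * t) * w t) := by
      rw [integral_const_mul]
      ring
    rw [h1]
    refine (ofReal_int_le _).trans ?_
    refine setLIntegral_mono' measurableSet_Ioi fun r hr => ?_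
    have hr' : 0 < r := hr
    have hw0 : 0 ≤ w r := by rw [hw]; positivity
    have hl0 : 0 ≤ l ^ (q / 2 - 1) := by positivity
    rw [← ENNReal.ofReal_mul (by positivity)]
    apply ENNReal.ofReal_le_ofReal
    rw [abs_mul, abs_mul, abs_mul, abs_of_nonneg hl0, abs_of_nonneg hc20, abs_of_nonneg hw0]
    apply le_of_eq
    ring
  have step2 : ∫⁻ l in Ioi (0 : ℝ), ∫⁻ r in Ioi (0 : ℝ),
        ENNReal.ofReal (c2 * w r) * ENNReal.ofReal (l ^ (q / 2 - 1) * |P (Real.sqrt l * r)|) =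
      ∫⁻ r in Ioi (0 : ℝ), ∫⁻ l in Ioi (0 : ℝ),
        ENNReal.ofReal (c2 * w r) * ENNReal.ofReal (l ^ (q / 2 - 1) * |P (Real.sqrt l * r)|) := by
    apply lintegral_lintegral_swap
    apply Measurable.aemeasurable
    have m1 : Measurable fun z : ℝ × ℝ => w z.2 := hwc.measurable.comp measurable_snd
    have m2 : Measurable fun z : ℝ × ℝ => |P (Real.sqrt z.1 * z.2)| := by
      have m3 : Measurable fun z : ℝ × ℝ => Real.sqrt z.1 * z.2 :=
        (Real.continuous_sqrt.measurable.comp measurable_fst).mul measurable_snd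
      exact (hPc.abs.measurable).comp m3
    have m4 : Measurable fun z : ℝ × ℝ => z.1 ^ (q / 2 - 1) := measurable_fst.pow_const _
    exact (ENNReal.measurable_ofReal.comp (measurable_const.mul m1)).mul
      (ENNReal.measurable_ofReal.comp (m4.mul m2))
  have step3 : ∫⁻ r in Ioi (0 : ℝ), ∫⁻ l in Ioi (0 : ℝ),
        ENNReal.ofReal (c2 * w r) * ENNReal.ofReal (l ^ (q / 2 - 1) * |P (Real.sqrt l * r)|) =
      ENNReal.ofReal (c2 * (2 ^ (((m : ℝ) - q) / 2) * Real.Gamma (((m : ℝ) - q) / 2))) * I := by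
    rw [← moment hm hqm hc20, ← lintegral_mul_const]
    · refine setLIntegral_congr_fun measurableSet_Ioi fun r hr => ?_
      have hr' : 0 < r := hr
      have hw0 : 0 ≤ w r := by rw [hw]; positivity
      rw [lintegral_const_mul' _ _ ENNReal.ofReal_ne_top, subst P hr', ← hI, ← mul_assoc,
        ← ENNReal.ofReal_mul (by positivity)]
    · apply ENNReal.measurable_ofReal.comp
      exact ((measurable_const.mul hwc.measurable)).mul
        (measurable_const.mul (measurable_id.pow_const _))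
  calc ENNReal.ofReal c1 * _ ≤ ENNReal.ofReal c1 *
        (ENNReal.ofReal (c2 * (2 ^ (((m : ℝ) - q) / 2) * Real.Gamma (((m : ℝ) - q) / 2))) * I) := by
        gcongr
        rw [← step3, ← step2]
        exact step1
    _ = ENNReal.ofReal (kap m q) * I := by
        rw [← mul_assoc, ← ENNReal.ofReal_mul hc10]
        congr 2
        rw [kap, hc1, hc2]
        have e1 : (2 : ℝ) ^ (1 - q) = 2 ^ (1 - (m : ℝ) / 2) * 2 ^ (((m : ℝ) - q) / 2) / 2 ^ (q / 2) := by
          rw [← Real.rpow_add (by norm_num), ← Real.rpow_sub (by norm_num)]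
          congr 1
          ring
        rw [e1]
        have h2 : (2 : ℝ) ^ (q / 2) ≠ 0 := by positivity
        field_simp

end

end H618KS
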