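import Pool.Agent.Helper618_KS.Defs
import Pool.Agent.Helper618_KS.Bessel
import Pool.Agent.Helper618_KS.Char
import Pool.Agent.Helper618_KS.Fourier

/-!
Part `FourierEq` of the proof for MP_237b21_an.
-/

open MeasureTheory Filter Topology Set Real
open scoped ENNReal NNReal

set_option autoImplicit false

namespace H618KS

section

namespace EN_eq_aux

theorem bj_continuous {a : ℝ} (ha : 0 < a) : Continuous (bj a) :=
  continuous_iff_continuousAt.2 fun t => (bj_hasDerivAt ha t).continuousAt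

/-- the product -/
noncomputable def P (m : ℕ) {n : ℕ} (a : Fin n → ℝ) (t : ℝ) : ℝ :=
  ∏ j, bj ((m : ℝ) / 2) (a j * t)

theorem P_continuous {m n : ℕ} (hm : 2 ≤ m) (a : Fin n → ℝ) : Continuous (P m a) := by
  have h : (0 : ℝ) < (m : ℝ) / 2 := by
    have : (2 : ℝ) ≤ m := by exact_mod_cast hm
    linarith
  exact continuous_finsetProd _ fun j _ =>
    (bj_continuous h).comp (continuous_const.mul continuous_id)

theorem P_abs_le_one {m n : ℕ} (hm : 2 ≤ m) (a : Fin n → ℝ) (t : ℝ) : |P m a t| ≤ 1 := by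
  unfold P
  rw [Finset.abs_prod]
  exact Finset.prod_le_one (fun _ _ => abs_nonneg _) fun j _ => bj_abs_le_one m hm _

/-- the Gaussian factor -/
noncomputable def ga (m : ℕ) (t : ℝ) : ℝ := t ^ (m - 1) * exp (-(t ^ 2 / 2))

theorem ga_continuous (m : ℕ) : Continuous (ga m) := by
  unfold ga
  fun_prop

theorem ga_nonneg (m : ℕ) {t : ℝ} (ht : 0 < t) : 0 ≤ ga m t := by
  unfold ga
  positivity

theorem ga_integrable (m : ℕ) : IntegrableOn (ga m) (Ioi 0) := by
  have h := integrableOn_rpow_mul_exp_neg_mul_sq (b := 1 / 2) (by norm_num)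
    (s := ((m - 1 : ℕ) : ℝ)) (by
      have : (0 : ℝ) ≤ ((m - 1 : ℕ) : ℝ) := Nat.cast_nonneg _
      linarith)
  refine h.congr_fun ?_ measurableSet_Ioi
  intro t _
  unfold ga
  simp only
  rw [Real.rpow_natCast]
  congr 2
  ring

theorem inner_ofReal {m n : ℕ} (hm : 2 ≤ m) (a : Fin n → ℝ)
    (hpos : ∀ t : ℝ, 0 < t → 0 ≤ P m a t) {l : ℝ} (hl : 0 < l) :
    ENNReal.ofReal (∫ t in Ioi (0 : ℝ), P m a (Real.sqrt l * t) * ga m t) =
      ∫⁻ t in Ioi (0 : ℝ), ENNReal.ofReal (ga m t) * ENNReal.ofReal (P m a (Real.sqrt l * t)) := by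
  have hs : 0 < Real.sqrt l := Real.sqrt_pos.2 hl
  rw [ofReal_integral_eq_lintegral_ofReal]
  · refine setLIntegral_congr_fun measurableSet_Ioi fun t ht => ?_
    rw [ENNReal.ofReal_mul (hpos _ (mul_pos hs ht)), mul_comm]
  · refine Integrable.mono' (ga_integrable m) ?_ ?_
    · exact (((P_continuous hm a).comp (continuous_const.mul continuous_id)).mul
        (ga_continuous m)).aestronglyMeasurable
    · refine (ae_restrict_mem measurableSet_Ioi).mono fun t ht => ?_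
      rw [Real.norm_eq_abs, abs_mul, abs_of_nonneg (ga_nonneg m ht)]
      calc |P m a (Real.sqrt l * t)| * ga m t ≤ 1 * ga m t :=
            mul_le_mul_of_nonneg_right (P_abs_le_one hm a _) (ga_nonneg m ht)
        _ = ga m t := one_mul _
  · refine (ae_restrict_mem measurableSet_Ioi).mono fun t ht => ?_
    exact mul_nonneg (hpos _ (mul_pos hs ht)) (ga_nonneg m ht)

theorem subst_sq {m n : ℕ} (a : Fin n → ℝ) {q : ℝ} {t : ℝ} (ht : 0 < t) :
    ∫⁻ l in Ioi (0 : ℝ), ENNReal.ofReal (l ^ (q / 2 - 1)) *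
      ENNReal.ofReal (P m a (Real.sqrt l * t)) =
    ENNReal.ofReal (2 * t ^ (-q)) * ∫⁻ s in Ioi (0 : ℝ), ENNReal.ofReal (P m a s * s ^ (q - 1)) := by
  have himg : (fun s : ℝ => (s / t) ^ 2) '' Ioi 0 = Ioi 0 := by
    ext x
    constructor
    · rintro ⟨s, hs, rfl⟩
      have hs' : (0 : ℝ) < s := hs
      simp only [mem_Ioi]
      positivity
    · intro hx
      have hx' : (0 : ℝ) < x := hx
      refine ⟨Real.sqrt x * t, mul_pos (Real.sqrt_pos.2 hx') ht, ?_⟩
      simp only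
      rw [mul_div_assoc, div_self ht.ne', mul_one, Real.sq_sqrt hx'.le]
  have hder : ∀ s ∈ Ioi (0 : ℝ), HasDerivWithinAt (fun s : ℝ => (s / t) ^ 2) (2 * s / t ^ 2)
      (Ioi 0) s := by
    intro s _
    have h1 : HasDerivAt (fun s : ℝ => (s / t) ^ 2) (((2 : ℕ) : ℝ) * (s / t) ^ (2 - 1) * (1 / t)) s :=
      ((hasDerivAt_id s).div_const t).pow 2
    have h2 : (((2 : ℕ) : ℝ) * (s / t) ^ (2 - 1) * (1 / t)) = 2 * s / t ^ 2 := by
      have := ht.ne'
      rw [show (2 - 1 : ℕ) = 1 from rfl, pow_one, Nat.cast_ofNat]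
      field_simp
    rw [h2] at h1
    exact h1.hasDerivWithinAt
  have hinj : InjOn (fun s : ℝ => (s / t) ^ 2) (Ioi 0) := by
    intro s hs s' hs' h
    have h1 : s / t = s' / t := by
      have e1 : 0 ≤ s / t := (div_pos hs ht).le
      have e2 : 0 ≤ s' / t := (div_pos hs' ht).le
      exact (pow_left_inj₀ e1 e2 two_ne_zero).1 h
    field_simp at h1
    exact h1
  have key := lintegral_image_eq_lintegral_abs_deriv_mul measurableSet_Ioi hder hinj
    (fun l => ENNReal.ofReal (l ^ (q / 2 - 1)) * ENNReal.ofReal (P m a (Real.sqrt l * t)))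
  rw [himg] at key
  rw [key, ← lintegral_const_mul' _ _ ENNReal.ofReal_ne_top]
  refine setLIntegral_congr_fun measurableSet_Ioi fun s hs => ?_
  have hs' : (0 : ℝ) < s := hs
  have h1 : Real.sqrt ((s / t) ^ 2) * t = s := by
    rw [Real.sqrt_sq (div_pos hs' ht).le, div_mul_cancel₀ _ ht.ne']
  have h2 : ((s / t) ^ 2) ^ (q / 2 - 1) = s ^ (q - 2) / t ^ (q - 2) := by
    rw [← Real.rpow_natCast (s / t) 2, ← Real.rpow_mul (div_pos hs' ht).le,
      ← Real.div_rpow hs'.le ht.le]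
    congr 1
    push_cast
    ring
  rw [h1, h2, abs_of_pos (by positivity), ← mul_assoc, ← ENNReal.ofReal_mul (by positivity),
    ← ENNReal.ofReal_mul (by positivity), ← ENNReal.ofReal_mul (by positivity)]
  congr 1
  have h3 : s ^ (q - 1) = s ^ (q - 2) * s := by
    rw [← Real.rpow_add_one hs'.ne']
    congr 1
    ring
  have h4 : t ^ (-q) = (t ^ (q - 2))⁻¹ * (t ^ 2)⁻¹ := by
    rw [Real.rpow_neg ht.le, ← mul_inv, ← Real.rpow_natCast t 2, ← Real.rpow_add ht]
    congr 2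
    push_cast
    ring
  rw [h3, h4]
  ring

theorem gauss_int {m : ℕ} (hm : 2 ≤ m) {q : ℝ} (hqm : q < m) :
    ∫⁻ t in Ioi (0 : ℝ), ENNReal.ofReal (ga m t) * ENNReal.ofReal (2 * t ^ (-q)) =
      ENNReal.ofReal (2 ^ (((m : ℝ) - q) / 2) * Real.Gamma (((m : ℝ) - q) / 2)) := by
  have hs : (-1 : ℝ) < (m : ℝ) - 1 - q := by linarith
  have h1 := integrableOn_rpow_mul_exp_neg_mul_sq (b := 1 / 2) (by norm_num) hs
  have h2 := integral_rpow_mul_exp_neg_mul_rpow (p := 2) (b := 1 / 2) (by norm_num) hs (by norm_num)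
  have h3 : ∀ t ∈ Ioi (0 : ℝ), ENNReal.ofReal (ga m t) * ENNReal.ofReal (2 * t ^ (-q)) =
      ENNReal.ofReal (2 * (t ^ ((m : ℝ) - 1 - q) * exp (-(1 / 2) * t ^ 2))) := by
    intro t ht
    have ht' : (0 : ℝ) < t := ht
    rw [← ENNReal.ofReal_mul (ga_nonneg m ht')]
    congr 1
    unfold ga
    have h4 : t ^ ((m : ℝ) - 1 - q) = t ^ (m - 1) * t ^ (-q) := by
      rw [sub_eq_add_neg, Real.rpow_add ht', ← Real.rpow_natCast t (m - 1), Nat.cast_sub (by omega)]
      simp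
    have h5 : -(t ^ 2 / 2) = -(1 / 2) * t ^ 2 := by ring
    rw [h4, h5]
    ring
  rw [setLIntegral_congr_fun measurableSet_Ioi h3, ← ofReal_integral_eq_lintegral_ofReal]
  · congr 1
    rw [integral_const_mul]
    have h6 : ∫ t in Ioi (0 : ℝ), t ^ ((m : ℝ) - 1 - q) * exp (-(1 / 2) * t ^ 2) =
        ∫ t in Ioi (0 : ℝ), t ^ ((m : ℝ) - 1 - q) * exp (-(1 / 2) * t ^ (2 : ℝ)) := by
      simp only [Real.rpow_two]
    rw [h6, h2]
    have h7 : (m : ℝ) - 1 - q + 1 = m - q := by ring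
    rw [h7]
    have h8 : (1 / 2 : ℝ) ^ (-((m : ℝ) - q) / 2) = 2 ^ (((m : ℝ) - q) / 2) := by
      rw [one_div, Real.inv_rpow (by norm_num), ← Real.rpow_neg (by norm_num)]
      congr 1
      ring
    rw [h8]
    ring
  · exact h1.const_mul 2
  · refine (ae_restrict_mem measurableSet_Ioi).mono fun t ht => ?_
    have ht' : (0 : ℝ) < t := ht
    simp only [Pi.zero_apply]
    positivity

end EN_eq_aux

open EN_eq_aux in
theorem EN_eq {m n : ℕ} (hm : 2 ≤ m) {q : ℝ} (hq : 0 < q) (hqm : q < m) (a : Fin n → ℝ)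
    (hpos : ∀ t : ℝ, 0 < t → 0 ≤ ∏ j, bj ((m : ℝ) / 2) (a j * t)) :
    EN m q a = ENNReal.ofReal (kap m q) *
      ∫⁻ t in Ioi (0 : ℝ), ENNReal.ofReal ((∏ j, bj ((m : ℝ) / 2) (a j * t)) * t ^ (q - 1)) := by
  have hpos' : ∀ t : ℝ, 0 < t → 0 ≤ P m a t := hpos
  have hm0 : (0 : ℝ) < (m : ℝ) / 2 := by
    have : (2 : ℝ) ≤ m := by exact_mod_cast hm
    linarith
  have hG1 : 0 < Real.Gamma ((m : ℝ) / 2) := Real.Gamma_pos_of_pos hm0
  have hG2 : 0 < Real.Gamma (q / 2) := Real.Gamma_pos_of_pos (by linarith)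
  have hG3 : 0 < Real.Gamma (((m : ℝ) - q) / 2) := Real.Gamma_pos_of_pos (by linarith)
  obtain ⟨c1, hc1⟩ : ∃ c1 : ℝ, c1 = 1 / (2 ^ (q / 2) * Real.Gamma (q / 2)) := ⟨_, rfl⟩
  obtain ⟨c2, hc2⟩ : ∃ c2 : ℝ, c2 = 2 ^ (1 - (m : ℝ) / 2) / Real.Gamma ((m : ℝ) / 2) := ⟨_, rfl⟩
  have hc1' : 0 < c1 := by rw [hc1]; positivity
  have hc2' : 0 < c2 := by rw [hc2]; positivity
  have hPm : Measurable fun z : ℝ × ℝ => P m a (Real.sqrt z.1 * z.2) :=
    (P_continuous hm a).measurable.comp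
      ((Real.continuous_sqrt.measurable.comp measurable_fst).mul measurable_snd)
  rw [EN_gamma hq a (by omega), ← hc1]
  have e1 : ∀ l ∈ Ioi (0 : ℝ), ENNReal.ofReal (l ^ (q / 2 - 1) *
      ∫ x : Fin n → EE m, exp (-(l * ‖∑ j, a j • x j‖ ^ 2 / 2)) ∂(Measure.pi fun _ => unif m)) =
      ∫⁻ t in Ioi (0 : ℝ), ENNReal.ofReal c2 * ENNReal.ofReal (ga m t) *
        (ENNReal.ofReal (l ^ (q / 2 - 1)) * ENNReal.ofReal (P m a (Real.sqrt l * t))) := by
    intro l hl
    have hl' : (0 : ℝ) < l := hl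
    have h0 : 0 ≤ l ^ (q / 2 - 1) := by positivity
    rw [EN_laplace hm a hl', ← hc2, ENNReal.ofReal_mul h0, ENNReal.ofReal_mul hc2'.le]
    have h1 : ENNReal.ofReal (∫ t in Ioi (0 : ℝ), (∏ j, bj ((m : ℝ) / 2) (a j * (Real.sqrt l * t))) *
          (t ^ (m - 1) * exp (-(t ^ 2 / 2)))) = _ := inner_ofReal hm a hpos' hl'
    rw [h1, ← mul_assoc, ← lintegral_const_mul' _ _ (ENNReal.mul_ne_top ENNReal.ofReal_ne_top
      ENNReal.ofReal_ne_top)]
    refine lintegral_congr fun t => ?_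
    ring
  rw [setLIntegral_congr_fun measurableSet_Ioi e1, lintegral_lintegral_swap]
  · have e2 : ∀ t ∈ Ioi (0 : ℝ), ∫⁻ l in Ioi (0 : ℝ), ENNReal.ofReal c2 * ENNReal.ofReal (ga m t) *
        (ENNReal.ofReal (l ^ (q / 2 - 1)) * ENNReal.ofReal (P m a (Real.sqrt l * t))) =
        (ENNReal.ofReal (ga m t) * ENNReal.ofReal (2 * t ^ (-q))) * (ENNReal.ofReal c2 *
          ∫⁻ s in Ioi (0 : ℝ), ENNReal.ofReal (P m a s * s ^ (q - 1))) := by
      intro t ht
      rw [lintegral_const_mul' _ _ (ENNReal.mul_ne_top ENNReal.ofReal_ne_top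
        ENNReal.ofReal_ne_top), subst_sq a ht]
      ring
    rw [setLIntegral_congr_fun measurableSet_Ioi e2, lintegral_mul_const, gauss_int hm hqm,
      ← mul_assoc, ← mul_assoc, ← ENNReal.ofReal_mul hc1'.le, ← ENNReal.ofReal_mul (by positivity)]
    · congr 2
      rw [hc1, hc2]
      unfold kap
      have h1 : (2 : ℝ) ^ (1 - q) = 2 ^ (((m : ℝ) - q) / 2) * 2 ^ (1 - (m : ℝ) / 2) / 2 ^ (q / 2) := by
        rw [← Real.rpow_add (by norm_num), ← Real.rpow_sub (by norm_num)]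
        congr 1
        ring
      rw [h1]
      field_simp
    · have k1 : Measurable fun t : ℝ => ENNReal.ofReal (ga m t) :=
        (ga_continuous m).measurable.ennreal_ofReal
      have k2 : Measurable fun t : ℝ => ENNReal.ofReal (2 * t ^ (-q)) :=
        ((measurable_id.pow_const (-q)).const_mul 2).ennreal_ofReal
      exact k1.mul k2
  · have k1 : Measurable fun z : ℝ × ℝ => ENNReal.ofReal (ga m z.2) :=
      ((ga_continuous m).measurable.comp measurable_snd).ennreal_ofReal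
    have k2 : Measurable fun z : ℝ × ℝ => ENNReal.ofReal (z.1 ^ (q / 2 - 1)) :=
      (measurable_fst.pow_const (q / 2 - 1)).ennreal_ofReal
    have k3 : Measurable fun z : ℝ × ℝ => ENNReal.ofReal (P m a (Real.sqrt z.1 * z.2)) :=
      hPm.ennreal_ofReal
    have k4 : Measurable fun z : ℝ × ℝ => ENNReal.ofReal c2 * ENNReal.ofReal (ga m z.2) *
        (ENNReal.ofReal (z.1 ^ (q / 2 - 1)) * ENNReal.ofReal (P m a (Real.sqrt z.1 * z.2))) :=
      (k1.const_mul _).mul (k2.mul k3)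
    exact k4.aemeasurable

end

end H618KS
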