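import Pool.Agent.Helper618_KS.Defs
import Pool.Agent.Helper618_KS.Bessel
import Pool.Agent.Helper618_KS.Crit
import Pool.Agent.Helper618_KS.Char
import Pool.Agent.Helper618_KS.Fourier

/-!
Part `Holder` of the proof for MP_237b21_an.
-/

open MeasureTheory Filter Topology Set Real
open scoped ENNReal NNReal

set_option autoImplicit false

namespace H618KS

section

namespace EN_holder_aux

theorem kap_pos {m : ℕ} {q : ℝ} (hq : 0 < q) (hqm : q < m) : 0 < kap m q := by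
  unfold kap
  have h1 : 0 < Real.Gamma (((m : ℝ) - q) / 2) := Real.Gamma_pos_of_pos (by linarith)
  have h2 : 0 < Real.Gamma (q / 2) := Real.Gamma_pos_of_pos (by linarith)
  have h3 : 0 < Real.Gamma ((m : ℝ) / 2) := Real.Gamma_pos_of_pos (by linarith)
  positivity

theorem bj_cont {m : ℕ} (hm : 2 ≤ m) : Continuous (bj ((m : ℝ) / 2)) := by
  have h : (0 : ℝ) < (m : ℝ) / 2 := by
    have : (2 : ℝ) ≤ m := by exact_mod_cast hm
    linarith
  exact continuous_iff_continuousAt.2 fun t => (bj_hasDerivAt h t).continuousAt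

theorem int_r {m : ℕ} (hm : 2 ≤ m) {q : ℝ} (hq : 0 < q) (hqm : q < m - 1) {r : ℝ} (hr : 2 ≤ r) :
    IntegrableOn (fun t : ℝ => |bj ((m : ℝ) / 2) t| ^ r * t ^ (q - 1)) (Ioi 0) := by
  refine (bj_sq_integrable m hm hq hqm).mono' ?_ ?_
  · refine Measurable.aestronglyMeasurable ?_
    have := (bj_cont hm).measurable
    fun_prop
  · refine (ae_restrict_iff' measurableSet_Ioi).2 (Eventually.of_forall fun t ht => ?_)
    have ht' : (0 : ℝ) < t := ht
    have h1 : 0 ≤ |bj ((m : ℝ) / 2) t| := abs_nonneg _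
    have h2 := bj_abs_le_one m hm t
    rw [Real.norm_eq_abs, abs_of_nonneg (by positivity)]
    refine mul_le_mul_of_nonneg_right ?_ (by positivity)
    calc |bj ((m : ℝ) / 2) t| ^ r ≤ |bj ((m : ℝ) / 2) t| ^ (2 : ℝ) := by
          rcases h1.eq_or_lt with h0 | h0
          · rw [← h0, Real.zero_rpow (by linarith), Real.zero_rpow (by norm_num)]
          · exact Real.rpow_le_rpow_of_exponent_ge h0 h2 hr
      _ = bj ((m : ℝ) / 2) t ^ 2 := by
          rw [show (2 : ℝ) = ((2 : ℕ) : ℝ) by norm_num, Real.rpow_natCast, sq_abs]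

theorem bj_abs (c t : ℝ) (a : ℝ) : bj a (c * t) = bj a (|c| * t) := by
  rcases le_total 0 c with h | h
  · rw [abs_of_nonneg h]
  · rw [abs_of_nonpos h, neg_mul, bj_neg]

theorem lint {m : ℕ} (hm : 2 ≤ m) {q : ℝ} (hq : 0 < q) (hqm : q < m - 1) {r : ℝ} (hr : 2 ≤ r)
    {c : ℝ} (hc : c ≠ 0) :
    ∫⁻ t in Ioi (0 : ℝ), ENNReal.ofReal (|bj ((m : ℝ) / 2) (c * t)| ^ r * t ^ (q - 1)) =
      ENNReal.ofReal (|c| ^ (-q) * ∫ t in Ioi (0 : ℝ), |bj ((m : ℝ) / 2) t| ^ r * t ^ (q - 1)) := by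
  have hc' : 0 < |c| := abs_pos.2 hc
  set g : ℝ → ℝ := fun t => |bj ((m : ℝ) / 2) t| ^ r * t ^ (q - 1) with hg
  have h1 : ∀ t ∈ Ioi (0 : ℝ), |bj ((m : ℝ) / 2) (c * t)| ^ r * t ^ (q - 1) =
      |c| ^ (1 - q) * g (|c| * t) := by
    intro t ht
    have ht' : (0 : ℝ) < t := ht
    rw [bj_abs, hg]
    simp only
    rw [Real.mul_rpow hc'.le ht'.le]
    have h2 : |c| ^ (1 - q) * |c| ^ (q - 1) = 1 := by
      rw [← Real.rpow_add hc']
      simp
    calc _ = (|c| ^ (1 - q) * |c| ^ (q - 1)) * (|bj ((m : ℝ) / 2) (|c| * t)| ^ r * t ^ (q - 1)) := by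
          rw [h2, one_mul]
      _ = _ := by ring
  have hint : IntegrableOn (fun t => |c| ^ (1 - q) * g (|c| * t)) (Ioi (0 : ℝ)) := by
    refine Integrable.const_mul ?_ _
    have h3 := (integrableOn_Ioi_comp_mul_left_iff g 0 hc').2
      (by rw [mul_zero]; exact int_r hm hq hqm hr)
    exact h3
  rw [setLIntegral_congr_fun measurableSet_Ioi (g := fun t =>
    ENNReal.ofReal (|c| ^ (1 - q) * g (|c| * t))) (fun t ht => by simp only; rw [h1 t ht]),
    ← ofReal_integral_eq_lintegral_ofReal hint]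
  · congr 1
    rw [integral_const_mul, integral_comp_mul_left_Ioi g 0 hc', mul_zero, smul_eq_mul, ← mul_assoc]
    congr 1
    rw [← Real.rpow_neg_one, ← Real.rpow_add hc']
    congr 1
    ring
  · refine (ae_restrict_iff' measurableSet_Ioi).2 (Eventually.of_forall fun t ht => ?_)
    have ht' : (0 : ℝ) < t := ht
    have h4 : 0 < |c| * t := mul_pos hc' ht'
    simp only [hg, Pi.zero_apply]
    positivity

theorem factor {m : ℕ} {q : ℝ} {a w : ℝ} (ha : a ≠ 0) (hw : 0 < w) :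
    kap m q * (|a| ^ (-q) * ∫ t in Ioi (0 : ℝ), |bj ((m : ℝ) / 2) t| ^ (1 / w) * t ^ (q - 1)) =
      (a ^ 2 / w) ^ (-(q / 2)) * KP m q (1 / w) := by
  unfold KP
  have ha' : 0 < |a| := abs_pos.2 ha
  have h1 : (a ^ 2 / w) ^ (-(q / 2)) * (1 / w) ^ (q / 2) = |a| ^ (-q) := by
    rw [← sq_abs, Real.div_rpow (by positivity) hw.le, one_div, Real.inv_rpow hw.le,
      ← Real.rpow_natCast, ← Real.rpow_mul ha'.le, Real.rpow_neg hw.le]
    have h2 : (0 : ℝ) < w ^ (q / 2) := by positivity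
    field_simp
    congr 1
    push_cast
    ring
  rw [← h1]
  ring

theorem pt {m n : ℕ} {q : ℝ} (a w : Fin n → ℝ) (hw : ∀ j, a j ≠ 0 → 0 < w j ∧ w j ≤ 1 / 2)
    (hs : ∑ j ∈ Finset.univ.filter (fun j => a j ≠ 0), w j = 1) {t : ℝ} (ht : 0 < t) :
    ENNReal.ofReal ((∏ j, |bj ((m : ℝ) / 2) (a j * t)|) * t ^ (q - 1)) =
      ∏ j ∈ Finset.univ.filter (fun j => a j ≠ 0),
        ENNReal.ofReal (|bj ((m : ℝ) / 2) (a j * t)| ^ (1 / w j) * t ^ (q - 1)) ^ w j := by
  have h1 : ∏ j, |bj ((m : ℝ) / 2) (a j * t)| =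
      ∏ j ∈ Finset.univ.filter (fun j => a j ≠ 0), |bj ((m : ℝ) / 2) (a j * t)| := by
    refine (Finset.prod_subset (Finset.filter_subset _ _) fun j _ hj => ?_).symm
    have h2 : a j = 0 := by
      by_contra h
      exact hj (Finset.mem_filter.2 ⟨Finset.mem_univ _, h⟩)
    rw [h2, zero_mul, bj_zero, abs_one]
  have h3 : t ^ (q - 1) = ∏ j ∈ Finset.univ.filter (fun j => a j ≠ 0), (t ^ (q - 1)) ^ w j := by
    rw [← Real.rpow_sum_of_pos (by positivity), hs, Real.rpow_one]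
  rw [h1]
  nth_rw 1 [h3]
  rw [← Finset.prod_mul_distrib, ENNReal.ofReal_prod_of_nonneg (fun j _ => by positivity)]
  refine Finset.prod_congr rfl fun j hj => ?_
  have hj' := (Finset.mem_filter.1 hj).2
  have hwj := (hw j hj').1
  rw [ENNReal.ofReal_rpow_of_nonneg (by positivity) hwj.le]
  congr 1
  rw [Real.mul_rpow (by positivity) (by positivity), ← Real.rpow_mul (abs_nonneg _),
    one_div, inv_mul_cancel₀ hwj.ne', Real.rpow_one]

end EN_holder_aux

theorem EN_holder {m n : ℕ} (hm : 2 ≤ m) {q : ℝ} (hq : 0 < q) (hqm : q < m - 1)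
    (a w : Fin n → ℝ) (hw : ∀ j, a j ≠ 0 → 0 < w j ∧ w j ≤ 1 / 2) (hw0 : ∀ j, a j = 0 → w j = 0)
    (hs : ∑ j, w j = 1) :
    EN m q a ≤ ENNReal.ofReal
      (∏ j, ((a j ^ 2 / w j) ^ (-(q / 2)) * KP m q (1 / w j)) ^ w j) := by
  have hqm' : q < m := by linarith
  have hk := EN_holder_aux.kap_pos hq hqm'
  have hs' : ∑ j ∈ Finset.univ.filter (fun j => a j ≠ 0), w j = 1 := by
    rw [← hs]
    refine Finset.sum_subset (Finset.filter_subset _ _) fun j _ hj => hw0 j ?_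
    by_contra h
    exact hj (Finset.mem_filter.2 ⟨Finset.mem_univ _, h⟩)
  have hcont := (EN_holder_aux.bj_cont hm).measurable
  have hI : ∀ r : ℝ, 0 ≤ ∫ t in Ioi (0 : ℝ), |bj ((m : ℝ) / 2) t| ^ r * t ^ (q - 1) := fun r =>
    setIntegral_nonneg measurableSet_Ioi fun t ht => by
      have ht' : (0 : ℝ) < t := ht
      positivity
  calc EN m q a ≤ ENNReal.ofReal (kap m q) *
        ∫⁻ t in Ioi (0 : ℝ), ENNReal.ofReal ((∏ j, |bj ((m : ℝ) / 2) (a j * t)|) * t ^ (q - 1)) :=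
        EN_le hm hq hqm' a
    _ = ENNReal.ofReal (kap m q) *
        ∫⁻ t in Ioi (0 : ℝ), ∏ j ∈ Finset.univ.filter (fun j => a j ≠ 0),
        ENNReal.ofReal (|bj ((m : ℝ) / 2) (a j * t)| ^ (1 / w j) * t ^ (q - 1)) ^ w j := by
        congr 1
        exact setLIntegral_congr_fun measurableSet_Ioi fun t ht => EN_holder_aux.pt a w hw hs' ht
    _ ≤ ENNReal.ofReal (kap m q) * ∏ j ∈ Finset.univ.filter (fun j => a j ≠ 0),
        (∫⁻ t in Ioi (0 : ℝ),
          ENNReal.ofReal (|bj ((m : ℝ) / 2) (a j * t)| ^ (1 / w j) * t ^ (q - 1))) ^ w j := by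
        gcongr
        refine ENNReal.lintegral_prod_norm_pow_le _ (fun j _ => ?_) hs' fun j hj =>
          (hw j (Finset.mem_filter.1 hj).2).1.le
        refine Measurable.aemeasurable ?_
        fun_prop
    _ = ENNReal.ofReal (kap m q) * ∏ j ∈ Finset.univ.filter (fun j => a j ≠ 0),
        ENNReal.ofReal (|a j| ^ (-q) *
          ∫ t in Ioi (0 : ℝ), |bj ((m : ℝ) / 2) t| ^ (1 / w j) * t ^ (q - 1)) ^ w j := by
        congr 1
        refine Finset.prod_congr rfl fun j hj => ?_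
        have hj' := (Finset.mem_filter.1 hj).2
        obtain ⟨h1, h2⟩ := hw j hj'
        rw [EN_holder_aux.lint hm hq hqm _ hj']
        rw [le_div_iff₀ h1]
        linarith
    _ = ∏ j ∈ Finset.univ.filter (fun j => a j ≠ 0), ENNReal.ofReal (kap m q * (|a j| ^ (-q) *
          ∫ t in Ioi (0 : ℝ), |bj ((m : ℝ) / 2) t| ^ (1 / w j) * t ^ (q - 1))) ^ w j := by
        have h1 : ENNReal.ofReal (kap m q) = ∏ j ∈ Finset.univ.filter (fun j => a j ≠ 0),
            ENNReal.ofReal (kap m q) ^ w j := by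
          rw [Finset.prod_congr rfl fun j hj =>
            ENNReal.ofReal_rpow_of_nonneg hk.le (hw j (Finset.mem_filter.1 hj).2).1.le,
            ← ENNReal.ofReal_prod_of_nonneg (fun j _ => by positivity),
            ← Real.rpow_sum_of_pos hk, hs', Real.rpow_one]
        nth_rw 1 [h1]
        rw [← Finset.prod_mul_distrib]
        refine Finset.prod_congr rfl fun j hj => ?_
        rw [ENNReal.ofReal_mul hk.le,
          ENNReal.mul_rpow_of_nonneg _ _ (hw j (Finset.mem_filter.1 hj).2).1.le]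
    _ = ENNReal.ofReal (∏ j ∈ Finset.univ.filter (fun j => a j ≠ 0),
          ((a j ^ 2 / w j) ^ (-(q / 2)) * KP m q (1 / w j)) ^ w j) := by
        have h0 : ∀ j ∈ Finset.univ.filter (fun j => a j ≠ 0), 0 ≤
            (a j ^ 2 / w j) ^ (-(q / 2)) * KP m q (1 / w j) := by
          intro j hj
          have h1 := (hw j (Finset.mem_filter.1 hj).2).1
          have h2 := hI (1 / w j)
          unfold KP
          positivity
        rw [ENNReal.ofReal_prod_of_nonneg (fun j hj => Real.rpow_nonneg (h0 j hj) _)]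
        refine Finset.prod_congr rfl fun j hj => ?_
        have hj' := (Finset.mem_filter.1 hj).2
        rw [EN_holder_aux.factor hj' (hw j hj').1,
          ENNReal.ofReal_rpow_of_nonneg (h0 j hj) (hw j hj').1.le]
    _ = _ := by
        congr 1
        refine Finset.prod_subset (Finset.filter_subset _ _) fun j _ hj => ?_
        have h2 : a j = 0 := by
          by_contra h
          exact hj (Finset.mem_filter.2 ⟨Finset.mem_univ _, h⟩)
        rw [hw0 j h2, Real.rpow_zero]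

end

section

namespace KP_gauss_aux
-- auxiliary lemmas here
end KP_gauss_aux

theorem KP_gauss {m : ℕ} (hm : 2 ≤ m) {q : ℝ} (hq : 0 < q) (hqm : q < m) :
    kap m q * ∫ t in Ioi (0 : ℝ), exp (-(t ^ 2 / (2 * m))) * t ^ (q - 1) = Cinf m q := by
  have h := (gauss_pow_int (m := m) (by omega) hq one_pos).2
  simp only [Real.rpow_one, Real.one_rpow, one_mul] at h
  rw [h]
  have hm0 : (0 : ℝ) < m := by positivity
  have hG1 : Real.Gamma (q / 2) ≠ 0 := (Real.Gamma_pos_of_pos (by positivity)).ne'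
  have hG2 : Real.Gamma ((m : ℝ) / 2) ≠ 0 := (Real.Gamma_pos_of_pos (by positivity)).ne'
  have e1 : (2 : ℝ) ^ (1 - q) = 2 * (2 ^ (q / 2) * 2 ^ (q / 2))⁻¹ := by
    rw [Real.rpow_sub two_pos, Real.rpow_one, ← Real.rpow_add two_pos]
    have : q / 2 + q / 2 = q := by ring
    rw [this]; rfl
  have e2 : (2 * (m : ℝ)) ^ (q / 2) = 2 ^ (q / 2) * (m : ℝ) ^ (q / 2) :=
    Real.mul_rpow two_pos.le hm0.le
  have e3 : ((m : ℝ) / 2) ^ (q / 2) = (m : ℝ) ^ (q / 2) / 2 ^ (q / 2) :=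
    Real.div_rpow hm0.le two_pos.le _
  have h2 : (2 : ℝ) ^ (q / 2) ≠ 0 := (Real.rpow_pos_of_pos two_pos _).ne'
  unfold kap Cinf
  rw [e1, e2, e3]
  field_simp

end

section

theorem C2_pos {m : ℕ} (hm : 2 ≤ m) {q : ℝ} (hq : 0 ≤ q) (hqm : q < m - 1) : 0 < C2 m q := by
  have hm' : (2 : ℝ) ≤ m := by exact_mod_cast hm
  unfold C2
  have h1 := Real.Gamma_pos_of_pos (show 0 < ((m : ℝ) - 1 - q) / 2 by linarith)
  have h2 := Real.Gamma_pos_of_pos (show 0 < (m : ℝ) - 1 by linarith)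
  have h3 := Real.Gamma_pos_of_pos (show 0 < (m : ℝ) - 1 - q / 2 by linarith)
  have h4 := Real.Gamma_pos_of_pos (show 0 < ((m : ℝ) - 1) / 2 by linarith)
  positivity

end

section

theorem Cinf_pos {m : ℕ} (hm : 2 ≤ m) {q : ℝ} (hq : 0 ≤ q) (hqm : q < m) : 0 < Cinf m q := by
  have hm' : (2 : ℝ) ≤ m := by exact_mod_cast hm
  unfold Cinf
  have h1 := Real.Gamma_pos_of_pos (show 0 < ((m : ℝ) - q) / 2 by linarith)
  have h2 := Real.Gamma_pos_of_pos (show 0 < (m : ℝ) / 2 by linarith)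
  positivity

end

section

namespace KP_nonneg_aux

end KP_nonneg_aux

theorem KP_nonneg {m : ℕ} (hm : 2 ≤ m) {q : ℝ} (hq : 0 < q) (hqm : q < m - 1) (s : ℝ)
    (hs : 0 ≤ s) : 0 ≤ KP m q s := by
  have hm' : (0 : ℝ) < m := by
    have : 0 < m := by omega
    exact_mod_cast this
  unfold KP kap
  have h1 : 0 < Real.Gamma (((m : ℝ) - q) / 2) := Real.Gamma_pos_of_pos (by linarith)
  have h2 : 0 < Real.Gamma (q / 2) := Real.Gamma_pos_of_pos (by linarith)
  have h3 : 0 < Real.Gamma ((m : ℝ) / 2) := Real.Gamma_pos_of_pos (by linarith)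
  have h4 : 0 ≤ ∫ t in Ioi (0 : ℝ), |bj ((m : ℝ) / 2) t| ^ s * t ^ (q - 1) := by
    refine setIntegral_nonneg measurableSet_Ioi fun t ht => ?_
    have ht' : 0 < t := ht
    positivity
  have h5 : 0 ≤ s ^ (q / 2) := Real.rpow_nonneg hs _
  positivity

end

end H618KS
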