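import Pool.Agent.Helper618_KS.Defs
import Pool.Agent.Helper618_KS.Bessel
import Pool.Agent.Helper618_KS.Crit
import Pool.Agent.Helper618_KS.Unif
import Pool.Agent.Helper618_KS.Char
import Pool.Agent.Helper618_KS.Crit2
import Pool.Agent.Helper618_KS.FourierEq
import Pool.Agent.Helper618_KS.Holder

/-!
Part `Pair` of the proof for MP_237b21_an.
-/

open MeasureTheory Filter Topology Set Real
open scoped ENNReal NNReal

set_option autoImplicit false

namespace H618KS

section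

namespace hE_one_eq_aux

/-- The beta integral as a lower integral. -/
theorem beta_lint {α β : ℝ} (hα : 0 < α) (hβ : 0 < β) :
    ∫⁻ x in Ioo (0 : ℝ) 1, ENNReal.ofReal (x ^ (α - 1) * (1 - x) ^ (β - 1)) =
      ENNReal.ofReal (ProbabilityTheory.beta α β) := by
  have h := ProbabilityTheory.lintegral_betaPDF_eq_one hα hβ
  rw [ProbabilityTheory.lintegral_betaPDF] at h
  have hb := ProbabilityTheory.beta_pos hα hβ
  have e : ∀ x ∈ Ioo (0 : ℝ) 1,
      ENNReal.ofReal (1 / ProbabilityTheory.beta α β * x ^ (α - 1) * (1 - x) ^ (β - 1)) =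
      ENNReal.ofReal (1 / ProbabilityTheory.beta α β) *
        ENNReal.ofReal (x ^ (α - 1) * (1 - x) ^ (β - 1)) := by
    intro x _
    rw [← ENNReal.ofReal_mul (by positivity), mul_assoc]
  rw [setLIntegral_congr_fun measurableSet_Ioo e, lintegral_const_mul' _ _ ENNReal.ofReal_ne_top]
    at h
  have h2 : ENNReal.ofReal (ProbabilityTheory.beta α β) * (ENNReal.ofReal
      (1 / ProbabilityTheory.beta α β) * ∫⁻ x in Ioo (0 : ℝ) 1,
        ENNReal.ofReal (x ^ (α - 1) * (1 - x) ^ (β - 1))) =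
      ENNReal.ofReal (ProbabilityTheory.beta α β) := by rw [h, mul_one]
  rw [← mul_assoc, ← ENNReal.ofReal_mul hb.le, mul_one_div_cancel hb.ne', ENNReal.ofReal_one,
    one_mul] at h2
  exact h2

/-- The substitution. -/
noncomputable def ff (θ : ℝ) : ℝ := (1 + Real.cos θ) / 2

theorem ff_image : ff '' Ioo 0 π = Ioo 0 1 := by
  ext x
  constructor
  · rintro ⟨θ, hθ, rfl⟩
    have h1 : Real.cos θ < 1 := by
      have := Real.cos_lt_cos_of_nonneg_of_le_pi le_rfl hθ.2.le hθ.1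
      rwa [Real.cos_zero] at this
    have h2 : -1 < Real.cos θ := by
      have := Real.cos_lt_cos_of_nonneg_of_le_pi hθ.1.le le_rfl hθ.2
      rwa [Real.cos_pi] at this
    unfold ff
    constructor <;> linarith
  · intro hx
    refine ⟨Real.arccos (2 * x - 1), ⟨?_, ?_⟩, ?_⟩
    · rw [Real.arccos_pos]
      linarith [hx.2]
    · refine lt_of_le_of_ne (Real.arccos_le_pi _) ?_
      rw [Ne, Real.arccos_eq_pi]
      have := hx.1
      intro h
      linarith
    · unfold ff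
      rw [Real.cos_arccos (by linarith [hx.1]) (by linarith [hx.2])]
      ring

theorem int_eq {m : ℕ} (hm : 2 ≤ m) {q : ℝ} (hqm : q < m - 1) :
    ∫⁻ θ in Ioo 0 π, ENNReal.ofReal ((2 + 2 * Real.cos θ) ^ (-(q / 2)) * Real.sin θ ^ (m - 2)) =
      ENNReal.ofReal (2 ^ ((m : ℝ) - 2 - q) *
        ProbabilityTheory.beta (((m : ℝ) - 1 - q) / 2) (((m : ℝ) - 1) / 2)) := by
  have hm' : (2 : ℝ) ≤ m := by exact_mod_cast hm
  have h1 := beta_lint (α := ((m : ℝ) - 1 - q) / 2) (β := ((m : ℝ) - 1) / 2) (by linarith)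
    (by linarith)
  rw [ENNReal.ofReal_mul (by positivity), ← h1, ← ff_image,
    lintegral_image_eq_lintegral_deriv_mul_of_antitoneOn (f' := fun θ => -(Real.sin θ / 2))
      measurableSet_Ioo ?_ ?_, ← lintegral_const_mul' _ _ ENNReal.ofReal_ne_top]
  · refine setLIntegral_congr_fun measurableSet_Ioo ?_
    intro θ hθ
    have hs : 0 < Real.sin θ := Real.sin_pos_of_pos_of_lt_pi hθ.1 hθ.2
    have hx : ff θ ∈ Ioo (0 : ℝ) 1 := ff_image ▸ mem_image_of_mem ff hθ
    have hxy : ff θ * (1 - ff θ) = (Real.sin θ / 2) ^ 2 := by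
      unfold ff
      have := Real.sin_sq_add_cos_sq θ
      nlinarith
    simp only [neg_neg]
    rw [← ENNReal.ofReal_mul (by positivity), ← ENNReal.ofReal_mul (by positivity)]
    congr 1
    have e1 : (2 : ℝ) + 2 * Real.cos θ = 2 ^ (2 : ℝ) * ff θ := by
      unfold ff
      norm_num
      ring
    have hx0 : 0 < ff θ := hx.1
    have hx1 : 0 < 1 - ff θ := by linarith [hx.2]
    have e2 : ff θ ^ (((m : ℝ) - 1 - q) / 2 - 1) = ff θ ^ (-(q / 2)) * ff θ ^ (((m : ℝ) - 3) / 2) := by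
      rw [← Real.rpow_add hx0]
      congr 1; ring
    have e3 : ff θ ^ (((m : ℝ) - 3) / 2) * (1 - ff θ) ^ (((m : ℝ) - 1) / 2 - 1) =
        (Real.sin θ / 2) ^ ((m : ℝ) - 3) := by
      have : ((m : ℝ) - 1) / 2 - 1 = ((m : ℝ) - 3) / 2 := by ring
      rw [this, ← Real.mul_rpow hx0.le hx1.le, hxy, ← Real.rpow_natCast, ← Real.rpow_mul (by positivity)]
      congr 1
      push_cast; ring
    have e4 : (Real.sin θ / 2) * (Real.sin θ / 2) ^ ((m : ℝ) - 3) = (Real.sin θ / 2) ^ (m - 2) := by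
      rw [← Real.rpow_natCast, Nat.cast_sub hm]
      have : ((m : ℝ) - ((2 : ℕ) : ℝ)) = 1 + ((m : ℝ) - 3) := by push_cast; ring
      rw [this, Real.rpow_add (by positivity), Real.rpow_one]
    have e5 : (Real.sin θ) ^ (m - 2) = 2 ^ ((m : ℝ) - 2) * (Real.sin θ / 2) ^ (m - 2) := by
      have : (2 : ℝ) ^ ((m : ℝ) - 2) = 2 ^ (m - 2) := by
        rw [← Real.rpow_natCast, Nat.cast_sub hm]; norm_num
      rw [this, ← mul_pow]
      congr 1; ring
    have e6 : (2 : ℝ) ^ ((m : ℝ) - 2 - q) = 2 ^ ((m : ℝ) - 2) * 2 ^ (-q) := by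
      rw [← Real.rpow_add (by norm_num)]
      congr 1
    have e7 : ((2 : ℝ) ^ (2 : ℝ)) ^ (-(q / 2)) = 2 ^ (-q) := by
      rw [← Real.rpow_mul (by norm_num)]
      congr 1; ring
    rw [e1, Real.mul_rpow (by positivity) hx0.le, e7, e5, e6, e2]
    calc (2 : ℝ) ^ (-q) * ff θ ^ (-(q / 2)) * (2 ^ ((m : ℝ) - 2) * (Real.sin θ / 2) ^ (m - 2))
        = 2 ^ ((m : ℝ) - 2) * 2 ^ (-q) * (ff θ ^ (-(q / 2)) * (Real.sin θ / 2) ^ (m - 2)) := by ring
      _ = 2 ^ ((m : ℝ) - 2) * 2 ^ (-q) * (ff θ ^ (-(q / 2)) *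
          ((Real.sin θ / 2) * (ff θ ^ (((m : ℝ) - 3) / 2) * (1 - ff θ) ^ (((m : ℝ) - 1) / 2 - 1)))) := by
          rw [e3, e4]
      _ = _ := by ring
  · intro θ hθ
    have h := ((Real.hasDerivAt_cos θ).const_add 1).div_const 2
    rw [neg_div] at h
    exact HasDerivAt.hasDerivWithinAt h
  · intro a ha b hb hab
    unfold ff
    have := Real.cos_le_cos_of_nonneg_of_le_pi ha.1.le hb.2.le hab
    linarith

theorem Wal_eq {m : ℕ} (hm : 2 ≤ m) :
    Wal m = 2 ^ ((m : ℝ) - 2) * ProbabilityTheory.beta (((m : ℝ) - 1) / 2) (((m : ℝ) - 1) / 2) := by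
  have hm' : (2 : ℝ) ≤ m := by exact_mod_cast hm
  have h := int_eq hm (q := 0) (by linarith)
  simp only [zero_div, neg_zero, Real.rpow_zero, one_mul, sub_zero] at h
  have hb := ProbabilityTheory.beta_pos (α := ((m : ℝ) - 1) / 2) (β := ((m : ℝ) - 1) / 2)
    (by linarith) (by linarith)
  have h2 : ENNReal.ofReal (Wal m) =
      ∫⁻ θ in Ioo 0 π, ENNReal.ofReal (Real.sin θ ^ (m - 2)) := by
    unfold Wal
    have hc : Continuous fun θ : ℝ => Real.sin θ ^ (m - 2) := by fun_prop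
    rw [intervalIntegral.integral_of_le Real.pi_pos.le, integral_Ioc_eq_integral_Ioo,
      ofReal_integral_eq_lintegral_ofReal]
    · exact (hc.integrableOn_Icc (a := 0) (b := π)).mono_set Ioo_subset_Icc_self
    · refine ae_restrict_of_forall_mem measurableSet_Ioo fun θ hθ => ?_
      have := Real.sin_pos_of_pos_of_lt_pi hθ.1 hθ.2
      show 0 ≤ Real.sin θ ^ (m - 2)
      positivity
  rw [h] at h2
  have h3 := (ENNReal.ofReal_eq_ofReal_iff (Wal_pos m).le (by positivity)).1 h2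
  exact h3

end hE_one_eq_aux

open hE_one_eq_aux in
theorem hE_one_eq {m : ℕ} (hm : 2 ≤ m) {q : ℝ} (hq : 0 ≤ q) (hqm : q < m - 1) :
    hE m q 1 = ENNReal.ofReal (2 ^ (-(q / 2)) * C2 m q) := by
  have hm' : (2 : ℝ) ≤ m := by exact_mod_cast hm
  have e : ∫⁻ θ in Ioo 0 π,
      ENNReal.ofReal ((1 + 2 * 1 * Real.cos θ + 1 ^ 2) ^ (-(q / 2)) * Real.sin θ ^ (m - 2)) =
      ∫⁻ θ in Ioo 0 π, ENNReal.ofReal ((2 + 2 * Real.cos θ) ^ (-(q / 2)) * Real.sin θ ^ (m - 2)) := by
    refine setLIntegral_congr_fun measurableSet_Ioo ?_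
    intro θ _
    have : (1 : ℝ) + 2 * 1 * Real.cos θ + 1 ^ 2 = 2 + 2 * Real.cos θ := by ring
    simp only [this]
  unfold hE
  rw [e, int_eq hm hqm, ← ENNReal.ofReal_mul (by have := Wal_pos m; positivity), Wal_eq hm]
  congr 1
  unfold C2 ProbabilityTheory.beta
  have g1 : 0 < Real.Gamma ((m : ℝ) - 1) := Real.Gamma_pos_of_pos (by linarith)
  have g2 : 0 < Real.Gamma (((m : ℝ) - 1) / 2) := Real.Gamma_pos_of_pos (by linarith)
  have g3 : 0 < Real.Gamma ((m : ℝ) - 1 - q / 2) := Real.Gamma_pos_of_pos (by linarith)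
  have a1 : ((m : ℝ) - 1) / 2 + ((m : ℝ) - 1) / 2 = (m : ℝ) - 1 := by ring
  have a2 : ((m : ℝ) - 1 - q) / 2 + ((m : ℝ) - 1) / 2 = (m : ℝ) - 1 - q / 2 := by ring
  rw [a1, a2]
  have e6 : (2 : ℝ) ^ ((m : ℝ) - 2 - q) = 2 ^ ((m : ℝ) - 2) * (2 ^ (-(q / 2)) * 2 ^ (-(q / 2))) := by
    rw [← Real.rpow_add (by norm_num), ← Real.rpow_add (by norm_num)]
    congr 1
    ring
  rw [e6]
  have p1 : (0 : ℝ) < 2 ^ ((m : ℝ) - 2) := by positivity
  field_simp

end

section

namespace inner_lint_aux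

theorem ex_dir {m : ℕ} (hm : 2 ≤ m) {a : ℝ} (ha : a ≠ 0) (y : EE m) :
    ∃ e : EE m, ‖e‖ = 1 ∧ ∀ x : EE m, a * inner ℝ y x = |a| * ‖y‖ * inner ℝ e x := by
  rcases eq_or_ne y 0 with rfl | hy
  · refine ⟨EuclideanSpace.single (⟨0, by omega⟩ : Fin m) (1 : ℝ), by simp, fun x => ?_⟩
    simp
  · have hn : ‖y‖ ≠ 0 := norm_ne_zero_iff.2 hy
    have ha' : |a| ≠ 0 := abs_ne_zero.2 ha
    refine ⟨(a / (|a| * ‖y‖)) • y, ?_, fun x => ?_⟩
    · rw [norm_smul, Real.norm_eq_abs, abs_div, abs_mul, abs_abs, abs_norm]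
      field_simp
    · rw [real_inner_smul_left]
      field_simp

theorem enorm_rpow_neg {m : ℕ} (z : EE m) (q : ℝ) :
    ‖z‖ₑ ^ (-q) = (ENNReal.ofReal (‖z‖ ^ 2)) ^ (-(q / 2)) := by
  rw [ENNReal.ofReal_pow (norm_nonneg z), ofReal_norm, ← ENNReal.rpow_natCast,
    ← ENNReal.rpow_mul]
  congr 1
  push_cast
  ring

end inner_lint_aux

theorem inner_lint {m : ℕ} (hm : 2 ≤ m) {q : ℝ} (hq : 0 < q) {a : ℝ} (ha : a ≠ 0) (y : EE m) :
    ∫⁻ x, ‖a • x + y‖ₑ ^ (-q) ∂(unif m) = ENNReal.ofReal (|a| ^ (-q)) * hE m q (‖y‖ / |a|) := by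
  obtain ⟨e, he, hey⟩ := inner_lint_aux.ex_dir hm ha y
  have ha' : 0 < |a| := abs_pos.2 ha
  set r : ℝ := ‖y‖ / |a| with hr
  let F : ℝ → ℝ≥0∞ := fun s =>
    (ENNReal.ofReal (|a| ^ 2 * (1 + 2 * r * s + r ^ 2))) ^ (-(q / 2))
  have hF : Measurable F := by
    apply Measurable.pow_const
    apply ENNReal.measurable_ofReal.comp
    fun_prop
  have h1 : ∫⁻ x, ‖a • x + y‖ₑ ^ (-q) ∂(unif m) = ∫⁻ x, F (inner ℝ e x) ∂(unif m) := by
    apply lintegral_congr_ae
    filter_upwards [unif_norm (m := m) (by omega)] with x hx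
    rw [inner_lint_aux.enorm_rpow_neg]
    have h2 : ‖a • x + y‖ ^ 2 = |a| ^ 2 * (1 + 2 * r * inner ℝ e x + r ^ 2) := by
      rw [norm_add_sq_real, norm_smul, hx, mul_one, Real.norm_eq_abs, real_inner_smul_left,
        real_inner_comm, hey x, hr]
      field_simp
    rw [h2]
  rw [h1, unif_law hm e he F hF, hE]
  have h3 : ∫⁻ θ in Ioo 0 π, F (Real.cos θ) * ENNReal.ofReal (Real.sin θ ^ (m - 2))
      = ENNReal.ofReal (|a| ^ (-q)) * ∫⁻ θ in Ioo 0 π,
        ENNReal.ofReal ((1 + 2 * r * Real.cos θ + r ^ 2) ^ (-(q / 2)) *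
          Real.sin θ ^ (m - 2)) := by
    rw [← lintegral_const_mul' _ _ ENNReal.ofReal_ne_top]
    apply setLIntegral_congr_fun measurableSet_Ioo
    intro θ hθ
    have hs : 0 < Real.sin θ := Real.sin_pos_of_pos_of_lt_pi hθ.1 hθ.2
    have hD : 0 < 1 + 2 * r * Real.cos θ + r ^ 2 := by
      have h4 := Real.sin_sq_add_cos_sq θ
      nlinarith [sq_nonneg (r + Real.cos θ), mul_pos hs hs]
    have h5 : F (Real.cos θ)
        = ENNReal.ofReal (|a| ^ (-q) * (1 + 2 * r * Real.cos θ + r ^ 2) ^ (-(q / 2))) := by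
      simp only [F]
      rw [ENNReal.ofReal_rpow_of_pos (by positivity), Real.mul_rpow (by positivity) hD.le]
      congr 2
      rw [← Real.rpow_natCast, ← Real.rpow_mul ha'.le]
      congr 1
      push_cast
      ring
    simp only []
    rw [h5, ENNReal.ofReal_mul (by positivity), mul_assoc,
      ENNReal.ofReal_mul (Real.rpow_nonneg hD.le _)]
  rw [h3, mul_left_comm]

end

section

namespace EN_cond_aux
-- auxiliary lemmas here
end EN_cond_aux

theorem EN_cond {m n : ℕ} (hm : 2 ≤ m) {q : ℝ} (hq : 0 < q) (a : Fin (n + 1) → ℝ)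
    (i : Fin (n + 1)) (hi : a i ≠ 0) :
    EN m q a = ∫⁻ z : Fin n → EE m, ENNReal.ofReal (|a i| ^ (-q)) *
      hE m q (‖∑ j, a (i.succAbove j) • z j‖ / |a i|) ∂(Measure.pi fun _ => unif m) := by
  have hprob : IsProbabilityMeasure (unif m) := unif_prob (by omega)
  have mp := measurePreserving_piFinSuccAbove (fun _ : Fin (n + 1) => unif m) i
  set Y : (Fin n → EE m) → EE m := fun z => ∑ j, a (i.succAbove j) • z j with hY
  have hYc : Continuous Y := by
    rw [hY]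
    exact continuous_finsetSum _ fun j _ => (continuous_apply j).const_smul (a (i.succAbove j))
  set f : EE m × (Fin n → EE m) → ℝ≥0∞ := fun w => ‖a i • w.1 + Y w.2‖ₑ ^ (-q) with hf
  have hfm : Measurable f := by
    have h1 : Continuous (fun w : EE m × (Fin n → EE m) => a i • w.1 + Y w.2) :=
      (continuous_fst.const_smul (a i)).add (hYc.comp continuous_snd)
    exact h1.enorm.measurable.pow_const (-q)
  have e1 : EN m q a = ∫⁻ x : Fin (n + 1) → EE m,
      f (MeasurableEquiv.piFinSuccAbove (fun _ => EE m) i x) ∂(Measure.pi fun _ => unif m) := by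
    unfold EN
    refine lintegral_congr fun x => ?_
    show ‖∑ j, a j • x j‖ₑ ^ (-q) = ‖a i • x i + ∑ j, a (i.succAbove j) • x (i.succAbove j)‖ₑ ^ (-q)
    rw [Fin.sum_univ_succAbove (fun j => a j • x j) i]
  rw [e1, mp.lintegral_comp hfm, lintegral_prod_symm' f hfm]
  refine lintegral_congr fun z => ?_
  exact inner_lint hm hq hi (Y z)

end

section

namespace EN_pair_aux
-- auxiliary lemmas here
end EN_pair_aux

theorem EN_pair {m : ℕ} (hm : 2 ≤ m) {q : ℝ} (hq : 0 < q) (hqm : q < m - 1) :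
    EN m q (fun _ : Fin 2 => 1 / Real.sqrt 2) = ENNReal.ofReal (C2 m q) := by
  have hs : (0 : ℝ) < 1 / Real.sqrt 2 := by positivity
  have : IsProbabilityMeasure (unif m) := unif_prob (by omega)
  rw [EN_cond hm hq (fun _ : Fin 2 => 1 / Real.sqrt 2) 0 hs.ne']
  have hae : ∀ᵐ z ∂(Measure.pi fun _ : Fin 1 => unif m),
      ENNReal.ofReal (|(1 / Real.sqrt 2 : ℝ)| ^ (-q)) *
        hE m q (‖∑ j : Fin 1, (1 / Real.sqrt 2 : ℝ) • z j‖ / |(1 / Real.sqrt 2 : ℝ)|)
        = ENNReal.ofReal (C2 m q) := by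
    have h1 : ∀ᵐ z ∂(Measure.pi fun _ : Fin 1 => unif m), ‖z 0‖ = 1 := by
      have hmp := MeasureTheory.measurePreserving_eval (fun _ : Fin 1 => unif m) 0
      exact hmp.quasiMeasurePreserving.ae (unif_norm (by omega))
    filter_upwards [h1] with z hz
    have h2 : ‖∑ j : Fin 1, (1 / Real.sqrt 2 : ℝ) • z j‖ / |(1 / Real.sqrt 2 : ℝ)| = 1 := by
      rw [Fin.sum_univ_one, norm_smul, hz, mul_one, Real.norm_eq_abs]
      exact div_self (abs_pos.mpr hs.ne').ne'
    rw [h2, hE_one_eq hm hq.le hqm, abs_of_pos hs, ← ENNReal.ofReal_mul (by positivity)]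
    congr 1
    rw [← mul_assoc]
    have h3 : (1 / Real.sqrt 2 : ℝ) ^ (-q) * 2 ^ (-(q / 2)) = 1 := by
      rw [Real.sqrt_eq_rpow, one_div, ← Real.rpow_neg (by norm_num),
        ← Real.rpow_mul (by norm_num), ← Real.rpow_add (by norm_num)]
      have : -(1 / 2 : ℝ) * -q + -(q / 2) = 0 := by ring
      rw [this, Real.rpow_zero]
    rw [h3, one_mul]
  rw [lintegral_congr_ae hae]
  simp

end

section

namespace KP_two_aux
-- auxiliary lemmas here
end KP_two_aux

theorem KP_two {m : ℕ} (hm : 2 ≤ m) {q : ℝ} (hq : 0 < q) (hqm : q < m - 1) :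
    KP m q 2 = C2 m q := by
  have hm1 : (2 : ℝ) ≤ m := by exact_mod_cast hm
  have hqm' : q < m := by linarith
  have hkap : 0 ≤ kap m q := by
    unfold kap
    have h1 := Real.Gamma_pos_of_pos (by linarith : 0 < ((m : ℝ) - q) / 2)
    have h2 := Real.Gamma_pos_of_pos (by linarith : 0 < q / 2)
    have h3 := Real.Gamma_pos_of_pos (by linarith : 0 < (m : ℝ) / 2)
    positivity
  have hC2 : 0 ≤ C2 m q := by
    unfold C2
    have h1 := Real.Gamma_pos_of_pos (by linarith : 0 < ((m : ℝ) - 1 - q) / 2)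
    have h2 := Real.Gamma_pos_of_pos (by linarith : 0 < (m : ℝ) - 1)
    have h3 := Real.Gamma_pos_of_pos (by linarith : 0 < (m : ℝ) - 1 - q / 2)
    have h4 := Real.Gamma_pos_of_pos (by linarith : 0 < ((m : ℝ) - 1) / 2)
    positivity
  obtain ⟨c, hc⟩ : ∃ c : ℝ, c = 1 / Real.sqrt 2 := ⟨_, rfl⟩
  have hc0 : 0 < c := by rw [hc]; positivity
  have hcq : c⁻¹ ^ q = 2 ^ (q / 2) := by
    rw [hc, one_div, inv_inv, Real.sqrt_eq_rpow, ← Real.rpow_mul (by norm_num)]
    congr 1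
    ring
  set J : ℝ := ∫ t in Ioi (0 : ℝ), bj ((m : ℝ) / 2) t ^ 2 * t ^ (q - 1) with hJ
  have hJint := bj_sq_integrable m hm hq hqm
  have hJ0 : 0 ≤ J := by
    apply setIntegral_nonneg measurableSet_Ioi
    intro t ht
    have := Real.rpow_nonneg (le_of_lt ht) (q - 1)
    positivity
  have hKP : KP m q 2 = kap m q * (2 ^ (q / 2) * J) := by
    unfold KP
    congr 2
    apply setIntegral_congr_fun measurableSet_Ioi
    intro t _
    simp only
    rw [Real.rpow_two, sq_abs]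
  -- the scaled integrand
  have hpt : ∀ t ∈ Ioi (0 : ℝ), bj ((m : ℝ) / 2) (c * t) ^ 2 * t ^ (q - 1) =
      (fun s => c⁻¹ ^ (q - 1) * (bj ((m : ℝ) / 2) s ^ 2 * s ^ (q - 1))) (c * t) := by
    intro t ht
    have ht0 : (0 : ℝ) ≤ t := le_of_lt ht
    simp only
    rw [Real.mul_rpow hc0.le ht0, Real.inv_rpow hc0.le]
    have h1 : c ^ (q - 1) ≠ 0 := (Real.rpow_pos_of_pos hc0 _).ne'
    field_simp
  have hint0 : IntegrableOn (fun s => c⁻¹ ^ (q - 1) * (bj ((m : ℝ) / 2) s ^ 2 * s ^ (q - 1)))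
      (Ioi (c * 0)) := by
    rw [mul_zero]
    exact hJint.const_mul _
  have hint : IntegrableOn (fun t => bj ((m : ℝ) / 2) (c * t) ^ 2 * t ^ (q - 1)) (Ioi 0) := by
    have h1 := (integrableOn_Ioi_comp_mul_left_iff _ 0 hc0).mpr hint0
    exact h1.congr_fun (fun t ht => (hpt t ht).symm) measurableSet_Ioi
  have hval : ∫ t in Ioi (0 : ℝ), bj ((m : ℝ) / 2) (c * t) ^ 2 * t ^ (q - 1) = 2 ^ (q / 2) * J := by
    rw [setIntegral_congr_fun measurableSet_Ioi hpt]
    rw [integral_comp_mul_left_Ioi (fun s => c⁻¹ ^ (q - 1) * (bj ((m : ℝ) / 2) s ^ 2 * s ^ (q - 1)))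
      0 hc0, mul_zero, integral_const_mul, ← hJ, smul_eq_mul, ← mul_assoc, ← hcq]
    congr 1
    rw [Real.rpow_sub_one (by positivity)]
    field_simp
  have h1 := EN_eq hm hq hqm' (fun _ : Fin 2 => c) (fun t _ => by
    rw [Fin.prod_univ_two]
    exact mul_self_nonneg _)
  rw [hc, EN_pair hm hq hqm, ← hc] at h1
  have h2 : ∫⁻ t in Ioi (0 : ℝ), ENNReal.ofReal ((∏ j : Fin 2, bj ((m : ℝ) / 2)
      ((fun _ : Fin 2 => c) j * t)) * t ^ (q - 1)) = ENNReal.ofReal (2 ^ (q / 2) * J) := by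
    rw [← hval, ofReal_integral_eq_lintegral_ofReal hint]
    · refine lintegral_congr fun t => ?_
      rw [Fin.prod_univ_two, ← sq]
    · filter_upwards [ae_restrict_mem measurableSet_Ioi] with t ht
      have := Real.rpow_nonneg (le_of_lt ht) (q - 1)
      positivity
  rw [h2, ← ENNReal.ofReal_mul hkap] at h1
  have h3 : 0 ≤ kap m q * (2 ^ (q / 2) * J) := by positivity
  rw [ENNReal.ofReal_eq_ofReal_iff hC2 h3] at h1
  rw [hKP, h1]

end

section

namespace KP_le_aux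
-- auxiliary lemmas here
end KP_le_aux

theorem KP_le {m : ℕ} (hm : 2 ≤ m) {q : ℝ} (hq : 0 < q) (hqm : q < m - 1) {s : ℝ} (hs : 2 ≤ s) :
    KP m q s ≤ max (C2 m q) (Cinf m q) := by
  have hm' : (2 : ℝ) ≤ m := by exact_mod_cast hm
  have hk : 0 ≤ kap m q := by
    unfold kap
    have h1 : 0 < Real.Gamma (((m : ℝ) - q) / 2) := Real.Gamma_pos_of_pos (by linarith)
    have h2 : 0 < Real.Gamma (q / 2) := Real.Gamma_pos_of_pos (by linarith)
    have h3 : 0 < Real.Gamma ((m : ℝ) / 2) := Real.Gamma_pos_of_pos (by linarith)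
    positivity
  have hb := ball_ineq m hm hq hqm hs
  have h2 := KP_two hm hq hqm
  have hg := KP_gauss hm hq (by linarith : q < m)
  rw [← h2, ← hg]
  unfold KP
  rw [← mul_max_of_nonneg _ _ hk]
  refine mul_le_mul_of_nonneg_left (hb.trans (le_of_eq ?_)) hk
  congr 2
  refine integral_congr_ae (Filter.Eventually.of_forall fun t => ?_)
  simp only
  rw [← sq_abs, ← Real.rpow_natCast]
  norm_num

end

section

namespace EN_small_aux
-- auxiliary lemmas here
end EN_small_aux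

theorem EN_small {m n : ℕ} (hm : 2 ≤ m) {q : ℝ} (hq : 0 < q) (hqm : q < m - 1) (a : Fin n → ℝ)
    (ha : ∑ j, a j ^ 2 = 1) (hs : ∀ j, a j ^ 2 ≤ 1 / 2) :
    EN m q a ≤ ENNReal.ofReal (max (C2 m q) (Cinf m q)) := by
  have hM : 0 < max (C2 m q) (Cinf m q) := lt_max_of_lt_left (C2_pos hm hq.le hqm)
  refine (EN_holder hm hq hqm a (fun j => a j ^ 2) (fun j hj => ⟨by positivity, hs j⟩)
    (fun j hj => by rw [hj]; norm_num) ha).trans (ENNReal.ofReal_le_ofReal ?_)
  calc (∏ j, ((a j ^ 2 / a j ^ 2) ^ (-(q / 2)) * KP m q (1 / a j ^ 2)) ^ (a j ^ 2))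
      ≤ ∏ j, (max (C2 m q) (Cinf m q)) ^ (a j ^ 2) := by
        refine Finset.prod_le_prod (fun j _ => ?_) (fun j _ => ?_)
        · exact Real.rpow_nonneg (mul_nonneg (Real.rpow_nonneg (by positivity) _)
            (KP_nonneg hm hq hqm _ (by positivity))) _
        · by_cases h0 : a j = 0
          · rw [h0]; norm_num
          · have h1 : (0 : ℝ) < a j ^ 2 := by positivity
            rw [div_self h1.ne', Real.one_rpow, one_mul]
            refine Real.rpow_le_rpow (KP_nonneg hm hq hqm _ (by positivity)) ?_ h1.le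
            refine KP_le hm hq hqm ?_
            rw [le_div_iff₀ h1]
            linarith [hs j]
    _ = max (C2 m q) (Cinf m q) := by
        rw [← Real.rpow_sum_of_pos hM, ha, Real.rpow_one]

end

section

namespace EN_cs_aux
-- auxiliary lemmas here
end EN_cs_aux

theorem EN_cs {m n : ℕ} (hm : 2 ≤ m) {q : ℝ} (hq : 0 < q) (hqm : q < m - 1) (a : Fin n → ℝ)
    (ha : ∑ j, a j ^ 2 = 1) (i : Fin n) {x : ℝ} (hx : 0 < x) (hx1 : x ≤ 1)
    (hi : a i ^ 2 = 1 / (1 + x)) :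
    EN m q a ≤ ENNReal.ofReal (((1 + x) ^ 2 / (4 * x)) ^ (q / 4) *
      Real.sqrt (C2 m q * max (C2 m q) (Cinf m q))) := by
  have hC : 0 < C2 m q := C2_pos hm hq.le hqm
  set M : ℝ := max (C2 m q) (Cinf m q) with hM
  have hMpos : 0 < M := lt_max_of_lt_left hC
  have h1x : (0 : ℝ) < 1 + x := by linarith
  have hsum : ∑ j ∈ Finset.univ.erase i, a j ^ 2 = x / (1 + x) := by
    have h := Finset.add_sum_erase Finset.univ (fun j => a j ^ 2) (Finset.mem_univ i)
    rw [ha, hi] at h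
    have h2 : (1 : ℝ) - 1 / (1 + x) = x / (1 + x) := by
      field_simp
      ring
    linarith
  have hle : ∀ j, j ≠ i → a j ^ 2 ≤ x / (1 + x) := by
    intro j hj
    rw [← hsum]
    exact Finset.single_le_sum (f := fun j => a j ^ 2) (fun k _ => sq_nonneg (a k))
      (Finset.mem_erase.mpr ⟨hj, Finset.mem_univ j⟩)
  set w : Fin n → ℝ := fun j => if j = i then 1 / 2 else a j ^ 2 * ((1 + x) / (2 * x)) with hwdef
  have hwi : w i = 1 / 2 := by simp [hwdef]
  have hwj : ∀ j, j ≠ i → w j = a j ^ 2 * ((1 + x) / (2 * x)) := by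
    intro j hj
    simp [hwdef, hj]
  have hai : a i ≠ 0 := by
    intro h0
    rw [h0] at hi
    have : (0 : ℝ) < 1 / (1 + x) := by positivity
    nlinarith [hi, this]
  have hwsum' : ∑ j ∈ Finset.univ.erase i, w j = 1 / 2 := by
    rw [Finset.sum_congr rfl (fun j hj => hwj j (Finset.ne_of_mem_erase hj)), ← Finset.sum_mul,
      hsum]
    field_simp
  have hwsum : ∑ j, w j = 1 := by
    rw [← Finset.add_sum_erase Finset.univ w (Finset.mem_univ i), hwi, hwsum']
    norm_num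
  have hwle : ∀ j, j ≠ i → w j ≤ 1 / 2 := by
    intro j hj
    rw [hwj j hj]
    calc a j ^ 2 * ((1 + x) / (2 * x)) ≤ x / (1 + x) * ((1 + x) / (2 * x)) :=
          mul_le_mul_of_nonneg_right (hle j hj) (by positivity)
      _ = 1 / 2 := by field_simp
  have hwpos : ∀ j, a j ≠ 0 → 0 < w j ∧ w j ≤ 1 / 2 := by
    intro j hj
    by_cases hji : j = i
    · rw [hji, hwi]
      norm_num
    · refine ⟨?_, hwle j hji⟩
      rw [hwj j hji]
      positivity
  have hw0 : ∀ j, a j = 0 → w j = 0 := by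
    intro j hj
    have hji : j ≠ i := fun h => hai (h ▸ hj)
    rw [hwj j hji, hj]
    simp
  refine (EN_holder hm hq hqm a w hwpos hw0 hwsum).trans (ENNReal.ofReal_le_ofReal ?_)
  rw [← Finset.mul_prod_erase Finset.univ _ (Finset.mem_univ i)]
  set A : ℝ := (2 * x / (1 + x)) ^ (-(q / 2)) with hA
  have hApos : 0 < A := by positivity
  have hfac : ∀ j ∈ Finset.univ.erase i,
      ((a j ^ 2 / w j) ^ (-(q / 2)) * KP m q (1 / w j)) ^ w j ≤ (A * M) ^ w j := by
    intro j hj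
    have hji : j ≠ i := Finset.ne_of_mem_erase hj
    by_cases h0 : a j = 0
    · rw [hw0 j h0]
      simp
    · obtain ⟨hp, hl⟩ := hwpos j h0
      have hrat : a j ^ 2 / w j = 2 * x / (1 + x) := by
        rw [hwj j hji]
        field_simp
      have hs2 : 2 ≤ 1 / w j := by
        rw [le_div_iff₀ hp]
        linarith
      have hK := KP_le hm hq hqm hs2
      have hK0 := KP_nonneg hm hq hqm (1 / w j) (by positivity)
      rw [hrat]
      exact Real.rpow_le_rpow (mul_nonneg hApos.le hK0)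
        (mul_le_mul_of_nonneg_left hK hApos.le) hp.le
  have hprod : ∏ j ∈ Finset.univ.erase i,
      ((a j ^ 2 / w j) ^ (-(q / 2)) * KP m q (1 / w j)) ^ w j ≤ (A * M) ^ (1 / 2 : ℝ) := by
    refine (Finset.prod_le_prod (fun j hj => ?_) hfac).trans (le_of_eq ?_)
    · by_cases h0 : a j = 0
      · rw [hw0 j h0]
        simp
      · obtain ⟨hp, hl⟩ := hwpos j h0
        have hK0 := KP_nonneg hm hq hqm (1 / w j) (by positivity)
        positivity
    · rw [← hwsum', Real.rpow_sum_of_pos (mul_pos hApos hMpos)]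
  have hi2 : ((a i ^ 2 / w i) ^ (-(q / 2)) * KP m q (1 / w i)) ^ w i =
      ((2 / (1 + x)) ^ (-(q / 2)) * C2 m q) ^ (1 / 2 : ℝ) := by
    rw [hwi, hi, ← KP_two hm hq hqm]
    congr 3
    · field_simp
    · norm_num
  rw [hi2]
  refine (mul_le_mul_of_nonneg_left hprod (by positivity)).trans (le_of_eq ?_)
  rw [← Real.mul_rpow (by positivity) (by positivity)]
  have hre : (2 / (1 + x)) ^ (-(q / 2)) * C2 m q * (A * M) =
      ((1 + x) ^ 2 / (4 * x)) ^ (q / 2) * (C2 m q * M) := by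
    have h3 : (2 / (1 + x)) ^ (-(q / 2)) * A = ((1 + x) ^ 2 / (4 * x)) ^ (q / 2) := by
      rw [hA, ← Real.mul_rpow (by positivity) (by positivity), Real.rpow_neg (by positivity),
        ← Real.inv_rpow (by positivity)]
      congr 1
      field_simp
      ring
    rw [← h3]
    ring
  rw [hre, Real.mul_rpow (by positivity) (by positivity), ← Real.rpow_mul (by positivity),
    Real.sqrt_eq_rpow]
  congr 2
  ring

end

end H618KS
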