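import Pool.Agent.Helper618_KS.Defs
import Pool.Agent.Helper618_KS.Unif

/-!
Part `Smean` of the proof for MP_237b21_an.
-/

open MeasureTheory Filter Topology Set Real
open scoped ENNReal NNReal

set_option autoImplicit false

namespace H618KS

section

namespace sm_hasDerivAt_aux

theorem D_pos_of_lt {ε x : ℝ} (hε : 0 ≤ ε) (h1 : -1 < x) (h2 : x < 1) (θ : ℝ) :
    0 < 1 + 2 * x * Real.cos θ + x ^ 2 + ε := by
  have hs := Real.sin_sq_add_cos_sq θ
  rcases eq_or_ne (Real.sin θ) 0 with h | h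
  · have hc : Real.cos θ ^ 2 = 1 := by rw [h] at hs; nlinarith
    have hc' : Real.cos θ = 1 ∨ Real.cos θ = -1 := by
      have : (Real.cos θ - 1) * (Real.cos θ + 1) = 0 := by nlinarith
      rcases mul_eq_zero.1 this with h | h
      · left; linarith
      · right; linarith
    rcases hc' with h | h <;> rw [h] <;> nlinarith
  · have : 0 < Real.sin θ ^ 2 := by positivity
    nlinarith [sq_nonneg (x + Real.cos θ)]

theorem D_pos_of_eps {ε x : ℝ} (hε : 0 < ε) (θ : ℝ) :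
    0 < 1 + 2 * x * Real.cos θ + x ^ 2 + ε := by
  have hs := Real.sin_sq_add_cos_sq θ
  nlinarith [sq_nonneg (x + Real.cos θ), sq_nonneg (Real.sin θ)]

theorem exists_nhd {ε r : ℝ} (hε : 0 ≤ ε) (hr : 0 ≤ r) (h : 0 < ε ∨ r < 1) :
    ∃ δ : ℝ, 0 < δ ∧ ∀ x ∈ Icc (r - δ) (r + δ), ∀ θ : ℝ,
      0 < 1 + 2 * x * Real.cos θ + x ^ 2 + ε := by
  rcases h with h | h
  · exact ⟨1, one_pos, fun x _ θ => D_pos_of_eps h θ⟩
  · refine ⟨(1 - r) / 2, by linarith, fun x hx θ => ?_⟩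
    obtain ⟨h1, h2⟩ := hx
    exact D_pos_of_lt hε (by linarith) (by linarith) θ

theorem key {m : ℕ} {ε q r : ℝ} (hε : 0 ≤ ε) (hr : 0 ≤ r) (h : 0 < ε ∨ r < 1) :
    HasDerivAt (fun r => ∫ θ in (0 : ℝ)..π,
      (1 + 2 * r * Real.cos θ + r ^ 2 + ε) ^ (-(q / 2)) * Real.sin θ ^ (m - 2))
      (∫ θ in (0 : ℝ)..π,
    -(q * (Real.cos θ + r)) * (1 + 2 * r * Real.cos θ + r ^ 2 + ε) ^ (-(q / 2) - 1) *
      Real.sin θ ^ (m - 2)) r := by
  obtain ⟨δ, hδ, hD⟩ := exists_nhd hε hr h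
  have hs : Icc (r - δ) (r + δ) ∈ 𝓝 r := Icc_mem_nhds (by linarith) (by linarith)
  -- continuity of D
  have hDc : Continuous (fun p : ℝ × ℝ => 1 + 2 * p.1 * Real.cos p.2 + p.1 ^ 2 + ε) := by
    fun_prop
  have hF'c : ContinuousOn (fun p : ℝ × ℝ => -(q * (Real.cos p.2 + p.1)) *
      (1 + 2 * p.1 * Real.cos p.2 + p.1 ^ 2 + ε) ^ (-(q / 2) - 1) * Real.sin p.2 ^ (m - 2))
      (Icc (r - δ) (r + δ) ×ˢ (univ : Set ℝ)) := by
    refine ContinuousOn.mul (ContinuousOn.mul (by fun_prop) ?_) (by fun_prop)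
    refine ContinuousOn.rpow_const hDc.continuousOn ?_
    rintro ⟨x, θ⟩ ⟨hx, _⟩
    exact Or.inl (hD x hx θ).ne'
  have hFc : ∀ x ∈ Icc (r - δ) (r + δ), Continuous (fun θ : ℝ =>
      (1 + 2 * x * Real.cos θ + x ^ 2 + ε) ^ (-(q / 2)) * Real.sin θ ^ (m - 2)) := by
    intro x hx
    refine Continuous.mul ?_ (by fun_prop)
    refine Continuous.rpow_const (by fun_prop) ?_
    intro θ
    exact Or.inl (hD x hx θ).ne'
  have hF'cx : ∀ x ∈ Icc (r - δ) (r + δ), Continuous (fun θ : ℝ =>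
      -(q * (Real.cos θ + x)) * (1 + 2 * x * Real.cos θ + x ^ 2 + ε) ^ (-(q / 2) - 1) *
        Real.sin θ ^ (m - 2)) := by
    intro x hx
    refine Continuous.mul (Continuous.mul (by fun_prop) ?_) (by fun_prop)
    refine Continuous.rpow_const (by fun_prop) ?_
    intro θ
    exact Or.inl (hD x hx θ).ne'
  have hrmem : r ∈ Icc (r - δ) (r + δ) := ⟨by linarith, by linarith⟩
  obtain ⟨C, hC⟩ := ((isCompact_Icc (a := r - δ) (b := r + δ)).prod
    (isCompact_Icc (a := (0 : ℝ)) (b := π))).exists_bound_of_continuousOn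
    (hF'c.mono (prod_mono_right (subset_univ _)))
  refine (intervalIntegral.hasDerivAt_integral_of_dominated_loc_of_deriv_le
    (F := fun x θ => (1 + 2 * x * Real.cos θ + x ^ 2 + ε) ^ (-(q / 2)) * Real.sin θ ^ (m - 2))
    (F' := fun x θ => -(q * (Real.cos θ + x)) *
      (1 + 2 * x * Real.cos θ + x ^ 2 + ε) ^ (-(q / 2) - 1) * Real.sin θ ^ (m - 2))
    (bound := fun _ => C) hs ?_ ?_ ?_ ?_ ?_ ?_).2
  · filter_upwards [hs] with x hx
    exact (hFc x hx).aestronglyMeasurable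
  · exact (hFc r hrmem).intervalIntegrable _ _
  · exact (hF'cx r hrmem).aestronglyMeasurable
  · refine Filter.Eventually.of_forall ?_
    intro θ hθ x hx
    rw [uIoc_of_le Real.pi_pos.le] at hθ
    exact hC (x, θ) ⟨hx, ⟨hθ.1.le, hθ.2⟩⟩
  · exact intervalIntegrable_const
  · refine Filter.Eventually.of_forall ?_
    intro θ _ x hx
    have h1 : HasDerivAt (fun x : ℝ => 1 + 2 * x * Real.cos θ + x ^ 2 + ε)
        (2 * Real.cos θ + 2 * x) x := by
      have ha : HasDerivAt (fun x : ℝ => 2 * x * Real.cos θ) (2 * Real.cos θ) x := by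
        simpa using ((hasDerivAt_id x).const_mul 2).mul_const (Real.cos θ)
      have hb : HasDerivAt (fun x : ℝ => x ^ 2) (2 * x) x := by
        simpa using hasDerivAt_pow 2 x
      have := ((ha.const_add 1).add hb).add_const ε
      exact this
    have h2 := h1.rpow_const (p := -(q / 2)) (Or.inl (hD x hx θ).ne')
    have h3 := h2.mul_const (Real.sin θ ^ (m - 2))
    refine h3.congr_deriv ?_
    ring

end sm_hasDerivAt_aux

theorem sm_hasDerivAt {m : ℕ} (hm : 2 ≤ m) {ε q r : ℝ} (hε : 0 ≤ ε) (hr : 0 ≤ r)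
    (h : 0 < ε ∨ r < 1) : HasDerivAt (sm m ε q) (smd m ε q r) r := by
  exact (sm_hasDerivAt_aux.key (m := m) (q := q) hε hr h).const_mul (Wal m)⁻¹

end

section

namespace smd_hasDerivAt_aux

/-- The base of the powers. -/
noncomputable def D (ε s θ : ℝ) : ℝ := 1 + 2 * s * Real.cos θ + s ^ 2 + ε

lemma D_pos {ε s : ℝ} (θ : ℝ) (hε : 0 ≤ ε) (h : 0 < ε ∨ (0 < s ∧ s < 1)) : 0 < D ε s θ := by
  unfold D
  rcases h with h | ⟨h0, h1⟩
  · nlinarith [Real.sin_sq_add_cos_sq θ, sq_nonneg (Real.cos θ + s), sq_nonneg (Real.sin θ)]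
  · have := Real.neg_one_le_cos θ
    have h2 : 0 < (1 - s) ^ 2 := by
      apply sq_pos_of_pos
      linarith
    nlinarith

/-- The integrand. -/
noncomputable def F (k : ℕ) (ε q s θ : ℝ) : ℝ :=
  s ^ (k + 1) * (-(q * (Real.cos θ + s)) * (D ε s θ) ^ (-(q / 2) - 1) * Real.sin θ ^ k)

/-- Its derivative in `s`. -/
noncomputable def F' (k : ℕ) (ε q s θ : ℝ) : ℝ :=
  (((k + 1 : ℝ) * s ^ k) * (-(q * (Real.cos θ + s))) * (D ε s θ) ^ (-(q / 2) - 1)
    + s ^ (k + 1) * (-q) * (D ε s θ) ^ (-(q / 2) - 1)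
    + s ^ (k + 1) * (-(q * (Real.cos θ + s))) *
      ((-(q / 2) - 1) * (D ε s θ) ^ (-(q / 2) - 2) * (2 * Real.cos θ + 2 * s))) *
    Real.sin θ ^ k

lemma hasDerivAt_D (ε s θ : ℝ) : HasDerivAt (fun s => D ε s θ) (2 * Real.cos θ + 2 * s) s := by
  unfold D
  have h1 : HasDerivAt (fun s : ℝ => 1 + 2 * s * Real.cos θ) (2 * Real.cos θ) s := by
    have := (((hasDerivAt_id s).const_mul 2).mul_const (Real.cos θ)).const_add 1
    simpa using this
  have h2 : HasDerivAt (fun s : ℝ => s ^ 2) (2 * s) s := by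
    simpa using hasDerivAt_pow 2 s
  exact (h1.add h2).add_const ε

lemma hasDerivAt_F {k : ℕ} {ε q s θ : ℝ} (hD : 0 < D ε s θ) :
    HasDerivAt (fun s => F k ε q s θ) (F' k ε q s θ) s := by
  unfold F F'
  have h1 : HasDerivAt (fun s : ℝ => s ^ (k + 1)) ((k + 1 : ℝ) * s ^ k) s := by
    have := hasDerivAt_pow (k + 1) s
    simpa using this
  have h2 : HasDerivAt (fun s : ℝ => -(q * (Real.cos θ + s))) (-q) s := by
    have := (((hasDerivAt_id s).const_add (Real.cos θ)).const_mul q).neg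
    exact this.congr_deriv (by ring)
  have h3 : HasDerivAt (fun s : ℝ => (D ε s θ) ^ (-(q / 2) - 1))
      ((2 * Real.cos θ + 2 * s) * (-(q / 2) - 1) * (D ε s θ) ^ (-(q / 2) - 1 - 1)) s :=
    (hasDerivAt_D ε s θ).rpow_const (Or.inl hD.ne')
  have h4 := h1.mul ((h2.mul h3).mul_const (Real.sin θ ^ k))
  have e : -(q / 2) - 1 - 1 = -(q / 2) - 2 := by ring
  rw [e] at h4
  refine h4.congr_deriv ?_
  simp only [Pi.mul_apply]
  ring

lemma cont_D (ε : ℝ) : Continuous (fun p : ℝ × ℝ => D ε p.1 p.2) := by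
  unfold D
  fun_prop

lemma contOn_F' {k : ℕ} {ε q : ℝ} {S : Set (ℝ × ℝ)} (hS : ∀ p ∈ S, 0 < D ε p.1 p.2) :
    ContinuousOn (fun p : ℝ × ℝ => F' k ε q p.1 p.2) S := by
  have h1 : ∀ c : ℝ, ContinuousOn (fun p : ℝ × ℝ => (D ε p.1 p.2) ^ c) S := fun c =>
    (cont_D ε).continuousOn.rpow_const fun p hp => Or.inl (hS p hp).ne'
  have h2 := h1 (-(q / 2) - 1)
  have h3 := h1 (-(q / 2) - 2)
  unfold F'
  fun_prop

lemma cont_F {k : ℕ} {ε q s : ℝ} (hs : ∀ θ, 0 < D ε s θ) : Continuous (F k ε q s) := by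
  have h1 : Continuous (fun θ : ℝ => (D ε s θ) ^ (-(q / 2) - 1)) := by
    apply Continuous.rpow_const
    · unfold D
      fun_prop
    · intro θ
      exact Or.inl (hs θ).ne'
  unfold F
  fun_prop

lemma cont_rpow {ε s : ℝ} (hs : ∀ θ, 0 < D ε s θ) (c : ℝ) :
    Continuous (fun θ : ℝ => (D ε s θ) ^ c) := by
  apply Continuous.rpow_const
  · unfold D
    fun_prop
  · intro θ
    exact Or.inl (hs θ).ne'

lemma nbhd {ε r : ℝ} (hr : 0 < r) (h : 0 < ε ∨ r < 1) :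
    ∃ δ > 0, ∀ s ∈ Metric.closedBall r δ, 0 < ε ∨ (0 < s ∧ s < 1) := by
  rcases h with h | h
  · exact ⟨1, one_pos, fun _ _ => Or.inl h⟩
  · refine ⟨min r (1 - r) / 2, ?_, ?_⟩
    · have : 0 < min r (1 - r) := lt_min hr (by linarith)
      positivity
    · intro s hs
      right
      rw [Metric.mem_closedBall, Real.dist_eq, abs_le] at hs
      have h1 := min_le_left r (1 - r)
      have h2 := min_le_right r (1 - r)
      constructor <;> linarith [hs.1, hs.2]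

lemma hasDerivAt_int {k : ℕ} {ε q r : ℝ} (hε : 0 ≤ ε) (hr : 0 < r) (h : 0 < ε ∨ r < 1) :
    HasDerivAt (fun s => ∫ θ in (0 : ℝ)..π, F k ε q s θ) (∫ θ in (0 : ℝ)..π, F' k ε q r θ) r := by
  obtain ⟨δ, hδ, hK⟩ := nbhd (ε := ε) hr h
  have hpos : ∀ s ∈ Metric.closedBall r δ, ∀ θ, 0 < D ε s θ := fun s hs θ => D_pos θ hε (hK s hs)
  have hcont : ContinuousOn (fun p : ℝ × ℝ => F' k ε q p.1 p.2)
      (Metric.closedBall r δ ×ˢ Set.Icc 0 π) := contOn_F' fun p hp => hpos p.1 hp.1 p.2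
  obtain ⟨C, hC⟩ := ((isCompact_closedBall r δ).prod isCompact_Icc).exists_bound_of_continuousOn
    hcont
  have hmem : ∀ t : ℝ, t ∈ Set.uIoc 0 π → t ∈ Set.Icc (0 : ℝ) π := by
    intro t ht
    rw [Set.uIoc_of_le Real.pi_pos.le] at ht
    exact ⟨ht.1.le, ht.2⟩
  have hr0 : r ∈ Metric.closedBall r δ := Metric.mem_closedBall_self hδ.le
  refine (intervalIntegral.hasDerivAt_integral_of_dominated_loc_of_deriv_le (μ := volume)
    (s := Metric.closedBall r δ) (bound := fun _ => C)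
    (Metric.closedBall_mem_nhds r hδ) ?_ ?_ ?_ ?_ ?_ ?_).2
  · filter_upwards [Metric.closedBall_mem_nhds r hδ] with s hs
    exact (cont_F (hpos s hs)).aestronglyMeasurable
  · exact (cont_F (hpos r hr0)).intervalIntegrable _ _
  · have : Continuous (F' k ε q r) := by
      have h2 := cont_rpow (hpos r hr0) (-(q / 2) - 1)
      have h3 := cont_rpow (hpos r hr0) (-(q / 2) - 2)
      unfold F'
      fun_prop
    exact this.aestronglyMeasurable
  · refine Eventually.of_forall fun t ht s hs => ?_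
    exact hC (s, t) ⟨hs, hmem t ht⟩
  · exact intervalIntegrable_const
  · refine Eventually.of_forall fun t _ s hs => ?_
    exact hasDerivAt_F (hpos s hs t)

/-- The exact derivative. -/
noncomputable def G (k : ℕ) (ε q r θ : ℝ) : ℝ := Real.sin θ ^ (k + 1) * (D ε r θ) ^ (-(q / 2) - 1)

noncomputable def G' (k : ℕ) (ε q r θ : ℝ) : ℝ :=
  ((k + 1 : ℝ) * Real.sin θ ^ k * Real.cos θ) * (D ε r θ) ^ (-(q / 2) - 1) +
  Real.sin θ ^ (k + 1) * ((-(2 * r * Real.sin θ)) * (-(q / 2) - 1) * (D ε r θ) ^ (-(q / 2) - 2))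

lemma hasDerivAt_G {k : ℕ} {ε q r θ : ℝ} (hD : 0 < D ε r θ) :
    HasDerivAt (G k ε q r) (G' k ε q r θ) θ := by
  unfold G G'
  have h1 : HasDerivAt (fun θ : ℝ => Real.sin θ ^ (k + 1))
      ((k + 1 : ℝ) * Real.sin θ ^ k * Real.cos θ) θ := by
    have := (Real.hasDerivAt_sin θ).pow (k + 1)
    refine this.congr_deriv ?_
    push_cast
    simp
  have h2 : HasDerivAt (fun θ : ℝ => D ε r θ) (-(2 * r * Real.sin θ)) θ := by
    unfold D
    have := ((((Real.hasDerivAt_cos θ).const_mul (2 * r)).const_add 1).add_const (r ^ 2)).add_const ε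
    refine this.congr_deriv ?_
    ring
  have h3 := h2.rpow_const (p := -(q / 2) - 1) (Or.inl hD.ne')
  have e : -(q / 2) - 1 - 1 = -(q / 2) - 2 := by ring
  rw [e] at h3
  exact h1.mul h3

lemma int_G' {k : ℕ} {ε q r : ℝ} (hD : ∀ θ, 0 < D ε r θ) :
    ∫ θ in (0 : ℝ)..π, G' k ε q r θ = 0 := by
  have h1 : ∫ θ in (0 : ℝ)..π, G' k ε q r θ = G k ε q r π - G k ε q r 0 := by
    apply intervalIntegral.integral_eq_sub_of_hasDerivAt
    · intro θ _
      exact hasDerivAt_G (hD θ)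
    · have h2 := cont_rpow hD (-(q / 2) - 1)
      have h3 := cont_rpow hD (-(q / 2) - 2)
      have : Continuous (G' k ε q r) := by
        unfold G'
        fun_prop
      exact this.intervalIntegrable _ _
  rw [h1]
  simp [G]

lemma F'_eq {k : ℕ} {ε q r θ : ℝ} (hD : 0 < D ε r θ) :
    F' k ε q r θ = -q * r ^ k * G' k ε q r θ +
      r ^ (k + 1) * (-(q * ((k : ℝ) - q)) * ((D ε r θ) ^ (-(q / 2) - 1) * Real.sin θ ^ k) -
        q * (q + 2) * ε * ((D ε r θ) ^ (-(q / 2) - 2) * Real.sin θ ^ k)) := by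
  unfold F' G'
  have e : (D ε r θ) ^ (-(q / 2) - 1) = (D ε r θ) ^ (-(q / 2) - 2) * D ε r θ := by
    have : -(q / 2) - 1 = (-(q / 2) - 2) + 1 := by ring
    rw [this, Real.rpow_add hD, Real.rpow_one]
  rw [e]
  set P := (D ε r θ) ^ (-(q / 2) - 2) with hP
  have hs : Real.sin θ ^ 2 = 1 - Real.cos θ ^ 2 := by
    have := Real.sin_sq_add_cos_sq θ
    linarith
  have hDe : D ε r θ = 1 + 2 * r * Real.cos θ + r ^ 2 + ε := rfl
  have e2 : Real.sin θ ^ (k + 1) * (-(2 * r * Real.sin θ) * (-(q / 2) - 1) * P)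
      = Real.sin θ ^ k * (Real.sin θ ^ 2 * (r * (q + 2) * P)) := by
    ring
  rw [e2, hs, hDe]
  ring

end smd_hasDerivAt_aux

theorem smd_hasDerivAt {m : ℕ} (hm : 2 ≤ m) {ε q r : ℝ} (hε : 0 ≤ ε) (hr : 0 < r)
    (h : 0 < ε ∨ r < 1) : HasDerivAt (fun r : ℝ => r ^ (m - 1) * smd m ε q r)
      (r ^ (m - 1) * (-(q * ((m : ℝ) - 2 - q)) * sm m ε (q + 2) r -
        q * (q + 2) * ε * sm m ε (q + 4) r)) r := by
  obtain ⟨k, rfl⟩ : ∃ k, m = k + 2 := ⟨m - 2, by omega⟩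
  have hpos : ∀ θ, 0 < smd_hasDerivAt_aux.D ε r θ := by
    intro θ
    apply smd_hasDerivAt_aux.D_pos θ hε
    rcases h with h | h
    · exact Or.inl h
    · exact Or.inr ⟨hr, h⟩
  have h1 := (smd_hasDerivAt_aux.hasDerivAt_int (k := k) (q := q) hε hr h).const_mul
    (Wal (k + 2))⁻¹
  have e1 : (fun r : ℝ => r ^ (k + 2 - 1) * smd (k + 2) ε q r) =
      fun s => (Wal (k + 2))⁻¹ * ∫ θ in (0 : ℝ)..π, smd_hasDerivAt_aux.F k ε q s θ := by
    funext s
    unfold smd smd_hasDerivAt_aux.F smd_hasDerivAt_aux.D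
    rw [intervalIntegral.integral_const_mul]
    have : k + 2 - 1 = k + 1 := by omega
    rw [this]
    have : k + 2 - 2 = k := by omega
    rw [this]
    ring
  rw [e1]
  refine h1.congr_deriv ?_
  have hc1 := smd_hasDerivAt_aux.cont_rpow hpos (-(q / 2) - 1)
  have hc2 := smd_hasDerivAt_aux.cont_rpow hpos (-(q / 2) - 2)
  have hG : Continuous (smd_hasDerivAt_aux.G' k ε q r) := by
    unfold smd_hasDerivAt_aux.G'
    fun_prop
  have e2 : ∫ θ in (0 : ℝ)..π, smd_hasDerivAt_aux.F' k ε q r θ =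
      r ^ (k + 1) * (-(q * ((k : ℝ) - q)) * (∫ θ in (0 : ℝ)..π,
        ((smd_hasDerivAt_aux.D ε r θ) ^ (-(q / 2) - 1) * Real.sin θ ^ k)) -
        q * (q + 2) * ε * (∫ θ in (0 : ℝ)..π,
          ((smd_hasDerivAt_aux.D ε r θ) ^ (-(q / 2) - 2) * Real.sin θ ^ k))) := by
    have e3 : ∀ θ, smd_hasDerivAt_aux.F' k ε q r θ = -q * r ^ k * smd_hasDerivAt_aux.G' k ε q r θ +
      r ^ (k + 1) * (-(q * ((k : ℝ) - q)) * ((smd_hasDerivAt_aux.D ε r θ) ^ (-(q / 2) - 1) *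
        Real.sin θ ^ k) -
        q * (q + 2) * ε * ((smd_hasDerivAt_aux.D ε r θ) ^ (-(q / 2) - 2) * Real.sin θ ^ k)) :=
      fun θ => smd_hasDerivAt_aux.F'_eq (hpos θ)
    simp only [e3]
    rw [intervalIntegral.integral_add, intervalIntegral.integral_const_mul,
      smd_hasDerivAt_aux.int_G' hpos, mul_zero, zero_add, intervalIntegral.integral_const_mul,
      intervalIntegral.integral_sub, intervalIntegral.integral_const_mul,
      intervalIntegral.integral_const_mul]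
    all_goals
      apply Continuous.intervalIntegrable
      fun_prop
  rw [e2]
  unfold sm smd_hasDerivAt_aux.D
  have t1 : k + 2 - 1 = k + 1 := by omega
  have t2 : k + 2 - 2 = k := by omega
  have t3 : -((q + 2) / 2) = -(q / 2) - 1 := by ring
  have t4 : -((q + 4) / 2) = -(q / 2) - 2 := by ring
  rw [t1, t2, t3, t4]
  push_cast
  ring

end

section

namespace smd_formula_aux

theorem base_pos {ε s : ℝ} (hε : 0 ≤ ε) (hs : 0 ≤ s) (h : 0 < ε ∨ s < 1) (θ : ℝ) :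
    0 < 1 + 2 * s * Real.cos θ + s ^ 2 + ε := by
  have h1 := Real.neg_one_le_cos θ
  have h2 : (1 - s) ^ 2 ≤ 1 + 2 * s * Real.cos θ + s ^ 2 := by nlinarith
  rcases h with h | h
  · nlinarith [sq_nonneg (1 - s)]
  · have : 0 < (1 - s) ^ 2 := by
      have : 0 < 1 - s := by linarith
      positivity
    linarith

theorem key {m : ℕ} {ε q s : ℝ} (hε : 0 ≤ ε) (hs : 0 ≤ s) (h : 0 < ε ∨ s < 1) :
    2 * s * smd m ε q s = -q * (sm m ε q s + (s ^ 2 - 1 - ε) * sm m ε (q + 2) s) := by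
  have hpos := base_pos hε hs h
  have hD : Continuous fun θ : ℝ => 1 + 2 * s * Real.cos θ + s ^ 2 + ε := by fun_prop
  have hc : ∀ p : ℝ, Continuous fun θ : ℝ =>
      (1 + 2 * s * Real.cos θ + s ^ 2 + ε) ^ p * Real.sin θ ^ (m - 2) := by
    intro p
    refine Continuous.mul ?_ (by fun_prop)
    exact hD.rpow_const fun θ => Or.inl (hpos θ).ne'
  have h1 : (2 * s) * (∫ θ in (0 : ℝ)..π,
      -(q * (Real.cos θ + s)) * (1 + 2 * s * Real.cos θ + s ^ 2 + ε) ^ (-(q / 2) - 1) *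
      Real.sin θ ^ (m - 2)) = -q * ((∫ θ in (0 : ℝ)..π,
        (1 + 2 * s * Real.cos θ + s ^ 2 + ε) ^ (-(q / 2)) * Real.sin θ ^ (m - 2)) +
      (s ^ 2 - 1 - ε) * ∫ θ in (0 : ℝ)..π,
        (1 + 2 * s * Real.cos θ + s ^ 2 + ε) ^ (-((q + 2) / 2)) * Real.sin θ ^ (m - 2)) := by
    rw [← intervalIntegral.integral_const_mul, ← intervalIntegral.integral_const_mul,
      ← intervalIntegral.integral_add ((hc _).intervalIntegrable _ _)
        (((hc _).const_mul _).intervalIntegrable _ _), ← intervalIntegral.integral_const_mul]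
    refine intervalIntegral.integral_congr fun θ _ => ?_
    have e1 : -((q + 2) / 2) = -(q / 2) - 1 := by ring
    have e2 : (1 + 2 * s * Real.cos θ + s ^ 2 + ε) ^ (-(q / 2)) =
        (1 + 2 * s * Real.cos θ + s ^ 2 + ε) ^ (-(q / 2) - 1) *
          (1 + 2 * s * Real.cos θ + s ^ 2 + ε) := by
      rw [← Real.rpow_add_one (hpos θ).ne']
      congr 1
      ring
    change 2 * s * (-(q * (Real.cos θ + s)) *
      (1 + 2 * s * Real.cos θ + s ^ 2 + ε) ^ (-(q / 2) - 1) * Real.sin θ ^ (m - 2)) =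
      -q * ((1 + 2 * s * Real.cos θ + s ^ 2 + ε) ^ (-(q / 2)) * Real.sin θ ^ (m - 2) +
      (s ^ 2 - 1 - ε) * ((1 + 2 * s * Real.cos θ + s ^ 2 + ε) ^ (-((q + 2) / 2)) *
        Real.sin θ ^ (m - 2)))
    rw [e1, e2]
    ring
  rw [smd, sm, sm]
  linear_combination (Wal m)⁻¹ * h1

end smd_formula_aux

theorem smd_formula {m : ℕ} (hm : 2 ≤ m) {ε q r : ℝ} (hε : 0 ≤ ε) (hr : 0 ≤ r)
    (h : 0 < ε ∨ r < 1) : r ^ (m - 1) * smd m ε q r =
      ∫ s in (0 : ℝ)..r, s ^ (m - 1) * (-(q * ((m : ℝ) - 2 - q)) * sm m ε (q + 2) s -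
        q * (q + 2) * ε * sm m ε (q + 4) s) := by
  have hs : ∀ s ∈ Icc 0 r, 0 < ε ∨ s < 1 := by
    intro s hs
    rcases h with h | h
    · exact Or.inl h
    · exact Or.inr (hs.2.trans_lt h)
  have hsm : ∀ q', ContinuousOn (sm m ε q') (Icc 0 r) := fun q' s hs' =>
    (sm_hasDerivAt hm hε hs'.1 (hs s hs')).continuousAt.continuousWithinAt
  have hm1 : m - 1 = (m - 2) + 1 := by omega
  have hcont : ContinuousOn (fun s : ℝ => s ^ (m - 1) * smd m ε q s) (Icc 0 r) := by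
    have h1 : ContinuousOn (fun s : ℝ => s ^ (m - 2) * (-q / 2 * (sm m ε q s +
        (s ^ 2 - 1 - ε) * sm m ε (q + 2) s))) (Icc 0 r) := by
      refine ContinuousOn.mul (by fun_prop) (ContinuousOn.mul (by fun_prop) ?_)
      exact (hsm q).add (ContinuousOn.mul (by fun_prop) (hsm (q + 2)))
    refine h1.congr fun s hs' => ?_
    have h2 := smd_formula_aux.key (m := m) (q := q) hε hs'.1 (hs s hs')
    simp only
    rw [hm1, pow_succ]
    linear_combination (s ^ (m - 2) / 2) * h2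
  have hint : IntervalIntegrable (fun s : ℝ => s ^ (m - 1) *
      (-(q * ((m : ℝ) - 2 - q)) * sm m ε (q + 2) s - q * (q + 2) * ε * sm m ε (q + 4) s))
      volume 0 r := by
    apply ContinuousOn.intervalIntegrable
    rw [uIcc_of_le hr]
    refine ContinuousOn.mul (by fun_prop) ?_
    exact (continuousOn_const.mul (hsm _)).sub (continuousOn_const.mul (hsm _))
  have h3 := intervalIntegral.integral_eq_sub_of_hasDerivAt_of_le hr hcont
    (fun s hs' => smd_hasDerivAt hm hε hs'.1 (hs s (Ioo_subset_Icc_self hs'))) hint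
  rw [h3, hm1]
  simp

end

section

namespace sm_pos_aux
theorem base_pos {ε r : ℝ} (hε : 0 ≤ ε) (hr : 0 ≤ r) (h : 0 < ε ∨ r < 1) (θ : ℝ) :
    0 < 1 + 2 * r * Real.cos θ + r ^ 2 + ε := by
  have hc : -1 ≤ Real.cos θ := Real.neg_one_le_cos θ
  have e : 1 + 2 * r * Real.cos θ + r ^ 2 + ε = (1 - r) ^ 2 + 2 * (r * (1 + Real.cos θ)) + ε := by
    ring
  rw [e]
  have h1 : 0 ≤ r * (1 + Real.cos θ) := mul_nonneg hr (by linarith)
  rcases h with h | h
  · have h2 : 0 ≤ (1 - r) ^ 2 := sq_nonneg _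
    linarith
  · have h2 : 0 < (1 - r) ^ 2 := by
      have : 0 < 1 - r := by linarith
      positivity
    linarith
end sm_pos_aux

theorem sm_pos {m : ℕ} (hm : 2 ≤ m) {ε q r : ℝ} (hε : 0 ≤ ε) (hr : 0 ≤ r)
    (h : 0 < ε ∨ r < 1) : 0 < sm m ε q r := by
  have hb := sm_pos_aux.base_pos hε hr h
  unfold sm
  refine mul_pos (inv_pos.2 (Wal_pos m)) ?_
  have hcont : Continuous fun θ : ℝ =>
      (1 + 2 * r * Real.cos θ + r ^ 2 + ε) ^ (-(q / 2)) * Real.sin θ ^ (m - 2) := by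
    refine Continuous.mul ?_ (by fun_prop)
    refine Continuous.rpow_const (by fun_prop) ?_
    intro θ
    exact Or.inl (hb θ).ne'
  refine intervalIntegral.intervalIntegral_pos_of_pos_on (hcont.intervalIntegrable _ _) ?_
    Real.pi_pos
  intro θ hθ
  have h1 : 0 < Real.sin θ := Real.sin_pos_of_mem_Ioo hθ
  have h2 : 0 < (1 + 2 * r * Real.cos θ + r ^ 2 + ε) ^ (-(q / 2)) := Real.rpow_pos_of_pos (hb θ) _
  positivity

end

section

namespace sm_zero_aux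
-- auxiliary lemmas here
end sm_zero_aux

theorem sm_zero {m : ℕ} (q : ℝ) : sm m 0 q 0 = 1 := by
  unfold sm
  have h : (∫ θ in (0 : ℝ)..π,
    (1 + 2 * (0 : ℝ) * Real.cos θ + (0 : ℝ) ^ 2 + 0) ^ (-(q / 2)) * Real.sin θ ^ (m - 2)) = Wal m := by
    unfold Wal
    apply intervalIntegral.integral_congr
    intro θ _
    simp
  rw [h]
  exact inv_mul_cancel₀ (Wal_pos m).ne'

end

section

namespace sm_mono_aux

theorem smd_nonneg {m : ℕ} (hm : 2 ≤ m) {q : ℝ} (hq0 : 0 ≤ q) (hq : (m : ℝ) - 2 ≤ q) {s : ℝ}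
    (hs : 0 < s) (hs1 : s < 1) : 0 ≤ smd m 0 q s := by
  have h1 := smd_formula hm (ε := 0) (q := q) le_rfl hs.le (Or.inr hs1)
  have h2 : 0 ≤ s ^ (m - 1) * smd m 0 q s := by
    rw [h1]
    refine intervalIntegral.integral_nonneg hs.le fun u hu => ?_
    have h3 : 0 < sm m 0 (q + 2) u := sm_pos hm le_rfl hu.1 (Or.inr (hu.2.trans_lt hs1))
    have h4 : 0 ≤ -(q * ((m : ℝ) - 2 - q)) := by nlinarith
    have h5 : 0 ≤ u ^ (m - 1) := pow_nonneg hu.1 _
    have h6 : -(q * ((m : ℝ) - 2 - q)) * sm m 0 (q + 2) u - q * (q + 2) * 0 * sm m 0 (q + 4) u =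
        -(q * ((m : ℝ) - 2 - q)) * sm m 0 (q + 2) u := by ring
    rw [h6]
    exact mul_nonneg h5 (mul_nonneg h4 h3.le)
  exact nonneg_of_mul_nonneg_right h2 (pow_pos hs _)

end sm_mono_aux

theorem sm_mono {m : ℕ} (hm : 2 ≤ m) {q : ℝ} (hq0 : 0 ≤ q) (hq : (m : ℝ) - 2 ≤ q) {r r' : ℝ}
    (hr : 0 ≤ r) (hrr : r ≤ r') (hr' : r' < 1) : sm m 0 q r ≤ sm m 0 q r' := by
  have hd : ∀ x ∈ Icc r r', HasDerivAt (sm m 0 q) (smd m 0 q x) x := fun x hx =>
    sm_hasDerivAt hm le_rfl (hr.trans hx.1) (Or.inr (hx.2.trans_lt hr'))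
  have hmono : MonotoneOn (sm m 0 q) (Icc r r') := by
    refine monotoneOn_of_deriv_nonneg (convex_Icc r r')
      (fun x hx => (hd x hx).continuousAt.continuousWithinAt)
      (fun x hx => (hd x (interior_subset hx)).differentiableAt.differentiableWithinAt) ?_
    intro x hx
    rw [(hd x (interior_subset hx)).deriv]
    rw [interior_Icc] at hx
    exact sm_mono_aux.smd_nonneg hm hq0 hq (hr.trans_lt hx.1) (hx.2.trans hr')
  exact hmono ⟨le_rfl, hrr⟩ ⟨hrr, le_rfl⟩ hrr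

end

section

namespace sm_quad_aux

theorem int_ineq {f f' : ℝ → ℝ} {r : ℝ} (hr : 0 ≤ r)
    (hf : ∀ s ∈ Icc (0 : ℝ) r, HasDerivAt f (f' s) s)
    (h : ∀ s ∈ Ioo (0 : ℝ) r, 0 ≤ f' s) : f 0 ≤ f r := by
  have hcont : ContinuousOn f (Icc 0 r) := fun s hs => (hf s hs).continuousAt.continuousWithinAt
  have hmono : MonotoneOn f (Icc 0 r) := by
    refine monotoneOn_of_deriv_nonneg (convex_Icc 0 r) hcont ?_ ?_
    · intro s hs
      rw [interior_Icc] at hs
      exact (hf s (Ioo_subset_Icc_self hs)).differentiableAt.differentiableWithinAt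
    · intro s hs
      rw [interior_Icc] at hs
      rw [(hf s (Ioo_subset_Icc_self hs)).deriv]
      exact h s hs
  exact hmono (left_mem_Icc.mpr hr) (right_mem_Icc.mpr hr) hr

theorem sm_cont {m : ℕ} (hm : 2 ≤ m) {q s : ℝ} (hs : 0 ≤ s) (hs1 : s < 1) :
    ContinuousOn (sm m 0 q) (uIcc 0 s) := by
  rw [uIcc_of_le hs]
  intro t ht
  exact (sm_hasDerivAt hm le_rfl ht.1 (Or.inr (lt_of_le_of_lt ht.2 hs1))).continuousAt.continuousWithinAt

theorem poly_int {m : ℕ} (hm : 2 ≤ m) (a b s : ℝ) :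
    ∫ t in (0 : ℝ)..s, t ^ (m - 1) * (a + b * t ^ 2) =
      a * s ^ m / m + b * s ^ (m + 2) / (m + 2) := by
  have h1 : ∀ t : ℝ, t ^ (m - 1) * (a + b * t ^ 2) = a * t ^ (m - 1) + b * t ^ (m + 1) := by
    intro t
    have h2 : t ^ (m + 1) = t ^ (m - 1) * t ^ 2 := by
      rw [← pow_add]
      congr 1
      omega
    rw [h2]
    ring
  simp only [h1]
  rw [intervalIntegral.integral_add, intervalIntegral.integral_const_mul,
    intervalIntegral.integral_const_mul, integral_pow, integral_pow]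
  · have h3 : m - 1 + 1 = m := by omega
    have h4 : ((m - 1 : ℕ) : ℝ) + 1 = m := by
      exact_mod_cast h3
    rw [h3, h4, zero_pow (by omega), zero_pow (by omega)]
    push_cast
    have h5 : (m : ℝ) + 1 + 1 = m + 2 := by ring
    rw [h5]
    ring
  · exact (Continuous.intervalIntegrable (by fun_prop) _ _)
  · exact (Continuous.intervalIntegrable (by fun_prop) _ _)

theorem smd_eq {m : ℕ} (hm : 2 ≤ m) {p s : ℝ} (hs : 0 ≤ s) (hs1 : s < 1) :
    s ^ (m - 1) * smd m 0 p s =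
      (p * (p + 2 - m)) * ∫ t in (0 : ℝ)..s, t ^ (m - 1) * sm m 0 (p + 2) t := by
  rw [smd_formula hm le_rfl hs (Or.inr hs1), ← intervalIntegral.integral_const_mul]
  refine intervalIntegral.integral_congr fun t _ => ?_
  ring

theorem int_lower {m : ℕ} (hm : 2 ≤ m) {p s a b : ℝ} (hs : 0 ≤ s) (hs1 : s < 1)
    (h : ∀ t, 0 ≤ t → t < 1 → a + b * t ^ 2 ≤ sm m 0 (p + 2) t) :
    a * s ^ m / m + b * s ^ (m + 2) / (m + 2) ≤
      ∫ t in (0 : ℝ)..s, t ^ (m - 1) * sm m 0 (p + 2) t := by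
  rw [← poly_int hm a b s]
  refine intervalIntegral.integral_mono_on hs ?_ ?_ ?_
  · exact (Continuous.intervalIntegrable (by fun_prop) _ _)
  · refine ContinuousOn.intervalIntegrable ?_
    exact (continuous_pow (m - 1)).continuousOn.mul (sm_cont hm hs hs1)
  · intro t ht
    exact mul_le_mul_of_nonneg_left (h t ht.1 (lt_of_le_of_lt ht.2 hs1)) (pow_nonneg ht.1 _)

theorem factor {m : ℕ} (hm : 2 ≤ m) (s a b : ℝ) :
    a * s ^ m / m + b * s ^ (m + 2) / (m + 2) =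
      s ^ (m - 1) * (a * s / m + b * s ^ 3 / (m + 2)) := by
  have h1 : s ^ m = s ^ (m - 1) * s := by
    rw [← pow_succ]
    congr 1
    omega
  have h2 : s ^ (m + 2) = s ^ (m - 1) * s ^ 3 := by
    rw [← pow_add]
    congr 1
    omega
  rw [h1, h2]
  ring

theorem smd_lower {m : ℕ} (hm : 2 ≤ m) {p s a b : ℝ} (hp : 0 ≤ p * (p + 2 - m))
    (hs : 0 < s) (hs1 : s < 1)
    (h : ∀ t, 0 ≤ t → t < 1 → a + b * t ^ 2 ≤ sm m 0 (p + 2) t) :
    (p * (p + 2 - m)) * (a * s / m + b * s ^ 3 / (m + 2)) ≤ smd m 0 p s := by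
  have h1 := mul_le_mul_of_nonneg_left (int_lower hm hs.le hs1 h) hp
  rw [← smd_eq hm hs.le hs1, factor hm] at h1
  have h2 : 0 < s ^ (m - 1) := pow_pos hs _
  refine le_of_mul_le_mul_left ?_ h2
  calc s ^ (m - 1) * ((p * (p + 2 - m)) * (a * s / m + b * s ^ 3 / (m + 2)))
      = (p * (p + 2 - m)) * (s ^ (m - 1) * (a * s / m + b * s ^ 3 / (m + 2))) := by ring
    _ ≤ _ := h1

theorem smd_upper {m : ℕ} (hm : 2 ≤ m) {p s a b : ℝ} (hp : p * (p + 2 - m) ≤ 0)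
    (hs : 0 < s) (hs1 : s < 1)
    (h : ∀ t, 0 ≤ t → t < 1 → a + b * t ^ 2 ≤ sm m 0 (p + 2) t) :
    smd m 0 p s ≤ (p * (p + 2 - m)) * (a * s / m + b * s ^ 3 / (m + 2)) := by
  have h1 := mul_le_mul_of_nonpos_left (int_lower hm hs.le hs1 h) hp
  rw [← smd_eq hm hs.le hs1, factor hm] at h1
  have h2 : 0 < s ^ (m - 1) := pow_pos hs _
  refine le_of_mul_le_mul_left ?_ h2
  calc s ^ (m - 1) * smd m 0 p s ≤ _ := h1
    _ = s ^ (m - 1) * ((p * (p + 2 - m)) * (a * s / m + b * s ^ 3 / (m + 2))) := by ring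

theorem poly_deriv {m : ℕ} (c a b s : ℝ) :
    HasDerivAt (fun s : ℝ => c * (a * s ^ 2 / (2 * m) + b * s ^ 4 / (4 * (m + 2))))
      (c * (a * s / m + b * s ^ 3 / (m + 2))) s := by
  have h1 : HasDerivAt (fun s : ℝ => s ^ 2) (2 * s) s := by
    simpa using hasDerivAt_pow 2 s
  have h2 : HasDerivAt (fun s : ℝ => s ^ 4) (4 * s ^ 3) s := by
    simpa using hasDerivAt_pow 4 s
  have h3 := (((h1.const_mul (a / (2 * m))).fun_add (h2.const_mul (b / (4 * (m + 2))))).const_mul c)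
  have h4 : (fun s : ℝ => c * (a * s ^ 2 / (2 * m) + b * s ^ 4 / (4 * (m + 2)))) =
      (fun y : ℝ => c * (a / (2 * (m : ℝ)) * y ^ 2 + b / (4 * ((m : ℝ) + 2)) * y ^ 4)) := by
    funext t
    ring
  rw [h4]
  refine h3.congr_deriv ?_
  have h5 : (m : ℝ) + 2 ≠ 0 := by positivity
  have h6 : b / (4 * ((m : ℝ) + 2)) * (4 * s ^ 3) = b * s ^ 3 / (m + 2) := by
    field_simp
  rw [h6]
  ring

end sm_quad_aux

theorem sm_quad {m : ℕ} (hm : 3 ≤ m) {q : ℝ} (hq0 : 0 < q) (hq1 : (m : ℝ) - 4 ≤ q)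
    (hq2 : q ≤ m - 2) {r : ℝ} (hr : 0 ≤ r) (hr1 : r < 1) :
    sm m 0 q r ≤ 1 - al m q * r ^ 2 - al2 m q * r ^ 4 := by
  have hm2 : 2 ≤ m := by omega
  have hm0 : (0 : ℝ) < m := by positivity
  have hmR : (3 : ℝ) ≤ m := by exact_mod_cast hm
  -- step A
  have hA : ∀ t, 0 ≤ t → t < 1 → (1 : ℝ) + 0 * t ^ 2 ≤ sm m 0 (q + 2 + 2) t := by
    intro t ht ht1
    have h1 := sm_mono hm2 (q := q + 2 + 2) (by linarith) (by linarith) le_rfl ht ht1
    rw [sm_zero] at h1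
    linarith
  -- step B
  have hc : 0 ≤ (q + 2) * (q + 2 + 2 - m) := mul_nonneg (by linarith) (by linarith)
  have hB : ∀ t, 0 ≤ t → t < 1 →
      (1 : ℝ) + ((q + 2) * (q + 4 - m) / (2 * m)) * t ^ 2 ≤ sm m 0 (q + 2) t := by
    intro t ht ht1
    have hd : ∀ s ∈ Icc (0 : ℝ) t, HasDerivAt (fun s => sm m 0 (q + 2) s -
        (q + 2) * (q + 2 + 2 - m) * (1 * s ^ 2 / (2 * m) + 0 * s ^ 4 / (4 * (m + 2))))
        (smd m 0 (q + 2) s -
          (q + 2) * (q + 2 + 2 - m) * (1 * s / m + 0 * s ^ 3 / (m + 2))) s := by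
      intro s hs
      exact (sm_hasDerivAt hm2 le_rfl hs.1 (Or.inr (lt_of_le_of_lt hs.2 ht1))).sub
        (sm_quad_aux.poly_deriv _ _ _ _)
    have h2 := sm_quad_aux.int_ineq ht hd (fun s hs => by
      have h3 := sm_quad_aux.smd_lower hm2 hc hs.1 (hs.2.trans ht1) hA
      linarith)
    simp only [sm_zero] at h2
    have h4 : (q + 2) * (q + 4 - m) / (2 * m) * t ^ 2 =
        (q + 2) * (q + 2 + 2 - m) * (1 * t ^ 2 / (2 * m) + 0 * t ^ 4 / (4 * (m + 2))) := by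
      ring
    rw [h4]
    have h5 : (q + 2) * (q + 2 + 2 - m) *
        (1 * (0 : ℝ) ^ 2 / (2 * m) + 0 * (0 : ℝ) ^ 4 / (4 * (m + 2))) = 0 := by ring
    linarith
  -- step C
  have hc2 : q * (q + 2 - m) ≤ 0 := mul_nonpos_of_nonneg_of_nonpos hq0.le (by linarith)
  have hd : ∀ s ∈ Icc (0 : ℝ) r, HasDerivAt (fun s =>
      q * (q + 2 - m) * (1 * s ^ 2 / (2 * m) +
        ((q + 2) * (q + 4 - m) / (2 * m)) * s ^ 4 / (4 * (m + 2))) - sm m 0 q s)
      (q * (q + 2 - m) * (1 * s / m + ((q + 2) * (q + 4 - m) / (2 * m)) * s ^ 3 / (m + 2)) -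
        smd m 0 q s) s := by
    intro s hs
    exact (sm_quad_aux.poly_deriv _ _ _ _).sub
      (sm_hasDerivAt hm2 le_rfl hs.1 (Or.inr (lt_of_le_of_lt hs.2 hr1)))
  have h2 := sm_quad_aux.int_ineq hr hd (fun s hs => by
    have h3 := sm_quad_aux.smd_upper hm2 hc2 hs.1 (hs.2.trans hr1) hB
    linarith)
  simp only [sm_zero] at h2
  have h5 : q * (q + 2 - m) * (1 * (0 : ℝ) ^ 2 / (2 * m) +
        ((q + 2) * (q + 4 - m) / (2 * m)) * (0 : ℝ) ^ 4 / (4 * (m + 2))) = 0 := by ring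
  have h6 : 1 - al m q * r ^ 2 - al2 m q * r ^ 4 = 1 + q * (q + 2 - m) *
      (1 * r ^ 2 / (2 * m) + ((q + 2) * (q + 4 - m) / (2 * m)) * r ^ 4 / (4 * (m + 2))) := by
    unfold al al2
    have h7 : (m : ℝ) + 2 ≠ 0 := by positivity
    field_simp
    ring
  rw [h6]
  linarith

end

section

namespace sm_tangent_aux

noncomputable def LL (m : ℕ) (ε q s : ℝ) : ℝ :=
  -(q * ((m : ℝ) - 2 - q)) * sm m ε (q + 2) s - q * (q + 2) * ε * sm m ε (q + 4) s

lemma sm_cont {m : ℕ} (hm : 2 ≤ m) {ε : ℝ} (q : ℝ) (hε : 0 < ε) :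
    ContinuousOn (sm m ε q) (Ici 0) :=
  fun _ hr => (sm_hasDerivAt hm hε.le hr (Or.inl hε)).continuousAt.continuousWithinAt

lemma LL_hasDerivAt {m : ℕ} (hm : 2 ≤ m) {ε q s : ℝ} (hε : 0 < ε) (hs : 0 ≤ s) :
    HasDerivAt (LL m ε q) (-(q * ((m : ℝ) - 2 - q)) * smd m ε (q + 2) s -
      q * (q + 2) * ε * smd m ε (q + 4) s) s :=
  ((sm_hasDerivAt hm hε.le hs (Or.inl hε)).const_mul _).sub
    ((sm_hasDerivAt hm hε.le hs (Or.inl hε)).const_mul _)

lemma LL_cont {m : ℕ} (hm : 2 ≤ m) {ε : ℝ} (q : ℝ) (hε : 0 < ε) :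
    ContinuousOn (LL m ε q) (Ici 0) :=
  fun _ hr => (LL_hasDerivAt hm hε hr).continuousAt.continuousWithinAt

lemma LL_integrable {m : ℕ} (hm : 2 ≤ m) {ε : ℝ} (q : ℝ) (hε : 0 < ε) {r : ℝ} (hr : 0 ≤ r) :
    IntervalIntegrable (fun s => s ^ (m - 1) * LL m ε q s) volume 0 r := by
  apply ContinuousOn.intervalIntegrable
  rw [uIcc_of_le hr]
  exact ((continuous_pow _).continuousOn).mul ((LL_cont hm q hε).mono (fun x hx => hx.1))

lemma LL_deriv_nonneg {m : ℕ} (hm : 2 ≤ m) {ε q s : ℝ} (hε : 0 < ε) (hq0 : 0 < q)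
    (hq : q ≤ m - 4) (hs : 0 < s) :
    0 ≤ -(q * ((m : ℝ) - 2 - q)) * smd m ε (q + 2) s -
      q * (q + 2) * ε * smd m ε (q + 4) s := by
  have hsm : 0 < s ^ (m - 1) := pow_pos hs _
  have h1 := smd_formula (q := q + 2) hm hε.le hs.le (Or.inl hε)
  have h2 := smd_formula (q := q + 4) hm hε.le hs.le (Or.inl hε)
  have e1 : (fun t : ℝ => t ^ (m - 1) * (-((q + 2) * ((m : ℝ) - 2 - (q + 2))) * sm m ε (q + 2 + 2) t -
        (q + 2) * (q + 2 + 2) * ε * sm m ε (q + 2 + 4) t)) =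
      fun t : ℝ => t ^ (m - 1) * LL m ε (q + 2) t := rfl
  have e2 : (fun t : ℝ => t ^ (m - 1) * (-((q + 4) * ((m : ℝ) - 2 - (q + 4))) * sm m ε (q + 4 + 2) t -
        (q + 4) * (q + 4 + 2) * ε * sm m ε (q + 4 + 4) t)) =
      fun t : ℝ => t ^ (m - 1) * LL m ε (q + 4) t := rfl
  rw [e1] at h1
  rw [e2] at h2
  have key : 0 ≤ s ^ (m - 1) * (-(q * ((m : ℝ) - 2 - q)) * smd m ε (q + 2) s -
      q * (q + 2) * ε * smd m ε (q + 4) s) := by
    have e3 : s ^ (m - 1) * (-(q * ((m : ℝ) - 2 - q)) * smd m ε (q + 2) s -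
      q * (q + 2) * ε * smd m ε (q + 4) s) =
      (-(q * ((m : ℝ) - 2 - q))) * (s ^ (m - 1) * smd m ε (q + 2) s) -
      (q * (q + 2) * ε) * (s ^ (m - 1) * smd m ε (q + 4) s) := by ring
    rw [e3, h1, h2, ← intervalIntegral.integral_const_mul, ← intervalIntegral.integral_const_mul,
      ← intervalIntegral.integral_sub ((LL_integrable hm (q + 2) hε hs.le).const_mul _)
        ((LL_integrable hm (q + 4) hε hs.le).const_mul _)]
    apply intervalIntegral.integral_nonneg hs.le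
    intro t ht
    have p1 := sm_pos (q := q + 4) hm hε.le ht.1 (Or.inl hε)
    have p2 := sm_pos (q := q + 6) hm hε.le ht.1 (Or.inl hε)
    have p3 := sm_pos (q := q + 8) hm hε.le ht.1 (Or.inl hε)
    have ht' : 0 ≤ t ^ (m - 1) := pow_nonneg ht.1 _
    have a1 : q + 2 + 2 = q + 4 := by ring
    have a2 : q + 2 + 4 = q + 6 := by ring
    have a3 : q + 4 + 2 = q + 6 := by ring
    have a4 : q + 4 + 4 = q + 8 := by ring
    have e4 : -(q * ((m : ℝ) - 2 - q)) * (t ^ (m - 1) * LL m ε (q + 2) t) -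
        q * (q + 2) * ε * (t ^ (m - 1) * LL m ε (q + 4) t) =
        t ^ (m - 1) * (q * (q + 2) * (((m : ℝ) - 2 - q) * ((m : ℝ) - 4 - q)) * sm m ε (q + 4) t +
          q * (q + 2) * (q + 4) * (2 * ((m : ℝ) - 4 - q)) * ε * sm m ε (q + 6) t +
          q * (q + 2) * (q + 4) * (q + 6) * ε ^ 2 * sm m ε (q + 8) t) := by
      unfold LL
      rw [a1, a2, a3, a4]
      ring
    rw [e4]
    have hm4 : 0 ≤ (m : ℝ) - 4 - q := by linarith
    have hm2 : 0 ≤ (m : ℝ) - 2 - q := by linarith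
    positivity
  exact nonneg_of_mul_nonneg_right key hsm

lemma LL_mono {m : ℕ} (hm : 2 ≤ m) {ε q : ℝ} (hε : 0 < ε) (hq0 : 0 < q)
    (hq : q ≤ m - 4) : MonotoneOn (LL m ε q) (Ici 0) := by
  apply monotoneOn_of_deriv_nonneg (convex_Ici 0) (LL_cont hm q hε)
  · intro x hx
    rw [interior_Ici] at hx
    exact (LL_hasDerivAt hm hε (le_of_lt hx)).differentiableAt.differentiableWithinAt
  · intro x hx
    rw [interior_Ici] at hx
    rw [(LL_hasDerivAt hm hε (le_of_lt hx)).deriv]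
    exact LL_deriv_nonneg hm hε hq0 hq hx

lemma smd_div {m : ℕ} (hm : 2 ≤ m) {ε q r : ℝ} (hε : 0 < ε) (hr : 0 < r) :
    smd m ε q r / r = ∫ v in (0 : ℝ)..1, v ^ (m - 1) * LL m ε q (v * r) := by
  have h1 := smd_formula (q := q) hm hε.le hr.le (Or.inl hε)
  have e1 : (fun t : ℝ => t ^ (m - 1) * (-(q * ((m : ℝ) - 2 - q)) * sm m ε (q + 2) t -
        q * (q + 2) * ε * sm m ε (q + 4) t)) =
      fun t : ℝ => t ^ (m - 1) * LL m ε q t := rfl
  rw [e1] at h1
  have h2 := intervalIntegral.integral_comp_mul_right (a := 0) (b := 1)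
    (fun t : ℝ => t ^ (m - 1) * LL m ε q t) hr.ne'
  rw [zero_mul, one_mul, ← h1, smul_eq_mul] at h2
  have h3 : (∫ v in (0 : ℝ)..1, (v * r) ^ (m - 1) * LL m ε q (v * r)) =
      r ^ (m - 1) * ∫ v in (0 : ℝ)..1, v ^ (m - 1) * LL m ε q (v * r) := by
    rw [← intervalIntegral.integral_const_mul]
    congr 1
    ext v
    rw [mul_pow]
    ring
  rw [h3] at h2
  have hrm : r ^ (m - 1) ≠ 0 := (pow_pos hr _).ne'
  have h4 : r ^ (m - 1) * (smd m ε q r / r) =
      r ^ (m - 1) * ∫ v in (0 : ℝ)..1, v ^ (m - 1) * LL m ε q (v * r) := by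
    rw [h2]
    field_simp
  exact mul_left_cancel₀ hrm h4

lemma smd_div_mono {m : ℕ} (hm : 2 ≤ m) {ε q r R : ℝ} (hε : 0 < ε) (hq0 : 0 < q)
    (hq : q ≤ m - 4) (hr : 0 < r) (hrR : r ≤ R) :
    smd m ε q r / r ≤ smd m ε q R / R := by
  have hR : 0 < R := lt_of_lt_of_le hr hrR
  rw [smd_div hm hε hr, smd_div hm hε hR]
  have hint : ∀ ρ : ℝ, 0 < ρ →
      IntervalIntegrable (fun v => v ^ (m - 1) * LL m ε q (v * ρ)) volume 0 1 := by
    intro ρ hρ
    apply ContinuousOn.intervalIntegrable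
    rw [uIcc_of_le zero_le_one]
    refine ((continuous_pow _).continuousOn).mul ((LL_cont hm q hε).comp
      (continuous_id.mul continuous_const).continuousOn ?_)
    intro v hv
    exact mul_nonneg hv.1 hρ.le
  apply intervalIntegral.integral_mono_on zero_le_one (hint r hr) (hint R hR)
  intro v hv
  apply mul_le_mul_of_nonneg_left _ (pow_nonneg hv.1 _)
  apply LL_mono hm hε hq0 hq
  · exact mul_nonneg hv.1 hr.le
  · exact mul_nonneg hv.1 hR.le
  · exact mul_le_mul_of_nonneg_left hrR hv.1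

end sm_tangent_aux

theorem sm_tangent {m : ℕ} (hm : 5 ≤ m) {ε q : ℝ} (hε : 0 < ε) (hq0 : 0 < q)
    (hq : q ≤ m - 4) {u0 : ℝ} (hu0 : 0 < u0) :
    ∃ c : ℝ, ∀ u : ℝ, 0 ≤ u →
      sm m ε q (Real.sqrt u0) + c * (u - u0) ≤ sm m ε q (Real.sqrt u) := by
  have hm2 : 2 ≤ m := by omega
  have hr0 : 0 < Real.sqrt u0 := Real.sqrt_pos.mpr hu0
  have hr0sq : Real.sqrt u0 ^ 2 = u0 := Real.sq_sqrt hu0.le
  set r0 := Real.sqrt u0 with hr0def
  obtain ⟨D, hD⟩ : ∃ D : ℝ, D = smd m ε q r0 / r0 := ⟨_, rfl⟩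
  refine ⟨D / 2, ?_⟩
  intro u hu
  have hr : 0 ≤ Real.sqrt u := Real.sqrt_nonneg u
  have hrsq : Real.sqrt u ^ 2 = u := Real.sq_sqrt hu
  set r := Real.sqrt u with hrdef
  obtain ⟨ψ, hψ⟩ : ∃ ψ : ℝ → ℝ, ψ = fun x => sm m ε q x - D / 2 * x ^ 2 := ⟨_, rfl⟩
  have hder : ∀ x : ℝ, 0 ≤ x → HasDerivAt ψ (smd m ε q x - D * x) x := by
    intro x hx
    have h1 := sm_hasDerivAt (q := q) hm2 hε.le hx (Or.inl hε)
    have h2 : HasDerivAt (fun x : ℝ => D / 2 * x ^ 2) (D * x) x := by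
      have h3 := (hasDerivAt_pow 2 x).const_mul (D / 2)
      have h4 : D / 2 * (((2 : ℕ) : ℝ) * x ^ (2 - 1)) = D * x := by
        norm_num
        ring
      rw [h4] at h3
      exact h3
    rw [hψ]
    exact h1.sub h2
  have hcont : ContinuousOn ψ (Ici 0) :=
    fun x hx => (hder x hx).continuousAt.continuousWithinAt
  have hmono : MonotoneOn ψ (Ici r0) := by
    apply monotoneOn_of_deriv_nonneg (convex_Ici r0)
      (hcont.mono (fun x hx => le_trans hr0.le hx))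
    · intro x hx
      rw [interior_Ici] at hx
      have hx0 : 0 ≤ x := le_trans hr0.le (le_of_lt hx)
      exact (hder x hx0).differentiableAt.differentiableWithinAt
    · intro x hx
      rw [interior_Ici] at hx
      have hx0 : 0 < x := lt_trans hr0 hx
      rw [(hder x hx0.le).deriv]
      have h1 := sm_tangent_aux.smd_div_mono (m := m) hm2 hε hq0 hq hr0 (le_of_lt hx)
      rw [← hD, le_div_iff₀ hx0] at h1
      linarith
  have hanti : AntitoneOn ψ (Icc 0 r0) := by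
    apply antitoneOn_of_deriv_nonpos (convex_Icc 0 r0)
      (hcont.mono (fun x hx => hx.1))
    · intro x hx
      rw [interior_Icc] at hx
      exact (hder x hx.1.le).differentiableAt.differentiableWithinAt
    · intro x hx
      rw [interior_Icc] at hx
      rw [(hder x hx.1.le).deriv]
      have h1 := sm_tangent_aux.smd_div_mono (m := m) hm2 hε hq0 hq hx.1 hx.2.le
      rw [← hD, div_le_iff₀ hx.1] at h1
      linarith
  have hfin : ψ r0 ≤ ψ r := by
    rcases le_total r0 r with h | h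
    · exact hmono (mem_Ici.mpr le_rfl) (mem_Ici.mpr h) h
    · exact hanti ⟨hr, h⟩ ⟨hr0.le, le_rfl⟩ h
  rw [hψ] at hfin
  simp only [hr0sq, hrsq] at hfin
  linarith

end

end H618KS
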