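import Pool.Agent.Helper618_KS.Defs
import Pool.Agent.Helper618_KS.Unif
import Pool.Agent.Helper618_KS.Pair
import Pool.Agent.Helper618_KS.Smean

/-!
Part `HE` of the proof for MP_237b21_an.
-/

open MeasureTheory Filter Topology Set Real
open scoped ENNReal NNReal

set_option autoImplicit false

namespace H618KS

section

namespace hE_lt_aux

theorem base_pos {r θ : ℝ} (hr : 0 ≤ r) (hr1 : r < 1) :
    0 < 1 + 2 * r * Real.cos θ + r ^ 2 := by
  have h1 := Real.neg_one_le_cos θ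
  have h2 : 0 < (1 - r) ^ 2 := by
    have : 0 < 1 - r := by linarith
    positivity
  nlinarith [mul_nonneg hr (by linarith : 0 ≤ 1 + Real.cos θ)]

theorem cont {m : ℕ} {q r : ℝ} (hr : 0 ≤ r) (hr1 : r < 1) :
    Continuous fun θ : ℝ =>
      (1 + 2 * r * Real.cos θ + r ^ 2) ^ (-(q / 2)) * Real.sin θ ^ (m - 2) := by
  refine Continuous.mul ?_ (Real.continuous_sin.pow _)
  refine Continuous.rpow_const (by fun_prop) fun θ => Or.inl (base_pos hr hr1).ne'

end hE_lt_aux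

theorem hE_lt {m : ℕ} (hm : 2 ≤ m) {q r : ℝ} (hr : 0 ≤ r) (hr1 : r < 1) :
    hE m q r = ENNReal.ofReal (sm m 0 q r) := by
  have _ := hm
  unfold hE sm
  simp only [add_zero]
  rw [ENNReal.ofReal_mul (inv_nonneg.2 (Wal_pos m).le)]
  congr 1
  rw [intervalIntegral.integral_of_le Real.pi_pos.le, integral_Ioc_eq_integral_Ioo]
  rw [ofReal_integral_eq_lintegral_ofReal]
  · exact ((hE_lt_aux.cont hr hr1).integrableOn_Icc (a := 0) (b := π)).mono_set Ioo_subset_Icc_self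
  · rw [Filter.EventuallyLE, ae_restrict_iff' measurableSet_Ioo]
    refine Eventually.of_forall fun θ hθ => ?_
    have h1 : 0 ≤ Real.sin θ := Real.sin_nonneg_of_nonneg_of_le_pi hθ.1.le hθ.2.le
    have h2 := hE_lt_aux.base_pos (θ := θ) hr hr1
    exact mul_nonneg (Real.rpow_nonneg h2.le _) (pow_nonneg h1 _)

end

section

namespace hE_inv_aux

theorem pw {q r : ℝ} (hr : 0 < r) (c : ℝ) (hc : |c| ≤ 1) :
    (1 + 2 * r * c + r ^ 2) ^ (-(q / 2)) =
      r ^ (-q) * (1 + 2 * (1 / r) * c + (1 / r) ^ 2) ^ (-(q / 2)) := by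
  have hc2 : c ^ 2 ≤ 1 := by
    rw [← sq_abs]
    have := abs_nonneg c
    nlinarith
  have h0 : 0 ≤ 1 + 2 * (1 / r) * c + (1 / r) ^ 2 := by nlinarith [sq_nonneg (c + 1 / r)]
  have h1 : 1 + 2 * r * c + r ^ 2 = r ^ 2 * (1 + 2 * (1 / r) * c + (1 / r) ^ 2) := by
    field_simp
    ring
  have h2 : (r ^ 2) ^ (-(q / 2)) = r ^ (-q) := by
    rw [← Real.rpow_natCast r 2, ← Real.rpow_mul hr.le]
    congr 1
    push_cast
    ring
  rw [h1, Real.mul_rpow (by positivity) h0, h2]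

end hE_inv_aux

theorem hE_inv {m : ℕ} {q r : ℝ} (hr : 0 < r) :
    hE m q r = ENNReal.ofReal (r ^ (-q)) * hE m q (1 / r) := by
  unfold hE
  rw [mul_left_comm]
  congr 1
  rw [← lintegral_const_mul' _ _ ENNReal.ofReal_ne_top]
  refine lintegral_congr fun θ => ?_
  rw [hE_inv_aux.pw hr _ (Real.abs_cos_le_one θ), ← ENNReal.ofReal_mul (Real.rpow_nonneg hr.le _),
    mul_assoc]

end

section

namespace hE_mono_one_aux
-- auxiliary lemmas here
end hE_mono_one_aux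

theorem hE_mono_one {m : ℕ} {q r : ℝ} (hq : 0 ≤ q) (hr : 1 ≤ r) : hE m q r ≤ hE m q 1 := by
  unfold hE
  refine mul_le_mul_right ?_ _
  refine setLIntegral_mono' measurableSet_Ioo fun θ hθ => ?_
  apply ENNReal.ofReal_le_ofReal
  have hs : 0 ≤ Real.sin θ ^ (m - 2) := pow_nonneg (Real.sin_nonneg_of_mem_Icc
    ⟨hθ.1.le, hθ.2.le⟩) _
  refine mul_le_mul_of_nonneg_right ?_ hs
  have hc : -1 < Real.cos θ := by
    have h1 := Real.cos_lt_cos_of_nonneg_of_le_pi hθ.1.le le_rfl hθ.2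
    rwa [Real.cos_pi] at h1
  refine Real.rpow_le_rpow_of_nonpos ?_ ?_ ?_
  · nlinarith
  · nlinarith [mul_nonneg (sub_nonneg.2 hr) (show 0 ≤ r + 1 + 2 * Real.cos θ by linarith)]
  · linarith

end

section

namespace hE_near_aux
-- auxiliary lemmas here
end hE_near_aux

theorem hE_near {m : ℕ} {q r : ℝ} (hq : 0 ≤ q) (hr : 0 < r) :
    hE m q r ≤ ENNReal.ofReal (r ^ (-(q / 2))) * hE m q 1 := by
  unfold hE
  rw [mul_left_comm]
  gcongr
  rw [← lintegral_const_mul' _ _ ENNReal.ofReal_ne_top]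
  refine setLIntegral_mono' measurableSet_Ioo fun θ hθ => ?_
  have hr' : 0 ≤ r ^ (-(q / 2)) := Real.rpow_nonneg hr.le _
  rw [← ENNReal.ofReal_mul hr']
  apply ENNReal.ofReal_le_ofReal
  have hs : 0 ≤ Real.sin θ ^ (m - 2) := pow_nonneg (Real.sin_nonneg_of_mem_Icc ⟨hθ.1.le, hθ.2.le⟩) _
  rw [← mul_assoc]
  refine mul_le_mul_of_nonneg_right ?_ hs
  have hc : -1 < Real.cos θ := by
    have h1 := Real.cos_lt_cos_of_nonneg_of_le_pi hθ.1.le le_rfl hθ.2
    rwa [Real.cos_pi] at h1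
  have hpos : 0 < 1 + 2 * 1 * Real.cos θ + 1 ^ 2 := by linarith
  rw [← Real.mul_rpow hr.le hpos.le]
  refine Real.rpow_le_rpow_of_nonpos (mul_pos hr hpos) ?_ (by linarith)
  nlinarith [sq_nonneg (1 - r)]

end

section

namespace hE_fatou_aux

/-- the integrand -/
noncomputable def F (m : ℕ) (q r θ : ℝ) : ℝ≥0∞ :=
  ENNReal.ofReal ((1 + 2 * r * Real.cos θ + r ^ 2) ^ (-(q / 2)) * Real.sin θ ^ (m - 2))

lemma F_meas (m : ℕ) (q r : ℝ) : Measurable (F m q r) := by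
  unfold F
  apply ENNReal.measurable_ofReal.comp
  apply Measurable.mul
  · apply Measurable.pow_const
    exact (by fun_prop : Measurable fun θ : ℝ => 1 + 2 * r * Real.cos θ + r ^ 2)
  · exact (Real.measurable_sin).pow_const _

lemma F_tendsto (m : ℕ) (q θ : ℝ) (hθ : θ ∈ Ioo 0 π) (r : ℕ → ℝ)
    (hr : Tendsto r atTop (𝓝 1)) :
    Tendsto (fun n => F m q (r n) θ) atTop (𝓝 (F m q 1 θ)) := by
  unfold F
  apply (ENNReal.continuous_ofReal.tendsto _).comp
  apply Tendsto.mul_const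
  have hpos : 0 < 1 + 2 * 1 * Real.cos θ + 1 ^ 2 := by
    have : -1 < Real.cos θ := by
      rw [← Real.cos_pi]
      exact Real.cos_lt_cos_of_nonneg_of_le_pi hθ.1.le le_rfl hθ.2
    linarith
  have hbase : Tendsto (fun n => 1 + 2 * r n * Real.cos θ + r n ^ 2) atTop
      (𝓝 (1 + 2 * 1 * Real.cos θ + 1 ^ 2)) :=
    (((hr.const_mul 2).mul_const (Real.cos θ)).const_add 1).add (hr.pow 2)
  exact hbase.rpow_const (Or.inl hpos.ne')

end hE_fatou_aux

theorem hE_fatou {m : ℕ} {q : ℝ} {c : ℝ≥0∞} {r0 : ℝ} (hr0 : r0 < 1)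
    (h : ∀ r : ℝ, r0 < r → r < 1 → hE m q r ≤ c) : hE m q 1 ≤ c := by
  set K : ℝ≥0∞ := ENNReal.ofReal (Wal m)⁻¹ with hK
  have hK0 : K ≠ 0 := by
    rw [hK, Ne, ENNReal.ofReal_eq_zero, not_le]
    exact inv_pos.mpr (Wal_pos m)
  have hKt : K ≠ ⊤ := ENNReal.ofReal_ne_top
  set r : ℕ → ℝ := fun n => 1 - (1 - r0) * (1 / ((n : ℝ) + 1 + 1)) with hr
  have h1 : Tendsto r atTop (𝓝 1) := by
    have e1 : Tendsto (fun n : ℕ => 1 / ((n : ℝ) + 1)) atTop (𝓝 0) :=
      tendsto_one_div_add_atTop_nhds_zero_nat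
    have e2 : Tendsto (fun n : ℕ => 1 / (((n + 1 : ℕ) : ℝ) + 1)) atTop (𝓝 0) :=
      e1.comp (tendsto_add_atTop_nat 1)
    have e3 := (e2.const_mul (1 - r0)).const_sub 1
    simp only [mul_zero, sub_zero] at e3
    refine e3.congr fun n => ?_
    rw [hr]
    push_cast
    rfl
  have h2 : ∀ n, r0 < r n ∧ r n < 1 := by
    intro n
    have hn : (0 : ℝ) < (n : ℝ) + 1 + 1 := by positivity
    have e4 : 0 < 1 / ((n : ℝ) + 1 + 1) := by positivity
    have e5 : 1 / ((n : ℝ) + 1 + 1) < 1 := by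
      rw [div_lt_one hn]
      have : (0 : ℝ) ≤ n := Nat.cast_nonneg n
      linarith
    have e6 : 0 < 1 - r0 := by linarith
    rw [hr]
    constructor
    · have : (1 - r0) * (1 / ((n : ℝ) + 1 + 1)) < (1 - r0) * 1 :=
        mul_lt_mul_of_pos_left e5 e6
      simp only
      linarith
    · have : 0 < (1 - r0) * (1 / ((n : ℝ) + 1 + 1)) := mul_pos e6 e4
      simp only
      linarith
  have hEF : ∀ r, hE m q r = K * ∫⁻ θ in Ioo 0 π, hE_fatou_aux.F m q r θ := fun _ => rfl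
  have h3 : ∀ n, ∫⁻ θ in Ioo 0 π, hE_fatou_aux.F m q (r n) θ ≤ c / K := by
    intro n
    rw [ENNReal.le_div_iff_mul_le (Or.inl hK0) (Or.inl hKt), mul_comm, ← hEF]
    exact h (r n) (h2 n).1 (h2 n).2
  have h4 : ∫⁻ θ in Ioo 0 π, hE_fatou_aux.F m q 1 θ ≤ c / K := by
    calc ∫⁻ θ in Ioo 0 π, hE_fatou_aux.F m q 1 θ
        = ∫⁻ θ in Ioo 0 π, liminf (fun n => hE_fatou_aux.F m q (r n) θ) atTop := by
          apply setLIntegral_congr_fun measurableSet_Ioo
          intro θ hθ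
          exact (hE_fatou_aux.F_tendsto m q θ hθ r h1).liminf_eq.symm
      _ ≤ liminf (fun n => ∫⁻ θ in Ioo 0 π, hE_fatou_aux.F m q (r n) θ) atTop :=
          lintegral_liminf_le fun n => hE_fatou_aux.F_meas m q (r n)
      _ ≤ c / K := by
          apply liminf_le_of_frequently_le'
          exact Frequently.of_forall h3
  rw [hEF]
  calc K * ∫⁻ θ in Ioo 0 π, hE_fatou_aux.F m q 1 θ ≤ K * (c / K) := by gcongr
    _ ≤ c := ENNReal.mul_div_le

end

section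

namespace hE_sup_aux
-- auxiliary lemmas here
end hE_sup_aux

theorem hE_sup {m : ℕ} (hm : 2 ≤ m) {q : ℝ} (hq0 : 0 < q) (hq : (m : ℝ) - 2 ≤ q) {r : ℝ}
    (hr : 0 ≤ r) : hE m q r ≤ hE m q 1 := by
  rcases le_or_gt 1 r with h1 | h1
  · exact hE_mono_one hq0.le h1
  · have key : ∀ r' : ℝ, r < r' → r' < 1 →
        hE m q r ≤ ENNReal.ofReal (r' ^ (-(q / 2))) * hE m q 1 := by
      intro r' h2 h3
      rw [hE_lt hm hr h1]
      calc ENNReal.ofReal (sm m 0 q r) ≤ ENNReal.ofReal (sm m 0 q r') :=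
            ENNReal.ofReal_le_ofReal (sm_mono hm hq0.le hq hr h2.le h3)
        _ = hE m q r' := (hE_lt hm (hr.trans h2.le) h3).symm
        _ ≤ _ := hE_near hq0.le (hr.trans_lt h2)
    by_cases htop : hE m q 1 = ⊤
    · rw [htop]; exact le_top
    · have hc : Tendsto (fun r' : ℝ => ENNReal.ofReal (r' ^ (-(q / 2))) * hE m q 1)
          (𝓝[<] 1) (𝓝 (ENNReal.ofReal ((1 : ℝ) ^ (-(q / 2))) * hE m q 1)) := by
        refine ENNReal.Tendsto.mul_const ?_ (Or.inr htop)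
        refine (ENNReal.continuous_ofReal.tendsto _).comp ?_
        have h4 : ContinuousAt (fun r' : ℝ => r' ^ (-(q / 2))) 1 :=
          Real.continuousAt_rpow_const 1 _ (Or.inl one_ne_zero)
        exact h4.tendsto.mono_left nhdsWithin_le_nhds
      rw [Real.one_rpow, ENNReal.ofReal_one, one_mul] at hc
      refine ge_of_tendsto hc ?_
      have h5 : ∀ᶠ r' : ℝ in 𝓝[<] 1, r < r' := by
        have : Ioi r ∈ 𝓝 (1 : ℝ) := Ioi_mem_nhds h1
        exact nhdsWithin_le_nhds this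
      filter_upwards [h5, self_mem_nhdsWithin] with r' h6 h7
      exact key r' h6 h7

end

section

namespace hE_poly_lt_aux
-- auxiliary lemmas here
end hE_poly_lt_aux

theorem hE_poly_lt {m : ℕ} (hm : 3 ≤ m) {q : ℝ} (hq0 : 0 < q) (hq1 : (m : ℝ) - 4 ≤ q)
    (hq2 : q ≤ m - 2) {r : ℝ} (hr : 0 ≤ r) (hr1 : r ≤ 1) :
    hE m q r ≤ ENNReal.ofReal (1 - al m q * r ^ 2 - al2 m q * r ^ 4) := by
  have hm0 : (3 : ℝ) ≤ m := by exact_mod_cast hm
  have hal : 0 ≤ al m q := by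
    unfold al
    apply div_nonneg
    · exact mul_nonneg hq0.le (by linarith)
    · linarith
  have hal2 : 0 ≤ al2 m q := by
    unfold al2
    apply div_nonneg
    · exact mul_nonneg (mul_nonneg (mul_nonneg hq0.le (by linarith)) (by linarith)) (by linarith)
    · positivity
  have key : ∀ r : ℝ, 0 ≤ r → r < 1 →
      hE m q r ≤ ENNReal.ofReal (1 - al m q * r ^ 2 - al2 m q * r ^ 4) := by
    intro r hr hr1
    rw [hE_lt (by omega) hr hr1]
    exact ENNReal.ofReal_le_ofReal (sm_quad hm hq0 hq1 hq2 hr hr1)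
  rcases hr1.lt_or_eq with h | rfl
  · exact key r hr h
  · have h1 : ∀ r0 ∈ Ioo (0 : ℝ) 1,
        hE m q 1 ≤ ENNReal.ofReal (1 - al m q * r0 ^ 2 - al2 m q * r0 ^ 4) := by
      intro r0 hr0
      refine hE_fatou hr0.2 fun r h2 h3 => ?_
      refine (key r (hr0.1.trans h2).le h3).trans (ENNReal.ofReal_le_ofReal ?_)
      have h4 : r0 ^ 2 ≤ r ^ 2 := pow_le_pow_left₀ hr0.1.le h2.le 2
      have h5 : r0 ^ 4 ≤ r ^ 4 := pow_le_pow_left₀ hr0.1.le h2.le 4
      have h6 := mul_le_mul_of_nonneg_left h4 hal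
      have h7 := mul_le_mul_of_nonneg_left h5 hal2
      linarith
    have hc : Continuous fun r : ℝ => ENNReal.ofReal (1 - al m q * r ^ 2 - al2 m q * r ^ 4) := by
      apply ENNReal.continuous_ofReal.comp
      fun_prop
    have ht : Tendsto (fun r : ℝ => ENNReal.ofReal (1 - al m q * r ^ 2 - al2 m q * r ^ 4))
        (𝓝[<] 1) (𝓝 (ENNReal.ofReal (1 - al m q * 1 ^ 2 - al2 m q * 1 ^ 4))) :=
      (hc.tendsto 1).mono_left nhdsWithin_le_nhds
    refine ge_of_tendsto ht ?_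
    filter_upwards [Ioo_mem_nhdsLT (zero_lt_one' ℝ)] with r hr
    exact h1 r hr

end

section

namespace hE_poly_gt_aux
-- auxiliary lemmas here
end hE_poly_gt_aux

theorem hE_poly_gt {m : ℕ} (hm : 3 ≤ m) {q : ℝ} (hq0 : 0 < q) (hq1 : (m : ℝ) - 4 ≤ q)
    (hq2 : q ≤ m - 2) {r : ℝ} (hr : 1 ≤ r) :
    hE m q r ≤ ENNReal.ofReal (r ^ (-q) * (1 - al m q / r ^ 2 - al2 m q / r ^ 4)) := by
  have hr0 : 0 < r := lt_of_lt_of_le one_pos hr
  rw [hE_inv hr0, ENNReal.ofReal_mul (Real.rpow_nonneg hr0.le _)]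
  refine mul_le_mul_right ?_ _
  have h := hE_poly_lt hm hq0 hq1 hq2 (r := 1 / r) (by positivity)
    (by rw [div_le_one hr0]; exact hr)
  refine h.trans (le_of_eq ?_)
  congr 1
  rw [one_div, inv_pow, inv_pow, div_eq_mul_inv, div_eq_mul_inv]

end

section

namespace hE_three_aux

theorem wal3 : Wal 3 = 2 := by
  unfold Wal
  simp only [show (3 - 2 : ℕ) = 1 from rfl, pow_one]
  rw [integral_sin]; norm_num

/-- the primitive -/
noncomputable def F (q r θ : ℝ) : ℝ :=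
  -(1 + 2 * r * Real.cos θ + r ^ 2) ^ (1 - q / 2) / (2 * r * (1 - q / 2))

theorem base_nonneg (r θ : ℝ) : 0 ≤ 1 + 2 * r * Real.cos θ + r ^ 2 := by
  nlinarith [Real.sin_sq_add_cos_sq θ, sq_nonneg (r + Real.cos θ), sq_nonneg (Real.sin θ)]

theorem base_pos {r θ : ℝ} (hθ : θ ∈ Ioo 0 π) : 0 < 1 + 2 * r * Real.cos θ + r ^ 2 := by
  have h := Real.sin_pos_of_mem_Ioo hθ
  nlinarith [Real.sin_sq_add_cos_sq θ, sq_nonneg (r + Real.cos θ), mul_pos h h]

theorem F_cont {q : ℝ} (hq1 : q < 1) (r : ℝ) : ContinuousOn (F q r) (Icc 0 π) := by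
  have hb : Continuous fun θ : ℝ => 1 + 2 * r * Real.cos θ + r ^ 2 := by fun_prop
  have : Continuous (F q r) := by
    unfold F
    exact ((hb.rpow_const (fun x => Or.inr (by linarith))).neg).div_const _
  exact this.continuousOn

theorem F_deriv {q : ℝ} (hq1 : q < 1) {r : ℝ} (hr : 0 < r) {θ : ℝ} (hθ : θ ∈ Ioo 0 π) :
    HasDerivAt (F q r) ((1 + 2 * r * Real.cos θ + r ^ 2) ^ (-(q / 2)) * Real.sin θ) θ := by
  have hb : HasDerivAt (fun θ : ℝ => 1 + 2 * r * Real.cos θ + r ^ 2) (2 * r * (-Real.sin θ)) θ := by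
    have := (((Real.hasDerivAt_cos θ).const_mul (2 * r)).const_add 1).add_const (r ^ 2)
    exact this
  have h1 := hb.rpow_const (p := 1 - q / 2) (Or.inl (base_pos hθ).ne')
  have h2 := (h1.neg).div_const (2 * r * (1 - q / 2))
  unfold F
  refine h2.congr_deriv ?_
  have e : 1 - q / 2 - 1 = -(q / 2) := by ring
  have h3 : (2 - q) ≠ 0 := by linarith
  have h3' : (1 - q / 2) = (2 - q) / 2 := by ring
  rw [e, h3']
  field_simp

theorem int_eq {q : ℝ} (hq0 : 0 < q) (hq1 : q < 1) {r : ℝ} (hr : 0 < r) :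
    (∫ θ in (0 : ℝ)..π, (1 + 2 * r * Real.cos θ + r ^ 2) ^ (-(q / 2)) * Real.sin θ) =
      ((1 + r) ^ (2 - q) - |1 - r| ^ (2 - q)) / ((2 - q) * r) ∧
    IntegrableOn (fun θ => (1 + 2 * r * Real.cos θ + r ^ 2) ^ (-(q / 2)) * Real.sin θ)
      (Ioc 0 π) := by
  have hint : IntegrableOn (fun θ => (1 + 2 * r * Real.cos θ + r ^ 2) ^ (-(q / 2)) * Real.sin θ)
      (Ioc 0 π) := by
    apply intervalIntegral.integrableOn_deriv_of_nonneg (g := F q r) (F_cont hq1 r)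
      (fun θ hθ => F_deriv hq1 hr hθ)
    intro θ hθ
    exact mul_nonneg (Real.rpow_nonneg (base_nonneg r θ) _) (Real.sin_pos_of_mem_Ioo hθ).le
  refine ⟨?_, hint⟩
  have hii : IntervalIntegrable
      (fun θ => (1 + 2 * r * Real.cos θ + r ^ 2) ^ (-(q / 2)) * Real.sin θ) volume 0 π :=
    (intervalIntegrable_iff_integrableOn_Ioc_of_le Real.pi_pos.le).mpr hint
  rw [intervalIntegral.integral_eq_sub_of_hasDerivAt_of_le Real.pi_pos.le (F_cont hq1 r)
    (fun θ hθ => F_deriv hq1 hr hθ) hii]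
  unfold F
  rw [Real.cos_pi, Real.cos_zero]
  have e1 : (1 + 2 * r * 1 + r ^ 2) ^ (1 - q / 2) = (1 + r) ^ (2 - q) := by
    have : (1 + 2 * r * 1 + r ^ 2) = (1 + r) ^ (2 : ℝ) := by
      rw [Real.rpow_two]; ring
    rw [this, ← Real.rpow_mul (by linarith)]; congr 1; ring
  have e2 : (1 + 2 * r * (-1) + r ^ 2) ^ (1 - q / 2) = |1 - r| ^ (2 - q) := by
    have : (1 + 2 * r * (-1) + r ^ 2) = |1 - r| ^ (2 : ℝ) := by
      rw [Real.rpow_two, sq_abs]; ring
    rw [this, ← Real.rpow_mul (abs_nonneg _)]; congr 1; ring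
  rw [e1, e2]
  have h3 : (1 - q / 2) ≠ 0 := by linarith
  have h4 : (2 - q) ≠ 0 := by linarith
  have e3 : 2 * r * (1 - q / 2) = (2 - q) * r := by ring
  rw [e3]
  ring
end hE_three_aux

theorem hE_three {q : ℝ} (hq0 : 0 < q) (hq1 : q < 1) {r : ℝ} (hr : 0 < r) :
    hE 3 q r = ENNReal.ofReal (((1 + r) ^ (2 - q) - |1 - r| ^ (2 - q)) / (2 * (2 - q) * r)) := by
  obtain ⟨h1, h2⟩ := hE_three_aux.int_eq hq0 hq1 hr
  unfold hE
  rw [hE_three_aux.wal3]
  simp only [show (3 - 2 : ℕ) = 1 from rfl, pow_one]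
  have h3 : ∫⁻ θ in Ioo 0 π,
      ENNReal.ofReal ((1 + 2 * r * Real.cos θ + r ^ 2) ^ (-(q / 2)) * Real.sin θ) =
      ENNReal.ofReal (∫ θ in Ioc (0:ℝ) π, (1 + 2 * r * Real.cos θ + r ^ 2) ^ (-(q / 2)) * Real.sin θ) := by
    rw [MeasureTheory.restrict_Ioo_eq_restrict_Ioc]
    rw [ofReal_integral_eq_lintegral_ofReal h2]
    rw [Filter.EventuallyLE, ae_restrict_iff' measurableSet_Ioc]
    refine Filter.Eventually.of_forall (fun θ hθ => ?_)
    exact mul_nonneg (Real.rpow_nonneg (hE_three_aux.base_nonneg r θ) _)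
      (Real.sin_nonneg_of_nonneg_of_le_pi hθ.1.le hθ.2)
  rw [h3, ← intervalIntegral.integral_of_le Real.pi_pos.le, h1,
    ← ENNReal.ofReal_mul (by norm_num)]
  congr 1
  have h4 : (2 - q) ≠ 0 := by linarith
  field_simp

end

section

namespace C2_ge_one_aux

theorem rpow_ge {y a : ℝ} (hy : 0 < y) (ha : 0 ≤ a) : 1 - a * (y - 1) ≤ y ^ (-a) := by
  have h1 : Real.log y ≤ y - 1 := Real.log_le_sub_one_of_pos hy
  have h2 : -a * Real.log y + 1 ≤ Real.exp (-a * Real.log y) := Real.add_one_le_exp _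
  have h3 : y ^ (-a) = Real.exp (-a * Real.log y) := by
    rw [Real.rpow_def_of_pos hy, mul_comm]
  rw [h3]
  have h4 : a * Real.log y ≤ a * (y - 1) := mul_le_mul_of_nonneg_left h1 ha
  linarith

theorem point {q θ : ℝ} (hq : 0 < q) (hθ : θ ∈ Ioo (0 : ℝ) π) (k : ℕ) :
    2 ^ (-(q / 2)) * ((1 - q / 2 * Real.cos θ) * Real.sin θ ^ k) ≤
      (1 + 2 * 1 * Real.cos θ + 1 ^ 2) ^ (-(q / 2)) * Real.sin θ ^ k := by
  have hc : -1 < Real.cos θ := by
    rw [← Real.cos_pi]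
    exact Real.cos_lt_cos_of_nonneg_of_le_pi hθ.1.le le_rfl hθ.2
  have hy : 0 < 1 + Real.cos θ := by linarith
  have h1 := rpow_ge hy (a := q / 2) (by positivity)
  have h2 : (1 + 2 * 1 * Real.cos θ + 1 ^ 2 : ℝ) = 2 * (1 + Real.cos θ) := by ring
  rw [h2, Real.mul_rpow (by norm_num) hy.le, mul_assoc]
  refine mul_le_mul_of_nonneg_left ?_ (by positivity)
  refine mul_le_mul_of_nonneg_right ?_ (pow_nonneg (Real.sin_nonneg_of_nonneg_of_le_pi hθ.1.le
    hθ.2.le) _)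
  calc 1 - q / 2 * Real.cos θ = 1 - q / 2 * (1 + Real.cos θ - 1) := by ring
    _ ≤ _ := h1

theorem int_g (m : ℕ) (q : ℝ) :
    ∫ θ in Ioo (0 : ℝ) π, 2 ^ (-(q / 2)) * ((1 - q / 2 * Real.cos θ) * Real.sin θ ^ (m - 2)) =
      2 ^ (-(q / 2)) * Wal m := by
  rw [integral_const_mul]
  congr 1
  rw [← integral_Ioc_eq_integral_Ioo, ← intervalIntegral.integral_of_le Real.pi_pos.le]
  have h1 : ∀ θ : ℝ, (1 - q / 2 * Real.cos θ) * Real.sin θ ^ (m - 2) =
      Real.sin θ ^ (m - 2) - q / 2 * (Real.sin θ ^ (m - 2) * Real.cos θ ^ (2 * 0 + 1)) := by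
    intro θ
    ring
  simp only [h1]
  rw [intervalIntegral.integral_sub, intervalIntegral.integral_const_mul,
    integral_sin_pow_mul_cos_pow_odd]
  · simp [Wal]
  · exact (Continuous.intervalIntegrable (by fun_prop) _ _)
  · exact (Continuous.intervalIntegrable (by fun_prop) _ _)

theorem ofReal_int_le {μ : Measure ℝ} {g : ℝ → ℝ} (hg : Integrable g μ) :
    ENNReal.ofReal (∫ x, g x ∂μ) ≤ ∫⁻ x, ENNReal.ofReal (g x) ∂μ := by
  rw [integral_eq_lintegral_pos_part_sub_lintegral_neg_part hg]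
  refine (ENNReal.ofReal_le_ofReal (sub_le_self _ ENNReal.toReal_nonneg)).trans ?_
  exact ENNReal.ofReal_toReal_le

end C2_ge_one_aux

theorem C2_ge_one {m : ℕ} (hm : 2 ≤ m) {q : ℝ} (hq : 0 < q) (hqm : q < m - 1) :
    1 ≤ C2 m q := by
  have hW := Wal_pos m
  have h1 := hE_one_eq hm hq.le hqm
  have hint : Integrable (fun θ : ℝ => (2 : ℝ) ^ (-(q / 2)) *
      ((1 - q / 2 * Real.cos θ) * Real.sin θ ^ (m - 2))) (volume.restrict (Ioo 0 π)) := by
    have h2 : IntegrableOn (fun θ : ℝ => (2 : ℝ) ^ (-(q / 2)) *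
        ((1 - q / 2 * Real.cos θ) * Real.sin θ ^ (m - 2))) (Icc 0 π) :=
      (Continuous.integrableOn_Icc (by fun_prop))
    exact h2.mono_set Ioo_subset_Icc_self
  have h2 : ENNReal.ofReal (2 ^ (-(q / 2)) * Wal m) ≤ ∫⁻ θ in Ioo 0 π,
      ENNReal.ofReal ((1 + 2 * 1 * Real.cos θ + 1 ^ 2) ^ (-(q / 2)) * Real.sin θ ^ (m - 2)) := by
    rw [← C2_ge_one_aux.int_g m q]
    refine (C2_ge_one_aux.ofReal_int_le hint).trans ?_
    refine setLIntegral_mono' measurableSet_Ioo fun θ hθ => ?_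
    exact ENNReal.ofReal_le_ofReal (C2_ge_one_aux.point hq hθ _)
  have h3 : ENNReal.ofReal (2 ^ (-(q / 2))) ≤ hE m q 1 := by
    unfold hE
    calc ENNReal.ofReal (2 ^ (-(q / 2)))
        = ENNReal.ofReal (Wal m)⁻¹ * ENNReal.ofReal (2 ^ (-(q / 2)) * Wal m) := by
          rw [← ENNReal.ofReal_mul (inv_nonneg.2 hW.le)]
          congr 1
          field_simp
      _ ≤ _ := mul_le_mul_right h2 _
  rw [h1, ENNReal.ofReal_le_ofReal_iff'] at h3
  have h4 : (0 : ℝ) < 2 ^ (-(q / 2)) := by positivity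
  rcases h3 with h3 | h3
  · exact (le_mul_iff_one_le_right h4).1 h3
  · exact absurd h3 (not_le.2 h4)

end

end H618KS
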