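import Pool.Agent.Helper618_KS.Defs
import Pool.Agent.Helper618_KS.Unif

/-!
Part `Mom` of the proof for MP_237b21_an.
-/

open MeasureTheory Filter Topology Set Real
open scoped ENNReal NNReal

set_option autoImplicit false

namespace H618KS

section

namespace mom24_aux

theorem int_inner {m : ℕ} (hm : 2 ≤ m) (Y : EE m) : Integrable (fun x => inner ℝ x Y) (unif m) := by
  have := unif_prob (m := m) (by omega)
  refine Integrable.of_bound (by fun_prop) ‖Y‖ ?_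
  filter_upwards [unif_norm (m := m) (by omega)] with x hx
  have := norm_inner_le_norm (𝕜 := ℝ) x Y
  rw [hx, one_mul] at this
  exact this

theorem int_inner2 {m : ℕ} (hm : 2 ≤ m) (Y : EE m) :
    Integrable (fun x => inner ℝ x Y ^ 2) (unif m) := by
  have := unif_prob (m := m) (by omega)
  refine Integrable.of_bound (by fun_prop) (‖Y‖ ^ 2) ?_
  filter_upwards [unif_norm (m := m) (by omega)] with x hx
  have := norm_inner_le_norm (𝕜 := ℝ) x Y
  rw [hx, one_mul] at this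
  rw [norm_pow]
  exact pow_le_pow_left₀ (norm_nonneg _) this 2

theorem expand {m : ℕ} (b : ℝ) (x Y : EE m) (hx : ‖x‖ = 1) :
    ‖b • x + Y‖ ^ 2 = b ^ 2 + ‖Y‖ ^ 2 + 2 * b * inner ℝ x Y := by
  rw [norm_add_sq_real, norm_smul, inner_smul_left, hx, mul_one, Real.norm_eq_abs, sq_abs]
  simp
  ring

theorem step2 {m : ℕ} (hm : 2 ≤ m) (b : ℝ) (Y : EE m) :
    ∫ x, ‖b • x + Y‖ ^ 2 ∂(unif m) = b ^ 2 + ‖Y‖ ^ 2 := by
  have := unif_prob (m := m) (by omega)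
  have h1 : ∫ x, ‖b • x + Y‖ ^ 2 ∂(unif m) =
      ∫ x, (b ^ 2 + ‖Y‖ ^ 2 + 2 * b * inner ℝ x Y) ∂(unif m) := by
    refine integral_congr_ae ?_
    filter_upwards [unif_norm (m := m) (by omega)] with x hx
    exact expand b x Y hx
  rw [h1, integral_add (integrable_const _) ((int_inner hm Y).const_mul _), integral_const_mul,
    (unif_inner hm Y).1]
  simp

theorem step4 {m : ℕ} (hm : 2 ≤ m) (b : ℝ) (Y : EE m) :
    ∫ x, ‖b • x + Y‖ ^ 4 ∂(unif m) = (b ^ 2 + ‖Y‖ ^ 2) ^ 2 + 4 * b ^ 2 * (‖Y‖ ^ 2 / m) := by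
  have := unif_prob (m := m) (by omega)
  have h1 : ∫ x, ‖b • x + Y‖ ^ 4 ∂(unif m) =
      ∫ x, (((b ^ 2 + ‖Y‖ ^ 2) ^ 2 + (4 * b * (b ^ 2 + ‖Y‖ ^ 2)) * inner ℝ x Y) +
        (4 * b ^ 2) * inner ℝ x Y ^ 2) ∂(unif m) := by
    refine integral_congr_ae ?_
    filter_upwards [unif_norm (m := m) (by omega)] with x hx
    have h2 := expand b x Y hx
    calc ‖b • x + Y‖ ^ 4 = (‖b • x + Y‖ ^ 2) ^ 2 := by ring
      _ = _ := by rw [h2]; ring
  have hB : Integrable (fun x => (4 * b * (b ^ 2 + ‖Y‖ ^ 2)) * inner ℝ x Y) (unif m) :=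
    (int_inner hm Y).const_mul _
  have hA : Integrable (fun x => (b ^ 2 + ‖Y‖ ^ 2) ^ 2 + (4 * b * (b ^ 2 + ‖Y‖ ^ 2)) * inner ℝ x Y)
      (unif m) := (integrable_const _).add hB
  rw [h1, integral_add hA ((int_inner2 hm Y).const_mul _), integral_add (integrable_const _) hB,
    integral_const_mul, integral_const_mul, (unif_inner hm Y).1, (unif_inner hm Y).2.1]
  simp

theorem int_pow {m n : ℕ} (hm : 2 ≤ m) (b : Fin n → ℝ) (k : ℕ) :
    Integrable (fun z : Fin n → EE m => ‖∑ j, b j • z j‖ ^ k) (Measure.pi fun _ => unif m) := by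
  have := unif_prob (m := m) (by omega)
  have hc : Continuous (fun z : Fin n → EE m => ‖∑ j, b j • z j‖ ^ k) := by fun_prop
  refine Integrable.of_bound hc.aestronglyMeasurable ((∑ j, |b j|) ^ k) ?_
  have h1 : ∀ᵐ z ∂(Measure.pi fun _ : Fin n => unif m), ∀ j, ‖z j‖ = 1 :=
    eventually_all.2 fun j => (Measure.tendsto_eval_ae_ae (μ := fun _ : Fin n => unif m)
      (i := j)).eventually (unif_norm (m := m) (by omega))
  filter_upwards [h1] with z hz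
  rw [norm_pow, norm_norm]
  refine pow_le_pow_left₀ (norm_nonneg _) ?_ k
  refine (norm_sum_le _ _).trans (le_of_eq ?_)
  refine Finset.sum_congr rfl fun j _ => ?_
  rw [norm_smul, hz j, mul_one, Real.norm_eq_abs]

theorem fub {m n : ℕ} (hm : 2 ≤ m) (b : Fin (n + 1) → ℝ) (k : ℕ) :
    ∫ z : Fin (n + 1) → EE m, ‖∑ j, b j • z j‖ ^ k ∂(Measure.pi fun _ => unif m) =
      ∫ y : Fin n → EE m, ∫ x, ‖b 0 • x + ∑ j, b j.succ • y j‖ ^ k ∂(unif m)
        ∂(Measure.pi fun _ => unif m) := by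
  have := unif_prob (m := m) (by omega)
  have hmp := measurePreserving_piFinSuccAbove (fun _ : Fin (n + 1) => unif m) 0
  have hI := int_pow hm b k
  set e := MeasurableEquiv.piFinSuccAbove (fun _ : Fin (n + 1) => EE m) 0 with he
  have hF : ∀ z : Fin (n + 1) → EE m, ‖∑ j, b j • z j‖ ^ k =
      (fun p : EE m × (Fin n → EE m) => ‖b 0 • p.1 + ∑ j, b j.succ • p.2 j‖ ^ k) (e z) := by
    intro z
    simp only [he]
    rw [Fin.sum_univ_succ]
    rfl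
  have hI2 : Integrable (fun p : EE m × (Fin n → EE m) => ‖b 0 • p.1 + ∑ j, b j.succ • p.2 j‖ ^ k)
      ((unif m).prod (Measure.pi fun _ : Fin n => unif m)) := by
    rw [← hmp.integrable_comp_emb e.measurableEmbedding]
    refine hI.congr (Filter.Eventually.of_forall fun z => ?_)
    exact hF z
  rw [integral_congr_ae (Filter.Eventually.of_forall hF)]
  exact (hmp.integral_comp e.measurableEmbedding
    (fun p : EE m × (Fin n → EE m) => ‖b 0 • p.1 + ∑ j, b j.succ • p.2 j‖ ^ k)).trans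
    (integral_prod_symm _ hI2)

end mom24_aux

theorem mom24 {m n : ℕ} (hm : 2 ≤ m) (b : Fin n → ℝ) :
    (∫ z : Fin n → EE m, ‖∑ j, b j • z j‖ ^ 2 ∂(Measure.pi fun _ => unif m) = ∑ j, b j ^ 2) ∧
    (∫ z : Fin n → EE m, ‖∑ j, b j • z j‖ ^ 4 ∂(Measure.pi fun _ => unif m) =
      (∑ j, b j ^ 2) ^ 2 + 2 / (m : ℝ) * ((∑ j, b j ^ 2) ^ 2 - ∑ j, b j ^ 4)) := by
  have := unif_prob (m := m) (by omega)
  induction n with
  | zero => simp
  | succ n ih =>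
    obtain ⟨h2, h4⟩ := ih (fun j => b j.succ)
    have i2 := mom24_aux.int_pow hm (fun j : Fin n => b j.succ) 2
    have i4 := mom24_aux.int_pow hm (fun j : Fin n => b j.succ) 4
    have hm' : (m : ℝ) ≠ 0 := by positivity
    constructor
    · rw [mom24_aux.fub hm b 2]
      simp_rw [mom24_aux.step2 hm]
      rw [integral_add (integrable_const _) i2, h2, Fin.sum_univ_succ]
      simp
    · rw [mom24_aux.fub hm b 4]
      simp_rw [mom24_aux.step4 hm]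
      have e1 : (fun y : Fin n → EE m => (b 0 ^ 2 + ‖∑ j, b j.succ • y j‖ ^ 2) ^ 2 +
          4 * b 0 ^ 2 * (‖∑ j, b j.succ • y j‖ ^ 2 / m)) = fun y => (b 0 ^ 4 +
          (2 * b 0 ^ 2 + 4 * b 0 ^ 2 / m) * ‖∑ j, b j.succ • y j‖ ^ 2) +
            ‖∑ j, b j.succ • y j‖ ^ 4 := by
        funext y
        ring
      have hB : Integrable (fun y : Fin n → EE m => (2 * b 0 ^ 2 + 4 * b 0 ^ 2 / m) *
          ‖∑ j, b j.succ • y j‖ ^ 2) (Measure.pi fun _ => unif m) := i2.const_mul _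
      have hA : Integrable (fun y : Fin n → EE m => b 0 ^ 4 + (2 * b 0 ^ 2 + 4 * b 0 ^ 2 / m) *
          ‖∑ j, b j.succ • y j‖ ^ 2) (Measure.pi fun _ => unif m) := (integrable_const _).add hB
      rw [e1, integral_add hA i4, integral_add (integrable_const _) hB, integral_const_mul, h2, h4,
        Fin.sum_univ_succ, Fin.sum_univ_succ]
      simp
      field_simp
      ring

end

section

namespace mom6_aux

theorem int4 {A : Type*} [MeasurableSpace A] {μ : Measure A} {f g h k : A → ℝ}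
    (hf : Integrable f μ) (hg : Integrable g μ) (hh : Integrable h μ) (hk : Integrable k μ) :
    ∫ x, (f x + g x + h x + k x) ∂μ = ∫ x, f x ∂μ + ∫ x, g x ∂μ + ∫ x, h x ∂μ + ∫ x, k x ∂μ := by
  have h1 : Integrable (fun x => f x + g x) μ := hf.add hg
  have h2 : Integrable (fun x => f x + g x + h x) μ := h1.add hh
  rw [integral_add h2 hk, integral_add h1 hh, integral_add hf hg]

theorem ae_bound {m n : ℕ} (hm : 1 ≤ m) (b : Fin n → ℝ) :
    ∀ᵐ z ∂(Measure.pi fun _ : Fin n => unif m), ‖∑ j, b j • z j‖ ≤ ∑ j, |b j| := by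
  have := unif_prob hm
  have h1 : ∀ j : Fin n, ∀ᵐ z ∂(Measure.pi fun _ : Fin n => unif m), ‖z j‖ = 1 := fun j =>
    (Measure.tendsto_eval_ae_ae (μ := fun _ : Fin n => unif m) (i := j)).eventually (unif_norm hm)
  have h2 : ∀ᵐ z ∂(Measure.pi fun _ : Fin n => unif m), ∀ j, ‖z j‖ = 1 := ae_all_iff.2 h1
  filter_upwards [h2] with z hz
  refine (norm_sum_le _ _).trans (Finset.sum_le_sum fun j _ => ?_)
  rw [norm_smul, hz j, mul_one, Real.norm_eq_abs]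

theorem int_pow {m n : ℕ} (hm : 1 ≤ m) (b : Fin n → ℝ) (k : ℕ) :
    Integrable (fun z : Fin n → EE m => ‖∑ j, b j • z j‖ ^ k)
      (Measure.pi fun _ : Fin n => unif m) := by
  have := unif_prob hm
  refine Integrable.of_bound (C := (∑ j, |b j|) ^ k) ?_ ?_
  · apply Continuous.aestronglyMeasurable
    fun_prop
  · filter_upwards [ae_bound hm b] with z hz
    rw [Real.norm_eq_abs, abs_of_nonneg (by positivity)]
    exact pow_le_pow_left₀ (norm_nonneg _) hz k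

theorem int_inner {m : ℕ} (hm : 1 ≤ m) (y : EE m) (k : ℕ) :
    Integrable (fun x : EE m => inner ℝ x y ^ k) (unif m) := by
  have := unif_prob hm
  refine Integrable.of_bound (C := ‖y‖ ^ k) ?_ ?_
  · apply Continuous.aestronglyMeasurable
    fun_prop
  · filter_upwards [unif_norm hm] with z hz
    rw [Real.norm_eq_abs, abs_pow]
    apply pow_le_pow_left₀ (abs_nonneg _)
    have := abs_real_inner_le_norm z y
    rwa [hz, one_mul] at this

theorem inner_int {m : ℕ} (hm : 2 ≤ m) (b : ℝ) (y : EE m) :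
    ∫ x : EE m, ‖b • x + y‖ ^ 6 ∂(unif m) =
      (‖y‖ ^ 2 + b ^ 2) ^ 3 + 12 * (‖y‖ ^ 2 + b ^ 2) * b ^ 2 * (‖y‖ ^ 2 / m) := by
  have := unif_prob (m := m) (by omega)
  obtain ⟨i1, i2, i3⟩ := unif_inner hm y
  have e1 : ∫ x : EE m, ‖b • x + y‖ ^ 6 ∂(unif m) =
      ∫ x : EE m, ((‖y‖ ^ 2 + b ^ 2) ^ 3 + (6 * (‖y‖ ^ 2 + b ^ 2) ^ 2 * b) * inner ℝ x y ^ 1 +
        (12 * (‖y‖ ^ 2 + b ^ 2) * b ^ 2) * inner ℝ x y ^ 2 + (8 * b ^ 3) * inner ℝ x y ^ 3)
        ∂(unif m) := by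
    apply integral_congr_ae
    filter_upwards [unif_norm (m := m) (by omega)] with x hx
    have h1 : ‖b • x + y‖ ^ 6 = (‖b • x + y‖ ^ 2) ^ 3 := by ring
    rw [h1, norm_add_sq_real, norm_smul, hx, real_inner_smul_left, mul_one, Real.norm_eq_abs,
      sq_abs]
    ring
  have I1 := (int_inner (m := m) (by omega) y 1).const_mul (6 * (‖y‖ ^ 2 + b ^ 2) ^ 2 * b)
  have I2 := (int_inner (m := m) (by omega) y 2).const_mul (12 * (‖y‖ ^ 2 + b ^ 2) * b ^ 2)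
  have I3 := (int_inner (m := m) (by omega) y 3).const_mul (8 * b ^ 3)
  have I0 : Integrable (fun _ : EE m => (‖y‖ ^ 2 + b ^ 2) ^ 3) (unif m) := integrable_const _
  rw [e1, int4 I0 I1 I2 I3,
    integral_const_mul, integral_const_mul, integral_const_mul, i2, i3]
  have i1' : ∫ x : EE m, inner ℝ x y ^ 1 ∂(unif m) = 0 := by simpa using i1
  rw [i1']
  simp

theorem step {m n : ℕ} (hm : 2 ≤ m) (b : Fin (n + 1) → ℝ) :
    ∫ z : Fin (n + 1) → EE m, ‖∑ j, b j • z j‖ ^ 6 ∂(Measure.pi fun _ => unif m) =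
      ∫ z : Fin n → EE m, ‖∑ j, b j.succ • z j‖ ^ 6 ∂(Measure.pi fun _ => unif m) +
      (3 * b 0 ^ 2 + 12 * b 0 ^ 2 / m) *
        ∫ z : Fin n → EE m, ‖∑ j, b j.succ • z j‖ ^ 4 ∂(Measure.pi fun _ => unif m) +
      (3 * b 0 ^ 4 + 12 * b 0 ^ 4 / m) *
        ∫ z : Fin n → EE m, ‖∑ j, b j.succ • z j‖ ^ 2 ∂(Measure.pi fun _ => unif m) +
      b 0 ^ 6 := by
  have := unif_prob (m := m) (by omega)
  have hm1 : 1 ≤ m := by omega
  set e := MeasurableEquiv.piFinSuccAbove (fun _ : Fin (n + 1) => EE m) 0 with he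
  have mp : MeasurePreserving e (Measure.pi fun _ : Fin (n + 1) => unif m)
      ((unif m).prod (Measure.pi fun _ : Fin n => unif m)) :=
    measurePreserving_piFinSuccAbove (fun _ : Fin (n + 1) => unif m) 0
  have hF : ∀ p : EE m × (Fin n → EE m), ‖∑ j, b j • (e.symm p) j‖ ^ 6 =
      ‖b 0 • p.1 + ∑ j : Fin n, b j.succ • p.2 j‖ ^ 6 := by
    intro p
    rw [Fin.sum_univ_succ]
    rfl
  have h1 := (mp.symm e).integral_comp' (fun z => ‖∑ j, b j • z j‖ ^ 6)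
  have hint : Integrable (fun p : EE m × (Fin n → EE m) =>
      ‖b 0 • p.1 + ∑ j : Fin n, b j.succ • p.2 j‖ ^ 6)
      ((unif m).prod (Measure.pi fun _ : Fin n => unif m)) := by
    have h2 := (mp.symm e).integrable_comp_emb e.symm.measurableEmbedding
      (g := fun z => ‖∑ j, b j • z j‖ ^ 6)
    have h3 := h2.2 (int_pow hm1 b 6)
    have h4 : (fun p : EE m × (Fin n → EE m) =>
      ‖b 0 • p.1 + ∑ j : Fin n, b j.succ • p.2 j‖ ^ 6) =
      (fun z => ‖∑ j, b j • z j‖ ^ 6) ∘ e.symm := by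
      funext p
      exact (hF p).symm
    rw [h4]
    exact h3
  rw [← h1]
  simp only [hF]
  rw [integral_prod_symm _ hint]
  simp only [inner_int hm]
  have J6 := int_pow hm1 (fun j : Fin n => b j.succ) 6
  have J4 := (int_pow hm1 (fun j : Fin n => b j.succ) 4).const_mul (3 * b 0 ^ 2 + 12 * b 0 ^ 2 / m)
  have J2 := (int_pow hm1 (fun j : Fin n => b j.succ) 2).const_mul (3 * b 0 ^ 4 + 12 * b 0 ^ 4 / m)
  have J0 : Integrable (fun _ : Fin n → EE m => b 0 ^ 6) (Measure.pi fun _ : Fin n => unif m) :=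
    integrable_const _
  have e2 : ∀ w : Fin n → EE m, (‖∑ j : Fin n, b j.succ • w j‖ ^ 2 + b 0 ^ 2) ^ 3 +
      12 * (‖∑ j : Fin n, b j.succ • w j‖ ^ 2 + b 0 ^ 2) * b 0 ^ 2 *
        (‖∑ j : Fin n, b j.succ • w j‖ ^ 2 / m) =
      ‖∑ j : Fin n, b j.succ • w j‖ ^ 6 +
      (3 * b 0 ^ 2 + 12 * b 0 ^ 2 / m) * ‖∑ j : Fin n, b j.succ • w j‖ ^ 4 +
      (3 * b 0 ^ 4 + 12 * b 0 ^ 4 / m) * ‖∑ j : Fin n, b j.succ • w j‖ ^ 2 + b 0 ^ 6 := by
    intro w
    ring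
  simp only [e2]
  rw [int4 J6 J4 J2 J0,
    integral_const_mul, integral_const_mul]
  simp

/-- the algebra of the induction step -/
theorem algebra {c x V T b : ℝ} (hc : 0 ≤ c) (hx : 0 ≤ x) (hV : 0 ≤ V) (hVx : V ≤ c * x ^ 2)
    (h1 : x * T ≤ 2 * V ^ 2) (h0 : x = 0 → T = 0) :
    (x + b ^ 2) * (T + 6 * c * b ^ 2 * V) ≤ 2 * (V + 2 * c * b ^ 2 * x) ^ 2 := by
  rcases eq_or_lt_of_le hx with hx0 | hx0
  · have hT := h0 hx0.symm
    rw [← hx0] at hVx ⊢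
    have hV0 : V = 0 := by nlinarith
    rw [hT, hV0]
    simp
  · have hb : 0 ≤ b ^ 2 := sq_nonneg b
    have hT : T ≤ 2 * (c * x * V) := by
      have : x * T ≤ x * (2 * (c * x * V)) := by nlinarith
      exact le_of_mul_le_mul_left this hx0
    have e1 : b ^ 2 * T ≤ b ^ 2 * (2 * (c * x * V)) := mul_le_mul_of_nonneg_left hT hb
    have e2 : 6 * c * (b ^ 2) ^ 2 * V ≤ 6 * c * (b ^ 2) ^ 2 * (c * x ^ 2) :=
      mul_le_mul_of_nonneg_left hVx (by positivity)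
    have e3 : 0 ≤ c ^ 2 * (b ^ 2) ^ 2 * x ^ 2 := by positivity
    nlinarith

theorem V_bound {n : ℕ} (b : Fin n → ℝ) :
    0 ≤ (∑ j, b j ^ 2) ^ 2 - ∑ j, b j ^ 4 := by
  have h : ∑ j, b j ^ 4 ≤ (∑ j, b j ^ 2) ^ 2 := by
    have h2 : ∀ j ∈ (Finset.univ : Finset (Fin n)), b j ^ 4 ≤ b j ^ 2 * ∑ i, b i ^ 2 := by
      intro j _
      have h3 : b j ^ 2 ≤ ∑ i, b i ^ 2 :=
        Finset.single_le_sum (f := fun i => b i ^ 2) (fun i _ => sq_nonneg _) (Finset.mem_univ j)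
      have h4 := mul_le_mul_of_nonneg_left h3 (sq_nonneg (b j))
      calc b j ^ 4 = b j ^ 2 * b j ^ 2 := by ring
        _ ≤ _ := h4
    calc ∑ j, b j ^ 4 ≤ ∑ j, b j ^ 2 * ∑ i, b i ^ 2 := Finset.sum_le_sum h2
      _ = (∑ j, b j ^ 2) ^ 2 := by rw [← Finset.sum_mul]; ring
  linarith

theorem claim {m : ℕ} (hm : 2 ≤ m) : ∀ (n : ℕ) (b : Fin n → ℝ),
    (∑ j, b j ^ 2) * ((∫ z : Fin n → EE m, ‖∑ j, b j • z j‖ ^ 6 ∂(Measure.pi fun _ => unif m)) -
      (∑ j, b j ^ 2) ^ 3 - 3 * (∑ j, b j ^ 2) *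
        (2 / (m : ℝ) * ((∑ j, b j ^ 2) ^ 2 - ∑ j, b j ^ 4))) ≤
      2 * (2 / (m : ℝ) * ((∑ j, b j ^ 2) ^ 2 - ∑ j, b j ^ 4)) ^ 2 ∧
    (∑ j, b j ^ 2 = 0 →
      (∫ z : Fin n → EE m, ‖∑ j, b j • z j‖ ^ 6 ∂(Measure.pi fun _ => unif m)) -
      (∑ j, b j ^ 2) ^ 3 - 3 * (∑ j, b j ^ 2) *
        (2 / (m : ℝ) * ((∑ j, b j ^ 2) ^ 2 - ∑ j, b j ^ 4)) = 0) := by
  intro n
  induction n with
  | zero =>
    intro b
    simp
  | succ n ih =>
    intro b
    obtain ⟨g1, g2⟩ := ih (fun j => b j.succ)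
    obtain ⟨m2, m4⟩ := mom24 hm (fun j : Fin n => b j.succ)
    have hm0 : (0 : ℝ) < m := by
      have : (2 : ℝ) ≤ m := by exact_mod_cast hm
      linarith
    have hV0 := V_bound (fun j : Fin n => b j.succ)
    rw [step hm, m2, m4, Fin.sum_univ_succ, Fin.sum_univ_succ (fun j => b j ^ 4)]
    set x := ∑ j : Fin n, b j.succ ^ 2 with hx
    set Q := ∑ j : Fin n, b j.succ ^ 4 with hQ
    set M := ∫ z : Fin n → EE m, ‖∑ j, b j.succ • z j‖ ^ 6 ∂(Measure.pi fun _ => unif m) with hM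
    set c : ℝ := 2 / (m : ℝ) with hc
    have hc0 : 0 < c := by positivity
    have hx0 : 0 ≤ x := Finset.sum_nonneg fun j _ => sq_nonneg _
    have hQ0 : 0 ≤ Q := Finset.sum_nonneg fun j _ => by positivity
    have hd : ∀ r : ℝ, 12 * r / (m : ℝ) = 6 * c * r := by
      intro r; rw [hc]; ring
    rw [hd, hd]
    have hT : M + (3 * b 0 ^ 2 + 6 * c * b 0 ^ 2) * (x ^ 2 + c * (x ^ 2 - Q)) +
        (3 * b 0 ^ 4 + 6 * c * b 0 ^ 4) * x + b 0 ^ 6 - (b 0 ^ 2 + x) ^ 3 -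
        3 * (b 0 ^ 2 + x) * (c * ((b 0 ^ 2 + x) ^ 2 - (b 0 ^ 4 + Q))) =
        (M - x ^ 3 - 3 * x * (c * (x ^ 2 - Q))) + 6 * c * b 0 ^ 2 * (c * (x ^ 2 - Q)) := by
      ring
    have hV' : c * ((b 0 ^ 2 + x) ^ 2 - (b 0 ^ 4 + Q)) = c * (x ^ 2 - Q) + 2 * c * b 0 ^ 2 * x := by
      ring
    rw [hT, hV']
    refine ⟨?_, ?_⟩
    · have := algebra (c := c) (x := x) (V := c * (x ^ 2 - Q))
        (T := M - x ^ 3 - 3 * x * (c * (x ^ 2 - Q))) (b := b 0) hc0.le hx0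
        (mul_nonneg hc0.le hV0)
        (mul_le_mul_of_nonneg_left (by linarith) hc0.le) g1 g2
      rw [add_comm (b 0 ^ 2) x]
      exact this
    · intro hz
      have hb2 : b 0 ^ 2 = 0 := by nlinarith [sq_nonneg (b 0)]
      have hx00 : x = 0 := by nlinarith [sq_nonneg (b 0)]
      rw [g2 hx00, hb2]
      ring

end mom6_aux

theorem mom6 {m n : ℕ} (hm : 2 ≤ m) (b : Fin n → ℝ) :
    (∑ j, b j ^ 2) *
      ∫ z : Fin n → EE m, ‖∑ j, b j • z j‖ ^ 6 ∂(Measure.pi fun _ => unif m) ≤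
    (∑ j, b j ^ 2) ^ 4 +
      3 * (∑ j, b j ^ 2) ^ 2 * (2 / (m : ℝ) * ((∑ j, b j ^ 2) ^ 2 - ∑ j, b j ^ 4)) +
      2 * (2 / (m : ℝ) * ((∑ j, b j ^ 2) ^ 2 - ∑ j, b j ^ 4)) ^ 2 := by
  have h := (mom6_aux.claim hm n b).1
  nlinarith

end

end H618KS
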