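import Pool.Agent.Helper618_KS.Defs
import Pool.Agent.Helper618_KS.Unif
import Pool.Agent.Helper618_KS.Holder
import Pool.Agent.Helper618_KS.Pair
import Pool.Agent.Helper618_KS.Smean
import Pool.Agent.Helper618_KS.HE
import Pool.Agent.Helper618_KS.Mom

/-!
Part `Big` of the proof for MP_237b21_an.
-/

open MeasureTheory Filter Topology Set Real
open scoped ENNReal NNReal

set_option autoImplicit false

namespace H618KS

section

namespace EN_big_ge_aux
end EN_big_ge_aux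

theorem EN_big_ge {m n : ℕ} (hm : 2 ≤ m) {q : ℝ} (hq : 0 < q) (hq1 : (m : ℝ) - 2 ≤ q)
    (hqm : q < m - 1) (a : Fin (n + 1) → ℝ) (i : Fin (n + 1)) (hi : 1 / 2 ≤ a i ^ 2) :
    EN m q a ≤ ENNReal.ofReal (C2 m q) := by
  have hne : a i ≠ 0 := by
    intro h
    rw [h] at hi
    norm_num at hi
  have := unif_prob (m := m) (by omega)
  rw [EN_cond hm hq a i hne]
  have h1 : ∀ z : Fin n → EE m, ENNReal.ofReal (|a i| ^ (-q)) *
      hE m q (‖∑ j, a (i.succAbove j) • z j‖ / |a i|) ≤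
      ENNReal.ofReal (|a i| ^ (-q)) * ENNReal.ofReal (2 ^ (-(q / 2)) * C2 m q) := by
    intro z
    rw [← hE_one_eq hm hq.le hqm]
    exact mul_le_mul_right (hE_sup hm hq hq1 (by positivity)) _
  refine (lintegral_mono h1).trans ?_
  rw [lintegral_const, measure_univ, mul_one, ← ENNReal.ofReal_mul (by positivity)]
  refine ENNReal.ofReal_le_ofReal ?_
  have h2 : |a i| ^ (-q) ≤ 2 ^ (q / 2) := by
    have e1 : |a i| ^ (-q) = (a i ^ 2) ^ (-(q / 2)) := by
      rw [← sq_abs, ← Real.rpow_natCast, ← Real.rpow_mul (abs_nonneg _)]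
      congr 1
      push_cast
      ring
    have e2 : (2 : ℝ) ^ (q / 2) = (1 / 2) ^ (-(q / 2)) := by
      rw [one_div, Real.inv_rpow (by norm_num), Real.rpow_neg (by norm_num), inv_inv]
    rw [e1, e2]
    exact Real.rpow_le_rpow_of_nonpos (by norm_num) hi (by linarith)
  have h3 : (2 : ℝ) ^ (q / 2) * 2 ^ (-(q / 2)) = 1 := by
    rw [← Real.rpow_add (by norm_num), add_neg_cancel, Real.rpow_zero]
  have h4 := C2_pos hm hq.le hqm
  calc |a i| ^ (-q) * (2 ^ (-(q / 2)) * C2 m q)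
      ≤ 2 ^ (q / 2) * (2 ^ (-(q / 2)) * C2 m q) := mul_le_mul_of_nonneg_right h2 (by positivity)
    _ = C2 m q := by rw [← mul_assoc, h3, one_mul]

end

section

namespace EN_poly_aux

theorem base_pos {r θ : ℝ} (hθ : θ ∈ Ioo 0 π) : 0 < 1 + 2 * r * Real.cos θ + r ^ 2 := by
  have hs : 0 < Real.sin θ := Real.sin_pos_of_mem_Ioo hθ
  have h1 := Real.sin_sq_add_cos_sq θ
  nlinarith [sq_nonneg (r + Real.cos θ), mul_pos hs hs]

theorem hE_pos (m : ℕ) (q r : ℝ) : 0 < hE m q r := by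
  unfold hE
  have hW : 0 < ENNReal.ofReal (Wal m)⁻¹ := by
    rw [ENNReal.ofReal_pos]
    exact inv_pos.mpr (Wal_pos m)
  refine ENNReal.mul_pos hW.ne' ?_
  have hpos : ∀ θ ∈ Ioo (0 : ℝ) π, 0 < (1 + 2 * r * Real.cos θ + r ^ 2) ^ (-(q / 2)) * Real.sin θ ^ (m - 2) := by
    intro θ hθ
    exact mul_pos (Real.rpow_pos_of_pos (base_pos hθ) _) (pow_pos (Real.sin_pos_of_mem_Ioo hθ) _)
  have hmeas : Measurable fun θ : ℝ => ENNReal.ofReal
      ((1 + 2 * r * Real.cos θ + r ^ 2) ^ (-(q / 2)) * Real.sin θ ^ (m - 2)) := by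
    fun_prop
  intro h0
  rw [lintegral_eq_zero_iff hmeas] at h0
  have h1 : ∀ᵐ θ ∂(volume.restrict (Ioo (0 : ℝ) π)), False := by
    filter_upwards [h0, ae_restrict_mem measurableSet_Ioo] with θ h2 h3
    have h4 := hpos θ h3
    have h5 : ENNReal.ofReal ((1 + 2 * r * Real.cos θ + r ^ 2) ^ (-(q / 2)) * Real.sin θ ^ (m - 2)) = 0 := h2
    rw [ENNReal.ofReal_eq_zero] at h5
    linarith
  have h6 : volume (Ioo (0 : ℝ) π) = 0 := by
    have h7 := ae_iff.mp h1
    simpa using h7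
  rw [Real.volume_Ioo] at h6
  have := Real.pi_pos
  simp at h6
  linarith

theorem norm_ae {m n : ℕ} (hm : 2 ≤ m) (b : Fin n → ℝ) :
    ∀ᵐ z : Fin n → EE m ∂(Measure.pi fun _ => unif m),
      ‖∑ j, b j • z j‖ ≤ ∑ j, |b j| := by
  have : IsProbabilityMeasure (unif m) := unif_prob (by omega)
  have h1 : ∀ j : Fin n, ∀ᵐ z : Fin n → EE m ∂(Measure.pi fun _ => unif m), ‖z j‖ = 1 := by
    intro j
    exact (measurePreserving_eval (fun _ : Fin n => unif m) j).quasiMeasurePreserving.ae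
      (unif_norm (by omega))
  filter_upwards [ae_all_iff.mpr h1] with z hz
  calc ‖∑ j, b j • z j‖ ≤ ∑ j, ‖b j • z j‖ := norm_sum_le _ _
    _ = ∑ j, |b j| := by
      refine Finset.sum_congr rfl fun j _ => ?_
      rw [norm_smul, hz j, Real.norm_eq_abs, mul_one]

theorem pow_int {m n : ℕ} (hm : 2 ≤ m) (b : Fin n → ℝ) (k : ℕ) :
    Integrable (fun z : Fin n → EE m => ‖∑ j, b j • z j‖ ^ k) (Measure.pi fun _ => unif m) := by
  have : IsProbabilityMeasure (unif m) := unif_prob (by omega)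
  have hmeas : AEStronglyMeasurable (fun z : Fin n → EE m => ‖∑ j, b j • z j‖ ^ k)
      (Measure.pi fun _ => unif m) := by
    apply Continuous.aestronglyMeasurable
    fun_prop
  refine Integrable.of_bound hmeas ((∑ j, |b j|) ^ k) ?_
  filter_upwards [norm_ae hm b] with z hz
  rw [Real.norm_eq_abs, abs_of_nonneg (pow_nonneg (norm_nonneg _) _)]
  exact pow_le_pow_left₀ (norm_nonneg _) hz k

end EN_poly_aux

theorem EN_poly {m n : ℕ} (hm : 2 ≤ m) {q : ℝ} (hq : 0 < q) (a : Fin (n + 1) → ℝ)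
    (i : Fin (n + 1)) (hi : a i ≠ 0) (P0 P1 P2 P3 : ℝ) (hP3 : 0 ≤ P3)
    (hP : ∀ r : ℝ, 0 ≤ r →
      hE m q r ≤ ENNReal.ofReal (P0 + P1 * r ^ 2 + P2 * r ^ 4 + P3 * r ^ 6))
    (x V : ℝ) (hx : x = ∑ j, (a (i.succAbove j) / a i) ^ 2) (hx0 : 0 < x)
    (hV : V = 2 / (m : ℝ) * (x ^ 2 - ∑ j, (a (i.succAbove j) / a i) ^ 4)) :
    EN m q a ≤ ENNReal.ofReal (|a i| ^ (-q) *
      (P0 + P1 * x + P2 * (x ^ 2 + V) + P3 * (x ^ 3 + 3 * x * V + 2 * V ^ 2 / x))) := by
  have : IsProbabilityMeasure (unif m) := unif_prob (by omega)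
  set b : Fin n → ℝ := fun j => a (i.succAbove j) / a i with hb
  have hai : 0 < |a i| := abs_pos.mpr hi
  have hc : 0 < |a i| ^ (-q) := Real.rpow_pos_of_pos hai _
  have hfpos : ∀ r : ℝ, 0 ≤ r → 0 < P0 + P1 * r ^ 2 + P2 * r ^ 4 + P3 * r ^ 6 := by
    intro r hr
    have h1 := lt_of_lt_of_le (EN_poly_aux.hE_pos m q r) (hP r hr)
    exact ENNReal.ofReal_pos.mp h1
  have hr : ∀ z : Fin n → EE m,
      ‖∑ j, a (i.succAbove j) • z j‖ / |a i| = ‖∑ j, b j • z j‖ := by
    intro z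
    have h1 : ∑ j, a (i.succAbove j) • z j = a i • ∑ j, b j • z j := by
      rw [Finset.smul_sum]
      refine Finset.sum_congr rfl fun j _ => ?_
      rw [smul_smul, hb]
      congr 1
      field_simp
    rw [h1, norm_smul, Real.norm_eq_abs]
    field_simp
  rw [EN_cond hm hq a i hi]
  have hI2 := EN_poly_aux.pow_int hm b 2
  have hI4 := EN_poly_aux.pow_int hm b 4
  have hI6 := EN_poly_aux.pow_int hm b 6
  have hint : Integrable (fun z : Fin n → EE m => |a i| ^ (-q) *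
      (P0 + P1 * ‖∑ j, b j • z j‖ ^ 2 + P2 * ‖∑ j, b j • z j‖ ^ 4 + P3 * ‖∑ j, b j • z j‖ ^ 6))
      (Measure.pi fun _ => unif m) := by
    refine Integrable.const_mul ?_ _
    exact (((integrable_const P0).add (hI2.const_mul P1)).add (hI4.const_mul P2)).add
      (hI6.const_mul P3)
  have hnn : ∀ z : Fin n → EE m, 0 ≤ |a i| ^ (-q) *
      (P0 + P1 * ‖∑ j, b j • z j‖ ^ 2 + P2 * ‖∑ j, b j • z j‖ ^ 4 + P3 * ‖∑ j, b j • z j‖ ^ 6) :=
    fun z => mul_nonneg hc.le (hfpos _ (norm_nonneg _)).le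
  have step1 : (∫⁻ z : Fin n → EE m, ENNReal.ofReal (|a i| ^ (-q)) *
      hE m q (‖∑ j, a (i.succAbove j) • z j‖ / |a i|) ∂(Measure.pi fun _ => unif m)) ≤
      ∫⁻ z : Fin n → EE m, ENNReal.ofReal (|a i| ^ (-q) *
      (P0 + P1 * ‖∑ j, b j • z j‖ ^ 2 + P2 * ‖∑ j, b j • z j‖ ^ 4 + P3 * ‖∑ j, b j • z j‖ ^ 6))
        ∂(Measure.pi fun _ => unif m) := by
    refine lintegral_mono fun z => ?_
    rw [hr z, ENNReal.ofReal_mul hc.le]
    exact mul_le_mul_right (hP _ (norm_nonneg _)) _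
  refine step1.trans ?_
  rw [← ofReal_integral_eq_lintegral_ofReal hint (ae_of_all _ hnn)]
  refine ENNReal.ofReal_le_ofReal ?_
  rw [integral_const_mul]
  refine mul_le_mul_of_nonneg_left ?_ hc.le
  have hJ2 : Integrable (fun z : Fin n → EE m => P0 + P1 * ‖∑ j, b j • z j‖ ^ 2)
      (Measure.pi fun _ => unif m) := (integrable_const P0).add (hI2.const_mul P1)
  have hJ4 : Integrable (fun z : Fin n → EE m => P0 + P1 * ‖∑ j, b j • z j‖ ^ 2 +
      P2 * ‖∑ j, b j • z j‖ ^ 4)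
      (Measure.pi fun _ => unif m) := hJ2.add (hI4.const_mul P2)
  rw [integral_add hJ4 (hI6.const_mul P3),
    integral_add hJ2 (hI4.const_mul P2),
    integral_add (integrable_const P0) (hI2.const_mul P1),
    integral_const_mul, integral_const_mul, integral_const_mul, integral_const]
  obtain ⟨h2, h4⟩ := mom24 hm b
  have h6 := mom6 hm b
  have hxb : ∑ j, b j ^ 2 = x := hx.symm
  have hVb : 2 / (m : ℝ) * (x ^ 2 - ∑ j, b j ^ 4) = V := hV.symm
  rw [hxb] at h2 h4 h6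
  rw [hVb] at h4 h6
  rw [h2, h4]
  have h6' : ∫ z : Fin n → EE m, ‖∑ j, b j • z j‖ ^ 6 ∂(Measure.pi fun _ => unif m) ≤
      x ^ 3 + 3 * x * V + 2 * V ^ 2 / x := by
    have h7 : x * (x ^ 3 + 3 * x * V + 2 * V ^ 2 / x) = x ^ 4 + 3 * x ^ 2 * V + 2 * V ^ 2 := by
      field_simp
    rw [← h7] at h6
    exact le_of_mul_le_mul_left h6 hx0
  have h8 := mul_le_mul_of_nonneg_left h6' hP3
  simp only [probReal_univ, smul_eq_mul, one_mul]
  linarith

end

section

namespace EN_big_aux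
-- auxiliary lemmas here
end EN_big_aux

theorem EN_big {m n : ℕ} (hm : 2 ≤ m) {q : ℝ} (hq : 0 < q) (hqm : q < m - 1)
    (a : Fin (n + 1) → ℝ) (ha : ∑ j, a j ^ 2 = 1) (i : Fin (n + 1)) (hi : 1 / 2 < a i ^ 2)
    (P0 P1 P2 P3 μ : ℝ) (hP3 : 0 ≤ P3)
    (hP : ∀ r : ℝ, 0 ≤ r →
      hE m q r ≤ ENNReal.ofReal (P0 + P1 * r ^ 2 + P2 * r ^ 4 + P3 * r ^ 6))
    (hμ : μ ≤ 2 ^ (-(q / 2)) * max (C2 m q) (Cinf m q))
    (hnum : ∀ x V : ℝ, x = ∑ j, (a (i.succAbove j) / a i) ^ 2 →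
      V = 2 / (m : ℝ) * (x ^ 2 - ∑ j, (a (i.succAbove j) / a i) ^ 4) → 0 < x → x < 1 → 0 ≤ V →
      V ≤ 2 / (m : ℝ) * x ^ 2 →
      P0 + P1 * x + P2 * (x ^ 2 + V) + P3 * (x ^ 3 + 3 * x * V + 2 * V ^ 2 / x) ≤
        μ * (1 + q / 4 * (1 - x))) :
    EN m q a ≤ ENNReal.ofReal (max (C2 m q) (Cinf m q)) := by
  have hi0 : a i ≠ 0 := by
    intro h
    rw [h] at hi
    norm_num at hi
  set x : ℝ := ∑ j, (a (i.succAbove j) / a i) ^ 2 with hx
  have hsum : a i ^ 2 + ∑ j, a (i.succAbove j) ^ 2 = 1 := by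
    rw [← ha, Fin.sum_univ_succAbove _ i]
  have hai : 0 < a i ^ 2 := by positivity
  have hx1 : (1 + x) * a i ^ 2 = 1 := by
    have h1 : x * a i ^ 2 = ∑ j, a (i.succAbove j) ^ 2 := by
      rw [hx, Finset.sum_mul]
      refine Finset.sum_congr rfl fun j _ => ?_
      field_simp
    linarith
  have hx0 : 0 ≤ x := Finset.sum_nonneg fun j _ => sq_nonneg _
  have hx2 : x < 1 := by
    by_contra hcon
    push Not at hcon
    nlinarith
  have hM1 : 1 ≤ max (C2 m q) (Cinf m q) := (C2_ge_one hm hq hqm).trans (le_max_left _ _)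
  set M := max (C2 m q) (Cinf m q) with hM
  have hpow : |a i| ^ (-q) = (1 + x) ^ (q / 2) := by
    have h1 : (1 + x) = (|a i| ^ (2 : ℝ))⁻¹ := by
      rw [Real.rpow_two, sq_abs]
      exact eq_inv_of_mul_eq_one_left hx1
    rw [h1, Real.inv_rpow (by positivity), ← Real.rpow_mul (abs_nonneg _),
      ← Real.rpow_neg (abs_nonneg _)]
    congr 1
    ring
  rcases hx0.eq_or_lt with h0 | h0
  · -- all other coefficients vanish
    have hz : ∀ j, a (i.succAbove j) = 0 := by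
      intro j
      have h1 := (Finset.sum_eq_zero_iff_of_nonneg
        (s := Finset.univ) (f := fun j => (a (i.succAbove j) / a i) ^ 2)
        (fun j _ => sq_nonneg _)).1 h0.symm j (Finset.mem_univ j)
      have h2 := pow_eq_zero_iff (two_ne_zero) |>.1 h1
      rcases div_eq_zero_iff.1 h2 with h3 | h3
      · exact h3
      · exact absurd h3 hi0
    have hprob : IsProbabilityMeasure (unif m) := unif_prob (by omega)
    rw [EN_cond hm hq a i hi0]
    have h1 : ∀ z : Fin n → EE m, ENNReal.ofReal (|a i| ^ (-q)) *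
        hE m q (‖∑ j, a (i.succAbove j) • z j‖ / |a i|) = 1 := by
      intro z
      have h2 : ∑ j, a (i.succAbove j) • z j = 0 :=
        Finset.sum_eq_zero fun j _ => by rw [hz j, zero_smul]
      rw [h2, norm_zero, zero_div, hE_lt hm le_rfl one_pos, sm_zero, hpow, ← h0, add_zero,
        Real.one_rpow, ENNReal.ofReal_one, mul_one]
    simp only [h1]
    rw [lintegral_one, measure_univ]
    rw [ENNReal.one_le_ofReal]
    exact hM1
  · set V : ℝ := 2 / (m : ℝ) * (x ^ 2 - ∑ j, (a (i.succAbove j) / a i) ^ 4) with hV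
    have hm0 : (0 : ℝ) < m := by
      have : 0 < m := by omega
      exact_mod_cast this
    have h4 : ∑ j, (a (i.succAbove j) / a i) ^ 4 ≤ x ^ 2 := by
      have h5 : ∀ j, (a (i.succAbove j) / a i) ^ 4 ≤ (a (i.succAbove j) / a i) ^ 2 * x := by
        intro j
        have h6 : (a (i.succAbove j) / a i) ^ 2 ≤ x :=
          Finset.single_le_sum (f := fun j => (a (i.succAbove j) / a i) ^ 2)
            (fun j _ => sq_nonneg _) (Finset.mem_univ j)
        have h7 := mul_le_mul_of_nonneg_left h6 (sq_nonneg (a (i.succAbove j) / a i))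
        refine le_trans (le_of_eq ?_) h7
        ring
      refine (Finset.sum_le_sum fun j _ => h5 j).trans (le_of_eq ?_)
      rw [← Finset.sum_mul, ← hx]
      ring
    have h4' : 0 ≤ ∑ j, (a (i.succAbove j) / a i) ^ 4 :=
      Finset.sum_nonneg fun j _ => by positivity
    have hm2 : 0 < 2 / (m : ℝ) := by positivity
    have hV0 : 0 ≤ V := mul_nonneg hm2.le (by linarith)
    have hV1 : V ≤ 2 / (m : ℝ) * x ^ 2 := mul_le_mul_of_nonneg_left (by linarith) hm2.le
    have hn := hnum x V hx hV h0 hx2 hV0 hV1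
    refine (EN_poly hm hq a i hi0 P0 P1 P2 P3 hP3 hP x V hx h0 hV).trans ?_
    apply ENNReal.ofReal_le_ofReal
    rw [hpow]
    set k := q / 2 with hk
    have hk0 : 0 < k := by positivity
    have hp : 0 ≤ (1 + x) ^ k := Real.rpow_nonneg (by linarith) _
    have hlin : 0 ≤ 1 + q / 4 * (1 - x) := by
      have : 0 ≤ q / 4 * (1 - x) := mul_nonneg (by positivity) (by linarith)
      linarith
    have hkey : (1 + x) ^ k * 2 ^ (-k) * (1 + q / 4 * (1 - x)) ≤ 1 := by
      set y := (1 - x) / 2 with hy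
      have e1 : (1 + x) ^ k * 2 ^ (-k) = (1 - y) ^ k := by
        have e2 : 1 - y = (1 + x) / 2 := by rw [hy]; ring
        rw [e2, Real.div_rpow (by linarith) (by norm_num), Real.rpow_neg (by norm_num)]
        rfl
      have e2 : (1 - y) ^ k ≤ Real.exp (-(k * y)) := by
        have e3 : 1 - y ≤ Real.exp (-y) := Real.one_sub_le_exp_neg y
        calc (1 - y) ^ k ≤ (Real.exp (-y)) ^ k :=
              Real.rpow_le_rpow (by rw [hy]; linarith) e3 hk0.le
          _ = Real.exp (-(k * y)) := by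
              rw [← Real.exp_mul]
              congr 1
              ring
      have e4 : 1 + q / 4 * (1 - x) ≤ Real.exp (k * y) := by
        have e5 : 1 + q / 4 * (1 - x) = k * y + 1 := by rw [hk, hy]; ring
        rw [e5]
        exact Real.add_one_le_exp _
      rw [e1]
      calc (1 - y) ^ k * (1 + q / 4 * (1 - x)) ≤ Real.exp (-(k * y)) * Real.exp (k * y) :=
            mul_le_mul e2 e4 hlin (Real.exp_pos _).le
        _ = 1 := by rw [← Real.exp_add]; simp
    calc (1 + x) ^ k * (P0 + P1 * x + P2 * (x ^ 2 + V) +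
          P3 * (x ^ 3 + 3 * x * V + 2 * V ^ 2 / x))
        ≤ (1 + x) ^ k * (μ * (1 + q / 4 * (1 - x))) := mul_le_mul_of_nonneg_left hn hp
      _ ≤ (1 + x) ^ k * ((2 ^ (-k) * M) * (1 + q / 4 * (1 - x))) :=
          mul_le_mul_of_nonneg_left (mul_le_mul_of_nonneg_right hμ hlin) hp
      _ = ((1 + x) ^ k * 2 ^ (-k) * (1 + q / 4 * (1 - x))) * M := by ring
      _ ≤ 1 * M := mul_le_mul_of_nonneg_right hkey (by linarith)
      _ = M := one_mul _

end

end H618KS
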