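import Mathlib

/-!
Definitions for MP_237b21_an (helper618).
-/

open MeasureTheory Filter Topology Set Real
open scoped ENNReal NNReal

set_option autoImplicit false

namespace H618KS

/-- normalised Bessel function `bj a t = Γ(a) (2/t)^(a-1) J_{a-1}(t)`, by its power series -/
noncomputable def bj (a t : ℝ) : ℝ :=
  ∑' k : ℕ, (-1 : ℝ) ^ k * (t ^ 2 / 4) ^ k / ((k.factorial : ℝ) * ∏ i ∈ Finset.range k, (a + i))

/-- the leading part of Sonin's function -/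
noncomputable def EEn (m : ℕ) (t : ℝ) : ℝ :=
  t ^ (m - 1) * (bj ((m : ℝ) / 2) t ^ 2 + t ^ 2 / (m : ℝ) ^ 2 * bj ((m : ℝ) / 2 + 1) t ^ 2)

/-- Sonin's function `w² (1 - c/t²) + w'²`, `w = t^((m-1)/2) bj (m/2) t` -/
noncomputable def SSn (m : ℕ) (t : ℝ) : ℝ :=
  EEn m t + t ^ (m - 1) * (((m : ℝ) - 1) / (2 * t ^ 2) * bj ((m : ℝ) / 2) t ^ 2 -
    ((m : ℝ) - 1) / m * (bj ((m : ℝ) / 2) t * bj ((m : ℝ) / 2 + 1) t))

/-- squared amplitudes (for even `m` an upper bound) -/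
noncomputable def Asq : ℕ → ℝ
  | 0 => 1
  | 1 => 1
  | 2 => 0.642
  | 3 => 1
  | (m + 4) => ((m : ℝ) + 2) ^ 2 * Asq (m + 2)

/-- the exponent of the comparison function -/
noncomputable def E4 (m : ℕ) (t : ℝ) : ℝ :=
  t ^ 2 / (2 * m) + t ^ 4 / (4 * (m : ℝ) ^ 2 * (m + 2))

/-- the rate correction in the bound for `m ≥ 6` -/
noncomputable def th6 (m : ℕ) : ℝ := 2 / ((m : ℝ) + 2) * (0.1755 * (((m : ℝ) - 3) / 2) + 0.3177)

/-- bound for the first part of the integral, `m ≥ 6` -/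
noncomputable def PP6 (m : ℕ) : ℝ :=
  (1 + th6 m) ^ (-(((m : ℝ) - 1) / 2)) *
    (((2 * (m : ℝ) / 3 - ((m : ℝ) - 1) / 2 / (1 + th6 m)) +
      Real.sqrt ((2 * (m : ℝ) / 3 - ((m : ℝ) - 1) / 2 / (1 + th6 m)) ^ 2 +
        ((m : ℝ) - 1) / 2 / (1 + th6 m) ^ 2)) / 2)

/-- `p = 2m/3 - c/m` -/
noncomputable def pp6 (m : ℕ) : ℝ := 2 * (m : ℝ) / 3 - ((m : ℝ) - 1) * ((m : ℝ) - 3) / (4 * m)

/-- `q' = (m+3)²/(4m) - c/m` -/
noncomputable def qq6 (m : ℕ) : ℝ :=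
  ((m : ℝ) + 3) ^ 2 / (4 * m) - ((m : ℝ) - 1) * ((m : ℝ) - 3) / (4 * m)

/-- `ℝ^m` -/
abbrev EE (m : ℕ) := EuclideanSpace ℝ (Fin m)

/-- the uniform distribution on the unit sphere of `ℝ^m` (normalised surface measure), as a
measure on `ℝ^m` -/
noncomputable def unif (m : ℕ) : Measure (EE m) :=
  Measure.map Subtype.val
    (((volume : Measure (EE m)).toSphere Set.univ)⁻¹ • (volume : Measure (EE m)).toSphere)

/-- Wallis integral `∫_0^π sin^(m-2)` -/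
noncomputable def Wal (m : ℕ) : ℝ := ∫ θ in (0 : ℝ)..π, Real.sin θ ^ (m - 2)

/-- the negative moment `E |∑ a_j X_j|^{-q}` -/
noncomputable def EN (m : ℕ) {n : ℕ} (q : ℝ) (a : Fin n → ℝ) : ℝ≥0∞ :=
  ∫⁻ x : Fin n → EE m, ‖∑ j, a j • x j‖ₑ ^ (-q) ∂(Measure.pi fun _ => unif m)

/-- the constant of the Fourier formula -/
noncomputable def kap (m : ℕ) (q : ℝ) : ℝ :=
  2 ^ (1 - q) * Real.Gamma (((m : ℝ) - q) / 2) / (Real.Gamma (q / 2) * Real.Gamma ((m : ℝ) / 2))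

/-- `E |(X_1+X_2)/√2|^{-q}` -/
noncomputable def C2 (m : ℕ) (q : ℝ) : ℝ :=
  2 ^ (-(q / 2)) * Real.Gamma (((m : ℝ) - 1 - q) / 2) * Real.Gamma ((m : ℝ) - 1) /
    (Real.Gamma ((m : ℝ) - 1 - q / 2) * Real.Gamma (((m : ℝ) - 1) / 2))

/-- `E |G/√m|^{-q}` -/
noncomputable def Cinf (m : ℕ) (q : ℝ) : ℝ :=
  ((m : ℝ) / 2) ^ (q / 2) * Real.Gamma (((m : ℝ) - q) / 2) / Real.Gamma ((m : ℝ) / 2)

/-- `kap` times `s^(q/2) ∫ |bj|^s t^(q-1)` -/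
noncomputable def KP (m : ℕ) (q s : ℝ) : ℝ :=
  kap m q * (s ^ (q / 2) * ∫ t in Ioi (0 : ℝ), |bj ((m : ℝ) / 2) t| ^ s * t ^ (q - 1))

/-- `E |e + r X|^{-q}` -/
noncomputable def hE (m : ℕ) (q r : ℝ) : ℝ≥0∞ :=
  ENNReal.ofReal (Wal m)⁻¹ * ∫⁻ θ in Ioo 0 π,
    ENNReal.ofReal ((1 + 2 * r * Real.cos θ + r ^ 2) ^ (-(q / 2)) * Real.sin θ ^ (m - 2))

/-- first coefficient of `1 - E|e+rX|^{-q}` -/
noncomputable def al (m : ℕ) (q : ℝ) : ℝ := q * ((m : ℝ) - 2 - q) / (2 * m)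

/-- second coefficient of `1 - E|e+rX|^{-q}` -/
noncomputable def al2 (m : ℕ) (q : ℝ) : ℝ :=
  q * ((m : ℝ) - 2 - q) * (q + 2) * (q + 4 - m) / (8 * m * (m + 2))

/-- regularised spherical mean `E (|e + r X|^2 + ε)^(-q/2)` -/
noncomputable def sm (m : ℕ) (ε q r : ℝ) : ℝ :=
  (Wal m)⁻¹ * ∫ θ in (0 : ℝ)..π,
    (1 + 2 * r * Real.cos θ + r ^ 2 + ε) ^ (-(q / 2)) * Real.sin θ ^ (m - 2)

/-- its derivative in `r` -/
noncomputable def smd (m : ℕ) (ε q r : ℝ) : ℝ :=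
  (Wal m)⁻¹ * ∫ θ in (0 : ℝ)..π,
    -(q * (Real.cos θ + r)) * (1 + 2 * r * Real.cos θ + r ^ 2 + ε) ^ (-(q / 2) - 1) *
      Real.sin θ ^ (m - 2)

/-- the standard Gaussian measure on `ℝ^m` -/
noncomputable def gau (m : ℕ) : Measure (EE m) :=
  (volume : Measure (EE m)).withDensity
    (fun x => ENNReal.ofReal ((2 * π) ^ (-((m : ℝ) / 2)) * exp (-(‖x‖ ^ 2 / 2))))

/-- `E |e + √u X|^{-2k}` for `m = 3` -/
noncomputable def H3 (k u : ℝ) : ℝ :=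
  ((1 + Real.sqrt u) ^ (2 - 2 * k) - |1 - Real.sqrt u| ^ (2 - 2 * k)) /
    (2 * (2 - 2 * k) * Real.sqrt u)

/-- the best constant `c_{p,m}`: infimum over `n` and `a ≠ 0` of `‖∑ a_j X_j‖_p / |a|` -/
noncomputable def khinC (m : ℕ) (p : ℝ) : ℝ≥0∞ :=
  ⨅ (n : ℕ) (a : Fin n → ℝ) (_ : a ≠ 0),
    (∫⁻ x : Fin n → EE m, ‖∑ j, a j • x j‖ₑ ^ p ∂(Measure.pi fun _ => unif m)) ^ (1 / p) /
      ENNReal.ofReal (Real.sqrt (∑ j, a j ^ 2))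

/-- logarithmic derivative of the Gamma function on the positive reals -/
noncomputable def psi (x : ℝ) : ℝ := deriv (fun y : ℝ => Real.log (Real.Gamma y)) x

/-- trigamma function -/
noncomputable def tri (x : ℝ) : ℝ := ∑' n : ℕ, 1 / (x + n) ^ 2

/-- `log (C2 / Cinf)` at `q = m - 1 - 2 y` -/
noncomputable def FF (m : ℕ) (y : ℝ) : ℝ :=
  Real.log (Real.Gamma y) - Real.log (Real.Gamma (y + 1 / 2)) -
    Real.log (Real.Gamma (y + ((m : ℝ) - 1) / 2)) + (y - ((m : ℝ) - 1) / 2) * Real.log m +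
    (Real.log (Real.Gamma ((m : ℝ) - 1)) + Real.log (Real.Gamma ((m : ℝ) / 2)) -
      Real.log (Real.Gamma (((m : ℝ) - 1) / 2)))

end H618KS
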