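import Pool.Agent.Helper618_KS.Defs
import Pool.Agent.Helper618_KS.Unif
import Pool.Agent.Helper618_KS.Fourier

/-!
Part `Gau` of the proof for MP_237b21_an.
-/

open MeasureTheory Filter Topology Set Real
open scoped ENNReal NNReal

set_option autoImplicit false

namespace H618KS

section

namespace gau_prob_aux
-- auxiliary lemmas here
end gau_prob_aux

theorem gau_prob (m : ℕ) : IsProbabilityMeasure (gau m) := by
  have h0 := gauss_cos (0 : EE m)
  simp only [inner_zero_left, Real.cos_zero, one_mul, norm_zero] at h0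
  norm_num at h0
  have hpos : (0 : ℝ) < (2 * π) ^ (-((m : ℝ) / 2)) := by positivity
  have hint : Integrable (fun y : EE m => exp (-(‖y‖ ^ 2 / 2))) := by
    by_contra hn
    rw [integral_undef hn] at h0
    simp at h0
  constructor
  unfold gau
  rw [withDensity_apply _ MeasurableSet.univ, Measure.restrict_univ,
    ← ofReal_integral_eq_lintegral_ofReal (hint.const_mul _)
      (Filter.Eventually.of_forall fun y => by positivity), integral_const_mul, ← h0,
    ENNReal.ofReal_one]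

end

section

namespace gau_sq_aux

theorem radial {m : ℕ} (hm : 1 ≤ m) :
    ∫ y : EE m, ‖y‖ ^ 2 * exp (-(‖y‖ ^ 2 / 2)) = (m : ℝ) * (2 * π) ^ ((m : ℝ) / 2) := by
  have h := radial_int hm (fun t => t ^ 2 * exp (-(t ^ 2 / 2)))
  rw [h]
  have hm0 : (0 : ℝ) < (m : ℝ) / 2 := by
    have : (1 : ℝ) ≤ m := by exact_mod_cast hm
    linarith
  have e : ∫ t in Ioi (0 : ℝ), t ^ 2 * exp (-(t ^ 2 / 2)) * t ^ (m - 1) =
      2 ^ ((m : ℝ) / 2) * ((m : ℝ) / 2 * Real.Gamma ((m : ℝ) / 2)) := by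
    have h2 := integral_rpow_mul_exp_neg_mul_rpow (p := 2) (q := (m : ℝ) + 1) (b := 1 / 2)
      (by norm_num) (by have : (0 : ℝ) ≤ m := m.cast_nonneg; linarith) (by norm_num)
    have e1 : ∫ t in Ioi (0 : ℝ), t ^ 2 * exp (-(t ^ 2 / 2)) * t ^ (m - 1) =
        ∫ t in Ioi (0 : ℝ), t ^ ((m : ℝ) + 1) * exp (-(1 / 2) * t ^ (2 : ℝ)) := by
      refine setIntegral_congr_fun measurableSet_Ioi fun t ht => ?_
      have ht0 : (0 : ℝ) < t := ht
      have e2 : t ^ ((m : ℝ) + 1) = t ^ 2 * t ^ (m - 1) := by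
        rw [← pow_add, ← Real.rpow_natCast]
        congr 1
        have : 2 + (m - 1) = m + 1 := by omega
        rw [this]
        push_cast
        ring
      rw [e2, Real.rpow_two, show -(t ^ 2 / 2) = -(1 / 2) * t ^ 2 by ring]
      ring
    rw [e1, h2, show ((m : ℝ) + 1 + 1) / 2 = (m : ℝ) / 2 + 1 by ring,
      Real.Gamma_add_one hm0.ne']
    have e3 : ((1 : ℝ) / 2) ^ (-((m : ℝ) + 1 + 1) / 2) = 2 * 2 ^ ((m : ℝ) / 2) := by
      rw [one_div, Real.inv_rpow (by norm_num), ← Real.rpow_neg (by norm_num),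
        show -(-((m : ℝ) + 1 + 1) / 2) = 1 + (m : ℝ) / 2 by ring,
        Real.rpow_add (by norm_num), Real.rpow_one]
    rw [e3]
    ring
  rw [e, Real.mul_rpow (by norm_num) pi_pos.le]
  have hG : Real.Gamma ((m : ℝ) / 2) ≠ 0 := (Real.Gamma_pos_of_pos hm0).ne'
  field_simp

end gau_sq_aux

theorem gau_sq {m : ℕ} (hm : 1 ≤ m) :
    ∫⁻ x, ENNReal.ofReal (‖x‖ ^ 2) ∂(gau m) = ENNReal.ofReal m := by
  have h := gau_sq_aux.radial hm
  have hmpos : (0 : ℝ) < m := by
    have : (1 : ℝ) ≤ m := by exact_mod_cast hm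
    linarith
  have hpi : (0 : ℝ) < (2 * π) ^ ((m : ℝ) / 2) := Real.rpow_pos_of_pos (by positivity) _
  have hint : Integrable (fun y : EE m => ‖y‖ ^ 2 * exp (-(‖y‖ ^ 2 / 2))) := by
    by_contra hcon
    rw [integral_undef hcon] at h
    have : (0 : ℝ) < (m : ℝ) * (2 * π) ^ ((m : ℝ) / 2) := by positivity
    linarith
  have hmeas : Measurable (fun x : EE m =>
      ENNReal.ofReal ((2 * π) ^ (-((m : ℝ) / 2)) * exp (-(‖x‖ ^ 2 / 2)))) := by
    fun_prop
  rw [gau, lintegral_withDensity_eq_lintegral_mul _ hmeas (by fun_prop)]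
  have e : (∫⁻ x : EE m, ((fun x : EE m =>
      ENNReal.ofReal ((2 * π) ^ (-((m : ℝ) / 2)) * exp (-(‖x‖ ^ 2 / 2)))) *
        (fun x : EE m => ENNReal.ofReal (‖x‖ ^ 2)) : EE m → ℝ≥0∞) x) =
      ∫⁻ x : EE m,
        ENNReal.ofReal ((2 * π) ^ (-((m : ℝ) / 2)) * (‖x‖ ^ 2 * exp (-(‖x‖ ^ 2 / 2)))) := by
    refine lintegral_congr fun x => ?_
    rw [Pi.mul_apply, ← ENNReal.ofReal_mul (by positivity)]
    congr 1
    ring
  rw [e]
  rw [← ofReal_integral_eq_lintegral_ofReal (hint.const_mul _)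
    (Filter.Eventually.of_forall fun x => by positivity), integral_const_mul, h]
  congr 1
  rw [Real.rpow_neg (by positivity)]
  field_simp

end

section

namespace gau_polar_aux

/-- the surface measure -/
noncomputable abbrev sg (m : ℕ) : Measure (Metric.sphere (0 : EE m) 1) :=
  (volume : Measure (EE m)).toSphere

lemma polar {m : ℕ} (hm : 1 ≤ m) (G : EE m → ℝ≥0∞) :
    ∫⁻ g, G g = ∫⁻ p : Metric.sphere (0 : EE m) 1 × Ioi (0 : ℝ), G (p.2.1 • (p.1 : EE m))
      ∂((sg m).prod (Measure.volumeIoiPow (m - 1))) := by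
  have : Nonempty (Fin m) := ⟨⟨0, hm⟩⟩
  have h1 := (volume : Measure (EE m)).measurePreserving_homeomorphUnitSphereProd
  rw [finrank_euclideanSpace_fin] at h1
  have h2 := h1.lintegral_comp_emb (Homeomorph.measurableEmbedding _)
    (fun p => G (p.2.1 • (p.1 : EE m)))
  rw [← h2]
  have h3 : ∀ a : ({0}ᶜ : Set (EE m)),
      ((homeomorphUnitSphereProd (EE m) a).2.1 • ((homeomorphUnitSphereProd (EE m) a).1 : EE m)) =
        (a : EE m) := by
    intro a
    have := homeomorphUnitSphereProd_symm_apply_coe (EE m) (homeomorphUnitSphereProd (EE m) a)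
    rw [Homeomorph.symm_apply_apply] at this
    exact this.symm
  simp_rw [h3]
  rw [lintegral_subtype_comap (measurableSet_singleton _).compl (fun x => G x),
    restrict_compl_singleton]

/-- the radial density -/
noncomputable def rho (m : ℕ) (r : ℝ) : ℝ≥0∞ :=
  ENNReal.ofReal ((2 * π) ^ (-((m : ℝ) / 2)) * exp (-(r ^ 2 / 2)))

lemma rho_meas (m : ℕ) : Measurable (rho m) := by
  unfold rho
  fun_prop

lemma gau_polar' {m : ℕ} (hm : 1 ≤ m) (G : EE m → ℝ≥0∞) (hG : Measurable G) :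
    ∫⁻ g, G g ∂(gau m) = ∫⁻ r : Ioi (0 : ℝ), rho m r.1 * ∫⁻ y, G (r.1 • (y : EE m)) ∂(sg m)
      ∂(Measure.volumeIoiPow (m - 1)) := by
  unfold gau
  rw [lintegral_withDensity_eq_lintegral_mul _ (by fun_prop) hG, polar hm]
  rw [lintegral_prod_symm _ ?_]
  · refine lintegral_congr fun r => ?_
    rw [← lintegral_const_mul _ (by fun_prop)]
    refine lintegral_congr fun y => ?_
    simp only [Pi.mul_apply]
    congr 1
    have h1 : ‖r.1 • (y : EE m)‖ = r.1 := by
      rw [norm_smul, norm_eq_of_mem_sphere, mul_one, Real.norm_of_nonneg r.2.out.le]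
    rw [h1]
    rfl
  · refine Measurable.aemeasurable ?_
    refine Measurable.mul ?_ ?_
    · fun_prop
    · fun_prop

end gau_polar_aux

theorem gau_polar {m : ℕ} (hm : 1 ≤ m) (F : EE m → ℝ≥0∞) (hF : Measurable F) :
    ∫⁻ g, F g ∂(gau m) = ∫⁻ g, ∫⁻ y, F (‖g‖ • y) ∂(unif m) ∂(gau m) := by
  have : Nonempty (Fin m) := ⟨⟨0, hm⟩⟩
  have hs0 : (volume : Measure (EE m)).toSphere Set.univ ≠ 0 := by
    rw [Measure.measure_univ_ne_zero]
    exact Measure.toSphere_ne_zero _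
  have hst : (volume : Measure (EE m)).toSphere Set.univ ≠ ⊤ := measure_ne_top _ _
  have hu : ∀ r : ℝ, ∫⁻ y, F (r • y) ∂(unif m) =
      ((volume : Measure (EE m)).toSphere Set.univ)⁻¹ * ∫⁻ y, F (r • (y : EE m)) ∂(gau_polar_aux.sg m) := by
    intro r
    unfold unif
    rw [lintegral_map (by fun_prop) measurable_subtype_coe, lintegral_smul_measure, smul_eq_mul]
  simp_rw [hu]
  have hmeas : Measurable fun r : ℝ => ∫⁻ y, F (r • (y : EE m)) ∂(gau_polar_aux.sg m) := by
    refine Measurable.lintegral_prod_right' (f := fun p : ℝ × Metric.sphere (0 : EE m) 1 =>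
      F (p.1 • (p.2 : EE m))) ?_
    fun_prop
  rw [gau_polar_aux.gau_polar' hm F hF, gau_polar_aux.gau_polar' hm _ (by
    exact (hmeas.comp measurable_norm).const_mul _)]
  refine lintegral_congr fun r => ?_
  congr 1
  have h1 : ∀ y : Metric.sphere (0 : EE m) 1, ‖r.1 • (y : EE m)‖ = r.1 := by
    intro y
    rw [norm_smul, norm_eq_of_mem_sphere, mul_one, Real.norm_of_nonneg r.2.out.le]
  simp_rw [h1]
  rw [lintegral_const, mul_comm, ← mul_assoc, ENNReal.mul_inv_cancel hs0 hst, one_mul]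

end

section

namespace gau_conv_aux

/-- the characteristic function of the standard Gaussian measure -/
theorem charFun_gau (m : ℕ) (t : EE m) :
    charFun (gau m) t = Complex.exp (((-(‖t‖ ^ 2 / 2) : ℝ) : ℂ)) := by
  have hmeas : Measurable (fun x : EE m =>
      ENNReal.ofReal ((2 * π) ^ (-((m : ℝ) / 2)) * exp (-(‖x‖ ^ 2 / 2)))) := by
    fun_prop
  rw [charFun_apply, gau, integral_withDensity_eq_integral_toReal_smul hmeas
    (Filter.Eventually.of_forall fun _ => ENNReal.ofReal_lt_top)]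
  have hc : (0 : ℝ) < (2 * π) ^ (-((m : ℝ) / 2)) := by positivity
  have h1 : ∀ x : EE m,
      (ENNReal.ofReal ((2 * π) ^ (-((m : ℝ) / 2)) * exp (-(‖x‖ ^ 2 / 2)))).toReal •
        Complex.exp (((inner ℝ x t : ℝ) : ℂ) * Complex.I) =
      (((2 * π) ^ (-((m : ℝ) / 2)) : ℝ) : ℂ) *
        Complex.exp (-((1 / 2 : ℂ)) * (‖x‖ : ℂ) ^ 2 + Complex.I * ((inner ℝ t x : ℝ) : ℂ)) := by
    intro x
    rw [ENNReal.toReal_ofReal (by positivity), Complex.real_smul, Complex.ofReal_mul, mul_assoc]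
    congr 1
    rw [Complex.ofReal_exp, ← Complex.exp_add, real_inner_comm]
    congr 1
    push_cast
    ring
  simp_rw [h1]
  rw [integral_const_mul, GaussianFourier.integral_cexp_neg_mul_sq_norm_add_of_euclideanSpace
    (by norm_num) Complex.I t]
  have h2 : (Complex.I : ℂ) ^ 2 * (‖t‖ : ℂ) ^ 2 / (4 * (1 / 2)) = ((-(‖t‖ ^ 2 / 2) : ℝ) : ℂ) := by
    rw [Complex.I_sq]
    push_cast
    ring
  rw [h2, ← mul_assoc]
  have h3 : (((2 * π) ^ (-((m : ℝ) / 2)) : ℝ) : ℂ) *
      ((π : ℂ) / (1 / 2)) ^ ((Fintype.card (Fin m) : ℂ) / 2) = 1 := by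
    have h4 : ((π : ℂ) / (1 / 2)) = ((2 * π : ℝ) : ℂ) := by
      push_cast
      ring
    have h5 : ((Fintype.card (Fin m) : ℂ) / 2) = (((m : ℝ) / 2 : ℝ) : ℂ) := by
      rw [Fintype.card_fin]
      push_cast
      ring
    rw [h4, h5, ← Complex.ofReal_cpow (by positivity), ← Complex.ofReal_mul,
      ← Real.rpow_add (by positivity)]
    simp
  rw [h3, one_mul]

/-- the two Gaussian images agree -/
theorem map_eq (m : ℕ) (b c : ℝ) :
    ((gau m).prod (gau m)).map (fun p : EE m × EE m => b • p.1 + c • p.2) =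
      (gau m).map (fun x => Real.sqrt (b ^ 2 + c ^ 2) • x) := by
  have := gau_prob m
  have h1 : IsProbabilityMeasure
      (((gau m).prod (gau m)).map (fun p : EE m × EE m => b • p.1 + c • p.2)) :=
    Measure.isProbabilityMeasure_map (by fun_prop)
  have h2 : IsProbabilityMeasure ((gau m).map (fun x => Real.sqrt (b ^ 2 + c ^ 2) • x)) :=
    Measure.isProbabilityMeasure_map (by fun_prop)
  apply Measure.ext_of_charFun
  funext t
  have hl : charFun (((gau m).prod (gau m)).map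
      (fun p : EE m × EE m => b • p.1 + c • p.2)) t =
      charFun (gau m) (b • t) * charFun (gau m) (c • t) := by
    simp only [charFun_apply]
    rw [integral_map (by fun_prop) (by fun_prop), ← integral_prod_mul]
    congr 1
    funext p
    rw [← Complex.exp_add]
    congr 1
    simp only [inner_add_left, real_inner_smul_left, real_inner_smul_right]
    push_cast
    ring
  rw [hl, charFun_map_smul, charFun_gau, charFun_gau, charFun_gau, ← Complex.exp_add]
  congr 1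
  rw [← Complex.ofReal_add]
  congr 1
  simp only [norm_smul, mul_pow, Real.norm_eq_abs, sq_abs]
  rw [Real.sq_sqrt (by positivity)]
  ring

end gau_conv_aux

theorem gau_conv {m : ℕ} (b c : ℝ) (F : EE m → ℝ≥0∞) (hF : Measurable F) :
    ∫⁻ x, ∫⁻ y, F (b • x + c • y) ∂(gau m) ∂(gau m) =
      ∫⁻ x, F (Real.sqrt (b ^ 2 + c ^ 2) • x) ∂(gau m) := by
  have := gau_prob m
  have h := gau_conv_aux.map_eq m b c
  have hm1 : Measurable (fun p : EE m × EE m => b • p.1 + c • p.2) := by fun_prop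
  have hm2 : Measurable (fun x : EE m => Real.sqrt (b ^ 2 + c ^ 2) • x) := by fun_prop
  rw [← lintegral_map (f := F) hF hm2, ← h, lintegral_map hF hm1]
  exact (lintegral_prod (fun p : EE m × EE m => F (b • p.1 + c • p.2))
    (hF.comp hm1).aemeasurable).symm

end

section

namespace gau_neg_aux

theorem int_ray {m : ℕ} (hm : 1 ≤ m) {q : ℝ} (hqm : q < m) :
    ∫ t in Ioi (0 : ℝ), (t ^ (-q) * exp (-(t ^ 2 / 2))) * t ^ (m - 1) =
      2 ^ (((m : ℝ) - q) / 2 - 1) * Real.Gamma (((m : ℝ) - q) / 2) := by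
  have h := integral_rpow_mul_exp_neg_mul_rpow (p := 2) (q := (m : ℝ) - 1 - q) (b := 1 / 2)
    (by norm_num) (by linarith) (by norm_num)
  have e1 : ((m : ℝ) - 1 - q + 1) / 2 = ((m : ℝ) - q) / 2 := by ring
  rw [e1] at h
  have e2 : ∫ t in Ioi (0 : ℝ), (t ^ (-q) * exp (-(t ^ 2 / 2))) * t ^ (m - 1) =
      ∫ x in Ioi (0 : ℝ), x ^ ((m : ℝ) - 1 - q) * exp (-(1 / 2) * x ^ (2 : ℝ)) := by
    refine setIntegral_congr_fun measurableSet_Ioi fun t ht => ?_
    have ht0 : (0 : ℝ) < t := ht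
    have e3 : t ^ ((m : ℝ) - 1 - q) = t ^ (m - 1) * t ^ (-q) := by
      rw [← Real.rpow_natCast t (m - 1), ← Real.rpow_add ht0]
      congr 1
      push_cast [Nat.cast_sub hm]
      ring
    have e4 : t ^ (2 : ℝ) = t ^ 2 := by
      rw [← Real.rpow_natCast]
      norm_num
    rw [e3, e4]
    have e5 : -(1 / 2) * t ^ 2 = -(t ^ 2 / 2) := by ring
    rw [e5]
    ring
  rw [e2, h]
  have e6 : ((1 : ℝ) / 2) ^ (-((m : ℝ) - 1 - q + 1) / 2) = 2 ^ (((m : ℝ) - q) / 2) := by
    rw [one_div, Real.inv_rpow (by norm_num), ← Real.rpow_neg (by norm_num)]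
    congr 1
    ring
  rw [e6, Real.rpow_sub_one (by norm_num)]
  ring

end gau_neg_aux

theorem gau_neg {m : ℕ} (hm : 1 ≤ m) {q : ℝ} (hq : 0 < q) (hqm : q < m) :
    ∫⁻ g, ‖(1 / Real.sqrt m) • g‖ₑ ^ (-q) ∂(gau m) = ENNReal.ofReal (Cinf m q) := by
  have hm0 : (0 : ℝ) < m := by exact_mod_cast hm
  have : Nonempty (Fin m) := ⟨⟨0, hm⟩⟩
  set F : ℝ → ℝ := fun t => (m : ℝ) ^ (q / 2) * (2 * π) ^ (-((m : ℝ) / 2)) *
    (t ^ (-q) * exp (-(t ^ 2 / 2))) with hF
  have hval : ∫ y : EE m, F ‖y‖ = Cinf m q := by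
    rw [radial_int hm F]
    have e1 : ∫ t in Ioi (0 : ℝ), F t * t ^ (m - 1) =
        (m : ℝ) ^ (q / 2) * (2 * π) ^ (-((m : ℝ) / 2)) *
          (2 ^ (((m : ℝ) - q) / 2 - 1) * Real.Gamma (((m : ℝ) - q) / 2)) := by
      rw [← gau_neg_aux.int_ray hm hqm, ← integral_const_mul]
      refine integral_congr_ae (Filter.Eventually.of_forall fun t => ?_)
      simp only [hF]
      ring
    rw [e1, Cinf, Real.mul_rpow (by norm_num) Real.pi_pos.le, Real.div_rpow hm0.le (by norm_num)]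
    have e2 : π ^ ((m : ℝ) / 2) * π ^ (-((m : ℝ) / 2)) = 1 := by
      rw [← Real.rpow_add Real.pi_pos]
      simp
    have e3 : (2 : ℝ) * ((2 : ℝ) ^ (-((m : ℝ) / 2)) * 2 ^ (((m : ℝ) - q) / 2 - 1)) =
        (2 ^ (q / 2))⁻¹ := by
      rw [← Real.rpow_add (by norm_num), ← Real.rpow_neg (by norm_num)]
      nth_rewrite 1 [← Real.rpow_one (2 : ℝ)]
      rw [← Real.rpow_add (by norm_num)]
      congr 1
      ring
    calc 2 * π ^ ((m : ℝ) / 2) / Real.Gamma ((m : ℝ) / 2) *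
        ((m : ℝ) ^ (q / 2) * ((2 : ℝ) ^ (-((m : ℝ) / 2)) * π ^ (-((m : ℝ) / 2))) *
          (2 ^ (((m : ℝ) - q) / 2 - 1) * Real.Gamma (((m : ℝ) - q) / 2)))
        = (π ^ ((m : ℝ) / 2) * π ^ (-((m : ℝ) / 2))) *
          ((2 : ℝ) * ((2 : ℝ) ^ (-((m : ℝ) / 2)) * 2 ^ (((m : ℝ) - q) / 2 - 1))) *
          ((m : ℝ) ^ (q / 2) * Real.Gamma (((m : ℝ) - q) / 2) / Real.Gamma ((m : ℝ) / 2)) := by
            ring
      _ = (m : ℝ) ^ (q / 2) / 2 ^ (q / 2) * Real.Gamma (((m : ℝ) - q) / 2) /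
          Real.Gamma ((m : ℝ) / 2) := by
            rw [e2, e3]
            ring
  have hC : 0 < Cinf m q := by
    unfold Cinf
    have h1 : 0 < Real.Gamma (((m : ℝ) - q) / 2) := Real.Gamma_pos_of_pos (by linarith)
    have h2 : 0 < Real.Gamma ((m : ℝ) / 2) := Real.Gamma_pos_of_pos (by linarith)
    positivity
  have hint : Integrable (fun y : EE m => F ‖y‖) :=
    Integrable.of_integral_ne_zero (by rw [hval]; exact hC.ne')
  have hFnn : ∀ t, 0 ≤ t → 0 ≤ F t := by
    intro t ht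
    simp only [hF]
    have h1 : 0 ≤ t ^ (-q) := Real.rpow_nonneg ht _
    positivity
  rw [← hval, ofReal_integral_eq_lintegral_ofReal hint
    (Filter.Eventually.of_forall fun y => hFnn _ (norm_nonneg y)), gau,
    lintegral_withDensity_eq_lintegral_mul]
  · have hz : ∀ᵐ y : EE m, y ≠ 0 := by
      rw [ae_iff]
      simp only [ne_eq, not_not, ofPred_eq_eq_singleton]
      exact measure_singleton _
    refine lintegral_congr_ae ?_
    filter_upwards [hz] with y hy
    have hy0 : 0 < ‖y‖ := norm_pos_iff.2 hy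
    have hs : 0 < Real.sqrt m := Real.sqrt_pos.2 hm0
    rw [Pi.mul_apply, ← ofReal_norm, norm_smul, Real.norm_of_nonneg (by positivity),
      ENNReal.ofReal_rpow_of_pos (by positivity), ← ENNReal.ofReal_mul (by positivity)]
    congr 1
    simp only [hF]
    have e1 : (1 / Real.sqrt m * ‖y‖) ^ (-q) = (m : ℝ) ^ (q / 2) * ‖y‖ ^ (-q) := by
      rw [Real.mul_rpow (by positivity) hy0.le]
      congr 1
      rw [one_div, Real.inv_rpow hs.le, ← Real.rpow_neg hs.le, neg_neg, Real.sqrt_eq_rpow,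
        ← Real.rpow_mul hm0.le]
      congr 1
      ring
    rw [e1]
    ring
  · exact (by fun_prop : Measurable (fun x : EE m => (2 * π) ^ (-((m : ℝ) / 2)) *
      exp (-(‖x‖ ^ 2 / 2)))).ennreal_ofReal
  · fun_prop

end

end H618KS
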