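import Pool.Agent.Helper618_KS.Defs
import Pool.Agent.Helper618_KS.Unif
import Pool.Agent.Helper618_KS.Smean
import Pool.Agent.Helper618_KS.Gau

/-!
Part `Jensen` of the proof for MP_237b21_an.
-/

open MeasureTheory Filter Topology Set Real
open scoped ENNReal NNReal

set_option autoImplicit false

namespace H618KS

section

namespace jensen_eps_aux

theorem integrable_sq {m : ℕ} (hm : 1 ≤ m) :
    Integrable (fun g : EE m => ‖g‖ ^ 2) (gau m) ∧ ∫ g, ‖g‖ ^ 2 ∂(gau m) = m := by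
  have hmeas : AEStronglyMeasurable (fun g : EE m => ‖g‖ ^ 2) (gau m) := by
    have : Continuous (fun g : EE m => ‖g‖ ^ 2) := by fun_prop
    exact this.aestronglyMeasurable
  have hnn : 0 ≤ᵐ[gau m] (fun g : EE m => ‖g‖ ^ 2) :=
    Filter.Eventually.of_forall fun g => by positivity
  constructor
  · refine ⟨hmeas, ?_⟩
    rw [hasFiniteIntegral_iff_ofReal hnn, gau_sq hm]
    exact ENNReal.ofReal_lt_top
  · rw [integral_eq_lintegral_of_nonneg_ae hnn hmeas, gau_sq hm, ENNReal.toReal_ofReal]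
    positivity

theorem ofReal_integral_le {α : Type*} [MeasurableSpace α] {μ : Measure α} {f : α → ℝ}
    (hf : Integrable f μ) : ENNReal.ofReal (∫ a, f a ∂μ) ≤ ∫⁻ a, ENNReal.ofReal (f a) ∂μ := by
  have hfin : ∫⁻ a, ENNReal.ofReal (f a) ∂μ ≠ ⊤ := by
    refine ne_of_lt (lt_of_le_of_lt ?_ hf.2)
    refine lintegral_mono fun a => ?_
    rw [← ofReal_norm]
    exact ENNReal.ofReal_le_ofReal (le_trans (le_abs_self _) (le_of_eq (Real.norm_eq_abs _).symm))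
  rw [integral_eq_lintegral_pos_part_sub_lintegral_neg_part hf]
  calc ENNReal.ofReal ((∫⁻ a, ENNReal.ofReal (f a) ∂μ).toReal
        - (∫⁻ a, ENNReal.ofReal (-f a) ∂μ).toReal)
      ≤ ENNReal.ofReal (∫⁻ a, ENNReal.ofReal (f a) ∂μ).toReal := by
        apply ENNReal.ofReal_le_ofReal
        have : 0 ≤ (∫⁻ a, ENNReal.ofReal (-f a) ∂μ).toReal := ENNReal.toReal_nonneg
        linarith
    _ = ∫⁻ a, ENNReal.ofReal (f a) ∂μ := ENNReal.ofReal_toReal hfin

theorem core {m : ℕ} (hm : 1 ≤ m) (G : ℝ → ℝ) (c b : ℝ)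
    (htan : ∀ u : ℝ, 0 ≤ u → G (b ^ 2) + c * (u - b ^ 2) ≤ G u) :
    ENNReal.ofReal (G (b ^ 2)) ≤
      ∫⁻ g, ENNReal.ofReal (G ((b / Real.sqrt m * ‖g‖) ^ 2)) ∂(gau m) := by
  have := gau_prob m
  obtain ⟨hint, hval⟩ := integrable_sq (m := m) hm
  have hm0 : (0 : ℝ) < m := by exact_mod_cast hm
  have hsq : ∀ r : ℝ, (b / Real.sqrt m * r) ^ 2 = b ^ 2 / m * r ^ 2 := by
    intro r
    rw [mul_pow, div_pow, Real.sq_sqrt hm0.le]
  set f : EE m → ℝ := fun g => G (b ^ 2) + c * (b ^ 2 / m * ‖g‖ ^ 2 - b ^ 2) with hf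
  have hfi : Integrable f (gau m) := by
    refine (integrable_const _).add (Integrable.const_mul ?_ _)
    exact (hint.const_mul _).sub (integrable_const _)
  have hfv : ∫ g, f g ∂(gau m) = G (b ^ 2) := by
    have h1 : ∫ g, f g ∂(gau m) = ∫ g, G (b ^ 2) ∂(gau m)
        + ∫ g, c * (b ^ 2 / m * ‖g‖ ^ 2 - b ^ 2) ∂(gau m) :=
      integral_add (integrable_const _)
        (Integrable.const_mul ((hint.const_mul _).sub (integrable_const _)) _)
    have h2 : ∫ g, (b ^ 2 / m * ‖g‖ ^ 2 - b ^ 2) ∂(gau m)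
        = ∫ g, b ^ 2 / m * ‖g‖ ^ 2 ∂(gau m) - ∫ g, b ^ 2 ∂(gau m) :=
      integral_sub (hint.const_mul _) (integrable_const _)
    rw [h1, integral_const_mul, h2, integral_const_mul, hval]
    simp only [integral_const, probReal_univ, smul_eq_mul, one_mul]
    field_simp
    ring
  calc ENNReal.ofReal (G (b ^ 2)) = ENNReal.ofReal (∫ g, f g ∂(gau m)) := by rw [hfv]
    _ ≤ ∫⁻ g, ENNReal.ofReal (f g) ∂(gau m) := ofReal_integral_le hfi
    _ ≤ ∫⁻ g, ENNReal.ofReal (G ((b / Real.sqrt m * ‖g‖) ^ 2)) ∂(gau m) := by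
        refine lintegral_mono fun g => ENNReal.ofReal_le_ofReal ?_
        rw [hsq]
        exact htan _ (by positivity)

theorem tangent_rpow {p v v0 : ℝ} (hp : 0 < p) (hv : 0 < v) (hv0 : 0 < v0) :
    v0 ^ (-p) + (-(p * v0 ^ (-p) / v0)) * (v - v0) ≤ v ^ (-p) := by
  have h1 : v ^ (-p) = v0 ^ (-p) * (v / v0) ^ (-p) := by
    rw [← Real.mul_rpow hv0.le (by positivity)]
    congr 1
    field_simp
  have hr : 0 < v / v0 := by positivity
  have h2 : 1 - p * (v / v0 - 1) ≤ (v / v0) ^ (-p) := by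
    rw [Real.rpow_def_of_pos hr]
    have h3 : Real.log (v / v0) ≤ v / v0 - 1 := Real.log_le_sub_one_of_pos hr
    have h4 := Real.add_one_le_exp (Real.log (v / v0) * -p)
    nlinarith
  have h5 : 0 < v0 ^ (-p) := Real.rpow_pos_of_pos hv0 _
  rw [h1]
  calc v0 ^ (-p) + (-(p * v0 ^ (-p) / v0)) * (v - v0)
      = v0 ^ (-p) * (1 - p * (v / v0 - 1)) := by field_simp; ring
    _ ≤ v0 ^ (-p) * (v / v0) ^ (-p) := mul_le_mul_of_nonneg_left h2 h5.le

/-- the spherical mean for `x ≠ 0` -/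
theorem sphere_mean {m : ℕ} (hm : 2 ≤ m) {q ε : ℝ} (hε : 0 < ε) {x : EE m} (hx : x ≠ 0)
    (t : ℝ) :
    ∫⁻ y, ENNReal.ofReal ((‖x + t • y‖ ^ 2 + ε) ^ (-(q / 2))) ∂(unif m) =
      ENNReal.ofReal ((‖x‖ ^ 2) ^ (-(q / 2)) *
        sm m (ε / ‖x‖ ^ 2) q (Real.sqrt (t ^ 2 / ‖x‖ ^ 2))) := by
  have hρ : 0 < ‖x‖ := norm_pos_iff.2 hx
  set ρ := ‖x‖ with hρd
  obtain ⟨σ, hσ1, hσ2⟩ : ∃ σ : ℝ, σ ^ 2 = 1 ∧ |t| = σ * t := by
    rcases le_total 0 t with h | h
    · exact ⟨1, by norm_num, by rw [abs_of_nonneg h]; ring⟩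
    · exact ⟨-1, by norm_num, by rw [abs_of_nonpos h]; ring⟩
  set e : EE m := (σ / ρ) • x with he
  have hen : ‖e‖ = 1 := by
    have h1 : ‖e‖ ^ 2 = 1 := by
      rw [he, norm_smul, mul_pow, Real.norm_eq_abs, sq_abs, div_pow, hσ1, ← hρd]
      field_simp
    have h2 : 0 ≤ ‖e‖ := norm_nonneg _
    nlinarith
  set r : ℝ := Real.sqrt (t ^ 2 / ρ ^ 2) with hr
  have hr1 : r = |t| / ρ := by
    rw [hr, ← div_pow, Real.sqrt_sq_eq_abs, abs_div, abs_of_pos hρ]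
  have hr0 : 0 ≤ r := Real.sqrt_nonneg _
  set C : ℝ := (ρ ^ 2) ^ (-(q / 2)) with hC
  have hC0 : 0 < C := Real.rpow_pos_of_pos (by positivity) _
  have hbase : ∀ s : ℝ, -1 ≤ s → 0 < 1 + 2 * r * s + r ^ 2 + ε / ρ ^ 2 := by
    intro s hs
    have h1 : 0 < ε / ρ ^ 2 := by positivity
    nlinarith [sq_nonneg (1 - r), mul_nonneg hr0 (by linarith : 0 ≤ s + 1)]
  set F : ℝ → ℝ≥0∞ := fun s =>
    ENNReal.ofReal (C * (1 + 2 * r * s + r ^ 2 + ε / ρ ^ 2) ^ (-(q / 2))) with hF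
  have hFm : Measurable F := by
    refine ENNReal.measurable_ofReal.comp ?_
    refine measurable_const.mul ?_
    refine Measurable.pow_const ?_ _
    fun_prop
  have h1 : ∫⁻ y, ENNReal.ofReal ((‖x + t • y‖ ^ 2 + ε) ^ (-(q / 2))) ∂(unif m)
      = ∫⁻ y, F (inner ℝ e y) ∂(unif m) := by
    refine lintegral_congr_ae ?_
    filter_upwards [unif_norm (m := m) (by omega)] with y hy
    show _ = ENNReal.ofReal (C * (1 + 2 * r * (inner ℝ e y) + r ^ 2 + ε / ρ ^ 2) ^ (-(q / 2)))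
    congr 1
    have h2 : ‖x + t • y‖ ^ 2 = ρ ^ 2 + 2 * (t * inner ℝ x y) + t ^ 2 := by
      rw [norm_add_sq_real, norm_smul, mul_pow, hy, real_inner_smul_right, Real.norm_eq_abs,
        sq_abs, ← hρd]
      ring
    have h3 : inner ℝ e y = σ / ρ * inner ℝ x y := by
      rw [he, real_inner_smul_left]
    have h4 : -1 ≤ inner ℝ e y := by
      have := abs_real_inner_le_norm e y
      rw [hen, hy, mul_one] at this
      exact (abs_le.1 this).1
    have h5 : ‖x + t • y‖ ^ 2 + ε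
        = ρ ^ 2 * (1 + 2 * r * (inner ℝ e y) + r ^ 2 + ε / ρ ^ 2) := by
      rw [h2, h3, hr1]
      have h6 : |t| * σ = t := by rw [hσ2]; linear_combination t * hσ1
      have h7 : (|t|) ^ 2 = t ^ 2 := sq_abs t
      field_simp
      rw [h7]
      linear_combination (2 * inner ℝ x y) * (-h6)
    rw [h5, Real.mul_rpow (by positivity) (hbase _ h4).le]
  rw [h1, unif_law hm e hen F hFm]
  -- the right-hand side
  have hcont : Continuous (fun θ : ℝ =>
      (1 + 2 * r * Real.cos θ + r ^ 2 + ε / ρ ^ 2) ^ (-(q / 2)) * Real.sin θ ^ (m - 2)) := by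
    refine Continuous.mul ?_ (by fun_prop)
    refine Continuous.rpow_const (by fun_prop) ?_
    intro θ
    left
    exact (hbase _ (Real.neg_one_le_cos θ)).ne'
  have h2 : ∫⁻ θ in Ioo 0 π, F (Real.cos θ) * ENNReal.ofReal (Real.sin θ ^ (m - 2))
      = ENNReal.ofReal (C * ∫ θ in (0 : ℝ)..π,
        (1 + 2 * r * Real.cos θ + r ^ 2 + ε / ρ ^ 2) ^ (-(q / 2)) * Real.sin θ ^ (m - 2)) := by
    rw [intervalIntegral.integral_of_le Real.pi_pos.le, integral_Ioc_eq_integral_Ioo,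
      ← integral_const_mul, ofReal_integral_eq_lintegral_ofReal]
    · refine setLIntegral_congr_fun measurableSet_Ioo ?_
      intro θ hθ
      show F (Real.cos θ) * ENNReal.ofReal (Real.sin θ ^ (m - 2)) = _
      rw [hF]
      show ENNReal.ofReal (C * (1 + 2 * r * Real.cos θ + r ^ 2 + ε / ρ ^ 2) ^ (-(q / 2))) * _ = _
      rw [← ENNReal.ofReal_mul]
      · congr 1
        ring
      · exact mul_nonneg hC0.le (Real.rpow_nonneg (hbase _ (Real.neg_one_le_cos θ)).le _)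
    · refine Integrable.const_mul ?_ _
      have h3 := hcont.continuousOn (s := Icc 0 π)
      exact (h3.integrableOn_compact isCompact_Icc).mono_set Ioo_subset_Icc_self
    · refine (ae_restrict_iff' measurableSet_Ioo).2 (Filter.Eventually.of_forall ?_)
      intro θ hθ
      have hs : 0 ≤ Real.sin θ := (Real.sin_pos_of_mem_Ioo hθ).le
      exact mul_nonneg hC0.le (mul_nonneg
        (Real.rpow_nonneg (hbase _ (Real.neg_one_le_cos θ)).le _) (pow_nonneg hs _))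
  rw [h2, ← ENNReal.ofReal_mul (inv_nonneg.2 (Wal_pos m).le)]
  congr 1
  unfold sm
  ring

/-- the spherical mean for `x = 0` -/
theorem sphere_mean_zero {m : ℕ} (hm : 1 ≤ m) {q ε : ℝ} (t : ℝ) :
    ∫⁻ y, ENNReal.ofReal ((‖(0 : EE m) + t • y‖ ^ 2 + ε) ^ (-(q / 2))) ∂(unif m) =
      ENNReal.ofReal ((t ^ 2 + ε) ^ (-(q / 2))) := by
  have := unif_prob hm
  have h1 : ∫⁻ y, ENNReal.ofReal ((‖(0 : EE m) + t • y‖ ^ 2 + ε) ^ (-(q / 2))) ∂(unif m)
      = ∫⁻ y, ENNReal.ofReal ((t ^ 2 + ε) ^ (-(q / 2))) ∂(unif m) := by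
    refine lintegral_congr_ae ?_
    filter_upwards [unif_norm hm] with y hy
    rw [zero_add, norm_smul, hy, mul_one, Real.norm_eq_abs, sq_abs]
  rw [h1]
  simp

/-- the general form -/
theorem general {m : ℕ} (hm : 1 ≤ m) {q ε : ℝ} (x : EE m) (G : ℝ → ℝ)
    (hG : ∀ t : ℝ, ∫⁻ y, ENNReal.ofReal ((‖x + t • y‖ ^ 2 + ε) ^ (-(q / 2))) ∂(unif m) =
      ENNReal.ofReal (G (t ^ 2))) (b : ℝ)
    (htan : b ≠ 0 → ∃ c : ℝ, ∀ u : ℝ, 0 ≤ u → G (b ^ 2) + c * (u - b ^ 2) ≤ G u) :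
    ∫⁻ y, ENNReal.ofReal ((‖x + b • y‖ ^ 2 + ε) ^ (-(q / 2))) ∂(unif m) ≤
      ∫⁻ g, ENNReal.ofReal ((‖x + (b / Real.sqrt m) • g‖ ^ 2 + ε) ^ (-(q / 2))) ∂(gau m) := by
  have := gau_prob m
  have hmeas : Measurable (fun g : EE m =>
      ENNReal.ofReal ((‖x + (b / Real.sqrt m) • g‖ ^ 2 + ε) ^ (-(q / 2)))) := by
    refine ENNReal.measurable_ofReal.comp ?_
    refine Measurable.pow_const ?_ _
    have : Continuous (fun g : EE m => ‖x + (b / Real.sqrt m) • g‖ ^ 2 + ε) := by fun_prop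
    exact this.measurable
  rw [gau_polar hm _ hmeas, hG b]
  have h1 : ∀ g : EE m, ∫⁻ y, ENNReal.ofReal
      ((‖x + (b / Real.sqrt m) • (‖g‖ • y)‖ ^ 2 + ε) ^ (-(q / 2))) ∂(unif m)
      = ENNReal.ofReal (G ((b / Real.sqrt m * ‖g‖) ^ 2)) := by
    intro g
    rw [← hG (b / Real.sqrt m * ‖g‖)]
    simp_rw [smul_smul]
  simp_rw [h1]
  by_cases hb : b = 0
  · subst hb
    simp
  · obtain ⟨c, hc⟩ := htan hb
    exact core hm G c b hc

end jensen_eps_aux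

theorem jensen_eps {m : ℕ} (hm : 5 ≤ m) {q : ℝ} (hq0 : 0 < q) (hq : q ≤ m - 4) {ε : ℝ}
    (hε : 0 < ε) (x : EE m) (b : ℝ) :
    ∫⁻ y, ENNReal.ofReal ((‖x + b • y‖ ^ 2 + ε) ^ (-(q / 2))) ∂(unif m) ≤
      ∫⁻ g, ENNReal.ofReal ((‖x + (b / Real.sqrt m) • g‖ ^ 2 + ε) ^ (-(q / 2))) ∂(gau m) := by
  by_cases hx : x = 0
  · subst hx
    refine jensen_eps_aux.general (by omega) 0 (fun u => (u + ε) ^ (-(q / 2)))
      (fun t => jensen_eps_aux.sphere_mean_zero (by omega) t) b ?_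
    intro hb
    refine ⟨-(q / 2 * (b ^ 2 + ε) ^ (-(q / 2)) / (b ^ 2 + ε)), fun u hu => ?_⟩
    have h1 := jensen_eps_aux.tangent_rpow (p := q / 2) (v := u + ε) (v0 := b ^ 2 + ε)
      (by positivity) (by positivity) (by positivity)
    have h2 : u + ε - (b ^ 2 + ε) = u - b ^ 2 := by ring
    rw [h2] at h1
    exact h1
  · have hρ : 0 < ‖x‖ := norm_pos_iff.2 hx
    refine jensen_eps_aux.general (by omega) x
      (fun u => (‖x‖ ^ 2) ^ (-(q / 2)) * sm m (ε / ‖x‖ ^ 2) q (Real.sqrt (u / ‖x‖ ^ 2)))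
      (fun t => jensen_eps_aux.sphere_mean (by omega) hε hx t) b ?_
    intro hb
    have hb2 : 0 < b ^ 2 := by positivity
    obtain ⟨c, hc⟩ := sm_tangent hm (ε := ε / ‖x‖ ^ 2) (q := q) (by positivity) hq0 hq
      (u0 := b ^ 2 / ‖x‖ ^ 2) (by positivity)
    refine ⟨(‖x‖ ^ 2) ^ (-(q / 2)) * c / ‖x‖ ^ 2, fun u hu => ?_⟩
    have h1 := hc (u / ‖x‖ ^ 2) (by positivity)
    have h2 : 0 < (‖x‖ ^ 2) ^ (-(q / 2)) := Real.rpow_pos_of_pos (by positivity) _
    have h3 := mul_le_mul_of_nonneg_left h1 h2.le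
    refine le_trans (le_of_eq ?_) h3
    field_simp

end

section

namespace jensen_step_aux

/-- the regularised function -/
noncomputable def Fn {m : ℕ} (q : ℝ) (n : ℕ) (z : EE m) : ℝ≥0∞ :=
  ENNReal.ofReal ((‖z‖ ^ 2 + 1 / ((n : ℝ) + 1)) ^ (-(q / 2)))

theorem eps_pos (n : ℕ) : 0 < 1 / ((n : ℝ) + 1) := by positivity

theorem Fn_eq {m : ℕ} (q : ℝ) (n : ℕ) (z : EE m) :
    Fn q n z = ENNReal.ofReal (‖z‖ ^ 2 + 1 / ((n : ℝ) + 1)) ^ (-(q / 2)) := by
  have := eps_pos n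
  unfold Fn
  rw [ENNReal.ofReal_rpow_of_pos (by positivity)]

theorem Fn_mono {m : ℕ} {q : ℝ} (hq0 : 0 < q) (z : EE m) : Monotone fun n => Fn q n z := by
  intro n n' h
  have h1 := eps_pos n
  have h2 := eps_pos n'
  unfold Fn
  refine ENNReal.ofReal_le_ofReal ?_
  refine Real.rpow_le_rpow_of_nonpos (by positivity) ?_ (by linarith)
  have : 1 / ((n' : ℝ) + 1) ≤ 1 / ((n : ℝ) + 1) :=
    one_div_le_one_div_of_le (by positivity) (by exact_mod_cast Nat.succ_le_succ h)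
  linarith

theorem lim_eq {m : ℕ} (q : ℝ) (z : EE m) :
    ENNReal.ofReal (‖z‖ ^ 2) ^ (-(q / 2)) = ‖z‖ₑ ^ (-q) := by
  rw [ENNReal.ofReal_pow (norm_nonneg z), ofReal_norm, ← ENNReal.rpow_natCast,
    ← ENNReal.rpow_mul]
  congr 1
  push_cast
  ring

theorem Fn_tendsto {m : ℕ} (q : ℝ) (z : EE m) :
    Tendsto (fun n => Fn q n z) atTop (𝓝 (‖z‖ₑ ^ (-q))) := by
  rw [← lim_eq]
  simp_rw [Fn_eq]
  have h1 : Tendsto (fun n : ℕ => ‖z‖ ^ 2 + 1 / ((n : ℝ) + 1)) atTop (𝓝 (‖z‖ ^ 2 + 0)) :=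
    tendsto_const_nhds.add tendsto_one_div_add_atTop_nhds_zero_nat
  rw [add_zero] at h1
  have h2 := (ENNReal.continuous_ofReal.tendsto _).comp h1
  exact ((ENNReal.continuous_rpow_const (y := -(q / 2))).tendsto _).comp h2

theorem Fn_iSup {m : ℕ} {q : ℝ} (hq0 : 0 < q) (z : EE m) :
    ⨆ n, Fn q n z = ‖z‖ₑ ^ (-q) :=
  tendsto_nhds_unique (tendsto_atTop_iSup (Fn_mono hq0 z)) (Fn_tendsto q z)

theorem Fn_meas {m : ℕ} (q : ℝ) (n : ℕ) (x : EE m) (b : ℝ) :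
    Measurable fun y : EE m => Fn q n (x + b • y) := by
  unfold Fn
  refine Measurable.ennreal_ofReal ?_
  refine Measurable.pow_const ?_ _
  have : Continuous fun y : EE m => ‖x + b • y‖ ^ 2 + 1 / ((n : ℝ) + 1) := by fun_prop
  exact this.measurable

end jensen_step_aux

theorem jensen_step {m : ℕ} (hm : 5 ≤ m) {q : ℝ} (hq0 : 0 < q) (hq : q ≤ m - 4) (x : EE m)
    (b : ℝ) :
    ∫⁻ y, ‖x + b • y‖ₑ ^ (-q) ∂(unif m) ≤
      ∫⁻ g, ‖x + (b / Real.sqrt m) • g‖ₑ ^ (-q) ∂(gau m) := by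
  simp_rw [← jensen_step_aux.Fn_iSup hq0 (x + b • _)]
  rw [lintegral_iSup (fun n => jensen_step_aux.Fn_meas q n x b)
    (fun n n' h y => jensen_step_aux.Fn_mono hq0 (x + b • y) h)]
  refine iSup_le fun n => ?_
  refine (jensen_eps hm hq0 hq (jensen_step_aux.eps_pos n) x b).trans ?_
  refine lintegral_mono fun g => ?_
  rw [← jensen_step_aux.Fn_iSup hq0]
  exact le_iSup (fun n => jensen_step_aux.Fn q n (x + (b / Real.sqrt m) • g)) n

end

section

namespace EN_jensen_aux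

theorem claim {m : ℕ} (hm : 5 ≤ m) {q : ℝ} (hq0 : 0 < q) (hq : q ≤ m - 4) :
    ∀ (n : ℕ) (a : Fin n → ℝ) (x : EE m),
      ∫⁻ z : Fin n → EE m, ‖x + ∑ j, a j • z j‖ₑ ^ (-q) ∂(Measure.pi fun _ => unif m) ≤
        ∫⁻ g, ‖x + (Real.sqrt (∑ j, a j ^ 2) / Real.sqrt m) • g‖ₑ ^ (-q) ∂(gau m) := by
  haveI := unif_prob (m := m) (by omega)
  haveI := gau_prob m
  have hm0 : (0 : ℝ) < m := by
    have : 0 < m := by omega
    exact_mod_cast this
  intro n
  induction n with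
  | zero =>
    intro a x
    simp
  | succ n ih =>
    intro a x
    obtain ⟨s, hs⟩ : ∃ s, s = Real.sqrt (∑ j : Fin n, a j.succ ^ 2) := ⟨_, rfl⟩
    have h1 := (measurePreserving_piFinSuccAbove (fun _ : Fin (n + 1) => unif m) 0).symm
    have h2 : ∫⁻ z : Fin (n + 1) → EE m, ‖x + ∑ j, a j • z j‖ₑ ^ (-q)
          ∂(Measure.pi fun _ => unif m) =
        ∫⁻ z0, ∫⁻ z' : Fin n → EE m, ‖(x + a 0 • z0) + ∑ j : Fin n, a j.succ • z' j‖ₑ ^ (-q)
          ∂(Measure.pi fun _ => unif m) ∂(unif m) := by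
      rw [← h1.lintegral_comp (by fun_prop)]
      rw [lintegral_prod]
      · refine lintegral_congr fun z0 => lintegral_congr fun z' => ?_
        rw [Fin.sum_univ_succ, ← add_assoc]
        rfl
      · refine Measurable.aemeasurable ?_
        refine Measurable.comp (g := fun z : Fin (n + 1) → EE m => ‖x + ∑ j, a j • z j‖ₑ ^ (-q))
          (by fun_prop) (MeasurableEquiv.measurable _)
    rw [h2]
    calc ∫⁻ z0, ∫⁻ z' : Fin n → EE m, ‖(x + a 0 • z0) + ∑ j : Fin n, a j.succ • z' j‖ₑ ^ (-q)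
          ∂(Measure.pi fun _ => unif m) ∂(unif m)
        ≤ ∫⁻ z0, ∫⁻ g, ‖(x + a 0 • z0) + (s / Real.sqrt m) • g‖ₑ ^ (-q) ∂(gau m) ∂(unif m) := by
          refine lintegral_mono fun z0 => ?_
          rw [hs]
          exact ih (fun j => a j.succ) _
      _ = ∫⁻ g, ∫⁻ z0, ‖(x + a 0 • z0) + (s / Real.sqrt m) • g‖ₑ ^ (-q) ∂(unif m) ∂(gau m) := by
          refine lintegral_lintegral_swap ?_
          refine Measurable.aemeasurable ?_
          unfold Function.uncurry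
          fun_prop
      _ = ∫⁻ g, ∫⁻ z0, ‖(x + (s / Real.sqrt m) • g) + a 0 • z0‖ₑ ^ (-q) ∂(unif m) ∂(gau m) := by
          refine lintegral_congr fun g => lintegral_congr fun z0 => ?_
          congr 2
          abel
      _ ≤ ∫⁻ g, ∫⁻ g', ‖(x + (s / Real.sqrt m) • g) + (a 0 / Real.sqrt m) • g'‖ₑ ^ (-q) ∂(gau m)
            ∂(gau m) := lintegral_mono fun g => jensen_step hm hq0 hq _ _
      _ = ∫⁻ g, ‖x + Real.sqrt ((s / Real.sqrt m) ^ 2 + (a 0 / Real.sqrt m) ^ 2) • g‖ₑ ^ (-q)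
            ∂(gau m) := by
          rw [← gau_conv (s / Real.sqrt m) (a 0 / Real.sqrt m) (fun v => ‖x + v‖ₑ ^ (-q))
            (by fun_prop)]
          refine lintegral_congr fun g => lintegral_congr fun g' => ?_
          rw [add_assoc]
      _ = _ := by
          have e1 : Real.sqrt ((s / Real.sqrt m) ^ 2 + (a 0 / Real.sqrt m) ^ 2) =
              Real.sqrt (∑ j, a j ^ 2) / Real.sqrt m := by
            rw [← Real.sqrt_div' _ hm0.le]
            congr 1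
            rw [div_pow, div_pow, Real.sq_sqrt hm0.le, hs, Real.sq_sqrt
              (Finset.sum_nonneg fun j _ => sq_nonneg _), Fin.sum_univ_succ]
            ring
          rw [e1]

end EN_jensen_aux

theorem EN_jensen {m n : ℕ} (hm : 5 ≤ m) {q : ℝ} (hq0 : 0 < q) (hq : q ≤ m - 4)
    (a : Fin n → ℝ) (ha : ∑ j, a j ^ 2 = 1) :
    EN m q a ≤ ENNReal.ofReal (Cinf m q) := by
  have h1 := EN_jensen_aux.claim hm hq0 hq n a 0
  have hm1 : (1 : ℝ) ≤ m := by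
    have : 1 ≤ m := by omega
    exact_mod_cast this
  rw [ha, Real.sqrt_one] at h1
  simp only [zero_add] at h1
  exact h1.trans_eq (gau_neg (by omega) hq0 (by linarith))

end

end H618KS
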