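import Pool.Agent.Helper618_KS.Defs

/-!
Part `Maj` of the proof for MP_237b21_an.
-/

open MeasureTheory Filter Topology Set Real
open scoped ENNReal NNReal

set_option autoImplicit false

namespace H618KS

section

namespace maj_678_aux

theorem key {k α u A β : ℝ} (hk : 1 ≤ k) (hu : 1 ≤ u) (hα : α ≤ A) (hA : A ≤ 1 / 2)
    (hP : 0 ≤ β * u ^ 4 - A * u ^ 3 + u ^ 2 - u + A) :
    u ^ (-k) * (1 - α / u) ≤ 1 - α * u + β * u ^ 2 := by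
  have hu0 : 0 < u := by linarith
  have h1 : u ^ (-k) ≤ 1 / u := by
    have h2 : u ^ (-k) ≤ u ^ (-1 : ℝ) := Real.rpow_le_rpow_of_exponent_le hu (by linarith)
    rwa [Real.rpow_neg_one, ← one_div] at h2
  have h3 : 0 ≤ 1 - α / u := by
    rw [sub_nonneg, div_le_one hu0]
    linarith
  have h4 : u ^ (-k) * (1 - α / u) ≤ 1 / u * (1 - α / u) := mul_le_mul_of_nonneg_right h1 h3
  refine h4.trans ?_
  have h5 : 1 / u * (1 - α / u) = (u - α) / u ^ 2 := by field_simp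
  rw [h5, div_le_iff₀ (by positivity)]
  have h6 : 0 ≤ (A - α) * (u ^ 3 - 1) := by
    refine mul_nonneg (by linarith) ?_
    have := one_le_pow₀ (n := 3) hu
    linarith
  nlinarith

theorem p1 {u : ℝ} : 0 ≤ (9 / 256 : ℝ) * u ^ 4 - 1 / 3 * u ^ 3 + u ^ 2 - u + 1 / 3 := by
  have h1 : (9 / 256 : ℝ) * u ^ 4 - 1 / 3 * u ^ 3 + u ^ 2 - u + 1 / 3 =
      1 / 768 * ((u - 4) ^ 2 * (27 * u ^ 2 - 40 * u + 16)) := by ring
  rw [h1]
  have h2 : 0 ≤ 27 * u ^ 2 - 40 * u + 16 := by nlinarith [sq_nonneg (27 * u - 20)]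
  positivity

theorem p2 {u : ℝ} : 0 ≤ (0.065 : ℝ) * u ^ 4 - 3 / 7 * u ^ 3 + u ^ 2 - u + 3 / 7 := by
  nlinarith [sq_nonneg (u ^ 2 - 300 / 91 * u + 2), sq_nonneg (u - 2.1), sq_nonneg (u - 2.13)]

theorem p3 {u : ℝ} : 0 ≤ (0.094 : ℝ) * u ^ 4 - 1 / 2 * u ^ 3 + u ^ 2 - u + 1 / 2 := by
  nlinarith [sq_nonneg (u ^ 2 - 125 / 47 * u + 1.35), sq_nonneg (u - 2)]

end maj_678_aux

theorem maj_678 {k α u : ℝ} (hk : 1 ≤ k) (hα : 0 ≤ α) (hu : 1 ≤ u) :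
    (α ≤ 1 / 3 → u ^ (-k) * (1 - α / u) ≤ 1 - α * u + 9 / 256 * u ^ 2) ∧
    (α ≤ 3 / 7 → u ^ (-k) * (1 - α / u) ≤ 1 - α * u + 0.065 * u ^ 2) ∧
    (α ≤ 1 / 2 → u ^ (-k) * (1 - α / u) ≤ 1 - α * u + 0.094 * u ^ 2) :=
  ⟨fun h => maj_678_aux.key hk hu h (by norm_num) maj_678_aux.p1,
    fun h => maj_678_aux.key hk hu h (by norm_num) maj_678_aux.p2,
    fun h => maj_678_aux.key hk hu h (by norm_num) maj_678_aux.p3⟩

end

section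

namespace maj_5a_aux

theorem g_pos (w : ℝ) (hw : 0 ≤ w) :
    0 ≤ 1 / 100 - 35 / 1000 * w + 11 / 100 * w ^ 2 - 41 / 100 * w ^ 3 + 135 / 1000 * w ^ 4 +
      1035 / 1000 * w ^ 5 + 84 / 100 * w ^ 6 := by
  rcases le_total w (7 / 20) with h | h
  · have ht : 0 ≤ 7 / 20 - w := by linarith
    have key : (1 / 100 - 35 / 1000 * w + 11 / 100 * w ^ 2 - 41 / 100 * w ^ 3 + 135 / 1000 * w ^ 4 +
      1035 / 1000 * w ^ 5 + 84 / 100 * w ^ 6) * (7 / 20) ^ 6 =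
      1 / 100 * (7 / 20 - w) ^ 6 + 191 / 4000 * w * (7 / 20 - w) ^ 5 +
      4089 / 40000 * w ^ 2 * (7 / 20 - w) ^ 4 + 91057 / 800000 * w ^ 3 * (7 / 20 - w) ^ 3 +
      1844467 / 32000000 * w ^ 4 * (7 / 20 - w) ^ 2 + 6016929 / 640000000 * w ^ 5 * (7 / 20 - w) +
      8487203 / 3200000000 * w ^ 6 := by ring
    have h2 : 0 ≤ (1 / 100 - 35 / 1000 * w + 11 / 100 * w ^ 2 - 41 / 100 * w ^ 3 +
      135 / 1000 * w ^ 4 + 1035 / 1000 * w ^ 5 + 84 / 100 * w ^ 6) * (7 / 20) ^ 6 := by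
      rw [key]
      positivity
    exact nonneg_of_mul_nonneg_left h2 (by norm_num)
  · have ht : 0 ≤ w - 7 / 20 := by linarith
    have key : 1 / 100 - 35 / 1000 * w + 11 / 100 * w ^ 2 - 41 / 100 * w ^ 3 + 135 / 1000 * w ^ 4 +
      1035 / 1000 * w ^ 5 + 84 / 100 * w ^ 6 =
      8487203 / 3200000000 + 2976939 / 160000000 * (w - 7 / 20) + 10289 / 25000 * (w - 7 / 20) ^ 2 +
      70687 / 40000 * (w - 7 / 20) ^ 3 + 13959 / 4000 * (w - 7 / 20) ^ 4 +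
      2799 / 1000 * (w - 7 / 20) ^ 5 + 21 / 25 * (w - 7 / 20) ^ 6 := by ring
    rw [key]
    positivity

theorem v_pos (α v : ℝ) (hα1 : α ≤ 9 / 40) (hv : 1 ≤ v) :
    0 ≤ v ^ 3 - v ^ 2 - α * (v ^ 5 - 1) + 0.01 * v ^ 9 := by
  have h1 : (0 : ℝ) ≤ v ^ 5 - 1 := by
    have := one_le_pow₀ hv (n := 5)
    linarith
  have h2 : α * (v ^ 5 - 1) ≤ 9 / 40 * (v ^ 5 - 1) := mul_le_mul_of_nonneg_right hα1 h1
  have hw : 0 ≤ v - 1 := by linarith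
  have h3 := g_pos (v - 1) hw
  have h4 : v ^ 3 - v ^ 2 - 9 / 40 * (v ^ 5 - 1) + 0.01 * v ^ 9 =
      (1 / 100 - 35 / 1000 * (v - 1) + 11 / 100 * (v - 1) ^ 2 - 41 / 100 * (v - 1) ^ 3 +
        135 / 1000 * (v - 1) ^ 4 + 1035 / 1000 * (v - 1) ^ 5 + 84 / 100 * (v - 1) ^ 6) +
      (36 / 100 * (v - 1) ^ 7 + 9 / 100 * (v - 1) ^ 8 + 1 / 100 * (v - 1) ^ 9) := by ring
  have h5 : 0 ≤ 36 / 100 * (v - 1) ^ 7 + 9 / 100 * (v - 1) ^ 8 + 1 / 100 * (v - 1) ^ 9 := by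
    positivity
  linarith

end maj_5a_aux

theorem maj_5a {k α u : ℝ} (hk : 1 / 2 ≤ k) (hα : 0 ≤ α) (hα1 : α ≤ 9 / 40) (hu : 1 ≤ u) :
    u ^ (-k) * (1 - α / u) ≤ 1 - α * u + 0.01 * u ^ 3 := by
  have hu0 : 0 < u := by linarith
  have h1 : u ^ (-k) ≤ u ^ (-(1 / 2) : ℝ) := rpow_le_rpow_of_exponent_le hu (by linarith)
  have h2 : 0 ≤ 1 - α / u := by
    have : α / u ≤ 1 := by
      rw [div_le_one hu0]
      linarith
    linarith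
  refine (mul_le_mul_of_nonneg_right h1 h2).trans ?_
  obtain ⟨v, hv, rfl⟩ : ∃ v : ℝ, 1 ≤ v ∧ u = v ^ 2 :=
    ⟨√u, by rw [Real.one_le_sqrt]; exact hu, (Real.sq_sqrt hu0.le).symm⟩
  have hv0 : 0 < v := by linarith
  have h3 : ((v ^ 2 : ℝ)) ^ (-(1 / 2) : ℝ) = v⁻¹ := by
    rw [← rpow_natCast v 2, ← rpow_mul hv0.le]
    norm_num
    exact rpow_neg_one v
  rw [h3]
  have h4 := maj_5a_aux.v_pos α v hα1 hv
  have h5 : 1 - α * v ^ 2 + 0.01 * (v ^ 2) ^ 3 - v⁻¹ * (1 - α / v ^ 2) =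
      (v ^ 3 - v ^ 2 - α * (v ^ 5 - 1) + 0.01 * v ^ 9) / v ^ 3 := by
    field_simp
    ring
  have h6 : 0 ≤ (v ^ 3 - v ^ 2 - α * (v ^ 5 - 1) + 0.01 * v ^ 9) / v ^ 3 :=
    div_nonneg h4 (by positivity)
  linarith

end

section

namespace maj_5b_aux

theorem pos1 (x y : ℝ) (hx : 0 ≤ x) (hy : 0 ≤ y) : 0 ≤
    705718994140625 * (x ^ 0 * y ^ 19) + 58826446533203125 * (x ^ 1 * y ^ 18) + 
      1037615203857421875 * (x ^ 2 * y ^ 17) + 9291851654052734375 * (x ^ 3 * y ^ 16) + 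
      52694464477539062500 * (x ^ 4 * y ^ 15) + 209092300122070312500 * (x ^ 5 * y ^ 14) + 
      613166285053710937500 * (x ^ 6 * y ^ 13) + 1372877588698242187500 * (x ^ 7 * y ^ 12) + 
      2393279822252636718750 * (x ^ 8 * y ^ 11) + 3283273291899433593750 * (x ^ 9 * y ^ 10) + 
      3557821553876003906250 * (x ^ 10 * y ^ 9) + 3037079685135063281250 * (x ^ 11 * y ^ 8) + 
      2022891529061527812500 * (x ^ 12 * y ^ 7) + 1032448525657356062500 * (x ^ 13 * y ^ 6) + 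
      391720762888319887500 * (x ^ 14 * y ^ 5) + 105086935739184697500 * (x ^ 15 * y ^ 4) + 
      18288330304613081625 * (x ^ 16 * y ^ 3) + 1764614994653029725 * (x ^ 17 * y ^ 2) + 
      77217119311478235 * (x ^ 18 * y ^ 1) + 4665609944743791 * (x ^ 19 * y ^ 0)  := by
  positivity

theorem pos2 (x : ℝ) (hx : 0 ≤ x) : 0 ≤
    4665609944743791 * x ^ 0 + 5714734819326897 * x ^ 1 + 293131536899402439 * x ^ 2 + 
      552110173286123403 * x ^ 3 + 471001557865508016 * x ^ 4 + 246536261071824864 * x ^ 5 + 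
      90560395096858288 * x ^ 6 + 25111144458095056 * x ^ 7 + 5479919766690012 * x ^ 8 + 
      963127794084764 * x ^ 9 + 137860387994252 * x ^ 10 + 16120583093484 * x ^ 11 + 
      1535377333308 * x ^ 12 + 118105948716 * x ^ 13 + 7230976452 * x ^ 14 + 344332212 * x ^ 
      15 + 12297579 * x ^ 16 + 310023 * x ^ 17 + 4921 * x ^ 18 + 37 * x ^ 19  := by
  positivity

theorem eq1 (v : ℝ) : 10 ^ 19 * (10000 * v ^ 7 - 10000 * v ^ 4 - 2250 * v ^ 11 + 2250 + 37 * v ^ 19) =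
    705718994140625 * ((5 * v - 5) ^ 0 * (7 - 5 * v) ^ 19) + 58826446533203125 * ((5 * v - 5) 
      ^ 1 * (7 - 5 * v) ^ 18) + 1037615203857421875 * ((5 * v - 5) ^ 2 * (7 - 5 * v) ^ 17) + 
      9291851654052734375 * ((5 * v - 5) ^ 3 * (7 - 5 * v) ^ 16) + 52694464477539062500 * ((5 
      * v - 5) ^ 4 * (7 - 5 * v) ^ 15) + 209092300122070312500 * ((5 * v - 5) ^ 5 * (7 - 5 * 
      v) ^ 14) + 613166285053710937500 * ((5 * v - 5) ^ 6 * (7 - 5 * v) ^ 13) + 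
      1372877588698242187500 * ((5 * v - 5) ^ 7 * (7 - 5 * v) ^ 12) + 2393279822252636718750 * 
      ((5 * v - 5) ^ 8 * (7 - 5 * v) ^ 11) + 3283273291899433593750 * ((5 * v - 5) ^ 9 * (7 - 
      5 * v) ^ 10) + 3557821553876003906250 * ((5 * v - 5) ^ 10 * (7 - 5 * v) ^ 9) + 
      3037079685135063281250 * ((5 * v - 5) ^ 11 * (7 - 5 * v) ^ 8) + 2022891529061527812500 * 
      ((5 * v - 5) ^ 12 * (7 - 5 * v) ^ 7) + 1032448525657356062500 * ((5 * v - 5) ^ 13 * (7 - 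
      5 * v) ^ 6) + 391720762888319887500 * ((5 * v - 5) ^ 14 * (7 - 5 * v) ^ 5) + 
      105086935739184697500 * ((5 * v - 5) ^ 15 * (7 - 5 * v) ^ 4) + 18288330304613081625 * 
      ((5 * v - 5) ^ 16 * (7 - 5 * v) ^ 3) + 1764614994653029725 * ((5 * v - 5) ^ 17 * (7 - 5 
      * v) ^ 2) + 77217119311478235 * ((5 * v - 5) ^ 18 * (7 - 5 * v) ^ 1) + 4665609944743791 
      * ((5 * v - 5) ^ 19 * (7 - 5 * v) ^ 0)  := by
  ring

theorem eq2 (v : ℝ) : 5 ^ 19 * (10000 * v ^ 7 - 10000 * v ^ 4 - 2250 * v ^ 11 + 2250 + 37 * v ^ 19) =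
    4665609944743791 * (5 * v - 7) ^ 0 + 5714734819326897 * (5 * v - 7) ^ 1 + 
      293131536899402439 * (5 * v - 7) ^ 2 + 552110173286123403 * (5 * v - 7) ^ 3 + 
      471001557865508016 * (5 * v - 7) ^ 4 + 246536261071824864 * (5 * v - 7) ^ 5 + 
      90560395096858288 * (5 * v - 7) ^ 6 + 25111144458095056 * (5 * v - 7) ^ 7 + 
      5479919766690012 * (5 * v - 7) ^ 8 + 963127794084764 * (5 * v - 7) ^ 9 + 137860387994252 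
      * (5 * v - 7) ^ 10 + 16120583093484 * (5 * v - 7) ^ 11 + 1535377333308 * (5 * v - 7) ^ 
      12 + 118105948716 * (5 * v - 7) ^ 13 + 7230976452 * (5 * v - 7) ^ 14 + 344332212 * (5 * 
      v - 7) ^ 15 + 12297579 * (5 * v - 7) ^ 16 + 310023 * (5 * v - 7) ^ 17 + 4921 * (5 * v - 
      7) ^ 18 + 37 * (5 * v - 7) ^ 19  := by
  ring

theorem poly (v : ℝ) (hv : 1 ≤ v) :
    0 ≤ 10000 * v ^ 7 - 10000 * v ^ 4 - 2250 * v ^ 11 + 2250 + 37 * v ^ 19 := by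
  rcases le_total v (7 / 5) with h | h
  · have h1 := pos1 (5 * v - 5) (7 - 5 * v) (by linarith) (by linarith)
    rw [← eq1] at h1
    exact nonneg_of_mul_nonneg_right h1 (by norm_num)
  · have h1 := pos2 (5 * v - 7) (by linarith)
    rw [← eq2] at h1
    exact nonneg_of_mul_nonneg_right h1 (by norm_num)

end maj_5b_aux

theorem maj_5b {k α u : ℝ} (hk : 3 / 4 ≤ k) (hα : 0 ≤ α) (hα1 : α ≤ 9 / 40) (hu : 1 ≤ u) :
    u ^ (-k) * (1 - α / u) ≤ 1 - α * u + 0.0037 * u ^ 3 := by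
  have hu0 : 0 < u := by linarith
  obtain ⟨v, hv, rfl⟩ : ∃ v : ℝ, 1 ≤ v ∧ u = v ^ 4 := by
    refine ⟨u ^ (1 / 4 : ℝ), Real.one_le_rpow hu (by norm_num), ?_⟩
    rw [← Real.rpow_natCast, ← Real.rpow_mul hu0.le]
    norm_num
  have hv0 : 0 < v := by linarith
  have h1 : (v ^ 4) ^ (-k) ≤ (v ^ 3)⁻¹ := by
    have h2 : (v ^ 4) ^ (-k) ≤ (v ^ 4) ^ (-(3 / 4) : ℝ) :=
      Real.rpow_le_rpow_of_exponent_le hu (by linarith)
    have h3 : (v ^ 4) ^ (-(3 / 4) : ℝ) = (v ^ 3)⁻¹ := by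
      rw [← Real.rpow_natCast v 4, ← Real.rpow_mul hv0.le, ← Real.rpow_natCast v 3,
        ← Real.rpow_neg hv0.le]
      norm_num
    rw [h3] at h2
    exact h2
  have h4 : 0 ≤ 1 - α / v ^ 4 := by
    rw [sub_nonneg, div_le_one hu0]
    linarith
  refine (mul_le_mul_of_nonneg_right h1 h4).trans ?_
  have h5 : (v ^ 3)⁻¹ * (1 - α / v ^ 4) = (v ^ 4 - α) / v ^ 7 := by
    field_simp
  rw [h5, div_le_iff₀ (by positivity)]
  have h6 := maj_5b_aux.poly v hv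
  have h7 : 1 ≤ v ^ 11 := one_le_pow₀ hv
  have h8 : α * (v ^ 11 - 1) ≤ 9 / 40 * (v ^ 11 - 1) :=
    mul_le_mul_of_nonneg_right hα1 (by linarith)
  have h9 : (1 - α * v ^ 4 + 0.0037 * (v ^ 4) ^ 3) * v ^ 7 - (v ^ 4 - α) =
      (10000 * v ^ 7 - 10000 * v ^ 4 - 2250 * v ^ 11 + 2250 + 37 * v ^ 19) / 10000 +
      (9 / 40 * (v ^ 11 - 1) - α * (v ^ 11 - 1)) := by
    ring
  have h10 : 0 ≤ (1 - α * v ^ 4 + 0.0037 * (v ^ 4) ^ 3) * v ^ 7 - (v ^ 4 - α) := by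
    rw [h9]
    have : 0 ≤ (10000 * v ^ 7 - 10000 * v ^ 4 - 2250 * v ^ 11 + 2250 + 37 * v ^ 19) / 10000 := by
      positivity
    linarith
  linarith

end

section

namespace maj_4c_aux
/-- the polynomial inequality -/
theorem poly {v : ℝ} (hv : 1 ≤ v) :
    0 ≤ (v ^ 5 - v ^ 4) - 1 / 8 * (v ^ 7 - v ^ 2) - 1 / 48 * (v ^ 9 - 1) + 1 / 200 * v ^ 11 := by
  rcases le_total v 2 with h | h
  · have h1 : 0 ≤ v - 1 := by linarith
    have h2 : 0 ≤ 2 - v := by linarith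
    have e : (v ^ 5 - v ^ 4) - 1 / 8 * (v ^ 7 - v ^ 2) - 1 / 48 * (v ^ 9 - 1) + 1 / 200 * v ^ 11 =
      1 / 200 * ((v - 1) ^ 0 * (2 - v) ^ 11) + 119 / 400 * ((v - 1) ^ 1 * (2 - v) ^ 10) + 149 /
      40 * ((v - 1) ^ 2 * (2 - v) ^ 9) + 1733 / 80 * ((v - 1) ^ 3 * (2 - v) ^ 8) + 719 / 10 *
      ((v - 1) ^ 4 * (2 - v) ^ 7) + 29509 / 200 * ((v - 1) ^ 5 * (2 - v) ^ 6) + 38293 / 200 *
      ((v - 1) ^ 6 * (2 - v) ^ 5) + 6143 / 40 * ((v - 1) ^ 7 * (2 - v) ^ 4) + 5581 / 80 * ((v -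
      1) ^ 8 * (2 - v) ^ 3) + 3337 / 240 * ((v - 1) ^ 9 * (2 - v) ^ 2) + 259 / 1200 * ((v - 1) ^
      10 * (2 - v) ^ 1) + 113 / 1200 * ((v - 1) ^ 11 * (2 - v) ^ 0) := by ring
    rw [e]
    positivity
  · have h1 : 0 ≤ v - 2 := by linarith
    have e : (v ^ 5 - v ^ 4) - 1 / 8 * (v ^ 7 - v ^ 2) - 1 / 48 * (v ^ 9 - 1) + 1 / 200 * v ^ 11 =
      113 / 1200 * (v - 2) ^ 0 + 41 / 50 * (v - 2) ^ 1 + 677 / 40 * (v - 2) ^ 2 + 306 / 5 * (v -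
      2) ^ 3 + 506 / 5 * (v - 2) ^ 4 + 4817 / 50 * (v - 2) ^ 5 + 5817 / 100 * (v - 2) ^ 6 + 931
      / 40 * (v - 2) ^ 7 + 249 / 40 * (v - 2) ^ 8 + 259 / 240 * (v - 2) ^ 9 + 11 / 100 * (v - 2)
      ^ 10 + 1 / 200 * (v - 2) ^ 11 := by ring
    rw [e]
    positivity

theorem main {k u : ℝ} (hk : 0.5 ≤ k) (hk1 : k ≤ 1) (hu : 1 ≤ u) :
    u ^ (-k) * (1 - k * (1 - k) / 2 / u - k ^ 2 * (1 - k ^ 2) / 12 / u ^ 2) ≤
      1 - k * (1 - k) / 2 * u - k ^ 2 * (1 - k ^ 2) / 12 * u ^ 2 + 0.005 * u ^ 3 := by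
  have hk' : (1:ℝ) / 2 ≤ k := by norm_num at hk ⊢; linarith
  obtain ⟨v, hv, rfl⟩ : ∃ v : ℝ, 1 ≤ v ∧ u = v ^ 2 := by
    refine ⟨Real.sqrt u, ?_, (Real.sq_sqrt (by linarith)).symm⟩
    rw [show (1:ℝ) = Real.sqrt 1 by simp]
    exact Real.sqrt_le_sqrt hu
  have hv0 : 0 < v := by linarith
  set a : ℝ := k * (1 - k) / 2 with ha
  set b : ℝ := k ^ 2 * (1 - k ^ 2) / 12 with hb
  have ha0 : 0 ≤ a := by
    rw [ha]; exact div_nonneg (mul_nonneg (by linarith) (by linarith)) (by norm_num)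
  have hb0 : 0 ≤ b := by
    rw [hb]; exact div_nonneg (mul_nonneg (sq_nonneg _) (by nlinarith)) (by norm_num)
  have ha1 : a ≤ 1 / 8 := by rw [ha]; nlinarith [sq_nonneg (k - 1 / 2)]
  have hb1 : b ≤ 1 / 48 := by rw [hb]; nlinarith [sq_nonneg (k ^ 2 - 1 / 2)]
  have hv2 : 1 ≤ v ^ 2 := by nlinarith
  have hv4 : (1:ℝ) ≤ (v ^ 2) ^ 2 := by nlinarith
  have hbr : 0 ≤ 1 - a / v ^ 2 - b / (v ^ 2) ^ 2 := by
    have h1 : a / v ^ 2 ≤ 1 / 8 := (div_le_self ha0 hv2).trans ha1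
    have h2 : b / (v ^ 2) ^ 2 ≤ 1 / 48 := (div_le_self hb0 hv4).trans hb1
    linarith
  have hpow : (v ^ 2) ^ (-k) ≤ v⁻¹ := by
    have h1 : (v ^ 2) ^ (-k) ≤ (v ^ 2 : ℝ) ^ (-(1 / 2) : ℝ) :=
      Real.rpow_le_rpow_of_exponent_le hv2 (by linarith)
    have h2 : (v ^ 2 : ℝ) ^ (-(1 / 2) : ℝ) = v⁻¹ := by
      rw [← Real.rpow_natCast v 2, ← Real.rpow_mul hv0.le]
      norm_num
      rw [Real.rpow_neg_one]
    rw [← h2]; exact h1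
  have h3 := mul_le_mul_of_nonneg_right hpow hbr
  refine h3.trans ?_
  have h5 : 0 < v ^ 5 := by positivity
  have e1 : v⁻¹ * (1 - a / v ^ 2 - b / (v ^ 2) ^ 2) = (v ^ 4 - a * v ^ 2 - b) / v ^ 5 := by
    field_simp
  rw [e1, div_le_iff₀ h5]
  have hp := poly hv
  have h7 : 0 ≤ v ^ 7 - v ^ 2 := by
    have : v ^ 7 - v ^ 2 = v ^ 2 * (v ^ 5 - 1) := by ring
    rw [this]
    have : (1:ℝ) ≤ v ^ 5 := one_le_pow₀ hv
    exact mul_nonneg (by positivity) (by linarith)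
  have h9 : 0 ≤ v ^ 9 - 1 := by
    have : (1:ℝ) ≤ v ^ 9 := one_le_pow₀ hv
    linarith
  have h10 := mul_nonneg (sub_nonneg.2 ha1) h7
  have h11 := mul_nonneg (sub_nonneg.2 hb1) h9
  nlinarith [hp, h10, h11]
end maj_4c_aux

theorem maj_4c {k u : ℝ} (hk : 0.5 ≤ k) (hk1 : k ≤ 1) (hu : 1 ≤ u) :
    u ^ (-k) * (1 - k * (1 - k) / 2 / u - k ^ 2 * (1 - k ^ 2) / 12 / u ^ 2) ≤
      1 - k * (1 - k) / 2 * u - k ^ 2 * (1 - k ^ 2) / 12 * u ^ 2 + 0.005 * u ^ 3 :=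
  maj_4c_aux.main hk hk1 hu

end

end H618KS
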