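import Pool.Agent.Helper618_KS.Defs

/-!
Part `MajFourA` of the proof for MP_237b21_an.
-/

open MeasureTheory Filter Topology Set Real
open scoped ENNReal NNReal

set_option autoImplicit false

namespace H618KS

section

namespace maj_4a_aux

/-- `log u ≥ log c + 2 (u - c) / (u + c)` for `c ≤ u`. -/
theorem log_ge {c u : ℝ} (hc : 0 < c) (hu : c ≤ u) :
    Real.log c + 2 * (u - c) / (u + c) ≤ Real.log u := by
  have hx : 0 ≤ u / c - 1 := by
    rw [sub_nonneg, le_div_iff₀ hc]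
    linarith
  have h1 := Real.le_log_one_add_of_nonneg hx
  have h2 : 1 + (u / c - 1) = u / c := by ring
  rw [h2, Real.log_div (by linarith) hc.ne'] at h1
  have h3 : 2 * (u / c - 1) / (u / c - 1 + 2) = 2 * (u - c) / (u + c) := by
    field_simp
    ring
  rw [h3] at h1
  linarith

theorem log15 : 0.404 ≤ Real.log 1.5 := by
  have h1 : (0:ℝ) + 2 * (1.25 - 1) / (1.25 + 1) ≤ Real.log 1.25 := by
    have := log_ge (c := 1) (u := 1.25) one_pos (by norm_num)
    rwa [Real.log_one] at this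
  have h2 := log_ge (c := 1.25) (u := 1.5) (by norm_num) (by norm_num)
  norm_num at h1 h2 ⊢
  linarith

theorem log2 : 0.693 ≤ Real.log 2 := by
  have := Real.log_two_gt_d9
  linarith

theorem log25 : 0.916 ≤ Real.log 2.5 := by
  have h1 := log2
  have h1' := Real.log_two_gt_d9
  have h2 := log_ge (c := 2) (u := 2.25) (by norm_num) (by norm_num)
  have h3 := log_ge (c := 2.25) (u := 2.5) (by norm_num) (by norm_num)
  norm_num at h1 h1' h2 h3 ⊢
  linarith

theorem p1 (u : ℝ) (h1 : 1 ≤ u) (h2 : u ≤ 1.5) :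
    0 ≤ 2*u*(u+1)*(0.0088*u^3+0) + 4*u*(u-1) - (u^2-1)*(u+1) := by
  have ht : 0 ≤ u - 1 := by linarith
  nlinarith [mul_nonneg ht (sub_nonneg.2 h2), mul_nonneg (mul_nonneg ht (sub_nonneg.2 h2)) ht,
    pow_nonneg ht 3, pow_nonneg ht 4, pow_nonneg ht 5]

theorem p2 (u : ℝ) (h1 : 1.5 ≤ u) (h2 : u ≤ 2) :
    0 ≤ 2*u*(u+1.5)*(0.0088*u^3+0.404) + 4*u*(u-1.5) - (u^2-1)*(u+1.5) := by
  have ht : 0 ≤ u - 1.5 := by linarith
  nlinarith [mul_nonneg ht (sub_nonneg.2 h2), mul_nonneg (mul_nonneg ht (sub_nonneg.2 h2)) ht,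
    pow_nonneg ht 3, pow_nonneg ht 4, pow_nonneg ht 5]

theorem p3 (u : ℝ) (h1 : 2 ≤ u) (h2 : u ≤ 2.5) :
    0 ≤ 2*u*(u+2)*(0.0088*u^3+0.693) + 4*u*(u-2) - (u^2-1)*(u+2) := by
  have ht : 0 ≤ u - 2 := by linarith
  nlinarith [mul_nonneg ht (sub_nonneg.2 h2), mul_nonneg (mul_nonneg ht (sub_nonneg.2 h2)) ht,
    pow_nonneg ht 3, pow_nonneg ht 4, pow_nonneg ht 5, sq_nonneg (u-2.8),
    mul_nonneg ht (sq_nonneg (u-2.8))]

theorem p4 (u : ℝ) (h1 : 2.5 ≤ u) :
    0 ≤ 2*u*(u+2.5)*(0.0088*u^3+0.916) + 4*u*(u-2.5) - (u^2-1)*(u+2.5) := by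
  have ht : 0 ≤ u - 2.5 := by linarith
  nlinarith [pow_nonneg ht 3, pow_nonneg ht 4, pow_nonneg ht 5, sq_nonneg (u-2.8),
    mul_nonneg ht (sq_nonneg (u-2.8)), mul_nonneg (pow_nonneg ht 2) (sq_nonneg (u-2.8)),
    mul_nonneg (pow_nonneg ht 3) (sq_nonneg (u-2.8))]

/-- From the polynomial inequality to the inequality with the logarithm. -/
theorem step {c l u : ℝ} (hc : 0 < c) (hl : l ≤ Real.log c) (hu : c ≤ u)
    (hp : 0 ≤ 2*u*(u+c)*(0.0088*u^3+l) + 4*u*(u-c) - (u^2-1)*(u+c)) :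
    0 ≤ 0.0088 * u ^ 3 + Real.log u - (u - 1 / u) / 2 := by
  have hu0 : 0 < u := lt_of_lt_of_le hc hu
  have h1 := log_ge hc hu
  have h2 : 0 ≤ 0.0088 * u ^ 3 + (l + 2 * (u - c) / (u + c)) - (u - 1 / u) / 2 := by
    have h3 : 0.0088 * u ^ 3 + (l + 2 * (u - c) / (u + c)) - (u - 1 / u) / 2 =
        (2*u*(u+c)*(0.0088*u^3+l) + 4*u*(u-c) - (u^2-1)*(u+c)) / (2 * u * (u + c)) := by
      field_simp
      ring
    rw [h3]
    positivity
  linarith

theorem onevar {u : ℝ} (hu : 1 ≤ u) :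
    0 ≤ 0.0088 * u ^ 3 + Real.log u - (u - 1 / u) / 2 := by
  rcases le_total u 1.5 with h | h
  · exact step one_pos (Real.log_one.ge) hu (p1 u hu h)
  rcases le_total u 2 with h' | h'
  · exact step (by norm_num) log15 h (p2 u h h')
  rcases le_total u 2.5 with h'' | h''
  · exact step (by norm_num) log2 h' (p3 u h' h'')
  · exact step (by norm_num) log25 h'' (p4 u h'')

theorem sinh_ge {x : ℝ} (hx : 0 ≤ x) : x + x ^ 3 / 6 ≤ Real.sinh x := by
  have h1 := Real.hasSum_sinh x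
  have h2 := sum_le_hasSum (Finset.range 2) (fun n _ => by positivity) h1
  have h3 : ∑ n ∈ Finset.range 2, x ^ (2 * n + 1) / ((2 * n + 1).factorial : ℝ) =
      x + x ^ 3 / 6 := by
    rw [Finset.sum_range_succ, Finset.sum_range_one]
    norm_num [Nat.factorial]
  linarith

theorem exp_neg_le {y : ℝ} (hy : 0 ≤ y) : Real.exp (-y) ≤ 1 - y + y ^ 2 / 2 := by
  have h1 := Real.quadratic_le_exp_of_nonneg hy
  have h2 : 0 < 1 + y + y ^ 2 / 2 := by positivity
  rw [Real.exp_neg]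
  have h3 : (Real.exp y)⁻¹ ≤ (1 + y + y ^ 2 / 2)⁻¹ := inv_anti₀ h2 h1
  refine h3.trans ?_
  rw [inv_le_iff_one_le_mul₀ h2]
  nlinarith [pow_nonneg hy 4]

end maj_4a_aux

theorem maj_4a {k u : ℝ} (hk : 0 < k) (hk1 : k ≤ 1) (hu : 1 ≤ u) :
    u ^ (-k) * (1 - k * (1 - k) / 2 / u) ≤ 1 - k * (1 - k) / 2 * u + 0.0088 * k * u ^ 3 := by
  have hu0 : 0 < u := by linarith
  set L := Real.log u with hL
  have hL0 : 0 ≤ L := Real.log_nonneg hu
  have hw : u ^ (-k) = Real.exp (-(k * L)) := by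
    rw [Real.rpow_def_of_pos hu0]
    congr 1
    ring
  have hy0 : 0 ≤ k * L := by positivity
  have h1 : u ^ (-k) ≤ 1 - k * L + (k * L) ^ 2 / 2 := by
    rw [hw]
    exact maj_4a_aux.exp_neg_le hy0
  have h2 : 1 - k * L ≤ u ^ (-k) := by
    rw [hw]
    have := Real.add_one_le_exp (-(k * L))
    linarith
  have h3 := maj_4a_aux.onevar hu
  have h4 : L + L ^ 3 / 6 ≤ (u - 1 / u) / 2 := by
    have := maj_4a_aux.sinh_ge hL0
    rw [Real.sinh_eq, Real.exp_neg, hL, Real.exp_log hu0] at this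
    rw [one_div]
    exact this
  have h5 : L / u ≤ L := div_le_self hL0 hu
  have h5' : 0 ≤ L / u := by positivity
  set w := u ^ (-k) with hwdef
  -- `w (1 - k (1 - k) / 2 / u)`
  have e1 : w * (1 - k * (1 - k) / 2 / u) = w - k * (1 - k) / 2 * (w / u) := by
    field_simp
  have h6 : (1 - k * L) / u ≤ w / u := div_le_div_of_nonneg_right h2 hu0.le
  have h7 : (1 - k * L) / u = 1 / u - k * (L / u) := by ring
  have hkk : 0 ≤ k * (1 - k) / 2 := by
    have : 0 ≤ 1 - k := by linarith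
    positivity
  have h8 : k * (1 - k) / 2 * (1 / u - k * (L / u)) ≤ k * (1 - k) / 2 * (w / u) := by
    apply mul_le_mul_of_nonneg_left _ hkk
    linarith
  have h9 : 0 ≤ (u - 1 / u) / 2 - L ^ 2 / 2 - L / 2 := by
    have : 0 ≤ L / 6 * (3 - 3 * L + L ^ 2) := by
      apply mul_nonneg (by positivity)
      nlinarith [sq_nonneg (L - 3 / 2)]
    nlinarith
  have h10 : (1 - k) * (L / u) / 2 ≤ L / 2 := by
    nlinarith
  rw [e1]
  -- the remainder is `k` times a nonnegative number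
  have key : 0 ≤ k * ((L - (u - 1 / u) / 2 + 0.0088 * u ^ 3) +
      k * ((u - 1 / u) / 2 - L ^ 2 / 2 - (1 - k) * (L / u) / 2)) := by
    apply mul_nonneg hk.le
    apply add_nonneg
    · linarith
    · apply mul_nonneg hk.le
      linarith
  nlinarith [key, h8, h1]

end

end H618KS
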