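import Pool.Agent.Helper618_KS.Defs

/-!
Part `MajFourB` of the proof for MP_237b21_an.
-/

open MeasureTheory Filter Topology Set Real
open scoped ENNReal NNReal

set_option autoImplicit false

namespace H618KS

section

namespace maj_4b_aux
theorem h_le {y : ℝ} (hy : 0 ≤ y) : 1 - (1 + y) * exp (-y) ≤ y ^ 2 / 2 := by
  have key : MonotoneOn (fun y : ℝ => y ^ 2 / 2 + (1 + y) * exp (-y)) (Ici 0) := by
    have hd : ∀ x : ℝ, HasDerivAt (fun y : ℝ => y ^ 2 / 2 + (1 + y) * exp (-y))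
        (x - x * exp (-x)) x := by
      intro x
      have h1 : HasDerivAt (fun y : ℝ => exp (-y)) (-exp (-x)) x := by
        have := (hasDerivAt_neg x).exp
        simpa using this
      have h2 : HasDerivAt (fun y : ℝ => y ^ 2 / 2) x x := by
        have := (hasDerivAt_pow 2 x).div_const 2
        simpa using this
      have h3 : HasDerivAt (fun y : ℝ => 1 + y) 1 x := (hasDerivAt_id x).const_add 1
      exact (h2.add (h3.mul h1)).congr_deriv (by ring)
    apply monotoneOn_of_deriv_nonneg (convex_Ici 0)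
    · exact fun x _ => (hd x).continuousAt.continuousWithinAt
    · exact fun x _ => (hd x).differentiableAt.differentiableWithinAt
    · intro x hx
      rw [interior_Ici] at hx
      have hx0 : 0 < x := hx
      rw [(hd x).deriv]
      have : exp (-x) ≤ 1 := exp_le_one_iff.2 (by linarith)
      nlinarith
  have := key (mem_Ici.2 le_rfl) (mem_Ici.2 hy) hy
  simp only at this
  norm_num at this
  linarith

/-- the difference of the two sides divided by `k`, without the cubic term -/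
noncomputable def F (u k : ℝ) : ℝ :=
  (1 - exp (-(k * log u))) / k - (1 - k) / 2 * (u - exp (-((k + 1) * log u)))

theorem F_deriv (u : ℝ) {k : ℝ} (hk : 0 < k) : HasDerivAt (F u)
    ((log u * exp (-(k * log u)) * k - (1 - exp (-(k * log u)))) / k ^ 2 +
      1 / 2 * (u - exp (-((k + 1) * log u))) -
      (1 - k) / 2 * (log u * exp (-((k + 1) * log u)))) k := by
  have h1 : HasDerivAt (fun k : ℝ => exp (-(k * log u))) (-(log u * exp (-(k * log u)))) k := by
    have h := ((hasDerivAt_id k).mul_const (log u)).neg.exp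
    exact h.congr_deriv (by simp; ring)
  have h2 : HasDerivAt (fun k : ℝ => exp (-((k + 1) * log u)))
      (-(log u * exp (-((k + 1) * log u)))) k := by
    have h := (((hasDerivAt_id k).add_const 1).mul_const (log u)).neg.exp
    exact h.congr_deriv (by simp; ring)
  have h3 : HasDerivAt (fun k : ℝ => (1 - k) / 2) (-1 / 2) k := by
    have h := ((hasDerivAt_id k).const_sub 1).div_const 2
    exact h.congr_deriv (by norm_num)
  have h4 := ((h1.const_sub 1).div (hasDerivAt_id k) hk.ne').sub (h3.mul (h2.const_sub u))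
  unfold F
  refine h4.congr_deriv ?_
  simp only [id]
  ring

theorem F_mono {u : ℝ} (hu : 1 ≤ u) : MonotoneOn (F u) (Icc (3 / 10) 1) := by
  have hL : 0 ≤ log u := log_nonneg hu
  have hu0 : 0 < u := by linarith
  apply monotoneOn_of_deriv_nonneg (convex_Icc _ _)
  · intro k hk
    have hk0 : 0 < k := by have := hk.1; linarith
    exact (F_deriv u hk0).continuousAt.continuousWithinAt
  · intro k hk
    rw [interior_Icc] at hk
    have hk0 : 0 < k := by have := hk.1; linarith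
    exact (F_deriv u hk0).differentiableAt.differentiableWithinAt
  · intro k hk
    rw [interior_Icc] at hk
    have hk0 : 0 < k := by have := hk.1; linarith
    have hk1 : k < 1 := hk.2
    rw [(F_deriv u hk0).deriv]
    set L := log u with hLdef
    have e1 : u = exp L := (exp_log hu0).symm
    have hy : 0 ≤ k * L := mul_nonneg hk0.le hL
    -- first term
    have t1 : -(L ^ 2 / 2) ≤ (L * exp (-(k * L)) * k - (1 - exp (-(k * L)))) / k ^ 2 := by
      rw [le_div_iff₀ (by positivity)]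
      have := h_le hy
      nlinarith
    -- second exponential
    have hE0 : 0 < exp (-((k + 1) * L)) := exp_pos _
    have hE : exp (-((k + 1) * L)) ≤ u⁻¹ := by
      rw [e1, ← exp_neg]
      apply exp_le_exp.2
      nlinarith
    have t3 : (1 - k) / 2 * (L * exp (-((k + 1) * L))) ≤ 1 / 2 * (L * u⁻¹) := by
      apply mul_le_mul
      · linarith
      · exact mul_le_mul_of_nonneg_left hE hL
      · exact mul_nonneg hL hE0.le
      · norm_num
    have hp : 1 + L + L ^ 2 / 2 + L ^ 3 / 6 ≤ u := by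
      have h := Real.sum_le_exp_of_nonneg hL 4
      rw [← e1] at h
      simp only [Finset.sum_range_succ, Finset.sum_range_zero, Nat.factorial] at h
      norm_num at h
      linarith
    have hfin : 0 ≤ u - L ^ 2 - (1 + L) * u⁻¹ := by
      have h1 : (1 + L) * u⁻¹ ≤ u - L ^ 2 := by
        rw [← div_eq_mul_inv, div_le_iff₀ hu0]
        have hL2 : 0 ≤ L ^ 2 := by positivity
        have hL3 : 0 ≤ L ^ 3 := by positivity
        have hL4 : 0 ≤ L ^ 4 := by positivity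
        have hL6 : 0 ≤ L ^ 6 := by positivity
        have h2 : 0 ≤ u - (1 + L + L ^ 2 / 2 + L ^ 3 / 6) := by linarith
        have h3 : 0 ≤ u + (1 + L + L ^ 2 / 2 + L ^ 3 / 6) - L ^ 2 := by linarith
        have h4 := mul_nonneg h2 h3
        nlinarith
      linarith
    have e2 : (1 + L) * u⁻¹ = u⁻¹ + L * u⁻¹ := by ring
    rw [e2] at hfin
    linarith

theorem r3 {r : ℝ} (hr : 0 ≤ r) : r ^ 3 ≤ 7 / 10 + 3 / 10 * r ^ 10 := by
  have h : 0 ≤ (r - 1) ^ 2 * (3 * r ^ 8 + 6 * r ^ 7 + 9 * r ^ 6 + 12 * r ^ 5 + 15 * r ^ 4 +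
      18 * r ^ 3 + 21 * r ^ 2 + 14 * r + 7) := by positivity
  have e : (r - 1) ^ 2 * (3 * r ^ 8 + 6 * r ^ 7 + 9 * r ^ 6 + 12 * r ^ 5 + 15 * r ^ 4 +
      18 * r ^ 3 + 21 * r ^ 2 + 14 * r + 7) = 3 * r ^ 10 - 10 * r ^ 3 + 7 := by ring
  rw [e] at h
  linarith

theorem r13 {r : ℝ} (hr : 0 ≤ r) : 13 / 10 * r ^ 10 - 3 / 10 ≤ r ^ 13 := by
  have h : 0 ≤ (r - 1) ^ 2 * (10 * r ^ 11 + 20 * r ^ 10 + 30 * r ^ 9 + 27 * r ^ 8 + 24 * r ^ 7 +
      21 * r ^ 6 + 18 * r ^ 5 + 15 * r ^ 4 + 12 * r ^ 3 + 9 * r ^ 2 + 6 * r + 3) := by positivity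
  have e : (r - 1) ^ 2 * (10 * r ^ 11 + 20 * r ^ 10 + 30 * r ^ 9 + 27 * r ^ 8 + 24 * r ^ 7 +
      21 * r ^ 6 + 18 * r ^ 5 + 15 * r ^ 4 + 12 * r ^ 3 + 9 * r ^ 2 + 6 * r + 3) =
      10 * r ^ 13 - 13 * r ^ 10 + 3 := by ring
  rw [e] at h
  linarith

/-- the inequality at `k = 3 / 10`, from a tangent at `w` -/
theorem tangent {u y : ℝ} (w : ℝ) (hw : 0 < w) (hy : 0 ≤ y) (hu : 0 < u) (hyu : y ^ 10 * u = 1)
    (hQ : 0 ≤ (-w ^ 7 + 455 / 1000 * (w ^ 3)⁻¹) +
      (10 / 3 * (1 - 7 / 10 * (w ^ 3)⁻¹) - 21 / 200 * (w ^ 13)⁻¹) * u - 7 / 20 * u ^ 2 +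
      36 / 10000 * u ^ 4) :
    0 ≤ (1 - y ^ 3) / (3 / 10) - 7 / 20 * (u - y ^ 13) + 36 / 10000 * u ^ 3 := by
  have h3 := r3 (mul_nonneg hw.le hy)
  have h13 := r13 (mul_nonneg hw.le hy)
  rw [mul_pow, mul_pow] at h3
  rw [mul_pow, mul_pow] at h13
  have hw3 : 0 < w ^ 3 := by positivity
  have hw13 : 0 < w ^ 13 := by positivity
  have a3 : y ^ 3 * u ≤ (w ^ 3)⁻¹ * (7 / 10) * u + 3 / 10 * w ^ 7 := by
    have h : (w ^ 3 * y ^ 3) * ((w ^ 3)⁻¹ * u) ≤
        (7 / 10 + 3 / 10 * (w ^ 10 * y ^ 10)) * ((w ^ 3)⁻¹ * u) :=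
      mul_le_mul_of_nonneg_right h3 (by positivity)
    have e1 : (w ^ 3 * y ^ 3) * ((w ^ 3)⁻¹ * u) = y ^ 3 * u := by field_simp
    have e2 : (7 / 10 + 3 / 10 * (w ^ 10 * y ^ 10)) * ((w ^ 3)⁻¹ * u) =
        (w ^ 3)⁻¹ * (7 / 10) * u + 3 / 10 * w ^ 7 * (y ^ 10 * u) := by field_simp
    rw [e1, e2, hyu, mul_one] at h
    exact h
  have a13 : 13 / 10 * (w ^ 3)⁻¹ - 3 / 10 * (w ^ 13)⁻¹ * u ≤ y ^ 13 * u := by
    have h : (13 / 10 * (w ^ 10 * y ^ 10) - 3 / 10) * ((w ^ 13)⁻¹ * u) ≤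
        (w ^ 13 * y ^ 13) * ((w ^ 13)⁻¹ * u) :=
      mul_le_mul_of_nonneg_right h13 (by positivity)
    have e1 : (w ^ 13 * y ^ 13) * ((w ^ 13)⁻¹ * u) = y ^ 13 * u := by field_simp
    have e2 : (13 / 10 * (w ^ 10 * y ^ 10) - 3 / 10) * ((w ^ 13)⁻¹ * u) =
        13 / 10 * (w ^ 3)⁻¹ * (y ^ 10 * u) - 3 / 10 * (w ^ 13)⁻¹ * u := by field_simp
    rw [e1, e2, hyu, mul_one] at h
    exact h
  have h : 0 ≤ ((1 - y ^ 3) / (3 / 10) - 7 / 20 * (u - y ^ 13) + 36 / 10000 * u ^ 3) * u := by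
    have e : ((1 - y ^ 3) / (3 / 10) - 7 / 20 * (u - y ^ 13) + 36 / 10000 * u ^ 3) * u =
        10 / 3 * u - 10 / 3 * (y ^ 3 * u) - 7 / 20 * u ^ 2 + 7 / 20 * (y ^ 13 * u) +
          36 / 10000 * u ^ 4 := by ring
    rw [e]
    nlinarith
  exact nonneg_of_mul_nonneg_left h hu

theorem G_nonneg {u y : ℝ} (hy : 0 ≤ y) (hu : 1 ≤ u) (hyu : y ^ 10 * u = 1) :
    0 ≤ (1 - y ^ 3) / (3 / 10) - 7 / 20 * (u - y ^ 13) + 36 / 10000 * u ^ 3 := by
  have hu0 : 0 < u := by linarith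
  have b : ∀ a b : ℝ, a ≤ u → u ≤ b → 0 ≤ (u - a) ^ 4 ∧ 0 ≤ (u - a) ^ 3 * (b - u) ∧
      0 ≤ (u - a) ^ 2 * (b - u) ^ 2 ∧ 0 ≤ (u - a) * (b - u) ^ 3 ∧ 0 ≤ (b - u) ^ 4 := by
    intro a b ha hb
    have h1 : 0 ≤ u - a := by linarith
    have h2 : 0 ≤ b - u := by linarith
    refine ⟨by positivity, by positivity, by positivity, by positivity, by positivity⟩
  rcases le_total u (33 / 20) with h1 | h1
  · apply tangent 1 (by norm_num) hy hu0 hyu
    obtain ⟨b1, b2, b3, b4, b5⟩ := b 1 (33 / 20) hu h1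
    norm_num
    nlinarith
  rcases le_total u (37 / 10) with h2 | h2
  · apply tangent (11 / 10) (by norm_num) hy hu0 hyu
    obtain ⟨b1, b2, b3, b4, b5⟩ := b (33 / 20) (37 / 10) h1 h2
    norm_num
    nlinarith
  rcases le_total u (63 / 10) with h3 | h3
  · apply tangent (117 / 100) (by norm_num) hy hu0 hyu
    obtain ⟨b1, b2, b3, b4, b5⟩ := b (37 / 10) (63 / 10) h2 h3
    norm_num
    nlinarith
  · apply tangent (111 / 100) (by norm_num) hy hu0 hyu
    have h4 : 0 ≤ u - 63 / 10 := by linarith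
    have c2 : 0 ≤ (u - 63 / 10) ^ 2 := by positivity
    have c3 : 0 ≤ (u - 63 / 10) ^ 3 := by positivity
    have c4 : 0 ≤ (u - 63 / 10) ^ 4 := by positivity
    norm_num
    nlinarith
end maj_4b_aux

theorem maj_4b {k u : ℝ} (hk : 0.3 ≤ k) (hk1 : k ≤ 1) (hu : 1 ≤ u) :
    u ^ (-k) * (1 - k * (1 - k) / 2 / u) ≤ 1 - k * (1 - k) / 2 * u + 0.0036 * k * u ^ 3 := by
  have hu0 : 0 < u := by linarith
  have hk3 : 3 / 10 ≤ k := by norm_num at hk; linarith
  have hk0 : 0 < k := by linarith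
  have hF := maj_4b_aux.F_mono hu (left_mem_Icc.2 (by norm_num)) ⟨hk3, hk1⟩ hk3
  -- the value at 3/10
  have hy10 : exp (-(log u / 10)) ^ 10 * u = 1 := by
    rw [← exp_nat_mul]
    have e : ((10 : ℕ) : ℝ) * -(log u / 10) = -log u := by push_cast; ring
    rw [e, exp_neg, exp_log hu0, inv_mul_cancel₀ hu0.ne']
  have hG := maj_4b_aux.G_nonneg (exp_pos (-(log u / 10))).le hu hy10
  have e3 : exp (-(log u / 10)) ^ 3 = exp (-(3 / 10 * log u)) := by
    rw [← exp_nat_mul]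
    congr 1
    push_cast; ring
  have e13 : exp (-(log u / 10)) ^ 13 = exp (-((3 / 10 + 1) * log u)) := by
    rw [← exp_nat_mul]
    congr 1
    push_cast; ring
  rw [e3, e13] at hG
  have hF3 : maj_4b_aux.F u (3 / 10) = (1 - exp (-(3 / 10 * log u))) / (3 / 10) -
      7 / 20 * (u - exp (-((3 / 10 + 1) * log u))) := by
    unfold maj_4b_aux.F
    norm_num
  have hFk : 0 ≤ maj_4b_aux.F u k + 36 / 10000 * u ^ 3 := by
    rw [← hF3] at hG
    linarith
  have hE : u ^ (-k) = exp (-(k * log u)) := by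
    rw [rpow_def_of_pos hu0]
    congr 1
    ring
  have hE1 : exp (-((k + 1) * log u)) = exp (-(k * log u)) / u := by
    have e : -((k + 1) * log u) = -(k * log u) + -log u := by ring
    rw [e, exp_add, exp_neg (log u), exp_log hu0, div_eq_mul_inv]
  unfold maj_4b_aux.F at hFk
  rw [hE1] at hFk
  rw [hE]
  have h := mul_nonneg hk0.le hFk
  have e : k * ((1 - exp (-(k * log u))) / k - (1 - k) / 2 * (u - exp (-(k * log u)) / u) +
      36 / 10000 * u ^ 3) = (1 - exp (-(k * log u))) -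
      k * (1 - k) / 2 * (u - exp (-(k * log u)) / u) + 36 / 10000 * k * u ^ 3 := by
    field_simp
  rw [e] at h
  have e2 : exp (-(k * log u)) * (1 - k * (1 - k) / 2 / u) = exp (-(k * log u)) -
      k * (1 - k) / 2 * (exp (-(k * log u)) / u) := by ring
  rw [e2]
  norm_num
  linarith

end

end H618KS
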