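import Pool.Agent.Helper618_KS.Defs

/-!
Part `MajFourD` of the proof for MP_237b21_an.
-/

open MeasureTheory Filter Topology Set Real
open scoped ENNReal NNReal

set_option autoImplicit false

namespace H618KS

section

namespace maj_4d_aux

theorem qa0 (v : ℝ) (h1 : 1 ≤ v) (h2 : v ≤ 3 / 2) :
    0 ≤ v ^ 11 - v ^ 8 - (1 / 32) * (v ^ 15 - v ^ 4) - (17 / 1024) * (v ^ 19 - 1) := by
  obtain ⟨x, hx⟩ : ∃ x, x = v - 1 := ⟨_, rfl⟩
  obtain ⟨y, hy⟩ : ∃ y, y = 3 / 2 - v := ⟨_, rfl⟩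
  have hx0 : 0 ≤ x := by rw [hx]; linarith
  have hy0 : 0 ≤ y := by rw [hy]; linarith
  have key : v ^ 11 - v ^ 8 - (1 / 32) * (v ^ 15 - v ^ 4) - (17 / 1024) * (v ^ 19 - 1) =
      613632 * x ^ 1 * y ^ 18 +
      13806720 * x ^ 2 * y ^ 17 +
      145994048 * x ^ 3 * y ^ 16 +
      963928960 * x ^ 4 * y ^ 15 +
      4452455872 * x ^ 5 * y ^ 14 +
      15274697760 * x ^ 6 * y ^ 13 +
      40317683728 * x ^ 7 * y ^ 12 +
      83672300420 * x ^ 8 * y ^ 11 +
      138301847794 * x ^ 9 * y ^ 10 +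
      183240193675 * x ^ 10 * y ^ 9 +
      (389589863771 / 2) * x ^ 11 * y ^ 8 +
      (330863730835 / 2) * x ^ 12 * y ^ 7 +
      (444388722603 / 4) * x ^ 13 * y ^ 6 +
      (463677105045 / 8) * x ^ 14 * y ^ 5 +
      (365268964597 / 16) * x ^ 15 * y ^ 4 +
      (829850673255 / 128) * x ^ 16 * y ^ 3 +
      (314050240431 / 256) * x ^ 17 * y ^ 2 +
      (67927922405 / 512) * x ^ 18 * y ^ 1 +
      (5667371125 / 1024) * x ^ 19 := by
    rw [hx, hy]
    ring
  rw [key]
  positivity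

theorem qa1 (v : ℝ) (h1 : 1 ≤ v) (h2 : v ≤ 3 / 2) :
    0 ≤ v ^ 11 - v ^ 8 - (3 / 32) * (v ^ 15 - v ^ 4) - (21 / 1024) * (v ^ 19 - 1) + (3 / 800) * v ^ 23 := by
  obtain ⟨x, hx⟩ : ∃ x, x = v - 1 := ⟨_, rfl⟩
  obtain ⟨y, hy⟩ : ∃ y, y = 3 / 2 - v := ⟨_, rfl⟩
  have hx0 : 0 ≤ x := by rw [hx]; linarith
  have hy0 : 0 ≤ y := by rw [hy]; linarith
  have key : v ^ 11 - v ^ 8 - (3 / 32) * (v ^ 15 - v ^ 4) - (21 / 1024) * (v ^ 19 - 1) + (3 / 800) * v ^ 23 =
      (786432 / 25) * y ^ 23 +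
      (192712704 / 25) * x ^ 1 * y ^ 22 +
      (4835567616 / 25) * x ^ 2 * y ^ 21 +
      (59825210368 / 25) * x ^ 3 * y ^ 20 +
      (94394775552 / 5) * x ^ 4 * y ^ 19 +
      (2648867730432 / 25) * x ^ 5 * y ^ 18 +
      (11226763846144 / 25) * x ^ 6 * y ^ 17 +
      (37280010045696 / 25) * x ^ 7 * y ^ 16 +
      (99358689300288 / 25) * x ^ 8 * y ^ 15 +
      (43205885193504 / 5) * x ^ 9 * y ^ 14 +
      (387381233648112 / 25) * x ^ 10 * y ^ 13 +
      (576900912618744 / 25) * x ^ 11 * y ^ 12 +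
      (716209289764216 / 25) * x ^ 12 * y ^ 11 +
      (741993345302028 / 25) * x ^ 13 * y ^ 10 +
      (128096907737706 / 5) * x ^ 14 * y ^ 9 +
      (458733611342377 / 25) * x ^ 15 * y ^ 8 +
      (2165709496108587 / 200) * x ^ 16 * y ^ 7 +
      (2084303477029131 / 400) * x ^ 17 * y ^ 6 +
      (1611679441017681 / 800) * x ^ 18 * y ^ 5 +
      (196065479935677 / 320) * x ^ 19 * y ^ 4 +
      (28402657175901 / 200) * x ^ 20 * y ^ 3 +
      (19044286310433 / 800) * x ^ 21 * y ^ 2 +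
      (2084222650317 / 800) * x ^ 22 * y ^ 1 +
      (227284346787 / 1600) * x ^ 23 := by
    rw [hx, hy]
    ring
  rw [key]
  positivity

theorem qb0 (v : ℝ) (h1 : 3 / 2 ≤ v) (h2 : v ≤ 17 / 10) :
    0 ≤ v ^ 11 - v ^ 8 - (289 / 20000) * (v ^ 15 - v ^ 4) - (10770163 / 1200000000) * (v ^ 19 - 1) := by
  obtain ⟨x, hx⟩ : ∃ x, x = v - 3 / 2 := ⟨_, rfl⟩
  obtain ⟨y, hy⟩ : ∃ y, y = 17 / 10 - v := ⟨_, rfl⟩
  have hx0 : 0 ≤ x := by rw [hx]; linarith
  have hy0 : 0 ≤ y := by rw [hy]; linarith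
  have key : v ^ 11 - v ^ 8 - (289 / 20000) * (v ^ 15 - v ^ 4) - (10770163 / 1200000000) * (v ^ 19 - 1) =
      (1066807091193839013671875 / 1610612736) * y ^ 19 +
      (21390774541144573427734375 / 1610612736) * x ^ 1 * y ^ 18 +
      (67531821209628269654296875 / 536870912) * x ^ 2 * y ^ 17 +
      (401463892367909078446484375 / 536870912) * x ^ 3 * y ^ 16 +
      (419719886210096868906015625 / 134217728) * x ^ 4 * y ^ 15 +
      (1311356839223548194280453125 / 134217728) * x ^ 5 * y ^ 14 +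
      (3172873542210054502208309375 / 134217728) * x ^ 6 * y ^ 13 +
      (6080081103202737868076536875 / 134217728) * x ^ 7 * y ^ 12 +
      (18714493235450525600260225375 / 268435456) * x ^ 8 * y ^ 11 +
      (69940901062832250491143603225 / 805306368) * x ^ 9 * y ^ 10 +
      (70734865723190021810406483655 / 805306368) * x ^ 10 * y ^ 9 +
      (19329219314613816217715225857 / 268435456) * x ^ 11 * y ^ 8 +
      (31912943210504387389203248841 / 671088640) * x ^ 12 * y ^ 7 +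
      (83908417278192156291727082361 / 3355443200) * x ^ 13 * y ^ 6 +
      (172400661131233964274839828591 / 16777216000) * x ^ 14 * y ^ 5 +
      (268817725761094055462507871783 / 83886080000) * x ^ 15 * y ^ 4 +
      (1214701578213731579296256713437 / 1677721600000) * x ^ 16 * y ^ 3 +
      (919131051360457438339853513437 / 8388608000000) * x ^ 17 * y ^ 2 +
      (1201695839087629048244633525381 / 125829120000000) * x ^ 18 * y ^ 1 +
      (205899361498061493224012104061 / 629145600000000) * x ^ 19 := by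
    rw [hx, hy]
    ring
  rw [key]
  positivity

theorem qb1 (v : ℝ) (h1 : 3 / 2 ≤ v) (h2 : v ≤ 17 / 10) :
    0 ≤ v ^ 11 - v ^ 8 - (1939 / 20000) * (v ^ 15 - v ^ 4) - (26448863 / 1200000000) * (v ^ 19 - 1) + (3 / 800) * v ^ 23 := by
  obtain ⟨x, hx⟩ : ∃ x, x = v - 3 / 2 := ⟨_, rfl⟩
  obtain ⟨y, hy⟩ : ∃ y, y = 17 / 10 - v := ⟨_, rfl⟩
  have hx0 : 0 ≤ x := by rw [hx]; linarith
  have hy0 : 0 ≤ y := by rw [hy]; linarith
  have key : v ^ 11 - v ^ 8 - (1939 / 20000) * (v ^ 15 - v ^ 4) - (26448863 / 1200000000) * (v ^ 19 - 1) + (3 / 800) * v ^ 23 =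
      (233323592173958526611328125 / 1610612736) * y ^ 23 +
      (5753530226912088800048828125 / 1610612736) * x ^ 1 * y ^ 22 +
      (68187631471514750816650390625 / 1610612736) * x ^ 2 * y ^ 21 +
      (517033366687170042590087890625 / 1610612736) * x ^ 3 * y ^ 20 +
      (2816543723357847266841748046875 / 1610612736) * x ^ 4 * y ^ 19 +
      (11732186980855464543338310546875 / 1610612736) * x ^ 5 * y ^ 18 +
      (12941965856783552979174376953125 / 536870912) * x ^ 6 * y ^ 17 +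
      (34894280103065639966113664453125 / 536870912) * x ^ 7 * y ^ 16 +
      (38987405035131652380915083046875 / 268435456) * x ^ 8 * y ^ 15 +
      (219161032806501927264058812640625 / 805306368) * x ^ 9 * y ^ 14 +
      (347010363795067673114311583003125 / 805306368) * x ^ 10 * y ^ 13 +
      (466409881086200643639662507463125 / 805306368) * x ^ 11 * y ^ 12 +
      (533181122571124060899596824548875 / 805306368) * x ^ 12 * y ^ 11 +
      (518142928353387531559547836175275 / 805306368) * x ^ 13 * y ^ 10 +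
      (426813935911307322652681962681455 / 805306368) * x ^ 14 * y ^ 9 +
      (98797597151080745046935313067781 / 268435456) * x ^ 15 * y ^ 8 +
      (573492565350680589326808665478727 / 2684354560) * x ^ 16 * y ^ 7 +
      (1374277761520419951494684568225027 / 13421772800) * x ^ 17 * y ^ 6 +
      (8014658050130199050297464785992401 / 201326592000) * x ^ 18 * y ^ 5 +
      (4106927841018266780467518624412327 / 335544320000) * x ^ 19 * y ^ 4 +
      (2882661619425024596081267486173999 / 1006632960000) * x ^ 20 * y ^ 3 +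
      (482203318354262768399660453304911 / 1006632960000) * x ^ 21 * y ^ 2 +
      (17121007564385501599765455726833 / 335544320000) * x ^ 22 * y ^ 1 +
      (2617586914513347492424533933811 / 1006632960000) * x ^ 23 := by
    rw [hx, hy]
    ring
  rw [key]
  positivity

theorem qc0 (v : ℝ) (h1 : 17 / 10 ≤ v) (h2 : v ≤ 97 / 50) :
    0 ≤ v ^ 11 - v ^ 8 - (1 / 200) * (v ^ 15 - v ^ 4) - (141 / 40000) * (v ^ 19 - 1) := by
  obtain ⟨x, hx⟩ : ∃ x, x = v - 17 / 10 := ⟨_, rfl⟩
  obtain ⟨y, hy⟩ : ∃ y, y = 97 / 50 - v := ⟨_, rfl⟩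
  have hx0 : 0 ≤ x := by rw [hx]; linarith
  have hy0 : 0 ≤ y := by rw [hy]; linarith
  have key : v ^ 11 - v ^ 8 - (1 / 200) * (v ^ 15 - v ^ 4) - (141 / 40000) * (v ^ 19 - 1) =
      (2129169010373108874833722747802734375 / 20446719959719867318272) * y ^ 19 +
      (42860252684385299350289478961181640625 / 20446719959719867318272) * x ^ 1 * y ^ 18 +
      (15097623581706918148048994202880859375 / 757285924434069159936) * x ^ 2 * y ^ 17 +
      (811378318383984936674381150107666015625 / 6815573319906622439424) * x ^ 3 * y ^ 16 +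
      (852319890832451398369161889681689453125 / 1703893329976655609856) * x ^ 4 * y ^ 15 +
      (297395964741432271173769590143623046875 / 189321481108517289984) * x ^ 5 * y ^ 14 +
      (6511644865435708477681323041883060546875 / 1703893329976655609856) * x ^ 6 * y ^ 13 +
      (12552281686492310903478275506095864453125 / 1703893329976655609856) * x ^ 7 * y ^ 12 +
      (4320694608592093143907766721191368046875 / 378642962217034579968) * x ^ 8 * y ^ 11 +
      (146362888448625532305374984777012577859375 / 10223359979859933659136) * x ^ 9 * y ^ 10 +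
      (149196282239691745140793052267243765321875 / 10223359979859933659136) * x ^ 10 * y ^ 9 +
      (4570435193767569204212169752143866394375 / 378642962217034579968) * x ^ 11 * y ^ 8 +
      (13722004125531623396284243142700766126625 / 1703893329976655609856) * x ^ 12 * y ^ 7 +
      (7303039780431764258592432485790552217175 / 1703893329976655609856) * x ^ 13 * y ^ 6 +
      (338344226874553215313589382597171745135 / 189321481108517289984) * x ^ 14 * y ^ 5 +
      (967322125322383135176254800595299974521 / 1703893329976655609856) * x ^ 15 * y ^ 4 +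
      (4480716415841761600978287654079390207561 / 34077866599533112197120) * x ^ 16 * y ^ 3 +
      (390596166105284384351338711331870507651 / 18932148110851728998400) * x ^ 17 * y ^ 2 +
      (4881595442574872660273929547655383395673 / 2555839994964983414784000) * x ^ 18 * y ^ 1 +
      (950199503592924217787153181355071793747 / 12779199974824917073920000) * x ^ 19 := by
    rw [hx, hy]
    ring
  rw [key]
  positivity

theorem qc1 (v : ℝ) (h1 : 17 / 10 ≤ v) (h2 : v ≤ 97 / 50) :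
    0 ≤ v ^ 11 - v ^ 8 - (21 / 200) * (v ^ 15 - v ^ 4) - (1071 / 40000) * (v ^ 19 - 1) + (3 / 800) * v ^ 23 := by
  obtain ⟨x, hx⟩ : ∃ x, x = v - 17 / 10 := ⟨_, rfl⟩
  obtain ⟨y, hy⟩ : ∃ y, y = 97 / 50 - v := ⟨_, rfl⟩
  have hx0 : 0 ≤ x := by rw [hx]; linarith
  have hy0 : 0 ≤ y := by rw [hy]; linarith
  have key : v ^ 11 - v ^ 8 - (21 / 200) * (v ^ 15 - v ^ 4) - (1071 / 40000) * (v ^ 19 - 1) + (3 / 800) * v ^ 23 =
      (3127216376992752534969818372249603271484375 / 211991592542375584355844096) * y ^ 23 +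
      (92212206064449831413896616943073272705078125 / 211991592542375584355844096) * x ^ 1 * y ^ 22 +
      (1287149946567398492291405590952434539794921875 / 211991592542375584355844096) * x ^ 2 * y ^ 21 +
      (11334162324249739913247192385370822906494140625 / 211991592542375584355844096) * x ^ 3 * y ^ 20 +
      (70755354329588510117418556318437534332275390625 / 211991592542375584355844096) * x ^ 4 * y ^ 19 +
      (333502113647806654500112653990042054901123046875 / 211991592542375584355844096) * x ^ 5 * y ^ 18 +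
      (411291791343905267862564501275570332366943359375 / 70663864180791861451948032) * x ^ 6 * y ^ 17 +
      (1225543381955460228964800736525076793341064453125 / 70663864180791861451948032) * x ^ 7 * y ^ 16 +
      (1496812200524764405067299496780930699781494140625 / 35331932090395930725974016) * x ^ 8 * y ^ 15 +
      (9103012326151121113316008564143548250269775390625 / 105995796271187792177922048) * x ^ 9 * y ^ 14 +
      (15443280404381474101040239438001129458837255859375 / 105995796271187792177922048) * x ^ 10 * y ^ 13 +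
      (22041500953422536782301230129900940544152939453125 / 105995796271187792177922048) * x ^ 11 * y ^ 12 +
      (26536488384625708273688631954290334768263869140625 / 105995796271187792177922048) * x ^ 12 * y ^ 11 +
      (26956117624581979236610776154494273790842979296875 / 105995796271187792177922048) * x ^ 13 * y ^ 10 +
      (23054399323786693156752233611959830897385867578125 / 105995796271187792177922048) * x ^ 14 * y ^ 9 +
      (5507503292836422858027525027873428250617920953125 / 35331932090395930725974016) * x ^ 15 * y ^ 8 +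
      (6563707333406002164847932959780307363802217440625 / 70663864180791861451948032) * x ^ 16 * y ^ 7 +
      (3214290900831100578977533086185797194643854056875 / 70663864180791861451948032) * x ^ 17 * y ^ 6 +
      (3815279770749420265900554511633395342677267641375 / 211991592542375584355844096) * x ^ 18 * y ^ 5 +
      (1189581696675792881351877482736964110902169111125 / 211991592542375584355844096) * x ^ 19 * y ^ 4 +
      (281408149323099878122348258001554706119313516845 / 211991592542375584355844096) * x ^ 20 * y ^ 3 +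
      (47474237899716659776934083504546197098282130847 / 211991592542375584355844096) * x ^ 21 * y ^ 2 +
      (25445070960148458511198243994609228799724964557 / 1059957962711877921779220480) * x ^ 22 * y ^ 1 +
      (6513307500457669078021895033269645907466120619 / 5299789813559389608896102400) * x ^ 23 := by
    rw [hx, hy]
    ring
  rw [key]
  positivity

theorem e15 (v : ℝ) (hv : 1 ≤ v) : 0 ≤ v ^ 15 - v ^ 4 := by
  have := pow_le_pow_right₀ hv (show 4 ≤ 15 by norm_num)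
  linarith

theorem e19 (v : ℝ) (hv : 1 ≤ v) : 0 ≤ v ^ 19 - 1 := by
  have := one_le_pow₀ hv (n := 19)
  linarith

theorem caseA (v j : ℝ) (h1 : 1 ≤ v) (h2 : v ≤ 3 / 2) (hj0 : 0 ≤ j) (hj : j ≤ 1 / 4) :
    0 ≤ v ^ 11 - v ^ 8 - j * (1 - j) / 2 * (v ^ 15 - v ^ 4)
      - j * (1 - j) ^ 2 * (2 - j) / 12 * (v ^ 19 - 1) + 3 / 200 * j * v ^ 23 := by
  have H0 := qa0 v h1 h2
  have H1 := qa1 v h1 h2
  have E1 := e15 v h1
  have E2 := e19 v h1
  have A1 := mul_nonneg (show 0 ≤ 1 - 4 * j by linarith) H0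
  have A2 := mul_nonneg (show 0 ≤ 4 * j by linarith) H1
  have A3 := mul_nonneg (show 0 ≤ (j - 1 / 4) ^ 2 / 2 by positivity) E1
  have A4 : 0 ≤ (j - 1 / 4) ^ 2 * (j ^ 2 + (2 * (1 / 4) - 4) * j + 5 - 8 * (1 / 4) + 3 * (1 / 4) ^ 2) / 12
      * (v ^ 19 - 1) := by
    apply mul_nonneg _ E2
    apply div_nonneg _ (by norm_num)
    apply mul_nonneg (sq_nonneg _)
    nlinarith [sq_nonneg j]
  nlinarith [A1, A2, A3, A4]

theorem caseB (v j : ℝ) (h1 : 3 / 2 ≤ v) (h2 : v ≤ 17 / 10) (hj0 : 0 ≤ j) (hj : j ≤ 1 / 4) :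
    0 ≤ v ^ 11 - v ^ 8 - j * (1 - j) / 2 * (v ^ 15 - v ^ 4)
      - j * (1 - j) ^ 2 * (2 - j) / 12 * (v ^ 19 - 1) + 3 / 200 * j * v ^ 23 := by
  have H0 := qb0 v h1 h2
  have H1 := qb1 v h1 h2
  have E1 := e15 v (by linarith)
  have E2 := e19 v (by linarith)
  have A1 := mul_nonneg (show 0 ≤ 1 - 4 * j by linarith) H0
  have A2 := mul_nonneg (show 0 ≤ 4 * j by linarith) H1
  have A3 := mul_nonneg (show 0 ≤ (j - 17 / 100) ^ 2 / 2 by positivity) E1
  have A4 : 0 ≤ (j - 17 / 100) ^ 2 * (j ^ 2 + (2 * (17 / 100) - 4) * j + 5 - 8 * (17 / 100) + 3 * (17 / 100) ^ 2) / 12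
      * (v ^ 19 - 1) := by
    apply mul_nonneg _ E2
    apply div_nonneg _ (by norm_num)
    apply mul_nonneg (sq_nonneg _)
    nlinarith [sq_nonneg j]
  nlinarith [A1, A2, A3, A4]

theorem caseC (v j : ℝ) (h1 : 17 / 10 ≤ v) (h2 : v ≤ 97 / 50) (hj0 : 0 ≤ j) (hj : j ≤ 1 / 4) :
    0 ≤ v ^ 11 - v ^ 8 - j * (1 - j) / 2 * (v ^ 15 - v ^ 4)
      - j * (1 - j) ^ 2 * (2 - j) / 12 * (v ^ 19 - 1) + 3 / 200 * j * v ^ 23 := by
  have H0 := qc0 v h1 h2
  have H1 := qc1 v h1 h2
  have E1 := e15 v (by linarith)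
  have E2 := e19 v (by linarith)
  have A1 := mul_nonneg (show 0 ≤ 1 - 4 * j by linarith) H0
  have A2 := mul_nonneg (show 0 ≤ 4 * j by linarith) H1
  have A3 := mul_nonneg (show 0 ≤ (j - 1 / 10) ^ 2 / 2 by positivity) E1
  have A4 : 0 ≤ (j - 1 / 10) ^ 2 * (j ^ 2 + (2 * (1 / 10) - 4) * j + 5 - 8 * (1 / 10) + 3 * (1 / 10) ^ 2) / 12
      * (v ^ 19 - 1) := by
    apply mul_nonneg _ E2
    apply div_nonneg _ (by norm_num)
    apply mul_nonneg (sq_nonneg _)
    nlinarith [sq_nonneg j]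
  nlinarith [A1, A2, A3, A4]

theorem caseD (v j : ℝ) (h1 : 97 / 50 ≤ v) (hj0 : 0 ≤ j) (hj : j ≤ 1 / 4) :
    0 ≤ v ^ 11 - v ^ 8 - j * (1 - j) / 2 * (v ^ 15 - v ^ 4)
      - j * (1 - j) ^ 2 * (2 - j) / 12 * (v ^ 19 - 1) + 3 / 200 * j * v ^ 23 := by
  have hv1 : 1 ≤ v := by linarith
  have hv0 : 0 < v := by linarith
  have E1 := e15 v hv1
  have E2 := e19 v hv1
  have H8 : v ^ 8 ≤ v ^ 11 := pow_le_pow_right₀ hv1 (by norm_num)
  have c1 : j * (1 - j) / 2 ≤ j / 2 := by nlinarith [sq_nonneg j]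
  have c2 : j * (1 - j) ^ 2 * (2 - j) / 12 ≤ j / 6 := by
    have h3 : (1 - j) ^ 2 ≤ 1 := by nlinarith
    have h4 : (1 - j) ^ 2 * (2 - j) ≤ 2 := by nlinarith [sq_nonneg (1 - j)]
    have h5 := mul_le_mul_of_nonneg_left h4 hj0
    nlinarith
  have B1 : j * (1 - j) / 2 * (v ^ 15 - v ^ 4) ≤ j / 2 * v ^ 15 := by
    have := mul_le_mul_of_nonneg_right c1 E1
    have h4 : 0 ≤ j / 2 * v ^ 4 := by positivity
    nlinarith
  have B2 : j * (1 - j) ^ 2 * (2 - j) / 12 * (v ^ 19 - 1) ≤ j / 6 * v ^ 19 := by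
    have := mul_le_mul_of_nonneg_right c2 E2
    nlinarith
  have hu : (14 : ℝ) ≤ v ^ 4 := by
    have : (97 / 50 : ℝ) ^ 4 ≤ v ^ 4 := pow_le_pow_left₀ (by norm_num) h1 4
    refine le_trans ?_ this
    norm_num
  have B3 : 0 ≤ 3 / 200 * (v ^ 4) ^ 2 - (v ^ 4) / 6 - 1 / 2 := by
    nlinarith
  have B4 : 0 ≤ j * v ^ 15 * (3 / 200 * (v ^ 4) ^ 2 - (v ^ 4) / 6 - 1 / 2) := by
    apply mul_nonneg _ B3
    positivity
  nlinarith

theorem poly (v j : ℝ) (h1 : 1 ≤ v) (hj0 : 0 ≤ j) (hj : j ≤ 1 / 4) :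
    0 ≤ v ^ 11 - v ^ 8 - j * (1 - j) / 2 * (v ^ 15 - v ^ 4)
      - j * (1 - j) ^ 2 * (2 - j) / 12 * (v ^ 19 - 1) + 3 / 200 * j * v ^ 23 := by
  rcases le_total v (3 / 2) with h | h
  · exact caseA v j h1 h hj0 hj
  rcases le_total v (17 / 10) with h' | h'
  · exact caseB v j h h' hj0 hj
  rcases le_total v (97 / 50) with h'' | h''
  · exact caseC v j h' h'' hj0 hj
  · exact caseD v j h'' hj0 hj

end maj_4d_aux

open maj_4d_aux in
theorem maj_4d {k u : ℝ} (hk : 0.75 ≤ k) (hk1 : k ≤ 1) (hu : 1 ≤ u) :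
    u ^ (-k) * (1 - k * (1 - k) / 2 / u - k ^ 2 * (1 - k ^ 2) / 12 / u ^ 2) ≤
      1 - k * (1 - k) / 2 * u - k ^ 2 * (1 - k ^ 2) / 12 * u ^ 2 +
        0.015 * (1 - k) * u ^ 3 := by
  have hk' : (3 / 4 : ℝ) ≤ k := by norm_num at hk ⊢; linarith
  obtain ⟨j, hj⟩ : ∃ j, j = 1 - k := ⟨_, rfl⟩
  have hkj : k = 1 - j := by linarith
  have hj0 : 0 ≤ j := by linarith
  have hj4 : j ≤ 1 / 4 := by linarith
  have hu0 : 0 < u := by linarith
  obtain ⟨v, hv⟩ : ∃ v, v = u ^ (1 / 4 : ℝ) := ⟨_, rfl⟩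
  have hv1 : 1 ≤ v := by rw [hv]; exact Real.one_le_rpow hu (by norm_num)
  have hv0 : 0 < v := by linarith
  have hv4 : v ^ 4 = u := by
    rw [hv, ← Real.rpow_natCast, ← Real.rpow_mul hu0.le]
    norm_num
  have hpow : u ^ (-k) ≤ (v ^ 3)⁻¹ := by
    have e : (v ^ 3)⁻¹ = u ^ (-(3 / 4) : ℝ) := by
      rw [Real.rpow_neg hu0.le, hv, ← Real.rpow_natCast, ← Real.rpow_mul hu0.le]
      norm_num
    rw [e]
    exact Real.rpow_le_rpow_of_exponent_le hu (by linarith)
  have hc1 : 0 ≤ k * (1 - k) / 2 := by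
    have : 0 ≤ k * (1 - k) := mul_nonneg (by linarith) (by linarith)
    linarith
  have hc1' : k * (1 - k) / 2 ≤ 1 / 8 := by nlinarith [sq_nonneg (k - 1 / 2)]
  have hc2 : 0 ≤ k ^ 2 * (1 - k ^ 2) / 12 := by
    have : 0 ≤ k ^ 2 * (1 - k ^ 2) := mul_nonneg (sq_nonneg _) (by nlinarith)
    linarith
  have hc2' : k ^ 2 * (1 - k ^ 2) / 12 ≤ 1 / 48 := by nlinarith [sq_nonneg (k ^ 2 - 1 / 2)]
  have hbr : 0 ≤ 1 - k * (1 - k) / 2 / u - k ^ 2 * (1 - k ^ 2) / 12 / u ^ 2 := by
    have a1 : k * (1 - k) / 2 / u ≤ k * (1 - k) / 2 := div_le_self hc1 hu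
    have a2 : k ^ 2 * (1 - k ^ 2) / 12 / u ^ 2 ≤ k ^ 2 * (1 - k ^ 2) / 12 :=
      div_le_self hc2 (one_le_pow₀ hu)
    linarith
  refine le_trans (mul_le_mul_of_nonneg_right hpow hbr) ?_
  have P := poly v j hv1 hj0 hj4
  rw [hkj, ← hv4]
  have hv3 : 0 < v ^ 11 := by positivity
  rw [← sub_nonneg]
  have key : 1 - (1 - j) * (1 - (1 - j)) / 2 * v ^ 4 - (1 - j) ^ 2 * (1 - (1 - j) ^ 2) / 12 * (v ^ 4) ^ 2 +
        0.015 * (1 - (1 - j)) * (v ^ 4) ^ 3 -
      (v ^ 3)⁻¹ * (1 - (1 - j) * (1 - (1 - j)) / 2 / v ^ 4 - (1 - j) ^ 2 * (1 - (1 - j) ^ 2) / 12 / (v ^ 4) ^ 2)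
      = (v ^ 11 - v ^ 8 - j * (1 - j) / 2 * (v ^ 15 - v ^ 4)
      - j * (1 - j) ^ 2 * (2 - j) / 12 * (v ^ 19 - 1) + 3 / 200 * j * v ^ 23) / v ^ 11 := by
    field_simp
    ring
  rw [key]
  exact div_nonneg P hv3.le

end

end H618KS
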