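import Pool.Agent.Helper618_KS.Defs

/-!
Part `Gam` of the proof for MP_237b21_an.
-/

open MeasureTheory Filter Topology Set Real
open scoped ENNReal NNReal

set_option autoImplicit false

namespace H618KS

section

namespace kershaw_aux

theorem logineq {w s : ℝ} (hw0 : 0 ≤ w) (hw1 : w < 1) (hs : 0 ≤ s) (hs1 : s ≤ 1) :
    log (1 + s * w) - log (1 - s * w) ≤ s * (log (1 + w) - log (1 - w)) := by
  have hsw : |s * w| < 1 := by
    rw [abs_of_nonneg (mul_nonneg hs hw0)]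
    nlinarith
  have hw : |w| < 1 := by
    rw [abs_of_nonneg hw0]
    exact hw1
  have h1 := Real.hasSum_log_sub_log_of_abs_lt_one hsw
  have h2 := (Real.hasSum_log_sub_log_of_abs_lt_one hw).mul_left s
  refine hasSum_le (fun k => ?_) h1 h2
  have h3 : s ^ (2 * k + 1) ≤ s := by
    rw [pow_succ]
    have : s ^ (2 * k) ≤ 1 := pow_le_one₀ hs hs1
    nlinarith
  have h4 : 0 ≤ w ^ (2 * k + 1) := pow_nonneg hw0 _
  have h5 : (0 : ℝ) ≤ 2 * (1 / (2 * k + 1)) := by positivity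
  rw [mul_pow]
  calc 2 * (1 / (2 * (k : ℝ) + 1)) * (s ^ (2 * k + 1) * w ^ (2 * k + 1))
      = (2 * (1 / (2 * (k : ℝ) + 1)) * w ^ (2 * k + 1)) * s ^ (2 * k + 1) := by ring
    _ ≤ (2 * (1 / (2 * (k : ℝ) + 1)) * w ^ (2 * k + 1)) * s :=
        mul_le_mul_of_nonneg_left h3 (mul_nonneg h5 h4)
    _ = s * (2 * (1 / (2 * (k : ℝ) + 1)) * w ^ (2 * k + 1)) := by ring

theorem step {y s : ℝ} (hy : 1 / 2 ≤ y) (hs : 0 < s) (hs1 : s < 1) :
    log (Real.Gamma (y + 1 + s)) - log (Real.Gamma (y + 1)) - s * log (y + 1 - (1 - s) / 2) ≤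
      log (Real.Gamma (y + s)) - log (Real.Gamma y) - s * log (y - (1 - s) / 2) := by
  have hy0 : 0 < y := by linarith
  have hG1 : Real.Gamma (y + 1 + s) = (y + s) * Real.Gamma (y + s) := by
    rw [show y + 1 + s = (y + s) + 1 by ring, Real.Gamma_add_one (by positivity)]
  have hG2 : Real.Gamma (y + 1) = y * Real.Gamma y := Real.Gamma_add_one hy0.ne'
  have hp1 : 0 < Real.Gamma (y + s) := Real.Gamma_pos_of_pos (by positivity)
  have hp2 : 0 < Real.Gamma y := Real.Gamma_pos_of_pos hy0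
  rw [hG1, hG2, Real.log_mul (by positivity) hp1.ne', Real.log_mul hy0.ne' hp2.ne']
  have hz : 0 < y + s / 2 := by positivity
  have hzz : 1 < 2 * (y + s / 2) := by linarith
  have hkey := logineq (w := 1 / (2 * (y + s / 2))) (s := s) (by positivity)
    (by rw [div_lt_one (by positivity)]; exact hzz) hs.le hs1.le
  have hzne : (2 * (y + s / 2)) ≠ 0 := by positivity
  have e1 : 1 + s * (1 / (2 * (y + s / 2))) = (y + s) / (y + s / 2) := by
    field_simp
    ring
  have e2 : 1 - s * (1 / (2 * (y + s / 2))) = y / (y + s / 2) := by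
    field_simp
    ring
  have e3 : 1 + 1 / (2 * (y + s / 2)) = (y + 1 - (1 - s) / 2) / (y + s / 2) := by
    field_simp
    ring
  have e4 : 1 - 1 / (2 * (y + s / 2)) = (y - (1 - s) / 2) / (y + s / 2) := by
    field_simp
    ring
  have hpos : 0 < y - (1 - s) / 2 := by linarith
  rw [e1, e2, e3, e4, Real.log_div (by positivity) hz.ne', Real.log_div hy0.ne' hz.ne',
    Real.log_div (by linarith) hz.ne', Real.log_div hpos.ne' hz.ne'] at hkey
  linarith

theorem lower {y s : ℝ} (hy : 1 < y) (hs : 0 < s) (hs1 : s < 1) :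
    s * (log (y - 1) - log (y - (1 - s) / 2)) ≤
      log (Real.Gamma (y + s)) - log (Real.Gamma y) - s * log (y - (1 - s) / 2) := by
  have hc := Real.convexOn_log_Gamma
  have h := hc.slope_mono_adjacent (x := y - 1) (y := y) (z := y + s) (by simp; linarith)
    (by simp; linarith) (by linarith) (by linarith)
  simp only [Function.comp] at h
  have hG : Real.Gamma y = (y - 1) * Real.Gamma (y - 1) := by
    have := Real.Gamma_add_one (s := y - 1) (by linarith)
    rwa [sub_add_cancel] at this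
  have hp : 0 < Real.Gamma (y - 1) := Real.Gamma_pos_of_pos (by linarith)
  have h2 : log (Real.Gamma y) - log (Real.Gamma (y - 1)) = log (y - 1) := by
    rw [hG, Real.log_mul (by linarith) hp.ne']
    ring
  rw [h2] at h
  have e : y - (y - 1) = 1 := by ring
  have e' : y + s - y = s := by ring
  rw [e, e', div_one, le_div_iff₀ hs] at h
  linarith

theorem iter {x s : ℝ} (hx : 1 / 2 ≤ x) (hs : 0 < s) (hs1 : s < 1) (n : ℕ) :
    log (Real.Gamma (x + n + s)) - log (Real.Gamma (x + n)) - s * log (x + n - (1 - s) / 2) ≤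
      log (Real.Gamma (x + s)) - log (Real.Gamma x) - s * log (x - (1 - s) / 2) := by
  induction n with
  | zero => simp
  | succ n ih =>
    refine le_trans ?_ ih
    have := step (y := x + n) (s := s) (by have : (0:ℝ) ≤ n := n.cast_nonneg; linarith) hs hs1
    push_cast
    rw [← add_assoc]
    exact this

theorem main {x s : ℝ} (hx : 1 / 2 ≤ x) (hs : 0 < s) (hs1 : s < 1) :
    0 ≤ log (Real.Gamma (x + s)) - log (Real.Gamma x) - s * log (x - (1 - s) / 2) := by
  have hlim : Tendsto (fun n : ℕ => s * (log (x + n - 1) - log (x + n - (1 - s) / 2))) atTop (𝓝 0) := by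
    have h1 : Tendsto (fun n : ℕ => (x + n - 1) / (x + n - (1 - s) / 2)) atTop (𝓝 1) := by
      have h2 : Tendsto (fun n : ℕ => 1 - ((1 + s) / 2) / (x + n - (1 - s) / 2)) atTop (𝓝 (1 - 0)) := by
        refine tendsto_const_nhds.sub ?_
        refine Tendsto.div_atTop tendsto_const_nhds ?_
        refine tendsto_atTop_mono (f := fun n : ℕ => (n : ℝ)) (fun n => ?_) tendsto_natCast_atTop_atTop
        linarith
      rw [sub_zero] at h2
      refine h2.congr fun n => ?_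
      have : (0:ℝ) ≤ n := n.cast_nonneg
      have hne : x + n - (1 - s) / 2 ≠ 0 := by
        have : 0 < x + n - (1 - s) / 2 := by linarith
        exact this.ne'
      rw [eq_div_iff hne, sub_mul, div_mul_cancel₀ _ hne]
      ring
    have h3 := ((Real.continuousAt_log one_ne_zero).tendsto.comp h1).const_mul s
    rw [Real.log_one, mul_zero] at h3
    refine h3.congr' ?_
    filter_upwards [eventually_ge_atTop 1] with n hn
    have hn' : (1:ℝ) ≤ n := by exact_mod_cast hn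
    simp only [Function.comp]
    rw [Real.log_div (by linarith) (by linarith)]
  refine le_of_tendsto hlim ?_
  filter_upwards [eventually_ge_atTop 1] with n hn
  have hn' : (1:ℝ) ≤ n := by exact_mod_cast hn
  exact (lower (y := x + n) (by linarith) hs hs1).trans (iter hx hs hs1 n)

end kershaw_aux

theorem kershaw {x s : ℝ} (hx : 1 / 2 ≤ x) (hs : 0 ≤ s) (hs1 : s ≤ 1) :
    Real.Gamma x * (x - (1 - s) / 2) ^ s ≤ Real.Gamma (x + s) := by
  rcases hs.eq_or_lt with h0 | h0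
  · rw [← h0]
    simp
  rcases hs1.eq_or_lt with h1 | h1
  · rw [h1, Real.Gamma_add_one (by linarith)]
    simp [mul_comm]
  have h := kershaw_aux.main hx h0 h1
  have hx0 : 0 < x := by linarith
  have hp : 0 < Real.Gamma x := Real.Gamma_pos_of_pos hx0
  have hq : 0 < Real.Gamma (x + s) := Real.Gamma_pos_of_pos (by positivity)
  have hr : 0 < x - (1 - s) / 2 := by linarith
  rw [← Real.log_le_log_iff (by positivity) hq, Real.log_mul hp.ne' (by positivity), Real.log_rpow hr]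
  linarith

end

section

namespace gamma_lower_aux

/-- the auxiliary polynomial -/
noncomputable def r (s : ℝ) : ℝ :=
  2921 / 5000 - 1211 / 5000 * s + 711 / 5000 * s ^ 2 - 359 / 5000 * s ^ 3 + 187 / 10000 * s ^ 4

/-- the product `s (1 - s) r s`, expanded -/
noncomputable def q (s : ℝ) : ℝ :=
  2921 / 5000 * s - 1033 / 1250 * s ^ 2 + 961 / 2500 * s ^ 3 - 107 / 500 * s ^ 4 +
    181 / 2000 * s ^ 5 - 187 / 10000 * s ^ 6

noncomputable def q1 (s : ℝ) : ℝ :=
  2921 / 5000 - 1033 / 625 * s + 2883 / 2500 * s ^ 2 - 107 / 125 * s ^ 3 + 181 / 400 * s ^ 4 -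
    561 / 5000 * s ^ 5

noncomputable def q2 (s : ℝ) : ℝ :=
  -(1033 / 625) + 2883 / 1250 * s - 321 / 125 * s ^ 2 + 181 / 100 * s ^ 3 - 561 / 1000 * s ^ 4

theorem q_eq (s : ℝ) : q s = s * (1 - s) * r s := by
  unfold q r
  ring

theorem hasDeriv_q (s : ℝ) : HasDerivAt q (q1 s) s := by
  have h : HasDerivAt (fun s : ℝ => 2921 / 5000 * s - 1033 / 1250 * s ^ 2 + 961 / 2500 * s ^ 3 -
      107 / 500 * s ^ 4 + 181 / 2000 * s ^ 5 - 187 / 10000 * s ^ 6) _ s :=
    ((((((hasDerivAt_id s).const_mul (2921 / 5000)).sub ((hasDerivAt_pow 2 s).const_mul (1033 / 1250))).add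
      ((hasDerivAt_pow 3 s).const_mul (961 / 2500))).sub ((hasDerivAt_pow 4 s).const_mul (107 / 500))).add
      ((hasDerivAt_pow 5 s).const_mul (181 / 2000))).sub ((hasDerivAt_pow 6 s).const_mul (187 / 10000))
  refine h.congr_deriv ?_
  unfold q1
  norm_num
  ring

theorem hasDeriv_q1 (s : ℝ) : HasDerivAt q1 (q2 s) s := by
  have h : HasDerivAt (fun s : ℝ => 2921 / 5000 - 1033 / 625 * s + 2883 / 2500 * s ^ 2 -
      107 / 125 * s ^ 3 + 181 / 400 * s ^ 4 - 561 / 5000 * s ^ 5) _ s :=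
    ((((((hasDerivAt_const s (2921 / 5000 : ℝ)).sub ((hasDerivAt_id s).const_mul (1033 / 625))).add
      ((hasDerivAt_pow 2 s).const_mul (2883 / 2500))).sub ((hasDerivAt_pow 3 s).const_mul (107 / 125))).add
      ((hasDerivAt_pow 4 s).const_mul (181 / 400))).sub ((hasDerivAt_pow 5 s).const_mul (561 / 5000)))
  refine h.congr_deriv ?_
  unfold q2
  norm_num
  ring

/-- the function which is shown to be concave -/
noncomputable def d (s : ℝ) : ℝ :=
  s * Real.log ((9 + s) / 2) + Real.log 24 -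
    (Real.log (1 + s) + Real.log (2 + s) + Real.log (3 + s) + Real.log (4 + s)) + q s

noncomputable def d1 (s : ℝ) : ℝ :=
  Real.log ((9 + s) / 2) + s / (9 + s) -
    (1 / (1 + s) + 1 / (2 + s) + 1 / (3 + s) + 1 / (4 + s)) + q1 s

noncomputable def d2 (s : ℝ) : ℝ :=
  1 / (9 + s) + 9 / (9 + s) ^ 2 +
    (1 / (1 + s) ^ 2 + 1 / (2 + s) ^ 2 + 1 / (3 + s) ^ 2 + 1 / (4 + s) ^ 2) + q2 s

theorem hasDeriv_log (a : ℝ) {s : ℝ} (h : 0 < a + s) :
    HasDerivAt (fun s => Real.log (a + s)) (1 / (a + s)) s := by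
  have h1 : HasDerivAt (fun s : ℝ => a + s) 1 s := (hasDerivAt_id s).const_add a
  exact h1.log h.ne'

theorem hasDeriv_inv (a : ℝ) {s : ℝ} (h : 0 < a + s) :
    HasDerivAt (fun s => 1 / (a + s)) (-(1 / (a + s) ^ 2)) s := by
  have h1 : HasDerivAt (fun s : ℝ => a + s) 1 s := (hasDerivAt_id s).const_add a
  have h2 := h1.fun_inv h.ne'
  have h3 : (fun s : ℝ => 1 / (a + s)) = fun s => (a + s)⁻¹ := by
    funext s
    rw [one_div]
  rw [h3]
  refine h2.congr_deriv ?_
  ring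

theorem hasDeriv_logh {s : ℝ} (h : 0 < 9 + s) :
    HasDerivAt (fun s => Real.log ((9 + s) / 2)) (1 / (9 + s)) s := by
  have h1 : HasDerivAt (fun s : ℝ => (9 + s) / 2) (1 / 2) s :=
    ((hasDerivAt_id s).const_add 9).div_const 2
  have h2 := h1.log (by positivity : (9 + s) / 2 ≠ 0)
  refine h2.congr_deriv ?_
  field_simp

theorem hasDeriv_d {s : ℝ} (hs : 0 ≤ s) : HasDerivAt d (d1 s) s := by
  have h1 := (hasDerivAt_id s).fun_mul (hasDeriv_logh (s := s) (by linarith))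
  have h2 := (((hasDeriv_log 1 (s := s) (by linarith)).fun_add
    (hasDeriv_log 2 (s := s) (by linarith))).fun_add
    (hasDeriv_log 3 (s := s) (by linarith))).fun_add (hasDeriv_log 4 (s := s) (by linarith))
  have h3 := ((h1.add_const (Real.log 24)).fun_sub h2).fun_add (hasDeriv_q s)
  have h4 : HasDerivAt d _ s := h3
  refine h4.congr_deriv ?_
  unfold d1
  simp only [id]
  ring

theorem hasDeriv_d1 {s : ℝ} (hs : 0 ≤ s) : HasDerivAt d1 (d2 s) s := by
  have h1 := hasDeriv_logh (s := s) (by linarith)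
  have h0 : HasDerivAt (fun s : ℝ => 9 + s) 1 s := (hasDerivAt_id s).const_add 9
  have h2 := (hasDerivAt_id s).fun_div h0 (by positivity : (9 + s) ≠ 0)
  have h3 := (((hasDeriv_inv 1 (s := s) (by linarith)).fun_add
    (hasDeriv_inv 2 (s := s) (by linarith))).fun_add
    (hasDeriv_inv 3 (s := s) (by linarith))).fun_add (hasDeriv_inv 4 (s := s) (by linarith))
  have h4 := ((h1.fun_add h2).fun_sub h3).fun_add (hasDeriv_q1 s)
  have h5 : HasDerivAt d1 _ s := h4
  refine h5.congr_deriv ?_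
  unfold d2
  simp only [id]
  ring

/-- the numerator -/
theorem num_nonneg {s : ℝ} (hs : 0 ≤ s) (hs1 : s ≤ 1) :
    0 ≤ -((9 + s) * (1 + s) ^ 2 * (2 + s) ^ 2 * (3 + s) ^ 2 * (4 + s) ^ 2 +
      9 * ((1 + s) ^ 2 * (2 + s) ^ 2 * (3 + s) ^ 2 * (4 + s) ^ 2) +
      (9 + s) ^ 2 * ((2 + s) ^ 2 * (3 + s) ^ 2 * (4 + s) ^ 2 + (1 + s) ^ 2 * (3 + s) ^ 2 * (4 + s) ^ 2 +
        (1 + s) ^ 2 * (2 + s) ^ 2 * (4 + s) ^ 2 + (1 + s) ^ 2 * (2 + s) ^ 2 * (3 + s) ^ 2) +
      (9 + s) ^ 2 * (1 + s) ^ 2 * (2 + s) ^ 2 * (3 + s) ^ 2 * (4 + s) ^ 2 * q2 s) := by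
  obtain ⟨u, hu⟩ : ∃ u : ℝ, u = 1 - s := ⟨_, rfl⟩
  have hu0 : 0 ≤ u := by rw [hu]; linarith
  have key : -((9 + s) * (1 + s) ^ 2 * (2 + s) ^ 2 * (3 + s) ^ 2 * (4 + s) ^ 2 +
      9 * ((1 + s) ^ 2 * (2 + s) ^ 2 * (3 + s) ^ 2 * (4 + s) ^ 2) +
      (9 + s) ^ 2 * ((2 + s) ^ 2 * (3 + s) ^ 2 * (4 + s) ^ 2 + (1 + s) ^ 2 * (3 + s) ^ 2 * (4 + s) ^ 2 +
        (1 + s) ^ 2 * (2 + s) ^ 2 * (4 + s) ^ 2 + (1 + s) ^ 2 * (2 + s) ^ 2 * (3 + s) ^ 2) +
      (9 + s) ^ 2 * (1 + s) ^ 2 * (2 + s) ^ 2 * (3 + s) ^ 2 * (4 + s) ^ 2 * q2 s) =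
      203148 / 625 * (s ^ 0 * u ^ 14) +
      6242292 / 625 * (s ^ 1 * u ^ 13) +
      55683134 / 625 * (s ^ 2 * u ^ 12) +
      51884946 / 125 * (s ^ 3 * u ^ 11) +
      789166599 / 625 * (s ^ 4 * u ^ 10) +
      3637194697 / 1250 * (s ^ 5 * u ^ 9) +
      3489120542 / 625 * (s ^ 6 * u ^ 8) +
      896543031 / 100 * (s ^ 7 * u ^ 7) +
      56631337319 / 5000 * (s ^ 8 * u ^ 6) +
      6551363007 / 625 * (s ^ 9 * u ^ 5) +
      4183986714 / 625 * (s ^ 10 * u ^ 4) +
      349117236 / 125 * (s ^ 11 * u ^ 3) +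
      18298982 / 25 * (s ^ 12 * u ^ 2) +
      644432 / 5 * (s ^ 13 * u ^ 1) +
      16976 / 1 * (s ^ 14 * u ^ 0) := by
    rw [hu]
    unfold q2
    ring
  rw [key]
  positivity

theorem d2_nonpos {s : ℝ} (hs : 0 ≤ s) (hs1 : s ≤ 1) : d2 s ≤ 0 := by
  have h := num_nonneg hs hs1
  have h9 : 0 < 9 + s := by linarith
  have h1 : 0 < 1 + s := by linarith
  have h2 : 0 < 2 + s := by linarith
  have h3 : 0 < 3 + s := by linarith
  have h4 : 0 < 4 + s := by linarith
  have hden : 0 < (9 + s) ^ 2 * (1 + s) ^ 2 * (2 + s) ^ 2 * (3 + s) ^ 2 * (4 + s) ^ 2 := by positivity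
  have key : d2 s * ((9 + s) ^ 2 * (1 + s) ^ 2 * (2 + s) ^ 2 * (3 + s) ^ 2 * (4 + s) ^ 2) =
      (9 + s) * (1 + s) ^ 2 * (2 + s) ^ 2 * (3 + s) ^ 2 * (4 + s) ^ 2 +
      9 * ((1 + s) ^ 2 * (2 + s) ^ 2 * (3 + s) ^ 2 * (4 + s) ^ 2) +
      (9 + s) ^ 2 * ((2 + s) ^ 2 * (3 + s) ^ 2 * (4 + s) ^ 2 + (1 + s) ^ 2 * (3 + s) ^ 2 * (4 + s) ^ 2 +
        (1 + s) ^ 2 * (2 + s) ^ 2 * (4 + s) ^ 2 + (1 + s) ^ 2 * (2 + s) ^ 2 * (3 + s) ^ 2) +
      (9 + s) ^ 2 * (1 + s) ^ 2 * (2 + s) ^ 2 * (3 + s) ^ 2 * (4 + s) ^ 2 * q2 s := by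
    unfold d2
    field_simp
  by_contra hcon
  push Not at hcon
  have h5 := mul_pos hcon hden
  rw [key] at h5
  linarith

theorem d_nonneg {s : ℝ} (hs : 0 ≤ s) (hs1 : s ≤ 1) : 0 ≤ d s := by
  have hconc : ConcaveOn ℝ (Icc (0 : ℝ) 1) d := by
    refine concaveOn_of_hasDerivWithinAt2_nonpos (convex_Icc 0 1) (f' := d1) (f'' := d2) ?_ ?_ ?_ ?_
    · intro x hx
      exact (hasDeriv_d hx.1).continuousAt.continuousWithinAt
    · intro x hx
      rw [interior_Icc] at hx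
      exact (hasDeriv_d hx.1.le).hasDerivWithinAt
    · intro x hx
      rw [interior_Icc] at hx
      exact (hasDeriv_d1 hx.1.le).hasDerivWithinAt
    · intro x hx
      rw [interior_Icc] at hx
      exact d2_nonpos hx.1.le hx.2.le
  have h0 : d 0 = 0 := by
    unfold d q
    have e : Real.log 24 = Real.log 2 + Real.log 3 + Real.log 4 := by
      rw [← Real.log_mul (by norm_num) (by norm_num), ← Real.log_mul (by norm_num) (by norm_num)]
      norm_num
    rw [e]
    norm_num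
  have h1 : d 1 = 0 := by
    unfold d q
    have e : Real.log 24 = Real.log 2 + Real.log 3 + Real.log 4 := by
      rw [← Real.log_mul (by norm_num) (by norm_num), ← Real.log_mul (by norm_num) (by norm_num)]
      norm_num
    rw [e]
    have e2 : ((9 : ℝ) + 1) / 2 = 5 := by norm_num
    have e3 : (1 : ℝ) + 1 = 2 := by norm_num
    have e4 : (2 : ℝ) + 1 = 3 := by norm_num
    have e5 : (3 : ℝ) + 1 = 4 := by norm_num
    have e6 : (4 : ℝ) + 1 = 5 := by norm_num
    rw [e2, e3, e4, e5, e6]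
    ring
  have h := hconc.2 (left_mem_Icc.2 zero_le_one) (right_mem_Icc.2 zero_le_one)
    (sub_nonneg.2 hs1) hs (by ring)
  rw [h0, h1] at h
  simp only [smul_eq_mul, mul_zero, mul_one, zero_add, add_zero] at h
  exact h

theorem r_bounds {s : ℝ} (hs : 0 ≤ s) (hs1 : s ≤ 1) : 0 ≤ r s ∧ r s ≤ 1 := by
  have h2 : s ^ 2 ≤ 1 := pow_le_one₀ hs hs1
  have h3 : s ^ 3 ≤ 1 := pow_le_one₀ hs hs1
  have h4 : s ^ 4 ≤ 1 := pow_le_one₀ hs hs1
  have h2' : 0 ≤ s ^ 2 := by positivity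
  have h3' : 0 ≤ s ^ 3 := by positivity
  have h4' : 0 ≤ s ^ 4 := by positivity
  unfold r
  constructor
  · linarith
  · linarith

/-- the final polynomial inequality -/
theorem g_nonneg {s : ℝ} (hs : 0 ≤ s) (hs1 : s ≤ 1) :
    0 ≤ (147 / 250 - 8 / 25 * s + 21 / 125 * s ^ 2) - r s + s * (1 - s) * r s ^ 2 / 2 -
      2 / 9 * (s * (1 - s)) ^ 2 * r s ^ 3 := by
  obtain ⟨u, hu⟩ : ∃ u : ℝ, u = 1 - s := ⟨_, rfl⟩
  have hu0 : 0 ≤ u := by rw [hu]; linarith
  have key : (147 / 250 - 8 / 25 * s + 21 / 125 * s ^ 2) - r s + s * (1 - s) * r s ^ 2 / 2 -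
      2 / 9 * (s * (1 - s)) ^ 2 * r s ^ 3 =
      19 / 5000 * (s ^ 0 * u ^ 16) +
      7682241 / 50000000 * (s ^ 1 * u ^ 15) +
      853890334039 / 562500000000 * (s ^ 2 * u ^ 14) +
      482318331669 / 62500000000 * (s ^ 3 * u ^ 13) +
      1547307115009 / 62500000000 * (s ^ 4 * u ^ 12) +
      3431967004891 / 62500000000 * (s ^ 5 * u ^ 11) +
      11043253599399 / 125000000000 * (s ^ 6 * u ^ 10) +
      6615326840187 / 62500000000 * (s ^ 7 * u ^ 9) +
      11967035041791 / 125000000000 * (s ^ 8 * u ^ 8) +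
      8227588731973 / 125000000000 * (s ^ 9 * u ^ 7) +
      8653647778201 / 250000000000 * (s ^ 10 * u ^ 6) +
      3540390231987 / 250000000000 * (s ^ 11 * u ^ 5) +
      293991782417 / 62500000000 * (s ^ 12 * u ^ 4) +
      5251264943 / 3906250000 * (s ^ 13 * u ^ 3) +
      163273273641 / 500000000000 * (s ^ 14 * u ^ 2) +
      11384721 / 200000000 * (s ^ 15 * u ^ 1) +
      49 / 10000 * (s ^ 16 * u ^ 0) := by
    rw [hu]
    unfold r
    ring
  rw [key]
  positivity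

theorem exp_lower {w : ℝ} (hw : 0 ≤ w) (hw1 : w ≤ 1) :
    1 - w + w ^ 2 / 2 - 2 / 9 * w ^ 3 ≤ Real.exp (-w) := by
  have h := Real.exp_bound (x := -w) (by rw [abs_neg, abs_of_nonneg hw]; exact hw1)
    (show 0 < 3 by norm_num)
  rw [abs_neg, abs_of_nonneg hw] at h
  have h1 := (abs_le.1 h).1
  simp only [Finset.sum_range_succ, Finset.sum_range_zero, Nat.factorial] at h1
  norm_num at h1
  nlinarith

end gamma_lower_aux

theorem gamma_lower {s : ℝ} (hs : 0 ≤ s) (hs1 : s ≤ 1) :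
    1 - s * (1 - s) * (0.588 - 0.32 * s + 0.168 * s ^ 2) ≤ Real.Gamma (1 + s) := by
  have hk := kershaw (x := 5) (s := s) (by norm_num) hs hs1
  have hG5 : Real.Gamma 5 = 24 := by
    have h := Real.Gamma_nat_eq_factorial 4
    have h4 : ((4 : ℕ) : ℝ) + 1 = 5 := by norm_num
    rw [h4] at h
    rw [h]
    norm_num [Nat.factorial]
  have hfun : Real.Gamma (5 + s) = (4 + s) * ((3 + s) * ((2 + s) * ((1 + s) * Real.Gamma (1 + s)))) := by
    have e1 := Real.Gamma_add_one (s := 4 + s) (by positivity)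
    have e2 := Real.Gamma_add_one (s := 3 + s) (by positivity)
    have e3 := Real.Gamma_add_one (s := 2 + s) (by positivity)
    have e4 := Real.Gamma_add_one (s := 1 + s) (by positivity)
    have f1 : (4 + s) + 1 = 5 + s := by ring
    have f2 : (3 + s) + 1 = 4 + s := by ring
    have f3 : (2 + s) + 1 = 3 + s := by ring
    have f4 : (1 + s) + 1 = 2 + s := by ring
    rw [f1] at e1
    rw [f2] at e2
    rw [f3] at e3
    rw [f4] at e4
    rw [e1, e2, e3, e4]
  have hbase : (5 : ℝ) - (1 - s) / 2 = (9 + s) / 2 := by ring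
  rw [hG5, hfun, hbase] at hk
  have hb0 : 0 < (9 + s) / 2 := by positivity
  have hd := gamma_lower_aux.d_nonneg hs hs1
  have h1 : 0 < 1 + s := by linarith
  have h2 : 0 < 2 + s := by linarith
  have h3 : 0 < 3 + s := by linarith
  have h4 : 0 < 4 + s := by linarith
  have hP : 0 < (1 + s) * (2 + s) * (3 + s) * (4 + s) := by positivity
  -- `24 ((9+s)/2)^s = P exp (h)`
  have hexp : 24 * ((9 + s) / 2) ^ s = ((1 + s) * (2 + s) * (3 + s) * (4 + s)) *
      Real.exp (gamma_lower_aux.d s - gamma_lower_aux.q s) := by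
    have e1 : gamma_lower_aux.d s - gamma_lower_aux.q s =
        Real.log ((9 + s) / 2) * s + (Real.log 24 -
          Real.log ((1 + s) * (2 + s) * (3 + s) * (4 + s))) := by
      unfold gamma_lower_aux.d
      rw [Real.log_mul (by positivity) h4.ne', Real.log_mul (by positivity) h3.ne',
        Real.log_mul h1.ne' h2.ne']
      ring
    rw [e1, Real.exp_add, Real.exp_sub, Real.exp_log (by norm_num), Real.exp_log hP,
      Real.rpow_def_of_pos hb0]
    field_simp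
  have hGe : Real.exp (gamma_lower_aux.d s - gamma_lower_aux.q s) ≤ Real.Gamma (1 + s) := by
    rw [hexp] at hk
    have : (1 + s) * (2 + s) * (3 + s) * (4 + s) *
        Real.exp (gamma_lower_aux.d s - gamma_lower_aux.q s) ≤
        (1 + s) * (2 + s) * (3 + s) * (4 + s) * Real.Gamma (1 + s) := by
      calc (1 + s) * (2 + s) * (3 + s) * (4 + s) *
          Real.exp (gamma_lower_aux.d s - gamma_lower_aux.q s) ≤
          (4 + s) * ((3 + s) * ((2 + s) * ((1 + s) * Real.Gamma (1 + s)))) := hk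
        _ = _ := by ring
    exact le_of_mul_le_mul_left this hP
  have hexp2 : Real.exp (-(gamma_lower_aux.q s)) ≤
      Real.exp (gamma_lower_aux.d s - gamma_lower_aux.q s) := by
    apply Real.exp_le_exp.2
    linarith
  obtain ⟨hr0, hr1⟩ := gamma_lower_aux.r_bounds hs hs1
  have ht0 : 0 ≤ s * (1 - s) := mul_nonneg hs (sub_nonneg.2 hs1)
  have ht1 : s * (1 - s) ≤ 1 := by nlinarith
  have hq0 : 0 ≤ gamma_lower_aux.q s := by
    rw [gamma_lower_aux.q_eq]
    exact mul_nonneg ht0 hr0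
  have hq1 : gamma_lower_aux.q s ≤ 1 := by
    rw [gamma_lower_aux.q_eq]
    exact mul_le_one₀ ht1 hr0 hr1
  have hlow := gamma_lower_aux.exp_lower hq0 hq1
  have hg := mul_nonneg ht0 (gamma_lower_aux.g_nonneg hs hs1)
  rw [gamma_lower_aux.q_eq] at hlow hexp2
  have hfin : 1 - s * (1 - s) * (0.588 - 0.32 * s + 0.168 * s ^ 2) ≤
      1 - s * (1 - s) * gamma_lower_aux.r s + (s * (1 - s) * gamma_lower_aux.r s) ^ 2 / 2 -
        2 / 9 * (s * (1 - s) * gamma_lower_aux.r s) ^ 3 := by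
    have e : 1 - s * (1 - s) * gamma_lower_aux.r s + (s * (1 - s) * gamma_lower_aux.r s) ^ 2 / 2 -
        2 / 9 * (s * (1 - s) * gamma_lower_aux.r s) ^ 3 -
        (1 - s * (1 - s) * (0.588 - 0.32 * s + 0.168 * s ^ 2)) =
        s * (1 - s) * ((147 / 250 - 8 / 25 * s + 21 / 125 * s ^ 2) - gamma_lower_aux.r s +
          s * (1 - s) * gamma_lower_aux.r s ^ 2 / 2 -
          2 / 9 * (s * (1 - s)) ^ 2 * gamma_lower_aux.r s ^ 3) := by
      ring
    linarith
  rw [gamma_lower_aux.q_eq] at hGe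
  linarith

end

end H618KS
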