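import Pool.Agent.Helper618_KS.Defs
import Pool.Agent.Helper618_KS.Gam

/-!
Part `NumA` of the proof for MP_237b21_an.
-/

open MeasureTheory Filter Topology Set Real
open scoped ENNReal NNReal

set_option autoImplicit false

namespace H618KS

section

namespace mu_ge9_aux

lemma two_le {m : ℝ} (hm : 9 ≤ m) : 2 ≤ (1 + 2 / m) ^ (m / 2 - 1) := by
  have hm0 : 0 < m := by linarith
  have h1 : 2 * (2 / m) / (2 / m + 2) ≤ Real.log (1 + 2 / m) :=
    Real.le_log_one_add_of_nonneg (by positivity)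
  have h2 : 2 * (2 / m) / (2 / m + 2) = 2 / (m + 1) := by
    field_simp
    ring
  rw [h2] at h1
  have h3 : (0 : ℝ) < 1 + 2 / m := by positivity
  rw [← Real.log_le_log_iff (by norm_num) (Real.rpow_pos_of_pos h3 _), Real.log_rpow h3]
  have h4 : 0 ≤ m / 2 - 1 := by linarith
  have h5 : (m / 2 - 1) * (2 / (m + 1)) ≤ (m / 2 - 1) * Real.log (1 + 2 / m) :=
    mul_le_mul_of_nonneg_left h1 h4
  have h6 : (7 / 10 : ℝ) ≤ (m / 2 - 1) * (2 / (m + 1)) := by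
    rw [← mul_div_assoc, le_div_iff₀ (by linarith)]
    linarith
  have h7 := Real.log_two_lt_d9
  norm_num at h7
  linarith

lemma step {m : ℝ} (hm : 9 ≤ m) (h : 0.65 * Real.Gamma (m / 2) ≤ (m / 4) ^ (m / 2 - 2)) :
    0.65 * Real.Gamma ((m + 2) / 2) ≤ ((m + 2) / 4) ^ ((m + 2) / 2 - 2) := by
  have hm0 : 0 < m := by linarith
  have h1 : (m + 2) / 2 = m / 2 + 1 := by ring
  rw [h1, Real.Gamma_add_one (by positivity)]
  have h2 : (m + 2) / 4 = (1 + 2 / m) * (m / 4) := by field_simp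
  have h3 : m / 2 + 1 - 2 = m / 2 - 1 := by ring
  rw [h2, h3, Real.mul_rpow (by positivity) (by positivity)]
  have h4 : (m / 4) ^ (m / 2 - 1) = (m / 4) * (m / 4) ^ (m / 2 - 2) := by
    have : m / 2 - 1 = 1 + (m / 2 - 2) := by ring
    rw [this, Real.rpow_add (by positivity), Real.rpow_one]
  rw [h4]
  have h5 := two_le hm
  have h6 : 0 < (m / 4) ^ (m / 2 - 2) := Real.rpow_pos_of_pos (by positivity) _
  calc 0.65 * (m / 2 * Real.Gamma (m / 2)) = (m / 2) * (0.65 * Real.Gamma (m / 2)) := by ring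
    _ ≤ (m / 2) * (m / 4) ^ (m / 2 - 2) := by gcongr
    _ = 2 * (m / 4 * (m / 4) ^ (m / 2 - 2)) := by ring
    _ ≤ (1 + 2 / m) ^ (m / 2 - 1) * (m / 4 * (m / 4) ^ (m / 2 - 2)) := by gcongr

lemma base9 : 0.65 * Real.Gamma ((9 : ℝ) / 2) ≤ ((9 : ℝ) / 4) ^ ((9 : ℝ) / 2 - 2) := by
  have e1 : Real.Gamma ((9 : ℝ) / 2) = 105 / 16 * √π := by
    have a1 : Real.Gamma ((9 : ℝ) / 2) = 7 / 2 * Real.Gamma (7 / 2) := by
      have : (9 : ℝ) / 2 = 7 / 2 + 1 := by norm_num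
      rw [this, Real.Gamma_add_one (by norm_num)]
    have a2 : Real.Gamma ((7 : ℝ) / 2) = 5 / 2 * Real.Gamma (5 / 2) := by
      have : (7 : ℝ) / 2 = 5 / 2 + 1 := by norm_num
      rw [this, Real.Gamma_add_one (by norm_num)]
    have a3 : Real.Gamma ((5 : ℝ) / 2) = 3 / 2 * Real.Gamma (3 / 2) := by
      have : (5 : ℝ) / 2 = 3 / 2 + 1 := by norm_num
      rw [this, Real.Gamma_add_one (by norm_num)]
    have a4 : Real.Gamma ((3 : ℝ) / 2) = 1 / 2 * Real.Gamma (1 / 2) := by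
      have : (3 : ℝ) / 2 = 1 / 2 + 1 := by norm_num
      rw [this, Real.Gamma_add_one (by norm_num)]
    rw [a1, a2, a3, a4, Real.Gamma_one_half_eq]
    ring
  have e2 : ((9 : ℝ) / 4) ^ ((9 : ℝ) / 2 - 2) = 243 / 32 := by
    have h1 : (9 : ℝ) / 4 = (3 / 2) ^ (2 : ℝ) := by norm_num
    rw [h1, ← Real.rpow_mul (by norm_num)]
    have h2 : (2 : ℝ) * (9 / 2 - 2) = ((5 : ℕ) : ℝ) := by norm_num
    rw [h2, Real.rpow_natCast]
    norm_num
  rw [e1, e2]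
  have h3 : √π ≤ 1.775 := by
    rw [Real.sqrt_le_left (by norm_num)]
    have := Real.pi_lt_d2
    norm_num at this ⊢
    linarith
  norm_num at h3 ⊢
  linarith

lemma base10 : 0.65 * Real.Gamma ((10 : ℝ) / 2) ≤ ((10 : ℝ) / 4) ^ ((10 : ℝ) / 2 - 2) := by
  have e1 : Real.Gamma ((10 : ℝ) / 2) = 24 := by
    have : (10 : ℝ) / 2 = ((4 : ℕ) : ℝ) + 1 := by norm_num
    rw [this, Real.Gamma_nat_eq_factorial]
    norm_num [Nat.factorial]
  have e2 : ((10 : ℝ) / 4) ^ ((10 : ℝ) / 2 - 2) = 125 / 8 := by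
    have h2 : (10 : ℝ) / 2 - 2 = ((3 : ℕ) : ℝ) := by norm_num
    rw [h2, Real.rpow_natCast]
    norm_num
  rw [e1, e2]
  norm_num

end mu_ge9_aux

theorem mu_ge9 {m : ℕ} (hm : 9 ≤ m) :
    0.65 * Real.Gamma ((m : ℝ) / 2) ≤ ((m : ℝ) / 4) ^ ((m : ℝ) / 2 - 2) := by
  induction m using Nat.strong_induction_on with
  | _ m ih =>
    rcases Nat.lt_or_ge m 11 with h | h
    · interval_cases m
      · exact_mod_cast mu_ge9_aux.base9
      · exact_mod_cast mu_ge9_aux.base10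
    · obtain ⟨k, rfl⟩ : ∃ k, m = k + 2 := ⟨m - 2, by omega⟩
      have hk := ih k (by omega) (by omega)
      have h9 : (9 : ℝ) ≤ (k : ℝ) := by
        have : 9 ≤ k := by omega
        exact_mod_cast this
      have := mu_ge9_aux.step h9 hk
      push_cast
      exact this

end

section

namespace num_ge9_aux
theorem exp81 : Real.exp 0.81 ≤ 9 / 4 := by
  have h := Real.exp_bound' (x := (0.81 : ℝ)) (by norm_num) (by norm_num) (n := 7) (by norm_num)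
  refine le_trans h ?_
  norm_num [Finset.sum_range_succ, Nat.factorial]

theorem log94 : (0.81 : ℝ) ≤ Real.log (9 / 4) := by
  rw [Real.le_log_iff_exp_le (by norm_num)]
  exact exp81

theorem rpow94 {s : ℝ} (hs1 : s ≤ 1) :
    1 + 0.81 * (1 - s) + (0.81 * (1 - s)) ^ 2 / 2 ≤ (9 / 4 : ℝ) ^ (1 - s) := by
  have hu : 0 ≤ 1 - s := by linarith
  have hx : 0 ≤ 0.81 * (1 - s) := by positivity
  have h1 := Real.quadratic_le_exp_of_nonneg hx
  refine le_trans h1 ?_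
  rw [Real.rpow_def_of_pos (by norm_num)]
  apply Real.exp_le_exp.mpr
  exact mul_le_mul_of_nonneg_right log94 hu

theorem poly {s : ℝ} (hs : 0 ≤ s) (hs1 : s ≤ 1) :
    1 - 25 / 324 * s * (7 - 2 * s) ≤ 0.65 * ((1 + 0.81 * (1 - s) + (0.81 * (1 - s)) ^ 2 / 2) *
      (1 - s * (1 - s) * (0.588 - 0.32 * s + 0.168 * s ^ 2))) := by
  have hu : 0 ≤ 1 - s := by linarith
  have h0 : 0 ≤ (1 - s) ^ 6 := by positivity
  have h1 : 0 ≤ s * (1 - s) ^ 5 := by positivity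
  have h2 : 0 ≤ s ^ 2 * (1 - s) ^ 4 := by positivity
  have h3 : 0 ≤ s ^ 3 * (1 - s) ^ 3 := by positivity
  have h4 : 0 ≤ s ^ 4 * (1 - s) ^ 2 := by positivity
  have h5 : 0 ≤ s ^ 5 * (1 - s) := by positivity
  have h6 : 0 ≤ s ^ 6 := by positivity
  nlinarith [h0, h1, h2, h3, h4, h5, h6]

theorem gamma_ge {s : ℝ} (hs : 0 ≤ s) (hs1 : s ≤ 1) : (0.85 : ℝ) ≤ Real.Gamma (1 + s) := by
  have h := gamma_lower hs hs1
  have h1 : s * (1 - s) ≤ 1 / 4 := by nlinarith [sq_nonneg (s - 1 / 2)]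
  have h2 : 0.588 - 0.32 * s + 0.168 * s ^ 2 ≤ 0.588 := by nlinarith
  have h3 : 0 ≤ s * (1 - s) := mul_nonneg hs (by linarith)
  have h4 : 0 ≤ 0.588 - 0.32 * s + 0.168 * s ^ 2 := by nlinarith
  nlinarith

theorem mu_eq {m : ℕ} (hm : 9 ≤ m) {q s : ℝ} (hs : q = m - 2 - 2 * s) :
    2 ^ (-(q / 2)) * Cinf m q = ((m : ℝ) / 4) ^ ((m : ℝ) / 2 - 2) * ((m : ℝ) / 4) ^ (1 - s) *
      Real.Gamma (1 + s) / Real.Gamma ((m : ℝ) / 2) := by
  have hM : (9 : ℝ) ≤ m := by exact_mod_cast hm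
  have e1 : ((m : ℝ) - q) / 2 = 1 + s := by rw [hs]; ring
  have e2 : (2 : ℝ) ^ (-(q / 2)) * ((m : ℝ) / 2) ^ (q / 2) = ((m : ℝ) / 4) ^ (q / 2) := by
    rw [Real.rpow_neg (by norm_num), inv_mul_eq_div, ← Real.div_rpow (by positivity) (by norm_num)]
    congr 1
    ring
  have e3 : ((m : ℝ) / 4) ^ (q / 2) = ((m : ℝ) / 4) ^ ((m : ℝ) / 2 - 2) * ((m : ℝ) / 4) ^ (1 - s) := by
    rw [← Real.rpow_add (by positivity)]
    congr 1
    rw [hs]; ring
  unfold Cinf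
  rw [e1, ← e3, ← e2]
  ring

theorem mu_ge {m : ℕ} (hm : 9 ≤ m) {q s : ℝ} (hs : q = m - 2 - 2 * s) (h0 : 0 ≤ s) (h1 : s ≤ 1) :
    0.65 * ((9 / 4 : ℝ) ^ (1 - s) * Real.Gamma (1 + s)) ≤ 2 ^ (-(q / 2)) * Cinf m q := by
  have hM : (9 : ℝ) ≤ m := by exact_mod_cast hm
  rw [mu_eq hm hs]
  have hG : 0 < Real.Gamma ((m : ℝ) / 2) := Real.Gamma_pos_of_pos (by positivity)
  have hG1 : 0 < Real.Gamma (1 + s) := Real.Gamma_pos_of_pos (by linarith)
  rw [le_div_iff₀ hG]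
  have h2 := mu_ge9 hm
  have h3 : (9 / 4 : ℝ) ^ (1 - s) ≤ ((m : ℝ) / 4) ^ (1 - s) :=
    Real.rpow_le_rpow (by norm_num) (by linarith) (by linarith)
  have h4 : 0 ≤ (9 / 4 : ℝ) ^ (1 - s) := by positivity
  calc 0.65 * ((9 / 4 : ℝ) ^ (1 - s) * Real.Gamma (1 + s)) * Real.Gamma ((m : ℝ) / 2)
      = (0.65 * Real.Gamma ((m : ℝ) / 2)) * (9 / 4 : ℝ) ^ (1 - s) * Real.Gamma (1 + s) := by ring
    _ ≤ ((m : ℝ) / 4) ^ ((m : ℝ) / 2 - 2) * ((m : ℝ) / 4) ^ (1 - s) * Real.Gamma (1 + s) := by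
      apply mul_le_mul_of_nonneg_right _ hG1.le
      exact mul_le_mul h2 h3 h4 (by positivity)
end num_ge9_aux

theorem num_ge9 {m : ℕ} (hm : 9 ≤ m) {q : ℝ} (hq1 : (m : ℝ) - 4 < q) (hq2 : q < m - 2) :
    1 ≤ 2 ^ (-(q / 2)) * Cinf m q * (1 + q / 4) ∧
      1 - al m q * (3 / 4 - 1 / (2 * m)) ≤ 2 ^ (-(q / 2)) * Cinf m q := by
  have hM : (9 : ℝ) ≤ m := by exact_mod_cast hm
  obtain ⟨s, hs⟩ : ∃ s : ℝ, s = ((m : ℝ) - q - 2) / 2 := ⟨_, rfl⟩
  have hs0 : 0 ≤ s := by rw [hs]; linarith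
  have hs1 : s ≤ 1 := by rw [hs]; linarith
  have hq : q = m - 2 - 2 * s := by rw [hs]; ring
  have hmu := num_ge9_aux.mu_ge hm hq hs0 hs1
  have hG := num_ge9_aux.gamma_ge hs0 hs1
  have hr := num_ge9_aux.rpow94 hs1
  have hu : 0 ≤ 1 - s := by linarith
  have hr1 : 1 ≤ (9 / 4 : ℝ) ^ (1 - s) := by
    refine le_trans ?_ hr
    nlinarith
  have hGl := gamma_lower hs0 hs1
  constructor
  · have h1 : (9 : ℝ) / 4 ≤ 1 + q / 4 := by rw [hq]; linarith
    have h2 : (0.85 : ℝ) ≤ (9 / 4 : ℝ) ^ (1 - s) * Real.Gamma (1 + s) := by nlinarith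
    have h3 : (0.5525 : ℝ) ≤ 2 ^ (-(q / 2)) * Cinf m q := by linarith
    nlinarith
  · refine le_trans ?_ hmu
    have h1 : 1 - 25 / 324 * s * (7 - 2 * s) ≤
        0.65 * ((9 / 4 : ℝ) ^ (1 - s) * Real.Gamma (1 + s)) := by
      refine le_trans (num_ge9_aux.poly hs0 hs1) ?_
      apply mul_le_mul_of_nonneg_left _ (by norm_num)
      apply mul_le_mul hr hGl
      · have h3 : 0 ≤ s * (1 - s) := mul_nonneg hs0 hu
        have h4 : s * (1 - s) ≤ 1 / 4 := by nlinarith [sq_nonneg (s - 1 / 2)]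
        have h5 : 0.588 - 0.32 * s + 0.168 * s ^ 2 ≤ 0.588 := by nlinarith
        have h6 : 0 ≤ 0.588 - 0.32 * s + 0.168 * s ^ 2 := by nlinarith
        nlinarith
      · linarith
    refine le_trans ?_ h1
    have hmpos : (0 : ℝ) < m := by linarith
    have hal : s * (7 - 2 * s) / 9 ≤ al m q := by
      unfold al
      rw [div_le_div_iff₀ (by norm_num) (by positivity)]
      rw [hq]
      nlinarith [mul_nonneg hs0 (by linarith : (0 : ℝ) ≤ m - 9), mul_nonneg hs0 hs0,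
        mul_nonneg (mul_nonneg hs0 hs0) (by linarith : (0 : ℝ) ≤ m - 9)]
    have hc : (25 : ℝ) / 36 ≤ 3 / 4 - 1 / (2 * m) := by
      have : 1 / (2 * (m : ℝ)) ≤ 1 / 18 := by
        apply one_div_le_one_div_of_le (by norm_num); linarith
      linarith
    have h7 : 0 ≤ s * (7 - 2 * s) / 9 := by
      have : 0 ≤ s * (7 - 2 * s) := mul_nonneg hs0 (by linarith)
      positivity
    have h8 : s * (7 - 2 * s) / 9 * (25 / 36) ≤ al m q * (3 / 4 - 1 / (2 * m)) :=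
      mul_le_mul hal hc (by norm_num) (le_trans h7 hal)
    linarith

end

section

namespace num_8_aux

theorem mu_eq {s : ℝ} : (2 : ℝ) ^ (-((6 - 2 * s) / 2)) * Cinf 8 (6 - 2 * s) =
    2 / 3 * Real.exp ((1 - s) * Real.log 2) * Real.Gamma (1 + s) := by
  have h2 : (0 : ℝ) < 2 := by norm_num
  have h4 : Real.Gamma (((8 : ℕ) : ℝ) / 2) = 6 := by
    have : ((8 : ℕ) : ℝ) / 2 = ((3 : ℕ) : ℝ) + 1 := by norm_num
    rw [this, Real.Gamma_nat_eq_factorial]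
    norm_num [Nat.factorial]
  unfold Cinf
  rw [h4]
  have e1 : (((8 : ℕ) : ℝ) - (6 - 2 * s)) / 2 = 1 + s := by push_cast; ring
  have e2 : ((8 : ℕ) : ℝ) / 2 = (2 : ℝ) ^ (2 : ℝ) := by norm_num
  rw [e1, e2, ← Real.rpow_mul h2.le]
  have e3 : (2 : ℝ) ^ (-((6 - 2 * s) / 2)) * ((2 : ℝ) ^ (2 * ((6 - 2 * s) / 2)) *
      Real.Gamma (1 + s) / 6) =
      ((2 : ℝ) ^ (-((6 - 2 * s) / 2)) * (2 : ℝ) ^ (2 * ((6 - 2 * s) / 2))) *
        Real.Gamma (1 + s) / 6 := by ring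
  rw [e3, ← Real.rpow_add h2]
  have e4 : -((6 - 2 * s) / 2) + 2 * ((6 - 2 * s) / 2) = (1 - s) + 2 := by ring
  rw [e4, Real.rpow_add h2, Real.rpow_def_of_pos h2 (1 - s), mul_comm (Real.log 2) (1 - s)]
  norm_num
  ring

theorem exp_lower {t : ℝ} (ht : 0 ≤ t) :
    1 + 0.6931 * t + (0.6931 * t) ^ 2 / 2 + (0.6931 * t) ^ 3 / 6 ≤
      Real.exp (t * Real.log 2) := by
  have h1 := Real.log_two_gt_d9
  have h2 : 0.6931 * t ≤ t * Real.log 2 := by nlinarith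
  refine le_trans ?_ (Real.exp_le_exp.mpr h2)
  have h3 := Real.sum_le_exp_of_nonneg (x := 0.6931 * t) (by positivity) 4
  refine le_trans (le_of_eq ?_) h3
  simp only [Finset.sum_range_succ, Finset.sum_range_zero, Nat.factorial]
  norm_num

end num_8_aux

theorem num_8 {q : ℝ} (hq1 : 4 < q) (hq2 : q < 6) :
    1 ≤ 2 ^ (-(q / 2)) * Cinf 8 q * (1 + q / 4) ∧
      1 - al 8 q + 5 / 4 * 0.094 ≤ 2 ^ (-(q / 2)) * Cinf 8 q := by
  obtain ⟨s, hs⟩ : ∃ s : ℝ, s = (6 - q) / 2 := ⟨_, rfl⟩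
  have hq : q = 6 - 2 * s := by rw [hs]; ring
  have hs0 : 0 < s := by rw [hs]; linarith
  have hs1 : s < 1 := by rw [hs]; linarith
  have hmu := num_8_aux.mu_eq (s := s)
  rw [← hq] at hmu
  rw [hmu]
  set t : ℝ := 1 - s with ht
  have ht0 : 0 < t := by rw [ht]; linarith
  have ht1 : t < 1 := by rw [ht]; linarith
  have hst : s = 1 - t := by rw [ht]; ring
  have hG := gamma_lower hs0.le hs1.le
  have hE := num_8_aux.exp_lower ht0.le
  have hG' : 1 - t * (1 - t) * (0.436 - 0.016 * t + 0.168 * t ^ 2) ≤ Real.Gamma (1 + s) := by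
    refine le_trans (le_of_eq ?_) hG
    rw [hst]; ring
  have hh : 0 < 0.436 - 0.016 * t + 0.168 * t ^ 2 := by nlinarith
  have hh' : 0.436 - 0.016 * t + 0.168 * t ^ 2 ≤ 0.588 := by nlinarith
  have htt : t * (1 - t) ≤ 1 / 4 := by nlinarith [sq_nonneg (t - 1 / 2)]
  have htt0 : 0 ≤ t * (1 - t) := mul_nonneg ht0.le (by linarith)
  have hGlow : 0.853 ≤ 1 - t * (1 - t) * (0.436 - 0.016 * t + 0.168 * t ^ 2) := by
    have : t * (1 - t) * (0.436 - 0.016 * t + 0.168 * t ^ 2) ≤ 1 / 4 * 0.588 :=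
      mul_le_mul htt hh' hh.le (by norm_num)
    linarith
  constructor
  · have h1 : 1 ≤ Real.exp (t * Real.log 2) := by
      refine le_trans ?_ hE
      have : 0 ≤ 0.6931 * t + (0.6931 * t) ^ 2 / 2 + (0.6931 * t) ^ 3 / 6 := by positivity
      linarith
    have h2 : 0.853 ≤ Real.Gamma (1 + s) := hGlow.trans hG'
    have h3 : 2 ≤ 1 + q / 4 := by linarith
    have h4 : 0.853 ≤ Real.exp (t * Real.log 2) * Real.Gamma (1 + s) := by
      nlinarith
    have h5 : 0.853 * 2 ≤ Real.exp (t * Real.log 2) * Real.Gamma (1 + s) * (1 + q / 4) :=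
      mul_le_mul h4 h3 (by norm_num) (by positivity)
    calc (1 : ℝ) ≤ 2 / 3 * (0.853 * 2) := by norm_num
      _ ≤ 2 / 3 * (Real.exp (t * Real.log 2) * Real.Gamma (1 + s) * (1 + q / 4)) :=
          mul_le_mul_of_nonneg_left h5 (by norm_num)
      _ = _ := by ring
  · have hal : al 8 q = s * (3 - s) / 4 := by
      unfold al
      rw [hq]; push_cast; ring
    rw [hal]
    have hE0 : 0 < 1 + 0.6931 * t + (0.6931 * t) ^ 2 / 2 + (0.6931 * t) ^ 3 / 6 := by positivity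
    have h1 : (1 + 0.6931 * t + (0.6931 * t) ^ 2 / 2 + (0.6931 * t) ^ 3 / 6) *
        (1 - t * (1 - t) * (0.436 - 0.016 * t + 0.168 * t ^ 2)) ≤
        Real.exp (t * Real.log 2) * Real.Gamma (1 + s) :=
      mul_le_mul hE hG' (by linarith) (Real.exp_pos _).le
    have h2 : 1 - s * (3 - s) / 4 + 5 / 4 * 0.094 ≤
        2 / 3 * ((1 + 0.6931 * t + (0.6931 * t) ^ 2 / 2 + (0.6931 * t) ^ 3 / 6) *
        (1 - t * (1 - t) * (0.436 - 0.016 * t + 0.168 * t ^ 2))) := by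
      rw [hst]
      have key : 0 ≤ 2 / 3 * ((1 + 0.6931 * t + (0.6931 * t) ^ 2 / 2 + (0.6931 * t) ^ 3 / 6) *
          (1 - t * (1 - t) * (0.436 - 0.016 * t + 0.168 * t ^ 2))) -
          (1 - (1 - t) * (3 - (1 - t)) / 4 + 5 / 4 * 0.094) := by
        have h3 : 0 ≤ 0.049 - 0.0786 * t + 0.01 * t ^ 2 + 0.053 * t ^ 3 + 0.083 * t ^ 4 := by
          nlinarith [sq_nonneg (t - 1 / 2), sq_nonneg (t ^ 2 - 1 / 4), sq_nonneg (t ^ 2 - t / 2),
            pow_pos ht0 3, mul_pos ht0 ht0]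
        have h5 : 0 < t ^ 5 := by positivity
        have h6 : 0 < t ^ 6 := by positivity
        have h7 : 0 < t ^ 7 := by positivity
        have h8 : 0 < t ^ 4 := by positivity
        have h9 : 0 < t ^ 3 := by positivity
        have h10 : 0 < t ^ 2 := by positivity
        nlinarith
      linarith
    calc 1 - s * (3 - s) / 4 + 5 / 4 * 0.094 ≤ _ := h2
      _ ≤ 2 / 3 * (Real.exp (t * Real.log 2) * Real.Gamma (1 + s)) :=
          mul_le_mul_of_nonneg_left h1 (by norm_num)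
      _ = _ := by ring

end

section

namespace num_7_aux

theorem log_lower : (0.5596 : ℝ) ≤ Real.log (7 / 4) := by
  rw [Real.le_log_iff_exp_le (by norm_num)]
  have h := Real.exp_bound' (x := 0.5596) (by norm_num) (by norm_num) (n := 8) (by norm_num)
  refine h.trans ?_
  norm_num [Finset.sum_range_succ, Nat.factorial]

theorem gamma72 : Real.Gamma (7 / 2) = 15 / 8 * √π := by
  have h1 : Real.Gamma (1 / 2 + 1) = 1 / 2 * Real.Gamma (1 / 2) :=
    Real.Gamma_add_one (by norm_num)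
  have h2 : Real.Gamma (3 / 2 + 1) = 3 / 2 * Real.Gamma (3 / 2) :=
    Real.Gamma_add_one (by norm_num)
  have h3 : Real.Gamma (5 / 2 + 1) = 5 / 2 * Real.Gamma (5 / 2) :=
    Real.Gamma_add_one (by norm_num)
  rw [show (7 / 2 : ℝ) = 5 / 2 + 1 by norm_num, h3, show (5 / 2 : ℝ) = 3 / 2 + 1 by norm_num, h2,
    show (3 / 2 : ℝ) = 1 / 2 + 1 by norm_num, h1, Real.Gamma_one_half_eq]
  ring

theorem kappa_lower : (0.6965 : ℝ) ≤ (7 / 4 : ℝ) ^ (3 / 2 : ℝ) / Real.Gamma (7 / 2) := by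
  rw [gamma72, le_div_iff₀ (by positivity)]
  have h1 : (7 / 4 : ℝ) ^ (3 / 2 : ℝ) = √((7 / 4) ^ 3) := by
    rw [Real.sqrt_eq_rpow, ← Real.rpow_natCast, ← Real.rpow_mul (by norm_num)]
    norm_num
  rw [h1]
  apply Real.le_sqrt_of_sq_le
  have hpi : π < 3.1416 := Real.pi_lt_d4
  have h2 : (0.6965 * (15 / 8 * √π)) ^ 2 = (0.6965 * (15 / 8)) ^ 2 * π := by
    have := Real.sq_sqrt Real.pi_pos.le
    calc (0.6965 * (15 / 8 * √π)) ^ 2 = (0.6965 * (15 / 8)) ^ 2 * (√π) ^ 2 := by ring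
      _ = _ := by rw [this]
  rw [h2]
  nlinarith

theorem exp_lower {z : ℝ} (hz : 0 ≤ z) : 1 + z + z ^ 2 / 2 + z ^ 3 / 6 ≤ Real.exp z := by
  have h := Real.sum_le_exp_of_nonneg hz 4
  simpa [Finset.sum_range_succ, Nat.factorial] using h

theorem poly2 {s t : ℝ} (hs : 0 ≤ s) (ht : 0 ≤ t) (hst : t = 1 - s) :
    1 - s * (5 - 2 * s) / 7 + 9 / 7 * 0.065 ≤
      0.6965 * (1 + (0.5596 * (1 - s)) + (0.5596 * (1 - s)) ^ 2 / 2 + (0.5596 * (1 - s)) ^ 3 / 6) *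
        (1 - s * (1 - s) * (0.588 - 0.32 * s + 0.168 * s ^ 2)) := by
  have key : 0.6965 * (1 + (0.5596 * (1 - s)) + (0.5596 * (1 - s)) ^ 2 / 2
        + (0.5596 * (1 - s)) ^ 3 / 6) *
        (1 - s * (1 - s) * (0.588 - 0.32 * s + 0.168 * s ^ 2))
      - (1 - s * (5 - 2 * s) / 7 + 9 / 7 * 0.065) =
      (173365038696949/1312500000000000) * s^0 * t^7 + (83735047291622497/328125000000000000) * s^1 * t^6 + (3253452284521351/23437500000000000) * s^2 * t^5 + (18407437302958853/109375000000000000) * s^3 * t^4 + (607529056097179/1312500000000000) * s^4 * t^3 + (87343292131/175000000000) * s^5 * t^2 + (8180559/35000000) * s^6 * t^1 + (83/2000) * s^7 * t^0 := by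
    subst hst; ring
  have : 0 ≤ (173365038696949/1312500000000000) * s^0 * t^7 + (83735047291622497/328125000000000000) * s^1 * t^6 + (3253452284521351/23437500000000000) * s^2 * t^5 + (18407437302958853/109375000000000000) * s^3 * t^4 + (607529056097179/1312500000000000) * s^4 * t^3 + (87343292131/175000000000) * s^5 * t^2 + (8180559/35000000) * s^6 * t^1 + (83/2000) * s^7 * t^0 := by positivity
  linarith

theorem poly1 {s t : ℝ} (hs : 0 ≤ s) (ht : 0 ≤ t) (hst : t = 1 - s) :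
    1 ≤ 0.6965 * (1 - s * (1 - s) * (0.588 - 0.32 * s + 0.168 * s ^ 2)) * ((9 - 2 * s) / 4) := by
  have key : 0.6965 * (1 - s * (1 - s) * (0.588 - 0.32 * s + 0.168 * s ^ 2)) * ((9 - 2 * s) / 4)
      - 1 = (4537/8000) * s^0 * t^5 + (3131811/2000000) * s^1 * t^4 + (888037/400000) * s^2 * t^3 + (3710253/2000000) * s^3 * t^2 + (1822391/2000000) * s^4 * t^1 + (1751/8000) * s^5 * t^0 := by
    subst hst; ring
  have : 0 ≤ (4537/8000) * s^0 * t^5 + (3131811/2000000) * s^1 * t^4 + (888037/400000) * s^2 * t^3 + (3710253/2000000) * s^3 * t^2 + (1822391/2000000) * s^4 * t^1 + (1751/8000) * s^5 * t^0 := by positivity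
  linarith

end num_7_aux

theorem num_7 {q : ℝ} (hq1 : 3 < q) (hq2 : q < 5) :
    1 ≤ 2 ^ (-(q / 2)) * Cinf 7 q * (1 + q / 4) ∧
      1 - al 7 q + 9 / 7 * 0.065 ≤ 2 ^ (-(q / 2)) * Cinf 7 q := by
  obtain ⟨s, hs⟩ : ∃ s : ℝ, s = (5 - q) / 2 := ⟨_, rfl⟩
  have hq : q = 5 - 2 * s := by linarith
  have hs0 : 0 ≤ s := by linarith
  have hs1 : s ≤ 1 := by linarith
  have hmu : 2 ^ (-(q / 2)) * Cinf 7 q =
      ((7 / 4 : ℝ) ^ (3 / 2 : ℝ) / Real.Gamma (7 / 2)) * ((7 / 4 : ℝ) ^ (1 - s) *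
        Real.Gamma (1 + s)) := by
    unfold Cinf
    have h1 : (((7 : ℕ) : ℝ) - q) / 2 = 1 + s := by push_cast; linarith
    have h2 : (((7 : ℕ) : ℝ) / 2) = 7 / 2 := by norm_num
    rw [h1, h2]
    have h3 : (2 : ℝ) ^ (-(q / 2)) * (7 / 2) ^ (q / 2) =
        (7 / 4 : ℝ) ^ (3 / 2 : ℝ) * (7 / 4 : ℝ) ^ (1 - s) := by
      rw [← Real.rpow_add (by norm_num), Real.rpow_neg (by norm_num),
        show (3 / 2 + (1 - s) : ℝ) = q / 2 by linarith,
        show (7 / 4 : ℝ) = (7 / 2) / 2 by norm_num,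
        Real.div_rpow (x := 7 / 2) (y := 2) (by norm_num) (by norm_num)]
      field_simp
    calc (2 : ℝ) ^ (-(q / 2)) * ((7 / 2) ^ (q / 2) * Real.Gamma (1 + s) / Real.Gamma (7 / 2))
        = ((2 : ℝ) ^ (-(q / 2)) * (7 / 2) ^ (q / 2)) * Real.Gamma (1 + s) / Real.Gamma (7 / 2) := by
          ring
      _ = _ := by rw [h3]; ring
  have hk := num_7_aux.kappa_lower
  have hg := gamma_lower hs0 hs1
  have hg0 : 0 ≤ 1 - s * (1 - s) * (0.588 - 0.32 * s + 0.168 * s ^ 2) := by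
    have h1 : s * (1 - s) ≤ 1 / 4 := by nlinarith [sq_nonneg (s - 1 / 2)]
    have h2 : 0 ≤ s * (1 - s) := mul_nonneg hs0 (by linarith)
    have h3 : 0.588 - 0.32 * s + 0.168 * s ^ 2 ≤ 0.588 + 0.168 := by nlinarith
    have h4 : 0 ≤ 0.588 - 0.32 * s + 0.168 * s ^ 2 := by nlinarith
    nlinarith
  have hexp : 1 + (0.5596 * (1 - s)) + (0.5596 * (1 - s)) ^ 2 / 2
        + (0.5596 * (1 - s)) ^ 3 / 6 ≤ (7 / 4 : ℝ) ^ (1 - s) := by
    refine (num_7_aux.exp_lower (mul_nonneg (by norm_num) (by linarith))).trans ?_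
    rw [Real.rpow_def_of_pos (by norm_num)]
    apply Real.exp_le_exp.mpr
    exact mul_le_mul_of_nonneg_right num_7_aux.log_lower (by linarith)
  have hE0 : 1 ≤ 1 + (0.5596 * (1 - s)) + (0.5596 * (1 - s)) ^ 2 / 2
        + (0.5596 * (1 - s)) ^ 3 / 6 := by
    have h0 : 0 ≤ 0.5596 * (1 - s) := mul_nonneg (by norm_num) (by linarith)
    have h1 : 0 ≤ (0.5596 * (1 - s)) ^ 2 := by positivity
    have h2 : 0 ≤ (0.5596 * (1 - s)) ^ 3 := by positivity
    linarith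
  have hmu2 : 0.6965 * (1 + (0.5596 * (1 - s)) + (0.5596 * (1 - s)) ^ 2 / 2
        + (0.5596 * (1 - s)) ^ 3 / 6) *
        (1 - s * (1 - s) * (0.588 - 0.32 * s + 0.168 * s ^ 2)) ≤ 2 ^ (-(q / 2)) * Cinf 7 q := by
    rw [hmu, mul_assoc]
    apply mul_le_mul hk _ _ (le_trans (by norm_num) hk)
    · exact mul_le_mul hexp hg hg0 (by positivity)
    · exact mul_nonneg (by linarith) hg0
  constructor
  · have h1 := num_7_aux.poly1 hs0 (by linarith : (0 : ℝ) ≤ 1 - s) rfl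
    refine h1.trans ?_
    rw [show 1 + q / 4 = (9 - 2 * s) / 4 by linarith]
    apply mul_le_mul_of_nonneg_right _ (by linarith)
    refine le_trans ?_ hmu2
    apply mul_le_mul_of_nonneg_right _ hg0
    nlinarith
  · refine le_trans (le_of_eq ?_) ((num_7_aux.poly2 hs0 (by linarith : (0 : ℝ) ≤ 1 - s) rfl).trans hmu2)
    unfold al
    rw [hq]
    push_cast
    ring

end

end H618KS
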