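import Pool.Agent.Helper618_KS.Defs
import Pool.Agent.Helper618_KS.Gam

/-!
Part `NumB` of the proof for MP_237b21_an.
-/

open MeasureTheory Filter Topology Set Real
open scoped ENNReal NNReal

set_option autoImplicit false

namespace H618KS

section

namespace num_6_aux

lemma poly1 {s : ℝ} (hs : 0 ≤ s) (hs1 : s ≤ 1) :
    1 ≤ 3 / 4 * ((1 + 0.4054 * (1 - s) + (0.4054 * (1 - s)) ^ 2 / 2 + (0.4054 * (1 - s)) ^ 3 / 6) *
      (1 - s * (1 - s) * (0.588 - 0.32 * s + 0.168 * s ^ 2))) * (2 - s / 2) := by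
  have hu : 0 ≤ 1 - s := by linarith
  have h : 3 / 4 * ((1 + 0.4054 * (1 - s) + (0.4054 * (1 - s)) ^ 2 / 2 + (0.4054 * (1 - s)) ^ 3 / 6) *
      (1 - s * (1 - s) * (0.588 - 0.32 * s + 0.168 * s ^ 2))) * (2 - s / 2) - 1 =
      624009328683 / 500000000000 * (s ^ 0 * (1 - s) ^ 8) +
      1798928880489323 / 250000000000000 * (s ^ 1 * (1 - s) ^ 7) +
      9364214010315149 / 500000000000000 * (s ^ 2 * (1 - s) ^ 6) +
      7106520364895113 / 250000000000000 * (s ^ 3 * (1 - s) ^ 5) +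
      13594076413822659 / 500000000000000 * (s ^ 4 * (1 - s) ^ 4) +
      33202351283069 / 2000000000000 * (s ^ 5 * (1 - s) ^ 3) +
      2509859081 / 400000000 * (s ^ 6 * (1 - s) ^ 2) +
      53623 / 40000 * (s ^ 7 * (1 - s) ^ 1) +
      1 / 8 * (s ^ 8 * (1 - s) ^ 0) := by
    ring
  have h2 : 0 ≤ 624009328683 / 500000000000 * (s ^ 0 * (1 - s) ^ 8) +
      1798928880489323 / 250000000000000 * (s ^ 1 * (1 - s) ^ 7) +
      9364214010315149 / 500000000000000 * (s ^ 2 * (1 - s) ^ 6) +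
      7106520364895113 / 250000000000000 * (s ^ 3 * (1 - s) ^ 5) +
      13594076413822659 / 500000000000000 * (s ^ 4 * (1 - s) ^ 4) +
      33202351283069 / 2000000000000 * (s ^ 5 * (1 - s) ^ 3) +
      2509859081 / 400000000 * (s ^ 6 * (1 - s) ^ 2) +
      53623 / 40000 * (s ^ 7 * (1 - s) ^ 1) +
      1 / 8 * (s ^ 8 * (1 - s) ^ 0) := by
    positivity
  linarith

lemma poly2 {s : ℝ} (hs : 0 ≤ s) (hs1 : s ≤ 1) :
    1 - s * (2 - s) / 3 + 3 / 64 ≤ 3 / 4 * ((1 + 0.4054 * (1 - s) + (0.4054 * (1 - s)) ^ 2 / 2 + (0.4054 * (1 - s)) ^ 3 / 6) *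
      (1 - s * (1 - s) * (0.588 - 0.32 * s + 0.168 * s ^ 2))) := by
  have hu : 0 ≤ 1 - s := by linarith
  have h : 3 / 4 * ((1 + 0.4054 * (1 - s) + (0.4054 * (1 - s)) ^ 2 / 2 + (0.4054 * (1 - s)) ^ 3 / 6) *
      (1 - s * (1 - s) * (0.588 - 0.32 * s + 0.168 * s ^ 2))) - (1 - s * (2 - s) / 3 + 3 / 64) =
      77134328683 / 1000000000000 * (s ^ 0 * (1 - s) ^ 8) +
      127895069862047 / 750000000000000 * (s ^ 1 * (1 - s) ^ 7) +
      55320026073811 / 750000000000000 * (s ^ 2 * (1 - s) ^ 6) +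
      40639928507891 / 250000000000000 * (s ^ 3 * (1 - s) ^ 5) +
      576398018566909 / 750000000000000 * (s ^ 4 * (1 - s) ^ 4) +
      3446986148069 / 3000000000000 * (s ^ 5 * (1 - s) ^ 3) +
      158983027 / 200000000 * (s ^ 6 * (1 - s) ^ 2) +
      16123 / 60000 * (s ^ 7 * (1 - s) ^ 1) +
      7 / 192 * (s ^ 8 * (1 - s) ^ 0) := by
    ring
  have h2 : 0 ≤ 77134328683 / 1000000000000 * (s ^ 0 * (1 - s) ^ 8) +
      127895069862047 / 750000000000000 * (s ^ 1 * (1 - s) ^ 7) +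
      55320026073811 / 750000000000000 * (s ^ 2 * (1 - s) ^ 6) +
      40639928507891 / 250000000000000 * (s ^ 3 * (1 - s) ^ 5) +
      576398018566909 / 750000000000000 * (s ^ 4 * (1 - s) ^ 4) +
      3446986148069 / 3000000000000 * (s ^ 5 * (1 - s) ^ 3) +
      158983027 / 200000000 * (s ^ 6 * (1 - s) ^ 2) +
      16123 / 60000 * (s ^ 7 * (1 - s) ^ 1) +
      7 / 192 * (s ^ 8 * (1 - s) ^ 0) := by
    positivity
  linarith

lemma log_lb : (0.4054 : ℝ) ≤ Real.log (3 / 2) := by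
  rw [Real.le_log_iff_exp_le (by norm_num)]
  have h := Real.exp_bound' (x := 0.4054) (by norm_num) (by norm_num) (n := 8) (by norm_num)
  refine h.trans ?_
  simp only [Finset.sum_range_succ, Finset.sum_range_zero, Nat.factorial]
  norm_num

lemma pow_lb {s : ℝ} (hs1 : s ≤ 1) :
    (1 + 0.4054 * (1 - s) + (0.4054 * (1 - s)) ^ 2 / 2 + (0.4054 * (1 - s)) ^ 3 / 6) ≤
      ((3:ℝ) / 2) ^ (1 - s) := by
  have hu : 0 ≤ 1 - s := by linarith
  have e2 : Real.exp (0.4054 * (1 - s)) ≤ ((3:ℝ) / 2) ^ (1 - s) := by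
    rw [Real.rpow_def_of_pos (by norm_num)]
    apply Real.exp_le_exp.mpr
    exact mul_le_mul_of_nonneg_right log_lb hu
  refine le_trans ?_ e2
  have h := Real.sum_le_exp_of_nonneg (x := 0.4054 * (1 - s)) (by positivity) 4
  simp only [Finset.sum_range_succ, Finset.sum_range_zero, Nat.factorial] at h
  norm_num at h ⊢
  linarith

lemma mu_eq {s : ℝ} : 2 ^ (-((4 - 2 * s) / 2)) * Cinf 6 (4 - 2 * s) =
    3 / 4 * (((3:ℝ) / 2) ^ (1 - s) * Real.Gamma (1 + s)) := by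
  unfold Cinf
  have e1 : ((((6:ℕ):ℝ)) - (4 - 2 * s)) / 2 = 1 + s := by push_cast; ring
  have e2 : (((6:ℕ):ℝ)) / 2 = 3 := by push_cast; norm_num
  have e3 : Real.Gamma 3 = 2 := by
    have h3 := Real.Gamma_nat_eq_factorial 2
    have h4 : (((2:ℕ):ℝ) + 1) = 3 := by norm_num
    rw [h4] at h3
    rw [h3]; norm_num [Nat.factorial]
  rw [e1, e2, e3]
  have e4 : (4 - 2 * s) / 2 = 2 - s := by ring
  rw [e4, Real.rpow_neg (by norm_num), Real.div_rpow (by norm_num) (by norm_num)]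
  have e5 : (3:ℝ) ^ (2 - s) = 3 * 3 ^ (1 - s) := by
    rw [show (2 - s) = 1 + (1 - s) by ring, Real.rpow_add (by norm_num), Real.rpow_one]
  have e6 : (2:ℝ) ^ (2 - s) = 2 * 2 ^ (1 - s) := by
    rw [show (2 - s) = 1 + (1 - s) by ring, Real.rpow_add (by norm_num), Real.rpow_one]
  rw [e5, e6]
  have h2 : (2:ℝ) ^ (1 - s) ≠ 0 := by positivity
  field_simp
  ring

end num_6_aux

theorem num_6 {q : ℝ} (hq1 : 2 < q) (hq2 : q < 4) :
    1 ≤ 2 ^ (-(q / 2)) * Cinf 6 q * (1 + q / 4) ∧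
      1 - al 6 q + 3 / 64 ≤ 2 ^ (-(q / 2)) * Cinf 6 q := by
  obtain ⟨s, hs⟩ : ∃ s, s = (4 - q) / 2 := ⟨_, rfl⟩
  have hq : q = 4 - 2 * s := by rw [hs]; ring
  have hs0 : 0 ≤ s := by rw [hs]; linarith
  have hs1 : s ≤ 1 := by rw [hs]; linarith
  have hu : 0 ≤ 1 - s := by linarith
  have hal : al 6 q = s * (2 - s) / 3 := by unfold al; rw [hq]; push_cast; ring
  rw [hal, hq, num_6_aux.mu_eq]
  have g := gamma_lower hs0 hs1
  have p := num_6_aux.pow_lb hs1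
  have g0 : 0 ≤ (1 - s * (1 - s) * (0.588 - 0.32 * s + 0.168 * s ^ 2)) := by
    nlinarith [mul_nonneg hs0 hu]
  have hm : (1 + 0.4054 * (1 - s) + (0.4054 * (1 - s)) ^ 2 / 2 + (0.4054 * (1 - s)) ^ 3 / 6) *
      (1 - s * (1 - s) * (0.588 - 0.32 * s + 0.168 * s ^ 2)) ≤
      ((3:ℝ) / 2) ^ (1 - s) * Real.Gamma (1 + s) :=
    mul_le_mul p g g0 (by positivity)
  have e7 : 1 + (4 - 2 * s) / 4 = 2 - s / 2 := by ring
  rw [e7]
  constructor
  · refine (num_6_aux.poly1 hs0 hs1).trans ?_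
    exact mul_le_mul_of_nonneg_right (mul_le_mul_of_nonneg_left hm (by norm_num)) (by linarith)
  · refine (num_6_aux.poly2 hs0 hs1).trans ?_
    exact mul_le_mul_of_nonneg_left hm (by norm_num)

end

section

namespace num_5a_aux

theorem mu_eq {q : ℝ} : 2 ^ (-(q / 2)) * Cinf 5 q
    = (5 / 4 : ℝ) ^ (q / 2) * Real.Gamma ((5 - q) / 2) / Real.Gamma (5 / 2) := by
  unfold Cinf
  have h : (2 : ℝ) ^ (-(q / 2)) * (5 / 2 : ℝ) ^ (q / 2) = (5 / 4 : ℝ) ^ (q / 2) := by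
    rw [Real.rpow_neg (by norm_num), show (5 / 4 : ℝ) = (5 / 2) / 2 by norm_num,
      Real.div_rpow (by norm_num : (0 : ℝ) ≤ 5 / 2) (by norm_num : (0 : ℝ) ≤ 2)]
    field_simp
  push_cast
  rw [← h]
  ring

theorem gamma52 : Real.Gamma (5 / 2) = 3 / 4 * √π := by
  have h1 : Real.Gamma (3 / 2) = 1 / 2 * √π := by
    rw [show (3 / 2 : ℝ) = 1 / 2 + 1 by norm_num, Real.Gamma_add_one (by norm_num),
      Real.Gamma_one_half_eq]
  rw [show (5 / 2 : ℝ) = 3 / 2 + 1 by norm_num, Real.Gamma_add_one (by norm_num), h1]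
  ring

theorem sq_bound : 0.841 * (3 / 4 * √π) ≤ (5 / 4 : ℝ) ^ (1 / 2 : ℝ) := by
  rw [← Real.sqrt_eq_rpow]
  apply Real.le_sqrt_of_sq_le
  have h1 : √π ^ 2 = π := Real.sq_sqrt Real.pi_pos.le
  have h2 := Real.pi_lt_d4
  have h3 : (0.841 * (3 / 4 * √π)) ^ 2 = (0.841 * (3 / 4)) ^ 2 * √π ^ 2 := by ring
  rw [h3, h1]
  nlinarith

theorem main {q : ℝ} (hq1 : 1 < q) (hq2 : q ≤ 3 / 2) :
    0.841 * (1 + 0.2 * ((q - 1) / 2)) * (1 - 0.4425 * ((q - 1) / 2) + 0.4425 * ((q - 1) / 2) ^ 2)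
      ≤ 2 ^ (-(q / 2)) * Cinf 5 q := by
  rw [mu_eq]
  set t := (q - 1) / 2 with ht
  have ht0 : 0 ≤ t := by rw [ht]; linarith
  have ht1 : t ≤ 1 / 4 := by rw [ht]; linarith
  have hg : 1 - 0.4425 * t + 0.4425 * t ^ 2 ≤ Real.Gamma ((5 - q) / 2) := by
    have h := gamma_lower (s := 1 - t) (by linarith) (by linarith)
    have e : 1 + (1 - t) = (5 - q) / 2 := by rw [ht]; ring
    rw [e] at h
    refine le_trans ?_ h
    have h1 : 0.588 - 0.32 * (1 - t) + 0.168 * (1 - t) ^ 2 ≤ 0.4425 := by nlinarith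
    have h2 : 0 ≤ t * (1 - t) := mul_nonneg ht0 (by linarith)
    nlinarith [mul_le_mul_of_nonneg_left h1 h2]
  have hg0 : 0 ≤ 1 - 0.4425 * t + 0.4425 * t ^ 2 := by nlinarith
  have hp : 0.841 * (3 / 4 * √π) * (1 + 0.2 * t) ≤ (5 / 4 : ℝ) ^ (q / 2) := by
    have e : q / 2 = 1 / 2 + t := by rw [ht]; ring
    rw [e, Real.rpow_add (by norm_num)]
    have h1 : 1 + 0.2 * t ≤ (5 / 4 : ℝ) ^ t := by
      rw [Real.rpow_def_of_pos (by norm_num)]
      have h2 : (0.2 : ℝ) ≤ Real.log (5 / 4) := by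
        have := Real.one_sub_inv_le_log_of_pos (show (0 : ℝ) < 5 / 4 by norm_num)
        norm_num at this ⊢
        linarith
      have h3 := Real.add_one_le_exp (Real.log (5 / 4) * t)
      nlinarith
    exact mul_le_mul sq_bound h1 (by linarith) (by positivity)
  have hsp : 0 < 3 / 4 * √π := by
    have := Real.sqrt_pos.2 Real.pi_pos
    positivity
  rw [gamma52, le_div_iff₀ hsp]
  calc 0.841 * (1 + 0.2 * t) * (1 - 0.4425 * t + 0.4425 * t ^ 2) * (3 / 4 * √π)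
      = (0.841 * (3 / 4 * √π) * (1 + 0.2 * t)) * (1 - 0.4425 * t + 0.4425 * t ^ 2) := by ring
    _ ≤ _ := mul_le_mul hp hg hg0 (by positivity)

end num_5a_aux

theorem num_5a {q : ℝ} (hq1 : 1 < q) (hq2 : q ≤ 3 / 2) :
    1 ≤ 2 ^ (-(q / 2)) * Cinf 5 q * (1 + q / 4) ∧
      1 - al 5 q + 0.0252 ≤ 2 ^ (-(q / 2)) * Cinf 5 q := by
  have h := num_5a_aux.main hq1 hq2
  have ht0 : 0 ≤ (q - 1) / 2 := by linarith
  have ht1 : (q - 1) / 2 ≤ 1 / 4 := by linarith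
  have hq : q = 1 + 2 * ((q - 1) / 2) := by ring
  have hal : al 5 q = q * (3 - q) / 10 := by
    unfold al
    push_cast
    ring
  rw [hal]
  generalize 2 ^ (-(q / 2)) * Cinf 5 q = μ at h ⊢
  generalize (q - 1) / 2 = t at h ht0 ht1 hq
  subst hq
  constructor
  · have h1 : 0.93 - 0.3 * t ≤ 0.841 * (1 + 0.2 * t) * (1 - 0.4425 * t + 0.4425 * t ^ 2) + 0.1 := by
      nlinarith [mul_nonneg ht0 ht0, mul_nonneg ht0 (mul_nonneg ht0 ht0)]
    have h2 : 0.83 - 0.3 * t ≤ μ := by linarith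
    nlinarith [mul_nonneg ht0 (sub_nonneg.2 ht1)]
  · nlinarith [mul_nonneg ht0 ht0, mul_nonneg ht0 (mul_nonneg ht0 ht0), mul_nonneg ht0 (sub_nonneg.2 ht1)]

end

section

namespace num_5b_aux

theorem exp_le : Real.exp 0.223 ≤ 5 / 4 := by
  have h := Real.exp_bound' (x := 0.223) (by norm_num) (by norm_num) (n := 4) (by norm_num)
  refine h.trans ?_
  norm_num [Finset.sum_range_succ, Nat.factorial]

theorem rpow_lower {t : ℝ} (ht : 0 ≤ t) :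
    1 + 0.223 * t + (0.223 * t) ^ 2 / 2 ≤ (5 / 4 : ℝ) ^ t := by
  have h1 : Real.exp (0.223 * t) ≤ (5 / 4 : ℝ) ^ t := by
    rw [Real.exp_mul]
    exact Real.rpow_le_rpow (Real.exp_pos _).le exp_le ht
  exact (Real.quadratic_le_exp_of_nonneg (by positivity)).trans h1

theorem gamma_52 : Real.Gamma (5 / 2) = 3 / 4 * √Real.pi := by
  have h1 : Real.Gamma (1 / 2 + 1) = 1 / 2 * Real.Gamma (1 / 2) :=
    Real.Gamma_add_one (by norm_num)
  have h2 : Real.Gamma (1 / 2 + 1 + 1) = (1 / 2 + 1) * Real.Gamma (1 / 2 + 1) :=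
    Real.Gamma_add_one (by norm_num)
  have h3 : (5 / 2 : ℝ) = 1 / 2 + 1 + 1 := by norm_num
  rw [h3, h2, h1, Real.Gamma_one_half_eq]
  ring

theorem const_lower : 0.841 ≤ √(5 / 4 : ℝ) / Real.Gamma (5 / 2) := by
  have h1 : √Real.pi ≤ 1.77246 := by
    rw [Real.sqrt_le_left (by norm_num)]
    exact Real.pi_lt_d4.le.trans (by norm_num)
  have h2 : (1.118 : ℝ) ≤ √(5 / 4 : ℝ) := Real.le_sqrt_of_sq_le (by norm_num)
  have h3 : 0 < √Real.pi := Real.sqrt_pos.2 Real.pi_pos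
  rw [gamma_52, le_div_iff₀ (by positivity)]
  nlinarith

theorem mu_eq {q : ℝ} : 2 ^ (-(q / 2)) * Cinf 5 q =
    √(5 / 4 : ℝ) / Real.Gamma (5 / 2) * (5 / 4 : ℝ) ^ ((q - 1) / 2) *
      Real.Gamma (1 + (3 - q) / 2) := by
  have e1 : (2 : ℝ) ^ (-(q / 2)) * ((5 : ℝ) / 2) ^ (q / 2) =
      √(5 / 4 : ℝ) * (5 / 4 : ℝ) ^ ((q - 1) / 2) := by
    rw [Real.sqrt_eq_rpow, ← Real.rpow_add (by norm_num)]
    have h1 : (2 : ℝ) ^ (-(q / 2)) = (1 / 2 : ℝ) ^ (q / 2) := by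
      rw [Real.rpow_neg (by norm_num), one_div, Real.inv_rpow (by norm_num)]
    rw [h1, ← Real.mul_rpow (by norm_num) (by norm_num)]
    congr 1
    · norm_num
    · ring
  unfold Cinf
  have e2 : (((5 : ℕ) : ℝ) - q) / 2 = 1 + (3 - q) / 2 := by
    push_cast
    ring
  rw [e2]
  push_cast
  rw [← mul_div_assoc, ← mul_assoc, e1]
  ring

theorem poly_ineq {s : ℝ} (h0 : 0 ≤ s) (h1 : s ≤ 3 / 4) :
    1 - s * (3 - 2 * s) / 5 + 0.00933 ≤ 0.841 * (1 + 0.223 * (1 - s) + (0.223 * (1 - s)) ^ 2 / 2) *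
      (1 - s * (1 - s) * (0.588 - 0.32 * s + 0.168 * s ^ 2)) := by
  have hv : 0 ≤ 3 / 4 - s := by linarith
  have b : ∀ i j : ℕ, 0 ≤ s ^ i * (3 / 4 - s) ^ j := fun i j =>
    mul_nonneg (pow_nonneg h0 i) (pow_nonneg hv j)
  nlinarith [b 0 6, b 1 5, b 2 4, b 3 3, b 4 2, b 5 1, b 6 0]

end num_5b_aux

theorem num_5b {q : ℝ} (hq1 : 3 / 2 ≤ q) (hq2 : q < 3) :
    1 ≤ 2 ^ (-(q / 2)) * Cinf 5 q * (1 + q / 4) ∧
      1 - al 5 q + 0.00933 ≤ 2 ^ (-(q / 2)) * Cinf 5 q := by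
  have key : 1 - al 5 q + 0.00933 ≤ 2 ^ (-(q / 2)) * Cinf 5 q := by
    rw [num_5b_aux.mu_eq]
    obtain ⟨s, hs⟩ : ∃ s, s = (3 - q) / 2 := ⟨_, rfl⟩
    have hs0 : 0 ≤ s := by rw [hs]; linarith
    have hs1 : s ≤ 3 / 4 := by rw [hs]; linarith
    have e1 : (q - 1) / 2 = 1 - s := by rw [hs]; ring
    have e2 : al 5 q = s * (3 - 2 * s) / 5 := by
      unfold al
      rw [hs]
      push_cast
      ring
    rw [e1, e2, ← hs]
    refine (num_5b_aux.poly_ineq hs0 hs1).trans ?_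
    have g1 := gamma_lower hs0 (by linarith)
    have g2 := num_5b_aux.rpow_lower (t := 1 - s) (by linarith)
    have g3 := num_5b_aux.const_lower
    have g4 : 0 ≤ 1 + 0.223 * (1 - s) + (0.223 * (1 - s)) ^ 2 / 2 := by
      have : 0 ≤ 1 - s := by linarith
      positivity
    have g5 : 0 ≤ 1 - s * (1 - s) * (0.588 - 0.32 * s + 0.168 * s ^ 2) := by
      have h1 : 0 ≤ s * (1 - s) := mul_nonneg hs0 (by linarith)
      have h2 : s * (1 - s) ≤ 1 / 4 := by nlinarith [sq_nonneg (s - 1 / 2)]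
      have h3 : 0.588 - 0.32 * s + 0.168 * s ^ 2 ≤ 1 := by nlinarith
      nlinarith
    refine mul_le_mul (mul_le_mul g3 g2 g4 (by linarith)) g1 g5 ?_
    have h4 : 0 ≤ √(5 / 4 : ℝ) / Real.Gamma (5 / 2) := by linarith
    exact mul_nonneg h4 (Real.rpow_nonneg (by norm_num) _)
  refine ⟨?_, key⟩
  have h1 : (0.78 : ℝ) ≤ 2 ^ (-(q / 2)) * Cinf 5 q := by
    refine le_trans ?_ key
    unfold al
    push_cast
    nlinarith
  nlinarith

end

section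

namespace num_4_aux
theorem key {k G L : ℝ} (hG : L ≤ G) (hk : 0 < k) (c : ℝ) (h : c ≤ L * (1 + k / 2)) :
    c ≤ G * (1 + k / 2) :=
  h.trans (mul_le_mul_of_nonneg_right hG (by linarith))

end num_4_aux

theorem num_4 {k : ℝ} (hk : 0 < k) (hk1 : k < 1) :
    (k ≤ 0.3 → 1 ≤ Real.Gamma (2 - k) * (1 + k / 2) ∧
      1 - k * (1 - k) / 2 + 0.0264 * k ≤ Real.Gamma (2 - k)) ∧
    (0.3 ≤ k → k ≤ 0.5 → 1 ≤ Real.Gamma (2 - k) * (1 + k / 2) ∧
      1 - k * (1 - k) / 2 + 0.0108 * k ≤ Real.Gamma (2 - k)) ∧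
    (0.5 ≤ k → k ≤ 0.75 → 1 + k ^ 2 * (1 - k ^ 2) / 12 ≤ Real.Gamma (2 - k) * (1 + k / 2) ∧
      1 - k * (1 - k) / 2 - k ^ 2 * (1 - k ^ 2) / 12 + 0.015 ≤ Real.Gamma (2 - k)) ∧
    (0.75 ≤ k → 1 + k ^ 2 * (1 - k ^ 2) / 12 ≤ Real.Gamma (2 - k) * (1 + k / 2) ∧
      1 - k * (1 - k) / 2 - k ^ 2 * (1 - k ^ 2) / 12 + 0.045 * (1 - k) ≤ Real.Gamma (2 - k)) := by
  have hG := gamma_lower (s := 1 - k) (by linarith) (by linarith)
  have e1 : 1 - (1 - k) * (1 - (1 - k)) * (0.588 - 0.32 * (1 - k) + 0.168 * (1 - k) ^ 2) =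
      1 - k * (1 - k) * (0.436 - 0.016 * k + 0.168 * k ^ 2) := by ring
  have e2 : 1 + (1 - k) = 2 - k := by ring
  rw [e1, e2] at hG
  refine ⟨fun h1 => ⟨?_, ?_⟩, fun h1 h2 => ⟨?_, ?_⟩, fun h1 h2 => ⟨?_, ?_⟩, fun h1 => ⟨?_, ?_⟩⟩
  · refine num_4_aux.key hG hk _ ?_
    have h3 : 0 ≤ k * (1 / 2 - (1 - k) * (0.436 - 0.016 * k + 0.168 * k ^ 2) * (1 + k / 2)) := by
      refine mul_nonneg hk.le ?_
      nlinarith [mul_pos hk hk, mul_pos hk (mul_pos hk hk), mul_nonneg hk.le (sub_nonneg.2 hk1.le)]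
    linarith
  · refine le_trans ?_ hG
    have h3 : 0 ≤ k * ((1 - k) * (0.064 + 0.016 * k - 0.168 * k ^ 2) - 0.0264) := by
      refine mul_nonneg hk.le ?_
      nlinarith [mul_pos hk hk, mul_pos hk (mul_pos hk hk), mul_nonneg hk.le (sub_nonneg.2 hk1.le)]
    linarith
  · refine num_4_aux.key hG hk _ ?_
    have h3 : 0 ≤ k * (1 / 2 - (1 - k) * (0.436 - 0.016 * k + 0.168 * k ^ 2) * (1 + k / 2)) := by
      refine mul_nonneg hk.le ?_
      nlinarith [mul_pos hk hk, mul_pos hk (mul_pos hk hk), mul_nonneg hk.le (sub_nonneg.2 hk1.le)]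
    linarith
  · refine le_trans ?_ hG
    have h3 : 0 ≤ k * ((1 - k) * (0.064 + 0.016 * k - 0.168 * k ^ 2) - 0.0108) := by
      refine mul_nonneg hk.le ?_
      nlinarith [mul_pos hk hk, mul_pos hk (mul_pos hk hk), mul_nonneg hk.le (sub_nonneg.2 hk1.le)]
    linarith
  · refine num_4_aux.key hG hk _ ?_
    nlinarith [mul_nonneg (sub_nonneg.2 h1) (sub_nonneg.2 h2), mul_pos hk hk,
      mul_pos hk (mul_pos hk hk), mul_pos (mul_pos hk hk) (mul_pos hk hk)]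
  · refine le_trans ?_ hG
    nlinarith [mul_nonneg (sub_nonneg.2 h1) (sub_nonneg.2 h2), mul_pos hk hk,
      mul_pos hk (mul_pos hk hk), mul_pos (mul_pos hk hk) (mul_pos hk hk),
      mul_nonneg (mul_pos hk hk).le (mul_nonneg (sub_nonneg.2 h1) (sub_nonneg.2 h2))]
  · refine num_4_aux.key hG hk _ ?_
    nlinarith [mul_nonneg (sub_nonneg.2 h1) (sub_nonneg.2 hk1.le), mul_pos hk hk,
      mul_pos hk (mul_pos hk hk), mul_pos (mul_pos hk hk) (mul_pos hk hk)]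
  · refine le_trans ?_ hG
    have h3 : 0 ≤ (1 - k) * (k * (0.064 + 0.016 * k - 0.168 * k ^ 2) + k ^ 2 * (1 + k) / 12
        - 0.045) := by
      refine mul_nonneg (sub_nonneg.2 hk1.le) ?_
      nlinarith [mul_nonneg (sub_nonneg.2 h1) (sub_nonneg.2 hk1.le), mul_pos hk hk,
        mul_pos hk (mul_pos hk hk)]
    linarith

end

end H618KS
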