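import Pool.Agent.Helper618_KS.Defs
import Pool.Agent.Helper618_KS.HE
import Pool.Agent.Helper618_KS.Big
import Pool.Agent.Helper618_KS.Maj
import Pool.Agent.Helper618_KS.MajFourA
import Pool.Agent.Helper618_KS.MajFourB
import Pool.Agent.Helper618_KS.MajFourD
import Pool.Agent.Helper618_KS.NumA
import Pool.Agent.Helper618_KS.NumB

/-!
Part `Mid` of the proof for MP_237b21_an.
-/

open MeasureTheory Filter Topology Set Real
open scoped ENNReal NNReal

set_option autoImplicit false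

namespace H618KS

section

namespace mid_ge9_aux
-- auxiliary lemmas here
end mid_ge9_aux

theorem mid_ge9 {m n : ℕ} (hm : 9 ≤ m) {q : ℝ} (hq1 : (m : ℝ) - 4 < q) (hq2 : q < m - 2)
    (a : Fin (n + 1) → ℝ) (ha : ∑ j, a j ^ 2 = 1) (i : Fin (n + 1)) (hi : 1 / 2 < a i ^ 2) :
    EN m q a ≤ ENNReal.ofReal (max (C2 m q) (Cinf m q)) := by
  have hm' : (9 : ℝ) ≤ m := by exact_mod_cast hm
  have hmpos : (0 : ℝ) < m := by linarith
  have hq0 : 0 < q := by linarith
  have hal : 0 < al m q := by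
    unfold al
    have : (0 : ℝ) < m - 2 - q := by linarith
    positivity
  have hal2 : 0 < al2 m q := by
    unfold al2
    have h1 : (0 : ℝ) < m - 2 - q := by linarith
    have h2 : (0 : ℝ) < q + 4 - m := by linarith
    positivity
  obtain ⟨n1, n2⟩ := num_ge9 hm hq1 hq2
  refine EN_big (by omega) hq0 (by linarith) a ha i hi 1 (-al m q) (al m q / 4) 0
    (2 ^ (-(q / 2)) * Cinf m q) le_rfl ?_ ?_ ?_
  · intro r hr
    rcases le_total r 1 with h | h
    · refine (hE_poly_lt (by omega) hq0 hq1.le hq2.le hr h).trans (ENNReal.ofReal_le_ofReal ?_)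
      have : 0 ≤ al2 m q * r ^ 4 := by positivity
      have : 0 ≤ al m q / 4 * r ^ 4 := by positivity
      nlinarith
    · refine (hE_mono_one hq0.le h).trans
        ((hE_poly_lt (by omega) hq0 hq1.le hq2.le zero_le_one le_rfl).trans
          (ENNReal.ofReal_le_ofReal ?_))
      have h1 : 0 ≤ al m q * (1 - r ^ 2 / 2) ^ 2 := by positivity
      nlinarith
  · exact mul_le_mul_of_nonneg_left (le_max_right _ _) (by positivity)
  · intro x V _ _ hx0 hx1 hV0 hV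
    have e1 : al m q / 4 * V ≤ al m q / 4 * (2 / (m : ℝ) * x ^ 2) :=
      mul_le_mul_of_nonneg_left hV (by positivity)
    have e2 : x ^ 2 ≤ x := by nlinarith
    have e3 : al m q / 4 * (1 + 2 / (m : ℝ)) * x ^ 2 ≤ al m q / 4 * (1 + 2 / (m : ℝ)) * x :=
      mul_le_mul_of_nonneg_left e2 (by positivity)
    have e4 : (1 - x) * 1 ≤ (1 - x) * (2 ^ (-(q / 2)) * Cinf m q * (1 + q / 4)) :=
      mul_le_mul_of_nonneg_left n1 (by linarith)
    have e5 : x * (1 - al m q * (3 / 4 - 1 / (2 * m))) ≤ x * (2 ^ (-(q / 2)) * Cinf m q) :=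
      mul_le_mul_of_nonneg_left n2 hx0.le
    have e6 : (1 : ℝ) / (2 * m) = 1 / 4 * (2 / m) := by field_simp; norm_num
    rw [e6] at e5
    nlinarith

end

section

namespace mid_678_aux

theorem rpow_sq {r : ℝ} (hr : 0 ≤ r) (q : ℝ) : (r ^ 2) ^ (-(q / 2)) = r ^ (-q) := by
  rw [← Real.rpow_natCast r 2, ← Real.rpow_mul hr]
  congr 1
  push_cast
  ring

theorem core {m n : ℕ} (hm : 6 ≤ m) {q : ℝ} (hq1 : (m : ℝ) - 4 < q)
    (hq2 : q < m - 2) (a : Fin (n + 1) → ℝ) (ha : ∑ j, a j ^ 2 = 1) (i : Fin (n + 1))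
    (hi : 1 / 2 < a i ^ 2) {β : ℝ} (hβ : 0 ≤ β)
    (hmaj : ∀ u : ℝ, 1 ≤ u → u ^ (-(q / 2)) * (1 - al m q / u) ≤ 1 - al m q * u + β * u ^ 2)
    (h1 : 1 ≤ 2 ^ (-(q / 2)) * Cinf m q * (1 + q / 4))
    (h2 : 1 - al m q + β * (1 + 2 / (m : ℝ)) ≤ 2 ^ (-(q / 2)) * Cinf m q) :
    EN m q a ≤ ENNReal.ofReal (max (C2 m q) (Cinf m q)) := by
  have hm6 : (6 : ℝ) ≤ m := by exact_mod_cast hm
  have hq : 0 < q := by linarith
  have hal2 : 0 ≤ al2 m q := by
    unfold al2
    have e1 : 0 ≤ (m : ℝ) - 2 - q := by linarith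
    have e2 : 0 ≤ q + 4 - m := by linarith
    positivity
  refine EN_big (m := m) (by omega) hq (by linarith) a ha i hi 1 (-al m q) β 0
    (2 ^ (-(q / 2)) * Cinf m q) le_rfl ?_ ?_ ?_
  · intro r hr
    rcases le_total r 1 with h | h
    · refine (hE_poly_lt (by omega) hq hq1.le hq2.le hr h).trans (ENNReal.ofReal_le_ofReal ?_)
      have hr4 : 0 ≤ r ^ 4 := by positivity
      nlinarith [mul_nonneg hal2 hr4, mul_nonneg hβ hr4]
    · refine (hE_poly_gt (by omega) hq hq1.le hq2.le h).trans (ENNReal.ofReal_le_ofReal ?_)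
      have hu : 1 ≤ r ^ 2 := one_le_pow₀ h
      have hk := hmaj (r ^ 2) hu
      rw [rpow_sq hr] at hk
      have hp : 0 ≤ r ^ (-q) := Real.rpow_nonneg hr _
      have hz : 0 ≤ al2 m q / r ^ 4 := by positivity
      calc r ^ (-q) * (1 - al m q / r ^ 2 - al2 m q / r ^ 4)
          ≤ r ^ (-q) * (1 - al m q / r ^ 2) := mul_le_mul_of_nonneg_left (by linarith) hp
        _ ≤ 1 - al m q * r ^ 2 + β * (r ^ 2) ^ 2 := hk
        _ = 1 + -al m q * r ^ 2 + β * r ^ 4 + 0 * r ^ 6 := by ring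
  · exact mul_le_mul_of_nonneg_left (le_max_right _ _) (by positivity)
  · intro x V _ _ hx0 hx1 hV0 hV
    have hx2 : x ^ 2 ≤ x := by nlinarith
    have hm2 : 0 ≤ 2 / (m : ℝ) := by positivity
    have e1 : β * (x ^ 2 + V) ≤ β * (1 + 2 / (m : ℝ)) * x := by
      have : x ^ 2 + V ≤ (1 + 2 / (m : ℝ)) * x := by
        calc x ^ 2 + V ≤ x ^ 2 + 2 / (m : ℝ) * x ^ 2 := by linarith
          _ = (1 + 2 / (m : ℝ)) * x ^ 2 := by ring
          _ ≤ (1 + 2 / (m : ℝ)) * x := mul_le_mul_of_nonneg_left hx2 (by linarith)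
      calc β * (x ^ 2 + V) ≤ β * ((1 + 2 / (m : ℝ)) * x) := mul_le_mul_of_nonneg_left this hβ
        _ = _ := by ring
    have e2 : (1 - x) * 1 ≤ (1 - x) * (2 ^ (-(q / 2)) * Cinf m q * (1 + q / 4)) :=
      mul_le_mul_of_nonneg_left h1 (by linarith)
    have e3 : x * (1 - al m q + β * (1 + 2 / (m : ℝ))) ≤ x * (2 ^ (-(q / 2)) * Cinf m q) :=
      mul_le_mul_of_nonneg_left h2 hx0.le
    have e4 : 2 ^ (-(q / 2)) * Cinf m q * (1 + q / 4 * (1 - x)) =
        (1 - x) * (2 ^ (-(q / 2)) * Cinf m q * (1 + q / 4)) + x * (2 ^ (-(q / 2)) * Cinf m q) := by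
      ring
    rw [e4]
    have e5 : (0 : ℝ) * (x ^ 3 + 3 * x * V + 2 * V ^ 2 / x) = 0 := zero_mul _
    rw [e5]
    calc 1 + -al m q * x + β * (x ^ 2 + V) + 0
        ≤ 1 + -al m q * x + β * (1 + 2 / (m : ℝ)) * x + 0 := by linarith
      _ = (1 - x) * 1 + x * (1 - al m q + β * (1 + 2 / (m : ℝ))) := by ring
      _ ≤ _ := add_le_add e2 e3

end mid_678_aux

theorem mid_678 {m n : ℕ} (hm : 6 ≤ m) (hm' : m ≤ 8) {q : ℝ} (hq1 : (m : ℝ) - 4 < q)
    (hq2 : q < m - 2) (a : Fin (n + 1) → ℝ) (ha : ∑ j, a j ^ 2 = 1) (i : Fin (n + 1))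
    (hi : 1 / 2 < a i ^ 2) :
    EN m q a ≤ ENNReal.ofReal (max (C2 m q) (Cinf m q)) := by
  have hm6 : (6 : ℝ) ≤ m := by exact_mod_cast hm
  have hk : 1 ≤ q / 2 := by linarith
  have hal : 0 ≤ al m q := by
    unfold al
    have e1 : 0 ≤ (m : ℝ) - 2 - q := by linarith
    have e2 : 0 ≤ q := by linarith
    positivity
  have hcase : m = 6 ∨ m = 7 ∨ m = 8 := by omega
  rcases hcase with h | h | h
  · subst h
    have hN := num_6 (q := q) (by push_cast at hq1; linarith) (by push_cast at hq2; linarith)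
    have hle : al 6 q ≤ 1 / 3 := by
      unfold al
      push_cast
      nlinarith [sq_nonneg (q - 2)]
    refine mid_678_aux.core hm hq1 hq2 a ha i hi (β := 9 / 256) (by norm_num)
      (fun u hu => (maj_678 hk hal hu).1 hle) hN.1 ?_
    refine le_trans (le_of_eq ?_) hN.2
    push_cast
    ring
  · subst h
    push_cast at hq1 hq2
    have hN := num_7 (q := q) (by linarith) (by linarith)
    have hle : al 7 q ≤ 3 / 7 := by
      unfold al
      push_cast
      nlinarith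
    refine mid_678_aux.core hm (by push_cast; linarith) (by push_cast; linarith) a ha i hi
      (β := 0.065) (by norm_num) (fun u hu => (maj_678 hk hal hu).2.1 hle) hN.1 ?_
    refine le_trans (le_of_eq ?_) hN.2
    push_cast
    norm_num
  · subst h
    push_cast at hq1 hq2
    have hN := num_8 (q := q) (by linarith) (by linarith)
    have hle : al 8 q ≤ 1 / 2 := by
      unfold al
      push_cast
      nlinarith
    refine mid_678_aux.core hm (by push_cast; linarith) (by push_cast; linarith) a ha i hi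
      (β := 0.094) (by norm_num) (fun u hu => (maj_678 hk hal hu).2.2 hle) hN.1 ?_
    refine le_trans (le_of_eq ?_) hN.2
    push_cast
    norm_num

end

section

namespace mid_5_aux

lemma al_val (q : ℝ) : al 5 q = q * (3 - q) / 10 := by
  unfold al
  push_cast
  ring

lemma al2_nonneg {q : ℝ} (hq1 : 1 < q) (hq2 : q < 3) : 0 ≤ al2 5 q := by
  have h : al2 5 q = q * (3 - q) * (q + 2) * (q - 1) / 280 := by
    unfold al2
    push_cast
    ring
  rw [h]
  have h1 : 0 ≤ q := by linarith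
  have h2 : 0 ≤ 3 - q := by linarith
  have h3 : 0 ≤ q + 2 := by linarith
  have h4 : 0 ≤ q - 1 := by linarith
  positivity

lemma num_x {x V : ℝ} (hx0 : 0 < x) (hx1 : x < 1) (hV0 : 0 ≤ V) (hV1 : V ≤ 2 / 5 * x ^ 2) :
    x ^ 3 + 3 * x * V + 2 * V ^ 2 / x ≤ 2.52 * x := by
  have h1 : 3 * x * V ≤ 6 / 5 * x ^ 3 := by
    have := mul_le_mul_of_nonneg_left hV1 (by positivity : 0 ≤ 3 * x)
    linarith
  have h2 : 2 * V ^ 2 / x ≤ 8 / 25 * x ^ 3 := by
    rw [div_le_iff₀ hx0]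
    have h3 : V ^ 2 ≤ (2 / 5 * x ^ 2) ^ 2 := pow_le_pow_left₀ hV0 hV1 2
    linarith
  have h3 : x ^ 3 ≤ x := by
    have : x ^ 2 ≤ 1 := pow_le_one₀ hx0.le hx1.le
    nlinarith
  linarith

lemma main {n : ℕ} {q : ℝ} (hq1 : 1 < q) (hq2 : q < 3)
    (a : Fin (n + 1) → ℝ) (ha : ∑ j, a j ^ 2 = 1) (i : Fin (n + 1)) (hi : 1 / 2 < a i ^ 2)
    (P3 : ℝ) (hP3 : 0 ≤ P3)
    (hmaj : ∀ u : ℝ, 1 ≤ u →
      u ^ (-(q / 2)) * (1 - al 5 q / u) ≤ 1 - al 5 q * u + P3 * u ^ 3)
    (hn1 : 1 ≤ 2 ^ (-(q / 2)) * Cinf 5 q * (1 + q / 4))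
    (hn2 : 1 - al 5 q + 2.52 * P3 ≤ 2 ^ (-(q / 2)) * Cinf 5 q) :
    EN 5 q a ≤ ENNReal.ofReal (max (C2 5 q) (Cinf 5 q)) := by
  have h50 : ((5 : ℕ) : ℝ) = 5 := by norm_num
  have hal2 := al2_nonneg hq1 hq2
  have hal : 0 ≤ al 5 q := by
    rw [al_val]
    have h2 : 0 ≤ 3 - q := by linarith
    positivity
  refine EN_big (by norm_num) (by linarith) (by rw [h50]; linarith) a ha i hi 1 (-al 5 q) 0 P3
    (2 ^ (-(q / 2)) * Cinf 5 q) hP3 ?_ ?_ ?_
  · intro r hr
    rcases le_total r 1 with h1 | h1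
    · refine (hE_poly_lt (by norm_num) (by linarith) (by rw [h50]; linarith)
        (by rw [h50]; linarith) hr h1).trans ?_
      apply ENNReal.ofReal_le_ofReal
      have e1 : 0 ≤ al2 5 q * r ^ 4 := by positivity
      have e2 : 0 ≤ P3 * r ^ 6 := by positivity
      linarith
    · refine (hE_poly_gt (by norm_num) (by linarith) (by rw [h50]; linarith)
        (by rw [h50]; linarith) h1).trans ?_
      apply ENNReal.ofReal_le_ofReal
      have hr0 : 0 < r := by linarith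
      have e1 : 0 ≤ al2 5 q / r ^ 4 := by positivity
      have e2 : 0 ≤ r ^ (-q) := Real.rpow_nonneg hr _
      have e3 : (r ^ 2) ^ (-(q / 2)) = r ^ (-q) := by
        rw [← Real.rpow_natCast r 2, ← Real.rpow_mul hr]
        congr 1
        push_cast
        ring
      have e4 := hmaj (r ^ 2) (one_le_pow₀ h1)
      rw [e3] at e4
      calc r ^ (-q) * (1 - al 5 q / r ^ 2 - al2 5 q / r ^ 4)
          ≤ r ^ (-q) * (1 - al 5 q / r ^ 2) := mul_le_mul_of_nonneg_left (by linarith) e2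
        _ ≤ 1 - al 5 q * r ^ 2 + P3 * (r ^ 2) ^ 3 := e4
        _ = 1 + -al 5 q * r ^ 2 + 0 * r ^ 4 + P3 * r ^ 6 := by ring
  · exact mul_le_mul_of_nonneg_left (le_max_right _ _) (by positivity)
  · intro x V _ _ hx0 hx1 hV0 hV1
    rw [h50] at hV1
    have e1 := num_x hx0 hx1 hV0 hV1
    have e2 := mul_le_mul_of_nonneg_left e1 hP3
    have e3 := mul_le_mul_of_nonneg_left hn1 (by linarith : 0 ≤ 1 - x)
    have e4 := mul_le_mul_of_nonneg_left hn2 hx0.le
    nlinarith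

end mid_5_aux

theorem mid_5 {n : ℕ} {q : ℝ} (hq1 : 1 < q) (hq2 : q < 3)
    (a : Fin (n + 1) → ℝ) (ha : ∑ j, a j ^ 2 = 1) (i : Fin (n + 1)) (hi : 1 / 2 < a i ^ 2) :
    EN 5 q a ≤ ENNReal.ofReal (max (C2 5 q) (Cinf 5 q)) := by
  have hal : 0 ≤ al 5 q := by
    rw [mid_5_aux.al_val]
    have h2 : 0 ≤ 3 - q := by linarith
    have h3 : 0 < q := by linarith
    positivity
  have hal1 : al 5 q ≤ 9 / 40 := by
    rw [mid_5_aux.al_val]
    nlinarith [sq_nonneg (q - 3 / 2)]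
  rcases le_total q (3 / 2) with h | h
  · obtain ⟨h1, h2⟩ := num_5a hq1 h
    refine mid_5_aux.main hq1 hq2 a ha i hi 0.01 (by norm_num) ?_ h1 ?_
    · intro u hu
      exact maj_5a (by linarith) hal hal1 hu
    · refine le_trans (le_of_eq ?_) h2
      norm_num
  · obtain ⟨h1, h2⟩ := num_5b h hq2
    refine mid_5_aux.main hq1 hq2 a ha i hi 0.0037 (by norm_num) ?_ h1 ?_
    · intro u hu
      exact maj_5b (by linarith) hal hal1 hu
    · refine le_trans ?_ h2
      norm_num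

end

section

namespace mid_4_aux

theorem al_eq (k : ℝ) : al 4 (2 * k) = k * (1 - k) / 2 := by
  unfold al; push_cast; ring

theorem al2_eq (k : ℝ) : al2 4 (2 * k) = k ^ 2 * (1 - k ^ 2) / 12 := by
  unfold al2; push_cast; ring

theorem mu_le (k : ℝ) : Real.Gamma (2 - k) ≤
    2 ^ (-(2 * k / 2)) * max (C2 4 (2 * k)) (Cinf 4 (2 * k)) := by
  have h1 : Real.Gamma (2 - k) = 2 ^ (-(2 * k / 2)) * Cinf 4 (2 * k) := by
    unfold Cinf
    have e1 : (((4 : ℕ) : ℝ) - 2 * k) / 2 = 2 - k := by push_cast; ring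
    have e2 : ((4 : ℕ) : ℝ) / 2 = 2 := by norm_num
    have e3 : 2 * k / 2 = k := by ring
    rw [e1, e2, e3, Real.Gamma_two, div_one, ← mul_assoc, ← Real.rpow_add (by norm_num)]
    simp
  calc Real.Gamma (2 - k) = 2 ^ (-(2 * k / 2)) * Cinf 4 (2 * k) := h1
    _ ≤ _ := by
      apply mul_le_mul_of_nonneg_left (le_max_right _ _)
      positivity

theorem rpow_sq (k r : ℝ) (hr : 0 ≤ r) : r ^ (-(2 * k)) = (r ^ 2) ^ (-k) := by
  rw [← Real.rpow_natCast r 2, ← Real.rpow_mul hr]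
  congr 1
  push_cast
  ring

theorem cub (x V : ℝ) (hx : 0 < x) (hx1 : x < 1) (hV : 0 ≤ V) (hV2 : V ≤ x ^ 2 / 2) :
    x ^ 3 + 3 * x * V + 2 * V ^ 2 / x ≤ 3 * x := by
  have h1 : 2 * V ^ 2 / x ≤ x ^ 3 / 2 := by
    rw [div_le_iff₀ hx]
    nlinarith [mul_nonneg hV (sub_nonneg.mpr hV2), sq_nonneg x, mul_nonneg (sq_nonneg x) (sub_nonneg.mpr hV2)]
  have h2 : 3 * x * V ≤ 3 * x * (x ^ 2 / 2) := mul_le_mul_of_nonneg_left hV2 (by positivity)
  have h3 : x ^ 3 ≤ x := by nlinarith [mul_pos hx hx]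
  nlinarith

/-- the common frame -/
theorem frame {n : ℕ} {k : ℝ} (hk : 0 < k) (hk1 : k < 1)
    (a : Fin (n + 1) → ℝ) (ha : ∑ j, a j ^ 2 = 1) (i : Fin (n + 1)) (hi : 1 / 2 < a i ^ 2)
    (P2 P3 : ℝ) (hP2 : P2 ≤ 0) (hP2' : -(k ^ 2 * (1 - k ^ 2) / 12) ≤ P2) (hP3 : 0 ≤ P3)
    (hmaj : ∀ u : ℝ, 1 ≤ u →
      u ^ (-k) * (1 - k * (1 - k) / 2 / u - k ^ 2 * (1 - k ^ 2) / 12 / u ^ 2) ≤
        1 - k * (1 - k) / 2 * u + P2 * u ^ 2 + P3 * u ^ 3)
    (h0 : 1 - P2 ≤ Real.Gamma (2 - k) * (1 + k / 2))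
    (h1 : 1 - k * (1 - k) / 2 + P2 + 3 * P3 ≤ Real.Gamma (2 - k)) :
    EN 4 (2 * k) a ≤ ENNReal.ofReal (max (C2 4 (2 * k)) (Cinf 4 (2 * k))) := by
  have hal := al_eq k
  have hal2 := al2_eq k
  apply EN_big (by norm_num) (by linarith) (by norm_num; linarith) a ha i hi 1
    (-(k * (1 - k) / 2)) P2 P3 (Real.Gamma (2 - k)) hP3 ?_ (mu_le k) ?_
  · intro r hr
    rcases le_total r 1 with hr1 | hr1
    · refine (hE_poly_lt (m := 4) (q := 2 * k) (by norm_num) (by linarith) (by norm_num; linarith)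
        (by norm_num; linarith) hr hr1).trans ?_
      apply ENNReal.ofReal_le_ofReal
      rw [hal, hal2]
      have e1 : 0 ≤ P3 * r ^ 6 := by positivity
      have e2 : -(k ^ 2 * (1 - k ^ 2) / 12) * r ^ 4 ≤ P2 * r ^ 4 :=
        mul_le_mul_of_nonneg_right hP2' (by positivity)
      linarith
    · refine (hE_poly_gt (m := 4) (q := 2 * k) (by norm_num) (by linarith) (by norm_num; linarith)
        (by norm_num; linarith) hr1).trans ?_
      apply ENNReal.ofReal_le_ofReal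
      rw [hal, hal2, rpow_sq k r hr]
      have hu : 1 ≤ r ^ 2 := one_le_pow₀ hr1
      have h := hmaj (r ^ 2) hu
      have e1 : (r ^ 2) ^ 2 = r ^ 4 := by ring
      have e2 : (r ^ 2) ^ 3 = r ^ 6 := by ring
      rw [e1, e2] at h
      linarith
  · intro x V _ _ hx hx1 hV hV2
    have hV3 : V ≤ x ^ 2 / 2 := by
      have : (2 : ℝ) / ((4 : ℕ) : ℝ) * x ^ 2 = x ^ 2 / 2 := by push_cast; ring
      linarith
    have hc := cub x V hx hx1 hV hV3
    have e1 : P3 * (x ^ 3 + 3 * x * V + 2 * V ^ 2 / x) ≤ P3 * (3 * x) :=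
      mul_le_mul_of_nonneg_left hc hP3
    have e2 : P2 * (x ^ 2 + V) ≤ P2 * (2 * x - 1) := by
      apply mul_le_mul_of_nonpos_left _ hP2
      nlinarith [sq_nonneg (x - 1)]
    have e3 := mul_le_mul_of_nonneg_left h0 (show (0 : ℝ) ≤ 1 - x by linarith)
    have e4 := mul_le_mul_of_nonneg_left h1 hx.le
    nlinarith

end mid_4_aux

theorem mid_4 {n : ℕ} {q : ℝ} (hq1 : 0 < q) (hq2 : q < 2)
    (a : Fin (n + 1) → ℝ) (ha : ∑ j, a j ^ 2 = 1) (i : Fin (n + 1)) (hi : 1 / 2 < a i ^ 2) :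
    EN 4 q a ≤ ENNReal.ofReal (max (C2 4 q) (Cinf 4 q)) := by
  obtain ⟨k, rfl⟩ : ∃ k, q = 2 * k := ⟨q / 2, by ring⟩
  have hk : 0 < k := by linarith
  have hk1 : k < 1 := by linarith
  obtain ⟨n1, n2, n3, n4⟩ := num_4 hk hk1
  have hkk : 0 ≤ k ^ 2 * (1 - k ^ 2) / 12 := by
    have : k ^ 2 ≤ 1 := by nlinarith
    have h1 : 0 ≤ 1 - k ^ 2 := by linarith
    positivity
  have hdrop : ∀ u : ℝ, 1 ≤ u →
      u ^ (-k) * (1 - k * (1 - k) / 2 / u - k ^ 2 * (1 - k ^ 2) / 12 / u ^ 2) ≤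
        u ^ (-k) * (1 - k * (1 - k) / 2 / u) := by
    intro u hu
    have hu0 : 0 < u := by linarith
    apply mul_le_mul_of_nonneg_left _ (Real.rpow_nonneg hu0.le _)
    have : 0 ≤ k ^ 2 * (1 - k ^ 2) / 12 / u ^ 2 := div_nonneg hkk (by positivity)
    linarith
  rcases le_total k 0.3 with c1 | c1
  · obtain ⟨g1, g2⟩ := n1 c1
    apply mid_4_aux.frame hk hk1 a ha i hi 0 (0.0088 * k) le_rfl (by linarith) (by positivity)
    · intro u hu
      have := maj_4a hk hk1.le hu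
      have := hdrop u hu
      linarith
    · linarith
    · linarith
  · rcases le_total k 0.5 with c2 | c2
    · obtain ⟨g1, g2⟩ := n2 c1 c2
      apply mid_4_aux.frame hk hk1 a ha i hi 0 (0.0036 * k) le_rfl (by linarith) (by positivity)
      · intro u hu
        have := maj_4b c1 hk1.le hu
        have := hdrop u hu
        linarith
      · linarith
      · linarith
    · rcases le_total k 0.75 with c3 | c3
      · obtain ⟨g1, g2⟩ := n3 c2 c3
        apply mid_4_aux.frame hk hk1 a ha i hi (-(k ^ 2 * (1 - k ^ 2) / 12)) 0.005 (by linarith)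
          le_rfl (by norm_num)
        · intro u hu
          have := maj_4c c2 hk1.le hu
          linarith
        · linarith
        · linarith
      · obtain ⟨g1, g2⟩ := n4 c3
        apply mid_4_aux.frame hk hk1 a ha i hi (-(k ^ 2 * (1 - k ^ 2) / 12)) (0.015 * (1 - k))
          (by linarith) le_rfl (by nlinarith)
        · intro u hu
          have := maj_4d c3 hk1.le hu
          linarith
        · linarith
        · linarith

end

end H618KS
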