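import Pool.Agent.Helper618_KS.Defs

/-!
Part `MajThree` of the proof for MP_237b21_an.
-/

open MeasureTheory Filter Topology Set Real
open scoped ENNReal NNReal

set_option autoImplicit false

namespace H618KS

section

namespace maj_3a_aux

theorem exp_neg_le {x : ℝ} (hx : 0 ≤ x) : Real.exp (-x) ≤ 1 - x + x ^ 2 / 2 := by
  have h1 := Real.quadratic_le_exp_of_nonneg hx
  have h2 : 0 < Real.exp x := Real.exp_pos x
  have h3 : Real.exp (-x) * Real.exp x = 1 := by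
    rw [← Real.exp_add]
    simp
  have h4 : 0 < 1 - x + x ^ 2 / 2 := by nlinarith [sq_nonneg (x - 1)]
  have h5 : (1 - x + x ^ 2 / 2) * (1 + x + x ^ 2 / 2) ≤ (1 - x + x ^ 2 / 2) * Real.exp x :=
    mul_le_mul_of_nonneg_left h1 h4.le
  have h6 : 1 ≤ (1 - x + x ^ 2 / 2) * (1 + x + x ^ 2 / 2) := by
    have : (1 - x + x ^ 2 / 2) * (1 + x + x ^ 2 / 2) = 1 + x ^ 4 / 4 := by ring
    rw [this]
    have : 0 ≤ x ^ 4 := by positivity
    linarith
  have h7 : Real.exp (-x) * Real.exp x ≤ (1 - x + x ^ 2 / 2) * Real.exp x := by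
    rw [h3]
    exact h6.trans h5
  exact le_of_mul_le_mul_right h7 h2

theorem four {k : ℝ} (hk : 0 < k) : (4 : ℝ) ^ (-k) ≤ 1 - 4 * (k * (1 - 2 * k) / 3) := by
  have h1 : Real.log 4 = 2 * Real.log 2 := by
    rw [show (4 : ℝ) = 2 ^ 2 by norm_num, Real.log_pow]
    norm_num
  have h2 := Real.log_two_gt_d9
  have h3 := Real.log_two_lt_d9
  have h4 : (4 : ℝ) ^ (-k) = Real.exp (-(k * Real.log 4)) := by
    rw [Real.rpow_def_of_pos (by norm_num)]
    congr 1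
    ring
  rw [h4]
  have h5 : 4 / 3 ≤ Real.log 4 := by rw [h1]; linarith
  have h6 : Real.log 4 ≤ 2 := by rw [h1]; linarith
  have h7 : 0 ≤ k * Real.log 4 := by positivity
  refine (exp_neg_le h7).trans ?_
  have h8 : k * (4 / 3) ≤ k * Real.log 4 := mul_le_mul_of_nonneg_left h5 hk.le
  have h9 : Real.log 4 ^ 2 ≤ 4 := by nlinarith
  have h10 : k ^ 2 * Real.log 4 ^ 2 ≤ k ^ 2 * 4 := mul_le_mul_of_nonneg_left h9 (by positivity)
  nlinarith [sq_nonneg k]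

theorem conc {k : ℝ} (hk : 0 < k) (hk1 : k < 1 / 2) :
    ConcaveOn ℝ (Icc (1 : ℝ) 4) fun u => 1 - k * (1 - 2 * k) / 3 * u - u ^ (-k) +
      k * (1 - 2 * k) / 3 * u ^ (-k - 1) := by
  set al : ℝ := k * (1 - 2 * k) / 3 with hal
  have hal0 : 0 ≤ al := by
    have : 0 ≤ 1 - 2 * k := by linarith
    positivity
  refine concaveOn_of_hasDerivWithinAt2_nonpos (f' := fun u => -al + k * u ^ (-k - 1) -
      al * (k + 1) * u ^ (-k - 2)) (f'' := fun u => -k * (k + 1) * u ^ (-k - 2) +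
      al * (k + 1) * (k + 2) * u ^ (-k - 3)) (convex_Icc 1 4) ?_ ?_ ?_ ?_
  · intro u hu
    have hu0 : u ≠ 0 := by have := hu.1; positivity
    refine ContinuousAt.continuousWithinAt ?_
    have h1 : ContinuousAt (fun u : ℝ => u ^ (-k)) u :=
      Real.continuousAt_rpow_const _ _ (Or.inl hu0)
    have h2 : ContinuousAt (fun u : ℝ => u ^ (-k - 1)) u :=
      Real.continuousAt_rpow_const _ _ (Or.inl hu0)
    fun_prop
  · intro u hu
    rw [interior_Icc] at hu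
    have hu0 : u ≠ 0 := by have := hu.1; positivity
    have h1 := Real.hasDerivAt_rpow_const (x := u) (p := -k) (Or.inl hu0)
    have h2 := Real.hasDerivAt_rpow_const (x := u) (p := -k - 1) (Or.inl hu0)
    have h3 := ((((hasDerivAt_id u).const_mul al).const_sub 1).sub h1).add (h2.const_mul al)
    refine HasDerivAt.hasDerivWithinAt ?_
    refine h3.congr_deriv ?_
    rw [show -k - 1 - 1 = -k - 2 by ring]
    ring
  · intro u hu
    rw [interior_Icc] at hu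
    have hu0 : u ≠ 0 := by have := hu.1; positivity
    have h1 := Real.hasDerivAt_rpow_const (x := u) (p := -k - 1) (Or.inl hu0)
    have h2 := Real.hasDerivAt_rpow_const (x := u) (p := -k - 2) (Or.inl hu0)
    have h3 := ((h1.const_mul k).const_add (-al)).sub (h2.const_mul (al * (k + 1)))
    refine HasDerivAt.hasDerivWithinAt ?_
    refine h3.congr_deriv ?_
    rw [show -k - 1 - 1 = -k - 2 by ring, show -k - 2 - 1 = -k - 3 by ring]
    ring
  · intro u hu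
    rw [interior_Icc] at hu
    have hu0 : 0 < u := by have := hu.1; positivity
    have h1 : u ^ (-k - 2) = u * u ^ (-k - 3) := by
      rw [show -k - 2 = 1 + (-k - 3) by ring, Real.rpow_add hu0, Real.rpow_one]
    have h2 : 0 < u ^ (-k - 3) := by positivity
    have h3 : al * (k + 2) ≤ k * u := by
      have h4 : al * (k + 2) ≤ k := by
        rw [hal]
        nlinarith [mul_pos hk hk, mul_pos (mul_pos hk hk) hk]
      have h5 : k * 1 ≤ k * u := mul_le_mul_of_nonneg_left hu.1.le hk.le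
      linarith
    rw [h1]
    have h4 : -k * (k + 1) * (u * u ^ (-k - 3)) + al * (k + 1) * (k + 2) * u ^ (-k - 3) =
        -((k + 1) * u ^ (-k - 3) * (k * u - al * (k + 2))) := by ring
    rw [h4]
    have h5 : 0 ≤ (k + 1) * u ^ (-k - 3) * (k * u - al * (k + 2)) := by
      have : 0 ≤ k * u - al * (k + 2) := by linarith
      positivity
    linarith

end maj_3a_aux

theorem maj_3a {k u : ℝ} (hk : 0 < k) (hk1 : k < 1 / 2) (hu : 1 ≤ u) :
    u ^ (-k) * (1 - k * (1 - 2 * k) / 3 / u) ≤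
      1 - k * (1 - 2 * k) / 3 * (u - u ^ 2 / 16) := by
  have hu0 : 0 < u := by linarith
  have h4 := maj_3a_aux.four hk
  have hc := maj_3a_aux.conc hk hk1
  have hal0 : 0 ≤ k * (1 - 2 * k) / 3 := by
    have : 0 ≤ 1 - 2 * k := by linarith
    positivity
  generalize hal : k * (1 - 2 * k) / 3 = al at *
  rcases le_total u 4 with h | h
  · have h5 : (0 : ℝ) ≤ 1 - al * u - u ^ (-k) + al * u ^ (-k - 1) := by
      have h6 := hc.min_le_of_mem_Icc (x := 1) (y := 4) (z := u) (by norm_num) (by norm_num)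
        ⟨hu, h⟩
      have h7 : (1 : ℝ) - al * 1 - 1 ^ (-k) + al * 1 ^ (-k - 1) = 0 := by
        rw [Real.one_rpow, Real.one_rpow]
        ring
      have h8 : (0 : ℝ) ≤ 1 - al * 4 - 4 ^ (-k) + al * 4 ^ (-k - 1) := by
        have : (0 : ℝ) ≤ al * 4 ^ (-k - 1) := by positivity
        linarith
      rw [h7, min_eq_left h8] at h6
      exact h6
    have h6 : u ^ (-k - 1) = u ^ (-k) / u := by
      rw [Real.rpow_sub hu0, Real.rpow_one]
    rw [h6] at h5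
    have h7 : 0 ≤ al * (u ^ 2 / 16) := by positivity
    have h8 : u ^ (-k) * (1 - al / u) = u ^ (-k) - al * (u ^ (-k) / u) := by ring
    rw [h8]
    nlinarith
  · have h5 : u ^ (-k) ≤ (4 : ℝ) ^ (-k) :=
      Real.rpow_le_rpow_of_nonpos (by norm_num) h (by linarith)
    have h6 : u ^ (-k) * (1 - al / u) ≤ u ^ (-k) := by
      have : 0 ≤ u ^ (-k) * (al / u) := by positivity
      nlinarith
    have h7 : al * (u - u ^ 2 / 16) ≤ al * 4 :=
      mul_le_mul_of_nonneg_left (by nlinarith [sq_nonneg (u - 8)]) hal0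
    linarith

end

section

namespace maj_3b_low_aux

theorem log_four : Real.log 4 ≤ 1.3863 := by
  have h : (4 : ℝ) = 2 ^ 2 := by norm_num
  rw [h, Real.log_pow]
  have := Real.log_two_lt_d9
  push_cast
  linarith

theorem four_rpow : (0.607 : ℝ) ≤ 4 ^ (-0.36 : ℝ) := by
  by_contra hc
  push Not at hc
  have h0 : (0 : ℝ) < 4 ^ (-0.36 : ℝ) := Real.rpow_pos_of_pos (by norm_num) _
  have h1 : ((4 : ℝ) ^ (-0.36 : ℝ)) ^ 25 < 0.607 ^ 25 := pow_lt_pow_left₀ hc h0.le (by norm_num)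
  have h2 : ((4 : ℝ) ^ (-0.36 : ℝ)) ^ 25 = (4 ^ 9)⁻¹ := by
    rw [← Real.rpow_natCast, ← Real.rpow_mul (by norm_num)]
    have : (-0.36 : ℝ) * ((25 : ℕ) : ℝ) = -((9 : ℕ) : ℝ) := by norm_num
    rw [this, Real.rpow_neg (by norm_num), Real.rpow_natCast]
  rw [h2] at h1
  norm_num at h1

theorem four_rpow_k {k : ℝ} (hk : 0.36 ≤ k) (hk1 : k < 1 / 2) :
    0.607 * (1 - 1.3863 * (k - 0.36)) ≤ 4 ^ (-k) := by
  have h1 : (4 : ℝ) ^ (-k) = 4 ^ (-0.36 : ℝ) * 4 ^ (-(k - 0.36)) := by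
    rw [← Real.rpow_add (by norm_num)]
    congr 1
    ring
  have h2 : 1 - 1.3863 * (k - 0.36) ≤ (4 : ℝ) ^ (-(k - 0.36)) := by
    rw [Real.rpow_def_of_pos (by norm_num)]
    have h3 := Real.add_one_le_exp (Real.log 4 * -(k - 0.36))
    have h4 := log_four
    nlinarith
  rw [h1]
  have h5 : 0 ≤ 1 - 1.3863 * (k - 0.36) := by norm_num at *; linarith
  exact mul_le_mul four_rpow h2 h5 (Real.rpow_nonneg (by norm_num) _)

end maj_3b_low_aux

theorem maj_3b_low {k u : ℝ} (hk : 0.36 ≤ k) (hk1 : k < 1 / 2) (hu : 0 ≤ u) (hu1 : u ≤ 4 / 5) :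
    1 - k * (1 - 2 * k) / 3 * u ≤
      4 ^ (-k) / (1 - k) * (1 + k / 2 * (1 - u)) - 0.035 * (u - 1) ^ 2 * (2.1 - u) := by
  have h1 := maj_3b_low_aux.four_rpow_k hk hk1
  set N : ℝ := 0.607 * (1 - 1.3863 * (k - 0.36)) with hN
  set P : ℝ := 4 ^ (-k) with hP
  have hk0 : 0 < 1 - k := by linarith
  obtain ⟨v, rfl⟩ : ∃ v, u = 1 - v := ⟨1 - u, by ring⟩
  have hv1 : v ≤ 1 := by linarith
  have hv2 : 1 / 5 ≤ v := by linarith
  have hk' : 9 / 25 ≤ k := by norm_num at hk; linarith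
  -- the cubic term
  have h2 : v ^ 2 * (1.1 + v) ≤ 2.56 * v - 0.46 := by
    have e1 : 0 ≤ (v - 1 / 5) * (1 - v) := mul_nonneg (by linarith) (by linarith)
    have e2 : 0 ≤ (v - 1 / 5) * (1 - v) * (v + 1.2) := mul_nonneg e1 (by norm_num; linarith)
    norm_num
    nlinarith
  -- end points
  have hA : 0 ≤ N * (1 + 0.1 * k) - (1 - k) * (1.00182 - 0.8 * (k * (1 - 2 * k) / 3)) := by
    rw [hN]
    norm_num
    nlinarith [mul_nonneg (sub_nonneg.2 hk') (sub_nonneg.2 hk1.le),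
      mul_nonneg (mul_nonneg (sub_nonneg.2 hk') (sub_nonneg.2 hk1.le)) (sub_nonneg.2 hk')]
  have hB : 0 ≤ N * (1 + k / 2) - (1 - k) * 1.0735 := by
    rw [hN]
    norm_num
    nlinarith [mul_nonneg (sub_nonneg.2 hk') (sub_nonneg.2 hk1.le)]
  have h3 : (1 - k) * (1 - k * (1 - 2 * k) / 3 * (1 - v) + 0.035 * v ^ 2 * (1.1 + v)) ≤
      N * (1 + k / 2 * v) := by
    have e1 : 0 ≤ (v - 1 / 5) * (5 / 4) * (N * (1 + k / 2) - (1 - k) * 1.0735) :=
      mul_nonneg (by linarith) hB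
    have e2 : 0 ≤ (1 - v) * (5 / 4) *
        (N * (1 + 0.1 * k) - (1 - k) * (1.00182 - 0.8 * (k * (1 - 2 * k) / 3))) :=
      mul_nonneg (by linarith) hA
    have e3 : (1 - k) * (0.035 * (v ^ 2 * (1.1 + v))) ≤ (1 - k) * (0.035 * (2.56 * v - 0.46)) := by
      apply mul_le_mul_of_nonneg_left _ hk0.le
      norm_num at h2 ⊢
      linarith
    norm_num at e1 e2 e3 ⊢
    nlinarith [e1, e2, e3]
  have h4 : N * (1 + k / 2 * v) ≤ P * (1 + k / 2 * v) := by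
    apply mul_le_mul_of_nonneg_right h1
    nlinarith
  have h5 : (1 - k) * (1 - k * (1 - 2 * k) / 3 * (1 - v) + 0.035 * v ^ 2 * (1.1 + v)) ≤
      P * (1 + k / 2 * v) := h3.trans h4
  have h6 : 1 - k * (1 - 2 * k) / 3 * (1 - v) + 0.035 * v ^ 2 * (1.1 + v) ≤
      P / (1 - k) * (1 + k / 2 * v) := by
    have e1 : P / (1 - k) * (1 + k / 2 * v) = P * (1 + k / 2 * v) / (1 - k) := by ring
    rw [e1, le_div_iff₀ hk0]
    linarith
  have h7 : (1 - v - 1) ^ 2 * (2.1 - (1 - v)) = v ^ 2 * (1.1 + v) := by ring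
  have h8 : 1 - (1 - v) = v := by ring
  rw [h8, mul_assoc 0.035, h7]
  linarith

end

section

namespace maj_3b_near_aux

/-- The power `x ^ (2 - 2 k)` is large for small `x`. -/
theorem pow_low {k x : ℝ} (hk : 0.36 ≤ k) (hk1 : k < 1 / 2) (hx : 0 ≤ x) (hx1 : x ≤ 1 / 16) :
    5 * x ^ 2 ≤ x ^ (2 - 2 * k) := by
  rcases hx.eq_or_lt with h0 | h0
  · rw [← h0, Real.zero_rpow (by linarith)]
    norm_num
  have h1 : x ^ (2 - 2 * k) = x ^ 2 * x ^ (-(2 * k)) := by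
    rw [sub_eq_add_neg, Real.rpow_add h0, Real.rpow_two]
  have h2 : (5 : ℝ) ≤ (16 : ℝ) ^ (3 / 5 : ℝ) := by
    have h3 : ((5 : ℝ) ^ 5) ≤ 16 ^ 3 := by norm_num
    have h4 : ((16 : ℝ) ^ (3 / 5 : ℝ)) ^ 5 = 16 ^ 3 := by
      rw [← Real.rpow_natCast, ← Real.rpow_mul (by norm_num), ← Real.rpow_natCast]
      norm_num
    rw [← h4] at h3
    exact le_of_pow_le_pow_left₀ (by norm_num) (by positivity) h3
  have h3 : (5 : ℝ) ≤ x ^ (-(2 * k)) := by
    rw [Real.rpow_neg hx, ← Real.inv_rpow hx]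
    have h5 : (16 : ℝ) ≤ x⁻¹ := by
      rw [le_inv_comm₀ (by norm_num) h0]
      linarith
    calc (5 : ℝ) ≤ 16 ^ (3 / 5 : ℝ) := h2
      _ ≤ 16 ^ (2 * k) := Real.rpow_le_rpow_of_exponent_le (by norm_num) (by linarith)
      _ ≤ x⁻¹ ^ (2 * k) := Real.rpow_le_rpow (by norm_num) h5 (by linarith)
  rw [h1]
  nlinarith [sq_nonneg x]

/-- The power `a ^ (2 - 2 k)` is at most the interpolation of `a` and `a ^ 2`. -/
theorem pow_up {k a : ℝ} (hk : 0 ≤ k) (hk1 : k < 1 / 2) (ha : 0 ≤ a) :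
    a ^ (2 - 2 * k) ≤ 2 * k * a + (1 - 2 * k) * a ^ 2 := by
  have h := Real.geom_mean_le_arith_mean2_weighted (w₁ := 2 * k) (w₂ := 1 - 2 * k) (p₁ := a)
    (p₂ := a ^ 2) (by linarith) (by linarith) ha (sq_nonneg a) (by ring)
  refine le_trans (le_of_eq ?_) h
  rw [← Real.rpow_natCast a 2, ← Real.rpow_mul ha, ← Real.rpow_add' ha]
  · congr 1
    push_cast
    ring
  · push_cast
    intro h1
    linarith

theorem two_pow {k : ℝ} : (2 : ℝ) ^ (2 - 2 * k) = 4 * 4 ^ (-k) := by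
  have h4 : (4 : ℝ) = 2 ^ (2 : ℝ) := by norm_num
  rw [sub_eq_add_neg, Real.rpow_add (by norm_num), h4, ← Real.rpow_mul (by norm_num)]
  congr 2
  ring

/-- The lower bound for the value at `1`. -/
theorem h1_low {k : ℝ} (hk : 0.36 ≤ k) (hk1 : k < 1 / 2) : 1 / 2 ≤ 4 ^ (-k) / (1 - k) := by
  have h1 : (1 : ℝ) / 2 ≤ 4 ^ (-k) := by
    have h2 : (1 : ℝ) / 2 = 4 ^ (-(1 / 2) : ℝ) := by
      rw [Real.rpow_neg (by norm_num), ← Real.sqrt_eq_rpow]
      rw [show (4 : ℝ) = 2 ^ 2 by norm_num, Real.sqrt_sq (by norm_num)]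
      norm_num
    rw [h2]
    exact Real.rpow_le_rpow_of_exponent_le (by norm_num) (by linarith)
  rw [le_div_iff₀ (by linarith)]
  nlinarith

/-- The reduction of the target. -/
theorem reduce {k u ρ X : ℝ} (hk : 0.36 ≤ k) (hk1 : k < 1 / 2) (hρ : 0 < ρ)
    (hu : u = ρ ^ 2) (hu1 : u ≤ 5 / 4)
    (hX : X ≤ ρ * (1 + k / 2 * (1 - u) - 0.07 * ((u - 1) ^ 2 * (2.1 - u)))) :
    2 ^ (2 - 2 * k) * X / (2 * (2 - 2 * k) * ρ) ≤
      4 ^ (-k) / (1 - k) * (1 + k / 2 * (1 - u)) - 0.035 * (u - 1) ^ 2 * (2.1 - u) := by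
  have h1 := h1_low hk hk1
  set h : ℝ := 4 ^ (-k) / (1 - k) with hh
  have h2 : 2 ^ (2 - 2 * k) * X / (2 * (2 - 2 * k) * ρ) = h * (X / ρ) := by
    rw [two_pow, hh]
    have h3 : (1 : ℝ) - k ≠ 0 := by linarith
    have h4 : (2 : ℝ) - 2 * k ≠ 0 := by linarith
    field_simp
    ring
  rw [h2]
  have h3 : X / ρ ≤ 1 + k / 2 * (1 - u) - 0.07 * ((u - 1) ^ 2 * (2.1 - u)) := by
    rw [div_le_iff₀ hρ]
    linarith
  have h4 : 0 ≤ (u - 1) ^ 2 * (2.1 - u) := mul_nonneg (sq_nonneg _) (by linarith)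
  have h5 : h * (X / ρ) ≤ h * (1 + k / 2 * (1 - u) - 0.07 * ((u - 1) ^ 2 * (2.1 - u))) :=
    mul_le_mul_of_nonneg_left h3 (by linarith)
  nlinarith

end maj_3b_near_aux

theorem maj_3b_near {k u : ℝ} (hk : 0.36 ≤ k) (hk1 : k < 1 / 2) (hu : 4 / 5 ≤ u)
    (hu1 : u ≤ 5 / 4) :
    H3 k u ≤ 4 ^ (-k) / (1 - k) * (1 + k / 2 * (1 - u)) - 0.035 * (u - 1) ^ 2 * (2.1 - u) := by
  obtain ⟨ρ, hρ0, hρ⟩ : ∃ ρ : ℝ, 0 < ρ ∧ Real.sqrt u = ρ :=
    ⟨_, Real.sqrt_pos.2 (by linarith), rfl⟩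
  have hu2 : u = ρ ^ 2 := by rw [← hρ, Real.sq_sqrt (by linarith)]
  have hs0 : (0 : ℝ) ≤ k := by linarith
  rw [H3, hρ]
  rcases le_total ρ 1 with h1 | h1
  · -- the case `u ≤ 1`
    obtain ⟨r, hr⟩ : ∃ r : ℝ, ρ = 1 - 2 * r := ⟨(1 - ρ) / 2, by ring⟩
    have hr0 : 0 ≤ r := by linarith
    have hr1 : r ≤ 1 / 16 := by
      by_contra h
      push Not at h
      nlinarith
    have e1 : 1 + ρ = 2 * (1 - r) := by rw [hr]; ring
    have e2 : |1 - ρ| = 2 * r := by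
      rw [abs_of_nonneg (by linarith), hr]
      ring
    rw [e1, e2, Real.mul_rpow (by norm_num) (by linarith), Real.mul_rpow (by norm_num) hr0,
      ← mul_sub]
    refine maj_3b_near_aux.reduce hk hk1 hρ0 hu2 hu1 ?_
    have a1 := maj_3b_near_aux.pow_up hs0 hk1 (a := 1 - r) (by linarith)
    have a2 := maj_3b_near_aux.pow_low hk hk1 hr0 hr1
    have e3 : ρ * (1 + k / 2 * (1 - u) - 0.07 * ((u - 1) ^ 2 * (2.1 - u))) -
        (2 * k * (1 - r) + (1 - 2 * k) * (1 - r) ^ 2 - 5 * r ^ 2) =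
        r ^ 2 * (4 - 4 * k + 4 * k * r - 1.12 * ((1 - r) ^ 2 * (1 - 2 * r) *
          (1.1 + 4 * r * (1 - r)))) := by
      rw [hu2, hr]
      ring
    have b1 : (1 - r) ^ 2 * (1 - 2 * r) ≤ 1 := by nlinarith
    have b2 : 0 ≤ (1 - r) ^ 2 * (1 - 2 * r) := mul_nonneg (sq_nonneg _) (by linarith)
    have b3 : 1.1 + 4 * r * (1 - r) ≤ 1.35 := by nlinarith
    have b4 : (1 - r) ^ 2 * (1 - 2 * r) * (1.1 + 4 * r * (1 - r)) ≤ 1.35 := by nlinarith
    have b5 : 0 ≤ 4 * k * r := by positivity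
    have b6 : 0 ≤ 4 - 4 * k + 4 * k * r - 1.12 * ((1 - r) ^ 2 * (1 - 2 * r) *
          (1.1 + 4 * r * (1 - r))) := by linarith
    have b7 := mul_nonneg (sq_nonneg r) b6
    linarith
  · -- the case `1 ≤ u`
    obtain ⟨t, ht⟩ : ∃ t : ℝ, ρ = 1 + 2 * t := ⟨(ρ - 1) / 2, by ring⟩
    have ht0 : 0 ≤ t := by linarith
    have ht1 : t ≤ 1 / 16 := by
      by_contra h
      push Not at h
      nlinarith
    have e1 : 1 + ρ = 2 * (1 + t) := by rw [ht]; ring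
    have e2 : |1 - ρ| = 2 * t := by
      rw [abs_of_nonpos (by linarith), ht]
      ring
    rw [e1, e2, Real.mul_rpow (by norm_num) (by linarith), Real.mul_rpow (by norm_num) ht0,
      ← mul_sub]
    refine maj_3b_near_aux.reduce hk hk1 hρ0 hu2 hu1 ?_
    have a1 := maj_3b_near_aux.pow_up hs0 hk1 (a := 1 + t) (by linarith)
    have a2 := maj_3b_near_aux.pow_low hk hk1 ht0 ht1
    have e3 : ρ * (1 + k / 2 * (1 - u) - 0.07 * ((u - 1) ^ 2 * (2.1 - u))) -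
        (2 * k * (1 + t) + (1 - 2 * k) * (1 + t) ^ 2 - 5 * t ^ 2) =
        t ^ 2 * (4 - 4 * k - 4 * k * t - 1.12 * ((1 + t) ^ 2 * (1 + 2 * t) *
          (1.1 - 4 * t * (1 + t)))) := by
      rw [hu2, ht]
      ring
    have b1 : (1 + t) ^ 2 * (1 + 2 * t) ≤ 1.28 := by
      have c1 : (1 + t) ^ 2 ≤ 1.13 := by nlinarith
      have c2 : 1 + 2 * t ≤ 1.125 := by linarith
      nlinarith [sq_nonneg (1 + t)]
    have b2 : 0 ≤ (1 + t) ^ 2 * (1 + 2 * t) := mul_nonneg (sq_nonneg _) (by linarith)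
    have b3 : 1.1 - 4 * t * (1 + t) ≤ 1.1 := by nlinarith
    have b4 : (1 + t) ^ 2 * (1 + 2 * t) * (1.1 - 4 * t * (1 + t)) ≤ 1.41 := by nlinarith
    have b5 : 4 * k * t ≤ 1 / 8 := by nlinarith
    have b6 : 0 ≤ 4 - 4 * k - 4 * k * t - 1.12 * ((1 + t) ^ 2 * (1 + 2 * t) *
          (1.1 - 4 * t * (1 + t))) := by linarith
    have b7 := mul_nonneg (sq_nonneg t) b6
    linarith

end

end H618KS
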