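import Pool.Agent.Helper618_KS.Defs

/-!
Part `MajThreeC` of the proof for MP_237b21_an.
-/

open MeasureTheory Filter Topology Set Real
open scoped ENNReal NNReal

set_option autoImplicit false

namespace H618KS

section

namespace maj_3c_aux

lemma tang {u v : ℝ} (hu : 0 < u) (hv : 0 < v) :
    u ^ (-(0.36 : ℝ)) ≤ v ^ (-(0.36 : ℝ)) * (0.64 + 0.36 * (v / u)) := by
  have h0 : 0 < v / u := by positivity
  have h1 : (1 + (v / u - 1)) ^ (0.36 : ℝ) ≤ 1 + 0.36 * (v / u - 1) :=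
    rpow_one_add_le_one_add_mul_self (by linarith) (by norm_num) (by norm_num)
  have h2 : 1 + (v / u - 1) = v / u := by ring
  rw [h2, Real.div_rpow hv.le hu.le] at h1
  have hvp : 0 < v ^ (0.36 : ℝ) := Real.rpow_pos_of_pos hv _
  have hup : 0 < u ^ (0.36 : ℝ) := Real.rpow_pos_of_pos hu _
  rw [Real.rpow_neg hu.le, Real.rpow_neg hv.le]
  have h3 : (u ^ (0.36 : ℝ))⁻¹ = (v ^ (0.36 : ℝ))⁻¹ * (v ^ (0.36 : ℝ) / u ^ (0.36 : ℝ)) := by
    field_simp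
  rw [h3]
  refine mul_le_mul_of_nonneg_left ?_ (by positivity)
  linarith

lemma tang1 {u : ℝ} (hu : 0 < u) : u ^ (-(0.36 : ℝ)) ≤ 0.64 + 0.36 * u⁻¹ := by
  have := tang hu one_pos
  rw [Real.one_rpow, one_mul, one_div] at this
  exact this

lemma low {u : ℝ} (hu : 0 < u) : 1.36 * u⁻¹ - 0.36 ≤ u ^ (-(0.36 : ℝ)) * u⁻¹ := by
  have h0 : 0 < u⁻¹ := by positivity
  have h1 : 1 + (1.36 : ℝ) * (u⁻¹ - 1) ≤ (1 + (u⁻¹ - 1)) ^ (1.36 : ℝ) :=
    one_add_mul_self_le_rpow_one_add (by linarith) (by norm_num)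
  have h2 : 1 + (u⁻¹ - 1) = u⁻¹ := by ring
  rw [h2] at h1
  have h3 : u⁻¹ ^ (1.36 : ℝ) = u ^ (-(0.36 : ℝ)) * u⁻¹ := by
    rw [Real.inv_rpow hu.le, ← Real.rpow_neg hu.le, ← Real.rpow_neg_one u, ← Real.rpow_add hu]
    norm_num
  rw [h3] at h1
  linarith

lemma three : (3 : ℝ) ^ (-(0.36 : ℝ)) ≤ 0.6735 := by
  have h1 : (3 : ℝ) ^ (-(0.36 : ℝ)) = ((3 : ℝ) ^ 9)⁻¹ ^ ((1 : ℝ) / 25) := by
    rw [Real.inv_rpow (by norm_num), ← Real.rpow_natCast, ← Real.rpow_mul (by norm_num),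
      ← Real.rpow_neg (by norm_num)]
    congr 1
    norm_num
  have h2 : (0.6735 : ℝ) = ((0.6735 : ℝ) ^ 25) ^ ((1 : ℝ) / 25) := by
    rw [← Real.rpow_natCast, ← Real.rpow_mul (by norm_num)]
    norm_num
  rw [h1, h2]
  apply Real.rpow_le_rpow (by positivity) _ (by norm_num)
  norm_num

lemma main {u a : ℝ} (hu : 1 ≤ u) (ha : a = u ^ (-(0.36 : ℝ))) :
    0 ≤ 1 - a - 0.0336 * (u - a * u⁻¹) - 0.0245 * (u * (u - 1) * (4.5 - u)) := by
  have hu0 : 0 < u := by linarith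
  have hx : u * u⁻¹ = 1 := mul_inv_cancel₀ hu0.ne'
  have hx0 : 0 < u⁻¹ := by positivity
  have ha0 : 0 < a := by rw [ha]; exact Real.rpow_pos_of_pos hu0 _
  rcases le_total u 2 with h | h
  · have h1 := tang1 hu0
    have h2 := low hu0
    rw [← ha] at h1 h2
    have h3 : 0 ≤ (u - 1) * (0.314304 - 0.0336 * u - 0.11025 * u ^ 2 + 0.0245 * u ^ 3) := by
      refine mul_nonneg (by linarith) ?_
      nlinarith [mul_nonneg (sub_nonneg.2 h) (sub_nonneg.2 hu), mul_nonneg (mul_nonneg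
        (sub_nonneg.2 h) (sub_nonneg.2 hu)) (sub_nonneg.2 hu), mul_nonneg (mul_nonneg
        (sub_nonneg.2 h) (sub_nonneg.2 h)) (sub_nonneg.2 hu)]
    have h4 : 0 ≤ u⁻¹ * ((u - 1) * (0.314304 - 0.0336 * u - 0.11025 * u ^ 2 + 0.0245 * u ^ 3)) :=
      mul_nonneg hx0.le h3
    have h5 : u⁻¹ * ((u - 1) * (0.314304 - 0.0336 * u - 0.11025 * u ^ 2 + 0.0245 * u ^ 3)) =
        1 - (0.64 + 0.36 * u⁻¹) - 0.0336 * (u - (1.36 * u⁻¹ - 0.36)) -
          0.0245 * (u * (u - 1) * (4.5 - u)) := by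
      field_simp
      ring
    linarith
  · have h1 := tang hu0 (show (0 : ℝ) < 3 by norm_num)
    rw [← ha] at h1
    have h2 : a ≤ 0.6735 * (0.64 + 0.36 * (3 / u)) :=
      h1.trans (mul_le_mul_of_nonneg_right three (by positivity))
    have h3 : 0 ≤ 0.0245 * u ^ 4 - 0.13475 * u ^ 3 + 0.07665 * u ^ 2 +
        (1 - 0.64 * 0.6735) * u - 1.08 * 0.6735 := by
      have hq : 0 ≤ 0.0245 * u ^ 2 + 0.006664 * u - 0.088945794 := by nlinarith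
      nlinarith [mul_nonneg (sq_nonneg (u - 2.886)) hq]
    have h4 := mul_nonneg hx0.le h3
    have h5 : u⁻¹ * (0.0245 * u ^ 4 - 0.13475 * u ^ 3 + 0.07665 * u ^ 2 +
        (1 - 0.64 * 0.6735) * u - 1.08 * 0.6735) =
        1 - 0.6735 * (0.64 + 0.36 * (3 / u)) - 0.0336 * u -
          0.0245 * (u * (u - 1) * (4.5 - u)) := by
      field_simp
      ring
    have h6 : 0 < a * u⁻¹ := by positivity
    linarith

end maj_3c_aux

theorem maj_3c {k u : ℝ} (hk : 0.36 ≤ k) (hk1 : k < 1 / 2) (hu : 1 ≤ u) :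
    u ^ (-k) * (1 - k * (1 - 2 * k) / 3 / u) ≤
      1 - k * (1 - 2 * k) / 3 * u - 0.0245 * (u * (u - 1) * (4.5 - u)) := by
  have hu0 : 0 < u := by linarith
  obtain ⟨al, hal⟩ : ∃ al : ℝ, al = k * (1 - 2 * k) / 3 := ⟨_, rfl⟩
  have hal0 : 0 ≤ al := by
    rw [hal]
    have : 0 ≤ k * (1 - 2 * k) := mul_nonneg (by linarith) (by linarith)
    linarith
  have hal1 : al ≤ 0.0336 := by
    rw [hal]
    nlinarith [mul_nonneg (sub_nonneg.2 hk) (sub_nonneg.2 (show (0.28 : ℝ) ≤ 2 * k by linarith))]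
  rw [← hal]
  obtain ⟨a, ha⟩ : ∃ a : ℝ, a = u ^ (-(0.36 : ℝ)) := ⟨_, rfl⟩
  have hm := maj_3c_aux.main hu ha
  have h1 : u ^ (-k) ≤ a := by
    rw [ha]
    exact Real.rpow_le_rpow_of_exponent_le hu (by linarith)
  have ha0 : 0 < a := by rw [ha]; exact Real.rpow_pos_of_pos hu0 _
  have ha1 : a ≤ 1 := by
    rw [ha]
    exact Real.rpow_le_one_of_one_le_of_nonpos hu (by norm_num)
  have hx0 : 0 < u⁻¹ := by positivity
  have hx1 : u⁻¹ ≤ 1 := inv_le_one_of_one_le₀ hu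
  have h2 : 0 ≤ 1 - al / u := by
    rw [div_eq_mul_inv]
    nlinarith
  have h3 : u ^ (-k) * (1 - al / u) ≤ a * (1 - al / u) := mul_le_mul_of_nonneg_right h1 h2
  have h4 : 0 ≤ u - a * u⁻¹ := by nlinarith
  have h5 : al * (u - a * u⁻¹) ≤ 0.0336 * (u - a * u⁻¹) := mul_le_mul_of_nonneg_right hal1 h4
  have h6 : a * (1 - al / u) = a - al * (a * u⁻¹) := by
    rw [div_eq_mul_inv]
    ring
  linarith

end

section

namespace num_3c_aux

lemma four_lb : (0.60709 : ℝ) ≤ (4:ℝ) ^ (-(0.36:ℝ)) := by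
  have h1 : ((4:ℝ) ^ (-(0.36:ℝ))) ^ (25:ℕ) = (1/4:ℝ) ^ 9 := by
    rw [← Real.rpow_natCast, ← Real.rpow_mul (by norm_num)]
    have : (-(0.36:ℝ)) * ((25:ℕ):ℝ) = -((9:ℕ):ℝ) := by norm_num
    rw [this, Real.rpow_neg (by norm_num), Real.rpow_natCast]
    norm_num
  by_contra hcon
  push Not at hcon
  have h0 : (0:ℝ) ≤ (4:ℝ) ^ (-(0.36:ℝ)) := by positivity
  have h2 : ((4:ℝ) ^ (-(0.36:ℝ))) ^ (25:ℕ) < (0.60709 : ℝ) ^ 25 :=
    pow_lt_pow_left₀ hcon h0 (by norm_num)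
  rw [h1] at h2
  norm_num at h2

lemma exp_lb {t : ℝ} (h0 : 0 ≤ t) (h1 : t ≤ 1) :
    1 - t + t ^ 2 / 2 - t ^ 3 / 6 - t ^ 4 * (5 / 96) ≤ Real.exp (-t) := by
  have h := Real.exp_bound (x := -t) (by rw [abs_neg, abs_of_nonneg h0]; exact h1) (n := 4)
    (by norm_num)
  have h2 := (abs_le.mp h).1
  rw [abs_neg, abs_of_nonneg h0] at h2
  simp only [Finset.sum_range_succ, Finset.sum_range_zero, Nat.factorial] at h2
  norm_num at h2
  nlinarith [h2]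

lemma h1_lb {k : ℝ} (hk : 0.36 ≤ k) (hk1 : k < 1 / 2) :
    1 - k * (1 - 2 * k) / 3 - 0.018865 ≤ 4 ^ (-k) / (1 - k) := by
  rw [le_div_iff₀ (by linarith)]
  obtain ⟨s, hs⟩ : ∃ s, s = k - 0.36 := ⟨_, rfl⟩
  have hk' : k = 0.36 + s := by rw [hs]; ring
  have hs0 : 0 ≤ s := by rw [hs]; linarith
  have hs1 : s ≤ 0.14 := by rw [hs]; linarith
  have e1 : (4:ℝ) ^ (-k) = (4:ℝ) ^ (-(0.36:ℝ)) * (4:ℝ) ^ (-s) := by
    rw [← Real.rpow_add (by norm_num), hk']; congr 1; ring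
  have hlog : Real.log 4 ≤ 1.3863 := by
    have : Real.log 4 = 2 * Real.log 2 := by
      rw [show (4:ℝ) = 2 ^ 2 by norm_num, Real.log_pow]; norm_num
    rw [this]
    have := Real.log_two_lt_d9
    linarith
  have e2 : Real.exp (-(1.3863 * s)) ≤ (4:ℝ) ^ (-s) := by
    rw [Real.rpow_def_of_pos (by norm_num)]
    apply Real.exp_le_exp.mpr
    nlinarith
  have e3 := exp_lb (t := 1.3863 * s) (by positivity) (by linarith)
  have e4 : (0.60709:ℝ) * (1 - 1.3863 * s + (1.3863 * s) ^ 2 / 2 - (1.3863 * s) ^ 3 / 6 -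
      (1.3863 * s) ^ 4 * (5 / 96)) ≤ (4:ℝ) ^ (-k) := by
    rw [e1]
    have h5 : (0:ℝ) ≤ 1 - 1.3863 * s + (1.3863 * s) ^ 2 / 2 - (1.3863 * s) ^ 3 / 6 -
      (1.3863 * s) ^ 4 * (5 / 96) := by
      have a1 : s ^ 3 ≤ 0.14 ^ 3 := pow_le_pow_left₀ hs0 hs1 3
      have a2 : s ^ 4 ≤ 0.14 ^ 4 := pow_le_pow_left₀ hs0 hs1 4
      have a3 : 0 ≤ s ^ 2 := by positivity
      nlinarith
    exact mul_le_mul four_lb (e3.trans e2) h5 (by positivity)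
  refine le_trans ?_ e4
  rw [hk']
  have a2 : s ^ 4 ≤ 0.14 ^ 2 * s ^ 2 := by
    have : s ^ 4 = s ^ 2 * s ^ 2 := by ring
    rw [this]
    exact mul_le_mul_of_nonneg_right (pow_le_pow_left₀ hs0 hs1 2) (by positivity)
  have a3 : 0 ≤ s ^ 2 := by positivity
  have a4 : 0 ≤ s ^ 3 := by positivity
  nlinarith

end num_3c_aux

theorem num_3c {k x V : ℝ} (hk : 0.36 ≤ k) (hk1 : k < 1 / 2) (hx : 0 < x) (hx1 : x < 1)
    (hV : 0.55 * x ≤ V) (hV1 : V ≤ 2 / 3 * x ^ 2) :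
    1 - k * (1 - 2 * k) / 3 * x - 0.0245 * (5.5 * (x ^ 2 + V) - 4.5 * x -
        (x ^ 3 + 3 * x * V + 2 * V ^ 2 / x)) ≤
      4 ^ (-k) / (1 - k) * (1 + k / 2 * (1 - x)) := by
  have hx2 : 0.825 ≤ x := by
    have h : 0.55 * x ≤ 2 / 3 * x ^ 2 := hV.trans hV1
    have h2 : 0.55 * x ≤ 2 / 3 * x * x := by nlinarith
    have h3 := le_of_mul_le_mul_right h2 hx
    linarith
  have hE : 0.77 - 2.62 * (1 - x) ≤ 5.5 * (x ^ 2 + V) - 4.5 * x -
        (x ^ 3 + 3 * x * V + 2 * V ^ 2 / x) := by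
    have q1 : 0 ≤ (V - 0.55 * x) * (2 / 3 * x ^ 2 - V) :=
      mul_nonneg (by linarith) (by linarith)
    have q2 : 2 * V ^ 2 / x ≤ 2 * (0.55 + 2 / 3 * x) * V - 2 * 0.55 * (2 / 3) * x ^ 2 := by
      rw [div_le_iff₀ hx]
      nlinarith
    have q3 : 0 ≤ (V - 0.55 * x) * (4.4 - 13 / 3 * x) := mul_nonneg (by linarith) (by linarith)
    have q4 : 0 ≤ (1 - x) ^ 2 * (0.85 + (1 - x)) := by
      apply mul_nonneg (by positivity); linarith
    nlinarith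
  have h1 := num_3c_aux.h1_lb hk hk1
  set h := (4:ℝ) ^ (-k) / (1 - k) with hh
  have al : k * (1 - 2 * k) / 3 ≤ 0.0336 := by nlinarith
  have al0 : 0 ≤ k * (1 - 2 * k) / 3 := by
    apply div_nonneg _ (by norm_num)
    apply mul_nonneg <;> linarith
  have h2 : 0.94 ≤ h := by linarith
  have hk2 : 0.169 ≤ h * (k / 2) := by nlinarith
  have hu : 0 ≤ 1 - x := by linarith
  have h3 : (k * (1 - 2 * k) / 3 + 0.0245 * 2.62) * (1 - x) ≤ h * (k / 2) * (1 - x) :=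
    mul_le_mul_of_nonneg_right (by linarith) hu
  have h4 : h * (1 + k / 2 * (1 - x)) = h + h * (k / 2) * (1 - x) := by ring
  rw [h4]
  have h5 : k * (1 - 2 * k) / 3 * x = k * (1 - 2 * k) / 3 - k * (1 - 2 * k) / 3 * (1 - x) := by ring
  rw [h5]
  linarith

end

end H618KS
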