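import Pool.Agent.Helper618_KS.Defs

/-!
Part `MajThreeHigh` of the proof for MP_237b21_an.
-/

open MeasureTheory Filter Topology Set Real
open scoped ENNReal NNReal

set_option autoImplicit false

namespace H618KS

section

namespace maj_3b_high_aux

/-- the lower bound for `4 ^ (-k)` -/
noncomputable def pp (k : ℝ) : ℝ :=
  1 / 2 * (1 + 6931 / 5000 * (1 / 2 - k) + 1 / 2 * (6931 / 5000 * (1 / 2 - k)) ^ 2 +
    1 / 6 * (6931 / 5000 * (1 / 2 - k)) ^ 3)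

/-- the polynomial -/
noncomputable def FF (k u u0 A B : ℝ) : ℝ :=
  pp k * (1 + 1 / 2 * k * (1 - u)) * u - (1 - k) * u * (35 / 1000) * (u - 1) ^ 2 * (21 / 10 - u) -
    (1 - k) * (u - 1 / 3 * k * (1 - 2 * k)) * (((1 / 2 - k) * A + (k - 9 / 25) * B) * (50 / 7)) *
      (1 - k * ((u - u0) / u0) + 1 / 2 * k * (k + 1) * ((u - u0) / u0) ^ 2)

theorem cert0 (a b c d : ℝ) (ha : 0 ≤ a) (hb : 0 ≤ b) (hc : 0 ≤ c) (hd : 0 ≤ d) :
    0 ≤ (1 / 2315685267000000 : ℝ) * (34777486830973220750 * (a ^ 0 * b ^ 6 * (c ^ 0 * d ^ 4)) +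
      301230641984897869820 * (a ^ 0 * b ^ 6 * (c ^ 1 * d ^ 3)) +
      589261023636517150806 * (a ^ 0 * b ^ 6 * (c ^ 2 * d ^ 2)) +
      364466517467833575152 * (a ^ 0 * b ^ 6 * (c ^ 3 * d ^ 1)) +
      48547698985241073416 * (a ^ 0 * b ^ 6 * (c ^ 4 * d ^ 0)) +
      309181815318997050875 * (a ^ 1 * b ^ 5 * (c ^ 0 * d ^ 4)) +
      2318762601613830323390 * (a ^ 1 * b ^ 5 * (c ^ 1 * d ^ 3)) +
      4431923569792417810287 * (a ^ 1 * b ^ 5 * (c ^ 2 * d ^ 2)) +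
      2829077357879532853904 * (a ^ 1 * b ^ 5 * (c ^ 3 * d ^ 1)) +
      446561894694448316132 * (a ^ 1 * b ^ 5 * (c ^ 4 * d ^ 0)) +
      1073221293586480689500 * (a ^ 2 * b ^ 4 * (c ^ 0 * d ^ 4)) +
      7273559117750529537320 * (a ^ 2 * b ^ 4 * (c ^ 1 * d ^ 3)) +
      13618026828051255018156 * (a ^ 2 * b ^ 4 * (c ^ 2 * d ^ 2)) +
      8879115512915444182352 * (a ^ 2 * b ^ 4 * (c ^ 3 * d ^ 1)) +
      1557227360590738012016 * (a ^ 2 * b ^ 4 * (c ^ 4 * d ^ 0)) +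
      1903135018227363109375 * (a ^ 3 * b ^ 3 * (c ^ 0 * d ^ 4)) +
      11953599000888159583750 * (a ^ 3 * b ^ 3 * (c ^ 1 * d ^ 3)) +
      21966667612915368408675 * (a ^ 3 * b ^ 3 * (c ^ 2 * d ^ 2)) +
      14531540076609710503600 * (a ^ 3 * b ^ 3 * (c ^ 3 * d ^ 1)) +
      2738047649480138569300 * (a ^ 3 * b ^ 3 * (c ^ 4 * d ^ 0)) +
      1839948912503906250000 * (a ^ 4 * b ^ 2 * (c ^ 0 * d ^ 4)) +
      10887041061516562500000 * (a ^ 4 * b ^ 2 * (c ^ 1 * d ^ 3)) +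
      19669342721231081250000 * (a ^ 4 * b ^ 2 * (c ^ 2 * d ^ 2)) +
      13141613118278100000000 * (a ^ 4 * b ^ 2 * (c ^ 3 * d ^ 1)) +
      2607628499184675000000 * (a ^ 4 * b ^ 2 * (c ^ 4 * d ^ 0)) +
      926133789062500000000 * (a ^ 5 * b ^ 1 * (c ^ 0 * d ^ 4)) +
      5221111796875000000000 * (a ^ 5 * b ^ 1 * (c ^ 1 * d ^ 3)) +
      9286807846875000000000 * (a ^ 5 * b ^ 1 * (c ^ 2 * d ^ 2)) +
      6246561565000000000000 * (a ^ 5 * b ^ 1 * (c ^ 3 * d ^ 1)) +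
      1288531127500000000000 * (a ^ 5 * b ^ 1 * (c ^ 4 * d ^ 0)) +
      190502929687500000000 * (a ^ 6 * b ^ 0 * (c ^ 0 * d ^ 4)) +
      1031642578125000000000 * (a ^ 6 * b ^ 0 * (c ^ 1 * d ^ 3)) +
      1808767968750000000000 * (a ^ 6 * b ^ 0 * (c ^ 2 * d ^ 2)) +
      1221982875000000000000 * (a ^ 6 * b ^ 0 * (c ^ 3 * d ^ 1)) +
      259736625000000000000 * (a ^ 6 * b ^ 0 * (c ^ 4 * d ^ 0))) := by
  positivity

theorem poly0 (k u : ℝ) (hk : 9 / 25 ≤ k) (hk1 : k ≤ 1 / 2) (hu : 5/4 ≤ u) (hu1 : u ≤ 17/10) :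
    0 ≤ FF k u (5/4) (923/1000) (179/200) := by
  have h := cert0 (k - 9 / 25) (1 / 2 - k) (u - 5/4) (17/10 - u) (by linarith) (by linarith)
    (by linarith) (by linarith)
  unfold FF pp
  refine h.trans (le_of_eq ?_)
  ring

theorem cert1 (a b c d : ℝ) (ha : 0 ≤ a) (hb : 0 ≤ b) (hc : 0 ≤ c) (hd : 0 ≤ d) :
    0 ≤ (1 / 255004207500000000 : ℝ) * (6779898519055904354306 * (a ^ 0 * b ^ 6 * (c ^ 0 * d ^ 4)) +
      25832139905773137431104 * (a ^ 0 * b ^ 6 * (c ^ 1 * d ^ 3)) +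
      32023376556791984756826 * (a ^ 0 * b ^ 6 * (c ^ 2 * d ^ 2)) +
      14729758472488174637564 * (a ^ 0 * b ^ 6 * (c ^ 3 * d ^ 1)) +
      2517248302413422957536 * (a ^ 0 * b ^ 6 * (c ^ 4 * d ^ 0)) +
      52738766735957282840537 * (a ^ 1 * b ^ 5 * (c ^ 0 * d ^ 4)) +
      205239789009472352103908 * (a ^ 1 * b ^ 5 * (c ^ 1 * d ^ 3)) +
      265883608396349628099077 * (a ^ 1 * b ^ 5 * (c ^ 2 * d ^ 2)) +
      131856822676861331248578 * (a ^ 1 * b ^ 5 * (c ^ 3 * d ^ 1)) +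
      22860037335276772412872 * (a ^ 1 * b ^ 5 * (c ^ 4 * d ^ 0)) +
      166742490950489621368156 * (a ^ 2 * b ^ 4 * (c ^ 0 * d ^ 4)) +
      658044892080127866914504 * (a ^ 2 * b ^ 4 * (c ^ 1 * d ^ 3)) +
      878711396025117695677676 * (a ^ 2 * b ^ 4 * (c ^ 2 * d ^ 2)) +
      458895457143060276084464 * (a ^ 2 * b ^ 4 * (c ^ 3 * d ^ 1)) +
      82036091153830825953136 * (a ^ 2 * b ^ 4 * (c ^ 4 * d ^ 0)) +
      275180605041206011631925 * (a ^ 3 * b ^ 3 * (c ^ 0 * d ^ 4)) +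
      1096110654331181227241700 * (a ^ 3 * b ^ 3 * (c ^ 1 * d ^ 3)) +
      1495569493540179446085425 * (a ^ 3 * b ^ 3 * (c ^ 2 * d ^ 2)) +
      810748224157889256973450 * (a ^ 3 * b ^ 3 * (c ^ 3 * d ^ 1)) +
      149621787720185026497800 * (a ^ 3 * b ^ 3 * (c ^ 4 * d ^ 0)) +
      250744075954492768750000 * (a ^ 4 * b ^ 2 * (c ^ 0 * d ^ 4)) +
      1004843388817252575000000 * (a ^ 4 * b ^ 2 * (c ^ 1 * d ^ 3)) +
      1392719158736744393750000 * (a ^ 4 * b ^ 2 * (c ^ 2 * d ^ 2)) +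
      776356194683452137500000 * (a ^ 4 * b ^ 2 * (c ^ 3 * d ^ 1)) +
      147456231621967550000000 * (a ^ 4 * b ^ 2 * (c ^ 4 * d ^ 0)) +
      119901858021875000000000 * (a ^ 5 * b ^ 1 * (c ^ 0 * d ^ 4)) +
      482330726368750000000000 * (a ^ 5 * b ^ 1 * (c ^ 1 * d ^ 3)) +
      676305212146875000000000 * (a ^ 5 * b ^ 1 * (c ^ 2 * d ^ 2)) +
      385151783525000000000000 * (a ^ 5 * b ^ 1 * (c ^ 3 * d ^ 1)) +
      74997443631250000000000 * (a ^ 5 * b ^ 1 * (c ^ 4 * d ^ 0)) +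
      23554764375000000000000 * (a ^ 6 * b ^ 0 * (c ^ 0 * d ^ 4)) +
      94960748906250000000000 * (a ^ 6 * b ^ 0 * (c ^ 1 * d ^ 3)) +
      134304332343750000000000 * (a ^ 6 * b ^ 0 * (c ^ 2 * d ^ 2)) +
      77775319218750000000000 * (a ^ 6 * b ^ 0 * (c ^ 3 * d ^ 1)) +
      15469647187500000000000 * (a ^ 6 * b ^ 0 * (c ^ 4 * d ^ 0))) := by
  positivity

theorem poly1 (k u : ℝ) (hk : 9 / 25 ≤ k) (hk1 : k ≤ 1 / 2) (hu : 17/10 ≤ u) (hu1 : u ≤ 11/5) :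
    0 ≤ FF k u (17/10) (827/1000) (767/1000) := by
  have h := cert1 (k - 9 / 25) (1 / 2 - k) (u - 17/10) (11/5 - u) (by linarith) (by linarith)
    (by linarith) (by linarith)
  unfold FF pp
  refine h.trans (le_of_eq ?_)
  ring

theorem cert2 (a b c d : ℝ) (ha : 0 ≤ a) (hb : 0 ≤ b) (hc : 0 ≤ c) (hd : 0 ≤ d) :
    0 ≤ (1 / 87463090176000000 : ℝ) * (286987044776481045788 * (a ^ 0 * b ^ 6 * (c ^ 0 * d ^ 4)) +
      1385628925250856764676 * (a ^ 0 * b ^ 6 * (c ^ 1 * d ^ 3)) +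
      3843686074408471927188 * (a ^ 0 * b ^ 6 * (c ^ 2 * d ^ 2)) +
      5853177104170297743500 * (a ^ 0 * b ^ 6 * (c ^ 3 * d ^ 1)) +
      3368331310236201535200 * (a ^ 0 * b ^ 6 * (c ^ 4 * d ^ 0)) +
      2002692307434121739601 * (a ^ 1 * b ^ 5 * (c ^ 0 * d ^ 4)) +
      8515030278005093717402 * (a ^ 1 * b ^ 5 * (c ^ 1 * d ^ 3)) +
      20879673117814457735776 * (a ^ 1 * b ^ 5 * (c ^ 2 * d ^ 2)) +
      30879102535350121277750 * (a ^ 1 * b ^ 5 * (c ^ 3 * d ^ 1)) +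
      18016039388106635519775 * (a ^ 1 * b ^ 5 * (c ^ 4 * d ^ 0)) +
      6116370921456544091838 * (a ^ 2 * b ^ 4 * (c ^ 0 * d ^ 4)) +
      23536080198200104640776 * (a ^ 2 * b ^ 4 * (c ^ 1 * d ^ 3)) +
      49583221609077149689988 * (a ^ 2 * b ^ 4 * (c ^ 2 * d ^ 2)) +
      68706843261380161825000 * (a ^ 2 * b ^ 4 * (c ^ 3 * d ^ 1)) +
      40161714929046572683950 * (a ^ 2 * b ^ 4 * (c ^ 4 * d ^ 0)) +
      10140790977841647148025 * (a ^ 3 * b ^ 3 * (c ^ 0 * d ^ 4)) +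
      36522423675438355188050 * (a ^ 3 * b ^ 3 * (c ^ 1 * d ^ 3)) +
      66084316910080813881400 * (a ^ 3 * b ^ 3 * (c ^ 2 * d ^ 2)) +
      82851869205213150790750 * (a ^ 3 * b ^ 3 * (c ^ 3 * d ^ 1)) +
      47783968992729044949375 * (a ^ 3 * b ^ 3 * (c ^ 4 * d ^ 0)) +
      9445410384667743750000 * (a ^ 4 * b ^ 2 * (c ^ 0 * d ^ 4)) +
      32714452861242487500000 * (a ^ 4 * b ^ 2 * (c ^ 1 * d ^ 3)) +
      51894044513125650000000 * (a ^ 4 * b ^ 2 * (c ^ 2 * d ^ 2)) +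
      57308762481194812500000 * (a ^ 4 * b ^ 2 * (c ^ 3 * d ^ 1)) +
      32017552444643906250000 * (a ^ 4 * b ^ 2 * (c ^ 4 * d ^ 0)) +
      4642392253125000000000 * (a ^ 5 * b ^ 1 * (c ^ 0 * d ^ 4)) +
      15744783656250000000000 * (a ^ 5 * b ^ 1 * (c ^ 1 * d ^ 3)) +
      22532395537500000000000 * (a ^ 5 * b ^ 1 * (c ^ 2 * d ^ 2)) +
      21613462218750000000000 * (a ^ 5 * b ^ 1 * (c ^ 3 * d ^ 1)) +
      11460056484375000000000 * (a ^ 5 * b ^ 1 * (c ^ 4 * d ^ 0)) +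
      937107187500000000000 * (a ^ 6 * b ^ 0 * (c ^ 0 * d ^ 4)) +
      3146075625000000000000 * (a ^ 6 * b ^ 0 * (c ^ 1 * d ^ 3)) +
      4175428125000000000000 * (a ^ 6 * b ^ 0 * (c ^ 2 * d ^ 2)) +
      3475640625000000000000 * (a ^ 6 * b ^ 0 * (c ^ 3 * d ^ 1)) +
      1712460937500000000000 * (a ^ 6 * b ^ 0 * (c ^ 4 * d ^ 0))) := by
  positivity

theorem poly2 (k u : ℝ) (hk : 9 / 25 ≤ k) (hk1 : k ≤ 1 / 2) (hu : 11/5 ≤ u) (hu1 : u ≤ 3) :
    0 ≤ FF k u (11/5) (753/1000) (27/40) := by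
  have h := cert2 (k - 9 / 25) (1 / 2 - k) (u - 11/5) (3 - u) (by linarith) (by linarith)
    (by linarith) (by linarith)
  unfold FF pp
  refine h.trans (le_of_eq ?_)
  ring

theorem cert3 (a b c d : ℝ) (ha : 0 ≤ a) (hb : 0 ≤ b) (hc : 0 ≤ c) (hd : 0 ≤ d) :
    0 ≤ (1 / 3659354496000000 : ℝ) * (29973368636530591200 * (a ^ 0 * b ^ 6 * (c ^ 0 * d ^ 4)) +
      225153037845905526750 * (a ^ 0 * b ^ 6 * (c ^ 1 * d ^ 3)) +
      633051564281881403238 * (a ^ 0 * b ^ 6 * (c ^ 2 * d ^ 2)) +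
      777454427812168591026 * (a ^ 0 * b ^ 6 * (c ^ 3 * d ^ 1)) +
      350468932739662123338 * (a ^ 0 * b ^ 6 * (c ^ 4 * d ^ 0)) +
      160962170240550706775 * (a ^ 1 * b ^ 5 * (c ^ 0 * d ^ 4)) +
      1221270300842323746125 * (a ^ 1 * b ^ 5 * (c ^ 1 * d ^ 3)) +
      3477431340985387252251 * (a ^ 1 * b ^ 5 * (c ^ 2 * d ^ 2)) +
      4320103724166006093227 * (a ^ 1 * b ^ 5 * (c ^ 3 * d ^ 1)) +
      1965917513782391880326 * (a ^ 1 * b ^ 5 * (c ^ 4 * d ^ 0)) +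
      361939549196665889950 * (a ^ 2 * b ^ 4 * (c ^ 0 * d ^ 4)) +
      2759572557512524662000 * (a ^ 2 * b ^ 4 * (c ^ 1 * d ^ 3)) +
      7943933759000456544788 * (a ^ 2 * b ^ 4 * (c ^ 2 * d ^ 2)) +
      9979676127050002663376 * (a ^ 2 * b ^ 4 * (c ^ 3 * d ^ 1)) +
      4584764376365404890638 * (a ^ 2 * b ^ 4 * (c ^ 4 * d ^ 0)) +
      436635515342802024375 * (a ^ 3 * b ^ 3 * (c ^ 0 * d ^ 4)) +
      3324146590716700192625 * (a ^ 3 * b ^ 3 * (c ^ 1 * d ^ 3)) +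
      9654733663676636945775 * (a ^ 3 * b ^ 3 * (c ^ 2 * d ^ 2)) +
      12260943972854381411175 * (a ^ 3 * b ^ 3 * (c ^ 3 * d ^ 1)) +
      5687635384551642633650 * (a ^ 3 * b ^ 3 * (c ^ 4 * d ^ 0)) +
      298309220875156250000 * (a ^ 4 * b ^ 2 * (c ^ 0 * d ^ 4)) +
      2250529843075593750000 * (a ^ 4 * b ^ 2 * (c ^ 1 * d ^ 3)) +
      6579384701215806250000 * (a ^ 4 * b ^ 2 * (c ^ 2 * d ^ 2)) +
      8444203953705456250000 * (a ^ 4 * b ^ 2 * (c ^ 3 * d ^ 1)) +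
      3956521874690087500000 * (a ^ 4 * b ^ 2 * (c ^ 4 * d ^ 0)) +
      109499453125000000000 * (a ^ 5 * b ^ 1 * (c ^ 0 * d ^ 4)) +
      811479171875000000000 * (a ^ 5 * b ^ 1 * (c ^ 1 * d ^ 3)) +
      2381462896875000000000 * (a ^ 5 * b ^ 1 * (c ^ 2 * d ^ 2)) +
      3088495065625000000000 * (a ^ 5 * b ^ 1 * (c ^ 3 * d ^ 1)) +
      1462423287500000000000 * (a ^ 5 * b ^ 1 * (c ^ 4 * d ^ 0)) +
      16875000000000000000 * (a ^ 6 * b ^ 0 * (c ^ 0 * d ^ 4)) +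
      121640625000000000000 * (a ^ 6 * b ^ 0 * (c ^ 1 * d ^ 3)) +
      357257812500000000000 * (a ^ 6 * b ^ 0 * (c ^ 2 * d ^ 2)) +
      468208125000000000000 * (a ^ 6 * b ^ 0 * (c ^ 3 * d ^ 1)) +
      224220937500000000000 * (a ^ 6 * b ^ 0 * (c ^ 4 * d ^ 0))) := by
  positivity

theorem poly3 (k u : ℝ) (hk : 9 / 25 ≤ k) (hk1 : k ≤ 1 / 2) (hu : 3 ≤ u) (hu1 : u ≤ 21/5) :
    0 ≤ FF k u (3) (337/500) (289/500) := by
  have h := cert3 (k - 9 / 25) (1 / 2 - k) (u - 3) (21/5 - u) (by linarith) (by linarith)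
    (by linarith) (by linarith)
  unfold FF pp
  refine h.trans (le_of_eq ?_)
  ring

/-- Taylor bound for `(1 + t) ^ (-k)`. -/
theorem taylor {k t : ℝ} (hk : 0 ≤ k) (hk1 : k ≤ 1) (ht : 0 ≤ t) :
    (1 + t) ^ (-k) ≤ 1 - k * t + 1 / 2 * k * (k + 1) * t ^ 2 := by
  have hmono : MonotoneOn (fun x : ℝ => 1 - k * x + 1 / 2 * k * (k + 1) * x ^ 2 - (1 + x) ^ (-k))
      (Set.Ici 0) := by
    have hd : ∀ x : ℝ, 0 ≤ x → HasDerivAt
        (fun x : ℝ => 1 - k * x + 1 / 2 * k * (k + 1) * x ^ 2 - (1 + x) ^ (-k))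
        (- k + k * (k + 1) * x + k * (1 + x) ^ (-k - 1)) x := by
      intro x hx
      have h1 : HasDerivAt (fun x : ℝ => (1 + x) ^ (-k)) (1 * (-k) * (1 + x) ^ (-k - 1)) x := by
        have := (((hasDerivAt_id x).const_add 1)).rpow_const (p := -k) (Or.inl (by
          show (1 : ℝ) + x ≠ 0
          positivity))
        simpa using this
      have h2 : HasDerivAt (fun x : ℝ => 1 - k * x + 1 / 2 * k * (k + 1) * x ^ 2)
          (- k + k * (k + 1) * x) x := by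
        have e1 : HasDerivAt (fun x : ℝ => k * x) k x := by
          simpa using (hasDerivAt_id x).const_mul k
        have e2 : HasDerivAt (fun x : ℝ => 1 / 2 * k * (k + 1) * x ^ 2)
            (1 / 2 * k * (k + 1) * (2 * x)) x := by
          simpa using (hasDerivAt_pow 2 x).const_mul (1 / 2 * k * (k + 1))
        have e3 : HasDerivAt (fun x : ℝ => 1 - k * x + 1 / 2 * k * (k + 1) * x ^ 2)
            (-k + 1 / 2 * k * (k + 1) * (2 * x)) x := (e1.const_sub 1).add e2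
        exact e3.congr_deriv (by ring)
      have h3 : HasDerivAt
          (fun x : ℝ => 1 - k * x + 1 / 2 * k * (k + 1) * x ^ 2 - (1 + x) ^ (-k))
          (- k + k * (k + 1) * x - 1 * (-k) * (1 + x) ^ (-k - 1)) x := h2.sub h1
      exact h3.congr_deriv (by ring)
    refine monotoneOn_of_deriv_nonneg (convex_Ici 0) ?_ ?_ ?_
    · intro x hx
      exact (hd x hx).continuousAt.continuousWithinAt
    · intro x hx
      rw [interior_Ici] at hx
      exact (hd x (le_of_lt hx)).differentiableAt.differentiableWithinAt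
    · intro x hx
      rw [interior_Ici] at hx
      have hx0 : (0 : ℝ) < x := hx
      rw [(hd x hx0.le).deriv]
      have h1 : 1 + (k + 1) * (-(x / (1 + x))) ≤ (1 + (-(x / (1 + x)))) ^ (k + 1) := by
        apply one_add_mul_self_le_rpow_one_add
        · have : x / (1 + x) ≤ 1 := by rw [div_le_one (by positivity)]; linarith
          linarith
        · linarith
      have h2 : (1 + (-(x / (1 + x)))) = (1 + x)⁻¹ := by field_simp; ring
      rw [h2, Real.inv_rpow (by positivity), ← Real.rpow_neg (by positivity)] at h1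
      have h3 : x / (1 + x) ≤ x := by
        rw [div_le_iff₀ (by positivity)]
        nlinarith
      have h4 : (1 + x) ^ (-(k + 1)) = (1 + x) ^ (-k - 1) := by ring_nf
      rw [h4] at h1
      have h5 : 1 - (k + 1) * x ≤ (1 + x) ^ (-k - 1) := by nlinarith
      nlinarith
  have h0 := hmono (Set.mem_Ici.2 le_rfl) (Set.mem_Ici.2 ht) ht
  simp only [mul_zero, add_zero, Real.one_rpow] at h0
  norm_num at h0
  linarith

/-- The chord bound in the exponent. -/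
theorem chord {k u0 A B : ℝ} (hk : 9 / 25 ≤ k) (hk1 : k ≤ 1 / 2) (hu0 : 0 < u0)
    (hA : u0 ^ (-(9 / 25) : ℝ) ≤ A) (hB : u0 ^ (-(1 / 2) : ℝ) ≤ B) :
    u0 ^ (-k) ≤ ((1 / 2 - k) * A + (k - 9 / 25) * B) * (50 / 7) := by
  have h1 := Real.geom_mean_le_arith_mean2_weighted (w₁ := (1 / 2 - k) * (50 / 7))
    (w₂ := (k - 9 / 25) * (50 / 7)) (p₁ := u0 ^ (-(9 / 25) : ℝ)) (p₂ := u0 ^ (-(1 / 2) : ℝ))
    (by nlinarith) (by nlinarith) (by positivity) (by positivity) (by ring)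
  rw [← Real.rpow_mul hu0.le, ← Real.rpow_mul hu0.le, ← Real.rpow_add hu0] at h1
  have h2 : -(9 / 25) * ((1 / 2 - k) * (50 / 7)) + -(1 / 2) * ((k - 9 / 25) * (50 / 7)) = -k := by
    ring
  rw [h2] at h1
  have h3 : 0 ≤ (1 / 2 - k) * (50 / 7) := by nlinarith
  have h4 : 0 ≤ (k - 9 / 25) * (50 / 7) := by nlinarith
  nlinarith [mul_le_mul_of_nonneg_left hA h3, mul_le_mul_of_nonneg_left hB h4]

/-- The lower bound for `4 ^ (-k)`. -/
theorem pp_le {k : ℝ} (hk1 : k ≤ 1 / 2) : pp k ≤ (4 : ℝ) ^ (-k) := by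
  have hL : (6931 / 5000 : ℝ) ≤ Real.log 4 := by
    have h1 : Real.log 4 = 2 * Real.log 2 := by
      rw [show (4 : ℝ) = 2 ^ 2 by norm_num, Real.log_pow]
      norm_num
    rw [h1]
    have := Real.log_two_gt_d9
    linarith
  have h2 : (4 : ℝ) ^ (-k) = 1 / 2 * Real.exp (Real.log 4 * (1 / 2 - k)) := by
    have h3 : Real.exp (Real.log 4 * (1 / 2 - k)) = (4 : ℝ) ^ (1 / 2 - k) := by
      rw [Real.rpow_def_of_pos (by norm_num)]
    rw [h3, show (-k : ℝ) = (1 / 2 - k) - 1 / 2 by ring, Real.rpow_sub (by norm_num)]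
    have h4 : (4 : ℝ) ^ (1 / 2 : ℝ) = 2 := by
      rw [show (4 : ℝ) = 2 ^ (2 : ℝ) by norm_num, ← Real.rpow_mul (by norm_num)]
      norm_num
    rw [h4]
    ring
  have hy : 0 ≤ 1 / 2 - k := by linarith
  have h5 : 0 ≤ 6931 / 5000 * (1 / 2 - k) := by positivity
  have h6 : 6931 / 5000 * (1 / 2 - k) ≤ Real.log 4 * (1 / 2 - k) :=
    mul_le_mul_of_nonneg_right hL hy
  have h7 := Real.sum_le_exp_of_nonneg h5 4
  have h8 := Real.exp_le_exp.2 h6
  rw [h2]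
  unfold pp
  simp only [Finset.sum_range_succ, Finset.sum_range_zero, Nat.factorial] at h7
  norm_num at h7
  nlinarith

/-- The statement, in a slightly different form. -/
def Goal (k u : ℝ) : Prop :=
  u ^ (-k) * (1 - k * (1 - 2 * k) / 3 / u) ≤
      4 ^ (-k) / (1 - k) * (1 + k / 2 * (1 - u)) - 0.035 * (u - 1) ^ 2 * (2.1 - u)

theorem piece {k u u0 A B : ℝ} (hk : 9 / 25 ≤ k) (hk1 : k < 1 / 2) (hu0 : 1 ≤ u0) (hu : u0 ≤ u)
    (hu5 : u ≤ 5) (hA : u0 ^ (-(9 / 25) : ℝ) ≤ A) (hB : u0 ^ (-(1 / 2) : ℝ) ≤ B)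
    (hF : 0 ≤ FF k u u0 A B) : Goal k u := by
  have hu0' : 0 < u0 := by linarith
  have hu' : 0 < u := by linarith
  have ht : 0 ≤ (u - u0) / u0 := div_nonneg (by linarith) hu0'.le
  have h1 : u ^ (-k) = u0 ^ (-k) * (1 + (u - u0) / u0) ^ (-k) := by
    rw [← Real.mul_rpow hu0'.le (by linarith)]
    congr 1
    field_simp
    ring
  have h2 := taylor (k := k) (by linarith) (by linarith) ht
  have h3 := chord hk hk1.le hu0' hA hB
  have h4 : u ^ (-k) ≤ (((1 / 2 - k) * A + (k - 9 / 25) * B) * (50 / 7)) *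
      (1 - k * ((u - u0) / u0) + 1 / 2 * k * (k + 1) * ((u - u0) / u0) ^ 2) := by
    rw [h1]
    exact mul_le_mul h3 h2 (by positivity) (le_trans (by positivity) h3)
  have h5 : 0 ≤ 1 - k * (1 - 2 * k) / 3 / u := by
    have : k * (1 - 2 * k) / 3 / u ≤ 1 := by
      rw [div_le_one hu']
      nlinarith
    linarith
  have h6 := mul_le_mul_of_nonneg_right h4 h5
  have h7 := pp_le hk1.le
  have h8 : 0 ≤ 1 + k / 2 * (1 - u) := by nlinarith
  have h9 : pp k / (1 - k) * (1 + k / 2 * (1 - u)) ≤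
      4 ^ (-k) / (1 - k) * (1 + k / 2 * (1 - u)) := by
    refine mul_le_mul_of_nonneg_right ?_ h8
    exact div_le_div_of_nonneg_right h7 (by linarith)
  have h10 : pp k / (1 - k) * (1 + k / 2 * (1 - u)) - 0.035 * (u - 1) ^ 2 * (2.1 - u) -
      (((1 / 2 - k) * A + (k - 9 / 25) * B) * (50 / 7)) *
      (1 - k * ((u - u0) / u0) + 1 / 2 * k * (k + 1) * ((u - u0) / u0) ^ 2) *
      (1 - k * (1 - 2 * k) / 3 / u) = FF k u u0 A B / ((1 - k) * u) := by
    unfold FF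
    have e1 : (1 - k) ≠ 0 := by
      have : 0 < 1 - k := by linarith
      exact this.ne'
    generalize pp k = p
    generalize (1 - k * ((u - u0) / u0) + 1 / 2 * k * (k + 1) * ((u - u0) / u0) ^ 2) = q
    generalize ((1 / 2 - k) * A + (k - 9 / 25) * B) * (50 / 7) = r
    have e2 : u ≠ 0 := hu'.ne'
    field_simp
    ring
  have h11 : 0 ≤ FF k u u0 A B / ((1 - k) * u) :=
    div_nonneg hF (mul_nonneg (by linarith) hu'.le)
  unfold Goal
  linarith

/-- Numerical bounds for powers. -/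
theorem num {x A : ℝ} {e : ℝ} {n m : ℕ} (hn : n ≠ 0) (hx : 0 < x) (hA : 0 ≤ A)
    (he : e * n = -m) (h : (x ^ m)⁻¹ ≤ A ^ n) : x ^ e ≤ A := by
  have h1 : (x ^ e) ^ n = (x ^ m)⁻¹ := by
    rw [← Real.rpow_natCast (x ^ e) n, ← Real.rpow_mul hx.le, he, Real.rpow_neg hx.le,
      Real.rpow_natCast]
  rw [← h1] at h
  exact (pow_le_pow_iff_left₀ (by positivity) hA hn).1 h

/-- Large values of `u`. -/
theorem large {k u : ℝ} (hk : 9 / 25 ≤ k) (hk1 : k < 1 / 2) (hu : 21 / 5 ≤ u) : Goal k u := by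
  have hu' : 0 < u := by linarith
  have h1 : u ^ (-k) ≤ 61 / 100 := by
    have h2 : u ^ (-k) ≤ 4 ^ (-(9 / 25) : ℝ) := by
      calc u ^ (-k) ≤ u ^ (-(9 / 25) : ℝ) := by
            apply Real.rpow_le_rpow_of_exponent_le (by linarith) (by linarith)
        _ ≤ 4 ^ (-(9 / 25) : ℝ) := by
            apply Real.rpow_le_rpow_of_nonpos (by norm_num) (by linarith) (by norm_num)
    refine h2.trans (num (n := 25) (m := 9) (by norm_num) (by norm_num) (by norm_num)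
      (by norm_num) (by norm_num))
  have h0 : 0 ≤ u ^ (-k) := by positivity
  have h5 : 0 ≤ 1 - k * (1 - 2 * k) / 3 / u := by
    have : k * (1 - 2 * k) / 3 / u ≤ 1 := by
      rw [div_le_one hu']
      nlinarith
    linarith
  have h6 : 1 - k * (1 - 2 * k) / 3 / u ≤ 1 := by
    have : 0 ≤ k * (1 - 2 * k) / 3 / u := by
      have : 0 ≤ 1 - 2 * k := by linarith
      positivity
    linarith
  have h7 : u ^ (-k) * (1 - k * (1 - 2 * k) / 3 / u) ≤ 61 / 100 := by nlinarith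
  -- `4 ^ (-k) ≤ 1 - k`
  have h8 : (4 : ℝ) ^ (-k) ≤ 1 - k := by
    have h9 := Real.geom_mean_le_arith_mean2_weighted (w₁ := 1 - 2 * k)
      (w₂ := 2 * k) (p₁ := (1 : ℝ)) (p₂ := (1 / 2 : ℝ))
      (by linarith) (by linarith) (by norm_num) (by norm_num) (by ring)
    rw [Real.one_rpow, one_mul] at h9
    have h10 : (1 / 2 : ℝ) ^ (2 * k) = 4 ^ (-k) := by
      rw [Real.rpow_mul (by norm_num), one_div, Real.rpow_neg (by norm_num),
        ← Real.inv_rpow (by norm_num)]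
      congr 1
      rw [← one_div]
      norm_num
    rw [h10] at h9
    linarith
  have h11 : 0 < (4 : ℝ) ^ (-k) := by positivity
  have h12 : 4 ^ (-k) / (1 - k) ≤ 1 := by
    rw [div_le_one (by linarith)]
    exact h8
  have h13 : 0 ≤ 4 ^ (-k) / (1 - k) := div_nonneg h11.le (by linarith)
  have h14 : min 0 (1 + 1 / 4 * (1 - u)) ≤ 4 ^ (-k) / (1 - k) * (1 + k / 2 * (1 - u)) := by
    rcases le_total 0 (1 + k / 2 * (1 - u)) with h15 | h15
    · exact (min_le_left _ _).trans (mul_nonneg h13 h15)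
    · refine (min_le_right _ _).trans ?_
      have h16 : 1 + 1 / 4 * (1 - u) ≤ 1 + k / 2 * (1 - u) := by nlinarith
      nlinarith
  have h17 : 61 / 100 ≤ min 0 (1 + 1 / 4 * (1 - u)) - 0.035 * (u - 1) ^ 2 * (2.1 - u) := by
    rcases le_total 0 (1 + 1 / 4 * (1 - u)) with h18 | h18
    · rw [min_eq_left h18]
      nlinarith [mul_nonneg (sub_nonneg.2 hu) (sub_nonneg.2 hu),
        mul_nonneg (mul_nonneg (sub_nonneg.2 hu) (sub_nonneg.2 hu)) (sub_nonneg.2 hu)]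
    · rw [min_eq_right h18]
      nlinarith [mul_nonneg (sub_nonneg.2 hu) (sub_nonneg.2 hu),
        mul_nonneg (mul_nonneg (sub_nonneg.2 hu) (sub_nonneg.2 hu)) (sub_nonneg.2 hu)]
  unfold Goal
  linarith

theorem all {k u : ℝ} (hk : 9 / 25 ≤ k) (hk1 : k < 1 / 2) (hu : 5 / 4 ≤ u) : Goal k u := by
  rcases le_total u (17 / 10) with h | h
  · exact piece hk hk1 (by norm_num) hu (by linarith)
      (num (n := 25) (m := 9) (by norm_num) (by norm_num) (by norm_num) (by norm_num) (by norm_num))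
      (num (n := 2) (m := 1) (by norm_num) (by norm_num) (by norm_num) (by norm_num) (by norm_num))
      (poly0 k u hk hk1.le hu h)
  rcases le_total u (11 / 5) with h' | h'
  · exact piece hk hk1 (by norm_num) h (by linarith)
      (num (n := 25) (m := 9) (by norm_num) (by norm_num) (by norm_num) (by norm_num) (by norm_num))
      (num (n := 2) (m := 1) (by norm_num) (by norm_num) (by norm_num) (by norm_num) (by norm_num))
      (poly1 k u hk hk1.le h h')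
  rcases le_total u 3 with h'' | h''
  · exact piece hk hk1 (by norm_num) h' (by linarith)
      (num (n := 25) (m := 9) (by norm_num) (by norm_num) (by norm_num) (by norm_num) (by norm_num))
      (num (n := 2) (m := 1) (by norm_num) (by norm_num) (by norm_num) (by norm_num) (by norm_num))
      (poly2 k u hk hk1.le h' h'')
  rcases le_total u (21 / 5) with h3 | h3
  · exact piece hk hk1 (by norm_num) h'' (by linarith)
      (num (n := 25) (m := 9) (by norm_num) (by norm_num) (by norm_num) (by norm_num) (by norm_num))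
      (num (n := 2) (m := 1) (by norm_num) (by norm_num) (by norm_num) (by norm_num) (by norm_num))
      (poly3 k u hk hk1.le h'' h3)
  exact large hk hk1 h3

end maj_3b_high_aux

theorem maj_3b_high {k u : ℝ} (hk : 0.36 ≤ k) (hk1 : k < 1 / 2) (hu : 5 / 4 ≤ u) :
    u ^ (-k) * (1 - k * (1 - 2 * k) / 3 / u) ≤
      4 ^ (-k) / (1 - k) * (1 + k / 2 * (1 - u)) - 0.035 * (u - 1) ^ 2 * (2.1 - u) :=
  maj_3b_high_aux.all (by norm_num at hk ⊢; linarith) hk1 hu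

end

end H618KS
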