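import Pool.Agent.Helper618_KS.Defs
import Pool.Agent.Helper618_KS.Gam

/-!
Part `GamHalf` of the proof for MP_237b21_an.
-/

open MeasureTheory Filter Topology Set Real
open scoped ENNReal NNReal

set_option autoImplicit false

namespace H618KS

section

namespace gamma_lower_half_aux

theorem gamma_shift (x : ℝ) (hx : 0 < x) (n : ℕ) :
    Real.Gamma (x + n) = (∏ i ∈ Finset.range n, (x + i)) * Real.Gamma x := by
  induction n with
  | zero => simp
  | succ n ih =>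
    have h1 : x + ((n + 1 : ℕ) : ℝ) = (x + n) + 1 := by push_cast; ring
    have hpos : (x + (n : ℝ)) ≠ 0 := by positivity
    rw [h1, Real.Gamma_add_one hpos, ih, Finset.prod_range_succ]
    ring

/-- the polynomial -/
noncomputable def p (k : ℝ) : ℝ := 1 - 0.038 * k + 0.46 * k ^ 2 + 0.2 * k ^ 3

theorem p_pos {k : ℝ} (hk : 0 ≤ k) (hk1 : k ≤ 0.36) : 0 < p k := by
  unfold p
  have : 0 ≤ k ^ 2 := by positivity
  have : 0 ≤ k ^ 3 := by positivity
  nlinarith

noncomputable def F (k : ℝ) : ℝ :=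
  (1 - k) * Real.log (25 / 2 - k / 2) - Real.log (p k)
    - ∑ i ∈ Finset.range 12, Real.log (3 / 2 + (i : ℝ) - k)

noncomputable def F' (k : ℝ) : ℝ :=
  ((-1) * Real.log (25 / 2 - k / 2) + (1 - k) * ((-(1 / 2)) / (25 / 2 - k / 2)))
    - (-0.038 + 0.92 * k + 0.6 * k ^ 2) / p k
    - ∑ i ∈ Finset.range 12, ((-1) / (3 / 2 + (i : ℝ) - k))

theorem hasDerivAt_F {k : ℝ} (hk : 0 ≤ k) (hk1 : k ≤ 0.36) : HasDerivAt F (F' k) k := by
  unfold F F'
  refine HasDerivAt.sub (HasDerivAt.sub ?_ ?_) ?_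
  · refine HasDerivAt.mul ?_ ?_
    · simpa using (hasDerivAt_id k).const_sub 1
    · refine HasDerivAt.log ?_ (by norm_num at *; linarith)
      simpa using ((hasDerivAt_id k).div_const 2).const_sub (25 / 2)
  · refine HasDerivAt.log ?_ (p_pos hk hk1).ne'
    unfold p
    have h1 : HasDerivAt (fun k : ℝ => 0.038 * k) 0.038 k := by
      simpa using (hasDerivAt_id k).const_mul (0.038 : ℝ)
    have h2 : HasDerivAt (fun k : ℝ => 0.46 * k ^ 2) (0.46 * (2 * k)) k := by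
      simpa using (hasDerivAt_pow 2 k).const_mul (0.46 : ℝ)
    have h3 : HasDerivAt (fun k : ℝ => 0.2 * k ^ 3) (0.2 * (3 * k ^ 2)) k := by
      simpa using (hasDerivAt_pow 3 k).const_mul (0.2 : ℝ)
    have h4 := ((h1.const_sub 1).add h2).add h3
    refine h4.congr_deriv ?_
    ring
  · refine HasDerivAt.fun_sum ?_
    intro i _
    have hi : (0 : ℝ) ≤ (i : ℝ) := Nat.cast_nonneg i
    refine HasDerivAt.log ?_ (by norm_num at *; linarith)
    simpa using (hasDerivAt_id k).const_sub (3 / 2 + (i : ℝ))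

theorem log25 : Real.log (25 / 2) ≤ 2.525915 := by
  have h2 := Real.log_two_lt_d9
  have h5 : 3 * Real.log 5 = 7 * Real.log 2 + Real.log (125 / 128) := by
    rw [Real.log_div (by norm_num) (by norm_num)]
    rw [show (125 : ℝ) = 5 ^ 3 by norm_num, show (128 : ℝ) = 2 ^ 7 by norm_num,
      Real.log_pow, Real.log_pow]
    push_cast
    ring
  have h3 : Real.log (125 / 128) ≤ 125 / 128 - 1 := Real.log_le_sub_one_of_pos (by norm_num)
  have h4 : Real.log (25 / 2) = 2 * Real.log 5 - Real.log 2 := by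
    rw [Real.log_div (by norm_num) (by norm_num), show (25 : ℝ) = 5 ^ 2 by norm_num,
      Real.log_pow]
    push_cast
    ring
  rw [h4]
  norm_num at *
  linarith

theorem inv_bound {a k : ℝ} (ha : 3 / 2 ≤ a) (hk : 0 ≤ k) (hk1 : k ≤ 0.36) :
    1 / a + k / a ^ 2 + k ^ 2 / a ^ 3 + k ^ 3 / a ^ 4 ≤ 1 / (a - k) := by
  have ha0 : 0 < a := by linarith
  have hak : 0 < a - k := by norm_num at *; linarith
  rw [le_div_iff₀ hak]
  have h : (1 / a + k / a ^ 2 + k ^ 2 / a ^ 3 + k ^ 3 / a ^ 4) * (a - k) = 1 - k ^ 4 / a ^ 4 := by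
    field_simp
    ring
  rw [h]
  have : 0 ≤ k ^ 4 / a ^ 4 := by positivity
  linarith

theorem F'_nonneg {k : ℝ} (hk : 0 ≤ k) (hk1 : k ≤ 0.36) : 0 ≤ F' k := by
  have hp := p_pos hk hk1
  have hc : 0 < 25 - k := by norm_num at *; linarith
  have hc2 : 0 < 25 / 2 - k / 2 := by linarith
  -- sum bound
  have hsum : ∑ i ∈ Finset.range 12, (1 / (3 / 2 + (i : ℝ)) + k / (3 / 2 + (i : ℝ)) ^ 2
      + k ^ 2 / (3 / 2 + (i : ℝ)) ^ 3 + k ^ 3 / (3 / 2 + (i : ℝ)) ^ 4)
      ≤ ∑ i ∈ Finset.range 12, (1 / (3 / 2 + (i : ℝ) - k)) := by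
    refine Finset.sum_le_sum ?_
    intro i _
    have hi : (0 : ℝ) ≤ (i : ℝ) := Nat.cast_nonneg i
    exact inv_bound (by linarith) hk hk1
  -- numeric sums
  have hnum : ∀ k : ℝ, ∑ i ∈ Finset.range 12, (1 / (3 / 2 + (i : ℝ)) + k / (3 / 2 + (i : ℝ)) ^ 2
      + k ^ 2 / (3 / 2 + (i : ℝ)) ^ 3 + k ^ 3 / (3 / 2 + (i : ℝ)) ^ 4)
      = (∑ i ∈ Finset.range 12, 1 / (3 / 2 + (i : ℝ)))
        + (∑ i ∈ Finset.range 12, 1 / (3 / 2 + (i : ℝ)) ^ 2) * k
        + (∑ i ∈ Finset.range 12, 1 / (3 / 2 + (i : ℝ)) ^ 3) * k ^ 2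
        + (∑ i ∈ Finset.range 12, 1 / (3 / 2 + (i : ℝ)) ^ 4) * k ^ 3 := by
    intro k
    simp only [Finset.sum_mul, ← Finset.sum_add_distrib]
    refine Finset.sum_congr rfl ?_
    intro i _
    ring
  have hg0 : (2.528705 : ℝ) ≤ ∑ i ∈ Finset.range 12, 1 / (3 / 2 + (i : ℝ)) := by
    simp only [Finset.sum_range_succ, Finset.sum_range_zero]
    norm_num
  have hg1 : (0.857916 : ℝ) ≤ ∑ i ∈ Finset.range 12, 1 / (3 / 2 + (i : ℝ)) ^ 2 := by
    simp only [Finset.sum_range_succ, Finset.sum_range_zero]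
    norm_num
  have hg2 : (0.411444 : ℝ) ≤ ∑ i ∈ Finset.range 12, 1 / (3 / 2 + (i : ℝ)) ^ 3 := by
    simp only [Finset.sum_range_succ, Finset.sum_range_zero]
    norm_num
  have hg3 : (0.234697 : ℝ) ≤ ∑ i ∈ Finset.range 12, 1 / (3 / 2 + (i : ℝ)) ^ 4 := by
    simp only [Finset.sum_range_succ, Finset.sum_range_zero]
    norm_num
  rw [hnum k] at hsum
  have hlog : Real.log (25 / 2 - k / 2) ≤ 2.525915 - k / 25 := by
    have h1 : (25 / 2 - k / 2 : ℝ) = 25 / 2 * (1 - k / 25) := by ring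
    have h2 : 0 < 1 - k / 25 := by norm_num at *; linarith
    rw [h1, Real.log_mul (by norm_num) h2.ne']
    have h3 := Real.log_le_sub_one_of_pos h2
    have h4 := log25
    linarith
  have h24 : 0.96 * (1 + k / 25 + k ^ 2 / 625) ≤ 24 / (25 - k) := by
    rw [le_div_iff₀ hc]
    have : 0 ≤ k ^ 3 := by positivity
    norm_num at *
    nlinarith
  have hfrac : (1 - k) * ((-(1 / 2)) / (25 / 2 - k / 2)) = -1 + 24 / (25 - k) := by
    have : (25 / 2 - k / 2 : ℝ) = (25 - k) / 2 := by ring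
    rw [this]
    field_simp
    ring
  have hneg : ∑ i ∈ Finset.range 12, ((-1) / (3 / 2 + (i : ℝ) - k))
      = -∑ i ∈ Finset.range 12, (1 / (3 / 2 + (i : ℝ) - k)) := by
    rw [← Finset.sum_neg_distrib]
    refine Finset.sum_congr rfl ?_
    intro i _
    ring
  unfold F'
  rw [hfrac, hneg]
  set S := ∑ i ∈ Finset.range 12, (1 / (3 / 2 + (i : ℝ) - k)) with hSdef
  have hk2 : 0 ≤ k ^ 2 := by positivity
  have hk3 : 0 ≤ k ^ 3 := by positivity
  have hSlow : 2.528705 + 0.857916 * k + 0.411444 * k ^ 2 + 0.234697 * k ^ 3 ≤ S := by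
    have e1 := mul_le_mul_of_nonneg_right hg1 hk
    have e2 := mul_le_mul_of_nonneg_right hg2 hk2
    have e3 := mul_le_mul_of_nonneg_right hg3 hk3
    linarith
  have hquot : (-0.038 + 0.92 * k + 0.6 * k ^ 2) / p k
      ≤ -0.03721 + 0.936316 * k + 0.41298 * k ^ 2 + 0.234697 * k ^ 3 := by
    rw [div_le_iff₀ hp]
    unfold p
    have hk5 : 0 ≤ k ^ 5 := by positivity
    have hk6 : 0 ≤ k ^ 6 := by positivity
    have hk4 : 0 ≤ k ^ 4 := by positivity
    norm_num at *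
    nlinarith [mul_nonneg hk (sq_nonneg (k - 0.19)), sq_nonneg (k ^ 2 - 0.0225),
      sq_nonneg (k - 0.15), mul_nonneg hk (sq_nonneg (k - 0.17)), sq_nonneg (k - 0.17)]
  norm_num at *
  linarith

theorem Gamma_half_pos : 0 < Real.Gamma (3 / 2) := Real.Gamma_pos_of_pos (by norm_num)

theorem F_zero : F 0 = -∑ i ∈ Finset.range 11, Real.log (3 / 2 + (i : ℝ)) := by
  unfold F p
  rw [Finset.sum_range_succ]
  norm_num

theorem F_mono {k : ℝ} (hk : 0 ≤ k) (hk1 : k ≤ 0.36) : F 0 ≤ F k := by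
  have hcont : ContinuousOn F (Set.Icc 0 0.36) := fun x hx =>
    (hasDerivAt_F hx.1 hx.2).continuousAt.continuousWithinAt
  have hmono : MonotoneOn F (Set.Icc 0 0.36) := by
    refine monotoneOn_of_deriv_nonneg (convex_Icc _ _) hcont ?_ ?_
    · intro x hx
      have hx' := interior_subset hx
      exact (hasDerivAt_F hx'.1 hx'.2).differentiableAt.differentiableWithinAt
    · intro x hx
      have hx' := interior_subset hx
      rw [(hasDerivAt_F hx'.1 hx'.2).deriv]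
      exact F'_nonneg hx'.1 hx'.2
  exact hmono ⟨le_refl _, by norm_num⟩ ⟨hk, hk1⟩ hk

end gamma_lower_half_aux

theorem gamma_lower_half {k : ℝ} (hk : 0 ≤ k) (hk1 : k ≤ 0.36) :
    Real.Gamma (3 / 2) * (1 - 0.038 * k + 0.46 * k ^ 2 + 0.2 * k ^ 3) ≤ Real.Gamma (3 / 2 - k) := by
  have hk1' : k ≤ 0.36 := hk1
  have hkk : k ≤ 1 := by norm_num at *; linarith
  have h32 : 0 < 3 / 2 - k := by norm_num at *; linarith
  have hp := gamma_lower_half_aux.p_pos hk hk1
  have hker := kershaw (x := 25 / 2) (s := 1 - k) (by norm_num) (by linarith) (by linarith)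
  have e1 : (25 / 2 : ℝ) + (1 - k) = (3 / 2 - k) + ((12 : ℕ) : ℝ) := by push_cast; ring
  have e2 : (25 / 2 : ℝ) = 3 / 2 + ((11 : ℕ) : ℝ) := by push_cast; ring
  have e3 : (25 / 2 : ℝ) - (1 - (1 - k)) / 2 = 25 / 2 - k / 2 := by ring
  rw [e3, e1, gamma_lower_half_aux.gamma_shift _ h32 12] at hker
  nth_rewrite 1 [e2] at hker
  rw [gamma_lower_half_aux.gamma_shift _ (by norm_num) 11] at hker
  have hFF := gamma_lower_half_aux.F_mono hk hk1
  rw [gamma_lower_half_aux.F_zero] at hFF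
  unfold gamma_lower_half_aux.F at hFF
  have hpos11 : 0 < ∏ i ∈ Finset.range 11, (3 / 2 + (i : ℝ)) :=
    Finset.prod_pos (fun i _ => by positivity)
  have hpos12 : 0 < ∏ i ∈ Finset.range 12, (3 / 2 - k + (i : ℝ)) :=
    Finset.prod_pos (fun i _ => by positivity)
  have hc2 : 0 < 25 / 2 - k / 2 := by linarith
  -- exponentiate
  have hlog12 : ∑ i ∈ Finset.range 12, Real.log (3 / 2 + (i : ℝ) - k)
      = Real.log (∏ i ∈ Finset.range 12, (3 / 2 - k + (i : ℝ))) := by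
    rw [Real.log_prod]
    · refine Finset.sum_congr rfl ?_
      intro i _
      congr 1
      ring
    · intro i _
      have : 0 < 3 / 2 - k + (i : ℝ) := by positivity
      exact this.ne'
  have hlog11 : ∑ i ∈ Finset.range 11, Real.log (3 / 2 + (i : ℝ))
      = Real.log (∏ i ∈ Finset.range 11, (3 / 2 + (i : ℝ))) := by
    rw [Real.log_prod]
    intro i _
    have : (0 : ℝ) < 3 / 2 + (i : ℝ) := by positivity
    exact this.ne'
  rw [hlog12, hlog11] at hFF
  have hineq : gamma_lower_half_aux.p k * (∏ i ∈ Finset.range 12, (3 / 2 - k + (i : ℝ)))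
      ≤ (∏ i ∈ Finset.range 11, (3 / 2 + (i : ℝ))) * (25 / 2 - k / 2) ^ (1 - k) := by
    rw [← Real.log_le_log_iff (mul_pos hp hpos12)
      (mul_pos hpos11 (Real.rpow_pos_of_pos hc2 _)), Real.log_mul hp.ne' hpos12.ne',
      Real.log_mul hpos11.ne' (Real.rpow_pos_of_pos hc2 _).ne', Real.log_rpow hc2]
    linarith
  have hG := gamma_lower_half_aux.Gamma_half_pos
  have h5 : (∏ i ∈ Finset.range 12, (3 / 2 - k + (i : ℝ))) * (Real.Gamma (3 / 2) * gamma_lower_half_aux.p k)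
      ≤ (∏ i ∈ Finset.range 12, (3 / 2 - k + (i : ℝ))) * Real.Gamma (3 / 2 - k) := by
    refine le_trans ?_ hker
    have := mul_le_mul_of_nonneg_left hineq hG.le
    linarith
  have h6 := le_of_mul_le_mul_left h5 hpos12
  exact h6

end

end H618KS
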