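import Pool.Agent.Helper618_KS.Defs
import Pool.Agent.Helper618_KS.GamHalf

/-!
Part `NumThree` of the proof for MP_237b21_an.
-/

open MeasureTheory Filter Topology Set Real
open scoped ENNReal NNReal

set_option autoImplicit false

namespace H618KS

section

namespace num_3a_aux

theorem rpow124 {k : ℝ} (hk : 0 < k) (hk1 : k ≤ 0.36) :
    (1.24 : ℝ) ^ k ≤ 1 + 0.21512 * k + (0.21512 * k) ^ 2 / 2 + (0.21512 * k) ^ 3 * (2 / 9) := by
  have h1 : Real.log 1.24 ≤ 0.21512 := by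
    rw [Real.log_le_iff_le_exp (by norm_num)]
    have := Real.sum_le_exp_of_nonneg (x := 0.21512) (by norm_num) 6
    refine le_trans ?_ this
    norm_num [Finset.sum_range_succ, Nat.factorial]
  rw [Real.rpow_def_of_pos (by norm_num)]
  have h2 : Real.log 1.24 * k ≤ 0.21512 * k := mul_le_mul_of_nonneg_right h1 hk.le
  have h3 := Real.exp_bound' (x := 0.21512 * k) (by positivity) (by nlinarith) (n := 3) (by norm_num)
  refine (Real.exp_le_exp.2 h2).trans (h3.trans ?_)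
  norm_num [Finset.sum_range_succ, Nat.factorial]
  nlinarith

theorem rpow335 {k : ℝ} (hk : 0 < k) (hk1 : k ≤ 0.36) :
    (3.4596 / 10.32 : ℝ) ^ k ≤ 1 - 1.0929 * k + (1.0929 * k) ^ 2 / 2 - (1.0929 * k) ^ 3 / 6 +
      (1.0929 * k) ^ 4 / 24 + (1.0929 * k) ^ 5 / 100 := by
  have h1 : Real.log (3.4596 / 10.32) ≤ -1.0929 := by
    rw [Real.log_le_iff_le_exp (by norm_num), Real.exp_neg]
    have e1 : Real.exp 1.0929 ≤ 2.983 := by
      have e2 : Real.exp 1.0929 = Real.exp 1 * Real.exp 0.0929 := by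
        rw [← Real.exp_add]
        norm_num
      have e3 := Real.exp_bound' (x := 0.0929) (by norm_num) (by norm_num) (n := 4) (by norm_num)
      have e4 : Real.exp 0.0929 ≤ 1.09736 := by
        refine e3.trans ?_
        norm_num [Finset.sum_range_succ, Nat.factorial]
      have e5 := Real.exp_one_lt_d9
      rw [e2]
      have e6 : 0 < Real.exp 0.0929 := Real.exp_pos _
      nlinarith
    have e7 : (0:ℝ) < Real.exp 1.0929 := Real.exp_pos _
    rw [← one_div, div_le_div_iff₀ (by norm_num) e7]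
    nlinarith
  rw [Real.rpow_def_of_pos (by norm_num)]
  have h2 : Real.log (3.4596 / 10.32) * k ≤ -(1.0929 * k) := by
    have := mul_le_mul_of_nonneg_right h1 hk.le
    linarith
  have hy0 : 0 ≤ 1.0929 * k := by positivity
  have h3 := Real.exp_bound (x := -(1.0929 * k)) (by rw [abs_neg, abs_of_nonneg hy0]; nlinarith)
    (n := 5) (by norm_num)
  have h4 := (abs_le.1 h3).2
  rw [abs_neg, abs_of_nonneg hy0] at h4
  refine (Real.exp_le_exp.2 h2).trans ?_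
  norm_num [Finset.sum_range_succ, Nat.factorial] at h4 ⊢
  nlinarith

theorem poly1 {k : ℝ} (hk : 0 < k) (hk1 : k ≤ 0.36) :
    (1 + 0.21512 * k + (0.21512 * k) ^ 2 / 2 + (0.21512 * k) ^ 3 * (2 / 9)) *
      (1 - k * (1 - 2 * k) / 3 * (0.86 - 5 / 48 * 0.86 ^ 2)) ≤
      1 - 0.038 * k + 0.46 * k ^ 2 + 0.2 * k ^ 3 := by
  have h2 : 0 ≤ k ^ 2 := by positivity
  have h3 : 0 ≤ k ^ 3 := by positivity
  have h4 : k ^ 4 ≤ 0.36 * k ^ 3 := by nlinarith
  have h5 : k ^ 5 ≤ 0.36 * k ^ 4 := by nlinarith [pow_pos hk 4]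
  have h6 : 0 ≤ k ^ 4 := by positivity
  have h7 : 0 ≤ k ^ 5 := by positivity
  have h8 : 0 ≤ k * (k - 0.16) ^ 2 := by positivity
  nlinarith

theorem poly2 {k : ℝ} (hk : 0 < k) (hk1 : k ≤ 0.36) :
    1 - 1.0929 * k + (1.0929 * k) ^ 2 / 2 - (1.0929 * k) ^ 3 / 6 +
      (1.0929 * k) ^ 4 / 24 + (1.0929 * k) ^ 5 / 100 ≤
      (1 - k) * (1 - 0.038 * k + 0.46 * k ^ 2 + 0.2 * k ^ 3) := by
  have h2 : k ^ 2 ≤ 0.36 * k := by nlinarith
  have h3 : k ^ 3 ≤ 0.36 ^ 2 * k := by nlinarith [pow_pos hk 2]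
  have h4 : k ^ 4 ≤ 0.36 ^ 3 * k := by nlinarith [pow_pos hk 3]
  have h5 : k ^ 5 ≤ 0.36 ^ 4 * k := by nlinarith [pow_pos hk 4]
  nlinarith

end num_3a_aux

theorem num_3a {k : ℝ} (hk : 0 < k) (hk1 : k ≤ 0.36) :
    ∃ x1 : ℝ, 0 < x1 ∧ x1 < 1 ∧
      (∀ x : ℝ, 0 ≤ x → x ≤ x1 → (1 + x) ^ k * (1 - k * (1 - 2 * k) / 3 * (x - 5 / 48 * x ^ 2)) ≤
        (3 / 2 : ℝ) ^ k * Real.Gamma (3 / 2 - k) / Real.Gamma (3 / 2)) ∧
      ((1 + x1) ^ 2 / (4 * x1)) ^ k * (2 ^ (-k) / (1 - k)) ≤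
        (3 / 2 : ℝ) ^ k * Real.Gamma (3 / 2 - k) / Real.Gamma (3 / 2) := by
  have hG : 0 < Real.Gamma (3 / 2) := Real.Gamma_pos_of_pos (by norm_num)
  have hT : (0:ℝ) < (3 / 2 : ℝ) ^ k := Real.rpow_pos_of_pos (by norm_num) _
  have hR : (3 / 2 : ℝ) ^ k * (1 - 0.038 * k + 0.46 * k ^ 2 + 0.2 * k ^ 3) ≤
      (3 / 2 : ℝ) ^ k * Real.Gamma (3 / 2 - k) / Real.Gamma (3 / 2) := by
    rw [le_div_iff₀ hG]
    have := mul_le_mul_of_nonneg_left (gamma_lower_half hk.le hk1) hT.le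
    linarith
  refine ⟨0.86, by norm_num, by norm_num, ?_, ?_⟩
  · intro x hx0 hx1
    refine le_trans ?_ hR
    have e1 : (1 + x) ^ k = (1.86 : ℝ) ^ k * (1 + (x - 0.86) / 1.86) ^ k := by
      rw [← Real.mul_rpow (by norm_num)]
      · congr 1
        ring
      · have : -(1:ℝ) ≤ (x - 0.86) / 1.86 := by
          rw [le_div_iff₀ (by norm_num)]
          linarith
        linarith
    have hs : -(1:ℝ) ≤ (x - 0.86) / 1.86 := by
      rw [le_div_iff₀ (by norm_num)]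
      linarith
    have e2 := rpow_one_add_le_one_add_mul_self hs hk.le (by linarith : k ≤ 1)
    have hal0 : 0 ≤ k * (1 - 2 * k) / 3 := by
      have : 0 ≤ 1 - 2 * k := by linarith
      positivity
    have hal1 : k * (1 - 2 * k) / 3 ≤ 1 / 24 := by nlinarith [sq_nonneg (k - 1 / 4)]
    have hA : 0.96 ≤ 1 - k * (1 - 2 * k) / 3 * (x - 5 / 48 * x ^ 2) := by
      have : k * (1 - 2 * k) / 3 * (x - 5 / 48 * x ^ 2) ≤ 1 / 24 * 0.86 := by
        have h1 : x - 5 / 48 * x ^ 2 ≤ 0.86 := by nlinarith [sq_nonneg x]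
        have h2 : 0 ≤ x - 5 / 48 * x ^ 2 := by nlinarith
        exact mul_le_mul hal1 h1 h2 (by norm_num)
      norm_num at this ⊢
      linarith
    have e3 : (1 + k * ((x - 0.86) / 1.86)) *
        (1 - k * (1 - 2 * k) / 3 * (x - 5 / 48 * x ^ 2)) ≤
        1 - k * (1 - 2 * k) / 3 * (0.86 - 5 / 48 * 0.86 ^ 2) := by
      -- (A) the difference of the two quadratics
      have hd : 0 ≤ 0.86 - x := by linarith
      have f1 : (0.86 - 5 / 48 * 0.86 ^ 2) - (x - 5 / 48 * x ^ 2) ≤ 0.86 - x := by nlinarith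
      have f2 : k * (1 - 2 * k) / 3 * ((0.86 - 5 / 48 * 0.86 ^ 2) - (x - 5 / 48 * x ^ 2)) ≤
          k * (1 - 2 * k) / 3 * (0.86 - x) := mul_le_mul_of_nonneg_left f1 hal0
      have f3 : k * (1 - 2 * k) / 3 ≤ k * (0.96 / 1.86) := by nlinarith
      have f4 : k * (1 - 2 * k) / 3 * (0.86 - x) ≤ k * (0.96 / 1.86) * (0.86 - x) :=
        mul_le_mul_of_nonneg_right f3 hd
      have f5 : k * (0.96 / 1.86) * (0.86 - x) ≤
          k * ((0.86 - x) / 1.86) * (1 - k * (1 - 2 * k) / 3 * (x - 5 / 48 * x ^ 2)) := by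
        have f6 : 0 ≤ k * ((0.86 - x) / 1.86) := by positivity
        have f8 : k * (0.96 / 1.86) * (0.86 - x) = k * ((0.86 - x) / 1.86) * 0.96 := by ring
        rw [f8]
        exact mul_le_mul_of_nonneg_left hA f6
      have f7 : k * ((x - 0.86) / 1.86) * (1 - k * (1 - 2 * k) / 3 * (x - 5 / 48 * x ^ 2)) =
        -(k * ((0.86 - x) / 1.86) * (1 - k * (1 - 2 * k) / 3 * (x - 5 / 48 * x ^ 2))) := by ring
      rw [add_mul, one_mul, f7]
      linarith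
    have e4 : (1.86 : ℝ) ^ k = (3 / 2 : ℝ) ^ k * (1.24 : ℝ) ^ k := by
      rw [← Real.mul_rpow (by norm_num) (by norm_num)]
      norm_num
    have h186 : (0:ℝ) < (1.86 : ℝ) ^ k := Real.rpow_pos_of_pos (by norm_num) _
    have hB : 0 ≤ 1 - k * (1 - 2 * k) / 3 * (0.86 - 5 / 48 * 0.86 ^ 2) := by
      have : k * (1 - 2 * k) / 3 * (0.86 - 5 / 48 * 0.86 ^ 2) ≤ 1 / 24 * 1 :=
        mul_le_mul hal1 (by norm_num) (by norm_num) (by norm_num)
      linarith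
    calc (1 + x) ^ k * (1 - k * (1 - 2 * k) / 3 * (x - 5 / 48 * x ^ 2))
        = (1.86 : ℝ) ^ k * ((1 + (x - 0.86) / 1.86) ^ k *
            (1 - k * (1 - 2 * k) / 3 * (x - 5 / 48 * x ^ 2))) := by rw [e1]; ring
      _ ≤ (1.86 : ℝ) ^ k * ((1 + k * ((x - 0.86) / 1.86)) *
            (1 - k * (1 - 2 * k) / 3 * (x - 5 / 48 * x ^ 2))) := by
          apply mul_le_mul_of_nonneg_left _ h186.le
          exact mul_le_mul_of_nonneg_right e2 (by linarith)
      _ ≤ (1.86 : ℝ) ^ k * (1 - k * (1 - 2 * k) / 3 * (0.86 - 5 / 48 * 0.86 ^ 2)) :=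
          mul_le_mul_of_nonneg_left e3 h186.le
      _ = (3 / 2 : ℝ) ^ k * ((1.24 : ℝ) ^ k *
            (1 - k * (1 - 2 * k) / 3 * (0.86 - 5 / 48 * 0.86 ^ 2))) := by rw [e4]; ring
      _ ≤ (3 / 2 : ℝ) ^ k * ((1 + 0.21512 * k + (0.21512 * k) ^ 2 / 2 +
            (0.21512 * k) ^ 3 * (2 / 9)) *
            (1 - k * (1 - 2 * k) / 3 * (0.86 - 5 / 48 * 0.86 ^ 2))) := by
          apply mul_le_mul_of_nonneg_left _ hT.le
          exact mul_le_mul_of_nonneg_right (num_3a_aux.rpow124 hk hk1) hB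
      _ ≤ (3 / 2 : ℝ) ^ k * (1 - 0.038 * k + 0.46 * k ^ 2 + 0.2 * k ^ 3) :=
          mul_le_mul_of_nonneg_left (num_3a_aux.poly1 hk hk1) hT.le
  · refine le_trans ?_ hR
    have h1k : 0 < 1 - k := by linarith
    have e1 : (((1 + 0.86) ^ 2 / (4 * 0.86) : ℝ)) ^ k * ((2:ℝ) ^ (-k)) =
        (3 / 2 : ℝ) ^ k * (3.4596 / 10.32 : ℝ) ^ k := by
      have e2 : (2:ℝ) ^ (-k) = (1 / 2 : ℝ) ^ k := by
        rw [Real.rpow_neg (by norm_num), one_div, Real.inv_rpow (by norm_num)]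
      rw [e2, ← Real.mul_rpow (by norm_num) (by norm_num), ← Real.mul_rpow (by norm_num)
        (by norm_num)]
      norm_num
    rw [← mul_div_assoc, e1, div_le_iff₀ h1k, mul_assoc]
    apply mul_le_mul_of_nonneg_left _ hT.le
    refine (num_3a_aux.rpow335 hk hk1).trans ((num_3a_aux.poly2 hk hk1).trans ?_)
    linarith

end

end H618KS
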