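import Pool.Agent.Helper618_KS.Defs
import Pool.Agent.Helper618_KS.Unif
import Pool.Agent.Helper618_KS.Holder
import Pool.Agent.Helper618_KS.Pair
import Pool.Agent.Helper618_KS.Smean
import Pool.Agent.Helper618_KS.HE
import Pool.Agent.Helper618_KS.Big
import Pool.Agent.Helper618_KS.MajThree
import Pool.Agent.Helper618_KS.MajThreeHigh
import Pool.Agent.Helper618_KS.MajThreeC
import Pool.Agent.Helper618_KS.NumThree

/-!
Part `MidThree` of the proof for MP_237b21_an.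
-/

open MeasureTheory Filter Topology Set Real
open scoped ENNReal NNReal

set_option autoImplicit false

namespace H618KS

section

namespace mid_3a_aux

lemma C2_eq {k : ℝ} (_hk : 0 < k) (hk1 : k ≤ 0.36) : C2 3 (2 * k) = 2 ^ (-k) / (1 - k) := by
  unfold C2
  have h1 : (((3 : ℕ) : ℝ) - 1 - 2 * k) / 2 = 1 - k := by push_cast; ring
  have h2 : ((3 : ℕ) : ℝ) - 1 = 2 := by push_cast; norm_num
  have h3 : ((3 : ℕ) : ℝ) - 1 - 2 * k / 2 = (1 - k) + 1 := by push_cast; ring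
  have h4 : (((3 : ℕ) : ℝ) - 1) / 2 = 1 := by push_cast; norm_num
  have h5 : 2 * k / 2 = k := by ring
  have hk2 : (1 - k) ≠ 0 := by norm_num at hk1; linarith
  have hG : Real.Gamma (1 - k) ≠ 0 :=
    (Real.Gamma_pos_of_pos (by norm_num at hk1; linarith)).ne'
  rw [h1, h3, h4, h2, h5, Real.Gamma_add_one hk2, Real.Gamma_two, Real.Gamma_one]
  field_simp

lemma Cinf_eq (k : ℝ) :
    Cinf 3 (2 * k) = (3 / 2 : ℝ) ^ k * Real.Gamma (3 / 2 - k) / Real.Gamma (3 / 2) := by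
  unfold Cinf
  have h1 : (((3 : ℕ) : ℝ) - 2 * k) / 2 = 3 / 2 - k := by push_cast; ring
  have h2 : ((3 : ℕ) : ℝ) / 2 = 3 / 2 := by push_cast; norm_num
  have h3 : 2 * k / 2 = k := by ring
  rw [h1, h2, h3]

lemma al_eq (k : ℝ) : al 3 (2 * k) = k * (1 - 2 * k) / 3 := by
  unfold al
  push_cast
  ring

lemma al2_nonneg {k : ℝ} (hk : 0 < k) (hk1 : k ≤ 0.36) : 0 ≤ al2 3 (2 * k) := by
  unfold al2
  push_cast
  norm_num at hk1
  have h1 : 0 ≤ 3 - 2 - 2 * k := by linarith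
  have h2 : 0 ≤ 2 * k + 4 - 3 := by linarith
  have h3 : 0 ≤ 2 * k + 2 := by linarith
  positivity

lemma poly_bound {k : ℝ} (hk : 0 < k) (hk1 : k ≤ 0.36) (r : ℝ) (hr : 0 ≤ r) :
    hE 3 (2 * k) r ≤ ENNReal.ofReal (1 + (-al 3 (2 * k)) * r ^ 2 +
      (al 3 (2 * k) / 16) * r ^ 4 + 0 * r ^ 6) := by
  have hk1' : k ≤ 9 / 25 := by norm_num at hk1; linarith
  have hal : 0 ≤ al 3 (2 * k) := by
    rw [al_eq]
    have : 0 ≤ 1 - 2 * k := by linarith
    positivity
  have hal2 := al2_nonneg hk hk1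
  rcases le_total r 1 with h | h
  · refine (hE_poly_lt (m := 3) le_rfl (q := 2 * k) (by linarith) (by push_cast; linarith)
      (by push_cast; linarith) hr h).trans ?_
    apply ENNReal.ofReal_le_ofReal
    have h1 : 0 ≤ al2 3 (2 * k) * r ^ 4 := by positivity
    have h2 : 0 ≤ al 3 (2 * k) / 16 * r ^ 4 := by positivity
    linarith
  · refine (hE_poly_gt (m := 3) le_rfl (q := 2 * k) (by linarith) (by push_cast; linarith)
      (by push_cast; linarith) h).trans ?_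
    apply ENNReal.ofReal_le_ofReal
    have hrpos : 0 < r := by linarith
    have hu : 1 ≤ r ^ 2 := by nlinarith
    have hm := maj_3a (k := k) (u := r ^ 2) hk (by linarith) hu
    have hpow : r ^ (-(2 * k)) = (r ^ 2) ^ (-k) := by
      rw [← Real.rpow_natCast r 2, ← Real.rpow_mul hr]
      congr 1
      push_cast
      ring
    rw [hpow]
    have h0 : 0 ≤ (r ^ 2) ^ (-k) := by positivity
    have h1 : 0 ≤ al2 3 (2 * k) / r ^ 4 := by positivity
    calc (r ^ 2) ^ (-k) * (1 - al 3 (2 * k) / r ^ 2 - al2 3 (2 * k) / r ^ 4)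
        ≤ (r ^ 2) ^ (-k) * (1 - k * (1 - 2 * k) / 3 / r ^ 2) := by
          apply mul_le_mul_of_nonneg_left _ h0
          rw [al_eq]
          linarith
      _ ≤ 1 - k * (1 - 2 * k) / 3 * (r ^ 2 - (r ^ 2) ^ 2 / 16) := hm
      _ = _ := by rw [al_eq]; ring

lemma pow_ai {k x b : ℝ} (hx : 0 ≤ x) (hb : b ^ 2 = 1 / (1 + x)) :
    |b| ^ (-(2 * k)) = (1 + x) ^ k := by
  have h1 : |b| ^ (-(2 * k)) = (b ^ 2) ^ (-k) := by
    rw [← sq_abs b, ← Real.rpow_natCast |b| 2, ← Real.rpow_mul (abs_nonneg b)]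
    congr 1
    push_cast
    ring
  rw [h1, hb, one_div, Real.inv_rpow (by linarith), Real.rpow_neg (by linarith), inv_inv]

end mid_3a_aux

theorem mid_3a {n : ℕ} {q : ℝ} (hq1 : 0 < q) (hq2 : q ≤ 0.72)
    (a : Fin (n + 1) → ℝ) (ha : ∑ j, a j ^ 2 = 1) (i : Fin (n + 1)) (hi : 1 / 2 < a i ^ 2) :
    EN 3 q a ≤ ENNReal.ofReal (max (C2 3 q) (Cinf 3 q)) := by
  obtain ⟨k, rfl⟩ : ∃ k : ℝ, q = 2 * k := ⟨q / 2, by ring⟩
  have hk : 0 < k := by linarith
  have hk1 : k ≤ 0.36 := by norm_num at hq2 ⊢; linarith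
  have hk1' : k ≤ 9 / 25 := by norm_num at hk1; linarith
  have hai : a i ≠ 0 := by
    intro h
    rw [h] at hi
    norm_num at hi
  have hai2 : 0 < a i ^ 2 := by positivity
  obtain ⟨x, hx⟩ : ∃ x : ℝ, x = ∑ j, (a (i.succAbove j) / a i) ^ 2 := ⟨_, rfl⟩
  have hsum : a i ^ 2 + ∑ j, a (i.succAbove j) ^ 2 = 1 := by
    rw [← ha, Fin.sum_univ_succAbove _ i]
  have hx' : x * a i ^ 2 = ∑ j, a (i.succAbove j) ^ 2 := by
    rw [hx, Finset.sum_mul]
    apply Finset.sum_congr rfl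
    intro j _
    field_simp
  have hxnn : 0 ≤ x := by
    rw [hx]
    positivity
  have hprod : a i ^ 2 * (1 + x) = 1 := by
    nlinarith
  have hb : a i ^ 2 = 1 / (1 + x) := by
    rw [eq_div_iff (by linarith)]
    exact hprod
  have hx1 : x < 1 := by
    by_contra h
    push Not at h
    nlinarith
  have hCle : (3 / 2 : ℝ) ^ k * Real.Gamma (3 / 2 - k) / Real.Gamma (3 / 2) ≤
      max (C2 3 (2 * k)) (Cinf 3 (2 * k)) := by
    rw [← mid_3a_aux.Cinf_eq]
    exact le_max_right _ _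
  obtain ⟨x1, hx1pos, hx1lt, hA, hB⟩ := num_3a hk hk1
  rcases hxnn.eq_or_lt with h0 | hxpos
  · -- x = 0
    have hz : ∀ j, a (i.succAbove j) = 0 := by
      intro j
      have hs : ∑ j, (a (i.succAbove j) / a i) ^ 2 = 0 := by rw [← hx, ← h0]
      rw [Finset.sum_eq_zero_iff_of_nonneg (fun j _ => sq_nonneg _)] at hs
      have := hs j (Finset.mem_univ _)
      have h2 : a (i.succAbove j) / a i = 0 := by
        exact pow_eq_zero_iff (two_ne_zero) |>.1 this
      rcases div_eq_zero_iff.1 h2 with h3 | h3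
      · exact h3
      · exact absurd h3 hai
    have hab : |a i| ^ (-(2 * k)) = 1 := by
      rw [mid_3a_aux.pow_ai hxnn hb, ← h0]
      simp
    have hE0 : hE 3 (2 * k) 0 = 1 := by
      rw [hE_lt (by norm_num) le_rfl (by norm_num), sm_zero]
      simp
    have : IsProbabilityMeasure (unif 3) := unif_prob (by norm_num)
    rw [EN_cond (by norm_num) hq1 a i hai]
    have hint : ∀ z : Fin n → EE 3, ENNReal.ofReal (|a i| ^ (-(2 * k))) *
        hE 3 (2 * k) (‖∑ j, a (i.succAbove j) • z j‖ / |a i|) = 1 := by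
      intro z
      have : ∑ j, a (i.succAbove j) • z j = 0 := by
        apply Finset.sum_eq_zero
        intro j _
        rw [hz j, zero_smul]
      rw [this, norm_zero, zero_div, hE0, hab]
      simp
    simp_rw [hint]
    rw [lintegral_const, measure_univ, one_mul]
    rw [← ENNReal.ofReal_one]
    apply ENNReal.ofReal_le_ofReal
    exact (C2_ge_one (by norm_num) hq1 (by push_cast; linarith)).trans (le_max_left _ _)
  · rcases le_or_gt x x1 with hxx | hxx
    · -- 0 < x ≤ x1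
      obtain ⟨V, hV⟩ : ∃ V : ℝ, V = 2 / ((3 : ℕ) : ℝ) *
        (x ^ 2 - ∑ j, (a (i.succAbove j) / a i) ^ 4) := ⟨_, rfl⟩
      have hV1 : V ≤ 2 / 3 * x ^ 2 := by
        have : 0 ≤ ∑ j, (a (i.succAbove j) / a i) ^ 4 := by positivity
        rw [hV]
        push_cast
        linarith
      refine (EN_poly (m := 3) (by norm_num) hq1 a i hai 1 (-al 3 (2 * k)) (al 3 (2 * k) / 16) 0
        le_rfl (mid_3a_aux.poly_bound hk hk1) x V hx hxpos hV).trans ?_
      apply ENNReal.ofReal_le_ofReal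
      rw [mid_3a_aux.pow_ai hxnn hb]
      refine le_trans ?_ ((hA x hxnn hxx).trans hCle)
      apply mul_le_mul_of_nonneg_left _ (by positivity)
      rw [mid_3a_aux.al_eq]
      have hal : 0 ≤ k * (1 - 2 * k) / 3 := by
        have : 0 ≤ 1 - 2 * k := by linarith
        positivity
      have := mul_le_mul_of_nonneg_left hV1 (div_nonneg hal (by norm_num : (0 : ℝ) ≤ 16))
      nlinarith
    · -- x1 < x
      have hx01 : 0 < x := hxpos
      refine (EN_cs (m := 3) (by norm_num) hq1 (by push_cast; linarith) a ha i hx01 hx1.le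
        hb).trans ?_
      apply ENNReal.ofReal_le_ofReal
      set M := max (C2 3 (2 * k)) (Cinf 3 (2 * k)) with hM
      have hCpos : 0 < C2 3 (2 * k) := C2_pos (by norm_num) (by linarith) (by push_cast; linarith)
      have hMpos : 0 < M := lt_of_lt_of_le hCpos (le_max_left _ _)
      have hy : (1 + x) ^ 2 / (4 * x) ≤ (1 + x1) ^ 2 / (4 * x1) := by
        rw [div_le_div_iff₀ (by positivity) (by positivity)]
        nlinarith [mul_pos (sub_pos.2 hxx) (sub_pos.2 hx1), mul_pos hx1pos hx01,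
          mul_pos (sub_pos.2 hxx) (sub_pos.2 (show x1 * x < 1 by nlinarith))]
      have hy0 : 0 < (1 + x) ^ 2 / (4 * x) := by positivity
      have h1 : ((1 + x) ^ 2 / (4 * x)) ^ k * C2 3 (2 * k) ≤ M := by
        refine le_trans ?_ (hB.trans hCle)
        rw [mid_3a_aux.C2_eq hk hk1]
        apply mul_le_mul_of_nonneg_right _ (by
          have : 0 < 1 - k := by linarith
          positivity)
        exact Real.rpow_le_rpow hy0.le hy hk.le
      have h2 : ((1 + x) ^ 2 / (4 * x)) ^ (2 * k / 4) =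
          Real.sqrt (((1 + x) ^ 2 / (4 * x)) ^ k) := by
        rw [Real.sqrt_eq_rpow, ← Real.rpow_mul hy0.le]
        congr 1
        ring
      rw [h2, ← Real.sqrt_mul (by positivity), ← mul_assoc]
      calc Real.sqrt (((1 + x) ^ 2 / (4 * x)) ^ k * C2 3 (2 * k) * M)
          ≤ Real.sqrt (M * M) := Real.sqrt_le_sqrt (mul_le_mul_of_nonneg_right h1 hMpos.le)
        _ = M := Real.sqrt_mul_self hMpos.le

end

section

namespace mid_3b_aux

theorem al_eq (q : ℝ) : al 3 q = q / 2 * (1 - 2 * (q / 2)) / 3 := by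
  unfold al
  push_cast
  ring

theorem al2_nonneg {q : ℝ} (h0 : 0 ≤ q) (h1 : q ≤ 1) : 0 ≤ al2 3 q := by
  have e : al2 3 q = q * (1 - q) * (q + 2) * (q + 1) / 120 := by
    unfold al2
    push_cast
    ring
  rw [e]
  have : 0 ≤ 1 - q := by linarith
  positivity

theorem C2_three {q : ℝ} (h0 : 0 < q) (h1 : q < 1) : C2 3 q = 2 ^ (-(q / 2)) / (1 - q / 2) := by
  unfold C2
  have e1 : (((3 : ℕ) : ℝ) - 1 - q) / 2 = 1 - q / 2 := by
    push_cast
    ring
  have e2 : ((3 : ℕ) : ℝ) - 1 = 2 := by norm_num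
  have e3 : ((3 : ℕ) : ℝ) - 1 - q / 2 = (1 - q / 2) + 1 := by
    push_cast
    ring
  have e4 : (((3 : ℕ) : ℝ) - 1) / 2 = 1 := by norm_num
  rw [e1, e3, e4, e2, Real.Gamma_add_one (by linarith), Real.Gamma_one, Real.Gamma_two]
  have hG : Real.Gamma (1 - q / 2) ≠ 0 := (Real.Gamma_pos_of_pos (by linarith)).ne'
  rw [mul_one, mul_one, mul_div_mul_right _ _ hG]

theorem h1_eq {q : ℝ} (h0 : 0 < q) (h1 : q < 1) :
    4 ^ (-(q / 2)) / (1 - q / 2) = 2 ^ (-(q / 2)) * C2 3 q := by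
  rw [C2_three h0 h1]
  have e : (4 : ℝ) ^ (-(q / 2)) = 2 ^ (-(q / 2)) * 2 ^ (-(q / 2)) := by
    rw [← Real.mul_rpow (by norm_num) (by norm_num)]
    norm_num
  rw [e]
  ring

theorem h1_le {q : ℝ} (h0 : 0 < q) (h1 : q < 1) :
    4 ^ (-(q / 2)) / (1 - q / 2) ≤ 2 ^ (-(q / 2)) * max (C2 3 q) (Cinf 3 q) := by
  rw [h1_eq h0 h1]
  exact mul_le_mul_of_nonneg_left (le_max_left _ _) (by positivity)

/-- the bound for small `r` -/
theorem small_r {q : ℝ} (h0 : 0 < q) (h1 : q < 1) {r : ℝ} (hr : 0 ≤ r) (hr1 : r ≤ 1) {B : ℝ}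
    (hB : 1 - q / 2 * (1 - 2 * (q / 2)) / 3 * r ^ 2 ≤ B) : hE 3 q r ≤ ENNReal.ofReal B := by
  refine (hE_poly_lt (m := 3) (by norm_num) h0 (by push_cast; linarith) (by push_cast; linarith)
    hr hr1).trans (ENNReal.ofReal_le_ofReal ?_)
  rw [al_eq]
  have : 0 ≤ al2 3 q * r ^ 4 := mul_nonneg (al2_nonneg h0.le h1.le) (by positivity)
  linarith

/-- the bound for large `r` -/
theorem large_r {q : ℝ} (h0 : 0 < q) (h1 : q < 1) {r : ℝ} (hr : 1 ≤ r) {B : ℝ}
    (hB : (r ^ 2) ^ (-(q / 2)) * (1 - q / 2 * (1 - 2 * (q / 2)) / 3 / r ^ 2) ≤ B) :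
    hE 3 q r ≤ ENNReal.ofReal B := by
  refine (hE_poly_gt (m := 3) (by norm_num) h0 (by push_cast; linarith) (by push_cast; linarith)
    hr).trans (ENNReal.ofReal_le_ofReal ?_)
  rw [al_eq]
  have hr0 : 0 < r := by linarith
  have e : (r ^ 2) ^ (-(q / 2)) = r ^ (-q) := by
    rw [← Real.rpow_two, ← Real.rpow_mul hr0.le]
    congr 1
    ring
  rw [e] at hB
  refine le_trans ?_ hB
  apply mul_le_mul_of_nonneg_left _ (by positivity)
  have : 0 ≤ al2 3 q / r ^ 4 := div_nonneg (al2_nonneg h0.le h1.le) (by positivity)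
  linarith

/-- the bound for `r` near one -/
theorem mid_r {q : ℝ} (h0 : 0 < q) (h1 : q < 1) {r : ℝ} (hr : 0 < r) {B : ℝ}
    (hB : H3 (q / 2) (r ^ 2) ≤ B) : hE 3 q r ≤ ENNReal.ofReal B := by
  rw [hE_three h0 h1 hr]
  apply ENNReal.ofReal_le_ofReal
  unfold H3 at hB
  rw [Real.sqrt_sq hr.le] at hB
  have e : 2 - 2 * (q / 2) = 2 - q := by ring
  rw [e] at hB
  exact hB

end mid_3b_aux

theorem mid_3b {n : ℕ} {q : ℝ} (hq1 : 0.72 ≤ q) (hq2 : q < 1)
    (a : Fin (n + 1) → ℝ) (ha : ∑ j, a j ^ 2 = 1) (i : Fin (n + 1)) (hi : 1 / 2 < a i ^ 2) :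
    EN 3 q a ≤ ENNReal.ofReal (max (C2 3 q) (Cinf 3 q)) := by
  have h0 : 0 < q := by linarith
  have hk : (0.36 : ℝ) ≤ q / 2 := by linarith
  have hk1 : q / 2 < 1 / 2 := by linarith
  obtain ⟨H, hH⟩ : ∃ H : ℝ, H = 4 ^ (-(q / 2)) / (1 - q / 2) := ⟨_, rfl⟩
  have hμ : H ≤ 2 ^ (-(q / 2)) * max (C2 3 q) (Cinf 3 q) := by
    rw [hH]
    exact mid_3b_aux.h1_le h0 hq2
  have hmr : q < ((3 : ℕ) : ℝ) - 1 := by
    push_cast
    linarith
  by_cases hcase : 2 / ((3 : ℕ) : ℝ) * ((∑ j, (a (i.succAbove j) / a i) ^ 2) ^ 2 -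
      ∑ j, (a (i.succAbove j) / a i) ^ 4) ≤ 0.55 * ∑ j, (a (i.succAbove j) / a i) ^ 2
  · refine EN_big (m := 3) (by norm_num) h0 hmr a ha i hi
      (H * (1 + q / 2 / 2) - 0.0735) (-(H * (q / 2) / 2) + 0.182) (-0.1435) 0.035 H
      (by norm_num) ?_ hμ ?_
    · intro r hr
      have epoly : H * (1 + q / 2 / 2) - 0.0735 + (-(H * (q / 2) / 2) + 0.182) * r ^ 2 +
          -0.1435 * r ^ 4 + 0.035 * r ^ 6 =
          H * (1 + q / 2 / 2 * (1 - r ^ 2)) - 0.035 * (r ^ 2 - 1) ^ 2 * (2.1 - r ^ 2) := by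
        ring
      rw [epoly]
      rcases le_or_gt (r ^ 2) (4 / 5) with h | h
      · have hr1 : r ≤ 1 := by nlinarith
        apply mid_3b_aux.small_r h0 hq2 hr hr1
        rw [hH]
        exact maj_3b_low hk hk1 (by positivity) h
      · rcases le_or_gt (r ^ 2) (5 / 4) with h' | h'
        · have hr0 : 0 < r := by
            rcases hr.lt_or_eq with h2 | h2
            · exact h2
            · rw [← h2] at h
              norm_num at h
          apply mid_3b_aux.mid_r h0 hq2 hr0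
          rw [hH]
          exact maj_3b_near hk hk1 h.le h'
        · have hr1 : 1 ≤ r := by nlinarith
          apply mid_3b_aux.large_r h0 hq2 hr1
          rw [hH]
          exact maj_3b_high hk hk1 h'.le
    · intro x V hx hV hx0 hx1 hV0 hV1
      rw [← hx] at hcase
      rw [← hV] at hcase
      have hquot : 2 * V ^ 2 / x ≤ 1.1 * V := by
        rw [div_le_iff₀ hx0]
        nlinarith
      have hVx : 0 ≤ V * (3 - 3 * x) := mul_nonneg hV0 (by linarith)
      have hsq : 0 ≤ (x - 1) ^ 2 * (2.1 - x) := mul_nonneg (sq_nonneg _) (by linarith)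
      have e : H * (1 + q / 2 / 2) - 0.0735 + (-(H * (q / 2) / 2) + 0.182) * x +
          -0.1435 * (x ^ 2 + V) + 0.035 * (x ^ 3 + 3 * x * V + 2 * V ^ 2 / x) =
          H * (1 + q / 4 * (1 - x)) - 0.035 * ((x - 1) ^ 2 * (2.1 - x) + V * (3 - 3 * x) +
            (1.1 * V - 2 * V ^ 2 / x)) := by
        ring
      rw [e]
      nlinarith
  · push Not at hcase
    refine EN_big (m := 3) (by norm_num) h0 hmr a ha i hi
      1 (-(q / 2 * (1 - 2 * (q / 2)) / 3) + 0.0245 * 4.5) (-(0.0245 * 5.5)) 0.0245 H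
      (by norm_num) ?_ hμ ?_
    · intro r hr
      have epoly : 1 + (-(q / 2 * (1 - 2 * (q / 2)) / 3) + 0.0245 * 4.5) * r ^ 2 +
          -(0.0245 * 5.5) * r ^ 4 + 0.0245 * r ^ 6 =
          1 - q / 2 * (1 - 2 * (q / 2)) / 3 * r ^ 2 - 0.0245 * (r ^ 2 * (r ^ 2 - 1) * (4.5 - r ^ 2)) := by
        ring
      rw [epoly]
      rcases le_or_gt r 1 with h | h
      · apply mid_3b_aux.small_r h0 hq2 hr h
        have h2 : r ^ 2 ≤ 1 := pow_le_one₀ hr h
        have h3 : 0 ≤ r ^ 2 * (1 - r ^ 2) * (4.5 - r ^ 2) :=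
          mul_nonneg (mul_nonneg (by positivity) (by linarith)) (by linarith)
        nlinarith
      · apply mid_3b_aux.large_r h0 hq2 h.le
        exact maj_3c hk hk1 (by nlinarith)
    · intro x V hx hV hx0 hx1 hV0 hV1
      rw [← hx] at hcase
      rw [← hV] at hcase
      have hV2 : V ≤ 2 / 3 * x ^ 2 := by
        have : (2 : ℝ) / ((3 : ℕ) : ℝ) = 2 / 3 := by norm_num
        rw [this] at hV1
        exact hV1
      have h := num_3c hk hk1 hx0 hx1 hcase.le hV2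
      rw [← hH] at h
      have e : 1 + (-(q / 2 * (1 - 2 * (q / 2)) / 3) + 0.0245 * 4.5) * x +
          -(0.0245 * 5.5) * (x ^ 2 + V) + 0.0245 * (x ^ 3 + 3 * x * V + 2 * V ^ 2 / x) =
          1 - q / 2 * (1 - 2 * (q / 2)) / 3 * x - 0.0245 * (5.5 * (x ^ 2 + V) - 4.5 * x -
            (x ^ 3 + 3 * x * V + 2 * V ^ 2 / x)) := by
        ring
      have e2 : q / 4 = q / 2 / 2 := by ring
      rw [e, e2]
      exact h

end

end H618KS
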