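import Pool.Agent.Helper618_KS.Defs
import Pool.Agent.Helper618_KS.Bessel
import Pool.Agent.Helper618_KS.Crit
import Pool.Agent.Helper618_KS.FourierEq
import Pool.Agent.Helper618_KS.Holder
import Pool.Agent.Helper618_KS.Pair
import Pool.Agent.Helper618_KS.Big
import Pool.Agent.Helper618_KS.Jensen
import Pool.Agent.Helper618_KS.Mid
import Pool.Agent.Helper618_KS.MidThree

/-!
Part `Final` of the proof for MP_237b21_an.
-/

open MeasureTheory Filter Topology Set Real
open scoped ENNReal NNReal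

set_option autoImplicit false

namespace H618KS

section

namespace EN_upper_aux
-- auxiliary lemmas here
end EN_upper_aux

theorem EN_upper {m n : ℕ} (hm : 2 ≤ m) {q : ℝ} (hq : 0 < q) (hqm : q < m - 1)
    (a : Fin n → ℝ) (ha : ∑ j, a j ^ 2 = 1) :
    EN m q a ≤ ENNReal.ofReal (max (C2 m q) (Cinf m q)) := by
  by_cases hs : ∀ j, a j ^ 2 ≤ 1 / 2
  · exact EN_small hm hq hqm a ha hs
  · push Not at hs
    obtain ⟨i, hi⟩ := hs
    obtain ⟨n', rfl⟩ : ∃ n', n = n' + 1 := by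
      cases n with
      | zero => exact i.elim0
      | succ k => exact ⟨k, rfl⟩
    rcases le_or_gt ((m : ℝ) - 2) q with h1 | h1
    · exact (EN_big_ge hm hq h1 hqm a i hi.le).trans
        (ENNReal.ofReal_le_ofReal (le_max_left _ _))
    rcases le_or_gt q ((m : ℝ) - 4) with h2 | h2
    · have h5 : 5 ≤ m := by
        have : (4 : ℝ) < m := by linarith
        have : 4 < m := by exact_mod_cast this
        omega
      exact (EN_jensen h5 hq h2 a ha).trans (ENNReal.ofReal_le_ofReal (le_max_right _ _))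
    rcases le_or_gt 9 m with h9 | h9
    · exact mid_ge9 h9 h2 h1 a ha i hi
    rcases le_or_gt 6 m with h6 | h6
    · exact mid_678 h6 (by omega) h2 h1 a ha i hi
    have h3 : 2 < m := by
      have : (2 : ℝ) < m := by linarith
      exact_mod_cast this
    interval_cases m
    · norm_num at h1
      rcases le_or_gt q 0.72 with h7 | h7
      · exact mid_3a hq h7 a ha i hi
      · exact mid_3b h7.le (by linarith) a ha i hi
    · norm_num at h1
      exact mid_4 hq (by linarith) a ha i hi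
    · norm_num at h1 h2
      exact mid_5 (by linarith) (by linarith) a ha i hi

end

section

namespace bj_pow_lim_aux

theorem two_term {a : ℝ} (ha : 0 < a) (s : ℝ) (hs : s ^ 2 / 4 ≤ a) :
    |bj a s - 1 + s ^ 2 / (4 * a)| ≤ (s ^ 2 / 4) ^ 2 / (2 * (a * (a + 1))) := by
  have h := bj_taylor ha s 2 (by push_cast; nlinarith)
  simp only [Finset.sum_range_succ, Finset.sum_range_zero, Finset.prod_range_succ,
    Finset.prod_range_zero, Nat.factorial, pow_zero, pow_one, Nat.cast_zero, Nat.cast_one,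
    add_zero, one_mul, zero_add, mul_one, Nat.cast_ofNat, Nat.reduceMul, Nat.reduceAdd,
    Nat.succ_eq_add_one, div_one] at h
  have e1 : bj a s - 1 + s ^ 2 / (4 * a) = bj a s - (1 + -1 * (s ^ 2 / 4) / a) := by
    field_simp
    ring
  rw [e1]
  exact h

end bj_pow_lim_aux

theorem bj_pow_lim {m : ℕ} (hm : 2 ≤ m) (t : ℝ) :
    Tendsto (fun n : ℕ => bj ((m : ℝ) / 2) (1 / Real.sqrt n * t) ^ n) atTop
      (𝓝 (exp (-(t ^ 2 / (2 * m))))) := by
  set a : ℝ := (m : ℝ) / 2 with hadef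
  have hm0 : (2 : ℝ) ≤ m := by exact_mod_cast hm
  have ha : 0 < a := by positivity
  have hma : (m : ℝ) = 2 * a := by rw [hadef]; ring
  have h1 : Tendsto (fun n : ℕ => (n : ℝ) * (bj a (1 / Real.sqrt n * t) - 1)) atTop
      (𝓝 (-(t ^ 2 / (2 * m)))) := by
    rw [tendsto_iff_norm_sub_tendsto_zero]
    have h2 : Tendsto (fun n : ℕ => (t ^ 2 / 4) ^ 2 / (2 * (a * (a + 1))) * (1 / (n : ℝ))) atTop
        (𝓝 0) := by
      have := (tendsto_one_div_atTop_nhds_zero_nat (𝕜 := ℝ)).const_mul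
        ((t ^ 2 / 4) ^ 2 / (2 * (a * (a + 1))))
      simpa using this
    refine squeeze_zero' (Eventually.of_forall fun n => norm_nonneg _) ?_ h2
    have h3 : ∀ᶠ n : ℕ in atTop, t ^ 2 / 4 / a ≤ n :=
      (tendsto_natCast_atTop_atTop (R := ℝ)).eventually_ge_atTop _
    filter_upwards [h3, eventually_gt_atTop 0] with n hn hn0
    have hn' : (0 : ℝ) < n := by exact_mod_cast hn0
    have hs : (1 / Real.sqrt n * t) ^ 2 = t ^ 2 / n := by
      rw [mul_pow, div_pow, Real.sq_sqrt hn'.le]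
      ring
    have h4 := bj_pow_lim_aux.two_term ha (1 / Real.sqrt n * t) (by
      rw [hs]
      rw [div_le_iff₀ ha] at hn
      rw [div_div, div_le_iff₀ (by positivity)]
      nlinarith)
    rw [hs] at h4
    rw [Real.norm_eq_abs]
    have h5 : (n : ℝ) * (bj a (1 / Real.sqrt n * t) - 1) - -(t ^ 2 / (2 * m)) =
        n * (bj a (1 / Real.sqrt n * t) - 1 + t ^ 2 / n / (4 * a)) := by
      rw [hma]
      field_simp
      ring
    rw [h5, abs_mul, abs_of_pos hn']
    calc (n : ℝ) * |bj a (1 / Real.sqrt n * t) - 1 + t ^ 2 / n / (4 * a)|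
        ≤ n * ((t ^ 2 / n / 4) ^ 2 / (2 * (a * (a + 1)))) := by gcongr
      _ = _ := by
        field_simp
  have h6 := Real.tendsto_one_add_pow_exp_of_tendsto h1
  refine h6.congr fun n => ?_
  congr 1
  ring

end

section

namespace EN_equal_aux

theorem bj_cont {m : ℕ} (hm : 2 ≤ m) : Continuous (bj ((m : ℝ) / 2)) := by
  have hm0 : (0 : ℝ) < (m : ℝ) / 2 := by
    have : (0 : ℝ) < m := by exact_mod_cast (by omega : 0 < m)
    linarith
  rw [continuous_iff_continuousAt]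
  intro t
  exact (bj_hasDerivAt hm0 t).continuousAt

theorem kap_nonneg {m : ℕ} (hm : 2 ≤ m) {q : ℝ} (hq : 0 < q) (hqm : q < m) : 0 ≤ kap m q := by
  have hm0 : (0 : ℝ) < m := by exact_mod_cast (by omega : 0 < m)
  have h1 : 0 < Real.Gamma (((m : ℝ) - q) / 2) := Real.Gamma_pos_of_pos (by linarith)
  have h2 : 0 < Real.Gamma (q / 2) := Real.Gamma_pos_of_pos (by linarith)
  have h3 : 0 < Real.Gamma ((m : ℝ) / 2) := Real.Gamma_pos_of_pos (by linarith)
  unfold kap
  positivity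

/-- the integrands -/
noncomputable def G (m : ℕ) (q : ℝ) (n : ℕ) (t : ℝ) : ℝ≥0∞ :=
  ENNReal.ofReal (kap m q) *
    ENNReal.ofReal (bj ((m : ℝ) / 2) (1 / Real.sqrt ((2 * n + 2 : ℕ) : ℝ) * t) ^ (2 * n + 2) *
      t ^ (q - 1))

theorem meas_inner {m : ℕ} (hm : 2 ≤ m) (q : ℝ) (n : ℕ) :
    Measurable (fun t : ℝ => ENNReal.ofReal
      (bj ((m : ℝ) / 2) (1 / Real.sqrt ((2 * n + 2 : ℕ) : ℝ) * t) ^ (2 * n + 2) * t ^ (q - 1))) := by
  refine ENNReal.measurable_ofReal.comp (Measurable.mul ?_ ?_)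
  · exact (((bj_cont hm).comp (continuous_const.mul continuous_id)).pow _).measurable
  · exact measurable_id.pow_const _

theorem meas_G {m : ℕ} (hm : 2 ≤ m) (q : ℝ) (n : ℕ) : Measurable (G m q n) :=
  measurable_const.mul (meas_inner hm q n)

theorem int_G {m : ℕ} (hm : 2 ≤ m) {q : ℝ} (hq : 0 < q) (hqm : q < m) (n : ℕ) :
    ∫⁻ t in Ioi (0 : ℝ), G m q n t =
      EN m q (fun _ : Fin (2 * n + 2) => 1 / Real.sqrt ((2 * n + 2 : ℕ) : ℝ)) := by
  have hprod : ∀ t : ℝ, (∏ _j : Fin (2 * n + 2),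
      bj ((m : ℝ) / 2) (1 / Real.sqrt ((2 * n + 2 : ℕ) : ℝ) * t)) =
      bj ((m : ℝ) / 2) (1 / Real.sqrt ((2 * n + 2 : ℕ) : ℝ) * t) ^ (2 * n + 2) := by
    intro t
    rw [Finset.prod_const, Finset.card_univ, Fintype.card_fin]
  rw [EN_eq hm hq hqm (fun _ : Fin (2 * n + 2) => 1 / Real.sqrt ((2 * n + 2 : ℕ) : ℝ))]
  · simp only [hprod]
    unfold G
    rw [lintegral_const_mul _ (meas_inner hm q n)]
  · intro t _
    rw [hprod]
    exact Even.pow_nonneg ⟨n + 1, by ring⟩ _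

theorem lim_G {m : ℕ} (hm : 2 ≤ m) (q : ℝ) (t : ℝ) :
    Tendsto (fun n => G m q n t) atTop (𝓝 (ENNReal.ofReal (kap m q) *
      ENNReal.ofReal (exp (-(t ^ 2 / (2 * m))) * t ^ (q - 1)))) := by
  have h1 : Tendsto (fun n : ℕ => 2 * n + 2) atTop atTop :=
    tendsto_atTop_mono (fun n => (by omega : n ≤ 2 * n + 2)) tendsto_id
  have h2 := (bj_pow_lim hm t).comp h1
  have h3 := (ENNReal.continuous_ofReal.tendsto _).comp (h2.mul_const (t ^ (q - 1)))
  exact ENNReal.Tendsto.const_mul h3 (Or.inr ENNReal.ofReal_ne_top)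

end EN_equal_aux

theorem EN_equal {m : ℕ} (hm : 2 ≤ m) {q : ℝ} (hq : 0 < q) (hqm : q < m) {c : ℝ≥0∞}
    (hc : ∀ n : ℕ, EN m q (fun _ : Fin (2 * n + 2) => 1 / Real.sqrt ((2 * n + 2 : ℕ) : ℝ)) ≤ c) :
    ENNReal.ofReal (Cinf m q) ≤ c := by
  obtain ⟨hint, -⟩ := gauss_pow_int (m := m) (by omega) hq (s := 1) one_pos
  simp only [rpow_one] at hint
  have hk := EN_equal_aux.kap_nonneg hm hq hqm
  have hfin : ∫⁻ t in Ioi (0 : ℝ), ENNReal.ofReal (kap m q) *
      ENNReal.ofReal (exp (-(t ^ 2 / (2 * m))) * t ^ (q - 1)) = ENNReal.ofReal (Cinf m q) := by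
    rw [lintegral_const_mul']
    · rw [← ofReal_integral_eq_lintegral_ofReal hint, ← ENNReal.ofReal_mul hk, KP_gauss hm hq hqm]
      filter_upwards [self_mem_ae_restrict measurableSet_Ioi] with t ht
      have ht' : (0 : ℝ) < t := ht
      positivity
    · exact ENNReal.ofReal_ne_top
  rw [← hfin]
  calc ∫⁻ t in Ioi (0 : ℝ), ENNReal.ofReal (kap m q) *
        ENNReal.ofReal (exp (-(t ^ 2 / (2 * m))) * t ^ (q - 1))
      = ∫⁻ t in Ioi (0 : ℝ), liminf (fun n => EN_equal_aux.G m q n t) atTop :=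
        lintegral_congr fun t => ((EN_equal_aux.lim_G hm q t).liminf_eq).symm
    _ ≤ liminf (fun n => ∫⁻ t in Ioi (0 : ℝ), EN_equal_aux.G m q n t) atTop :=
        lintegral_liminf_le fun n => EN_equal_aux.meas_G hm q n
    _ ≤ c := by
        refine liminf_le_of_frequently_le' (Eventually.frequently (Eventually.of_forall fun n => ?_))
        rw [EN_equal_aux.int_G hm hq hqm n]
        exact hc n

end

section

namespace EN_scale_aux
-- auxiliary lemmas here
end EN_scale_aux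

theorem EN_scale {m n : ℕ} {q : ℝ} (hq : 0 < q) (a : Fin n → ℝ) {l : ℝ} (hl : 0 < l) :
    EN m q (fun j => l * a j) = ENNReal.ofReal (l ^ (-q)) * EN m q a := by
  unfold EN
  rw [← lintegral_const_mul' _ _ ENNReal.ofReal_ne_top]
  refine lintegral_congr fun x => ?_
  have h1 : ∑ j, (l * a j) • x j = l • ∑ j, a j • x j := by
    rw [Finset.smul_sum]
    exact Finset.sum_congr rfl fun j _ => by rw [smul_smul]
  have h2 : ‖l‖ₑ = ENNReal.ofReal l := by
    rw [Real.enorm_eq_ofReal hl.le]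
  rw [h1, enorm_smul, h2, ENNReal.mul_rpow_of_ne_top ENNReal.ofReal_ne_top enorm_ne_top,
    ENNReal.ofReal_rpow_of_pos hl]

end

section

namespace khinC_eq_aux

theorem rpow_anti {x y : ℝ≥0∞} {z : ℝ} (hz : z < 0) (h : x ≤ y) : y ^ z ≤ x ^ z := by
  have h1 : x ^ (-z) ≤ y ^ (-z) := ENNReal.rpow_le_rpow h (by linarith)
  have h2 : (y ^ (-z))⁻¹ ≤ (x ^ (-z))⁻¹ := ENNReal.inv_le_inv.2 h1
  rwa [← ENNReal.rpow_neg, ← ENNReal.rpow_neg, neg_neg] at h2

theorem real_min_rpow {x y z : ℝ} (hx : 0 < x) (hy : 0 < y) (hz : z < 0) :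
    min (x ^ z) (y ^ z) = (max x y) ^ z := by
  rcases le_total x y with h | h
  · rw [max_eq_right h, min_eq_right]
    exact Real.rpow_le_rpow_of_nonpos hx h hz.le
  · rw [max_eq_left h, min_eq_left]
    exact Real.rpow_le_rpow_of_nonpos hy h hz.le

theorem lint_eq (m n : ℕ) (p : ℝ) (a : Fin n → ℝ) :
    (∫⁻ x : Fin n → EE m, ‖∑ j, a j • x j‖ₑ ^ p ∂(Measure.pi fun _ => unif m)) = EN m (-p) a := by
  unfold EN
  rw [neg_neg]

theorem khin_le {m n : ℕ} {p : ℝ} (a : Fin n → ℝ) (ha : ∑ j, a j ^ 2 = 1) :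
    khinC m p ≤ (EN m (-p) a) ^ (1 / p) := by
  have ha0 : a ≠ 0 := by
    rintro rfl
    simp at ha
  unfold khinC
  refine (iInf_le _ n).trans ((iInf_le _ a).trans ((iInf_le _ ha0).trans ?_))
  rw [ha, Real.sqrt_one, ENNReal.ofReal_one, div_one, lint_eq]

theorem lower {m : ℕ} (hm : 2 ≤ m) {p : ℝ} (hp : -(m : ℝ) + 1 < p) (hp0 : p < 0) :
    ENNReal.ofReal ((max (C2 m (-p)) (Cinf m (-p))) ^ (1 / p)) ≤ khinC m p := by
  set q := -p with hq
  have hq0 : 0 < q := by rw [hq]; linarith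
  have hqm : q < m - 1 := by rw [hq]; linarith
  have hC2 := C2_pos hm hq0.le hqm
  have hM : 0 < max (C2 m q) (Cinf m q) := lt_max_of_lt_left hC2
  unfold khinC
  refine le_iInf fun n => le_iInf fun a => le_iInf fun ha => ?_
  rw [lint_eq]
  have hS : 0 < ∑ j, a j ^ 2 := by
    obtain ⟨i, hi⟩ : ∃ i, a i ≠ 0 := by
      by_contra hcon
      push Not at hcon
      exact ha (funext hcon)
    have h1 : 0 < a i ^ 2 := by positivity
    exact lt_of_lt_of_le h1 (Finset.single_le_sum (f := fun j => a j ^ 2)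
      (fun j _ => sq_nonneg _) (Finset.mem_univ i))
  set l := Real.sqrt (∑ j, a j ^ 2) with hl
  have hl0 : 0 < l := Real.sqrt_pos.2 hS
  have hl2 : l ^ 2 = ∑ j, a j ^ 2 := Real.sq_sqrt hS.le
  have ha' : a = fun j => l * (l⁻¹ * a j) := by
    funext j
    rw [← mul_assoc, mul_inv_cancel₀ hl0.ne', one_mul]
  have hsum : ∑ j, (l⁻¹ * a j) ^ 2 = 1 := by
    simp_rw [mul_pow]
    rw [← Finset.mul_sum, ← hl2, inv_pow, inv_mul_cancel₀ (by positivity)]
  have hEN : EN m q a ≤ ENNReal.ofReal (l ^ (-q) * max (C2 m q) (Cinf m q)) := by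
    rw [ha', EN_scale hq0 _ hl0, ENNReal.ofReal_mul (by positivity)]
    gcongr
    exact EN_upper hm hq0 hqm _ hsum
  have hz : (1 / p) < 0 := by
    rw [one_div]; exact inv_lt_zero.2 hp0
  have h3 := rpow_anti hz hEN
  rw [ENNReal.le_div_iff_mul_le (Or.inl (by simpa using hl0)) (Or.inl ENNReal.ofReal_ne_top)]
  refine le_trans (le_of_eq ?_) h3
  rw [ENNReal.ofReal_rpow_of_pos (by positivity), ← ENNReal.ofReal_mul (by positivity)]
  congr 1
  rw [Real.mul_rpow (by positivity) (by positivity), ← Real.rpow_mul hl0.le]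
  have : -q * (1 / p) = 1 := by
    rw [hq, neg_neg]
    exact mul_one_div_cancel hp0.ne
  rw [this, Real.rpow_one, mul_comm]

theorem upper1 {m : ℕ} (hm : 2 ≤ m) {p : ℝ} (hp : -(m : ℝ) + 1 < p) (hp0 : p < 0) :
    khinC m p ≤ ENNReal.ofReal (C2 m (-p) ^ (1 / p)) := by
  have hq0 : 0 < -p := by linarith
  have hqm : -p < m - 1 := by linarith
  refine (khin_le (fun _ : Fin 2 => 1 / Real.sqrt 2) ?_).trans ?_
  · rw [Fin.sum_univ_two, div_pow, one_pow, Real.sq_sqrt (by norm_num)]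
    norm_num
  · rw [EN_pair hm hq0 hqm, ENNReal.ofReal_rpow_of_pos (C2_pos hm hq0.le hqm)]

theorem upper2 {m : ℕ} (hm : 2 ≤ m) {p : ℝ} (hp : -(m : ℝ) + 1 < p) (hp0 : p < 0) :
    khinC m p ≤ ENNReal.ofReal (Cinf m (-p) ^ (1 / p)) := by
  have hq0 : 0 < -p := by linarith
  have hqm : -p < m - 1 := by linarith
  have hqm' : -p < m := by linarith
  have hz : (1 / p) < 0 := by
    rw [one_div]; exact inv_lt_zero.2 hp0
  have h1 : ∀ n : ℕ, EN m (-p)
      (fun _ : Fin (2 * n + 2) => 1 / Real.sqrt ((2 * n + 2 : ℕ) : ℝ)) ≤ (khinC m p) ^ p := by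
    intro n
    have hN : (0 : ℝ) < ((2 * n + 2 : ℕ) : ℝ) := by positivity
    have h2 := khin_le (m := m) (p := p)
      (fun _ : Fin (2 * n + 2) => 1 / Real.sqrt ((2 * n + 2 : ℕ) : ℝ)) (by
        rw [Finset.sum_const, Finset.card_univ, Fintype.card_fin, div_pow, one_pow,
          Real.sq_sqrt hN.le, nsmul_eq_mul]
        exact mul_one_div_cancel hN.ne')
    have h3 := rpow_anti hp0 h2
    rwa [← ENNReal.rpow_mul, one_div_mul_cancel hp0.ne, ENNReal.rpow_one] at h3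
  have h4 := EN_equal hm hq0 hqm' h1
  have h5 := rpow_anti hz h4
  rwa [← ENNReal.rpow_mul, mul_one_div_cancel hp0.ne, ENNReal.rpow_one,
    ENNReal.ofReal_rpow_of_pos (Cinf_pos hm hq0.le hqm')] at h5

end khinC_eq_aux

theorem khinC_eq (m : ℕ) (hm : 2 ≤ m) (p : ℝ) (hp : -(m : ℝ) + 1 < p) (hp0 : p < 0) :
    khinC m p = ENNReal.ofReal (min (C2 m (-p) ^ (1 / p)) (Cinf m (-p) ^ (1 / p))) := by
  have hq0 : 0 < -p := by linarith
  have hqm : -p < m - 1 := by linarith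
  have hqm' : -p < m := by linarith
  have hz : (1 / p) < 0 := by
    rw [one_div]; exact inv_lt_zero.2 hp0
  apply le_antisymm
  · rcases min_choice (C2 m (-p) ^ (1 / p)) (Cinf m (-p) ^ (1 / p)) with h | h
    · rw [h]; exact khinC_eq_aux.upper1 hm hp hp0
    · rw [h]; exact khinC_eq_aux.upper2 hm hp hp0
  · rw [khinC_eq_aux.real_min_rpow (C2_pos hm hq0.le hqm) (Cinf_pos hm hq0.le hqm') hz]
    exact khinC_eq_aux.lower hm hp hp0

end

end H618KS
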