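import Pool.Agent.Helper618_KS.Defs

/-!
Part `Psi` of the proof for MP_237b21_an.
-/

open MeasureTheory Filter Topology Set Real
open scoped ENNReal NNReal

set_option autoImplicit false

namespace H618KS

section

namespace lnG_deriv_aux
-- auxiliary lemmas here
end lnG_deriv_aux

theorem lnG_deriv {x : ℝ} (hx : 0 < x) :
    HasDerivAt (fun y : ℝ => Real.log (Real.Gamma y)) (psi x) x := by
  unfold psi
  refine DifferentiableAt.hasDerivAt ?_
  refine DifferentiableAt.log ?_ (Real.Gamma_pos_of_pos hx).ne'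
  refine Real.differentiableAt_Gamma (fun m => ?_)
  have hm : (0:ℝ) ≤ (m:ℝ) := Nat.cast_nonneg m
  intro h
  linarith

end

section

namespace psi_add_one_aux
-- auxiliary lemmas here
end psi_add_one_aux

theorem psi_add_one {x : ℝ} (hx : 0 < x) : psi (x + 1) = psi x + 1 / x := by
  have hx1 : 0 < x + 1 := by linarith
  have h1 : HasDerivAt (fun y : ℝ => Real.log (Real.Gamma (y + 1))) (psi (x + 1)) x :=
    (lnG_deriv hx1).comp_add_const x 1
  have h2 : HasDerivAt (fun y : ℝ => Real.log (Real.Gamma y) + Real.log y) (psi x + x⁻¹) x :=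
    (lnG_deriv hx).add (Real.hasDerivAt_log hx.ne')
  have h3 : (fun y : ℝ => Real.log (Real.Gamma (y + 1))) =ᶠ[𝓝 x]
      fun y : ℝ => Real.log (Real.Gamma y) + Real.log y := by
    filter_upwards [lt_mem_nhds hx] with y hy
    rw [Real.Gamma_add_one hy.ne', Real.log_mul hy.ne' (Real.Gamma_pos_of_pos hy).ne', add_comm]
  rw [one_div]
  exact h1.unique (h2.congr_of_eventuallyEq h3)

end

section

namespace psi_mono_aux
-- auxiliary lemmas here
end psi_mono_aux

theorem psi_mono {x y : ℝ} (hx : 0 < x) (hxy : x ≤ y) : psi x ≤ psi y := by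
  have h := Real.convexOn_log_Gamma
  have hm := h.monotoneOn_deriv (fun z hz => (lnG_deriv hz).differentiableAt)
  exact hm (show x ∈ Ioi (0 : ℝ) from hx) (show y ∈ Ioi (0 : ℝ) from lt_of_lt_of_le hx hxy) hxy

end

section

namespace psi_bounds_aux
-- auxiliary lemmas here
end psi_bounds_aux

theorem psi_bounds {x : ℝ} (hx : 0 < x) : psi x ≤ Real.log x ∧ Real.log x - 1 / x ≤ psi x := by
  obtain ⟨c, hc, h1⟩ := exists_hasDerivAt_eq_slope (fun y : ℝ => Real.log (Real.Gamma y)) psi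
    (show x < x + 1 by linarith)
    (fun y hy => (lnG_deriv (lt_of_lt_of_le hx hy.1)).continuousAt.continuousWithinAt)
    (fun y hy => lnG_deriv (hx.trans hy.1))
  have h2 : Real.log (Real.Gamma (x + 1)) = Real.log x + Real.log (Real.Gamma x) := by
    rw [Real.Gamma_add_one hx.ne', Real.log_mul hx.ne' (Real.Gamma_pos_of_pos hx).ne']
  have h3 : psi c = Real.log x := by
    rw [h1]
    simp only [h2]
    ring
  have h4 := psi_mono hx hc.1.le
  have h5 := psi_mono (hx.trans hc.1) hc.2.le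
  rw [psi_add_one hx] at h5
  rw [h3] at h4 h5
  exact ⟨h4, by linarith⟩

end

section

namespace psi_sub_aux
theorem partial_sum {x y : ℝ} (hx : 0 < x) (hy : 0 < y) (N : ℕ) :
    ∑ n ∈ Finset.range N, (1 / (x + (n : ℝ)) - 1 / (y + (n : ℝ))) =
      (psi y - psi x) + (psi (x + N) - psi (y + N)) := by
  induction N with
  | zero => simp
  | succ k ih =>
    have hk : (0 : ℝ) ≤ (k : ℝ) := Nat.cast_nonneg k
    have h1 := psi_add_one (x := x + k) (by linarith)
    have h2 := psi_add_one (x := y + k) (by linarith)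
    rw [Finset.sum_range_succ, ih]
    have e1 : x + ((k + 1 : ℕ) : ℝ) = x + k + 1 := by push_cast; ring
    have e2 : y + ((k + 1 : ℕ) : ℝ) = y + k + 1 := by push_cast; ring
    rw [e1, e2, h1, h2]
    ring

theorem tendsto_inv_add {x : ℝ} : Tendsto (fun N : ℕ => 1 / (x + (N : ℝ))) atTop (𝓝 0) := by
  have h : Tendsto (fun N : ℕ => x + (N : ℝ)) atTop atTop :=
    tendsto_atTop_add_const_left _ _ tendsto_natCast_atTop_atTop
  have h2 := tendsto_inv_atTop_zero.comp h
  refine h2.congr ?_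
  intro N
  simp [one_div]

theorem tendsto_log_diff {x y : ℝ} (hx : 0 < x) (hy : 0 < y) :
    Tendsto (fun N : ℕ => Real.log (x + N) - Real.log (y + N)) atTop (𝓝 0) := by
  have h1 : Tendsto (fun N : ℕ => 1 + (x - y) * (1 / (y + (N : ℝ)))) atTop (𝓝 (1 + (x - y) * 0)) :=
    (tendsto_inv_add (x := y)).const_mul (x - y) |>.const_add 1
  have h2 : Tendsto (fun N : ℕ => Real.log (1 + (x - y) * (1 / (y + (N : ℝ))))) atTop (𝓝 (Real.log (1 + (x - y) * 0))) :=
    h1.log (by norm_num)
  simp only [mul_zero, add_zero, Real.log_one] at h2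
  refine h2.congr ?_
  intro N
  have hN : (0 : ℝ) ≤ (N : ℝ) := Nat.cast_nonneg N
  have hxN : 0 < x + N := by linarith
  have hyN : 0 < y + N := by linarith
  rw [← Real.log_div hxN.ne' hyN.ne']
  congr 1
  field_simp
  ring

theorem tendsto_psi_diff {x y : ℝ} (hx : 0 < x) (hy : 0 < y) :
    Tendsto (fun N : ℕ => psi (x + N) - psi (y + N)) atTop (𝓝 0) := by
  have hl : Tendsto (fun N : ℕ => (Real.log (x + N) - Real.log (y + N)) - 1 / (x + (N : ℝ))) atTop (𝓝 0) := by
    simpa using (tendsto_log_diff hx hy).sub (tendsto_inv_add (x := x))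
  have hu : Tendsto (fun N : ℕ => (Real.log (x + N) - Real.log (y + N)) + 1 / (y + (N : ℝ))) atTop (𝓝 0) := by
    simpa using (tendsto_log_diff hx hy).add (tendsto_inv_add (x := y))
  refine tendsto_of_tendsto_of_tendsto_of_le_of_le hl hu ?_ ?_
  · intro N
    have hN : (0 : ℝ) ≤ (N : ℝ) := Nat.cast_nonneg N
    have h1 := psi_bounds (x := x + N) (by linarith)
    have h2 := psi_bounds (x := y + N) (by linarith)
    dsimp only
    linarith [h1.2, h2.1]
  · intro N
    have hN : (0 : ℝ) ≤ (N : ℝ) := Nat.cast_nonneg N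
    have h1 := psi_bounds (x := x + N) (by linarith)
    have h2 := psi_bounds (x := y + N) (by linarith)
    dsimp only
    linarith [h1.1, h2.2]

theorem sub_le_case {x y : ℝ} (hx : 0 < x) (hy : 0 < y) (hxy : x ≤ y) :
    HasSum (fun n : ℕ => 1 / (x + n) - 1 / (y + n)) (psi y - psi x) := by
  rw [hasSum_iff_tendsto_nat_of_nonneg]
  · have h : Tendsto (fun N : ℕ => (psi y - psi x) + (psi (x + N) - psi (y + N))) atTop (𝓝 ((psi y - psi x) + 0)) :=
      (tendsto_psi_diff hx hy).const_add _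
    rw [add_zero] at h
    refine h.congr ?_
    intro N
    exact (partial_sum hx hy N).symm
  · intro n
    have hn : (0 : ℝ) ≤ (n : ℝ) := Nat.cast_nonneg n
    have : 1 / (y + (n : ℝ)) ≤ 1 / (x + (n : ℝ)) :=
      one_div_le_one_div_of_le (by linarith) (by linarith)
    linarith
end psi_sub_aux

theorem psi_sub {x y : ℝ} (hx : 0 < x) (hy : 0 < y) :
    HasSum (fun n : ℕ => 1 / (x + n) - 1 / (y + n)) (psi y - psi x) := by
  rcases le_total x y with h | h
  · exact psi_sub_aux.sub_le_case hx hy h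
  · have h1 := (psi_sub_aux.sub_le_case hy hx h).neg
    have e : -(psi x - psi y) = psi y - psi x := by ring
    have e2 : (fun n : ℕ => 1 / (x + (n : ℝ)) - 1 / (y + (n : ℝ))) =
        fun n : ℕ => -(1 / (y + (n : ℝ)) - 1 / (x + (n : ℝ))) := by
      funext n
      ring
    rw [e2, ← e]
    exact h1

end

section

namespace tri_pos_aux

theorem summ {x : ℝ} (hx : 0 < x) : Summable (fun n : ℕ => 1 / (x + n) ^ 2) := by
  rw [← summable_nat_add_iff 1]
  have h1 : Summable (fun n : ℕ => 1 / ((n + 1 : ℕ) : ℝ) ^ 2) :=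
    (summable_nat_add_iff 1).mpr (Real.summable_one_div_nat_pow.mpr (by norm_num))
  refine Summable.of_nonneg_of_le (fun n => by positivity) (fun n => ?_) h1
  have hn : (0 : ℝ) < ((n + 1 : ℕ) : ℝ) := by positivity
  apply one_div_le_one_div_of_le (by positivity)
  apply pow_le_pow_left₀ hn.le
  linarith

end tri_pos_aux

theorem tri_pos {x : ℝ} (hx : 0 < x) : 0 < tri x ∧ Summable (fun n : ℕ => 1 / (x + n) ^ 2) := by
  refine ⟨?_, tri_pos_aux.summ hx⟩
  unfold tri
  exact (tri_pos_aux.summ hx).tsum_pos (fun n => by positivity) 0 (by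
    have : 0 < x + ((0 : ℕ) : ℝ) := by simpa using hx
    positivity)

end

section

namespace tri_anti_aux
-- auxiliary lemmas here
end tri_anti_aux

theorem tri_anti {x y : ℝ} (hx : 0 < x) (hxy : x ≤ y) : tri y ≤ tri x := by
  have hy : 0 < y := lt_of_lt_of_le hx hxy
  unfold tri
  refine Summable.tsum_le_tsum (fun n => ?_) (tri_pos hy).2 (tri_pos hx).2
  have h1 : 0 < x + (n : ℝ) := by positivity
  exact one_div_le_one_div_of_le (pow_pos h1 2) (pow_le_pow_left₀ h1.le (by linarith) 2)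

end

section

namespace tri_scale_aux
-- auxiliary lemmas here
end tri_scale_aux

theorem tri_scale {x y : ℝ} (hx : 0 < x) (hxy : x ≤ y) : x ^ 2 * tri x ≤ y ^ 2 * tri y := by
  have hy : 0 < y := hx.trans_le hxy
  unfold tri
  rw [← tsum_mul_left, ← tsum_mul_left]
  refine ((tri_pos hx).2.mul_left _).tsum_le_tsum (fun n => ?_) ((tri_pos hy).2.mul_left _)
  have hn : (0 : ℝ) ≤ n := Nat.cast_nonneg n
  have h1 : x / (x + n) ≤ y / (y + n) := by
    rw [div_le_div_iff₀ (by linarith) (by linarith)]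
    nlinarith
  have h2 : (x / (x + n)) ^ 2 ≤ (y / (y + n)) ^ 2 :=
    pow_le_pow_left₀ (div_nonneg hx.le (by linarith)) h1 2
  rw [div_pow, div_pow] at h2
  rw [mul_one_div, mul_one_div]
  exact h2

end

section

namespace psi_hasDerivAt_aux
-- auxiliary lemmas here
end psi_hasDerivAt_aux

theorem psi_hasDerivAt {x : ℝ} (hx : 0 < x) : HasDerivAt psi (tri x) x := by
  have hx2 : 0 < x / 2 := by linarith
  have hxt : x ∈ Set.Ioi (x / 2) := by
    rw [Set.mem_Ioi]; linarith
  have key := hasDerivAt_tsum_of_isPreconnected (u := fun n : ℕ => 1 / (x / 2 + n) ^ 2)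
    (g := fun (n : ℕ) (y : ℝ) => 1 / (x + n) - 1 / (y + n))
    (g' := fun (n : ℕ) (y : ℝ) => 1 / (y + n) ^ 2) (t := Set.Ioi (x / 2)) (y₀ := x) (y := x)
    (tri_pos hx2).2 isOpen_Ioi isPreconnected_Ioi
    (by
      intro n y hy
      have hy' : x / 2 < y := hy
      have hn : (0 : ℝ) ≤ n := Nat.cast_nonneg n
      have hne : y + n ≠ 0 := by
        have : 0 < y + n := by linarith
        exact this.ne'
      have h1 : HasDerivAt (fun y : ℝ => y + n) 1 y := (hasDerivAt_id y).add_const _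
      have h2 := (h1.inv hne).const_sub (1 / (x + n))
      have h4 : -(-1 / (y + (n : ℝ)) ^ 2) = 1 / (y + (n : ℝ)) ^ 2 := by
        rw [neg_div, neg_neg]
      rw [h4] at h2
      refine h2.congr_of_eventuallyEq (Filter.Eventually.of_forall fun z => ?_)
      show 1 / (x + (n : ℝ)) - 1 / (z + (n : ℝ)) = 1 / (x + (n : ℝ)) - (z + (n : ℝ))⁻¹
      rw [one_div (z + (n : ℝ))])
    (by
      intro n y hy
      have hy' : x / 2 < y := hy
      have hn : (0 : ℝ) ≤ n := Nat.cast_nonneg n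
      have h1 : 0 < x / 2 + n := by linarith
      have h2 : 0 < y + n := by linarith
      rw [Real.norm_of_nonneg (by positivity)]
      apply one_div_le_one_div_of_le (by positivity)
      apply pow_le_pow_left₀ h1.le
      linarith)
    hxt (by simp) hxt
  have h1 : HasDerivAt (fun z : ℝ => psi x + ∑' n : ℕ, (1 / (x + n) - 1 / (z + n))) (tri x) x :=
    key.const_add (psi x)
  refine h1.congr_of_eventuallyEq ?_
  filter_upwards [Ioi_mem_nhds hx] with z hz
  have h2 := (psi_sub hx hz).tsum_eq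
  rw [h2]
  ring

end

section

namespace tri_diff_int_aux
theorem int1 {a : ℝ} (ha : 0 < a) : ∫ t in Ioi (0 : ℝ), t * exp (-(a * t)) = 1 / a ^ 2 := by
  have h := Real.integral_rpow_mul_exp_neg_mul_Ioi (a := 2) (by norm_num) ha
  rw [Real.Gamma_two] at h
  have e : ∀ t ∈ Ioi (0 : ℝ), t ^ ((2:ℝ) - 1) * exp (-(a * t)) = t * exp (-(a * t)) := by
    intro t _
    norm_num
  rw [setIntegral_congr_fun measurableSet_Ioi e] at h
  rw [h]
  norm_num

theorem intble {a : ℝ} (ha : 0 < a) : IntegrableOn (fun t : ℝ => t * exp (-(a * t))) (Ioi 0) := by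
  have h := integrableOn_rpow_mul_exp_neg_mul_rpow (p := 1) (s := 1) (b := a) (by norm_num)
    (by norm_num) ha
  refine h.congr_fun (fun t _ => ?_) measurableSet_Ioi
  simp

/-- the summand -/
theorem F_eq (x : ℝ) (n : ℕ) (t : ℝ) :
    t * exp (-((x + n) * t)) - t * exp (-((x + n + 1 / 2) * t)) =
      t * exp (-(x * t)) * (1 - exp (-(t / 2))) * (exp (-t)) ^ n := by
  have e1 : exp (-((x + n) * t)) = exp (-(x * t)) * (exp (-t)) ^ n := by
    rw [← Real.exp_nat_mul, ← Real.exp_add]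
    congr 1; ring
  have e2 : exp (-((x + n + 1 / 2) * t)) = exp (-(x * t)) * exp (-(t / 2)) * (exp (-t)) ^ n := by
    rw [← Real.exp_nat_mul, ← Real.exp_add, ← Real.exp_add]
    congr 1; ring
  rw [e1, e2]; ring

theorem F_nonneg {x : ℝ} (n : ℕ) {t : ℝ} (ht : 0 < t) :
    0 ≤ t * exp (-((x + n) * t)) - t * exp (-((x + n + 1 / 2) * t)) := by
  rw [F_eq]
  have : exp (-(t / 2)) ≤ 1 := Real.exp_le_one_iff.2 (by linarith)
  have h2 : 0 ≤ 1 - exp (-(t / 2)) := by linarith
  positivity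

theorem F_tsum (x : ℝ) {t : ℝ} (ht : 0 < t) :
    ∑' n : ℕ, (t * exp (-((x + n) * t)) - t * exp (-((x + n + 1 / 2) * t))) =
      t * exp (-(x * t)) / (1 + exp (-(t / 2))) := by
  have h1 : exp (-t) < 1 := Real.exp_lt_one_iff.2 (by linarith)
  have h2 : exp (-(t / 2)) < 1 := Real.exp_lt_one_iff.2 (by linarith)
  have h3 : exp (-t) = exp (-(t / 2)) * exp (-(t / 2)) := by
    rw [← Real.exp_add]; congr 1; ring
  simp_rw [F_eq]
  rw [tsum_mul_left, tsum_geometric_of_lt_one (Real.exp_pos _).le h1, h3]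
  have h4 := Real.exp_pos (-(t / 2))
  have h5 : 1 - exp (-(t / 2)) ≠ 0 := by linarith
  have h6 : 1 + exp (-(t / 2)) ≠ 0 := by positivity
  have h7 : 1 - exp (-(t / 2)) * exp (-(t / 2)) = (1 - exp (-(t / 2))) * (1 + exp (-(t / 2))) := by
    ring
  rw [h7]
  field_simp
end tri_diff_int_aux

theorem tri_diff_int {x : ℝ} (hx : 0 < x) :
    x ^ 2 * (tri x - tri (x + 1 / 2)) =
      ∫ s in Ioi (0 : ℝ), s * exp (-s) / (1 + exp (-(s / (2 * x)))) := by
  classical
  set F : ℕ → ℝ → ℝ := fun n t => t * exp (-((x + n) * t)) - t * exp (-((x + n + 1 / 2) * t))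
    with hF
  have hx' : 0 < x + 1 / 2 := by linarith
  have s1 : Summable (fun n : ℕ => 1 / (x + n) ^ 2) := (tri_pos hx).2
  have s2 : Summable (fun n : ℕ => 1 / (x + 1 / 2 + n) ^ 2) := (tri_pos hx').2
  have hpos : ∀ n : ℕ, 0 < x + n := fun n => by positivity
  have hpos' : ∀ n : ℕ, 0 < x + n + 1 / 2 := fun n => by positivity
  have hint : ∀ n, Integrable (F n) (volume.restrict (Ioi 0)) := fun n =>
    (tri_diff_int_aux.intble (hpos n)).sub (tri_diff_int_aux.intble (hpos' n))
  have hval : ∀ n, ∫ t in Ioi (0:ℝ), F n t = 1 / (x + n) ^ 2 - 1 / (x + 1 / 2 + n) ^ 2 := by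
    intro n
    have e : ∫ t in Ioi (0:ℝ), F n t = (∫ t in Ioi (0:ℝ), t * exp (-((x + n) * t))) -
        ∫ t in Ioi (0:ℝ), t * exp (-((x + n + 1 / 2) * t)) :=
      integral_sub (tri_diff_int_aux.intble (hpos n)) (tri_diff_int_aux.intble (hpos' n))
    rw [e, tri_diff_int_aux.int1 (hpos n), tri_diff_int_aux.int1 (hpos' n)]
    congr 3
    ring
  have hnorm : ∀ n, ∫ t in Ioi (0:ℝ), ‖F n t‖ = 1 / (x + n) ^ 2 - 1 / (x + 1 / 2 + n) ^ 2 := by
    intro n
    rw [← hval n]
    refine setIntegral_congr_fun measurableSet_Ioi (fun t ht => ?_)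
    exact Real.norm_of_nonneg (tri_diff_int_aux.F_nonneg n ht)
  have hsum : Summable fun n => ∫ t in Ioi (0:ℝ), ‖F n t‖ := by
    simp_rw [hnorm]
    exact s1.sub s2
  have hS := hasSum_integral_of_summable_integral_norm hint hsum
  have hT : HasSum (fun n => ∫ t in Ioi (0:ℝ), F n t) (tri x - tri (x + 1 / 2)) := by
    simp_rw [hval]
    exact s1.hasSum.sub s2.hasSum
  have e1 := hT.unique hS
  have e2 : ∫ t in Ioi (0:ℝ), ∑' n, F n t =
      ∫ t in Ioi (0:ℝ), t * exp (-(x * t)) / (1 + exp (-(t / 2))) :=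
    setIntegral_congr_fun measurableSet_Ioi (fun t ht => tri_diff_int_aux.F_tsum x ht)
  rw [e1, e2]
  have h3 := integral_comp_mul_left_Ioi
    (fun s : ℝ => s * exp (-s) / (1 + exp (-(s / (2 * x))))) 0 hx
  rw [mul_zero, smul_eq_mul] at h3
  have e3 : ∫ t in Ioi (0:ℝ), (x * t) * exp (-(x * t)) / (1 + exp (-(x * t / (2 * x)))) =
      x * ∫ t in Ioi (0:ℝ), t * exp (-(x * t)) / (1 + exp (-(t / 2))) := by
    rw [← integral_const_mul]
    refine setIntegral_congr_fun measurableSet_Ioi (fun t _ => ?_)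
    have : x * t / (2 * x) = t / 2 := by field_simp
    simp only [this]
    ring
  rw [e3] at h3
  have h4 : ∫ s in Ioi (0 : ℝ), s * exp (-s) / (1 + exp (-(s / (2 * x)))) =
      x * (x * ∫ t in Ioi (0:ℝ), t * exp (-(x * t)) / (1 + exp (-(t / 2)))) := by
    rw [h3]
    field_simp
  rw [h4]
  ring

end

section

namespace tri_diff_scale_aux

theorem int0 : IntegrableOn (fun s : ℝ => s * exp (-s)) (Ioi (0 : ℝ)) := by
  have h := Real.GammaIntegral_convergent (s := 2) (by norm_num)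
  refine h.congr_fun ?_ measurableSet_Ioi
  intro s _
  show exp (-s) * s ^ ((2 : ℝ) - 1) = s * exp (-s)
  rw [show (2 : ℝ) - 1 = 1 by norm_num, Real.rpow_one, mul_comm]

theorem int1 (x : ℝ) :
    IntegrableOn (fun s : ℝ => s * exp (-s) / (1 + exp (-(s / (2 * x))))) (Ioi (0 : ℝ)) := by
  refine Integrable.mono' int0 ?_ ?_
  · refine Continuous.aestronglyMeasurable ?_
    refine Continuous.div (by fun_prop) (by fun_prop) ?_
    intro s
    have := exp_pos (-(s / (2 * x)))
    linarith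
  · rw [ae_restrict_iff' measurableSet_Ioi]
    refine Eventually.of_forall fun s hs => ?_
    have h1 := exp_pos (-(s / (2 * x)))
    have h2 : (0 : ℝ) ≤ s * exp (-s) := mul_nonneg (le_of_lt hs) (exp_pos _).le
    rw [Real.norm_of_nonneg (div_nonneg h2 (by linarith))]
    exact div_le_self h2 (by linarith)

end tri_diff_scale_aux

theorem tri_diff_scale {x y : ℝ} (hx : 0 < x) (hxy : x ≤ y) :
    y ^ 2 * (tri y - tri (y + 1 / 2)) ≤ x ^ 2 * (tri x - tri (x + 1 / 2)) := by
  rw [tri_diff_int hx, tri_diff_int (hx.trans_le hxy)]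
  refine setIntegral_mono_on (tri_diff_scale_aux.int1 y) (tri_diff_scale_aux.int1 x)
    measurableSet_Ioi ?_
  intro s hs
  have hs' : (0 : ℝ) < s := hs
  have h2 : (0 : ℝ) ≤ s * exp (-s) := mul_nonneg hs'.le (exp_pos _).le
  have h1 := exp_pos (-(s / (2 * x)))
  apply div_le_div_of_nonneg_left h2 (by linarith)
  have h3 : s / (2 * y) ≤ s / (2 * x) :=
    div_le_div_of_nonneg_left hs'.le (by linarith) (by linarith)
  have h4 : exp (-(s / (2 * x))) ≤ exp (-(s / (2 * y))) := exp_le_exp.2 (by linarith)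
  linarith

end

section

namespace tri_cross_aux
-- auxiliary lemmas here
end tri_cross_aux

theorem tri_cross {c x y : ℝ} (hc : 0 ≤ c) (hx : 0 < x) (hxy : x ≤ y)
    (h : tri x - tri (x + 1 / 2) ≤ tri (x + c)) : tri y - tri (y + 1 / 2) ≤ tri (y + c) := by
  have hy : 0 < y := lt_of_lt_of_le hx hxy
  have hxc : 0 < x + c := by linarith
  have hyc : 0 < y + c := by linarith
  have hT : 0 < tri (y + c) := (tri_pos hyc).1
  have h1 := tri_diff_scale hx hxy
  have h2 : x ^ 2 * (tri x - tri (x + 1 / 2)) ≤ x ^ 2 * tri (x + c) :=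
    mul_le_mul_of_nonneg_left h (sq_nonneg x)
  have h3 := tri_scale hxc (by linarith : x + c ≤ y + c)
  have h4 : (x * (y + c)) ^ 2 ≤ (y * (x + c)) ^ 2 := by
    apply pow_le_pow_left₀ (by positivity)
    nlinarith
  have h5 : (x + c) ^ 2 * (x ^ 2 * tri (x + c)) ≤ (x + c) ^ 2 * (y ^ 2 * tri (y + c)) := by
    calc (x + c) ^ 2 * (x ^ 2 * tri (x + c)) = x ^ 2 * ((x + c) ^ 2 * tri (x + c)) := by ring
      _ ≤ x ^ 2 * ((y + c) ^ 2 * tri (y + c)) := mul_le_mul_of_nonneg_left h3 (sq_nonneg x)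
      _ = (x * (y + c)) ^ 2 * tri (y + c) := by ring
      _ ≤ (y * (x + c)) ^ 2 * tri (y + c) := mul_le_mul_of_nonneg_right h4 hT.le
      _ = (x + c) ^ 2 * (y ^ 2 * tri (y + c)) := by ring
  have h6 : x ^ 2 * tri (x + c) ≤ y ^ 2 * tri (y + c) := le_of_mul_le_mul_left h5 (by positivity)
  have h7 : y ^ 2 * (tri y - tri (y + 1 / 2)) ≤ y ^ 2 * tri (y + c) := h1.trans (h2.trans h6)
  exact le_of_mul_le_mul_left h7 (by positivity)

end

section

namespace psi_dup_aux
-- auxiliary lemmas here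
end psi_dup_aux

theorem psi_dup {x : ℝ} (hx : 0 < x) :
    psi (2 * x) = 1 / 2 * psi x + 1 / 2 * psi (x + 1 / 2) + Real.log 2 := by
  have hx2 : 0 < x + 1 / 2 := by linarith
  have h2x : 0 < 2 * x := by linarith
  -- both sides as functions near `x`
  have h1 : HasDerivAt (fun y : ℝ => Real.log (Real.Gamma y)) (psi x) x := lnG_deriv hx
  have h2 : HasDerivAt (fun y : ℝ => Real.log (Real.Gamma (y + 1 / 2))) (psi (x + 1 / 2)) x := by
    have h := lnG_deriv hx2
    have h' : HasDerivAt (fun y : ℝ => y + 1 / 2) 1 x := (hasDerivAt_id x).add_const _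
    have h5 := HasDerivAt.comp x h h'
    rw [mul_one] at h5
    exact h5
  have h3 : HasDerivAt (fun y : ℝ => Real.log (Real.Gamma (2 * y))) (psi (2 * x) * 2) x := by
    have h := lnG_deriv h2x
    have h' : HasDerivAt (fun y : ℝ => 2 * y) 2 x := by
      simpa using (hasDerivAt_id x).const_mul 2
    exact HasDerivAt.comp x h h'
  have h4 : HasDerivAt (fun y : ℝ => (1 - 2 * y) * Real.log 2 + Real.log (√π))
      (-2 * Real.log 2) x := by
    have h' : HasDerivAt (fun y : ℝ => 2 * y) 2 x := by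
      simpa using (hasDerivAt_id x).const_mul 2
    have h5 := ((h'.const_sub 1).mul_const (Real.log 2)).add_const (Real.log (√π))
    simpa using h5
  have hL := h1.add h2
  have hR := h3.add h4
  have hev : (fun y : ℝ => Real.log (Real.Gamma y) + Real.log (Real.Gamma (y + 1 / 2)))
      =ᶠ[𝓝 x] fun y : ℝ => Real.log (Real.Gamma (2 * y))
        + ((1 - 2 * y) * Real.log 2 + Real.log (√π)) := by
    filter_upwards [lt_mem_nhds hx] with y hy
    have g1 := Real.Gamma_pos_of_pos hy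
    have g2 : 0 < Real.Gamma (y + 1 / 2) := Real.Gamma_pos_of_pos (by linarith)
    have g3 : 0 < Real.Gamma (2 * y) := Real.Gamma_pos_of_pos (by linarith)
    have g4 : (0 : ℝ) < 2 ^ (1 - 2 * y) := Real.rpow_pos_of_pos two_pos _
    have g5 : 0 < √π := Real.sqrt_pos.2 Real.pi_pos
    rw [← Real.log_mul g1.ne' g2.ne', Real.Gamma_mul_Gamma_add_half,
      Real.log_mul (mul_pos g3 g4).ne' g5.ne', Real.log_mul g3.ne' g4.ne', Real.log_rpow two_pos]
    ring
  have hL' := hL.congr_of_eventuallyEq (f₁ := fun y : ℝ => Real.log (Real.Gamma (2 * y))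
        + ((1 - 2 * y) * Real.log 2 + Real.log (√π))) hev.symm
  have huniq := hL'.unique hR
  linarith

end

section

namespace psi_key_aux

theorem log_cubic {w : ℝ} (hw : 0 < w) : Real.log (1 + w) < w - w ^ 2 / 2 + w ^ 3 / 3 := by
  have h : StrictMonoOn (fun w : ℝ => w - w ^ 2 / 2 + w ^ 3 / 3 - Real.log (1 + w)) (Set.Ici 0) := by
    apply strictMonoOn_of_deriv_pos (convex_Ici 0)
    · refine ContinuousOn.sub (by fun_prop) (ContinuousOn.log (by fun_prop) ?_)
      intro x hx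
      have : (0:ℝ) ≤ x := hx
      have h1 : (0:ℝ) < 1 + x := by linarith
      exact h1.ne'
    · intro x hx
      rw [interior_Ici] at hx
      have hx0 : (0:ℝ) < x := hx
      have h1 : (0:ℝ) < 1 + x := by linarith
      have hd : HasDerivAt (fun w : ℝ => w - w ^ 2 / 2 + w ^ 3 / 3 - Real.log (1 + w))
          (1 - (2 * x) / 2 + (3 * x ^ 2) / 3 - 1 / (1 + x)) x := by
        have a1 : HasDerivAt (fun w : ℝ => w) 1 x := hasDerivAt_id x
        have a2 : HasDerivAt (fun w : ℝ => w ^ 2 / 2) ((2 * x) / 2) x := by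
          simpa using (hasDerivAt_pow 2 x).div_const 2
        have a3 : HasDerivAt (fun w : ℝ => w ^ 3 / 3) ((3 * x ^ 2) / 3) x := by
          simpa using (hasDerivAt_pow 3 x).div_const 3
        have a4 : HasDerivAt (fun w : ℝ => Real.log (1 + w)) (1 / (1 + x)) x :=
          ((hasDerivAt_id x).const_add 1).log h1.ne'
        exact ((a1.sub a2).add a3).sub a4
      rw [hd.deriv]
      have : 1 - (2 * x) / 2 + (3 * x ^ 2) / 3 - 1 / (1 + x) = x ^ 3 / (1 + x) := by
        field_simp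
        ring
      rw [this]
      positivity
  have h2 := h (Set.mem_Ici.2 le_rfl) (Set.mem_Ici.2 hw.le) hw
  simp only at h2
  norm_num at h2
  linarith

/-- the difference of the two sides -/
noncomputable def hh (z : ℝ) : ℝ := Real.log z - 3 / 2 * psi z + 1 / 2 * psi (z - 1 / 2)

theorem hh_step {z : ℝ} (hz : 1 / 2 < z) :
    hh (z + 1) - hh z = Real.log (1 + 1 / z) - 3 / (2 * z) + 1 / (2 * z - 1) := by
  have hz0 : 0 < z := by linarith
  have h1 := psi_add_one hz0
  have h2 := psi_add_one (show 0 < z - 1 / 2 by linarith)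
  unfold hh
  rw [show z + 1 - 1 / 2 = z - 1 / 2 + 1 by ring, h1, h2]
  have h3 : Real.log (1 + 1 / z) = Real.log (z + 1) - Real.log z := by
    rw [← Real.log_div (by linarith) hz0.ne']
    congr 1
    field_simp
  rw [h3]
  have h4 : (1:ℝ) / (z - 1 / 2) = 2 / (2 * z - 1) := by
    have : 2 * z - 1 ≠ 0 := by linarith
    have : z - 1 / 2 ≠ 0 := by linarith
    field_simp
    try ring
  rw [h4]
  have h5 : (3:ℝ) / (2 * z) = 3 / 2 * (1 / z) := by
    field_simp
  rw [h5]
  ring

theorem hh_lt {z : ℝ} (hz : 2 ≤ z) : hh (z + 1) < hh z := by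
  have h1 := hh_step (show 1 / 2 < z by linarith)
  have hz0 : 0 < z := by linarith
  set w : ℝ := 1 / z with hw
  have hw0 : 0 < w := by positivity
  have hw2 : w ≤ 1 / 2 := by
    rw [hw]
    exact one_div_le_one_div_of_le (by norm_num) hz
  have h2 := log_cubic hw0
  have hzw : z = 1 / w := by rw [hw]; field_simp
  have h3 : 3 / (2 * z) = 3 * w / 2 := by rw [hw]; field_simp
  have h4 : 1 / (2 * z - 1) = w / (2 - w) := by
    rw [hzw]
    have : 2 - w ≠ 0 := by linarith
    field_simp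
  have h5 : w - w ^ 2 / 2 + w ^ 3 / 3 - 3 * w / 2 + w / (2 - w) ≤ 0 := by
    have hpos : 0 < 2 - w := by linarith
    have h6 : w / (2 - w) ≤ w / 2 + w ^ 2 / 2 - w ^ 3 / 3 := by
      rw [div_le_iff₀ hpos]
      have : 0 ≤ w ^ 2 * (1 / 2 - w) * (3 - w) := by
        have h7 : 0 ≤ 1 / 2 - w := by linarith
        have h8 : 0 ≤ 3 - w := by linarith
        positivity
      nlinarith [this]
    linarith
  rw [h3, h4] at h1
  linarith

theorem hh_add_nat {z : ℝ} (hz : 2 ≤ z) (N : ℕ) : hh (z + N) ≤ hh z := by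
  induction N with
  | zero => simp
  | succ N ih =>
    have : (0:ℝ) ≤ N := Nat.cast_nonneg N
    have h1 := hh_lt (show 2 ≤ z + N by linarith)
    push_cast
    rw [← add_assoc]
    linarith

theorem hh_lower {y : ℝ} (hy : 1 ≤ y) : - (3 / 2) / (2 * y - 1) ≤ hh y := by
  have hy0 : 0 < y := by linarith
  have h1 := (psi_bounds hy0).1
  have h2 := (psi_bounds (show 0 < y - 1 / 2 by linarith)).2
  have h3 : Real.log y - Real.log (y - 1 / 2) ≤ 1 / (2 * y - 1) := by
    rw [← Real.log_div hy0.ne' (by linarith)]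
    have h4 := Real.log_le_sub_one_of_pos (show 0 < y / (y - 1 / 2) by
      apply div_pos hy0; linarith)
    have h5 : y / (y - 1 / 2) - 1 = 1 / (2 * y - 1) := by
      have ha : 2 * y - 1 ≠ 0 := by linarith
      have hb : y - 1 / 2 = (2 * y - 1) / 2 := by ring
      rw [hb, div_div_eq_mul_div, div_sub_one ha]
      congr 1
      ring
    linarith
  have h4 : (1:ℝ) / (y - 1 / 2) = 2 * (1 / (2 * y - 1)) := by
    have : 2 * y - 1 ≠ 0 := by linarith
    have : y - 1 / 2 ≠ 0 := by linarith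
    field_simp
    try ring
  rw [h4] at h2
  have h5 : - (3 / 2 : ℝ) / (2 * y - 1) = - (3 / 2) * (1 / (2 * y - 1)) := by ring
  rw [h5]
  unfold hh
  linarith

theorem hh_nonneg {z : ℝ} (hz : 2 ≤ z) : 0 ≤ hh z := by
  by_contra hneg
  push Not at hneg
  obtain ⟨N, hN⟩ := exists_nat_gt (1 / (- hh z))
  have hN0 : (0:ℝ) ≤ N := Nat.cast_nonneg N
  have h1 := hh_add_nat hz N
  have h2 := hh_lower (show 1 ≤ z + N by linarith)
  have h3 : - (3 / 2 : ℝ) / (2 * (z + N) - 1) ≤ hh z := h2.trans h1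
  have hpos : (0:ℝ) < 2 * (z + N) - 1 := by linarith
  rw [div_le_iff₀ hpos] at h3
  have hp : 0 < - hh z := by linarith
  rw [div_lt_iff₀ hp] at hN
  nlinarith

theorem hh_pos {z : ℝ} (hz : 2 ≤ z) : 0 < hh z :=
  (hh_nonneg (show 2 ≤ z + 1 by linarith)).trans_lt (hh_lt hz)

theorem log_seven_thirds : Real.log (7 / 3) < 17 / 20 := by
  have h1 : Real.log (7 / 3) = Real.log 2 + Real.log (1 + 1 / 6) := by
    rw [← Real.log_mul (by norm_num) (by norm_num)]
    norm_num
  have h2 := log_cubic (show (0:ℝ) < 1 / 6 by norm_num)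
  have h3 := Real.log_two_lt_d9
  rw [h1]
  norm_num at h2 h3 ⊢
  linarith

theorem hh_three : 0 < hh (3 / 2) := by
  have h1 := hh_step (show (1:ℝ) / 2 < 3 / 2 by norm_num)
  have h2 := hh_step (show (1:ℝ) / 2 < 5 / 2 by norm_num)
  have h3 := hh_pos (show (2:ℝ) ≤ 7 / 2 by norm_num)
  have h4 := log_seven_thirds
  have h5 : Real.log (7 / 3) = Real.log (1 + 1 / (3 / 2)) + Real.log (1 + 1 / (5 / 2)) := by
    rw [← Real.log_mul (by norm_num) (by norm_num)]
    norm_num
  rw [show (3:ℝ) / 2 + 1 = 5 / 2 by norm_num] at h1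
  rw [show (5:ℝ) / 2 + 1 = 7 / 2 by norm_num] at h2
  have e1 : (3:ℝ) / (2 * (3 / 2)) = 1 := by norm_num
  have e2 : (1:ℝ) / (2 * (3 / 2) - 1) = 1 / 2 := by norm_num
  have e3 : (3:ℝ) / (2 * (5 / 2)) = 3 / 5 := by norm_num
  have e4 : (1:ℝ) / (2 * (5 / 2) - 1) = 1 / 4 := by norm_num
  rw [e1, e2] at h1
  rw [e3, e4] at h2
  linarith

end psi_key_aux

theorem psi_key {m : ℕ} (hm : 3 ≤ m) :
    psi ((m : ℝ) / 2) - psi (((m : ℝ) - 1) / 2) + psi ((m : ℝ) - 1) < Real.log m := by
  have hm3 : (3:ℝ) ≤ m := by exact_mod_cast hm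
  have hpos : 0 < psi_key_aux.hh ((m:ℝ) / 2) := by
    rcases Nat.lt_or_ge m 4 with h | h
    · have : m = 3 := by omega
      subst this
      have := psi_key_aux.hh_three
      norm_num at this ⊢
      exact this
    · have h4 : (4:ℝ) ≤ m := by exact_mod_cast h
      exact psi_key_aux.hh_pos (by linarith)
  have hdup := psi_dup (show 0 < ((m:ℝ) - 1) / 2 by linarith)
  rw [show 2 * (((m:ℝ) - 1) / 2) = (m:ℝ) - 1 by ring,
    show ((m:ℝ) - 1) / 2 + 1 / 2 = (m:ℝ) / 2 by ring] at hdup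
  have hlog : Real.log m = Real.log 2 + Real.log ((m:ℝ) / 2) := by
    rw [← Real.log_mul (by norm_num) (by linarith)]
    congr 1
    ring
  unfold psi_key_aux.hh at hpos
  rw [show (m:ℝ) / 2 - 1 / 2 = ((m:ℝ) - 1) / 2 by ring] at hpos
  rw [hdup, hlog]
  linarith

end

end H618KS
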