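import Pool.Agent.Helper618_KS.Defs
import Pool.Agent.Helper618_KS.Holder
import Pool.Agent.Helper618_KS.Psi

/-!
Part `Phase` of the proof for MP_237b21_an.
-/

open MeasureTheory Filter Topology Set Real
open scoped ENNReal NNReal

set_option autoImplicit false

namespace H618KS

section

namespace FF_eq_aux
-- auxiliary lemmas here
end FF_eq_aux

theorem FF_eq {m : ℕ} (hm : 2 ≤ m) {q : ℝ} (hq : 0 ≤ q) (hqm : q < m - 1) :
    C2 m q = Cinf m q * exp (FF m (((m : ℝ) - 1 - q) / 2)) := by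
  have hm' : (2 : ℝ) ≤ m := by exact_mod_cast hm
  have hm0 : (0 : ℝ) < m := by linarith
  have e1 : ((m : ℝ) - 1 - q) / 2 + 1 / 2 = ((m : ℝ) - q) / 2 := by ring
  have e2 : ((m : ℝ) - 1 - q) / 2 + ((m : ℝ) - 1) / 2 = (m : ℝ) - 1 - q / 2 := by ring
  have e3 : ((m : ℝ) - 1 - q) / 2 - ((m : ℝ) - 1) / 2 = -(q / 2) := by ring
  have g1 : 0 < Real.Gamma (((m : ℝ) - 1 - q) / 2) := Real.Gamma_pos_of_pos (by linarith)
  have g2 : 0 < Real.Gamma (((m : ℝ) - q) / 2) := Real.Gamma_pos_of_pos (by linarith)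
  have g3 : 0 < Real.Gamma ((m : ℝ) - 1 - q / 2) := Real.Gamma_pos_of_pos (by linarith)
  have g4 : 0 < Real.Gamma ((m : ℝ) - 1) := Real.Gamma_pos_of_pos (by linarith)
  have g5 : 0 < Real.Gamma ((m : ℝ) / 2) := Real.Gamma_pos_of_pos (by linarith)
  have g6 : 0 < Real.Gamma (((m : ℝ) - 1) / 2) := Real.Gamma_pos_of_pos (by linarith)
  have hE : exp (FF m (((m : ℝ) - 1 - q) / 2)) =
      Real.Gamma (((m : ℝ) - 1 - q) / 2) / Real.Gamma (((m : ℝ) - q) / 2) /
        Real.Gamma ((m : ℝ) - 1 - q / 2) * (m : ℝ) ^ (-(q / 2)) *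
        (Real.Gamma ((m : ℝ) - 1) * Real.Gamma ((m : ℝ) / 2) /
          Real.Gamma (((m : ℝ) - 1) / 2)) := by
    unfold FF
    rw [e1, e2, e3, Real.exp_add, Real.exp_add, Real.exp_sub, Real.exp_sub, Real.exp_sub,
      Real.exp_add, Real.exp_log g1, Real.exp_log g2, Real.exp_log g3, Real.exp_log g4,
      Real.exp_log g5, Real.exp_log g6, Real.rpow_def_of_pos hm0, mul_comm (-(q / 2)) (Real.log m)]
  rw [hE]
  unfold C2 Cinf
  rw [Real.div_rpow hm0.le (by norm_num : (0 : ℝ) ≤ 2), Real.rpow_neg hm0.le,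
    Real.rpow_neg (by norm_num : (0 : ℝ) ≤ 2)]
  have hp1 : 0 < (m : ℝ) ^ (q / 2) := Real.rpow_pos_of_pos hm0 _
  have hp2 : 0 < (2 : ℝ) ^ (q / 2) := Real.rpow_pos_of_pos (by norm_num) _
  field_simp

end

section

namespace FF_end_aux
-- auxiliary lemmas here
end FF_end_aux

theorem FF_end {m : ℕ} (hm : 2 ≤ m) : FF m (((m : ℝ) - 1) / 2) = 0 := by
  unfold FF
  have e1 : ((m : ℝ) - 1) / 2 + 1 / 2 = (m : ℝ) / 2 := by ring
  have e2 : ((m : ℝ) - 1) / 2 + ((m : ℝ) - 1) / 2 = (m : ℝ) - 1 := by ring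
  rw [e1, e2]
  ring

end

section

namespace FF_hasDerivAt_aux
-- auxiliary lemmas here
end FF_hasDerivAt_aux

theorem FF_hasDerivAt {m : ℕ} (hm : 2 ≤ m) {y : ℝ} (hy : 0 < y) :
    HasDerivAt (FF m) (psi y - psi (y + 1 / 2) - psi (y + ((m : ℝ) - 1) / 2) + Real.log m) y ∧
    HasDerivAt (fun y => psi y - psi (y + 1 / 2) - psi (y + ((m : ℝ) - 1) / 2) + Real.log m)
      (tri y - tri (y + 1 / 2) - tri (y + ((m : ℝ) - 1) / 2)) y := by
  have hm' : (2 : ℝ) ≤ m := by exact_mod_cast hm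
  have h2 : 0 < y + 1 / 2 := by linarith
  have h3 : 0 < y + ((m : ℝ) - 1) / 2 := by linarith
  constructor
  · have a1 := lnG_deriv hy
    have a2 := (lnG_deriv h2).comp_add_const y (1 / 2)
    have a3 := (lnG_deriv h3).comp_add_const y (((m : ℝ) - 1) / 2)
    have a4 : HasDerivAt (fun y : ℝ => (y - ((m : ℝ) - 1) / 2) * Real.log m) (Real.log m) y := by
      have := ((hasDerivAt_id y).sub_const (((m : ℝ) - 1) / 2)).mul_const (Real.log m)
      simpa using this
    exact (((a1.sub a2).sub a3).add a4).add_const _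
  · have a1 := psi_hasDerivAt hy
    have a2 := (psi_hasDerivAt h2).comp_add_const y (1 / 2)
    have a3 := (psi_hasDerivAt h3).comp_add_const y (((m : ℝ) - 1) / 2)
    exact ((a1.sub a2).sub a3).add_const _

end

section

namespace FF_top_aux

theorem contG {c : ℝ} (hc : 0 < c) :
    Tendsto (fun y : ℝ => Real.log (Real.Gamma (y + c))) (𝓝[>] 0) (𝓝 (Real.log (Real.Gamma c))) := by
  have h1 : ContinuousAt Real.Gamma c := by
    refine (Real.differentiableAt_Gamma (s := c) ?_).continuousAt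
    intro m
    have : (0 : ℝ) ≤ m := Nat.cast_nonneg m
    linarith
  have h2 : ContinuousAt (fun y : ℝ => Real.log (Real.Gamma (y + c))) 0 := by
    refine ContinuousAt.log ?_ ?_
    · refine ContinuousAt.comp (f := fun y : ℝ => y + c) (g := Real.Gamma) ?_ ?_
      · simpa using h1
      · exact (continuous_id.add continuous_const).continuousAt
    · simpa using (Real.Gamma_pos_of_pos hc).ne'
  have h3 := h2.tendsto
  simp only [zero_add] at h3
  exact h3.mono_left nhdsWithin_le_nhds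

theorem topG : Tendsto (fun y : ℝ => Real.log (Real.Gamma y)) (𝓝[>] 0) atTop := by
  have h1 := contG (c := 1) one_pos
  have h2 : Tendsto (fun y : ℝ => -Real.log y) (𝓝[>] 0) atTop :=
    tendsto_neg_atBot_atTop.comp Real.tendsto_log_nhdsGT_zero
  have h3 := h2.atTop_add h1
  refine h3.congr' ?_
  filter_upwards [self_mem_nhdsWithin] with y hy
  have hy' : 0 < y := hy
  have e : Real.Gamma (y + 1) = y * Real.Gamma y := Real.Gamma_add_one hy'.ne'
  rw [e, Real.log_mul hy'.ne' (Real.Gamma_pos_of_pos hy').ne']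
  ring

end FF_top_aux

open FF_top_aux in
theorem FF_top {m : ℕ} (hm : 2 ≤ m) : Tendsto (FF m) (𝓝[>] 0) atTop := by
  have hm' : (2 : ℝ) ≤ m := by exact_mod_cast hm
  have h1 := contG (c := 1 / 2) (by norm_num)
  have h2 := contG (c := ((m : ℝ) - 1) / 2) (by linarith)
  have h3 : Tendsto (fun y : ℝ => (y - ((m : ℝ) - 1) / 2) * Real.log m) (𝓝[>] 0)
      (𝓝 ((0 - ((m : ℝ) - 1) / 2) * Real.log m)) := by
    have : Continuous (fun y : ℝ => (y - ((m : ℝ) - 1) / 2) * Real.log m) := by fun_prop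
    exact (this.tendsto 0).mono_left nhdsWithin_le_nhds
  have h4 := topG.atTop_add (((h1.neg.add h2.neg).add h3).add_const
    (Real.log (Real.Gamma ((m : ℝ) - 1)) + Real.log (Real.Gamma ((m : ℝ) / 2)) -
      Real.log (Real.Gamma (((m : ℝ) - 1) / 2))))
  refine h4.congr fun y => ?_
  unfold FF
  ring

end

section

namespace FF_shape_aux

theorem shape_gen (F G g : ℝ → ℝ) (c : ℝ) (hc : 0 < c)
    (hF : ∀ y : ℝ, 0 < y → HasDerivAt F (G y) y) (hG : ∀ y : ℝ, 0 < y → HasDerivAt G (g y) y)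
    (cross : ∀ x y : ℝ, 0 < x → x ≤ y → g x ≤ 0 → g y ≤ 0) (hGc : 0 < G c) (hFc : F c = 0)
    (htop : Tendsto F (𝓝[>] 0) atTop) :
    ∃ y0 : ℝ, 0 < y0 ∧ y0 < c ∧ F y0 = 0 ∧ (∀ y : ℝ, 0 < y → y < y0 → 0 < F y) ∧
      (∀ y : ℝ, y0 < y → y < c → F y < 0) := by
  have hFcont : ∀ y : ℝ, 0 < y → ContinuousAt F y := fun y hy => (hF y hy).continuousAt
  have hGcont : ∀ y : ℝ, 0 < y → ContinuousAt G y := fun y hy => (hG y hy).continuousAt
  -- claim A
  have hA : ∀ x y : ℝ, 0 < x → x < y → y ≤ c → 0 ≤ G x → 0 < G y := by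
    intro x y hx hxy hyc hGx
    by_cases hz : ∃ z, x ≤ z ∧ z ≤ y ∧ g z ≤ 0
    · obtain ⟨z, hxz, hzy, hgz⟩ := hz
      have hzpos : 0 < z := lt_of_lt_of_le hx hxz
      have hanti : AntitoneOn G (Set.Icc z c) := by
        refine antitoneOn_of_deriv_nonpos (convex_Icc z c) ?_ ?_ ?_
        · intro t ht
          exact (hGcont t (lt_of_lt_of_le hzpos ht.1)).continuousWithinAt
        · intro t ht
          rw [interior_Icc] at ht
          exact (hG t (lt_trans hzpos ht.1)).differentiableAt.differentiableWithinAt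
        · intro t ht
          rw [interior_Icc] at ht
          rw [(hG t (lt_trans hzpos ht.1)).deriv]
          exact cross z t hzpos ht.1.le hgz
      have := hanti ⟨hzy, hyc⟩ ⟨hzy.trans hyc, le_refl c⟩ hyc
      linarith
    · push Not at hz
      have hmono : StrictMonoOn G (Set.Icc x y) := by
        refine strictMonoOn_of_deriv_pos (convex_Icc x y) ?_ ?_
        · intro t ht
          exact (hGcont t (lt_of_lt_of_le hx ht.1)).continuousWithinAt
        · intro t ht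
          rw [interior_Icc] at ht
          rw [(hG t (lt_trans hx ht.1)).deriv]
          exact hz t ht.1.le ht.2.le
      have := hmono ⟨le_refl x, hxy.le⟩ ⟨hxy.le, le_refl y⟩ hxy
      linarith
  -- a point with F > 0
  obtain ⟨y1, hy1F, hy1⟩ : ∃ y1, 0 < F y1 ∧ (0 < y1 ∧ y1 < c) := by
    have h1 : ∀ᶠ y in 𝓝[>] (0 : ℝ), 0 < F y := htop.eventually_gt_atTop 0
    have h2 : ∀ᶠ y in 𝓝[>] (0 : ℝ), (0 < y ∧ y < c) := by
      have : Set.Ioo (0 : ℝ) c ∈ 𝓝[>] (0 : ℝ) := Ioo_mem_nhdsGT hc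
      filter_upwards [this] with y hy
      exact hy
    obtain ⟨y, hy⟩ := (h1.and h2).exists
    exact ⟨y, hy.1, hy.2⟩
  obtain ⟨hy1pos, hy1c⟩ := hy1
  -- a point with G < 0
  obtain ⟨ξ, hξ, hξG⟩ : ∃ ξ ∈ Set.Ioo y1 c, G ξ = (F c - F y1) / (c - y1) := by
    refine exists_hasDerivAt_eq_slope F G hy1c ?_ ?_
    · intro t ht
      exact (hFcont t (lt_of_lt_of_le hy1pos ht.1)).continuousWithinAt
    · intro t ht
      exact hF t (lt_trans hy1pos ht.1)
  have hξneg : G ξ < 0 := by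
    rw [hξG, hFc]
    exact div_neg_of_neg_of_pos (by linarith) (by linarith)
  have hξpos : 0 < ξ := lt_trans hy1pos hξ.1
  -- the zero of G
  obtain ⟨a, ha, haG⟩ : ∃ a ∈ Set.Ioo ξ c, G a = 0 := by
    have hcont : ContinuousOn G (Set.Icc ξ c) := fun t ht =>
      (hGcont t (lt_of_lt_of_le hξpos ht.1)).continuousWithinAt
    have := intermediate_value_Ioo hξ.2.le hcont
    exact this ⟨hξneg, hGc⟩
  have hapos : 0 < a := lt_trans hξpos ha.1
  have hGneg : ∀ x : ℝ, 0 < x → x < a → G x < 0 := by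
    intro x hx hxa
    by_contra hcon
    push Not at hcon
    have := hA x a hx hxa ha.2.le hcon
    linarith
  have hGpos : ∀ x : ℝ, a < x → x ≤ c → 0 < G x := fun x hax hxc =>
    hA a x hapos hax hxc haG.ge
  have hanti : StrictAntiOn F (Set.Ioc 0 a) := by
    refine strictAntiOn_of_deriv_neg (convex_Ioc 0 a) ?_ ?_
    · intro t ht
      exact (hFcont t ht.1).continuousWithinAt
    · intro t ht
      rw [interior_Ioc] at ht
      rw [(hF t ht.1).deriv]
      exact hGneg t ht.1 ht.2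
  have hmono : StrictMonoOn F (Set.Icc a c) := by
    refine strictMonoOn_of_deriv_pos (convex_Icc a c) ?_ ?_
    · intro t ht
      exact (hFcont t (lt_of_lt_of_le hapos ht.1)).continuousWithinAt
    · intro t ht
      rw [interior_Icc] at ht
      rw [(hF t (lt_trans hapos ht.1)).deriv]
      exact hGpos t ht.1 ht.2.le
  have hright : ∀ y : ℝ, a ≤ y → y < c → F y < 0 := by
    intro y hay hyc
    have := hmono ⟨hay, hyc.le⟩ ⟨ha.2.le, le_refl c⟩ hyc
    rwa [hFc] at this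
  have hy1a : y1 < a := by
    by_contra hcon
    push Not at hcon
    have := hright y1 hcon hy1c
    linarith
  obtain ⟨y0, hy0, hy0F⟩ : ∃ y0 ∈ Set.Ioo y1 a, F y0 = 0 := by
    have hcont : ContinuousOn F (Set.Icc y1 a) := fun t ht =>
      (hFcont t (lt_of_lt_of_le hy1pos ht.1)).continuousWithinAt
    have := intermediate_value_Ioo' hy1a.le hcont
    exact this ⟨hright a (le_refl a) ha.2, hy1F⟩
  have hy0pos : 0 < y0 := lt_trans hy1pos hy0.1
  refine ⟨y0, hy0pos, lt_trans hy0.2 ha.2, hy0F, ?_, ?_⟩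
  · intro y hy hyy0
    have := hanti ⟨hy, (lt_trans hyy0 hy0.2).le⟩ ⟨hy0pos, hy0.2.le⟩ hyy0
    rwa [hy0F] at this
  · intro y hyy0 hyc
    rcases le_or_gt a y with h | h
    · exact hright y h hyc
    · have := hanti ⟨hy0pos, hy0.2.le⟩ ⟨lt_trans hy0pos hyy0, h.le⟩ hyy0
      rwa [hy0F] at this

end FF_shape_aux

theorem FF_shape {m : ℕ} (hm : 3 ≤ m) : ∃ y0 : ℝ, 0 < y0 ∧ y0 < ((m : ℝ) - 1) / 2 ∧ FF m y0 = 0 ∧
    (∀ y : ℝ, 0 < y → y < y0 → 0 < FF m y) ∧
    (∀ y : ℝ, y0 < y → y < ((m : ℝ) - 1) / 2 → FF m y < 0) := by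
  have hm2 : 2 ≤ m := by omega
  have hmR : (3 : ℝ) ≤ (m : ℝ) := by exact_mod_cast hm
  refine FF_shape_aux.shape_gen (FF m)
    (fun y => psi y - psi (y + 1 / 2) - psi (y + ((m : ℝ) - 1) / 2) + Real.log m)
    (fun y => tri y - tri (y + 1 / 2) - tri (y + ((m : ℝ) - 1) / 2)) (((m : ℝ) - 1) / 2)
    (by linarith) (fun y hy => (FF_hasDerivAt hm2 hy).1) (fun y hy => (FF_hasDerivAt hm2 hy).2)
    ?_ ?_ (FF_end hm2) (FF_top hm2)
  · intro x y hx hxy h
    have := tri_cross (c := ((m : ℝ) - 1) / 2) (by linarith) hx hxy (by simpa using h)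
    simpa using this
  · have hk := psi_key hm
    have e1 : ((m : ℝ) - 1) / 2 + 1 / 2 = (m : ℝ) / 2 := by ring
    have e2 : ((m : ℝ) - 1) / 2 + ((m : ℝ) - 1) / 2 = (m : ℝ) - 1 := by ring
    show 0 < psi (((m : ℝ) - 1) / 2) - psi (((m : ℝ) - 1) / 2 + 1 / 2) -
      psi (((m : ℝ) - 1) / 2 + ((m : ℝ) - 1) / 2) + Real.log m
    rw [e1, e2]
    linarith

end

section

namespace phase_ge_three_aux
-- auxiliary lemmas here
end phase_ge_three_aux

theorem phase_ge_three {m : ℕ} (hm : 3 ≤ m) : ∃ q0 : ℝ, 0 < q0 ∧ q0 < (m : ℝ) - 1 ∧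
    C2 m q0 = Cinf m q0 ∧ (∀ q : ℝ, 0 < q → q < q0 → C2 m q < Cinf m q) ∧
    (∀ q : ℝ, q0 < q → q < m - 1 → Cinf m q < C2 m q) := by
  obtain ⟨y0, hy0, hy1, hF0, hFpos, hFneg⟩ := FF_shape hm
  refine ⟨(m : ℝ) - 1 - 2 * y0, by linarith, by linarith, ?_, ?_, ?_⟩
  · have h := FF_eq (m := m) (by omega) (q := (m : ℝ) - 1 - 2 * y0) (by linarith) (by linarith)
    have e : ((m : ℝ) - 1 - ((m : ℝ) - 1 - 2 * y0)) / 2 = y0 := by ring
    rw [h, e, hF0, Real.exp_zero, mul_one]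
  · intro q hq hq0
    have hC := Cinf_pos (m := m) (by omega) hq.le (by linarith)
    have h := FF_eq (m := m) (by omega) (q := q) hq.le (by linarith)
    have hF := hFneg (((m : ℝ) - 1 - q) / 2) (by linarith) (by linarith)
    rw [h]
    have h1 : Real.exp (FF m (((m : ℝ) - 1 - q) / 2)) < 1 := Real.exp_lt_one_iff.mpr hF
    nlinarith
  · intro q hq0 hqm
    have hq : 0 < q := by linarith
    have hC := Cinf_pos (m := m) (by omega) hq.le (by linarith)
    have h := FF_eq (m := m) (by omega) (q := q) hq.le (by linarith)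
    have hF := hFpos (((m : ℝ) - 1 - q) / 2) (by linarith) (by linarith)
    rw [h]
    have h1 : 1 < Real.exp (FF m (((m : ℝ) - 1 - q) / 2)) := Real.one_lt_exp_iff.mpr hF
    nlinarith

end

section

namespace phase_two_aux

/-- the first derivative of the comparison function -/
noncomputable def M (s : ℝ) : ℝ := Real.log 2 - 2 * psi (1 - 2 * s) + 3 * psi (1 - s)

/-- the comparison function -/
noncomputable def L (s : ℝ) : ℝ :=
  s * Real.log 2 + Real.log (Real.Gamma (1 - 2 * s)) - 3 * Real.log (Real.Gamma (1 - s))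

theorem hasDerivAt_lin (a : ℝ) (s : ℝ) : HasDerivAt (fun s : ℝ => 1 - a * s) (-a) s := by
  have h := ((hasDerivAt_id s).const_mul a).const_sub 1
  simpa using h

theorem L_hasDerivAt {s : ℝ} (hs : s < 1 / 2) : HasDerivAt L (M s) s := by
  have h1 : HasDerivAt (fun s : ℝ => Real.log (Real.Gamma (1 - 2 * s))) (psi (1 - 2 * s) * (-2)) s :=
    HasDerivAt.comp (h₂ := fun y : ℝ => Real.log (Real.Gamma y)) s
      (lnG_deriv (x := 1 - 2 * s) (by linarith)) (hasDerivAt_lin 2 s)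
  have h2 : HasDerivAt (fun s : ℝ => Real.log (Real.Gamma (1 - s))) (psi (1 - s) * (-1)) s := by
    have h := hasDerivAt_lin 1 s
    simp only [one_mul] at h
    exact HasDerivAt.comp (h₂ := fun y : ℝ => Real.log (Real.Gamma y)) s
      (lnG_deriv (x := 1 - s) (by linarith)) h
  have h3 : HasDerivAt (fun s : ℝ => s * Real.log 2) (Real.log 2) s := by
    simpa using (hasDerivAt_id s).mul_const (Real.log 2)
  have h := (h3.add h1).sub (h2.const_mul 3)
  have e : M s = Real.log 2 + psi (1 - 2 * s) * (-2) - 3 * (psi (1 - s) * (-1)) := by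
    unfold M; ring
  rw [e]
  exact h

theorem M_hasDerivAt {s : ℝ} (hs : s < 1 / 2) :
    HasDerivAt M (4 * tri (1 - 2 * s) - 3 * tri (1 - s)) s := by
  have h1 : HasDerivAt (fun s : ℝ => psi (1 - 2 * s)) (tri (1 - 2 * s) * (-2)) s :=
    (psi_hasDerivAt (x := 1 - 2 * s) (by linarith)).comp s (hasDerivAt_lin 2 s)
  have h2 : HasDerivAt (fun s : ℝ => psi (1 - s)) (tri (1 - s) * (-1)) s := by
    have h := hasDerivAt_lin 1 s
    simp only [one_mul] at h
    exact (psi_hasDerivAt (x := 1 - s) (by linarith)).comp s h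
  have h := ((h1.const_mul 2).const_sub (Real.log 2)).add (h2.const_mul 3)
  have e : 4 * tri (1 - 2 * s) - 3 * tri (1 - s) =
      -(2 * (tri (1 - 2 * s) * (-2))) + 3 * (tri (1 - s) * (-1)) := by ring
  rw [e]
  exact h

theorem psi_one : psi 1 = -Real.eulerMascheroniConstant := by
  have h1 : HasDerivAt (fun y : ℝ => Real.log (Real.Gamma y)) (-Real.eulerMascheroniConstant / Real.Gamma 1) 1 :=
    Real.hasDerivAt_Gamma_one.log (by rw [Real.Gamma_one]; exact one_ne_zero)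
  rw [Real.Gamma_one, div_one] at h1
  exact h1.deriv

theorem M_zero : 0 < M 0 := by
  have h1 := Real.eulerMascheroniConstant_lt_two_thirds
  have h2 := Real.log_two_gt_d9
  have e : M 0 = Real.log 2 + psi 1 := by
    unfold M
    rw [mul_zero, sub_zero]; ring
  rw [e, psi_one]
  norm_num at h2
  linarith

theorem M_pos {s : ℝ} (h0 : 0 ≤ s) (hs : s < 1 / 2) : 0 < M s := by
  have hmono : StrictMonoOn M (Set.Ico 0 (1 / 2)) := by
    apply strictMonoOn_of_deriv_pos (convex_Ico 0 (1 / 2))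
    · intro x hx
      exact (M_hasDerivAt hx.2).continuousAt.continuousWithinAt
    · intro x hx
      rw [interior_Ico] at hx
      rw [(M_hasDerivAt hx.2).deriv]
      have h1 : tri (1 - x) ≤ tri (1 - 2 * x) := tri_anti (by linarith [hx.2]) (by linarith [hx.1])
      have h2 := (tri_pos (x := 1 - x) (by linarith [hx.2])).1
      linarith
  rcases eq_or_lt_of_le h0 with h | h
  · rw [← h]; exact M_zero
  · exact M_zero.trans (hmono ⟨le_rfl, by norm_num⟩ ⟨h0, hs⟩ h)

theorem L_pos {s : ℝ} (h0 : 0 < s) (hs : s < 1 / 2) : 0 < L s := by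
  have hmono : StrictMonoOn L (Set.Ico 0 (1 / 2)) := by
    apply strictMonoOn_of_deriv_pos (convex_Ico 0 (1 / 2))
    · intro x hx
      exact (L_hasDerivAt hx.2).continuousAt.continuousWithinAt
    · intro x hx
      rw [interior_Ico] at hx
      rw [(L_hasDerivAt hx.2).deriv]
      exact M_pos hx.1.le hx.2
  have h := hmono ⟨le_rfl, by norm_num⟩ ⟨h0.le, hs⟩ h0
  have e : L 0 = 0 := by
    unfold L
    simp
  rwa [e] at h

end phase_two_aux

theorem phase_two {q : ℝ} (hq : 0 < q) (hq1 : q < 1) : Cinf 2 q < C2 2 q := by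
  obtain ⟨s, hs⟩ : ∃ s, s = q / 2 := ⟨_, rfl⟩
  have hs0 : 0 < s := by rw [hs]; linarith
  have hs1 : s < 1 / 2 := by rw [hs]; linarith
  have hA : 0 < Real.Gamma (1 - 2 * s) := Real.Gamma_pos_of_pos (by linarith)
  have hB : 0 < Real.Gamma (1 - s) := Real.Gamma_pos_of_pos (by linarith)
  have hL := phase_two_aux.L_pos hs0 hs1
  have hkey : Real.Gamma (1 - s) ^ 3 < 2 ^ s * Real.Gamma (1 - 2 * s) := by
    have h2 : (0 : ℝ) < 2 ^ s := by positivity
    rw [← Real.log_lt_log_iff (by positivity) (by positivity), Real.log_mul h2.ne' hA.ne',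
      Real.log_rpow (by norm_num), Real.log_pow]
    unfold phase_two_aux.L at hL
    push_cast
    linarith
  have hdup := Real.Gamma_mul_Gamma_add_half (1 / 2 - s)
  have e1 : (1 / 2 - s) + 1 / 2 = 1 - s := by ring
  have e2 : 2 * (1 / 2 - s) = 1 - 2 * s := by ring
  have e3 : 1 - (1 - 2 * s) = 2 * s := by ring
  rw [e1, e2, e3] at hdup
  have c1 : Cinf 2 q = Real.Gamma (1 - s) := by
    unfold Cinf
    have a1 : (((2 : ℕ) : ℝ) - q) / 2 = 1 - s := by rw [hs]; push_cast; ring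
    have a2 : ((2 : ℕ) : ℝ) / 2 = 1 := by norm_num
    rw [a1, a2, Real.one_rpow, Real.Gamma_one]
    ring
  have c2 : C2 2 q = 2 ^ (-s) * Real.Gamma (1 / 2 - s) / (Real.Gamma (1 - s) * √Real.pi) := by
    unfold C2
    have a1 : (((2 : ℕ) : ℝ) - 1 - q) / 2 = 1 / 2 - s := by rw [hs]; push_cast; ring
    have a2 : ((2 : ℕ) : ℝ) - 1 = 1 := by norm_num
    have a3 : ((2 : ℕ) : ℝ) - 1 - q / 2 = 1 - s := by rw [hs]; push_cast; ring
    have a4 : (((2 : ℕ) : ℝ) - 1) / 2 = 1 / 2 := by norm_num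
    rw [a1, a3, a4, a2, Real.Gamma_one, Real.Gamma_one_half_eq, ← hs]
    ring
  have hpi : 0 < √Real.pi := Real.sqrt_pos.2 Real.pi_pos
  have hG : Real.Gamma (1 / 2 - s) = Real.Gamma (1 - 2 * s) * 2 ^ (2 * s) * √Real.pi / Real.Gamma (1 - s) := by
    rw [eq_div_iff hB.ne']
    exact hdup
  rw [c1, c2, hG]
  have e4 : (2 : ℝ) ^ (2 * s) = 2 ^ s * 2 ^ s := by
    rw [← Real.rpow_add (by norm_num)]; congr 1; ring
  have e5 : (2 : ℝ) ^ (-s) * 2 ^ s = 1 := by
    rw [← Real.rpow_add (by norm_num)]; simp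
  have e6 : (2 : ℝ) ^ (-s) * (Real.Gamma (1 - 2 * s) * 2 ^ (2 * s) * √Real.pi / Real.Gamma (1 - s)) /
      (Real.Gamma (1 - s) * √Real.pi) = (2 ^ s * Real.Gamma (1 - 2 * s)) / Real.Gamma (1 - s) ^ 2 := by
    rw [e4]
    generalize Real.Gamma (1 - 2 * s) = G
    field_simp
    linear_combination G * e5
  rw [e6, lt_div_iff₀ (by positivity)]
  calc Real.Gamma (1 - s) * Real.Gamma (1 - s) ^ 2 = Real.Gamma (1 - s) ^ 3 := by ring
    _ < _ := hkey

end

end H618KS
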